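import Pool.Agent.Work.MP_a793bb_nt.PolyHeight

set_option autoImplicit false
set_option linter.unusedSectionVars false

namespace Pool.Agent.Work.MP_a793bb_nt

open NumberField IsDedekindDomain Height Polynomial UniqueFactorizationMonoid

variable {K : Type*} [Field K] [NumberField K] [DecidableEq K]

/-- factorisation of the radical at two roots -/
lemma exists_factor {P : K[X]} (hP : P ≠ 0) {r₁ r₂ : K} (hr : r₁ ≠ r₂) (h1 : P.eval r₁ = 0)
    (h2 : P.eval r₂ = 0) {n : ℕ} (hn : (radical P).natDegree ≤ n + 1) :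
    ∃ G : K[X], radical P = (X - C r₁) * (X - C r₂) * G ∧ G.natDegree ≤ n - 1 := by
  have hd1 : (X - C r₁) ∣ radical P := by
    rw [dvd_radical_iff_of_irreducible (irreducible_X_sub_C r₁) hP]
    exact dvd_iff_isRoot.mpr h1
  have hd2 : (X - C r₂) ∣ radical P := by
    rw [dvd_radical_iff_of_irreducible (irreducible_X_sub_C r₂) hP]
    exact dvd_iff_isRoot.mpr h2
  have hcop : IsCoprime (X - C r₁) (X - C r₂) := isCoprime_X_sub_C_of_isUnit_sub
    (sub_ne_zero.mpr hr).isUnit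
  obtain ⟨G, hG⟩ := hcop.mul_dvd hd1 hd2
  refine ⟨G, hG, ?_⟩
  have hG0 : G ≠ 0 := by
    rintro rfl
    rw [mul_zero] at hG
    exact radical_ne_zero hG
  have := congrArg natDegree hG
  rw [natDegree_mul (mul_ne_zero (X_sub_C_ne_zero _) (X_sub_C_ne_zero _)) hG0,
    natDegree_mul (X_sub_C_ne_zero _) (X_sub_C_ne_zero _), natDegree_X_sub_C,
    natDegree_X_sub_C] at this
  omega

lemma badPrimes_values_subset {A B C' : K[X]} (hP : A * B * C' ≠ 0)
    {r₁ r₂ : K} (hr : r₁ ≠ r₂) {G : K[X]}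
    (hG : radical (A * B * C') = (X - C r₁) * (X - C r₂) * G) :
    ∃ S₀ : Set (HeightOneSpectrum (𝓞 K)), S₀.Finite ∧ ∀ x : K,
      (A * B * C').eval (r₁ + (r₂ - r₁) * x) ≠ 0 →
      badPrimes (A.eval (r₁ + (r₂ - r₁) * x)) (B.eval (r₁ + (r₂ - r₁) * x))
        (C'.eval (r₁ + (r₂ - r₁) * x)) ⊆
        S₀ ∪ Ip x ∪ Zp (G.eval (r₁ + (r₂ - r₁) * x)) := by
  obtain ⟨N, Q, hQ⟩ := exists_dvd_radical_self_pow hP
  have hr' : r₂ - r₁ ≠ 0 := sub_ne_zero.mpr hr.symm
  refine ⟨coeffBad A ∪ coeffBad B ∪ coeffBad C' ∪ coeffBad Q ∪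
    coeffBad (C r₁ : K[X]) ∪ {p | av p (r₂ - r₁) ≠ 1}, ?_, ?_⟩
  · exact (((((finite_coeffBad A).union (finite_coeffBad B)).union (finite_coeffBad C')).union
      (finite_coeffBad Q)).union
      (finite_coeffBad _)).union (finite_av_ne_one hr')
  intro x hx p hp
  set t := r₁ + (r₂ - r₁) * x with ht
  by_contra hcon
  simp only [Set.mem_union, not_or, Set.mem_ofPred_eq, not_not] at hcon
  obtain ⟨⟨⟨⟨⟨⟨⟨hA, hB⟩, hC⟩, hQb⟩, hr1⟩, hr21⟩, hI⟩, hZ⟩ := hcon
  rw [mem_Ip, not_not] at hI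
  obtain ⟨hx1, hx2⟩ := hI
  have hr1' : av p r₁ ≤ 1 := by
    by_contra h
    exact hr1 ⟨0, by simpa using h⟩
  have hmul : av p ((r₂ - r₁) * x) = 1 := by rw [av_mul, hr21, hx1, one_mul]
  have ht1 : av p t ≤ 1 := (av_add_le p _ _).trans (max_le hr1' hmul.le)
  have hAt := av_eval_le_one hA ht1
  have hBt := av_eval_le_one hB ht1
  have hCt := av_eval_le_one hC ht1
  have hQt := av_eval_le_one hQb ht1
  have hGt : 1 ≤ av p (G.eval t) := by
    by_contra h
    exact hZ (not_le.mp h)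
  -- the radical is a unit at p
  have hrad : av p ((radical (A * B * C')).eval t) = av p (G.eval t) := by
    rw [hG]
    have e1 : t - r₁ = (r₂ - r₁) * x := by rw [ht]; ring
    have e2 : t - r₂ = -((r₂ - r₁) * (1 - x)) := by rw [ht]; ring
    simp only [eval_mul, eval_sub, eval_X, eval_C]
    rw [av_mul, av_mul, e1, e2, av_neg, av_mul, av_mul, hr21, hx1, hx2]
    ring
  have hpow : av p ((radical (A * B * C')).eval t) ^ N =
      av p ((A * B * C').eval t) * av p (Q.eval t) := by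
    rw [← av_pow, ← av_mul, ← eval_pow, ← eval_mul, hQ]
  rw [hrad] at hpow
  have h1 : 1 ≤ av p (G.eval t) ^ N := one_le_pow₀ hGt
  rw [hpow] at h1
  have hABC : av p ((A * B * C').eval t) = av p (A.eval t) * av p (B.eval t) * av p (C'.eval t) := by
    rw [eval_mul, eval_mul, av_mul, av_mul]
  rw [hABC] at h1
  have nA := av_nonneg p (A.eval t)
  have nB := av_nonneg p (B.eval t)
  have nC := av_nonneg p (C'.eval t)
  have nQ := av_nonneg p (Q.eval t)
  -- all three are one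
  have hprod : 1 ≤ av p (A.eval t) * av p (B.eval t) * av p (C'.eval t) := by
    have : 0 ≤ av p (A.eval t) * av p (B.eval t) * av p (C'.eval t) := by positivity
    nlinarith
  have hAB : av p (A.eval t) * av p (B.eval t) ≤ 1 := mul_le_one₀ hAt nB hBt
  have hC1 : av p (C'.eval t) = 1 := by nlinarith [mul_nonneg nA nB]
  rw [hC1, mul_one] at hprod
  have hA1 : av p (A.eval t) = 1 := by nlinarith
  have hB1 : av p (B.eval t) = 1 := by nlinarith
  rw [mem_badPrimes_iff] at hp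
  exact hp ⟨by rw [hA1, hB1], by rw [hB1, hC1]⟩


/-- height of an affine change of variable -/
lemma logHeight₁_affine_ge (r s : K) (hs : s ≠ 0) :
    ∃ C : ℝ, ∀ x : K, logHeight₁ x ≤ logHeight₁ (r + s * x) + C := by
  obtain ⟨C, hC⟩ := logHeight₁_eval_le (C (s⁻¹) * (X - Polynomial.C r) : K[X]) 1 (by
    refine (natDegree_C_mul_le _ _).trans ?_
    rw [natDegree_X_sub_C])
  refine ⟨C, fun x => ?_⟩
  have h := hC (r + s * x)
  have : (Polynomial.C (s⁻¹) * (X - Polynomial.C r) : K[X]).eval (r + s * x) = x := by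
    simp only [eval_mul, eval_C, eval_sub, eval_X]
    field_simp
    ring
  rw [this] at h
  simpa using h

lemma logHeight₁_affine_le (r s : K) :
    ∃ C : ℝ, ∀ x : K, logHeight₁ (r + s * x) ≤ logHeight₁ x + C := by
  obtain ⟨C, hC⟩ := logHeight₁_eval_le (Polynomial.C r + Polynomial.C s * X : K[X]) 1 (by
    compute_degree)
  refine ⟨C, fun x => ?_⟩
  have h := hC x
  simpa using h

lemma exists_bound_of_finite {S : Set K} (hS : S.Finite) :
    ∃ C : ℝ, ∀ x ∈ S, logHeight₁ x ≤ C := by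
  obtain ⟨C, hC⟩ := (hS.image logHeight₁).bddAbove
  exact ⟨C, fun x hx => hC ⟨x, hx, rfl⟩⟩

/-- The core of the extremal identities theorem. -/
theorem extremal_core_le (A B C' : K[X]) (hcop : IsCoprime A B) (hP : A * B * C' ≠ 0)
    {n : ℕ} (hn : 1 ≤ n) (hdeg : max A.natDegree B.natDegree = n)
    (hrad : (radical (A * B * C')).natDegree ≤ n + 1) {r₁ r₂ : K} (hr : r₁ ≠ r₂)
    (h1 : (A * B * C').eval r₁ = 0) (h2 : (A * B * C').eval r₂ = 0) (S : Set K)
    (H : ∀ ε : ℝ, 0 < ε → ∃ C : ℝ, ∀ x ∈ S, (A * B * C').eval (r₁ + (r₂ - r₁) * x) ≠ 0 →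
      ht (A.eval (r₁ + (r₂ - r₁) * x)) (B.eval (r₁ + (r₂ - r₁) * x))
        (C'.eval (r₁ + (r₂ - r₁) * x)) <
      (1 + ε) * rad (A.eval (r₁ + (r₂ - r₁) * x)) (B.eval (r₁ + (r₂ - r₁) * x))
        (C'.eval (r₁ + (r₂ - r₁) * x)) + C) :
    AffABC K S := by
  obtain ⟨G, hG, hGdeg⟩ := exists_factor hP hr h1 h2 hrad
  obtain ⟨S₀, hS₀, hsub⟩ := badPrimes_values_subset hP hr hG
  obtain ⟨C1, hC1⟩ := logHeight_triple_ge hcop hn hdeg
  have hr' : r₂ - r₁ ≠ 0 := sub_ne_zero.mpr hr.symm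
  obtain ⟨C2, hC2⟩ := logHeight₁_affine_ge r₁ (r₂ - r₁) hr'
  obtain ⟨C3, hC3⟩ := logHeight₁_affine_le r₁ (r₂ - r₁)
  obtain ⟨C4, hC4⟩ := logHeight₁_eval_le G (n - 1) hGdeg
  -- exceptional points
  have hfin : {x : K | (A * B * C').eval (r₁ + (r₂ - r₁) * x) = 0}.Finite := by
    have hroots : {t : K | (A * B * C').eval t = 0}.Finite := by
      have := (A * B * C').roots.toFinset.finite_toSet
      refine this.subset ?_
      intro t ht
      simp only [Finset.mem_coe, Multiset.mem_toFinset, mem_roots hP]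
      exact ht
    refine Set.Finite.preimage (f := fun x => r₁ + (r₂ - r₁) * x) ?_ hroots
    intro x _ y _ hxy
    simpa [hr'] using hxy
  obtain ⟨C5, hC5⟩ := exists_bound_of_finite hfin
  intro ε hε
  have hd : (0 : ℝ) < Module.finrank ℚ K := finrank_pos'
  set m : ℝ := (n : ℝ) - 1 with hm
  have hm0 : 0 ≤ m := by
    have : (1 : ℝ) ≤ n := by exact_mod_cast hn
    linarith
  have hncast : ((n - 1 : ℕ) : ℝ) = m := by
    rw [hm]; push_cast [Nat.cast_sub hn]; ring
  set δ : ℝ := ε / (1 + (1 + ε) * m) with hδ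
  have hden : 0 < 1 + (1 + ε) * m := by positivity
  have hδpos : 0 < δ := div_pos hε hden
  obtain ⟨C, hC⟩ := H δ hδpos
  -- constants
  set q : ℝ := 1 - δ * m with hq
  have hq' : 1 + δ = (1 + ε) * q := by
    have : δ * (1 + (1 + ε) * m) = ε := by rw [hδ]; field_simp
    rw [hq]; linear_combination this
  have hqpos : 0 < q := by
    have h3 : 0 < (1 + ε) * q := by rw [← hq']; linarith
    by_contra hcon
    have : (1 + ε) * q ≤ 0 := mul_nonpos_of_nonneg_of_nonpos (by linarith) (not_lt.mp hcon)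
    linarith
  -- the bound
  refine ⟨max C5 (((1 + δ) * (Rs S₀ + m * C3 + C4) + Module.finrank ℚ K * C + C1 + n * C2) / q),
    fun x hxS hx0 hx1 => ?_⟩
  have hRs := Rs_nonneg (Ip x)
  by_cases hx : (A * B * C').eval (r₁ + (r₂ - r₁) * x) = 0
  · have := hC5 x hx
    have h5 : 0 ≤ (1 + ε) * Rs (Ip x) := by positivity
    have h6 := le_max_left C5
      (((1 + δ) * (Rs S₀ + m * C3 + C4) + Module.finrank ℚ K * C + C1 + n * C2) / q)
    linarith
  set t := r₁ + (r₂ - r₁) * x with htdef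
  have hGt : G.eval t ≠ 0 := by
    intro h0
    have hrad0 : (radical (A * B * C')).eval t = 0 := by rw [hG, eval_mul, h0, mul_zero]
    have := eval_dvd (x := t) (radical_dvd_self (a := A * B * C'))
    rw [hrad0, zero_dvd_iff] at this
    exact hx this
  have hfinZ := finite_Zp hGt
  have hfinI := finite_Ip hx0 hx1
  have hbad := Rs_mono ((hS₀.union hfinI).union hfinZ) (hsub x hx)
  have hbad2 := Rs_union_le (hS₀.union hfinI) hfinZ
  have hbad3 := Rs_union_le hS₀ hfinI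
  have hZ := Rs_Zp_le hGt
  have hG4 := hC4 t
  have h3 := hC3 x
  have h2' := hC2 x
  have h1' := hC1 t (C'.eval t)
  have hmain := hC x hxS hx
  rw [rad_eq, ht, div_lt_iff₀ hd] at hmain
  have hmain2 : ((1 + δ) * (Rs (badPrimes (A.eval t) (B.eval t) (C'.eval t)) /
      (Module.finrank ℚ K : ℝ)) + C) * (Module.finrank ℚ K : ℝ) =
      (1 + δ) * Rs (badPrimes (A.eval t) (B.eval t) (C'.eval t)) + Module.finrank ℚ K * C := by
    field_simp
  rw [hmain2] at hmain
  rw [hncast] at hG4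
  have hRle : Rs (badPrimes (A.eval t) (B.eval t) (C'.eval t)) ≤
      Rs S₀ + Rs (Ip x) + (m * (logHeight₁ x + C3) + C4) := by
    have : m * logHeight₁ t ≤ m * (logHeight₁ x + C3) := mul_le_mul_of_nonneg_left h3 hm0
    linarith
  have hH : (n : ℝ) * logHeight₁ x ≤ n * logHeight₁ t + n * C2 := by
    have hn0 : (0 : ℝ) ≤ n := by positivity
    nlinarith
  have hfinal : q * logHeight₁ x ≤ (1 + δ) * Rs (Ip x) +
      ((1 + δ) * (Rs S₀ + m * C3 + C4) + Module.finrank ℚ K * C + C1 + n * C2) := by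
    have h7 : (1 + δ) * Rs (badPrimes (A.eval t) (B.eval t) (C'.eval t)) ≤
        (1 + δ) * (Rs S₀ + Rs (Ip x) + (m * (logHeight₁ x + C3) + C4)) :=
      mul_le_mul_of_nonneg_left hRle (by linarith)
    have hnm : (n : ℝ) = m + 1 := by rw [hm]; ring
    have h8 : (n : ℝ) * logHeight₁ x ≤
        (1 + δ) * (Rs S₀ + Rs (Ip x) + (m * (logHeight₁ x + C3) + C4)) +
          Module.finrank ℚ K * C + C1 + n * C2 := by linarith
    have h9 : q * logHeight₁ x = n * logHeight₁ x - (1 + δ) * (m * logHeight₁ x) := by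
      rw [hq, hnm]; ring
    rw [h9]
    nlinarith [h8]
  have hfinal2 : logHeight₁ x ≤ (1 + ε) * Rs (Ip x) +
      ((1 + δ) * (Rs S₀ + m * C3 + C4) + Module.finrank ℚ K * C + C1 + n * C2) / q := by
    rw [hq'] at hfinal
    have h10 : q * ((1 + ε) * Rs (Ip x) +
      ((1 + δ) * (Rs S₀ + m * C3 + C4) + Module.finrank ℚ K * C + C1 + n * C2) / q) =
      (1 + ε) * q * Rs (Ip x) +
      ((1 + δ) * (Rs S₀ + m * C3 + C4) + Module.finrank ℚ K * C + C1 + n * C2) := by
      field_simp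
    refine le_of_mul_le_mul_left ?_ hqpos
    rw [h10, hq']
    exact hfinal
  have h11 := le_max_right C5
      (((1 + δ) * (Rs S₀ + m * C3 + C4) + Module.finrank ℚ K * C + C1 + n * C2) / q)
  linarith

/-- The core of the extremal identities theorem, with equality in the degree condition. -/
theorem extremal_core (A B C' : K[X]) (hcop : IsCoprime A B)
    {n : ℕ} (hn : 1 ≤ n) (hdeg : max A.natDegree B.natDegree = n)
    (hrad : (radical (A * B * C')).natDegree = n + 1) {r₁ r₂ : K} (hr : r₁ ≠ r₂)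
    (h1 : (A * B * C').eval r₁ = 0) (h2 : (A * B * C').eval r₂ = 0) (S : Set K)
    (H : ∀ ε : ℝ, 0 < ε → ∃ C : ℝ, ∀ x ∈ S, (A * B * C').eval (r₁ + (r₂ - r₁) * x) ≠ 0 →
      ht (A.eval (r₁ + (r₂ - r₁) * x)) (B.eval (r₁ + (r₂ - r₁) * x))
        (C'.eval (r₁ + (r₂ - r₁) * x)) <
      (1 + ε) * rad (A.eval (r₁ + (r₂ - r₁) * x)) (B.eval (r₁ + (r₂ - r₁) * x))
        (C'.eval (r₁ + (r₂ - r₁) * x)) + C) :
    AffABC K S := by
  have hP : A * B * C' ≠ 0 := by
    rintro h
    rw [h, radical_zero, natDegree_one] at hrad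
    omega
  exact extremal_core_le A B C' hcop hP hn hdeg hrad.le hr h1 h2 S H

end Pool.Agent.Work.MP_a793bb_nt
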