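import Pool.Agent.Work.MP_a793bb_nt.Selmer
import Pool.Agent.Work.MP_a793bb_nt.Extremal

set_option autoImplicit false
set_option linter.unusedSectionVars false

namespace Pool.Agent.Work.MP_a793bb_nt

open NumberField IsDedekindDomain Height

/-- polar closeness -/
lemma norm_div_sub_one_le {z z' : ℂ} (hz : z ≠ 0) (hz' : z' ≠ 0) {δ : ℝ} (hδ : δ ≤ 1 / 2)
    (h1 : |Real.log ‖z‖ - Real.log ‖z'‖| ≤ δ) (h2 : |Complex.arg z - Complex.arg z'| ≤ δ) :
    ‖z / z' - 1‖ ≤ 4 * δ := by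
  have e : z / z' = Complex.exp (Complex.log z - Complex.log z') := by
    rw [Complex.exp_sub, Complex.exp_log hz, Complex.exp_log hz']
  have hw : ‖Complex.log z - Complex.log z'‖ ≤ 2 * δ := by
    refine (Complex.norm_le_abs_re_add_abs_im _).trans ?_
    rw [Complex.sub_re, Complex.sub_im, Complex.log_re, Complex.log_re, Complex.log_im,
      Complex.log_im]
    linarith
  rw [e]
  refine (Complex.norm_exp_sub_one_le ?_).trans ?_
  · linarith
  · linarith

/-- closeness of roots -/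
lemma root_close {i : ℕ} (hi : 1 ≤ i) {x x' : ℂ} (hx : x ≠ 0) (hx' : x' ≠ 0)
    (h : |Complex.arg x - Complex.arg x'| ≤ 1 / i) : ‖x / x' - 1‖ ≤ ‖(x / x') ^ i - 1‖ := by
  set θ : ℝ := Complex.arg x - Complex.arg x' with hθ
  set ρ : ℝ := ‖x‖ / ‖x'‖ with hρ
  have hρ0 : 0 < ρ := div_pos (norm_pos_iff.mpr hx) (norm_pos_iff.mpr hx')
  have e : x / x' = ρ * Complex.exp (θ * Complex.I) := by
    have e1 := Complex.norm_mul_exp_arg_mul_I x
    have e2 := Complex.norm_mul_exp_arg_mul_I x'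
    have h1 : (‖x'‖ : ℂ) ≠ 0 := by exact_mod_cast (norm_ne_zero_iff.mpr hx')
    have h2 : Complex.exp (Complex.arg x' * Complex.I) ≠ 0 := Complex.exp_ne_zero _
    calc x / x' = (‖x‖ * Complex.exp (Complex.arg x * Complex.I)) /
          (‖x'‖ * Complex.exp (Complex.arg x' * Complex.I)) := by rw [e1, e2]
      _ = ρ * Complex.exp (θ * Complex.I) := by
        rw [hθ, hρ]
        push_cast
        rw [sub_mul, Complex.exp_sub]
        field_simp
  have hi0 : (0 : ℝ) < i := by exact_mod_cast hi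
  have hre : ∀ j ∈ Finset.range i, 0 ≤ ((x / x') ^ j).re := by
    intro j hj
    rw [Finset.mem_range] at hj
    have e3 : (x / x') ^ j = ((ρ ^ j : ℝ) : ℂ) * Complex.exp (((j * θ : ℝ) : ℂ) * Complex.I) := by
      rw [e, mul_pow, ← Complex.exp_nat_mul]
      push_cast
      ring_nf
    rw [e3, Complex.re_ofReal_mul, Complex.exp_ofReal_mul_I_re]
    apply mul_nonneg (by positivity)
    apply Real.cos_nonneg_of_mem_Icc
    have h3 : |(j : ℝ) * θ| ≤ 1 := by
      rw [abs_mul, abs_of_nonneg (by positivity : (0 : ℝ) ≤ j)]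
      have hj' : (j : ℝ) ≤ i := by exact_mod_cast hj.le
      calc (j : ℝ) * |θ| ≤ i * (1 / i) := mul_le_mul hj' h (abs_nonneg _) (by positivity)
        _ = 1 := by field_simp
    rw [abs_le] at h3
    have hpi := Real.pi_gt_three
    constructor <;> linarith [h3.1, h3.2]
  have hsum : 1 ≤ ‖∑ j ∈ Finset.range i, (x / x') ^ j‖ := by
    have h4 : 1 ≤ (∑ j ∈ Finset.range i, (x / x') ^ j).re := by
      rw [Complex.re_sum]
      have h5 := Finset.single_le_sum (f := fun j => ((x / x') ^ j).re) hre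
        (Finset.mem_range.mpr (by omega : 0 < i))
      simpa using h5
    exact h4.trans (Complex.re_le_norm _)
  have hg := geom_sum_mul (x / x') i
  rw [← hg, norm_mul]
  have := norm_nonneg (x / x' - 1)
  nlinarith

open Classical in
/-- the quantity whose polar coordinates are recorded -/
noncomputable def cz (s : ℂ) : ℂ := if ‖1 + s‖ ≤ ‖s‖ ∧ ‖1 + s‖ ≤ 1 then (1 + s) / s else s

open Classical in
/-- the label of a cell at one archimedean place -/
noncomputable def lab (i : ℕ) (δ : ℝ) (s x : ℂ) : Bool × ℤ × ℤ × ℤ :=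
  (decide (‖1 + s‖ ≤ ‖s‖ ∧ ‖1 + s‖ ≤ 1), ⌊Real.log ‖cz s‖ / δ⌋, ⌊Complex.arg (cz s) / δ⌋,
    ⌊(i : ℝ) * Complex.arg x⌋)

lemma abs_sub_le_of_floor_eq {a b δ : ℝ} (hδ : 0 < δ) (h : ⌊a / δ⌋ = ⌊b / δ⌋) : |a - b| ≤ δ := by
  have h1 := Int.abs_sub_lt_one_of_floor_eq_floor h
  rw [← sub_div, abs_div, abs_of_pos hδ, div_lt_one hδ] at h1
  exact h1.le

lemma lab_close {i : ℕ} (hi : 1 ≤ i) {δ : ℝ} (hδ : 0 < δ) (hδ1 : δ ≤ 1 / 2) {s s' x x' : ℂ}
    (hs : s ≠ 0) (hs1 : 1 + s ≠ 0) (hs' : s' ≠ 0) (hs1' : 1 + s' ≠ 0) (hx : x ≠ 0) (hx' : x' ≠ 0)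
    (h : (x / x') ^ i = s / s') (hl : lab i δ s x = lab i δ s' x') :
    ‖x / x' - 1‖ ≤ 8 * δ * (‖1 + s‖ / max ‖s‖ (max 1 ‖1 + s‖)) := by
  simp only [lab, Prod.mk.injEq] at hl
  obtain ⟨hty, hlog, harg, hargx⟩ := hl
  rw [decide_eq_decide] at hty
  have hi0 : (0 : ℝ) < i := by exact_mod_cast hi
  have hx1 : |Complex.arg x - Complex.arg x'| ≤ 1 / i := by
    have h1 := Int.abs_sub_lt_one_of_floor_eq_floor hargx
    rw [← mul_sub, abs_mul, abs_of_pos hi0] at h1
    rw [le_div_iff₀ hi0]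
    linarith
  have hroot := root_close hi hx hx' hx1
  rw [h] at hroot
  refine hroot.trans ?_
  have hM : 0 < max ‖s‖ (max 1 ‖1 + s‖) := lt_of_lt_of_le one_pos
    ((le_max_left 1 _).trans (le_max_right _ _))
  have hlog' := abs_sub_le_of_floor_eq hδ hlog
  have harg' := abs_sub_le_of_floor_eq hδ harg
  by_cases ht : ‖1 + s‖ ≤ ‖s‖ ∧ ‖1 + s‖ ≤ 1
  · have ht' := hty.mp ht
    have e1 : cz s = (1 + s) / s := if_pos ht
    have e2 : cz s' = (1 + s') / s' := if_pos ht'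
    rw [e1, e2] at hlog' harg'
    have h0 : (1 + s) / s ≠ 0 := div_ne_zero hs1 hs
    have h0' : (1 + s') / s' ≠ 0 := div_ne_zero hs1' hs'
    rw [abs_sub_comm] at hlog' harg'
    have h2 := norm_div_sub_one_le h0' h0 hδ1 hlog' harg'
    have e3 : s / s' - 1 = ((1 + s') / s' / ((1 + s) / s) - 1) * (1 + s) := by
      field_simp
      ring
    rw [e3, norm_mul]
    have h3 : max ‖s‖ (max 1 ‖1 + s‖) ≤ 2 := by
      have h4 : ‖s‖ ≤ 2 := by
        have : s = (1 + s) - 1 := by ring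
        calc ‖s‖ = ‖(1 + s) - 1‖ := by rw [← this]
          _ ≤ ‖1 + s‖ + ‖(1 : ℂ)‖ := norm_sub_le _ _
          _ ≤ 2 := by rw [norm_one]; linarith [ht.2]
      exact max_le h4 (max_le (by norm_num) (by linarith [ht.2]))
    have h5 : ‖1 + s‖ / 2 ≤ ‖1 + s‖ / max ‖s‖ (max 1 ‖1 + s‖) :=
      div_le_div_of_nonneg_left (norm_nonneg _) hM h3
    calc _ ≤ 4 * δ * ‖1 + s‖ := mul_le_mul_of_nonneg_right h2 (norm_nonneg _)
      _ = 8 * δ * (‖1 + s‖ / 2) := by ring
      _ ≤ _ := mul_le_mul_of_nonneg_left h5 (by positivity)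
  · have ht' : ¬ (‖1 + s'‖ ≤ ‖s'‖ ∧ ‖1 + s'‖ ≤ 1) := fun h => ht (hty.mpr h)
    have e1 : cz s = s := if_neg ht
    have e2 : cz s' = s' := if_neg ht'
    rw [e1, e2] at hlog' harg'
    have h2 := norm_div_sub_one_le hs hs' hδ1 hlog' harg'
    have h3 : max ‖s‖ (max 1 ‖1 + s‖) ≤ 2 * ‖1 + s‖ := by
      have h4 : ‖s‖ ≤ ‖1 + s‖ + 1 := by
        have : s = (1 + s) - 1 := by ring
        calc ‖s‖ = ‖(1 + s) - 1‖ := by rw [← this]
          _ ≤ ‖1 + s‖ + ‖(1 : ℂ)‖ := norm_sub_le _ _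
          _ = ‖1 + s‖ + 1 := by rw [norm_one]
      have h5 : 1 ≤ ‖1 + s‖ + ‖s‖ := by
        calc (1 : ℝ) = ‖(1 + s) - s‖ := by simp
          _ ≤ _ := norm_sub_le _ _
      have h6 := norm_nonneg (1 + s)
      rw [not_and_or, not_le, not_le] at ht
      rcases ht with ht | ht
      · exact max_le (by linarith) (max_le (by linarith) (by linarith))
      · exact max_le (by linarith) (max_le (by linarith) (by linarith))
    have h7 : 1 / 2 ≤ ‖1 + s‖ / max ‖s‖ (max 1 ‖1 + s‖) := by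
      rw [div_le_div_iff₀ (by norm_num) hM]
      linarith
    calc _ ≤ 4 * δ := h2
      _ = 8 * δ * (1 / 2) := by ring
      _ ≤ _ := mul_le_mul_of_nonneg_left h7 (by positivity)

/-- an interval of integers -/
lemma card_Icc_floor {t : ℝ} (ht : 0 ≤ t) :
    ((Finset.Icc ⌊-t⌋ ⌊t⌋).card : ℝ) ≤ 2 * t + 2 := by
  rw [Int.card_Icc]
  have h1 : ⌊-t⌋ ≤ ⌊t⌋ := Int.floor_le_floor (by linarith)
  have h2 : (((⌊t⌋ + 1 - ⌊-t⌋).toNat : ℕ) : ℤ) = ⌊t⌋ + 1 - ⌊-t⌋ := Int.toNat_of_nonneg (by omega)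
  have h3 : (((⌊t⌋ + 1 - ⌊-t⌋).toNat : ℕ) : ℝ) = (⌊t⌋ : ℝ) + 1 - ⌊-t⌋ := by exact_mod_cast h2
  rw [h3]
  have h4 := Int.floor_le t
  have h5 := Int.sub_one_lt_floor (-t)
  linarith

lemma floor_mem_Icc {a t : ℝ} (h : |a| ≤ t) : ⌊a⌋ ∈ Finset.Icc ⌊-t⌋ ⌊t⌋ := by
  rw [abs_le] at h
  rw [Finset.mem_Icc]
  exact ⟨Int.floor_le_floor h.1, Int.floor_le_floor h.2⟩

variable {K : Type*} [Field K] [NumberField K]

open Classical in
/-- the box of possible labels at an infinite place -/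
noncomputable def lbox (i : ℕ) (δ L : ℝ) (v : InfinitePlace K) : Finset (Bool × ℤ × ℤ × ℤ) :=
  Finset.univ ×ˢ (Finset.Icc ⌊-(L / δ)⌋ ⌊L / δ⌋ ×ˢ
    ((if v.IsReal then {0, ⌊Real.pi / δ⌋} else Finset.Icc ⌊-(Real.pi / δ)⌋ ⌊Real.pi / δ⌋) ×ˢ
    Finset.Icc ⌊-(i * Real.pi)⌋ ⌊i * Real.pi⌋))

open Classical in
lemma card_lbox {i : ℕ} {δ L : ℝ} (hδ : 0 < δ) (hδ1 : δ ≤ 1) (hL : 0 ≤ L) (v : InfinitePlace K) :
    ((lbox i δ L v).card : ℝ) ≤ (2 * (2 * L + 2) * 10 * (8 * i + 2)) * δ⁻¹ ^ v.mult := by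
  have hδinv : 1 ≤ δ⁻¹ := (one_le_inv₀ hδ).mpr hδ1
  have hpi0 := Real.pi_pos
  have hpi4 : Real.pi ≤ 4 := Real.pi_le_four
  have h1 : ((Finset.Icc ⌊-(L / δ)⌋ ⌊L / δ⌋).card : ℝ) ≤ (2 * L + 2) * δ⁻¹ := by
    refine (card_Icc_floor (by positivity)).trans ?_
    rw [div_eq_mul_inv]
    nlinarith
  have h2 : ((Finset.Icc ⌊-((i : ℝ) * Real.pi)⌋ ⌊(i : ℝ) * Real.pi⌋).card : ℝ) ≤ 8 * i + 2 := by
    refine (card_Icc_floor (by positivity)).trans ?_
    have : (0 : ℝ) ≤ i := by positivity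
    nlinarith
  have hcard : ((lbox i δ L v).card : ℝ) = 2 * (((Finset.Icc ⌊-(L / δ)⌋ ⌊L / δ⌋).card : ℝ) *
      (((if v.IsReal then {0, ⌊Real.pi / δ⌋} else
        Finset.Icc ⌊-(Real.pi / δ)⌋ ⌊Real.pi / δ⌋ : Finset ℤ).card : ℝ) *
      ((Finset.Icc ⌊-((i : ℝ) * Real.pi)⌋ ⌊(i : ℝ) * Real.pi⌋).card : ℝ))) := by
    rw [lbox, Finset.card_product, Finset.card_product, Finset.card_product]
    simp
  rw [hcard]
  by_cases hv : v.IsReal
  · have hm : v.mult = 1 := InfinitePlace.mult_isReal ⟨v, hv⟩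
    rw [if_pos hv, hm, pow_one]
    have h3 : ((({0, ⌊Real.pi / δ⌋} : Finset ℤ).card : ℕ) : ℝ) ≤ 2 := by
      exact_mod_cast Finset.card_le_two
    calc _ ≤ 2 * (((2 * L + 2) * δ⁻¹) * (2 * (8 * i + 2))) := by gcongr
      _ ≤ _ := by
        have : 0 ≤ (2 * L + 2) * (8 * (i : ℝ) + 2) * δ⁻¹ := by positivity
        nlinarith
  · have hm : v.mult = 2 := InfinitePlace.mult_isComplex ⟨v, InfinitePlace.not_isReal_iff_isComplex.mp hv⟩
    rw [if_neg hv, hm]
    have h3 : ((Finset.Icc ⌊-(Real.pi / δ)⌋ ⌊Real.pi / δ⌋).card : ℝ) ≤ 10 * δ⁻¹ := by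
      refine (card_Icc_floor (by positivity)).trans ?_
      rw [div_eq_mul_inv]
      nlinarith
    calc _ ≤ 2 * (((2 * L + 2) * δ⁻¹) * ((10 * δ⁻¹) * (8 * i + 2))) := by gcongr
      _ = _ := by ring

variable (K) in
lemma exists_label_bound : ∃ C₀ : ℝ, 0 ≤ C₀ ∧ ∀ (i : ℕ) (X δ : ℝ), 1 ≤ X → 0 < δ →
    ∀ s x : K, s ≠ 0 → 1 + s ≠ 0 → mulHeight₁ s ≤ X → ∀ v : InfinitePlace K,
      lab i δ (v.embedding s) (v.embedding x) ∈ lbox i δ (Real.log X + C₀) v := by
  classical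
  obtain ⟨C₀, hC₀⟩ := logHeight₁_affine_le (1 : K) 1
  refine ⟨max C₀ 0, le_max_right _ _, fun i X δ hX hδ s x hs hs1 hh v => ?_⟩
  have hlogs : logHeight₁ s ≤ Real.log X := by
    rw [logHeight₁_eq_log_mulHeight₁]
    exact Real.log_le_log (mulHeight₁_pos s) hh
  have habs : ∀ y : K, |Real.log (v y)| ≤ logHeight₁ y := by
    intro y
    rw [abs_le']
    refine ⟨log_place_le_logHeight₁ v y, ?_⟩
    have := log_place_le_logHeight₁ v y⁻¹
    rwa [logHeight₁_inv, map_inv₀, Real.log_inv] at this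
  have hM := le_max_left C₀ 0
  have hM0 := le_max_right C₀ 0
  -- the recorded element of K
  obtain ⟨y, hy0, hy, hyh⟩ : ∃ y : K, y ≠ 0 ∧ cz (v.embedding s) = v.embedding y ∧
      logHeight₁ y ≤ Real.log X + max C₀ 0 := by
    by_cases ht : ‖1 + v.embedding s‖ ≤ ‖v.embedding s‖ ∧ ‖1 + v.embedding s‖ ≤ 1
    · refine ⟨(1 + s) / s, div_ne_zero hs1 hs, ?_, ?_⟩
      · rw [cz, if_pos ht]; simp
      · have h1 := hC₀ s⁻¹
        have h2 : 1 + 1 * s⁻¹ = (1 + s) / s := by field_simp; ring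
        rw [h2, logHeight₁_inv] at h1
        linarith
    · refine ⟨s, hs, by rw [cz, if_neg ht], by linarith⟩
  rw [lbox, Finset.mem_product, Finset.mem_product, Finset.mem_product]
  refine ⟨Finset.mem_univ _, ?_, ?_, ?_⟩
  · apply floor_mem_Icc
    rw [hy, v.norm_embedding_eq, abs_div, abs_of_pos hδ]
    exact div_le_div_of_nonneg_right ((habs y).trans hyh) hδ.le
  · change ⌊Complex.arg (cz (v.embedding s)) / δ⌋ ∈ _
    rw [hy]
    by_cases hv : v.IsReal
    · rw [if_pos hv]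
      have h1 : ComplexEmbedding.IsReal v.embedding := InfinitePlace.isReal_iff.mp hv
      have h2 : v.embedding y = ((h1.embedding y : ℝ) : ℂ) := (ComplexEmbedding.IsReal.coe_embedding_apply h1 y).symm
      rw [h2]
      rcases le_or_gt 0 (h1.embedding y) with h3 | h3
      · rw [Complex.arg_ofReal_of_nonneg h3]; simp
      · rw [Complex.arg_ofReal_of_neg h3]; simp
    · rw [if_neg hv]
      apply floor_mem_Icc
      rw [abs_div, abs_of_pos hδ]
      exact div_le_div_of_nonneg_right (Complex.abs_arg_le_pi _) hδ.le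
  · apply floor_mem_Icc
    rw [abs_mul, abs_of_nonneg (by positivity : (0 : ℝ) ≤ i)]
    exact mul_le_mul_of_nonneg_left (Complex.abs_arg_le_pi _) (by positivity)

open Classical in
/-- Archimedean cells: finitely many cells, two points in the same cell are close at all
infinite places. -/
theorem arch_cells (K : Type*) [Field K] [NumberField K] {i : ℕ} (hi : 1 ≤ i) :
    ∃ C : ℝ, 1 ≤ C ∧ ∀ X δ : ℝ, 1 ≤ X → 0 < δ → δ ≤ 1 / 2 →
      ∃ (N : ℕ) (cell : K → K → Fin N),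
        (N : ℝ) ≤ C * (1 + Real.log X) ^ (Fintype.card (InfinitePlace K)) *
          δ⁻¹ ^ Module.finrank ℚ K ∧
        ∀ s s' x x' : K, s ≠ 0 → 1 + s ≠ 0 → s' ≠ 0 → 1 + s' ≠ 0 → x ≠ 0 → x' ≠ 0 →
          mulHeight₁ s ≤ X → mulHeight₁ s' ≤ X → (x / x') ^ i = s / s' →
          cell s x = cell s' x' →
          ∀ v : InfinitePlace K,
            v (x / x' - 1) ≤ 8 * δ * (v (1 + s) / max (v s) (max 1 (v (1 + s)))) := by
  obtain ⟨C₀, hC₀, hlab⟩ := exists_label_bound K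
  set A : ℝ := 2 * (2 + 2 * C₀) * 10 * (8 * i + 2) with hA
  have hA1 : 1 ≤ A := by
    have : (0 : ℝ) ≤ i := by positivity
    rw [hA]; nlinarith
  refine ⟨A ^ (Fintype.card (InfinitePlace K)) + 1, by
    have := one_le_pow₀ (n := Fintype.card (InfinitePlace K)) hA1
    linarith, fun X δ hX hδ hδ1 => ?_⟩
  set L := Real.log X + C₀ with hL
  have hlogX : 0 ≤ Real.log X := Real.log_nonneg hX
  set F : Finset (InfinitePlace K → Bool × ℤ × ℤ × ℤ) := Fintype.piFinset fun v => lbox i δ L v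
    with hF
  set lb : K → K → (InfinitePlace K → Bool × ℤ × ℤ × ℤ) := fun s x v =>
    lab i δ (v.embedding s) (v.embedding x) with hlb
  have hFcard : (F.card : ℝ) ≤ A ^ (Fintype.card (InfinitePlace K)) *
      (1 + Real.log X) ^ (Fintype.card (InfinitePlace K)) * δ⁻¹ ^ Module.finrank ℚ K := by
    rw [hF, Fintype.card_piFinset]
    push_cast
    calc ∏ v : InfinitePlace K, ((lbox i δ L v).card : ℝ)
        ≤ ∏ v : InfinitePlace K, (A * (1 + Real.log X)) * δ⁻¹ ^ v.mult := by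
          apply Finset.prod_le_prod (fun _ _ => by positivity)
          intro v _
          refine (card_lbox hδ (by linarith) (by positivity) v).trans ?_
          refine mul_le_mul_of_nonneg_right ?_ (by positivity)
          have h1 : 2 * L + 2 ≤ (2 + 2 * C₀) * (1 + Real.log X) := by rw [hL]; nlinarith
          have h2 : (0 : ℝ) ≤ 8 * i + 2 := by positivity
          calc 2 * (2 * L + 2) * 10 * (8 * i + 2)
              ≤ 2 * ((2 + 2 * C₀) * (1 + Real.log X)) * 10 * (8 * i + 2) := by gcongr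
            _ = A * (1 + Real.log X) := by rw [hA]; ring
      _ = _ := by
          rw [Finset.prod_mul_distrib, Finset.prod_const, Finset.prod_pow_eq_pow_sum,
            InfinitePlace.sum_mult_eq, mul_pow]
          rfl
  refine ⟨F.card + 1, fun s x => if h : lb s x ∈ F then
    (F.equivFin ⟨lb s x, h⟩).castSucc else Fin.last _, ?_, ?_⟩
  · push_cast
    have h1 : 1 ≤ (1 + Real.log X) ^ (Fintype.card (InfinitePlace K)) *
        δ⁻¹ ^ Module.finrank ℚ K := by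
      have h2 : 1 ≤ (1 + Real.log X) ^ (Fintype.card (InfinitePlace K)) :=
        one_le_pow₀ (by linarith)
      have h3 : 1 ≤ δ⁻¹ ^ Module.finrank ℚ K :=
        one_le_pow₀ ((one_le_inv₀ hδ).mpr (by linarith))
      nlinarith
    have h4 : (A ^ (Fintype.card (InfinitePlace K)) + 1) *
        (1 + Real.log X) ^ (Fintype.card (InfinitePlace K)) * δ⁻¹ ^ Module.finrank ℚ K =
        A ^ (Fintype.card (InfinitePlace K)) *
        (1 + Real.log X) ^ (Fintype.card (InfinitePlace K)) * δ⁻¹ ^ Module.finrank ℚ K +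
        (1 + Real.log X) ^ (Fintype.card (InfinitePlace K)) * δ⁻¹ ^ Module.finrank ℚ K := by ring
    rw [h4]
    linarith
  intro s s' x x' hs hs1 hs' hs1' hx hx' hh hh' hpow hcell v
  have hm : lb s x ∈ F := by
    rw [hF, Fintype.mem_piFinset]
    exact fun v => hlab i X δ hX hδ s x hs hs1 hh v
  have hm' : lb s' x' ∈ F := by
    rw [hF, Fintype.mem_piFinset]
    exact fun v => hlab i X δ hX hδ s' x' hs' hs1' hh' v
  simp only [hm, hm', dif_pos] at hcell
  have h1 := Fin.castSucc_injective _ hcell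
  have h2 := F.equivFin.injective h1
  have h3 : lb s x = lb s' x' := congrArg Subtype.val h2
  have h4 := congrFun h3 v
  have hne : ∀ y : K, 1 + y ≠ 0 → 1 + v.embedding y ≠ 0 := by
    intro y hy h
    apply hy
    apply v.embedding.injective
    rw [map_add, map_one, map_zero]
    exact h
  have h5 := lab_close hi hδ hδ1 (s := v.embedding s) (s' := v.embedding s')
    (x := v.embedding x) (x' := v.embedding x') (by simpa using hs) (hne s hs1) (by simpa using hs')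
    (hne s' hs1') (by simpa using hx) (by simpa using hx') (by rw [← map_div₀, ← map_div₀, ← map_pow, hpow]) h4
  have e1 : v.embedding x / v.embedding x' - 1 = v.embedding (x / x' - 1) := by simp
  have e2 : 1 + v.embedding s = v.embedding (1 + s) := by simp
  rw [e1, e2, v.norm_embedding_eq, v.norm_embedding_eq, v.norm_embedding_eq] at h5
  exact h5

end Pool.Agent.Work.MP_a793bb_nt
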