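import Pool.Agent.Work.MP_a793bb_nt.Types

set_option autoImplicit false
set_option linter.unusedSectionVars false

namespace Pool.Agent.Work.MP_a793bb_nt

open NumberField IsDedekindDomain Height

variable {K : Type*} [Field K] [NumberField K]

namespace BPlus

variable (K) in
/-- The bound for a dyadic block. -/
theorem card_dyadic_le {Λ κ : ℝ} (hLP : LPH Λ κ) {ε : ℝ} (hε : 0 < ε) : ∃ C : ℝ, 1 ≤ C ∧
    ∀ Y : ℝ, 1 ≤ Y → ∀ F : Finset K, (∀ t ∈ F, t ≠ 0 ∧ t ≠ 1 ∧ Real.log Y ≤ hh t ∧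
      hh t ≤ Real.log (2 * Y) ∧ Rs (Ip t) ≤ Λ * Real.log (2 * Y)) →
      (F.card : ℝ) ≤ C * Y ^ ε * Real.exp ((κ + ε) * Real.log (2 * Y)) := by
  classical
  have hex : ∀ β : BT, ∃ C : ℝ, 1 ≤ C ∧ (Valid β → ∀ Y : ℝ, 1 ≤ Y → ∀ W : Fin 3 → Fin 5 → ℝ,
      ∀ F : Finset K, (∀ t ∈ F, Blk Y W t) →
      (F.card : ℝ) ≤ C * Y ^ ε * Real.exp (cost β W * Real.log (2 * Y))) := by
    intro β
    by_cases hβ : Valid β
    · obtain ⟨C, hC, h⟩ := card_type_le K hβ hε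
      exact ⟨C, hC, fun _ => h⟩
    · exact ⟨1, le_rfl, fun h => absurd h hβ⟩
  choose Cβ hCβ1 hCβ using hex
  set C₁ : ℝ := ∑ β, Cβ β with hC₁
  have hC₁β : ∀ β, Cβ β ≤ C₁ := fun β =>
    Finset.single_le_sum (f := Cβ) (fun b _ => by linarith [hCβ1 b]) (Finset.mem_univ β)
  have hC₁1 : 1 ≤ C₁ := (hCβ1 (0, 0, fun _ _ => true)).trans (hC₁β _)
  set M : ℕ := ⌈90 / ε⌉₊ + 1 with hM
  have hM0 : (0 : ℝ) < M := by
    rw [hM]; push_cast; positivity
  have hMε : 90 * (1 / (M : ℝ)) ≤ ε := by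
    have h1 : 90 / ε ≤ M := by
      have := Nat.le_ceil (90 / ε)
      rw [hM]; push_cast; linarith
    rw [mul_one_div, div_le_iff₀ hM0]
    rw [div_le_iff₀ hε] at h1
    linarith
  set N : ℕ := Fintype.card (Fin 3 → Fin 5 → Fin (M + 1)) with hN
  have hN1 : (1 : ℝ) ≤ N := by
    have : 0 < N := Fintype.card_pos
    exact_mod_cast this
  refine ⟨C₁ * N, one_le_mul_of_one_le_of_one_le hC₁1 hN1, fun Y hY F hF => ?_⟩
  have hY0 : 0 < Y := by linarith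
  set L : ℝ := Real.log (2 * Y) with hL
  have hL0 : 0 < L := Real.log_pos (by linarith)
  set wt : K → Fin 3 → Fin 5 → ℝ := fun t j c => LRc (side j t) c / L with hwt
  have hwt0 : ∀ t j c, 0 ≤ wt t j c := fun t j c => div_nonneg (LRc_nonneg _ _) hL0.le
  have hwtS : ∀ t ∈ F, ∀ j, ∑ c : Fin 5, ((c : ℕ) + 1 : ℝ) * wt t j c ≤ 1 := by
    intro t ht j
    obtain ⟨h0, h1, -, hup, -⟩ := hF t ht
    have e1 : ∑ c : Fin 5, ((c : ℕ) + 1 : ℝ) * wt t j c =
        (∑ c : Fin 5, ((c : ℕ) + 1 : ℝ) * LRc (side j t) c) / L := by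
      rw [Finset.sum_div]
      refine Finset.sum_congr rfl fun c _ => ?_
      rw [hwt]
      ring
    rw [e1, div_le_iff₀ hL0, one_mul]
    exact (sum_LRc_le (side_ne_zero h0 h1 j)).trans ((LP_side_le h0 h1 j _).trans hup)
  have hwt1 : ∀ t ∈ F, ∀ j c, wt t j c ≤ 1 := by
    intro t ht j c
    have h1 := hwtS t ht j
    have h2 : ((c : ℕ) + 1 : ℝ) * wt t j c ≤ ∑ c : Fin 5, ((c : ℕ) + 1 : ℝ) * wt t j c :=
      Finset.single_le_sum (f := fun c : Fin 5 => ((c : ℕ) + 1 : ℝ) * wt t j c)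
        (fun b _ => mul_nonneg (by positivity) (hwt0 t j b)) (Finset.mem_univ c)
    have h3 : wt t j c ≤ ((c : ℕ) + 1 : ℝ) * wt t j c := by
      have h4 := hwt0 t j c
      have h5 : (0 : ℝ) ≤ ((c : ℕ) : ℝ) := Nat.cast_nonneg _
      nlinarith
    linarith
  have hwtT : ∀ t ∈ F, ∑ j, ∑ c, wt t j c ≤ Λ := by
    intro t ht
    obtain ⟨h0, h1, -, -, hrad⟩ := hF t ht
    have e1 : ∀ j, ∑ c, wt t j c = Rs (Zp (side j t)) / L := by
      intro j
      rw [← LR_univ_eq (side_ne_zero h0 h1 j), Finset.sum_div]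
    simp_rw [e1]
    rw [← Finset.sum_div, div_le_iff₀ hL0]
    refine le_trans ?_ hrad
    rw [Fin.sum_univ_three]
    exact Rs_three_le h0 h1
  set g : K → (Fin 3 → Fin 5 → Fin (M + 1)) := fun t j c =>
    ⟨min ⌊(M : ℝ) * wt t j c⌋₊ M, by omega⟩ with hg
  set Wg : (Fin 3 → Fin 5 → Fin (M + 1)) → Fin 3 → Fin 5 → ℝ := fun γ j c =>
    (((γ j c : ℕ) : ℝ) + 1) / M with hWg
  have hgv : ∀ t ∈ F, ∀ j c, ((g t j c : ℕ)) = ⌊(M : ℝ) * wt t j c⌋₊ := by
    intro t ht j c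
    change min ⌊(M : ℝ) * wt t j c⌋₊ M = _
    apply min_eq_left
    have h1 : (M : ℝ) * wt t j c ≤ M := by
      have := hwt1 t ht j c
      nlinarith
    have h2 := Nat.floor_le_floor h1
    rwa [Nat.floor_natCast] at h2
  have hWlo : ∀ t ∈ F, ∀ j c, wt t j c ≤ Wg (g t) j c := by
    intro t ht j c
    rw [hWg]
    change wt t j c ≤ (((g t j c : ℕ) : ℝ) + 1) / M
    rw [hgv t ht j c, le_div_iff₀ hM0]
    have := Nat.lt_floor_add_one ((M : ℝ) * wt t j c)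
    linarith
  have hWup : ∀ t ∈ F, ∀ j c, Wg (g t) j c ≤ wt t j c + 1 / M := by
    intro t ht j c
    rw [hWg]
    change (((g t j c : ℕ) : ℝ) + 1) / M ≤ _
    rw [hgv t ht j c, add_div]
    have h1 := Nat.floor_le (mul_nonneg hM0.le (hwt0 t j c))
    have h2 : ((⌊(M : ℝ) * wt t j c⌋₊ : ℕ) : ℝ) / M ≤ wt t j c := by
      rw [div_le_iff₀ hM0]
      linarith
    linarith
  set Bd : ℝ := C₁ * Y ^ ε * Real.exp ((κ + ε) * L) with hBd
  have hBd0 : 0 ≤ Bd := by positivity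
  have hfib : ∀ γ ∈ (Finset.univ : Finset (Fin 3 → Fin 5 → Fin (M + 1))),
      (F.filter (fun t => g t = γ)).card ≤ ⌊Bd⌋₊ := by
    intro γ _
    apply Nat.le_floor
    rcases (F.filter (fun t => g t = γ)).eq_empty_or_nonempty with he | ⟨t0, ht0⟩
    · rw [he]; simpa using hBd0
    rw [Finset.mem_filter] at ht0
    obtain ⟨ht0, hg0⟩ := ht0
    obtain ⟨β, hβ, hcost⟩ := hLP (wt t0) (hwt0 t0) (hwtS t0 ht0) (hwtT t0 ht0)
    have h1 := hCβ β hβ Y hY (Wg γ) (F.filter (fun t => g t = γ)) (by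
      intro t ht
      rw [Finset.mem_filter] at ht
      obtain ⟨ht, hgt⟩ := ht
      obtain ⟨h0, h1, hlo, hup, -⟩ := hF t ht
      refine ⟨h0, h1, hlo, hup, fun j c => ?_⟩
      have h2 := hWlo t ht j c
      rw [hgt] at h2
      rw [← div_le_iff₀ hL0]
      exact h2)
    refine h1.trans ?_
    have h2 : cost β (Wg γ) ≤ κ + ε := by
      have h3 : cost β (Wg γ) ≤ cost β (wt t0) + 90 * (1 / M) := by
        apply cost_mono (by positivity)
        intro j c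
        have := hWup t0 ht0 j c
        rwa [hg0] at this
      linarith
    rw [hBd]
    have h4 := hC₁β β
    have h5 : cost β (Wg γ) * L ≤ (κ + ε) * L := mul_le_mul_of_nonneg_right h2 hL0.le
    have h6 : 0 ≤ Cβ β := by linarith [hCβ1 β]
    gcongr
  have hcard := Finset.card_le_mul_card_image_of_maps_to (f := g) (s := F)
    (t := (Finset.univ : Finset (Fin 3 → Fin 5 → Fin (M + 1)))) (fun t _ => Finset.mem_univ _)
    ⌊Bd⌋₊ hfib
  calc (F.card : ℝ) ≤ ((⌊Bd⌋₊ * (Finset.univ : Finset (Fin 3 → Fin 5 → Fin (M + 1))).card : ℕ) : ℝ) := by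
        exact_mod_cast hcard
    _ = (⌊Bd⌋₊ : ℝ) * N := by
        rw [Finset.card_univ]; push_cast; ring
    _ ≤ Bd * N := mul_le_mul_of_nonneg_right (Nat.floor_le hBd0) (by linarith)
    _ = C₁ * N * Y ^ ε * Real.exp ((κ + ε) * L) := by rw [hBd]; ring

variable (K) in
/-- The bound for all points of height at most `X`. -/
theorem card_of_LPH {Λ κ : ℝ} (hΛ : 0 ≤ Λ) (hκ : 0 ≤ κ) (hLP : LPH Λ κ) {ε : ℝ} (hε : 0 < ε) :
    ∃ C : ℝ, 1 ≤ C ∧ ∀ X : ℝ, 1 ≤ X → ∀ F : Finset K,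
      (∀ t ∈ F, t ≠ 0 ∧ t ≠ 1 ∧ hh t ≤ Real.log X ∧ Rs (Ip t) ≤ Λ * hh t) →
      (F.card : ℝ) ≤ C * X ^ (κ + ε) := by
  classical
  have hε3 : 0 < ε / 3 := by linarith
  obtain ⟨C₁, hC₁, hdy⟩ := card_dyadic_le K hLP hε3
  obtain ⟨C₂, hC₂, hlog⟩ := one_add_log_pow_le hε3 1
  have hp2 : (1 : ℝ) ≤ 2 ^ (κ + ε / 3) := Real.one_le_rpow (by norm_num) (by linarith)
  refine ⟨C₁ * C₂ * 2 ^ (κ + ε / 3), one_le_mul_of_one_le_of_one_le
    (one_le_mul_of_one_le_of_one_le hC₁ hC₂) hp2, fun X hX F hF => ?_⟩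
  have hX0 : 0 < X := by linarith
  have hl2 : 0 < Real.log 2 := Real.log_pos (by norm_num)
  have hlX : 0 ≤ Real.log X := Real.log_nonneg hX
  set k : K → ℕ := fun t => ⌊hh t / Real.log 2⌋₊ with hk
  set K₀ : ℕ := ⌊Real.log X / Real.log 2⌋₊ with hK₀
  set Bd : ℝ := C₁ * X ^ (ε / 3) * (2 * X) ^ (κ + ε / 3) with hBd
  have hBd0 : 0 ≤ Bd := by positivity
  have hmaps : ∀ t ∈ F, k t ∈ Finset.range (K₀ + 1) := by
    intro t ht
    rw [Finset.mem_range, Nat.lt_succ_iff]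
    exact Nat.floor_le_floor (div_le_div_of_nonneg_right (hF t ht).2.2.1 hl2.le)
  have hfib : ∀ n ∈ Finset.range (K₀ + 1), (F.filter (fun t => k t = n)).card ≤ ⌊Bd⌋₊ := by
    intro n hn
    rw [Finset.mem_range, Nat.lt_succ_iff] at hn
    apply Nat.le_floor
    set Y : ℝ := 2 ^ n with hY
    have hY1 : 1 ≤ Y := one_le_pow₀ (by norm_num)
    have hY0 : 0 < Y := by linarith
    have hlY : Real.log Y = n * Real.log 2 := by rw [hY, Real.log_pow]
    have hYX : Y ≤ X := by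
      rw [← Real.log_le_log_iff hY0 hX0, hlY]
      have h1 : (n : ℝ) ≤ Real.log X / Real.log 2 := by
        have h2 : (n : ℝ) ≤ (K₀ : ℝ) := by exact_mod_cast hn
        exact h2.trans (Nat.floor_le (div_nonneg hlX hl2.le))
      rwa [le_div_iff₀ hl2] at h1
    have h1 := hdy Y hY1 (F.filter (fun t => k t = n)) (by
      intro t ht
      rw [Finset.mem_filter] at ht
      obtain ⟨ht, hkt⟩ := ht
      obtain ⟨h0, h1, hX', hrad⟩ := hF t ht
      have h2 : (n : ℝ) ≤ hh t / Real.log 2 := by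
        rw [← hkt]
        exact Nat.floor_le (div_nonneg (hh_nonneg t) hl2.le)
      have h3 : hh t / Real.log 2 < n + 1 := by
        rw [← hkt]
        exact Nat.lt_floor_add_one _
      rw [le_div_iff₀ hl2] at h2
      rw [div_lt_iff₀ hl2] at h3
      have h4 : hh t ≤ Real.log (2 * Y) := by
        rw [Real.log_mul (by norm_num) hY0.ne', hlY]
        linarith
      refine ⟨h0, h1, by rw [hlY]; exact h2, h4, hrad.trans ?_⟩
      exact mul_le_mul_of_nonneg_left h4 hΛ)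
    refine h1.trans ?_
    rw [hBd]
    have h2 : Real.exp ((κ + ε / 3) * Real.log (2 * Y)) = (2 * Y) ^ (κ + ε / 3) := by
      rw [Real.rpow_def_of_pos (by linarith), mul_comm]
    rw [h2]
    have h3 : Y ^ (ε / 3) ≤ X ^ (ε / 3) := Real.rpow_le_rpow hY0.le hYX hε3.le
    have h4 : (2 * Y) ^ (κ + ε / 3) ≤ (2 * X) ^ (κ + ε / 3) :=
      Real.rpow_le_rpow (by linarith) (by linarith) (by linarith)
    gcongr
  have hcard := Finset.card_le_mul_card_image_of_maps_to hmaps ⌊Bd⌋₊ hfib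
  have hK₀le : ((K₀ + 1 : ℕ) : ℝ) ≤ C₂ * X ^ (ε / 3) := by
    refine le_trans ?_ (hlog X hX)
    rw [pow_one]
    push_cast
    have h1 : (K₀ : ℝ) ≤ Real.log X / Real.log 2 := Nat.floor_le (div_nonneg hlX hl2.le)
    have h2 : Real.log X / Real.log 2 ≤ 2 * Real.log X := by
      rw [div_le_iff₀ hl2]
      have := Real.log_two_gt_d9
      nlinarith
    linarith
  have h7 : X ^ (ε / 3) * X ^ (ε / 3) * X ^ (κ + ε / 3) = X ^ (κ + ε) := by
    rw [← Real.rpow_add hX0, ← Real.rpow_add hX0]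
    congr 1
    ring
  calc (F.card : ℝ) ≤ ((⌊Bd⌋₊ * (Finset.range (K₀ + 1)).card : ℕ) : ℝ) := by exact_mod_cast hcard
    _ = (⌊Bd⌋₊ : ℝ) * ((K₀ + 1 : ℕ) : ℝ) := by rw [Finset.card_range]; push_cast; ring
    _ ≤ Bd * (C₂ * X ^ (ε / 3)) := by
        have := Nat.floor_le hBd0
        gcongr
    _ = C₁ * C₂ * 2 ^ (κ + ε / 3) * X ^ (κ + ε) := by
        rw [hBd, Real.mul_rpow (by norm_num) hX0.le, ← h7]
        ring

end BPlus

end Pool.Agent.Work.MP_a793bb_nt
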