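import Pool.Agent.Work.MP_a793bb_nt.Types

set_option autoImplicit false
set_option linter.unusedSectionVars false
set_option linter.unusedSimpArgs false
set_option linter.unreachableTactic false
set_option linter.unusedTactic false
set_option linter.unnecessarySeqFocus false

namespace Pool.Agent.Work.MP_a793bb_nt

namespace BPlus

lemma cost_split {β : BT} {w : Fin 3 → Fin 5 → ℝ} {A B κ : ℝ} (hA : costA β w = A)
    (hB : costB β w = B) (h : κ < cost β w) : κ < A ∨ κ < A + B - 1 := by
  unfold cost at h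
  rw [hA, hB] at h
  rcases le_total (B - 1) 0 with h1 | h1
  · left
    rwa [max_eq_left h1, add_zero] at h
  · right
    rw [max_eq_right h1] at h
    linarith

/-- The combinatorial optimisation for a total weight at least `2`. -/
theorem lph_ge_two {Λ : ℝ} (hΛ : 2 ≤ Λ) : LPH Λ (Λ - 1) := by
  intro w h0 hS hL
  by_contra hcon
  have hk : ∀ β : BT, Valid β → Λ - 1 < cost β w := by
    intro β hβ
    by_contra h
    exact hcon ⟨β, hβ, not_lt.mp h⟩
  have s0 : w 0 0 + 2*w 0 1 + 3*w 0 2 + 4*w 0 3 + 5*w 0 4 ≤ 1 := by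
    have := hS 0
    simp [Fin.sum_univ_five] at this
    linarith
  have s1 : w 1 0 + 2*w 1 1 + 3*w 1 2 + 4*w 1 3 + 5*w 1 4 ≤ 1 := by
    have := hS 1
    simp [Fin.sum_univ_five] at this
    linarith
  have s2 : w 2 0 + 2*w 2 1 + 3*w 2 2 + 4*w 2 3 + 5*w 2 4 ≤ 1 := by
    have := hS 2
    simp [Fin.sum_univ_five] at this
    linarith
  have sL : w 0 0 + w 0 1 + w 0 2 + w 0 3 + w 0 4 + w 1 0 + w 1 1 + w 1 2 + w 1 3 + w 1 4 +
      w 2 0 + w 2 1 + w 2 2 + w 2 3 + w 2 4 ≤ Λ := by
    simp [Fin.sum_univ_three, Fin.sum_univ_five] at hL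
    linarith
  have g := cost_split (β := (0, 2, ![![true, false, false, false, false],
    ![true, false, false, false, false], ![true, false, false, false, false]])) (w := w)
    (κ := Λ - 1)
    (A := w 0 1 + w 0 2 + w 0 3 + w 0 4 + w 1 1 + w 1 2 + w 1 3 + w 1 4 +
      w 2 1 + w 2 2 + w 2 3 + w 2 4) (B := w 0 0 + w 1 0 + w 2 0)
    (by simp [costA, Fin.sum_univ_three, Fin.sum_univ_five] <;> ring)
    (by simp [costB, coef, Fin.sum_univ_three, Fin.sum_univ_five] <;> ring)
    (hk _ (by unfold Valid; decide))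
  have p2 := cost_split (β := (1, 2, ![![false, true, false, false, false],
    ![false, true, false, false, false], ![true, false, false, false, false]])) (w := w)
    (κ := Λ - 1)
    (A := w 0 0 + w 0 2 + w 0 3 + w 0 4 + w 1 0 + w 1 2 + w 1 3 + w 1 4 +
      w 2 1 + w 2 2 + w 2 3 + w 2 4) (B := w 0 1 + w 1 1 + w 2 0)
    (by simp [costA, Fin.sum_univ_three, Fin.sum_univ_five] <;> ring)
    (by simp [costB, coef, Fin.sum_univ_three, Fin.sum_univ_five] <;> ring)
    (hk _ (by unfold Valid; decide))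
  have p1 := cost_split (β := (1, 1, ![![false, true, false, false, false],
    ![true, false, false, false, false], ![false, true, false, false, false]])) (w := w)
    (κ := Λ - 1)
    (A := w 0 0 + w 0 2 + w 0 3 + w 0 4 + w 1 1 + w 1 2 + w 1 3 + w 1 4 +
      w 2 0 + w 2 2 + w 2 3 + w 2 4) (B := w 0 1 + w 1 0 + w 2 1)
    (by simp [costA, Fin.sum_univ_three, Fin.sum_univ_five] <;> ring)
    (by simp [costB, coef, Fin.sum_univ_three, Fin.sum_univ_five] <;> ring)
    (hk _ (by unfold Valid; decide))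
  have p0 := cost_split (β := (1, 0, ![![true, false, false, false, false],
    ![false, true, false, false, false], ![false, true, false, false, false]])) (w := w)
    (κ := Λ - 1)
    (A := w 0 1 + w 0 2 + w 0 3 + w 0 4 + w 1 0 + w 1 2 + w 1 3 + w 1 4 +
      w 2 0 + w 2 2 + w 2 3 + w 2 4) (B := w 0 0 + w 1 1 + w 2 1)
    (by simp [costA, Fin.sum_univ_three, Fin.sum_univ_five] <;> ring)
    (by simp [costB, coef, Fin.sum_univ_three, Fin.sum_univ_five] <;> ring)
    (hk _ (by unfold Valid; decide))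
  have n03 := h0 0 3
  have n04 := h0 0 4
  have n13 := h0 1 3
  have n14 := h0 1 4
  have n23 := h0 2 3
  have n24 := h0 2 4
  rcases g with g | g <;> rcases p0 with p0 | p0 <;> rcases p1 with p1 | p1 <;>
    rcases p2 with p2 | p2 <;> linarith

end BPlus

end Pool.Agent.Work.MP_a793bb_nt
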