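import Pool.Agent.Work.MP_a793bb_nt.LowerMain

set_option autoImplicit false
set_option linter.unusedSectionVars false

namespace Pool.Agent.Work.MP_a793bb_nt

open NumberField IsDedekindDomain Height nonZeroDivisors Module Filter Topology

variable {K : Type*} [Field K] [NumberField K]

lemma mulHeight₁_le_triple (x : K) : mulHeight₁ x ≤ mulHeight ![x, 1 - x, -1] := by
  have h := logHeight₁_le_triple x
  rw [logHeight₁_eq_log_mulHeight₁, logHeight_eq_log_mulHeight] at h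
  exact (Real.log_le_log_iff (mulHeight₁_pos x) (mulHeight_pos _)).mp h

lemma mulHeight₁_one_sub_le_triple (x : K) : mulHeight₁ (1 - x) ≤ mulHeight ![x, 1 - x, -1] := by
  have h : logHeight₁ (1 - x) ≤ logHeight ![x, 1 - x, -1] := by
    rw [← logHeight₁_neg, show -(1 - x) = (1 - x) / (-1) by ring, logHeight₁_div_eq_logHeight]
    have : (![1 - x, -1] : Fin 2 → K) = (![x, 1 - x, -1] : Fin 3 → K) ∘ (![1, 2] : Fin 2 → Fin 3) := by
      ext i; fin_cases i <;> simp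
    have e := logHeight_comp_le (![1, 2] : Fin 2 → Fin 3) (![x, 1 - x, -1] : Fin 3 → K)
    rw [← this] at e
    exact e
  rw [logHeight₁_eq_log_mulHeight₁, logHeight_eq_log_mulHeight] at h
  exact (Real.log_le_log_iff (mulHeight₁_pos _) (mulHeight_pos _)).mp h

variable (K) in
lemma triple_le_mulHeight₁ : ∃ C : ℝ, 1 ≤ C ∧ ∀ x : K,
    mulHeight ![x, 1 - x, -1] ≤ C * mulHeight₁ x := by
  obtain ⟨C, hC, h⟩ := triple_le_logHeight₁ K
  refine ⟨Real.exp C, Real.one_le_exp hC, fun x => ?_⟩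
  have h1 := h x
  rw [logHeight₁_eq_log_mulHeight₁, logHeight_eq_log_mulHeight] at h1
  have h2 := Real.exp_le_exp.mpr h1
  rw [Real.exp_log (mulHeight_pos _), Real.exp_add, Real.exp_log (mulHeight₁_pos x)] at h2
  linarith

/-- the exceptional set: height at most `X` and radical at most a power of the height -/
def excSet (K : Type*) [Field K] [NumberField K] (lam X : ℝ) : Set K :=
  {t : K | t ≠ 0 ∧ t ≠ 1 ∧ mulHeight ![t, 1 - t, -1] ≤ X ∧
    Real.exp (Rs (Ip t)) ≤ (mulHeight ![t, 1 - t, -1]) ^ lam}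

lemma finite_excSet (lam X : ℝ) : (excSet K lam X).Finite := by
  refine (NumberField.finite_setOfPred_mulHeight₁_le K X).subset ?_
  rintro t ⟨-, -, h, -⟩
  exact (mulHeight₁_le_triple t).trans h

/-- the elementary inequality behind the choice of the parameters -/
lemma exponent_ineq {lam H3 H1 T Y C₆ d Q : ℝ} (h1 : 1 < lam) (h3 : lam ≤ 3) (hH1 : 1 ≤ H1)
    (hT : 0 < T) (hY : 0 < Y) (hH1T : H1 ≤ T ^ d) (hC₆ : 0 < C₆)
    (hA : C₆ * T ^ (2 * d) = Y ^ (lam - 1)) (hQ : Q = Y / T ^ d) (hH3 : Q * H1 ≤ H3) :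
    C₆ * H1 ^ 2 * H3 ≤ H3 ^ lam := by
  have hTd : 0 < T ^ d := Real.rpow_pos_of_pos hT _
  have hQpos : 0 < Q := by rw [hQ]; positivity
  have hH3pos : 0 < H3 := lt_of_lt_of_le (by positivity) hH3
  have e1 : H3 ^ lam = H3 ^ (lam - 1) * H3 := by
    rw [← Real.rpow_add_one hH3pos.ne']; congr 1; ring
  rw [e1]
  apply mul_le_mul_of_nonneg_right _ hH3pos.le
  have e2 : (Q * H1) ^ (lam - 1) ≤ H3 ^ (lam - 1) :=
    Real.rpow_le_rpow (by positivity) hH3 (by linarith)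
  refine le_trans ?_ e2
  have e3 : (Q * H1) ^ (lam - 1) = C₆ * (T ^ d) ^ (3 - lam) * H1 ^ (lam - 1) := by
    rw [Real.mul_rpow hQpos.le (by linarith), hQ, Real.div_rpow hY.le hTd.le, ← hA]
    have e4 : T ^ (2 * d) = (T ^ d) ^ (2 : ℝ) := by
      rw [← Real.rpow_mul hT.le]; congr 1; ring
    have e5 : (T ^ d) ^ (2 : ℝ) = (T ^ d) ^ (3 - lam) * (T ^ d) ^ (lam - 1) := by
      rw [← Real.rpow_add hTd]; congr 1; ring
    have e6 : (T ^ d) ^ (lam - 1) ≠ 0 := (Real.rpow_pos_of_pos hTd _).ne'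
    rw [e4, e5]
    field_simp
  rw [e3]
  have e7 : H1 ^ (3 - lam) ≤ (T ^ d) ^ (3 - lam) :=
    Real.rpow_le_rpow (by linarith) hH1T (by linarith)
  have e8 : H1 ^ 2 = H1 ^ (3 - lam) * H1 ^ (lam - 1) := by
    rw [← Real.rpow_add (by linarith), ← Real.rpow_natCast]; congr 1; push_cast; ring
  rw [e8]
  have e9 : 0 ≤ H1 ^ (lam - 1) := by positivity
  calc C₆ * (H1 ^ (3 - lam) * H1 ^ (lam - 1)) = C₆ * H1 ^ (3 - lam) * H1 ^ (lam - 1) := by ring
    _ ≤ C₆ * (T ^ d) ^ (3 - lam) * H1 ^ (lam - 1) := by gcongr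

variable (K) in
/-- Lower bound for the number of points with small radical. -/
theorem exceptional_lower {lam ε : ℝ} (h1 : 1 < lam) (h3 : lam ≤ 3) (hε : 0 < ε) :
    ∃ c X₀ : ℝ, 0 < c ∧ ∀ X : ℝ, X₀ ≤ X →
      c * X ^ (lam - 1 - ε) ≤ ((excSet K lam X).ncard : ℝ) := by
  classical
  set d : ℕ := finrank ℚ K with hd
  have hdpos : 0 < d := finrank_pos
  set dr : ℝ := (d : ℝ) with hdr
  have hdr0 : 0 < dr := by rw [hdr]; exact_mod_cast hdpos
  set δ : ℝ := min (dr * ε) dr with hδ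
  have hδ0 : 0 < δ := lt_min (by positivity) hdr0
  have hδ1 : δ ≤ dr * ε := min_le_left _ _
  have hδ2 : δ ≤ dr := min_le_right _ _
  obtain ⟨C₀, hC₀, htri⟩ := triple_le_mulHeight₁ K
  obtain ⟨C₆, hC₆, hrad⟩ := rad_twist K
  obtain ⟨cr, hcr, hratio⟩ := ratios_lower K hδ0
  have hC₀pos : 0 < C₀ := by linarith
  have hC₆pos : 0 < C₆ := by linarith
  set c₂ : ℝ := 1 / (C₀ * 6 ^ d) with hc₂
  have hc₂pos : 0 < c₂ := by positivity
  set κ : ℝ := (2 * dr - δ) / (2 * dr) with hκ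
  have hκpos : 0 < κ := div_pos (by linarith) (by linarith)
  set Tf : ℝ → ℝ := fun X => ((c₂ * X) ^ (lam - 1) / C₆) ^ (1 / (2 * dr)) with hTf
  -- growth
  have hT1 : Tendsto Tf atTop atTop := by
    have t1 : Tendsto (fun X : ℝ => c₂ * X) atTop atTop := tendsto_id.const_mul_atTop hc₂pos
    have t2 : Tendsto (fun X : ℝ => (c₂ * X) ^ (lam - 1)) atTop atTop :=
      (tendsto_rpow_atTop (by linarith)).comp t1
    have t3 : Tendsto (fun X : ℝ => (c₂ * X) ^ (lam - 1) / C₆) atTop atTop :=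
      t2.atTop_div_const hC₆pos
    exact (tendsto_rpow_atTop (by positivity)).comp t3
  have hT2 : Tendsto (fun X => cr * Tf X ^ (2 * dr - δ)) atTop atTop := by
    have t1 : Tendsto (fun X : ℝ => Tf X ^ (2 * dr - δ)) atTop atTop :=
      (tendsto_rpow_atTop (by linarith)).comp hT1
    exact t1.const_mul_atTop hcr
  have hT3 : Tendsto (fun X : ℝ => c₂ * X) atTop atTop := tendsto_id.const_mul_atTop hc₂pos
  obtain ⟨X₀, hX₀⟩ := eventually_atTop.mp
    (((hT1.eventually_ge_atTop 2).and (hT2.eventually_ge_atTop 2)).and (hT3.eventually_ge_atTop 1))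
  refine ⟨cr / 2 * (C₆ ^ κ)⁻¹ * c₂ ^ (lam - 1 - ε), X₀, by positivity, fun X hX => ?_⟩
  obtain ⟨⟨hT, hcT⟩, hcX⟩ := hX₀ X hX
  set T := Tf X with hTdef
  set Y : ℝ := c₂ * X with hY
  have hYpos : 0 < Y := by linarith
  have hTpos : 0 < T := by linarith
  have hA : C₆ * T ^ (2 * dr) = Y ^ (lam - 1) := by
    have e1 : T ^ (2 * dr) = Y ^ (lam - 1) / C₆ := by
      rw [hTdef, hTf]
      simp only
      rw [← Real.rpow_mul (by positivity)]
      have : 1 / (2 * dr) * (2 * dr) = 1 := by field_simp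
      rw [this, Real.rpow_one]
    rw [e1]; field_simp
  have hTd : T ^ d = T ^ dr := (Real.rpow_natCast T d).symm
  have hB : T ^ d ≤ Y := by
    have e1 : (T ^ d) ^ 2 = T ^ (2 * dr) := by
      rw [hTd, ← Real.rpow_natCast, ← Real.rpow_mul hTpos.le]; congr 1; push_cast; ring
    have e2 : T ^ (2 * dr) ≤ Y ^ (lam - 1) := by
      rw [← hA]
      have : 0 < T ^ (2 * dr) := Real.rpow_pos_of_pos hTpos _
      nlinarith
    have e3 : Y ^ (lam - 1) ≤ Y ^ (2 : ℝ) := Real.rpow_le_rpow_of_exponent_le hcX (by linarith)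
    rw [Real.rpow_two] at e3
    have e4 : (T ^ d) ^ 2 ≤ Y ^ 2 := by rw [e1]; exact e2.trans e3
    exact (pow_le_pow_iff_left₀ (by positivity) hYpos.le (by norm_num)).mp e4
  set Z : ℝ := X / (C₀ * T ^ d) with hZ
  have hTdpos : 0 < T ^ d := by positivity
  have hXY : X = C₀ * 6 ^ d * Y := by rw [hY, hc₂]; field_simp
  have hXpos : 0 < X := by rw [hXY]; positivity
  have hZ6 : Z = 6 ^ d * (Y / T ^ d) := by rw [hZ, hXY]; field_simp
  have hYT : 1 ≤ Y / T ^ d := by rw [one_le_div hTdpos]; exact hB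
  have hZ1 : 1 ≤ Z := by
    rw [hZ6]
    have : (1 : ℝ) ≤ 6 ^ d := one_le_pow₀ (by norm_num)
    nlinarith
  set n : ℕ := Nat.log (3 ^ d) ⌊Z⌋₊ with hn
  have hfloor : ⌊Z⌋₊ ≠ 0 := by
    have : 1 ≤ ⌊Z⌋₊ := Nat.le_floor (by simpa using hZ1)
    omega
  have hn1 : ((3 : ℝ) ^ n) ^ d ≤ Z := by
    have e1 : (3 ^ d) ^ n ≤ ⌊Z⌋₊ := Nat.pow_log_le_self _ hfloor
    have e2 : (((3 ^ d) ^ n : ℕ) : ℝ) ≤ (⌊Z⌋₊ : ℝ) := by exact_mod_cast e1
    have e3 := Nat.floor_le (by linarith : (0 : ℝ) ≤ Z)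
    push_cast at e2
    calc ((3 : ℝ) ^ n) ^ d = (3 ^ d) ^ n := by rw [← pow_mul, ← pow_mul, mul_comm]
      _ ≤ Z := e2.trans e3
  have hn2 : Z ≤ 3 ^ d * ((3 : ℝ) ^ n) ^ d := by
    have e1 : ⌊Z⌋₊ < (3 ^ d) ^ (n + 1) :=
      Nat.lt_pow_succ_log_self (Nat.one_lt_pow hdpos.ne' (by norm_num)) _
    have e2 : Z < (((3 ^ d) ^ (n + 1) : ℕ) : ℝ) := (Nat.floor_lt (by linarith)).mp e1
    refine e2.le.trans (le_of_eq ?_)
    push_cast
    rw [pow_succ, ← pow_mul, ← pow_mul, mul_comm d n]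
    ring
  set m : ℕ := Nat.log 2 (3 ^ n) with hm
  have h3n : (3 : ℕ) ^ n ≠ 0 := by positivity
  have hm1 : 2 ^ m ≤ 3 ^ n := Nat.pow_log_le_self _ h3n
  have hm2 : 3 ^ n < 2 ^ (m + 1) := Nat.lt_pow_succ_log_self (by norm_num) _
  have hm2' : (3 : ℝ) ^ n ≤ 2 * 2 ^ m := by
    have : ((3 ^ n : ℕ) : ℝ) < ((2 ^ (m + 1) : ℕ) : ℝ) := by exact_mod_cast hm2
    push_cast at this
    rw [pow_succ] at this
    linarith
  have hm3 : Y / T ^ d ≤ ((2 : ℝ) ^ m) ^ d := by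
    have e1 : ((3 : ℝ) ^ n) ^ d ≤ (2 * 2 ^ m) ^ d := pow_le_pow_left₀ (by positivity) hm2' _
    rw [mul_pow] at e1
    have e2 : 6 ^ d * (Y / T ^ d) ≤ 3 ^ d * (2 ^ d * ((2 : ℝ) ^ m) ^ d) := by
      rw [← hZ6]
      refine hn2.trans ?_
      gcongr
    have e3 : (3 : ℝ) ^ d * (2 ^ d * ((2 : ℝ) ^ m) ^ d) = 6 ^ d * ((2 : ℝ) ^ m) ^ d := by
      rw [← mul_assoc, ← mul_pow]; norm_num
    rw [e3] at e2
    exact le_of_mul_le_mul_left e2 (by positivity)
  -- the points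
  have h2K : (2 : K) ≠ 0 := by norm_num
  have h3K : (3 : K) ≠ 0 := by norm_num
  set q : K := 2 ^ m / 3 ^ n with hq
  have hq0 : q ≠ 0 := div_ne_zero (pow_ne_zero _ h2K) (pow_ne_zero _ h3K)
  set Rf := ((boxF K T) ×ˢ (boxF K T)).image fun p => p.1 / p.2 with hRf
  have hRfcard := hratio T hT
  rw [← hRf] at hRfcard
  set S := (Rf.erase (-q⁻¹)).image (fun x => -(q * x)) with hS
  have hScard : S.card = (Rf.erase (-q⁻¹)).card := by
    apply Finset.card_image_of_injective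
    intro x y hxy
    simp only [neg_inj] at hxy
    exact mul_left_cancel₀ hq0 hxy
  have hScard2 : (Rf.card : ℝ) ≤ S.card + 1 := by
    rw [hScard]
    have := Finset.pred_card_le_card_erase (s := Rf) (a := -q⁻¹)
    have h5 : Rf.card ≤ (Rf.erase (-q⁻¹)).card + 1 := by omega
    exact_mod_cast h5
  have hsub : (S : Set K) ⊆ excSet K lam X := by
    intro t ht
    rw [Finset.mem_coe, hS, Finset.mem_image] at ht
    obtain ⟨x, hx, rfl⟩ := ht
    rw [Finset.mem_erase, hRf, Finset.mem_image] at hx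
    obtain ⟨hxne, ⟨a, b⟩, hab, hxab⟩ := hx
    have hT1' : 1 ≤ T := by linarith
    rw [Finset.mem_product, mem_boxF hT1', mem_boxF hT1'] at hab
    obtain ⟨⟨u, hu, hua⟩, v, hv, hvb⟩ := hab
    simp only at hua hvb hxab
    have hxuv : x = (u : K) / (v : K) := by rw [← hxab, ← hua, ← hvb]
    have hu0 : (u : K) ≠ 0 := by exact_mod_cast boxSix_ne_zero hu
    have hv0 : (v : K) ≠ 0 := by exact_mod_cast boxSix_ne_zero hv
    have hx0 : x ≠ 0 := by rw [hxuv]; exact div_ne_zero hu0 hv0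
    have ht0 : -(q * x) ≠ 0 := neg_ne_zero.mpr (mul_ne_zero hq0 hx0)
    have ht1 : -(q * x) ≠ 1 := by
      intro h
      apply hxne
      have : x = q⁻¹ * (q * x) := by field_simp
      rw [this]
      have h' : q * x = -1 := by rw [← h]; ring
      rw [h']; ring
    have hteq : -(q * x) = -(((2 ^ m * u : 𝓞 K) : K) / ((3 ^ n * v : 𝓞 K) : K)) := by
      have e1 : algebraMap (𝓞 K) K (2 ^ m * u) = 2 ^ m * algebraMap (𝓞 K) K u := by
        rw [map_mul, map_pow, map_ofNat]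
      have e2 : algebraMap (𝓞 K) K (3 ^ n * v) = 3 ^ n * algebraMap (𝓞 K) K v := by
        rw [map_mul, map_pow, map_ofNat]
      have e1' : ((2 ^ m * u : 𝓞 K) : K) = 2 ^ m * (u : K) := e1
      have e2' : ((3 ^ n * v : 𝓞 K) : K) = 3 ^ n * (v : K) := e2
      rw [e1', e2', hxuv, hq]
      field_simp
    obtain ⟨hlow, hup⟩ := height_twist hu.1 hv.1 (m := m) (n := n) hm1
    rw [← hteq, ← hxuv, ← hd] at hlow hup
    set t : K := -(q * x) with ht
    have hH1T : mulHeight₁ x ≤ T ^ d := by rw [hxuv]; exact mulHeight₁_quot_box hu hv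
    have hH1 : 1 ≤ mulHeight₁ x := one_le_mulHeight₁ x
    have hH3up := htri t
    refine ⟨ht0, ht1, ?_, ?_⟩
    · calc mulHeight ![t, 1 - t, -1] ≤ C₀ * mulHeight₁ t := hH3up
        _ ≤ C₀ * (((3 : ℝ) ^ n) ^ d * mulHeight₁ x) := by gcongr
        _ ≤ C₀ * (Z * T ^ d) := by gcongr
        _ = X := by rw [hZ]; field_simp
    · have hr := hrad x m n hx0 ht1
      rw [← hq, ← ht] at hr
      have hH3low : (Y / T ^ d) * mulHeight₁ x ≤ mulHeight ![t, 1 - t, -1] := by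
        calc (Y / T ^ d) * mulHeight₁ x ≤ ((2 : ℝ) ^ m) ^ d * mulHeight₁ x :=
              mul_le_mul_of_nonneg_right hm3 (by linarith)
          _ ≤ mulHeight₁ t := hlow
          _ ≤ _ := mulHeight₁_le_triple t
      rw [hTd] at hH3low hH1T
      have hfin := exponent_ineq h1 h3 hH1 hTpos hYpos hH1T hC₆pos hA rfl hH3low
      refine hr.trans (le_trans ?_ hfin)
      have := mulHeight₁_one_sub_le_triple t
      gcongr
  have hfinal : (S.card : ℝ) ≤ ((excSet K lam X).ncard : ℝ) := by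
    have := Set.ncard_le_ncard hsub (finite_excSet lam X)
    rw [Set.ncard_coe_finset] at this
    exact_mod_cast this
  -- the exponent
  have hTpow : T ^ (2 * dr - δ) = (Y ^ (lam - 1)) ^ κ * (C₆ ^ κ)⁻¹ := by
    have e1 : T ^ (2 * dr) = Y ^ (lam - 1) / C₆ := by rw [← hA]; field_simp
    have e2 : T ^ (2 * dr - δ) = (T ^ (2 * dr)) ^ κ := by
      rw [← Real.rpow_mul hTpos.le]
      congr 1
      rw [hκ]; field_simp
    rw [e2, e1, Real.div_rpow (by positivity) hC₆pos.le, div_eq_mul_inv]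
  have hYpow : Y ^ (lam - 1 - ε) ≤ (Y ^ (lam - 1)) ^ κ := by
    rw [← Real.rpow_mul hYpos.le]
    apply Real.rpow_le_rpow_of_exponent_le hcX
    have e1 : (lam - 1) * κ = (lam - 1) - (lam - 1) * (δ / (2 * dr)) := by
      rw [hκ]; field_simp
    have e2 : (lam - 1) * (δ / (2 * dr)) ≤ ε := by
      have e3 : δ / (2 * dr) ≤ ε / 2 := by
        rw [div_le_div_iff₀ (by positivity) (by norm_num)]
        nlinarith
      have e4 : 0 ≤ δ / (2 * dr) := by positivity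
      nlinarith
    linarith
  have hXpow : c₂ ^ (lam - 1 - ε) * X ^ (lam - 1 - ε) = Y ^ (lam - 1 - ε) := by
    rw [hY, Real.mul_rpow hc₂pos.le hXpos.le]
  calc cr / 2 * (C₆ ^ κ)⁻¹ * c₂ ^ (lam - 1 - ε) * X ^ (lam - 1 - ε)
      = cr / 2 * (C₆ ^ κ)⁻¹ * (c₂ ^ (lam - 1 - ε) * X ^ (lam - 1 - ε)) := by ring
    _ = cr / 2 * (C₆ ^ κ)⁻¹ * Y ^ (lam - 1 - ε) := by rw [hXpow]
    _ ≤ cr / 2 * (C₆ ^ κ)⁻¹ * (Y ^ (lam - 1)) ^ κ := by gcongr
    _ = cr * T ^ (2 * dr - δ) / 2 := by rw [hTpow]; ring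
    _ ≤ cr * T ^ (2 * dr - δ) - 1 := by linarith
    _ ≤ Rf.card - 1 := by linarith
    _ ≤ S.card := by linarith
    _ ≤ _ := hfinal

end Pool.Agent.Work.MP_a793bb_nt
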