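import Pool.Agent.Work.MP_a793bb_nt.ExcDefs
import Pool.Agent.Work.MP_a793bb_nt.Assemble
import Pool.Agent.Work.MP_a793bb_nt.LPB
import Pool.Agent.Work.MP_a793bb_nt.LowerFinal

set_option autoImplicit false
set_option linter.unusedSectionVars false

namespace Pool.Agent.Work.MP_a793bb_nt

open NumberField IsDedekindDomain Height LinearAlgebra.Projectivization

variable {K : Type*} [Field K] [NumberField K]

namespace BPlus

lemma vec_ne_zero (t : K) : (![t, 1 - t, -1] : Fin 3 → K) ≠ 0 := by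
  intro h
  have := congrFun h 2
  simp at this

/-- the point `(t : 1 - t : -1)` -/
def ptOf (t : K) : ℙ K (Fin 3 → K) := Projectivization.mk K ![t, 1 - t, -1] (vec_ne_zero t)

lemma ptOf_injective : Function.Injective (ptOf (K := K)) := by
  intro t t' h
  rw [ptOf, ptOf, Projectivization.mk_eq_mk_iff'] at h
  obtain ⟨u, hu⟩ := h
  have h2 := congrFun hu 2
  have h0 := congrFun hu 0
  simp only [Pi.smul_apply, smul_eq_mul, Matrix.cons_val] at h2 h0
  have h3 : u = 1 := by linear_combination -h2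
  rw [h3, one_mul] at h0
  exact h0.symm

lemma excPts_eq (lam B : ℝ) : excPts K lam B =
    ptOf '' (excSet K lam (Real.exp ((Module.finrank ℚ K : ℝ) * B))) := by
  set d : ℝ := (Module.finrank ℚ K : ℝ) with hd
  have hd0 : 0 < d := finrank_pos'
  have hconv : ∀ t : K, (ht t (1 - t) (-1) ≤ B ∧ rad t (1 - t) (-1) ≤ lam * ht t (1 - t) (-1)) ↔
      (mulHeight ![t, 1 - t, -1] ≤ Real.exp (d * B) ∧
        Real.exp (Rs (Ip t)) ≤ (mulHeight ![t, 1 - t, -1]) ^ lam) := by
    intro t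
    have hm : 0 < mulHeight ![t, 1 - t, -1] := mulHeight_pos _
    have e1 : ht t (1 - t) (-1) = Real.log (mulHeight ![t, 1 - t, -1]) / d := rfl
    have e2 : rad t (1 - t) (-1) = Rs (Ip t) / d := rfl
    have e3 : (mulHeight ![t, 1 - t, -1]) ^ lam =
        Real.exp (lam * Real.log (mulHeight ![t, 1 - t, -1])) := by
      rw [Real.rpow_def_of_pos hm, mul_comm]
    rw [e1, e2, e3, Real.exp_le_exp, div_le_iff₀ hd0, ← Real.log_le_iff_le_exp hm,
      mul_comm B d, ← mul_div_assoc, div_le_div_iff_of_pos_right hd0]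
  ext P
  constructor
  · rintro ⟨a, b, c, h, rfl, habc, hne, h1, h2⟩
    have hc : c ≠ 0 := right_ne_zero_of_mul hne
    have hb : b ≠ 0 := right_ne_zero_of_mul (left_ne_zero_of_mul hne)
    have ha : a ≠ 0 := left_ne_zero_of_mul (left_ne_zero_of_mul hne)
    refine ⟨-a / c, ⟨affine_ne_zero ha hc, affine_ne_one hb hc habc, ?_⟩, ?_⟩
    · rw [← hconv]
      have e1 : ht (-a / c) (1 - -a / c) (-1) = ht a b c := by
        rw [ht, ht, logHeight_affine hc habc]
      have e2 : rad (-a / c) (1 - -a / c) (-1) = rad a b c := (rad_affine hc habc).symm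
      rw [e1, e2]
      exact ⟨h1, h2⟩
    · rw [ptOf, Projectivization.mk_eq_mk_iff']
      refine ⟨-1 / c, ?_⟩
      have h2 : -1 / c * b = 1 - -a / c := by
        field_simp
        linear_combination -habc
      ext i
      fin_cases i
      · change -1 / c * a = -a / c
        ring
      · exact h2
      · change -1 / c * c = -1
        field_simp
  · rintro ⟨t, ⟨h0, h1, h2, h3⟩, rfl⟩
    have h4 := (hconv t).mpr ⟨h2, h3⟩
    refine ⟨t, 1 - t, -1, vec_ne_zero t, rfl, by ring, ?_, h4.1, h4.2⟩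
    exact mul_ne_zero (mul_ne_zero h0 (sub_ne_zero.mpr (Ne.symm h1))) (by simp)

lemma finite_excPts (lam B : ℝ) : (excPts K lam B).Finite := by
  rw [excPts_eq]
  exact (finite_excSet lam _).image _

lemma ncard_excPts (lam B : ℝ) : (excPts K lam B).ncard =
    (excSet K lam (Real.exp ((Module.finrank ℚ K : ℝ) * B))).ncard := by
  rw [excPts_eq, Set.ncard_image_of_injective _ ptOf_injective]

variable (K) in
theorem upper_of_LPH {lam Λ κ : ℝ} (hlam : lam ≤ Λ) (hΛ : 0 ≤ Λ) (hκ : 0 ≤ κ) (hLP : LPH Λ κ)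
    {δ : ℝ} (hδ : 0 < δ) : ∃ C : ℝ, ∀ B : ℝ, 0 ≤ B →
      ((excPts K lam B).ncard : ℝ) ≤
        C * Real.exp ((κ + δ) * (Module.finrank ℚ K : ℝ) * B) := by
  obtain ⟨C, -, hC⟩ := card_of_LPH K hΛ hκ hLP hδ
  refine ⟨C, fun B hB => ?_⟩
  set X : ℝ := Real.exp ((Module.finrank ℚ K : ℝ) * B) with hX
  have hd0 : (0 : ℝ) < (Module.finrank ℚ K : ℝ) := finrank_pos'
  have hX1 : 1 ≤ X := Real.one_le_exp (by positivity)
  have hfin := finite_excSet (K := K) lam X
  have h1 := hC X hX1 hfin.toFinset (by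
    intro t ht
    rw [Set.Finite.mem_toFinset] at ht
    obtain ⟨h0, h1, h2, h3⟩ := ht
    have hm : 0 < mulHeight ![t, 1 - t, -1] := mulHeight_pos _
    refine ⟨h0, h1, Real.log_le_log hm h2, ?_⟩
    rw [Real.rpow_def_of_pos hm, Real.exp_le_exp] at h3
    refine h3.trans ?_
    have h4 : 0 ≤ hh t := hh_nonneg t
    have h5 : Real.log (mulHeight ![t, 1 - t, -1]) = hh t := rfl
    rw [h5, mul_comm]
    exact mul_le_mul_of_nonneg_right hlam h4)
  rw [ncard_excPts, Set.ncard_eq_toFinset_card _ hfin]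
  refine h1.trans (le_of_eq ?_)
  rw [hX, ← Real.exp_mul]
  congr 2
  ring

variable (K) in
theorem lower_excPts {lam δ : ℝ} (h1 : 1 < lam) (h3 : lam ≤ 3) (hδ : 0 < δ) :
    ∃ c B₀ : ℝ, 0 < c ∧ ∀ B : ℝ, B₀ ≤ B →
      c * Real.exp ((lam - 1 - δ) * (Module.finrank ℚ K : ℝ) * B) ≤
        ((excPts K lam B).ncard : ℝ) := by
  obtain ⟨c, X₀, hc, h⟩ := exceptional_lower K h1 h3 hδ
  have hd0 : (0 : ℝ) < (Module.finrank ℚ K : ℝ) := finrank_pos'
  refine ⟨c, X₀ / (Module.finrank ℚ K : ℝ), hc, fun B hB => ?_⟩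
  have hX : X₀ ≤ Real.exp ((Module.finrank ℚ K : ℝ) * B) := by
    rw [div_le_iff₀ hd0] at hB
    have := Real.add_one_le_exp ((Module.finrank ℚ K : ℝ) * B)
    linarith
  have h4 := h _ hX
  rw [ncard_excPts]
  refine le_trans (le_of_eq ?_) h4
  rw [← Real.exp_mul]
  congr 2
  ring

end BPlus

end Pool.Agent.Work.MP_a793bb_nt
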