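import Pool.Agent.Work.MP_a793bb_nt.Units

set_option autoImplicit false
set_option linter.unusedSectionVars false

namespace Pool.Agent.Work.MP_a793bb_nt

open NumberField NumberField.InfinitePlace Module Height nonZeroDivisors

variable {K : Type*} [Field K] [NumberField K]

lemma mulHeight_int {ι : Type*} [Finite ι] (y : ι → 𝓞 K) (hy : y ≠ 0) :
    mulHeight (fun i => (y i : K)) * (Ideal.absNorm (Ideal.span (Set.range y)) : ℝ) =
      ∏ v : InfinitePlace K, (⨆ i, v (y i : K)) ^ v.mult := by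
  have hy' : (fun i => (y i : K)) ≠ 0 := by
    obtain ⟨i, hi⟩ := Function.ne_iff.mp hy
    exact Function.ne_iff.mpr ⟨i, by simpa using hi⟩
  rw [NumberField.mulHeight_eq hy']
  have h := absNorm_mul_finprod_finitePlace_eq_one hy
  calc _ = (∏ v : InfinitePlace K, (⨆ i, v (y i : K)) ^ v.mult) *
        ((Ideal.absNorm (Ideal.span (Set.range y)) : ℝ) *
          ∏ᶠ v : FinitePlace K, ⨆ i, v (y i : K)) := by ring
    _ = _ := by rw [h, mul_one]

variable (K) in
lemma exists_balanced (ι : Type*) [Finite ι] : ∃ (C : ℝ) (G : Set (Ideal (𝓞 K))), 1 ≤ C ∧ G.Finite ∧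
    (∀ I ∈ G, I ≠ ⊥) ∧ ∀ x : ι → K, x ≠ 0 → ∃ (t : K) (y : ι → 𝓞 K), t ≠ 0 ∧
      (∀ i, t * x i = y i) ∧ Ideal.span (Set.range y) ∈ G ∧
      ∀ v : InfinitePlace K, (⨆ i, v (y i : K)) ≤ C * mulHeight x ^ (1 / (finrank ℚ K : ℝ)) ∧
        mulHeight x ^ (1 / (finrank ℚ K : ℝ)) ≤ C * ⨆ i, v (y i : K) := by
  classical
  have hd : (0 : ℝ) < finrank ℚ K := by exact_mod_cast finrank_pos
  -- representatives of the ideal classes
  choose rep hrep using (ClassGroup.mk0_surjective (R := 𝓞 K))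
  set G : Set (Ideal (𝓞 K)) := Set.range fun c : ClassGroup (𝓞 K) => (rep c : Ideal (𝓞 K)) with hG
  have hGfin : G.Finite := Set.finite_range _
  obtain ⟨C₀, hC₀, hunit⟩ := exists_unit_near K
  -- bound of the norms in G
  obtain ⟨N, hN⟩ : ∃ N : ℝ, ∀ I ∈ G, (Ideal.absNorm I : ℝ) ≤ N := by
    obtain ⟨N, hN⟩ := (hGfin.image fun I => (Ideal.absNorm I : ℝ)).bddAbove
    exact ⟨N, fun I hI => hN ⟨I, hI, rfl⟩⟩
  have hN1 : 1 ≤ N := by
    have h1 := hN _ ⟨1, rfl⟩
    have h2 : (1 : ℝ) ≤ (Ideal.absNorm (rep 1 : Ideal (𝓞 K)) : ℝ) := by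
      have : Ideal.absNorm (rep 1 : Ideal (𝓞 K)) ≠ 0 := by
        rw [Ne, Ideal.absNorm_eq_zero_iff]
        exact nonZeroDivisors.ne_zero (rep 1).2
      exact_mod_cast Nat.one_le_iff_ne_zero.mpr this
    linarith
  refine ⟨Real.exp C₀ * N ^ (1 / (finrank ℚ K : ℝ)), G, ?_, hGfin, ?_, ?_⟩
  · have h1 : 1 ≤ Real.exp C₀ := Real.one_le_exp hC₀
    have h2 : 1 ≤ N ^ (1 / (finrank ℚ K : ℝ)) := Real.one_le_rpow hN1 (by positivity)
    nlinarith
  · rintro _ ⟨c, rfl⟩
    exact nonZeroDivisors.ne_zero (rep c).2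
  intro x hx
  -- clear denominators
  have : Fintype ι := Fintype.ofFinite ι
  obtain ⟨m, hm⟩ := IsLocalization.exist_integer_multiples (𝓞 K)⁰ Finset.univ x
  choose z hz using fun i => hm i (Finset.mem_univ i)
  have hm0 : (m : 𝓞 K) ≠ 0 := nonZeroDivisors.ne_zero m.2
  have hz' : ∀ i, (z i : K) = (m : 𝓞 K) * x i := by
    intro i
    have := hz i
    rw [Algebra.smul_def] at this
    exact this
  have hz0 : z ≠ 0 := by
    obtain ⟨i, hi⟩ := Function.ne_iff.mp hx
    refine Function.ne_iff.mpr ⟨i, fun h => ?_⟩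
    have h1 := hz' i
    rw [h] at h1
    simp only [Pi.zero_apply, map_zero] at h1
    have h2 : ((m : 𝓞 K) : K) ≠ 0 := by exact_mod_cast hm0
    rcases mul_eq_zero.mp h1.symm with h3 | h3
    · exact h2 h3
    · exact hi h3
  set J : Ideal (𝓞 K) := Ideal.span (Set.range z) with hJ
  have hJ0 : J ≠ ⊥ := by
    obtain ⟨i, hi⟩ := Function.ne_iff.mp hz0
    intro h
    have : z i ∈ J := Ideal.subset_span ⟨i, rfl⟩
    rw [h, Ideal.mem_bot] at this
    exact hi this
  have hJn : J ∈ (Ideal (𝓞 K))⁰ := mem_nonZeroDivisors_of_ne_zero hJ0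
  set c := ClassGroup.mk0 (⟨J, hJn⟩ : (Ideal (𝓞 K))⁰) with hc
  obtain ⟨α, β, hα, hβ, hαβ⟩ := ClassGroup.mk0_eq_mk0_iff.mp (hc.symm.trans (hrep c).symm)
  simp only at hαβ
  -- the integral representatives
  have hw : ∀ i, ∃ w : 𝓞 K, w ∈ (rep c : Ideal (𝓞 K)) ∧ β * w = α * z i := by
    intro i
    have h1 : α * z i ∈ Ideal.span {α} * J :=
      Ideal.mul_mem_mul (Ideal.mem_span_singleton_self α) (Ideal.subset_span ⟨i, rfl⟩)
    rw [hαβ, Ideal.mem_span_singleton_mul] at h1
    obtain ⟨w, hw1, hw2⟩ := h1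
    exact ⟨w, hw1, hw2⟩
  choose w hwmem hw using hw
  have hspan : Ideal.span (Set.range w) = rep c := by
    have h1 : Ideal.span {β} * Ideal.span (Set.range w) = Ideal.span {β} * (rep c : Ideal (𝓞 K)) := by
      rw [← hαβ, hJ, Ideal.span_mul_span', Ideal.span_mul_span']
      congr 1
      ext s
      simp only [Set.singleton_mul, Set.mem_image, Set.mem_range, exists_exists_eq_and]
      constructor
      · rintro ⟨i, rfl⟩; exact ⟨i, (hw i).symm⟩
      · rintro ⟨i, rfl⟩; exact ⟨i, (hw i)⟩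
    have h2 : Ideal.span {β} ≠ (⊥ : Ideal (𝓞 K)) := by simpa using hβ
    exact mul_left_cancel₀ h2 h1
  have hw0 : w ≠ 0 := by
    obtain ⟨i, hi⟩ := Function.ne_iff.mp hz0
    refine Function.ne_iff.mpr ⟨i, fun h => ?_⟩
    have := hw i
    rw [h] at this
    simp at this
    exact this.elim hα hi
  -- sizes
  have hwx : ∀ i, (w i : K) = ((α : K) * ((m : 𝓞 K) : K) / (β : K)) * x i := by
    intro i
    have h1 : (β : K) * w i = α * z i := by exact_mod_cast hw i
    have hβ' : (β : K) ≠ 0 := by exact_mod_cast hβ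
    rw [hz'] at h1
    field_simp
    linear_combination h1
  have ht0 : ((α : K) * ((m : 𝓞 K) : K) / (β : K)) ≠ 0 := by
    have h1 : (α : K) ≠ 0 := by exact_mod_cast hα
    have h2 : (β : K) ≠ 0 := by exact_mod_cast hβ
    have h3 : ((m : 𝓞 K) : K) ≠ 0 := by exact_mod_cast hm0
    exact div_ne_zero (mul_ne_zero h1 h3) h2
  have hHw : mulHeight (fun i => (w i : K)) = mulHeight x := by
    rw [← mulHeight_smul_eq_mulHeight x ht0]
    congr 1
    ext i
    rw [hwx i]; rfl
  have hprod := mulHeight_int w hw0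
  rw [hHw, hspan] at hprod
  set M : InfinitePlace K → ℝ := fun v => ⨆ i, v (w i : K) with hM
  have hMpos : ∀ v, 0 < M v := by
    intro v
    obtain ⟨i, hi⟩ := Function.ne_iff.mp hw0
    have h1 : 0 < v (w i : K) := by
      rw [InfinitePlace.pos_iff]
      exact_mod_cast hi
    exact h1.trans_le (Finite.le_ciSup (fun i => v (w i : K)) i)
  set H := mulHeight x with hH
  have hHpos : 0 < H := mulHeight_pos x
  set n : ℝ := (Ideal.absNorm (rep c : Ideal (𝓞 K)) : ℝ) with hn
  have hnN : n ≤ N := hN _ ⟨c, rfl⟩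
  have hn1 : 1 ≤ n := by
    have : Ideal.absNorm (rep c : Ideal (𝓞 K)) ≠ 0 := by
      rw [Ne, Ideal.absNorm_eq_zero_iff]
      exact nonZeroDivisors.ne_zero (rep c).2
    rw [hn]
    exact_mod_cast Nat.one_le_iff_ne_zero.mpr this
  have hlogprod : Real.log (H * n) = ∑ v : InfinitePlace K, (v.mult : ℝ) * Real.log (M v) := by
    rw [hprod, Real.log_prod (fun v _ => pow_ne_zero _ (hMpos v).ne')]
    refine Finset.sum_congr rfl fun v _ => ?_
    rw [Real.log_pow]
  obtain ⟨u, hu⟩ := hunit (fun v => Real.log (H * n) / (finrank ℚ K : ℝ) - Real.log (M v)) (by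
    simp only [mul_sub]
    rw [Finset.sum_sub_distrib, ← hlogprod, ← Finset.sum_mul]
    have : ∑ v : InfinitePlace K, (v.mult : ℝ) = finrank ℚ K := by
      rw [← InfinitePlace.sum_mult_eq]; push_cast; rfl
    rw [this]
    field_simp
    ring)
  refine ⟨(u : K) * ((α : K) * ((m : 𝓞 K) : K) / (β : K)), fun i => u * w i, ?_, ?_, ?_, ?_⟩
  · refine mul_ne_zero ?_ ht0
    exact NumberField.Units.coe_ne_zero u
  · intro i
    rw [mul_assoc, ← hwx i]
    push_cast
    rfl
  · have : Ideal.span (Set.range fun i => (u : 𝓞 K) * w i) = rep c := by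
      have h1 : Ideal.span (Set.range fun i => (u : 𝓞 K) * w i) =
          Ideal.span {(u : 𝓞 K)} * Ideal.span (Set.range w) := by
        rw [Ideal.span_mul_span']
        congr 1
        ext s
        simp only [Set.singleton_mul, Set.mem_image, Set.mem_range, exists_exists_eq_and]
      rw [h1, hspan, Ideal.span_singleton_eq_top.mpr u.isUnit, ← Ideal.one_eq_top, one_mul]
    rw [this]
    exact ⟨c, rfl⟩
  · intro v
    have hsup : (⨆ i, v (((u : 𝓞 K) * w i : 𝓞 K) : K)) = v (u : K) * M v := by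
      rw [hM]
      simp only
      rw [Real.mul_iSup_of_nonneg (apply_nonneg _ _)]
      refine iSup_congr fun i => ?_
      push_cast
      rw [map_mul]
    rw [hsup]
    have hupos : 0 < v (u : K) := by
      rw [InfinitePlace.pos_iff]
      exact NumberField.Units.coe_ne_zero u
    have h1 := hu v
    rw [abs_le] at h1
    have h2 : Real.log (v (u : K) * M v) = Real.log (v (u : K)) + Real.log (M v) :=
      Real.log_mul hupos.ne' (hMpos v).ne'
    have h3 : Real.log (v (u : K) * M v) ≤ C₀ + Real.log (H * n) / (finrank ℚ K : ℝ) := by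
      rw [h2]; linarith [h1.2]
    have h4 : Real.log (H * n) / (finrank ℚ K : ℝ) - C₀ ≤ Real.log (v (u : K) * M v) := by
      rw [h2]; linarith [h1.1]
    have h5 : Real.exp (Real.log (H * n) / (finrank ℚ K : ℝ)) =
        H ^ (1 / (finrank ℚ K : ℝ)) * n ^ (1 / (finrank ℚ K : ℝ)) := by
      rw [← Real.mul_rpow hHpos.le (by linarith), Real.rpow_def_of_pos (by positivity)]
      congr 1
      ring
    have hpos : 0 < v (u : K) * M v := mul_pos hupos (hMpos v)
    have h6 : n ^ (1 / (finrank ℚ K : ℝ)) ≤ N ^ (1 / (finrank ℚ K : ℝ)) :=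
      Real.rpow_le_rpow (by linarith) hnN (by positivity)
    have h7 : 1 ≤ n ^ (1 / (finrank ℚ K : ℝ)) := Real.one_le_rpow hn1 (by positivity)
    have h8 : 0 < H ^ (1 / (finrank ℚ K : ℝ)) := Real.rpow_pos_of_pos hHpos _
    have h9 : 1 ≤ N ^ (1 / (finrank ℚ K : ℝ)) := h7.trans h6
    constructor
    · have := Real.exp_le_exp.mpr h3
      rw [Real.exp_log hpos, Real.exp_add, h5] at this
      refine this.trans ?_
      have h10 := Real.exp_pos C₀
      calc Real.exp C₀ * (H ^ (1 / (finrank ℚ K : ℝ)) * n ^ (1 / (finrank ℚ K : ℝ)))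
          ≤ Real.exp C₀ * (H ^ (1 / (finrank ℚ K : ℝ)) * N ^ (1 / (finrank ℚ K : ℝ))) := by gcongr
        _ = _ := by ring
    · have := Real.exp_le_exp.mpr h4
      rw [Real.exp_log hpos, Real.exp_sub, h5, div_le_iff₀ (Real.exp_pos C₀)] at this
      have h10 : H ^ (1 / (finrank ℚ K : ℝ)) ≤
          H ^ (1 / (finrank ℚ K : ℝ)) * n ^ (1 / (finrank ℚ K : ℝ)) := by nlinarith
      have h11 : v (u : K) * M v * Real.exp C₀ ≤
          Real.exp C₀ * N ^ (1 / (finrank ℚ K : ℝ)) * (v (u : K) * M v) := by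
        have h12 : 0 < v (u : K) * M v * Real.exp C₀ := by positivity
        nlinarith
      linarith

end Pool.Agent.Work.MP_a793bb_nt
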