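import Mathlib

set_option autoImplicit false
set_option linter.unusedSectionVars false

namespace Pool.Agent.Work.MP_a793bb_nt

open NumberField NumberField.Units NumberField.Units.dirichletUnitTheorem NumberField.InfinitePlace
open Module

variable (K : Type*) [Field K] [NumberField K]

lemma mem_unitLattice_iff (z : logSpace K) :
    z ∈ unitLattice K ↔ ∃ u : (𝓞 K)ˣ, logEmbedding K (Additive.ofMul u) = z := by
  simp only [unitLattice, Submodule.mem_map, Submodule.mem_top, true_and]
  constructor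
  · rintro ⟨y, hy⟩
    exact ⟨y.toMul, hy⟩
  · rintro ⟨u, hu⟩
    exact ⟨Additive.ofMul u, hu⟩

open scoped Classical in
/-- Every trace zero vector is within bounded distance of the log vector of a unit. -/
lemma exists_unit_near : ∃ C : ℝ, 0 ≤ C ∧ ∀ y : InfinitePlace K → ℝ,
    ∑ v, (mult v : ℝ) * y v = 0 → ∃ u : (𝓞 K)ˣ, ∀ v : InfinitePlace K,
      |Real.log (v (u : K)) - y v| ≤ C := by
  set b := (basisUnitLattice K).ofZLatticeBasis ℝ (unitLattice K) with hb
  set C₀ : ℝ := ∑ i, ‖b i‖ with hC₀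
  have hC₀' : 0 ≤ C₀ := Finset.sum_nonneg fun _ _ => norm_nonneg _
  refine ⟨Fintype.card (InfinitePlace K) * C₀, by positivity, fun y hy => ?_⟩
  let z : logSpace K := fun w => mult w.val * y w.val
  have hspan : Submodule.span ℤ (Set.range b) = unitLattice K :=
    Basis.ofZLatticeBasis_span ℝ (unitLattice K) (basisUnitLattice K)
  have hmem : ((ZSpan.floor b z : Submodule.span ℤ (Set.range b)) : logSpace K) ∈ unitLattice K := by
    rw [← hspan]; exact (ZSpan.floor b z).2
  obtain ⟨u, hu⟩ := (mem_unitLattice_iff K _).mp hmem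
  have hfr : ‖z - logEmbedding K (Additive.ofMul u)‖ ≤ C₀ := by
    rw [hu]
    exact ZSpan.norm_fract_le b z
  have hcomp : ∀ w : {w : InfinitePlace K // w ≠ w₀},
      |(mult w.val : ℝ) * (Real.log (w.val (u : K)) - y w.val)| ≤ C₀ := by
    intro w
    have h1 := (norm_le_pi_norm (z - logEmbedding K (Additive.ofMul u)) w).trans hfr
    rw [Pi.sub_apply, logEmbedding_component, Real.norm_eq_abs, abs_sub_comm] at h1
    have h2 : (mult w.val : ℝ) * (Real.log (w.val (u : K)) - y w.val) =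
      mult w.val * Real.log (w.val (u : K)) - z w := by simp only [z]; ring
    rw [h2]
    exact h1
  have hmult : ∀ v : InfinitePlace K, (1 : ℝ) ≤ mult v := by
    intro v
    exact_mod_cast one_le_mult
  have tool : ∀ v : InfinitePlace K, ∀ t : ℝ, |t| ≤ |(mult v : ℝ) * t| := by
    intro v t
    rw [abs_mul, abs_of_nonneg (by positivity : (0:ℝ) ≤ mult v)]
    nlinarith [abs_nonneg t, hmult v]
  refine ⟨u, fun v => ?_⟩
  have hcard1 : (1 : ℝ) ≤ Fintype.card (InfinitePlace K) := by
    exact_mod_cast Fintype.card_pos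
  by_cases hv : v = w₀
  · subst hv
    refine (tool w₀ _).trans ?_
    have h1 := sum_logEmbedding_component u
    have h2 : ∑ w : {w : InfinitePlace K // w ≠ w₀}, (mult w.val : ℝ) * y w.val =
        -((mult (w₀ : InfinitePlace K) : ℝ) * y w₀) := by
      rw [Fintype.sum_eq_add_sum_subtype_ne _ w₀] at hy
      linarith
    have h3 : (mult (w₀ : InfinitePlace K) : ℝ) * (Real.log (w₀ (u : K)) - y w₀) =
        -∑ w : {w : InfinitePlace K // w ≠ w₀}, (mult w.val : ℝ) *
          (Real.log (w.val (u : K)) - y w.val) := by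
      have h4 : ∑ w : {w : InfinitePlace K // w ≠ w₀}, (mult w.val : ℝ) *
          (Real.log (w.val (u : K)) - y w.val) =
          ∑ w : {w : InfinitePlace K // w ≠ w₀}, logEmbedding K (Additive.ofMul u) w -
          ∑ w : {w : InfinitePlace K // w ≠ w₀}, (mult w.val : ℝ) * y w.val := by
        rw [← Finset.sum_sub_distrib]
        refine Finset.sum_congr rfl fun w _ => ?_
        rw [logEmbedding_component]
        ring
      rw [h4, h1, h2]
      ring
    rw [h3, abs_neg]
    refine (Finset.abs_sum_le_sum_abs _ _).trans ?_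
    refine (Finset.sum_le_card_nsmul _ _ _ fun w _ => hcomp w).trans ?_
    rw [nsmul_eq_mul]
    refine mul_le_mul_of_nonneg_right ?_ hC₀'
    simp
  · refine (tool v _).trans ((hcomp ⟨v, hv⟩).trans ?_)
    nlinarith


/-- Counting units of bounded size. -/
lemma card_units_le : ∃ C : ℝ, 0 < C ∧ ∀ R : ℝ, 0 ≤ R →
    {u : (𝓞 K)ˣ | ∀ v : InfinitePlace K, Real.log (v (u : K)) ≤ R}.Finite ∧
    ({u : (𝓞 K)ˣ | ∀ v : InfinitePlace K, Real.log (v (u : K)) ≤ R}.ncard : ℝ) ≤
      C * (1 + R) ^ (rank K) := by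
  classical
  set b := (basisUnitLattice K).ofZLatticeBasis ℝ (unitLattice K) with hb
  -- coordinates are bounded by a multiple of the norm
  obtain ⟨C₁, hC₁, hC₁'⟩ : ∃ C₁ : ℝ, 0 ≤ C₁ ∧ ∀ z : logSpace K, ∀ i, |b.repr z i| ≤ C₁ * ‖z‖ := by
    let f : logSpace K →L[ℝ] (Fin (rank K) → ℝ) := (b.equivFun.toLinearMap).toContinuousLinearMap
    refine ⟨‖f‖, norm_nonneg _, fun z i => ?_⟩
    have h1 := (norm_le_pi_norm (f z) i).trans (f.le_opNorm z)
    simpa [f] using h1
  set d : ℝ := ((Module.finrank ℚ K : ℕ) : ℝ) with hd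
  have hd0 : 0 ≤ d := by positivity
  have hmult : ∀ v : InfinitePlace K, (1 : ℝ) ≤ mult v := fun v => by exact_mod_cast one_le_mult
  -- bound for the log embedding
  have hnorm : ∀ R : ℝ, 0 ≤ R → ∀ u : (𝓞 K)ˣ, (∀ v : InfinitePlace K, Real.log (v (u : K)) ≤ R) →
      ‖logEmbedding K (Additive.ofMul u)‖ ≤ 2 * d * R := by
    intro R hR u hu
    rw [pi_norm_le_iff_of_nonneg (by positivity)]
    intro w
    rw [logEmbedding_component, Real.norm_eq_abs, abs_le]
    have hsum := sum_mult_mul_log u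
    have hsum2 : ∑ v : InfinitePlace K, (mult v : ℝ) = d := by
      rw [hd, ← InfinitePlace.sum_mult_eq]
      push_cast
      rfl
    have hle : ∀ v : InfinitePlace K, (mult v : ℝ) * Real.log (v (u : K)) ≤ mult v * R := by
      intro v
      exact mul_le_mul_of_nonneg_left (hu v) (by positivity)
    have hmw : (mult w.val : ℝ) ≤ d := by
      rw [← hsum2]
      exact Finset.single_le_sum (f := fun v : InfinitePlace K => (mult v : ℝ))
        (fun v _ => by positivity) (Finset.mem_univ w.val)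
    constructor
    · have h1 : (mult w.val : ℝ) * Real.log (w.val (u : K)) =
          -∑ v ∈ Finset.univ.erase w.val, (mult v : ℝ) * Real.log (v (u : K)) := by
        rw [← Finset.add_sum_erase _ _ (Finset.mem_univ w.val)] at hsum
        linarith
      have h2 : ∑ v ∈ Finset.univ.erase w.val, (mult v : ℝ) * Real.log (v (u : K)) ≤
          ∑ v ∈ Finset.univ.erase w.val, (mult v : ℝ) * R :=
        Finset.sum_le_sum fun v _ => hle v
      have h3 : ∑ v ∈ Finset.univ.erase w.val, (mult v : ℝ) * R ≤ ∑ v : InfinitePlace K, (mult v : ℝ) * R :=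
        Finset.sum_le_sum_of_subset_of_nonneg (Finset.erase_subset _ _) fun v _ _ => by positivity
      have h3' : ∑ v : InfinitePlace K, (mult v : ℝ) * R = d * R := by
        rw [← Finset.sum_mul, hsum2]
      have h4 : d * R ≤ 2 * d * R := by nlinarith [mul_nonneg hd0 hR]
      linarith
    · have h1 := hle w.val
      have h2 : (mult w.val : ℝ) * R ≤ d * R := mul_le_mul_of_nonneg_right hmw hR
      have h4 : d * R ≤ 2 * d * R := by nlinarith [mul_nonneg hd0 hR]
      linarith
  -- the box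
  have hfinTors : Finite (torsion K) := inferInstance
  have : Fintype (torsion K) := Fintype.ofFinite _
  let F : (torsion K) × (Fin (rank K) → ℤ) → (𝓞 K)ˣ := fun ζe =>
    ζe.1 * ∏ i, (fundSystem K i) ^ (ζe.2 i)
  have key : ∀ R : ℝ, 0 ≤ R →
      {u : (𝓞 K)ˣ | ∀ v : InfinitePlace K, Real.log (v (u : K)) ≤ R} ⊆
      F '' ((Finset.univ (α := torsion K) ×ˢ Fintype.piFinset
        (fun _ : Fin (rank K) => Finset.Icc (-(⌊C₁ * (2 * d * R)⌋₊ : ℤ)) (⌊C₁ * (2 * d * R)⌋₊ : ℤ)) :
        Finset ((torsion K) × (Fin (rank K) → ℤ))) : Set _) := by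
    intro R hR u hu
    obtain ⟨⟨ζ, e⟩, h1, -⟩ := exist_unique_eq_mul_prod K u
    refine ⟨(ζ, e), ?_, h1.symm⟩
    simp only [Finset.coe_product, Set.mem_prod, Finset.mem_coe, Finset.mem_univ, true_and,
      Fintype.mem_piFinset]
    intro i
    have hrep : b.repr (logEmbedding K (Additive.ofMul u)) i = (e i : ℝ) := by
      have h2 : logEmbedding K (Additive.ofMul u) = ∑ j, (e j : ℝ) • b j := by
        rw [h1, ofMul_mul, map_add, ofMul_prod, map_sum]
        have h3 : logEmbedding K (Additive.ofMul (ζ : (𝓞 K)ˣ)) = 0 :=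
          logEmbedding_eq_zero_iff.mpr ζ.2
        rw [h3, zero_add]
        refine Finset.sum_congr rfl fun j _ => ?_
        rw [ofMul_zpow, map_zsmul, logEmbedding_fundSystem, hb, Basis.ofZLatticeBasis_apply,
          ← Int.cast_smul_eq_zsmul ℝ]
      rw [h2]
      simp [Finsupp.single_apply]
    have h4 := hC₁' (logEmbedding K (Additive.ofMul u)) i
    rw [hrep] at h4
    have h5 := h4.trans (mul_le_mul_of_nonneg_left (hnorm R hR u hu) hC₁)
    have h6 : (e i).natAbs ≤ ⌊C₁ * (2 * d * R)⌋₊ := by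
      apply Nat.le_floor
      rw [Nat.cast_natAbs]
      push_cast
      exact h5
    rw [Finset.mem_Icc]
    omega
  refine ⟨(Fintype.card (torsion K)) * (4 * C₁ * d + 1) ^ (rank K), by positivity, fun R hR => ?_⟩
  have hfin : {u : (𝓞 K)ˣ | ∀ v : InfinitePlace K, Real.log (v (u : K)) ≤ R}.Finite :=
    ((Finset.finite_toSet _).image F).subset (key R hR)
  refine ⟨hfin, ?_⟩
  have hcard := Set.ncard_le_ncard (key R hR) ((Finset.finite_toSet _).image F)
  have hcard2 := hcard.trans (Set.ncard_image_le (Finset.finite_toSet _))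
  rw [Set.ncard_coe_finset, Finset.card_product, Finset.card_univ, Fintype.card_piFinset_const,
    Int.card_Icc] at hcard2
  have h7 : ((((⌊C₁ * (2 * d * R)⌋₊ : ℤ) + 1 - -(⌊C₁ * (2 * d * R)⌋₊ : ℤ)).toNat : ℕ) : ℝ) ≤
      (4 * C₁ * d + 1) * (1 + R) := by
    have h8 : ((⌊C₁ * (2 * d * R)⌋₊ : ℤ) + 1 - -(⌊C₁ * (2 * d * R)⌋₊ : ℤ)).toNat =
        2 * ⌊C₁ * (2 * d * R)⌋₊ + 1 := by omega
    rw [h8]
    push_cast
    have h9 := Nat.floor_le (show 0 ≤ C₁ * (2 * d * R) by positivity)
    have h10 : 0 ≤ C₁ * d := by positivity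
    nlinarith
  calc (({u : (𝓞 K)ˣ | ∀ v : InfinitePlace K, Real.log (v (u : K)) ≤ R}.ncard : ℕ) : ℝ)
      ≤ ((Fintype.card (torsion K) * ((⌊C₁ * (2 * d * R)⌋₊ : ℤ) + 1 -
          -(⌊C₁ * (2 * d * R)⌋₊ : ℤ)).toNat ^ (rank K) : ℕ) : ℝ) := by exact_mod_cast hcard2
    _ ≤ (Fintype.card (torsion K)) * ((4 * C₁ * d + 1) * (1 + R)) ^ (rank K) := by
        rw [Nat.cast_mul, Nat.cast_pow]
        gcongr
    _ = (Fintype.card (torsion K)) * (4 * C₁ * d + 1) ^ (rank K) * (1 + R) ^ (rank K) := by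
        rw [mul_pow]; ring

end Pool.Agent.Work.MP_a793bb_nt
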