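import Pool.Agent.Work.MP_a793bb_nt.CountBlock

set_option autoImplicit false
set_option linter.unusedSectionVars false

namespace Pool.Agent.Work.MP_a793bb_nt

open NumberField IsDedekindDomain Height

variable {K : Type*} [Field K] [NumberField K]

namespace BPlus

/-! ### Elements with the same numerator -/

/-- `y` and `z` have the same numerator ideal -/
def SameNum (y z : K) : Prop :=
  ∀ p : HeightOneSpectrum (𝓞 K), max (kp p y) 0 = max (kp p z) 0

lemma SameNum.iff {y z : K} (h : SameNum y z) (E : Set ℕ) (p : HeightOneSpectrum (𝓞 K)) :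
    (0 < kp p y ∧ (kp p y).toNat ∈ E) ↔ (0 < kp p z ∧ (kp p z).toNat ∈ E) := by
  have h1 := h p
  by_cases h2 : 0 < kp p y
  · have h3 : kp p y = kp p z := by omega
    rw [h3]
  · have h3 : ¬ 0 < kp p z := by omega
    simp [h2, h3]

lemma SameNum.LP_eq {y z : K} (h : SameNum y z) (E : Set ℕ) : LP y E = LP z E := by
  unfold LP
  congr 1
  ext p
  unfold lpt
  have h1 := h.iff E p
  by_cases h2 : 0 < kp p y ∧ (kp p y).toNat ∈ E
  · have h3 := h p
    have h4 : kp p y = kp p z := by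
      have := (h1.mp h2).1
      have := h2.1
      omega
    rw [h4]
  · rw [if_neg h2, if_neg (fun h3 => h2 (h1.mpr h3))]

lemma SameNum.LR_eq {y z : K} (h : SameNum y z) (E : Set ℕ) : LR y E = LR z E := by
  unfold LR
  congr 1
  ext p
  exact h.iff E p

lemma kp_neg (p : HeightOneSpectrum (𝓞 K)) (y : K) : kp p (-y) = kp p y :=
  kp_eq_of_av_eq p (av_neg p y)

/-- the trichotomy for `t`, `1 - t` at a finite prime -/
lemma kp_tri (p : HeightOneSpectrum (𝓞 K)) {t : K} (h0 : t ≠ 0) (h1 : t ≠ 1) :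
    (0 < kp p t ∧ kp p (1 - t) = 0) ∨ (kp p t < 0 ∧ kp p (1 - t) = kp p t) ∨
      (kp p t = 0 ∧ 0 ≤ kp p (1 - t)) := by
  have h1' : 1 - t ≠ 0 := sub_ne_zero.mpr (Ne.symm h1)
  have h1'' : (1 - t)⁻¹ ≠ 0 := inv_ne_zero h1'
  have hc := kp_cases p (-t)
  rw [← sub_eq_add_neg, av_neg] at hc
  have e1 := av_lt_one_iff_kp p h0
  have e2 := av_one_iff_kp p h0
  have e3 := av_one_iff_kp p h1'
  rcases hc with ⟨ha, hb⟩ | ⟨ha, hb⟩ | ⟨ha, hb⟩
  · left
    exact ⟨e1.mp ha, e3.mp hb⟩
  · right; left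
    have h4 : kp p (1 - t) = kp p t := kp_eq_of_av_eq p hb
    refine ⟨?_, h4⟩
    by_contra hcon
    rcases eq_or_lt_of_le (not_lt.mp hcon) with h5 | h5
    · have := e2.mpr h5.symm
      linarith
    · have := e1.mpr h5
      linarith
  · right; right
    refine ⟨e2.mp ha, ?_⟩
    rcases eq_or_lt_of_le hb with h5 | h5
    · rw [e3.mp h5]
    · exact ((av_lt_one_iff_kp p h1').mp h5).le

/-- the three sides of `t` -/
def side (j : Fin 3) (t : K) : K := (![t, 1 - t, t⁻¹] : Fin 3 → K) j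

/-- the three parameters attached to `t` -/
def sOf (u : Fin 3) (t : K) : K := (![t - 1, -t⁻¹, t / (1 - t)] : Fin 3 → K) u

lemma side_ne_zero {t : K} (h0 : t ≠ 0) (h1 : t ≠ 1) (j : Fin 3) : side j t ≠ 0 := by
  have h1' : 1 - t ≠ 0 := sub_ne_zero.mpr (Ne.symm h1)
  fin_cases j
  · exact h0
  · exact h1'
  · exact inv_ne_zero h0

lemma sOf_ne_zero {t : K} (h0 : t ≠ 0) (h1 : t ≠ 1) (u : Fin 3) : sOf u t ≠ 0 := by
  have h1' : 1 - t ≠ 0 := sub_ne_zero.mpr (Ne.symm h1)
  fin_cases u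
  · exact sub_ne_zero.mpr h1
  · exact neg_ne_zero.mpr (inv_ne_zero h0)
  · exact div_ne_zero h0 h1'

lemma one_add_sOf {t : K} (h0 : t ≠ 0) (h1 : t ≠ 1) (u : Fin 3) :
    1 + sOf u t = (![t, (t - 1) / t, (1 - t)⁻¹] : Fin 3 → K) u := by
  have h1' : 1 - t ≠ 0 := sub_ne_zero.mpr (Ne.symm h1)
  fin_cases u
  · change 1 + (t - 1) = t
    ring
  · change 1 + -t⁻¹ = (t - 1) / t
    field_simp
    ring
  · change 1 + t / (1 - t) = (1 - t)⁻¹
    field_simp
    ring

lemma one_add_sOf_ne_zero {t : K} (h0 : t ≠ 0) (h1 : t ≠ 1) (u : Fin 3) : 1 + sOf u t ≠ 0 := by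
  have h1' : 1 - t ≠ 0 := sub_ne_zero.mpr (Ne.symm h1)
  rw [one_add_sOf h0 h1]
  fin_cases u
  · exact h0
  · exact div_ne_zero (sub_ne_zero.mpr h1) h0
  · exact inv_ne_zero h1'

lemma sameNum_a {t : K} (h0 : t ≠ 0) (h1 : t ≠ 1) (u : Fin 3) :
    SameNum (sOf u t) (side (u + 1) t) := by
  have h1' : 1 - t ≠ 0 := sub_ne_zero.mpr (Ne.symm h1)
  intro p
  have h2 := kp_tri p h0 h1
  fin_cases u
  · change max (kp p (t - 1)) 0 = max (kp p (1 - t)) 0
    rw [← kp_neg, neg_sub]
  · change max (kp p (-t⁻¹)) 0 = max (kp p t⁻¹) 0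
    rw [kp_neg]
  · change max (kp p (t / (1 - t))) 0 = max (kp p t) 0
    rw [kp_div p h0 h1']
    omega

lemma sameNum_b {t : K} (h0 : t ≠ 0) (h1 : t ≠ 1) (u : Fin 3) :
    SameNum (sOf u t)⁻¹ (side (u + 2) t) := by
  have h1' : 1 - t ≠ 0 := sub_ne_zero.mpr (Ne.symm h1)
  intro p
  have h2 := kp_tri p h0 h1
  fin_cases u
  · change max (kp p (t - 1)⁻¹) 0 = max (kp p t⁻¹) 0
    rw [kp_inv, kp_inv, ← kp_neg, neg_sub]
    omega
  · change max (kp p (-t⁻¹)⁻¹) 0 = max (kp p t) 0
    rw [kp_inv, kp_neg, kp_inv, neg_neg]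
  · change max (kp p (t / (1 - t))⁻¹) 0 = max (kp p (1 - t)) 0
    rw [kp_inv, kp_div p h0 h1']
    omega

lemma sameNum_c {t : K} (h0 : t ≠ 0) (h1 : t ≠ 1) (u : Fin 3) :
    SameNum (1 + sOf u t) (side u t) := by
  have h1' : 1 - t ≠ 0 := sub_ne_zero.mpr (Ne.symm h1)
  have h1'' : t - 1 ≠ 0 := sub_ne_zero.mpr h1
  rw [one_add_sOf h0 h1]
  intro p
  have h2 := kp_tri p h0 h1
  fin_cases u
  · rfl
  · change max (kp p ((t - 1) / t)) 0 = max (kp p (1 - t)) 0
    rw [kp_div p h1'' h0, ← kp_neg p (t - 1), neg_sub]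
    omega
  · change max (kp p (1 - t)⁻¹) 0 = max (kp p t⁻¹) 0
    rw [kp_inv, kp_inv]
    omega

lemma sOf_injective (u : Fin 3) {t t' : K} (h1 : t ≠ 1) (h1' : t' ≠ 1)
    (h : sOf u t = sOf u t') : t = t' := by
  fin_cases u
  · have h2 : t - 1 = t' - 1 := h
    linear_combination h2
  · have h2 : -t⁻¹ = -t'⁻¹ := h
    exact inv_injective (neg_injective h2)
  · have h2 : t / (1 - t) = t' / (1 - t') := h
    have e1 : 1 - t ≠ 0 := sub_ne_zero.mpr (Ne.symm h1)
    have e2 : 1 - t' ≠ 0 := sub_ne_zero.mpr (Ne.symm h1')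
    rw [div_eq_div_iff e1 e2] at h2
    linear_combination h2

/-! ### Heights -/

lemma logHeight_perm {x y : Fin 3 → K} (hx : x ≠ 0) (hy : y ≠ 0) (e : Fin 3 ≃ Fin 3)
    (h : ∀ i, x i = y (e i) ∨ x i = -y (e i)) : logHeight x = logHeight y := by
  have H (v : AbsoluteValue K ℝ) : ⨆ i, v (x i) = ⨆ i, v (y i) := by
    apply e.iSup_congr
    intro i
    rcases h i with h1 | h1
    · rw [h1]
    · rw [h1, AbsoluteValue.map_neg]
  rw [logHeight_eq_log_mulHeight, logHeight_eq_log_mulHeight, Height.mulHeight_eq hx,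
    Height.mulHeight_eq hy]
  simp_rw [H]

/-- the height of `(t : 1 - t : -1)` -/
noncomputable def hh (t : K) : ℝ := logHeight ![t, 1 - t, -1]

lemma hs_sOf {t : K} (h0 : t ≠ 0) (h1 : t ≠ 1) (u : Fin 3) : hs (sOf u t) = hh t := by
  have h1' : 1 - t ≠ 0 := sub_ne_zero.mpr (Ne.symm h1)
  have hy : (![t, 1 - t, -1] : Fin 3 → K) ≠ 0 := by
    intro h
    exact h0 (congrFun h 0)
  rw [hs, one_add_sOf h0 h1, hh]
  fin_cases u
  · change logHeight ![t - 1, 1, t] = _
    refine logHeight_perm (fun h => h0 (congrFun h 2)) hy (finRotate 3) fun i => ?_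
    fin_cases i
    · right
      change t - 1 = -(1 - t)
      ring
    · right
      change (1 : K) = -(-1)
      ring
    · left
      rfl
  · change logHeight ![-t⁻¹, 1, (t - 1) / t] = _
    rw [← logHeight_smul_eq_logHeight (![-t⁻¹, 1, (t - 1) / t] : Fin 3 → K) h0]
    have e : (t • (![-t⁻¹, 1, (t - 1) / t] : Fin 3 → K)) = ![-1, t, t - 1] := by
      ext i
      fin_cases i
      · change t * (-t⁻¹) = -1
        field_simp
      · change t * 1 = t
        ring
      · change t * ((t - 1) / t) = t - 1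
        field_simp
    rw [e]
    refine logHeight_perm (fun h => h0 (congrFun h 1)) hy (finRotate 3).symm fun i => ?_
    fin_cases i
    · left
      rfl
    · left
      rfl
    · right
      change t - 1 = -(1 - t)
      ring
  · change logHeight ![t / (1 - t), 1, (1 - t)⁻¹] = _
    rw [← logHeight_smul_eq_logHeight (![t / (1 - t), 1, (1 - t)⁻¹] : Fin 3 → K) h1']
    have e : ((1 - t) • (![t / (1 - t), 1, (1 - t)⁻¹] : Fin 3 → K)) = ![t, 1 - t, 1] := by
      ext i
      fin_cases i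
      · change (1 - t) * (t / (1 - t)) = t
        field_simp
      · change (1 - t) * 1 = 1 - t
        ring
      · change (1 - t) * (1 - t)⁻¹ = 1
        field_simp
    rw [e]
    refine logHeight_perm (fun h => h0 (congrFun h 0)) hy (Equiv.refl _) fun i => ?_
    fin_cases i
    · left
      rfl
    · left
      rfl
    · right
      change (1 : K) = -(-1)
      ring

lemma hh_nonneg (t : K) : 0 ≤ hh t := logHeight_nonneg _

lemma LP_side_le {t : K} (h0 : t ≠ 0) (h1 : t ≠ 1) (j : Fin 3) (R : Set ℕ) :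
    LP (side j t) R ≤ hh t := by
  rw [← (sameNum_c h0 h1 j).LP_eq, ← hs_sOf h0 h1 j]
  exact LP_side_c (one_add_sOf_ne_zero h0 h1 j) R

/-! ### Exponent classes -/

/-- the class of an exponent: `1, 2, 3, 4` and `5` or more -/
def cls (e : ℕ) : Fin 5 := ⟨min (e - 1) 4, by omega⟩

/-- exponents in a set of classes -/
def Eset (R : Fin 5 → Bool) : Set ℕ := {e | R (cls e) = true}

/-- radical weight of a class -/
noncomputable def LRc (y : K) (c : Fin 5) : ℝ := LR y {e | cls e = c}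

lemma LRc_nonneg (y : K) (c : Fin 5) : 0 ≤ LRc y c := Rs_nonneg _

open Classical in
lemma LR_eq_sum {y : K} (hy : y ≠ 0) (E : Set ℕ) :
    LR y E = ∑ p ∈ (finite_Zp hy).toFinset,
      if 0 < kp p y ∧ (kp p y).toNat ∈ E then lN p else 0 := by
  rw [LR, Rs]
  have h1 : {p : HeightOneSpectrum (𝓞 K) | 0 < kp p y ∧ (kp p y).toNat ∈ E}.Finite :=
    (finite_Zp hy).subset fun p hp => (av_lt_one_iff_kp p hy).mpr hp.1
  rw [finsum_mem_eq_finite_toFinset_sum _ h1, ← Finset.sum_filter]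
  apply Finset.sum_congr _ fun _ _ => rfl
  ext p
  simp only [Set.Finite.mem_toFinset, Set.mem_ofPred_eq, Finset.mem_filter]
  constructor
  · intro h
    exact ⟨(av_lt_one_iff_kp p hy).mpr h.1, h⟩
  · intro h
    exact h.2

lemma LR_Eset {y : K} (hy : y ≠ 0) (R : Fin 5 → Bool) :
    LR y (Eset R) = ∑ c : Fin 5, if R c = true then LRc y c else 0 := by
  classical
  have h1 : (∑ c : Fin 5, if R c = true then LRc y c else 0) =
      ∑ c : Fin 5, ∑ p ∈ (finite_Zp hy).toFinset,
        if R c = true ∧ 0 < kp p y ∧ cls (kp p y).toNat = c then lN p else 0 := by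
    refine Finset.sum_congr rfl fun c _ => ?_
    rw [LRc, LR_eq_sum hy]
    by_cases h : R c = true
    · simp only [h, true_and, if_true]
      refine Finset.sum_congr rfl fun p _ => ?_
      congr!
    · simp [h]
  rw [h1, LR_eq_sum hy]
  rw [Finset.sum_comm]
  refine Finset.sum_congr rfl fun p _ => ?_
  by_cases h2 : 0 < kp p y
  · rw [Finset.sum_eq_single (cls (kp p y).toNat)]
    · simp [h2, Eset]
    · intro c _ hc
      rw [if_neg]
      rintro ⟨-, -, h⟩
      exact hc h.symm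
    · simp
  · simp [h2]

lemma LR_Eset_compl {y : K} (hy : y ≠ 0) (R : Fin 5 → Bool) :
    LR y (Eset R)ᶜ = ∑ c : Fin 5, if R c = true then 0 else LRc y c := by
  have h1 : (Eset R)ᶜ = Eset (fun c => !R c) := by
    ext e
    simp [Eset]
  rw [h1, LR_Eset hy]
  refine Finset.sum_congr rfl fun c _ => ?_
  cases R c <;> simp

lemma LR_univ_eq {y : K} (hy : y ≠ 0) : ∑ c : Fin 5, LRc y c = Rs (Zp y) := by
  have h1 : LR y (Eset (fun _ => true)) = Rs (Zp y) := by
    unfold LR
    congr 1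
    ext p
    simp only [Eset, Set.mem_ofPred_eq, and_true, Zp]
    exact (av_lt_one_iff_kp p hy).symm
  rw [← h1, LR_Eset hy]
  simp

/-- the weights of the classes are bounded by the norm of the numerator -/
lemma sum_LRc_le {y : K} (hy : y ≠ 0) :
    ∑ c : Fin 5, ((c : ℕ) + 1 : ℝ) * LRc y c ≤ LP y Set.univ := by
  classical
  have hT : ∀ p ∈ Zp y, p ∈ (finite_Zp hy).toFinset := fun p hp => by simpa using hp
  rw [LP_eq hy Set.univ _ hT]
  simp only [LRc]
  simp_rw [LR_eq_sum hy, Finset.mul_sum]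
  rw [Finset.sum_comm]
  refine Finset.sum_le_sum fun p _ => ?_
  by_cases h2 : 0 < kp p y
  · rw [Finset.sum_eq_single (cls (kp p y).toNat)]
    · simp only [h2, Set.mem_ofPred_eq, and_self, if_true, lpt, Set.mem_univ]
      apply mul_le_mul_of_nonneg_right _ (lN_pos p).le
      have h3 : ((cls (kp p y).toNat : ℕ) : ℤ) + 1 ≤ kp p y := by
        simp only [cls]
        omega
      exact_mod_cast h3
    · intro c _ hc
      rw [if_neg]
      · simp
      · rintro ⟨-, h⟩
        exact hc h.symm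
    · simp
  · simp [h2, lpt]

/-- the norm of the part with exponents in a set of classes not containing the last one -/
lemma LP_Eset_le {y : K} (hy : y ≠ 0) (R : Fin 5 → Bool) (hR : R 4 = false) :
    LP y (Eset R) ≤ ∑ c : Fin 5, if R c = true then ((c : ℕ) + 1 : ℝ) * LRc y c else 0 := by
  classical
  have hT : ∀ p ∈ Zp y, p ∈ (finite_Zp hy).toFinset := fun p hp => by simpa using hp
  rw [LP_eq hy (Eset R) _ hT]
  have h1 : (∑ c : Fin 5, if R c = true then ((c : ℕ) + 1 : ℝ) * LRc y c else 0) =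
      ∑ c : Fin 5, ∑ p ∈ (finite_Zp hy).toFinset,
        if R c = true ∧ 0 < kp p y ∧ cls (kp p y).toNat = c then ((c : ℕ) + 1 : ℝ) * lN p
          else 0 := by
    refine Finset.sum_congr rfl fun c _ => ?_
    rw [LRc, LR_eq_sum hy, Finset.mul_sum]
    by_cases h : R c = true
    · simp [h]
    · simp [h]
  rw [h1]
  rw [Finset.sum_comm]
  refine Finset.sum_le_sum fun p _ => ?_
  by_cases h2 : 0 < kp p y
  · rw [Finset.sum_eq_single (cls (kp p y).toNat)]
    · simp only [h2, true_and, and_true, lpt, Eset, Set.mem_ofPred_eq]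
      by_cases h3 : R (cls (kp p y).toNat) = true
      · rw [if_pos h3, if_pos h3]
        apply mul_le_mul_of_nonneg_right _ (lN_pos p).le
        have h4 : cls (kp p y).toNat ≠ 4 := by
          intro h4
          rw [h4, hR] at h3
          exact absurd h3 (by decide)
        have h5 : kp p y ≤ ((cls (kp p y).toNat : ℕ) : ℤ) + 1 := by
          have h6 : (cls (kp p y).toNat : ℕ) ≠ 4 := fun h => h4 (Fin.ext h)
          simp only [cls] at h6 ⊢
          omega
        exact_mod_cast h5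
      · rw [if_neg h3, if_neg h3]
    · intro c _ hc
      rw [if_neg]
      rintro ⟨-, -, h⟩
      exact hc h.symm
    · simp
  · simp [h2, lpt]

end BPlus

end Pool.Agent.Work.MP_a793bb_nt
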