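import Pool.Agent.Work.MP_a793bb_nt.PtsCount

set_option autoImplicit false
set_option linter.unusedSectionVars false

namespace Pool.Agent.Work.MP_a793bb_nt

open NumberField IsDedekindDomain Filter Topology Height

variable {K : Type*} [Field K] [NumberField K]

lemma av_sub_le (p : HeightOneSpectrum (𝓞 K)) (x y : K) :
    av p (x - y) ≤ max (av p x) (av p y) := by
  rw [sub_eq_add_neg]
  refine (av_add_le p _ _).trans ?_
  rw [av_neg]

lemma av_one_sub_eq_of_lt (p : HeightOneSpectrum (𝓞 K)) {x : K} (h : av p x < 1) :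
    av p (1 - x) = 1 := by
  apply le_antisymm
  · refine (av_sub_le p 1 x).trans ?_
    rw [av_one]
    exact max_le le_rfl h.le
  · by_contra hcon
    rw [not_le] at hcon
    have h1 : av p (1 : K) ≤ max (av p (1 - x)) (av p x) := by
      have := av_add_le p (1 - x) x
      rwa [sub_add_cancel] at this
    rw [av_one] at h1
    rcases le_max_iff.mp h1 with h2 | h2 <;> linarith

lemma av_one_sub_eq_of_gt (p : HeightOneSpectrum (𝓞 K)) {x : K} (h : 1 < av p x) :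
    av p (1 - x) = av p x := by
  apply le_antisymm
  · refine (av_sub_le p 1 x).trans ?_
    rw [av_one]
    exact max_le h.le le_rfl
  · by_contra hcon
    rw [not_le] at hcon
    have h1 : av p x ≤ max (av p 1) (av p (1 - x)) := by
      have := av_sub_le p 1 (1 - x)
      rwa [sub_sub_cancel] at this
    rw [av_one] at h1
    rcases le_max_iff.mp h1 with h2 | h2 <;> linarith

lemma mem_Zp (p : HeightOneSpectrum (𝓞 K)) (y : K) : p ∈ Zp y ↔ av p y < 1 := Iff.rfl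

lemma mem_Zp_inv (p : HeightOneSpectrum (𝓞 K)) {y : K} (hy : y ≠ 0) :
    p ∈ Zp y⁻¹ ↔ 1 < av p y := by
  rw [mem_Zp, av_inv, inv_lt_one₀ (av_pos p hy)]

lemma Zp_subset_Ip (x : K) : Zp x ⊆ Ip x := by
  intro p hp
  rw [mem_Ip]
  rintro ⟨h, -⟩
  rw [mem_Zp] at hp
  linarith

lemma Zp_one_sub_subset_Ip (x : K) : Zp (1 - x) ⊆ Ip x := by
  intro p hp
  rw [mem_Ip]
  rintro ⟨-, h⟩
  rw [mem_Zp] at hp
  linarith

lemma Zp_inv_subset_Ip {x : K} (hx : x ≠ 0) : Zp x⁻¹ ⊆ Ip x := by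
  intro p hp
  rw [mem_Ip]
  rintro ⟨h, -⟩
  rw [mem_Zp_inv p hx] at hp
  linarith

lemma Rs_union_disjoint {S T : Set (HeightOneSpectrum (𝓞 K))} (hST : Disjoint S T) (hS : S.Finite)
    (hT : T.Finite) : Rs (S ∪ T) = Rs S + Rs T :=
  finsum_mem_union hST hS hT

/-- the radical splits over the three cusps -/
lemma Rs_three_le {x : K} (h0 : x ≠ 0) (h1 : x ≠ 1) :
    Rs (Zp x) + Rs (Zp (1 - x)) + Rs (Zp x⁻¹) ≤ Rs (Ip x) := by
  have h1' : 1 - x ≠ 0 := sub_ne_zero.mpr (Ne.symm h1)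
  have d1 : Disjoint (Zp x) (Zp (1 - x)) := by
    rw [Set.disjoint_left]
    intro p hp hq
    rw [mem_Zp] at hp hq
    have := av_one_sub_eq_of_lt p hp
    linarith
  have d2 : Disjoint (Zp x ∪ Zp (1 - x)) (Zp x⁻¹) := by
    rw [Set.disjoint_left]
    intro p hp hq
    rw [mem_Zp_inv p h0] at hq
    rcases hp with hp | hp
    · rw [mem_Zp] at hp; linarith
    · rw [mem_Zp] at hp
      have := av_one_sub_eq_of_gt p hq
      linarith
  rw [← Rs_union_disjoint d1 (finite_Zp h0) (finite_Zp h1'),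
    ← Rs_union_disjoint d2 ((finite_Zp h0).union (finite_Zp h1')) (finite_Zp (inv_ne_zero h0))]
  apply Rs_mono (finite_Ip h0 h1)
  intro p hp
  rcases hp with (hp | hp) | hp
  · exact Zp_subset_Ip x hp
  · exact Zp_one_sub_subset_Ip x hp
  · exact Zp_inv_subset_Ip h0 hp

lemma Zp_inv_one_sub {x : K} (h0 : x ≠ 0) (h1 : x ≠ 1) : Zp (1 - x)⁻¹ = Zp x⁻¹ := by
  have h1' : 1 - x ≠ 0 := sub_ne_zero.mpr (Ne.symm h1)
  ext p
  rw [mem_Zp_inv p h1', mem_Zp_inv p h0]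
  constructor
  · intro h
    by_contra hcon
    rw [not_lt] at hcon
    have := av_sub_le p 1 x
    rw [av_one, max_eq_left hcon] at this
    linarith
  · intro h
    rw [av_one_sub_eq_of_gt p h]; exact h



lemma Zp_div {x : K} (h1 : x ≠ 1) : Zp (x / (x - 1)) = Zp x := by
  have h1' : x - 1 ≠ 0 := sub_ne_zero.mpr h1
  ext p
  have hpos := av_pos p h1'
  have hsym : av p (x - 1) = av p (1 - x) := by rw [← av_neg, neg_sub]
  rw [mem_Zp, mem_Zp, div_eq_mul_inv, av_mul, av_inv, ← div_eq_mul_inv, div_lt_one hpos, hsym]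
  constructor
  · intro h
    by_contra hcon
    rw [not_lt] at hcon
    have := av_sub_le p 1 x
    rw [av_one, max_eq_right hcon] at this
    linarith
  · intro h
    rw [av_one_sub_eq_of_lt p h]; exact h

lemma Zp_div_inv {x : K} (h0 : x ≠ 0) (h1 : x ≠ 1) : Zp (x / (x - 1))⁻¹ = Zp (1 - x) := by
  have h : (x / (x - 1))⁻¹ = (1 - x) / ((1 - x) - 1) := by
    rw [inv_div]
    have h2 : (1 - x) - 1 = -x := by ring
    rw [h2, div_neg, ← neg_div, neg_sub]
  rw [h]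
  apply Zp_div
  intro h3
  apply h0
  linear_combination -h3

lemma two_pow_le_height (x : K) : mulHeight₁ (1 - x) ≤ 2 ^ totalWeight K * mulHeight₁ x := by
  have := mulHeight₁_sub_le 1 x
  rwa [mulHeight₁_one, mul_one] at this

/-- points of bounded height and bounded radical -/
def smallRad (K : Type*) [Field K] [NumberField K] (X Z : ℝ) : Set K :=
  {x | x ≠ 0 ∧ x ≠ 1 ∧ mulHeight₁ x ≤ X ∧ Real.exp (Rs (Ip x)) ≤ Z}

lemma min_pair {a b c Z : ℝ} (ha : 1 ≤ a) (hb : 1 ≤ b) (hc : 1 ≤ c) (h : a * b * c ≤ Z) :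
    a * b ≤ Z ^ (2 / 3 : ℝ) ∨ b * c ≤ Z ^ (2 / 3 : ℝ) ∨ a * c ≤ Z ^ (2 / 3 : ℝ) := by
  by_contra hcon
  simp only [not_or, not_le] at hcon
  obtain ⟨h1, h2, h3⟩ := hcon
  have hZ : 0 < Z := by
    have : 0 < a * b * c := by positivity
    linarith
  set z := Z ^ (2 / 3 : ℝ) with hz
  have hz0 : 0 < z := Real.rpow_pos_of_pos hZ _
  have hz3 : z * z * z = Z ^ 2 := by
    rw [hz, ← Real.rpow_add hZ, ← Real.rpow_add hZ, ← Real.rpow_natCast]
    norm_num
  have h4 : z * z * z < (a * b) * (b * c) * (a * c) := by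
    have e1 : z * z < (a * b) * (b * c) := mul_lt_mul'' h1 h2 hz0.le hz0.le
    exact mul_lt_mul'' e1 h3 (by positivity) hz0.le
  have h5 : (a * b) * (b * c) * (a * c) = (a * b * c) ^ 2 := by ring
  have h6 : (a * b * c) ^ 2 ≤ Z ^ 2 := pow_le_pow_left₀ (by positivity) h 2
  rw [h5, hz3] at h4
  linarith

variable (K) in
lemma card_smallRad_le {δ : ℝ} (hδ : 0 < δ) : ∃ C : ℝ, 1 ≤ C ∧
    ∀ (X Z : ℝ), 1 ≤ X → 1 ≤ Z →
      (smallRad K X Z).Finite ∧
      ((smallRad K X Z).ncard : ℝ) ≤ C * X ^ δ * Z ^ ((2 / 3) * (1 + δ)) := by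
  classical
  obtain ⟨C, hC, h⟩ := card_ptsRad_le K hδ
  set w : ℝ := 2 ^ totalWeight K with hw
  have hw1 : 1 ≤ w := one_le_pow₀ (by norm_num)
  refine ⟨3 * (C * w ^ δ), ?_, fun X Z hX hZ => ?_⟩
  · have : 1 ≤ w ^ δ := Real.one_le_rpow hw1 hδ.le
    nlinarith
  have hwX : 1 ≤ w * X := by nlinarith
  have hY : 1 ≤ Z ^ (2 / 3 : ℝ) := Real.one_le_rpow hZ (by norm_num)
  obtain ⟨hfin, hcard⟩ := h (w * X) (Z ^ (2 / 3 : ℝ)) hwX hY
  set P := ptsRad (K := K) (w * X) (Z ^ (2 / 3 : ℝ)) with hP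
  set f : K → K := fun x => x with hf
  set B₁ : Set K := {x | x ≠ 0 ∧ x ≠ 1 ∧ x ∈ P} with hB₁
  set B₂ : Set K := {x | x ≠ 0 ∧ x ≠ 1 ∧ 1 - x ∈ P} with hB₂
  set B₃ : Set K := {x | x ≠ 0 ∧ x ≠ 1 ∧ x / (x - 1) ∈ P} with hB₃
  have i1 : Set.InjOn (fun x : K => x) B₁ := fun x _ y _ hxy => hxy
  have i2 : Set.InjOn (fun x : K => 1 - x) B₂ := fun x _ y _ hxy => by simpa using hxy
  have i3 : Set.InjOn (fun x : K => x / (x - 1)) B₃ := by
    rintro x ⟨-, hx1, -⟩ y ⟨-, hy1, -⟩ hxy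
    simp only at hxy
    have e1 : x - 1 ≠ 0 := sub_ne_zero.mpr hx1
    have e2 : y - 1 ≠ 0 := sub_ne_zero.mpr hy1
    rw [div_eq_div_iff e1 e2] at hxy
    linear_combination -hxy
  have m1 : Set.MapsTo (fun x : K => x) B₁ P := fun x hx => hx.2.2
  have m2 : Set.MapsTo (fun x : K => 1 - x) B₂ P := fun x hx => hx.2.2
  have m3 : Set.MapsTo (fun x : K => x / (x - 1)) B₃ P := fun x hx => hx.2.2
  have f1 : B₁.Finite := Set.Finite.of_finite_image (hfin.subset m1.image_subset) i1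
  have f2 : B₂.Finite := Set.Finite.of_finite_image (hfin.subset m2.image_subset) i2
  have f3 : B₃.Finite := Set.Finite.of_finite_image (hfin.subset m3.image_subset) i3
  have c1 : B₁.ncard ≤ P.ncard := Set.ncard_le_ncard_of_injOn _ m1 i1 hfin
  have c2 : B₂.ncard ≤ P.ncard := Set.ncard_le_ncard_of_injOn _ m2 i2 hfin
  have c3 : B₃.ncard ≤ P.ncard := Set.ncard_le_ncard_of_injOn _ m3 i3 hfin
  have hsub : smallRad K X Z ⊆ B₁ ∪ B₂ ∪ B₃ := by
    rintro x ⟨hx0, hx1, hxX, hxZ⟩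
    have hx1' : 1 - x ≠ 0 := sub_ne_zero.mpr (Ne.symm hx1)
    have hx1'' : x - 1 ≠ 0 := sub_ne_zero.mpr hx1
    have e1 : 1 ≤ Real.exp (Rs (Zp x)) := Real.one_le_exp (Rs_nonneg _)
    have e2 : 1 ≤ Real.exp (Rs (Zp (1 - x))) := Real.one_le_exp (Rs_nonneg _)
    have e3 : 1 ≤ Real.exp (Rs (Zp x⁻¹)) := Real.one_le_exp (Rs_nonneg _)
    have e4 : Real.exp (Rs (Zp x)) * Real.exp (Rs (Zp (1 - x))) * Real.exp (Rs (Zp x⁻¹)) ≤ Z := by
      rw [← Real.exp_add, ← Real.exp_add]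
      exact (Real.exp_le_exp.mpr (Rs_three_le hx0 hx1)).trans hxZ
    have hHpos := mulHeight₁_nonneg x
    rcases min_pair e1 e2 e3 e4 with h5 | h5 | h5
    · right
      refine ⟨hx0, hx1, div_ne_zero hx0 hx1'', ?_, ?_⟩
      · rw [← mulHeight₁_inv, inv_div]
        have e6 : (x - 1) / x = 1 - x⁻¹ := by field_simp
        rw [e6]
        refine (two_pow_le_height x⁻¹).trans ?_
        rw [mulHeight₁_inv]
        exact mul_le_mul_of_nonneg_left hxX (by linarith)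
      · rw [Zp_div hx1, Zp_div_inv hx0 hx1]
        exact h5
    · left; right
      refine ⟨hx0, hx1, hx1', ?_, ?_⟩
      · refine (two_pow_le_height x).trans ?_
        exact mul_le_mul_of_nonneg_left hxX (by linarith)
      · rw [Zp_inv_one_sub hx0 hx1]
        exact h5
    · left; left
      refine ⟨hx0, hx1, hx0, ?_, h5⟩
      nlinarith
  have hfinU : (B₁ ∪ B₂ ∪ B₃).Finite := (f1.union f2).union f3
  refine ⟨hfinU.subset hsub, ?_⟩
  have hn : (smallRad K X Z).ncard ≤ 3 * P.ncard := by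
    refine (Set.ncard_le_ncard hsub hfinU).trans ?_
    refine (Set.ncard_union_le _ _).trans ?_
    have := Set.ncard_union_le B₁ B₂
    omega
  calc ((smallRad K X Z).ncard : ℝ) ≤ ((3 * P.ncard : ℕ) : ℝ) := by exact_mod_cast hn
    _ ≤ 3 * (C * (w * X) ^ δ * (Z ^ (2 / 3 : ℝ)) ^ (1 + δ)) := by push_cast; gcongr
    _ = 3 * (C * w ^ δ) * X ^ δ * Z ^ ((2 / 3) * (1 + δ)) := by
        rw [Real.mul_rpow (by linarith) (by linarith), ← Real.rpow_mul (by linarith)]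
        ring

end Pool.Agent.Work.MP_a793bb_nt
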