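import Pool.Agent.Work.MP_a793bb_nt.Fiber

set_option autoImplicit false
set_option linter.unusedSectionVars false

namespace Pool.Agent.Work.MP_a793bb_nt

open NumberField IsDedekindDomain Height

variable {K : Type*} [Field K] [NumberField K]

namespace BPlus

lemma partI_mem {y : K} (hy : y ≠ 0) (E : Set ℕ) {X ω : ℝ} (hX : 0 < X)
    (h1 : LP y E ≤ Real.log X) (h2 : LR y E ≤ ω) : partI y E ∈ idealsRad K X (Real.exp ω) := by
  have hb := partI_ne_bot hy E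
  refine ⟨hb, absNorm_partI_le hy E hX h1, ?_⟩
  have h3 := one_le_absNorm K (radical_ne_bot hb)
  rw [← Real.log_le_log_iff (by linarith) (Real.exp_pos _), Real.log_exp,
    log_absNorm_radical_partI hy]
  exact h2

variable (K) in
/-- The number of good points with prescribed bounds on the three radicals. -/
theorem card_block_le {i : ℕ} (hi : 1 ≤ i) {Ra Rb Rc : Set ℕ} (hRa : ∀ e ∈ Ra, i ∣ e)
    (hRb : ∀ e ∈ Rb, i ∣ e) {ε : ℝ} (hε : 0 < ε) : ∃ C : ℝ, 1 ≤ C ∧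
    ∀ Y za zb zc ωa ωb ωc : ℝ, 1 ≤ Y →
    ∀ F : Finset K, (∀ s ∈ F, Good Y Ra Rb Rc za zb zc s) →
      (∀ s ∈ F, LR s Raᶜ ≤ ωa ∧ LR s⁻¹ Rbᶜ ≤ ωb ∧ LR (1 + s) Rcᶜ ≤ ωc) →
      (F.card : ℝ) ≤ C * Y ^ ε *
        Real.exp (ωa + ωb + ωc + max 0 ((za + zb) / i + zc - Real.log Y)) := by
  classical
  obtain ⟨C₁, hC₁, hfib⟩ := card_fiber_le K hi hRa hRb (half_pos hε)
  have hε6 : 0 < ε / 6 := by linarith
  obtain ⟨C₂, hC₂, hid⟩ := card_idealsRad_le (K := K) hε6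
  have hp2 : (1 : ℝ) ≤ 2 ^ (ε / 2) := Real.one_le_rpow (by norm_num) (by linarith)
  refine ⟨C₁ * (C₂ * C₂ * C₂) * 2 ^ (ε / 2), ?_, fun Y za zb zc ωa ωb ωc hY F hF hω => ?_⟩
  · refine one_le_mul_of_one_le_of_one_le (one_le_mul_of_one_le_of_one_le hC₁ ?_) hp2
    exact one_le_mul_of_one_le_of_one_le (one_le_mul_of_one_le_of_one_le hC₂ hC₂) hC₂
  have hY0 : 0 < Y := by linarith
  set W : ℝ := max 0 ((za + zb) / i + zc - Real.log Y) with hW
  set A := (finite_idealsRad (K := K) (2 * Y) (Real.exp ωa)).toFinset with hA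
  set B := (finite_idealsRad (K := K) (2 * Y) (Real.exp ωb)).toFinset with hB
  set D := (finite_idealsRad (K := K) (2 * Y) (Real.exp ωc)).toFinset with hD
  set M : ℝ := C₁ * Y ^ (ε / 2) * Real.exp W with hM
  have hM0 : 0 ≤ M := by positivity
  have hcount : ∀ (ω : ℝ), ((finite_idealsRad (K := K) (2 * Y) (Real.exp ω)).toFinset.card : ℝ) ≤
      C₂ * (2 * Y) ^ (ε / 6) * Real.exp ω := by
    intro ω
    rw [← Set.ncard_eq_toFinset_card _ (finite_idealsRad (K := K) (2 * Y) (Real.exp ω))]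
    exact hid (2 * Y) (Real.exp ω) (by linarith) (Real.exp_pos _).le
  have hmaps : ∀ s ∈ F, (partI s Raᶜ, partI s⁻¹ Rbᶜ, partI (1 + s) Rcᶜ) ∈ A ×ˢ (B ×ˢ D) := by
    intro s hs
    have hg := hF s hs
    have hw := hω s hs
    simp only [Finset.mem_product, hA, hB, hD, Set.Finite.mem_toFinset]
    refine ⟨partI_mem hg.n0 _ (by linarith) ((LP_side_a hg.n0 _).trans hg.up) hw.1,
      partI_mem (inv_ne_zero hg.n0) _ (by linarith) ((LP_side_b hg.n0 _).trans hg.up) hw.2.1,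
      partI_mem hg.n1 _ (by linarith) ((LP_side_c hg.n1 _).trans hg.up) hw.2.2⟩
  have hfibre : ∀ b ∈ A ×ˢ (B ×ˢ D), (F.filter
      (fun s => (partI s Raᶜ, partI s⁻¹ Rbᶜ, partI (1 + s) Rcᶜ) = b)).card ≤ ⌊M⌋₊ := by
    intro b _
    apply Nat.le_floor
    apply hfib Y za zb zc hY
    · intro s hs
      exact hF s (Finset.mem_filter.mp hs).1
    · intro s hs s' hs'
      have h1 := (Finset.mem_filter.mp hs).2
      have h2 := (Finset.mem_filter.mp hs').2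
      rw [← h2] at h1
      simp only [Prod.mk.injEq] at h1
      exact ⟨h1.1, h1.2.1, h1.2.2⟩
  have hcard := Finset.card_le_mul_card_image_of_maps_to hmaps ⌊M⌋₊ hfibre
  have h6 : (2 * Y) ^ (ε / 6) * (2 * Y) ^ (ε / 6) * (2 * Y) ^ (ε / 6) =
      2 ^ (ε / 2) * Y ^ (ε / 2) := by
    rw [← Real.rpow_add (by linarith), ← Real.rpow_add (by linarith),
      show ε / 6 + ε / 6 + ε / 6 = ε / 2 by ring, Real.mul_rpow (by norm_num) hY0.le]
  have h7 : Y ^ (ε / 2) * Y ^ (ε / 2) = Y ^ ε := by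
    rw [← Real.rpow_add hY0, add_halves]
  calc (F.card : ℝ) ≤ ((⌊M⌋₊ * (A ×ˢ (B ×ˢ D)).card : ℕ) : ℝ) := by exact_mod_cast hcard
    _ = (⌊M⌋₊ : ℝ) * ((A.card : ℝ) * ((B.card : ℝ) * (D.card : ℝ))) := by
        rw [Finset.card_product, Finset.card_product]; push_cast; ring
    _ ≤ M * ((C₂ * (2 * Y) ^ (ε / 6) * Real.exp ωa) * ((C₂ * (2 * Y) ^ (ε / 6) * Real.exp ωb) *
        (C₂ * (2 * Y) ^ (ε / 6) * Real.exp ωc))) := by
        have e1 := Nat.floor_le hM0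
        have e2 := hcount ωa
        have e3 := hcount ωb
        have e4 := hcount ωc
        gcongr
    _ = C₁ * (C₂ * C₂ * C₂) * 2 ^ (ε / 2) * Y ^ ε * Real.exp (ωa + ωb + ωc + W) := by
        rw [Real.exp_add, Real.exp_add, Real.exp_add, ← h7, hM]
        linear_combination C₁ * Y ^ (ε / 2) * Real.exp W * (C₂ * C₂ * C₂) * Real.exp ωa *
          Real.exp ωb * Real.exp ωc * h6

end BPlus

end Pool.Agent.Work.MP_a793bb_nt
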