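import Pool.Agent.Work.MP_a793bb_nt.IdealCount

set_option autoImplicit false
set_option linter.unusedSectionVars false

namespace Pool.Agent.Work.MP_a793bb_nt

open NumberField IsDedekindDomain Filter Topology

variable (K : Type*) [Field K] [NumberField K]

/-- nonzero ideals of norm at most `X` -/
def idealsLe (X : ℝ) : Set (Ideal (𝓞 K)) := {I | I ≠ ⊥ ∧ (Ideal.absNorm I : ℝ) ≤ X}

lemma finite_idealsLe (X : ℝ) : (idealsLe K X).Finite := by
  refine (Ideal.finite_setOfPred_absNorm_le (S := 𝓞 K) ⌊X⌋₊).subset ?_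
  rintro I ⟨-, h⟩
  exact Nat.le_floor h

lemma card_idealsLe : ∃ C : ℝ, 1 ≤ C ∧ ∀ X : ℝ, 0 ≤ X → ((idealsLe K X).ncard : ℝ) ≤ C * X := by
  have h := Ideal.tendsto_norm_le_div_atTop K
  obtain ⟨L, hL⟩ : ∃ L : ℝ, Tendsto (fun s : ℝ ↦
    (Nat.card {I : Ideal (𝓞 K) // Ideal.absNorm I ≤ s} : ℝ) / s) atTop (𝓝 L) := ⟨_, h⟩
  have h1 : ∀ᶠ s : ℝ in atTop, (Nat.card {I : Ideal (𝓞 K) // Ideal.absNorm I ≤ s} : ℝ) / s < L + 1 :=
    hL.eventually (gt_mem_nhds (by linarith))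
  obtain ⟨s₀, hs₀⟩ := eventually_atTop.mp h1
  have hsub : ∀ X : ℝ, ((idealsLe K X).ncard : ℝ) ≤
      (Nat.card {I : Ideal (𝓞 K) // Ideal.absNorm I ≤ X} : ℝ) := by
    intro X
    have hfin : {I : Ideal (𝓞 K) | (Ideal.absNorm I : ℝ) ≤ X}.Finite := by
      refine (Ideal.finite_setOfPred_absNorm_le (S := 𝓞 K) ⌊X⌋₊).subset ?_
      intro I h
      exact Nat.le_floor h
    have h2 : (idealsLe K X).ncard ≤ {I : Ideal (𝓞 K) | (Ideal.absNorm I : ℝ) ≤ X}.ncard := by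
      apply Set.ncard_le_ncard _ hfin
      rintro I ⟨-, h⟩
      exact h
    exact_mod_cast h2
  set s₁ : ℝ := max s₀ 1 with hs₁
  set C : ℝ := max 1 (max (L + 1) ((idealsLe K s₁).ncard : ℝ)) with hC
  have hC1 : 1 ≤ C := le_max_left _ _
  refine ⟨C, hC1, fun X hX => ?_⟩
  by_cases hX1 : X < 1
  · have : idealsLe K X = ∅ := by
      ext I
      simp only [idealsLe, Set.mem_ofPred_eq, Set.mem_empty_iff_false, iff_false, not_and, not_le]
      intro hI
      have h3 : Ideal.absNorm I ≠ 0 := by rwa [Ne, Ideal.absNorm_eq_zero_iff]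
      have h4 : (1 : ℝ) ≤ (Ideal.absNorm I : ℝ) := by
        exact_mod_cast Nat.one_le_iff_ne_zero.mpr h3
      linarith
    rw [this, Set.ncard_empty, Nat.cast_zero]
    exact mul_nonneg (by linarith) hX
  rw [not_lt] at hX1
  by_cases hXs : X ≤ s₁
  · have h3 : ((idealsLe K X).ncard : ℝ) ≤ ((idealsLe K s₁).ncard : ℝ) := by
      have : (idealsLe K X).ncard ≤ (idealsLe K s₁).ncard := by
        apply Set.ncard_le_ncard _ (finite_idealsLe K s₁)
        rintro I ⟨h1, h2⟩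
        exact ⟨h1, h2.trans hXs⟩
      exact_mod_cast this
    have h4 : ((idealsLe K s₁).ncard : ℝ) ≤ C := (le_max_right _ _).trans (le_max_right _ _)
    nlinarith
  · rw [not_le] at hXs
    have h3 := hs₀ X ((le_max_left _ _).trans hXs.le)
    rw [div_lt_iff₀ (by linarith)] at h3
    have h4 : L + 1 ≤ C := (le_max_left _ _).trans (le_max_right _ _)
    have h5 : (L + 1) * X ≤ C * X := mul_le_mul_of_nonneg_right h4 hX
    linarith [hsub X]

lemma one_le_absNorm {I : Ideal (𝓞 K)} (hI : I ≠ ⊥) : (1 : ℝ) ≤ (Ideal.absNorm I : ℝ) := by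
  have h3 : Ideal.absNorm I ≠ 0 := by rwa [Ne, Ideal.absNorm_eq_zero_iff]
  exact_mod_cast Nat.one_le_iff_ne_zero.mpr h3

/-- the sum of reciprocals of norms -/
lemma sum_inv_absNorm_le : ∃ C : ℝ, 1 ≤ C ∧ ∀ X : ℝ, 1 ≤ X →
    ∑ I ∈ (finite_idealsLe K X).toFinset, (1 : ℝ) / (Ideal.absNorm I : ℝ) ≤
      C * (1 + Real.log X) := by
  classical
  obtain ⟨C, hC1, hC⟩ := card_idealsLe K
  refine ⟨4 * C, by linarith, fun X hX => ?_⟩
  set F := (finite_idealsLe K X).toFinset with hF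
  set M := Nat.log 2 ⌊X⌋₊ with hM
  have hmaps : ∀ I ∈ F, Nat.log 2 (Ideal.absNorm I) ∈ Finset.range (M + 1) := by
    intro I hI
    rw [hF, Set.Finite.mem_toFinset] at hI
    rw [Finset.mem_range, Nat.lt_succ_iff]
    exact Nat.log_mono_right (Nat.le_floor hI.2)
  rw [← Finset.sum_fiberwise_of_maps_to hmaps]
  have hterm : ∀ k ∈ Finset.range (M + 1),
      ∑ I ∈ F with Nat.log 2 (Ideal.absNorm I) = k, (1 : ℝ) / (Ideal.absNorm I : ℝ) ≤ 2 * C := by
    intro k _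
    have h1 : ∀ I ∈ F.filter (fun I => Nat.log 2 (Ideal.absNorm I) = k),
        (1 : ℝ) / (Ideal.absNorm I : ℝ) ≤ 1 / 2 ^ k := by
      intro I hI
      rw [Finset.mem_filter, hF, Set.Finite.mem_toFinset] at hI
      have h2 : Ideal.absNorm I ≠ 0 := by
        rw [Ne, Ideal.absNorm_eq_zero_iff]; exact hI.1.1
      have h3 : 2 ^ k ≤ Ideal.absNorm I := by
        rw [← hI.2]; exact Nat.pow_log_le_self 2 h2
      apply one_div_le_one_div_of_le (by positivity)
      exact_mod_cast h3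
    refine (Finset.sum_le_card_nsmul _ _ _ h1).trans ?_
    have h4 : ((F.filter (fun I => Nat.log 2 (Ideal.absNorm I) = k)).card : ℝ) ≤ C * 2 ^ (k + 1) := by
      refine le_trans ?_ (hC (2 ^ (k + 1)) (by positivity))
      have : (F.filter (fun I => Nat.log 2 (Ideal.absNorm I) = k)).card ≤
          (idealsLe K (2 ^ (k + 1))).ncard := by
        rw [← Set.ncard_coe_finset]
        apply Set.ncard_le_ncard _ (finite_idealsLe K _)
        intro I hI
        rw [Finset.mem_coe, Finset.mem_filter, hF, Set.Finite.mem_toFinset] at hI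
        refine ⟨hI.1.1, ?_⟩
        have h5 := Nat.lt_pow_succ_log_self (b := 2) (by norm_num) (Ideal.absNorm I)
        rw [hI.2] at h5
        have : (Ideal.absNorm I : ℝ) < 2 ^ (k + 1) := by exact_mod_cast h5
        exact this.le
      exact_mod_cast this
    rw [nsmul_eq_mul]
    calc _ ≤ C * 2 ^ (k + 1) * (1 / 2 ^ k) := by gcongr
      _ = 2 * C := by field_simp; ring
  refine (Finset.sum_le_sum hterm).trans ?_
  rw [Finset.sum_const, Finset.card_range, nsmul_eq_mul]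
  have hlog : (M : ℝ) ≤ 2 * Real.log X := by
    have h6 : (2 : ℝ) ^ M ≤ X := by
      have h7 : 2 ^ M ≤ ⌊X⌋₊ := by
        apply Nat.pow_log_le_self
        have : 1 ≤ ⌊X⌋₊ := Nat.le_floor (by simpa using hX)
        omega
      have h8 : ((2 ^ M : ℕ) : ℝ) ≤ ⌊X⌋₊ := by exact_mod_cast h7
      push_cast at h8
      exact h8.trans (Nat.floor_le (by linarith))
    have h9 := Real.log_le_log (by positivity) h6
    rw [Real.log_pow] at h9
    have h10 : (1 : ℝ) / 2 ≤ Real.log 2 := by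
      have := Real.log_two_gt_d9
      linarith
    have h11 : (0 : ℝ) ≤ M := by positivity
    nlinarith
  have hlogX : 0 ≤ Real.log X := Real.log_nonneg hX
  push_cast
  nlinarith


/-- counting pairs of ideals with bounded product of norms -/
lemma card_pairs_le {δ : ℝ} (hδ : 0 < δ) : ∃ C : ℝ, 1 ≤ C ∧ ∀ Y : ℝ, 1 ≤ Y →
    {IJ : Ideal (𝓞 K) × Ideal (𝓞 K) | IJ.1 ≠ ⊥ ∧ IJ.2 ≠ ⊥ ∧
      (Ideal.absNorm IJ.1 : ℝ) * (Ideal.absNorm IJ.2 : ℝ) ≤ Y}.Finite ∧
    ({IJ : Ideal (𝓞 K) × Ideal (𝓞 K) | IJ.1 ≠ ⊥ ∧ IJ.2 ≠ ⊥ ∧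
      (Ideal.absNorm IJ.1 : ℝ) * (Ideal.absNorm IJ.2 : ℝ) ≤ Y}.ncard : ℝ) ≤ C * Y ^ (1 + δ) := by
  classical
  obtain ⟨C, hC1, hC⟩ := card_idealsLe K
  obtain ⟨C', hC1', hC'⟩ := sum_inv_absNorm_le K
  refine ⟨C * (C' * (1 + 1 / δ)), ?_, fun Y hY => ?_⟩
  · have h1 : 1 ≤ 1 + 1 / δ := by
      have : 0 < 1 / δ := by positivity
      linarith
    have h2 : 1 ≤ C' * (1 + 1 / δ) := by nlinarith
    nlinarith
  set A : Set (Ideal (𝓞 K) × Ideal (𝓞 K)) := {IJ : Ideal (𝓞 K) × Ideal (𝓞 K) | IJ.1 ≠ ⊥ ∧ IJ.2 ≠ ⊥ ∧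
      (Ideal.absNorm IJ.1 : ℝ) * (Ideal.absNorm IJ.2 : ℝ) ≤ Y} with hA
  set F := (finite_idealsLe K Y).toFinset with hF
  set B : Finset (Ideal (𝓞 K) × Ideal (𝓞 K)) := F.biUnion fun I =>
    ((finite_idealsLe K (Y / (Ideal.absNorm I : ℝ))).toFinset).image fun J => (I, J) with hB
  have hAB : A ⊆ B := by
    rintro ⟨I, J⟩ ⟨hI, hJ, hIJ⟩
    simp only at hI hJ hIJ
    have hI1 := one_le_absNorm K hI
    have hJ1 := one_le_absNorm K hJ
    simp only [hB, Finset.coe_biUnion, Set.mem_iUnion, Finset.mem_coe, Finset.mem_image,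
      Set.Finite.mem_toFinset, Prod.mk.injEq, hF]
    refine ⟨I, ⟨hI, by nlinarith⟩, J, ⟨hJ, ?_⟩, rfl, rfl⟩
    rw [le_div_iff₀ (by linarith)]
    linarith
  refine ⟨(Finset.finite_toSet B).subset hAB, ?_⟩
  have hcard : A.ncard ≤ B.card := by
    rw [← Set.ncard_coe_finset]
    exact Set.ncard_le_ncard hAB (Finset.finite_toSet B)
  have hB2 : (B.card : ℝ) ≤ C * Y * ∑ I ∈ F, (1 : ℝ) / (Ideal.absNorm I : ℝ) := by
    calc (B.card : ℝ) ≤ ((∑ I ∈ F, (((finite_idealsLe K (Y / (Ideal.absNorm I : ℝ))).toFinset).image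
            fun J => (I, J)).card : ℕ) : ℝ) := by exact_mod_cast Finset.card_biUnion_le
      _ ≤ ∑ I ∈ F, C * (Y / (Ideal.absNorm I : ℝ)) := by
          push_cast
          refine Finset.sum_le_sum fun I hI => ?_
          have h1 : ((((finite_idealsLe K (Y / (Ideal.absNorm I : ℝ))).toFinset).image
            fun J => (I, J)).card : ℝ) ≤ ((idealsLe K (Y / (Ideal.absNorm I : ℝ))).ncard : ℝ) := by
            have h2 := Finset.card_image_le (s := (finite_idealsLe K (Y / (Ideal.absNorm I : ℝ))).toFinset)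
              (f := fun J => (I, J))
            rw [← Set.ncard_eq_toFinset_card _ (finite_idealsLe K _)] at h2
            exact_mod_cast h2
          exact h1.trans (hC _ (by positivity))
      _ = C * Y * ∑ I ∈ F, (1 : ℝ) / (Ideal.absNorm I : ℝ) := by
          rw [Finset.mul_sum]
          refine Finset.sum_congr rfl fun I _ => ?_
          ring
  have hlog : 1 + Real.log Y ≤ (1 + 1 / δ) * Y ^ δ := by
    have h1 : Real.log Y ≤ Y ^ δ / δ := Real.log_le_rpow_div (by linarith) hδ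
    have h2 : 1 ≤ Y ^ δ := Real.one_le_rpow hY hδ.le
    have h3 : (1 + 1 / δ) * Y ^ δ = Y ^ δ + Y ^ δ / δ := by ring
    linarith
  have hfin := hC' Y hY
  calc (A.ncard : ℝ) ≤ B.card := by exact_mod_cast hcard
    _ ≤ C * Y * ∑ I ∈ F, (1 : ℝ) / (Ideal.absNorm I : ℝ) := hB2
    _ ≤ C * Y * (C' * ((1 + 1 / δ) * Y ^ δ)) := by
        refine mul_le_mul_of_nonneg_left ?_ (by positivity)
        refine hfin.trans ?_
        exact mul_le_mul_of_nonneg_left hlog (by linarith)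
    _ = C * (C' * (1 + 1 / δ)) * Y ^ (1 + δ) := by
        rw [Real.rpow_add (by linarith), Real.rpow_one]
        ring

end Pool.Agent.Work.MP_a793bb_nt
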