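import Pool.Agent.Work.MP_a793bb_nt.PtsCount

set_option autoImplicit false
set_option linter.unusedSectionVars false

namespace Pool.Agent.Work.MP_a793bb_nt

open NumberField IsDedekindDomain Filter Topology

variable {K : Type*} [Field K] [NumberField K]

/-- the finite set of primes dividing a nonzero ideal -/
lemma finite_dvd {I : Ideal (𝓞 K)} (hI : I ≠ ⊥) :
    {p : HeightOneSpectrum (𝓞 K) | p.asIdeal ∣ I}.Finite :=
  Ideal.finite_factors hI

lemma isCoprime_asIdeal {p q : HeightOneSpectrum (𝓞 K)} (h : p ≠ q) :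
    IsCoprime p.asIdeal q.asIdeal := by
  rw [Ideal.isCoprime_iff_sup_eq]
  refine Ideal.IsMaximal.coprime_of_ne p.isMaximal q.isMaximal ?_
  intro h2
  exact h (HeightOneSpectrum.ext h2)

lemma radical_eq_prod {I : Ideal (𝓞 K)} (hI : I ≠ ⊥) :
    I.radical = ∏ p ∈ (finite_dvd hI).toFinset, p.asIdeal := by
  set F := (finite_dvd hI).toFinset with hF
  apply le_antisymm
  · rw [← Ideal.dvd_iff_le]
    apply Finset.prod_dvd_of_coprime
    · intro p _ q _ hpq
      exact isCoprime_asIdeal hpq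
    · intro p hp
      rw [hF, Set.Finite.mem_toFinset] at hp
      rw [Ideal.dvd_iff_le, p.isPrime.radical_le_iff, ← Ideal.dvd_iff_le]
      exact hp
  · set N := ∑ p ∈ F, ex I p with hN
    have h1 : I ∣ (∏ p ∈ F, p.asIdeal) ^ N := by
      conv_lhs => rw [← prod_ex hI F (fun p hp => by
        rw [hF, Set.Finite.mem_toFinset]; exact hp)]
      rw [← Finset.prod_pow]
      apply Finset.prod_dvd_prod_of_dvd
      intro p hp
      exact pow_dvd_pow _ (Finset.single_le_sum (f := fun p => ex I p) (fun _ _ => Nat.zero_le _) hp)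
    intro x hx
    rw [Ideal.mem_radical_iff]
    exact ⟨N, Ideal.le_of_dvd h1 (Ideal.pow_mem_pow hx N)⟩

lemma radical_ne_bot {I : Ideal (𝓞 K)} (hI : I ≠ ⊥) : I.radical ≠ ⊥ := by
  rw [radical_eq_prod hI, ← Ideal.zero_eq_bot, Finset.prod_ne_zero_iff]
  intro p _
  exact p.ne_bot

lemma absNorm_radical {I : Ideal (𝓞 K)} (hI : I ≠ ⊥) :
    (Ideal.absNorm I.radical : ℝ) = Real.exp (Rs {p | p.asIdeal ∣ I}) := by
  rw [radical_eq_prod hI, map_prod, Rs, finsum_mem_eq_finite_toFinset_sum _ (finite_dvd hI),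
    Real.exp_sum]
  push_cast
  refine Finset.prod_congr rfl fun p _ => ?_
  rw [lN, Real.exp_log]
  have := two_le_Np p
  unfold Np at this
  linarith

lemma dvd_radical_iff' {I : Ideal (𝓞 K)} (p : HeightOneSpectrum (𝓞 K)) :
    p.asIdeal ∣ I.radical ↔ p.asIdeal ∣ I := by
  rw [Ideal.dvd_iff_le, p.isPrime.radical_le_iff, ← Ideal.dvd_iff_le]

/-- nonzero ideals with norm at most `X` and norm of the radical at most `R` -/
def idealsRad (K : Type*) [Field K] [NumberField K] (X R : ℝ) : Set (Ideal (𝓞 K)) :=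
  {I | I ≠ ⊥ ∧ (Ideal.absNorm I : ℝ) ≤ X ∧ (Ideal.absNorm I.radical : ℝ) ≤ R}

lemma finite_idealsRad (X R : ℝ) : (idealsRad K X R).Finite :=
  (finite_idealsLe K X).subset fun _ h => ⟨h.1, h.2.1⟩

variable (K) in
/-- The number of ideals with norm at most `X` and radical of norm at most `R`. -/
lemma card_idealsRad_le {δ : ℝ} (hδ : 0 < δ) : ∃ C : ℝ, 1 ≤ C ∧ ∀ X R : ℝ, 1 ≤ X → 0 ≤ R →
    ((idealsRad K X R).ncard : ℝ) ≤ C * X ^ δ * R := by
  classical
  obtain ⟨C₁, hC₁, h1⟩ := card_idealsWith_le K hδ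
  obtain ⟨C₂, hC₂, h2⟩ := card_idealsLe K
  refine ⟨C₁ * C₂, by nlinarith, fun X R hX hR => ?_⟩
  have hfin := finite_idealsRad (K := K) X R
  set A := hfin.toFinset with hA
  rw [Set.ncard_eq_toFinset_card _ hfin]
  have himg : ((A.image Ideal.radical).card : ℝ) ≤ C₂ * R := by
    refine le_trans ?_ (h2 R hR)
    rw [Set.ncard_eq_toFinset_card _ (finite_idealsLe K R)]
    have : A.image Ideal.radical ⊆ (finite_idealsLe K R).toFinset := by
      intro J hJ
      rw [Finset.mem_image] at hJ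
      obtain ⟨I, hI, rfl⟩ := hJ
      rw [hA, Set.Finite.mem_toFinset] at hI
      rw [Set.Finite.mem_toFinset]
      exact ⟨radical_ne_bot hI.1, hI.2.2⟩
    exact_mod_cast Finset.card_le_card this
  set n : ℕ := ⌊C₁ * X ^ δ⌋₊ with hn
  have hfib : ∀ a ∈ A.image Ideal.radical, (A.filter fun y => y.radical = a).card ≤ n := by
    intro a ha
    rw [Finset.mem_image] at ha
    obtain ⟨I, hI, rfl⟩ := ha
    rw [hA, Set.Finite.mem_toFinset] at hI
    obtain ⟨hFfin, hFcard⟩ := h1 (finite_dvd hI.1).toFinset X hX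
    apply Nat.le_floor
    refine le_trans ?_ hFcard
    rw [Set.ncard_eq_toFinset_card _ hFfin]
    have : (A.filter fun y => y.radical = I.radical) ⊆ hFfin.toFinset := by
      intro J hJ
      rw [Finset.mem_filter, hA, Set.Finite.mem_toFinset] at hJ
      rw [Set.Finite.mem_toFinset]
      refine ⟨hJ.1.1, fun p => ?_, hJ.1.2.1⟩
      rw [Set.Finite.mem_toFinset, Set.mem_ofPred_eq, ← dvd_radical_iff' (I := I), ← hJ.2,
        dvd_radical_iff']
    exact_mod_cast Finset.card_le_card this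
  have hmain := Finset.card_le_mul_card_image A n hfib
  calc (A.card : ℝ) ≤ ((n * (A.image Ideal.radical).card : ℕ) : ℝ) := by exact_mod_cast hmain
    _ ≤ (C₁ * X ^ δ) * (C₂ * R) := by
        push_cast
        gcongr
        exact Nat.floor_le (by positivity)
    _ = C₁ * C₂ * X ^ δ * R := by ring

variable (K) in
/-- Powers of `k` to the number of prime divisors are smaller than any power of the norm. -/
lemma pow_card_dvd_le {δ : ℝ} (hδ : 0 < δ) (k : ℕ) : ∃ C : ℝ, 1 ≤ C ∧ ∀ I : Ideal (𝓞 K), I ≠ ⊥ →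
    (k : ℝ) ^ ({p : HeightOneSpectrum (𝓞 K) | p.asIdeal ∣ I}.ncard) ≤
      C * (Ideal.absNorm I : ℝ) ^ δ := by
  classical
  set k' : ℝ := max 1 (k : ℝ) with hk'
  have hk1 : 1 ≤ k' := le_max_left _ _
  have hkk : (k : ℝ) ≤ k' := le_max_right _ _
  set B : ℝ := k' ^ (1 / δ) with hB
  set P := (finite_Np_le (K := K) B).toFinset with hP
  refine ⟨k' ^ P.card, one_le_pow₀ hk1, fun I hI => ?_⟩
  have hfin := finite_dvd hI
  rw [Set.ncard_eq_toFinset_card _ hfin]
  set F := hfin.toFinset with hF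
  have h1 : (k : ℝ) ^ F.card ≤ k' ^ F.card := pow_le_pow_left₀ (by positivity) hkk _
  refine h1.trans ?_
  have h2 : F.card = (F ∩ P).card + (F \ P).card := (Finset.card_inter_add_card_sdiff F P).symm
  rw [h2, pow_add]
  have h3 : k' ^ (F ∩ P).card ≤ k' ^ P.card :=
    pow_le_pow_right₀ hk1 (Finset.card_le_card Finset.inter_subset_right)
  have h4 : k' ^ (F \ P).card ≤ (Ideal.absNorm I : ℝ) ^ δ := by
    have h5 : (Ideal.absNorm I : ℝ) = ∏ p ∈ F, Np p ^ ex I p := absNorm_prod_ex hI F (fun p hp => by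
      rw [hF, Set.Finite.mem_toFinset]; exact hp)
    have hNp : ∀ p : HeightOneSpectrum (𝓞 K), 1 ≤ Np p := fun p => by linarith [two_le_Np p]
    have h6 : ∏ p ∈ F \ P, Np p ≤ (Ideal.absNorm I : ℝ) := by
      rw [h5]
      calc ∏ p ∈ F \ P, Np p ≤ ∏ p ∈ F \ P, Np p ^ ex I p := by
            refine Finset.prod_le_prod (fun p _ => by linarith [hNp p]) fun p hp => ?_
            rw [Finset.mem_sdiff, hF, Set.Finite.mem_toFinset] at hp
            exact le_self_pow₀ (hNp p) (by have := one_le_ex hI hp.1; omega)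
        _ ≤ ∏ p ∈ F, Np p ^ ex I p :=
            Finset.prod_le_prod_of_subset_of_one_le Finset.sdiff_subset
              (fun p _ => by have := hNp p; positivity) (fun p _ _ => one_le_pow₀ (hNp p))
    have h7 : ∏ p ∈ F \ P, B ≤ ∏ p ∈ F \ P, Np p := by
      refine Finset.prod_le_prod (fun p _ => by positivity) fun p hp => ?_
      rw [Finset.mem_sdiff] at hp
      have h9 : ¬ (Np p ≤ B) := fun h => hp.2 (by rw [hP, Set.Finite.mem_toFinset]; exact h)
      exact (not_le.mp h9).le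
    rw [Finset.prod_const] at h7
    have h8 : k' ^ (F \ P).card = (B ^ (F \ P).card) ^ δ := by
      rw [hB, ← Real.rpow_natCast, ← Real.rpow_natCast, ← Real.rpow_mul (by positivity),
        ← Real.rpow_mul (by positivity)]
      congr 1
      field_simp
    rw [h8]
    exact Real.rpow_le_rpow (by positivity) (h7.trans h6) hδ.le
  exact mul_le_mul h3 h4 (by positivity) (by positivity)

end Pool.Agent.Work.MP_a793bb_nt
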