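import Pool.Agent.Work.MP_a793bb_nt.Defs

set_option autoImplicit false

namespace Pool.Agent.Work.MP_a793bb_nt

open NumberField IsDedekindDomain Height

set_option linter.unusedSectionVars false
set_option linter.unnecessarySeqFocus false

variable {K : Type*} [Field K] [NumberField K]

lemma badPrimes_smul (t a b c : K) (ht : t ≠ 0) :
    badPrimes (t * a) (t * b) (t * c) = badPrimes a b c := by
  ext p
  have h0 : p.valuation K t ≠ 0 := (Valuation.ne_zero_iff _).mpr ht
  simp only [badPrimes, Set.mem_ofPred_eq, map_mul, mul_right_inj' h0]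

lemma rad_smul (t a b c : K) (ht : t ≠ 0) : rad (t * a) (t * b) (t * c) = rad a b c := by
  simp only [rad, badPrimes_smul t a b c ht]

lemma ht_smul (t a b c : K) (h0 : t ≠ 0) : ht (t * a) (t * b) (t * c) = ht a b c := by
  have : (![t * a, t * b, t * c] : Fin 3 → K) = t • ![a, b, c] := by
    ext i; fin_cases i <;> simp
  simp only [ht, this, logHeight_smul_eq_logHeight _ h0]

/-- real absolute value at `p`, as a shorthand -/
noncomputable def av (p : HeightOneSpectrum (𝓞 K)) (x : K) : ℝ := FinitePlace.mk p x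

lemma av_eq (p : HeightOneSpectrum (𝓞 K)) (x : K) :
    av p x = WithZeroMulInt.toNNReal (HeightOneSpectrum.absNorm_ne_zero p) (p.valuation K x) := by
  rw [av, FinitePlace.mk_apply, FinitePlace.norm_embedding']

lemma av_eq_av_iff (p : HeightOneSpectrum (𝓞 K)) (x y : K) :
    av p x = av p y ↔ p.valuation K x = p.valuation K y := by
  rw [av_eq, av_eq, NNReal.coe_inj]
  exact (WithZeroMulInt.toNNReal_strictMono (HeightOneSpectrum.one_lt_absNorm_nnreal p)).injective.eq_iff

lemma av_lt_one_iff (p : HeightOneSpectrum (𝓞 K)) (x : K) :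
    av p x < 1 ↔ p.valuation K x < 1 := by
  rw [av_eq]
  exact_mod_cast WithZeroMulInt.toNNReal_lt_one_iff (HeightOneSpectrum.one_lt_absNorm_nnreal p)

lemma av_mul (p : HeightOneSpectrum (𝓞 K)) (x y : K) : av p (x * y) = av p x * av p y :=
  map_mul _ _ _

lemma av_inv (p : HeightOneSpectrum (𝓞 K)) (x : K) : av p x⁻¹ = (av p x)⁻¹ :=
  map_inv₀ _ _

lemma av_one (p : HeightOneSpectrum (𝓞 K)) : av p (1 : K) = 1 := map_one _

lemma av_neg (p : HeightOneSpectrum (𝓞 K)) (x : K) : av p (-x) = av p x := by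
  rw [av_eq, av_eq, Valuation.map_neg]

lemma av_nonneg (p : HeightOneSpectrum (𝓞 K)) (x : K) : 0 ≤ av p x := by
  rw [av_eq]; positivity

lemma av_pos (p : HeightOneSpectrum (𝓞 K)) {x : K} (hx : x ≠ 0) : 0 < av p x :=
  FinitePlace.pos_iff.mpr hx

lemma av_pow (p : HeightOneSpectrum (𝓞 K)) (x : K) (n : ℕ) : av p (x ^ n) = av p x ^ n :=
  map_pow _ _ _

lemma av_add_le (p : HeightOneSpectrum (𝓞 K)) (x y : K) :
    av p (x + y) ≤ max (av p x) (av p y) := FinitePlace.add_le _ _ _

/-- log of the norm of a prime -/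
noncomputable def lN (p : HeightOneSpectrum (𝓞 K)) : ℝ := Real.log (Ideal.absNorm p.asIdeal)

lemma lN_pos (p : HeightOneSpectrum (𝓞 K)) : 0 < lN p := by
  apply Real.log_pos
  exact_mod_cast HeightOneSpectrum.one_lt_absNorm p

lemma lN_le_of_av_lt_one (p : HeightOneSpectrum (𝓞 K)) {x : K} (hx : x ≠ 0) (h : av p x < 1) :
    lN p ≤ Real.log (av p x⁻¹) := by
  have h1 : p.valuation K x < 1 := (av_lt_one_iff p x).mp h
  have h0 : p.valuation K x ≠ 0 := (Valuation.ne_zero_iff _).mpr hx
  have h2 : p.valuation K x ≤ WithZero.exp (-1 : ℤ) := by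
    obtain ⟨m, hm⟩ : ∃ m : ℤ, p.valuation K x = WithZero.exp m := by
      refine ⟨WithZero.log (p.valuation K x), ?_⟩
      rw [WithZero.exp_log h0]
    rw [hm] at h1 ⊢
    rw [← WithZero.exp_zero, WithZero.exp_lt_exp] at h1
    rw [WithZero.exp_le_exp]
    omega
  have h3 : av p x ≤ (Ideal.absNorm p.asIdeal : ℝ)⁻¹ := by
    rw [av_eq]
    have := (WithZeroMulInt.toNNReal_strictMono
      (HeightOneSpectrum.one_lt_absNorm_nnreal p)).monotone h2
    refine le_trans (NNReal.coe_le_coe.mpr this) ?_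
    have h7 : WithZeroMulInt.toNNReal (HeightOneSpectrum.absNorm_ne_zero p) (WithZero.exp (-1 : ℤ))
        = (Ideal.absNorm p.asIdeal : NNReal) ^ (-1 : ℤ) := by
      rw [WithZeroMulInt.toNNReal_neg_apply _ (by simp)]
      rfl
    rw [h7]
    simp
  rw [av_inv, lN]
  have h4 := av_pos p hx
  have h5 : (0:ℝ) < Ideal.absNorm p.asIdeal := by
    have := HeightOneSpectrum.one_lt_absNorm p
    positivity
  apply Real.log_le_log h5
  rw [le_inv_comm₀ h5 h4]
  exact h3


/-- unnormalised sum of log norms over a set of primes -/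
noncomputable def Rs (S : Set (HeightOneSpectrum (𝓞 K))) : ℝ :=
  ∑ᶠ (p : HeightOneSpectrum (𝓞 K)) (_ : p ∈ S), lN p

lemma Rs_nonneg (S : Set (HeightOneSpectrum (𝓞 K))) : 0 ≤ Rs S :=
  finsum_nonneg fun p => finsum_nonneg fun _ => (lN_pos p).le

lemma Rs_mono {S T : Set (HeightOneSpectrum (𝓞 K))} (hT : T.Finite) (h : S ⊆ T) : Rs S ≤ Rs T := by
  rw [Rs, Rs, finsum_mem_eq_finite_toFinset_sum _ hT, finsum_mem_eq_finite_toFinset_sum _ (hT.subset h)]
  apply Finset.sum_le_sum_of_subset_of_nonneg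
  · exact Set.Finite.toFinset_mono h
  · intro p _ _
    exact (lN_pos p).le

lemma Rs_union_le {S T : Set (HeightOneSpectrum (𝓞 K))} (hS : S.Finite) (hT : T.Finite) :
    Rs (S ∪ T) ≤ Rs S + Rs T := by
  have := finsum_mem_union_inter (f := fun p => lN p) hS hT
  have h2 := Rs_nonneg (S ∩ T)
  rw [Rs] at h2
  rw [Rs, Rs, Rs]
  linarith

lemma rad_eq (a b c : K) : rad a b c = Rs (badPrimes a b c) / (Module.finrank ℚ K : ℝ) := rfl

/-- primes dividing the numerator of y -/
def Zp (y : K) : Set (HeightOneSpectrum (𝓞 K)) := {p | av p y < 1}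

lemma finite_av_ne_one {y : K} (hy : y ≠ 0) : {p : HeightOneSpectrum (𝓞 K) | av p y ≠ 1}.Finite := by
  have h := FinitePlace.hasFiniteMulSupport hy
  have h2 : {p : HeightOneSpectrum (𝓞 K) | av p y ≠ 1} =
      (FinitePlace.mk : HeightOneSpectrum (𝓞 K) → FinitePlace K) ⁻¹'
        (Function.mulSupport fun w : FinitePlace K => w y) := by
    ext p; simp [av]
  rw [h2]
  apply Set.Finite.preimage
  · intro p _ q _ hpq
    exact FinitePlace.mk_eq_iff.mp hpq
  · exact h

lemma finite_Zp {y : K} (hy : y ≠ 0) : (Zp y).Finite :=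
  (finite_av_ne_one hy).subset fun p (hp : av p y < 1) => ne_of_lt hp

lemma mem_badPrimes_iff (a b c : K) (p : HeightOneSpectrum (𝓞 K)) :
    p ∈ badPrimes a b c ↔ ¬ (av p a = av p b ∧ av p b = av p c) := by
  rw [av_eq_av_iff, av_eq_av_iff]; rfl

lemma finite_badPrimes {a b c : K} (ha : a ≠ 0) (hb : b ≠ 0) (hc : c ≠ 0) :
    (badPrimes a b c).Finite := by
  refine (((finite_av_ne_one ha).union (finite_av_ne_one hb)).union (finite_av_ne_one hc)).subset ?_
  intro p hp
  rw [mem_badPrimes_iff] at hp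
  by_contra hcon
  simp only [Set.mem_union, Set.mem_ofPred_eq, not_or, not_not] at hcon
  apply hp
  rw [hcon.1.1, hcon.1.2, hcon.2]
  simp

open Real in
/-- The sum of log norms over the primes in the numerator of `y` is at most the height. -/
lemma Rs_Zp_le {y : K} (hy : y ≠ 0) : Rs (Zp y) ≤ logHeight₁ y := by
  classical
  rw [← logHeight₁_inv, NumberField.logHeight₁_eq]
  have hfin : (Function.support fun w : FinitePlace K => log⁺ (w y⁻¹)).Finite := by
    have h := FinitePlace.hasFiniteMulSupport (inv_ne_zero hy)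
    refine Set.Finite.subset h ?_
    intro w hw
    simp only [Function.mem_support, ne_eq] at hw
    simp only [Function.mem_mulSupport, ne_eq]
    intro h1
    apply hw
    rw [h1]; simp
  have h1 : ∑ᶠ w : FinitePlace K, log⁺ (w y⁻¹) =
      ∑ᶠ p : HeightOneSpectrum (𝓞 K), log⁺ (av p y⁻¹) := by
    rw [← finsum_comp_equiv (FinitePlace.equivHeightOneSpectrum (K := K)).symm]
    rfl
  have h2 : Rs (Zp y) ≤ ∑ᶠ p : HeightOneSpectrum (𝓞 K), log⁺ (av p y⁻¹) := by
    have hfin2 : (Function.support fun p : HeightOneSpectrum (𝓞 K) => log⁺ (av p y⁻¹)).Finite := by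
      refine (finite_av_ne_one (inv_ne_zero hy)).subset ?_
      intro p hp
      simp only [Function.mem_support, ne_eq] at hp
      simp only [Set.mem_ofPred_eq, ne_eq]
      intro h1
      apply hp
      rw [h1]; simp
    rw [Rs, finsum_mem_eq_finite_toFinset_sum _ (finite_Zp hy), finsum_eq_sum_of_support_subset
      (s := (finite_Zp hy).toFinset ∪ hfin2.toFinset)]
    · refine le_trans ?_ (Finset.sum_le_sum_of_subset_of_nonneg Finset.subset_union_left ?_)
      · apply Finset.sum_le_sum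
        intro p hp
        have hp' : av p y < 1 := by simpa [Zp] using hp
        refine (lN_le_of_av_lt_one p hy hp').trans ?_
        exact le_max_right _ _
      · intro p _ _
        exact posLog_nonneg
    · intro p hp
      simp only [Finset.coe_union, Set.Finite.coe_toFinset, Set.mem_union]
      right
      exact hp
  have h3 : 0 ≤ ∑ v : InfinitePlace K, (v.mult : ℝ) * log⁺ (v y⁻¹) :=
    Finset.sum_nonneg fun v _ => mul_nonneg (by positivity) posLog_nonneg
  rw [h1]
  linarith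


/-- bad primes of an affine parameter -/
def Ip (x : K) : Set (HeightOneSpectrum (𝓞 K)) := badPrimes x (1 - x) (-1)

lemma mem_Ip (x : K) (p : HeightOneSpectrum (𝓞 K)) :
    p ∈ Ip x ↔ ¬ (av p x = 1 ∧ av p (1 - x) = 1) := by
  rw [Ip, mem_badPrimes_iff, av_neg, av_one]
  constructor
  · rintro h ⟨h1, h2⟩
    exact h ⟨by rw [h1, h2], h2⟩
  · rintro h ⟨h1, h2⟩
    exact h ⟨by rw [h1, h2], h2⟩

lemma finite_Ip {x : K} (h0 : x ≠ 0) (h1 : x ≠ 1) : (Ip x).Finite :=
  finite_badPrimes h0 (sub_ne_zero.mpr (Ne.symm h1)) (by simp)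

lemma affine_ne_zero {a c : K} (ha : a ≠ 0) (hc : c ≠ 0) : -a / c ≠ 0 :=
  div_ne_zero (neg_ne_zero.mpr ha) hc

lemma affine_ne_one {a b c : K} (hb : b ≠ 0) (hc : c ≠ 0) (h : a + b + c = 0) : -a / c ≠ 1 := by
  intro h1
  rw [div_eq_one_iff_eq hc] at h1
  apply hb
  linear_combination h + h1

lemma badPrimes_affine {a b c : K} (hc : c ≠ 0) (h : a + b + c = 0) :
    badPrimes a b c = Ip (-a / c) := by
  have ht : (-1 / c : K) ≠ 0 := div_ne_zero (by simp) hc
  rw [← badPrimes_smul (-1 / c) a b c ht, Ip]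
  have h1 : -1 / c * a = -a / c := by ring
  have h2 : -1 / c * b = 1 - -a / c := by
    field_simp
    linear_combination -h
  have h3 : -1 / c * c = -1 := by field_simp
  rw [h1, h2, h3]

lemma rad_affine {a b c : K} (hc : c ≠ 0) (h : a + b + c = 0) :
    rad a b c = Rs (Ip (-a / c)) / (Module.finrank ℚ K : ℝ) := by
  rw [rad_eq, badPrimes_affine hc h]

lemma logHeight_affine {a b c : K} (hc : c ≠ 0) (h : a + b + c = 0) :
    logHeight ![a, b, c] = logHeight ![-a / c, 1 - -a / c, -1] := by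
  have ht : (-1 / c : K) ≠ 0 := div_ne_zero (by simp) hc
  rw [← logHeight_smul_eq_logHeight ![a, b, c] ht]
  congr 1
  have h1 : -1 / c * a = -a / c := by ring
  have h2 : -1 / c * b = 1 - -a / c := by
    field_simp
    linear_combination -h
  have h3 : -1 / c * c = -1 := by field_simp
  ext i
  fin_cases i
  · simpa using h1
  · simpa using h2
  · simpa using h3

lemma logHeight₁_le_triple (x : K) : logHeight₁ x ≤ logHeight ![x, 1 - x, -1] := by
  rw [← logHeight₁_neg, show -x = x / (-1) by ring, logHeight₁_div_eq_logHeight]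
  have : (![x, -1] : Fin 2 → K) = ![x, 1 - x, -1] ∘ ![0, 2] := by
    ext i; fin_cases i <;> simp
  rw [this]
  exact logHeight_comp_le _ _

variable (K) in
lemma triple_le_logHeight₁ : ∃ C : ℝ, 0 ≤ C ∧ ∀ x : K,
    logHeight ![x, 1 - x, -1] ≤ logHeight₁ x + C := by
  let A : Fin 3 × Fin 2 → K := fun ij => ![![1, 0], ![-1, 1], ![0, -1]] ij.1 ij.2
  refine ⟨totalWeight K * Real.log 2 + logHeight A, by positivity, fun x => ?_⟩
  have h := logHeight_linearMap_apply_le A ![x, 1]
  have h2 : (fun j => ∑ i, A (j, i) * (![x, 1] : Fin 2 → K) i) = ![x, 1 - x, -1] := by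
    ext j; fin_cases j <;> simp [A, Fin.sum_univ_two] <;> ring
  rw [h2] at h
  rw [logHeight₁_eq_logHeight]
  simp at h
  linarith

lemma finrank_pos' : (0 : ℝ) < Module.finrank ℚ K := by
  exact_mod_cast Module.finrank_pos

/-- abc in affine form on a set of parameters -/
def AffABC (K : Type*) [Field K] [NumberField K] (S : Set K) : Prop :=
  ∀ ε : ℝ, 0 < ε → ∃ C : ℝ, ∀ x ∈ S, x ≠ 0 → x ≠ 1 → logHeight₁ x ≤ (1 + ε) * Rs (Ip x) + C

/-- The relation between the projective and the affine form. -/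
lemma ABCOn_iff_AffABC (S : Set K) (P : K → K → K → Prop)
    (hP : ∀ a b c : K, a + b + c = 0 → a * b * c ≠ 0 → (P a b c ↔ -a / c ∈ S)) :
    ABCOn K P ↔ AffABC K S := by
  have hd : (0 : ℝ) < Module.finrank ℚ K := finrank_pos'
  constructor
  · intro H ε hε
    obtain ⟨C, hC⟩ := H ε hε
    refine ⟨Module.finrank ℚ K * C, fun x hxS hx0 hx1 => ?_⟩
    have hx1' : 1 - x ≠ 0 := sub_ne_zero.mpr (Ne.symm hx1)
    have hsum : x + (1 - x) + (-1) = 0 := by ring
    have hne : x * (1 - x) * (-1) ≠ 0 := by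
      simp [hx0, hx1']
    have hxx : -x / (-1) = x := by ring
    have h := hC x (1 - x) (-1) hsum hne ((hP _ _ _ hsum hne).mpr (by rwa [hxx]))
    rw [rad_affine (by simp) hsum, hxx, ht] at h
    have h2 := logHeight₁_le_triple x
    rw [div_lt_iff₀ hd] at h
    have h3 : ((1 + ε) * (Rs (Ip x) / (Module.finrank ℚ K : ℝ)) + C) * (Module.finrank ℚ K : ℝ) =
        (1 + ε) * Rs (Ip x) + Module.finrank ℚ K * C := by
      field_simp
    rw [h3] at h
    linarith
  · intro H ε hε
    obtain ⟨C, hC⟩ := H ε hε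
    obtain ⟨C1, hC1, hC1'⟩ := triple_le_logHeight₁ K
    refine ⟨(C + C1) / (Module.finrank ℚ K : ℝ) + 1, fun a b c hsum hne hp => ?_⟩
    have ha : a ≠ 0 := by rintro rfl; simp at hne
    have hb : b ≠ 0 := by rintro rfl; simp at hne
    have hc : c ≠ 0 := by rintro rfl; simp at hne
    have h := hC (-a / c) ((hP _ _ _ hsum hne).mp hp) (affine_ne_zero ha hc)
      (affine_ne_one hb hc hsum)
    have h2 := hC1' (-a / c)
    rw [rad_affine hc hsum, ht, logHeight_affine hc hsum, div_lt_iff₀ hd]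
    have h3 : ((1 + ε) * (Rs (Ip (-a / c)) / (Module.finrank ℚ K : ℝ)) +
        ((C + C1) / (Module.finrank ℚ K : ℝ) + 1)) * (Module.finrank ℚ K : ℝ) =
        (1 + ε) * Rs (Ip (-a / c)) + C + C1 + Module.finrank ℚ K := by
      field_simp
      ring
    rw [h3]
    linarith

lemma ABC_iff_AffABC : ABC K ↔ AffABC K Set.univ := by
  rw [← ABCOn_iff_AffABC Set.univ (fun _ _ _ => True) (by simp)]
  simp [ABC, ABCOn]

end Pool.Agent.Work.MP_a793bb_nt
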