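import Mathlib

set_option autoImplicit false

/-!
Definitions for the abc conjecture over number fields.
-/

namespace Pool.Agent.Work.MP_a793bb_nt

open NumberField IsDedekindDomain

section
variable {K : Type*} [Field K] [NumberField K]

/-- The normalised logarithmic height `h(a : b : c)` of a point of the projective plane over the
number field `K`: Mathlib's logarithmic height (the sum over all places of `K` of the logarithm of
the largest normalised absolute value) divided by the degree of `K`. -/
noncomputable def ht (a b c : K) : ℝ :=
  Height.logHeight ![a, b, c] / (Module.finrank ℚ K : ℝ)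

/-- The set `I_K(a : b : c)` of nonzero prime ideals at which the three valuations are not all
equal. -/
def badPrimes (a b c : K) : Set (HeightOneSpectrum (𝓞 K)) :=
  {p | ¬ (p.valuation K a = p.valuation K b ∧ p.valuation K b = p.valuation K c)}

/-- The normalised logarithmic radical `rad(a : b : c)`. -/
noncomputable def rad (a b c : K) : ℝ :=
  (∑ᶠ (p : HeightOneSpectrum (𝓞 K)) (_ : p ∈ badPrimes a b c),
    Real.log (Ideal.absNorm p.asIdeal)) / (Module.finrank ℚ K : ℝ)

end

/-- The abc inequality over `K` (all `ε > 0`), restricted to the points `(a : b : c)` with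
`a + b + c = 0`, `abc ≠ 0` that satisfy the condition `S`. -/
def ABCOn (K : Type*) [Field K] [NumberField K] (S : K → K → K → Prop) : Prop :=
  ∀ ε : ℝ, 0 < ε → ∃ C : ℝ, ∀ a b c : K, a + b + c = 0 → a * b * c ≠ 0 → S a b c →
    ht a b c < (1 + ε) * rad a b c + C

/-- The abc conjecture for the number field `K`. -/
def ABC (K : Type*) [Field K] [NumberField K] : Prop :=
  ∀ ε : ℝ, 0 < ε → ∃ C : ℝ, ∀ a b c : K, a + b + c = 0 → a * b * c ≠ 0 →
    ht a b c < (1 + ε) * rad a b c + C

end Pool.Agent.Work.MP_a793bb_nt
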