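import Mathlib

set_option autoImplicit false
set_option linter.unusedVariables false
set_option maxRecDepth 100000

namespace Pool.Agent.Work.MP_a793bb_nt.BPlus

lemma lpsplit (k L x : ℝ) (h : k < L + max 0 x) :
    (x ≤ 0 ∧ k < L) ∨ (0 ≤ x ∧ k < L + x) := by
  rcases le_total x 0 with h1 | h1
  · left; rw [max_eq_left h1] at h; exact ⟨h1, by linarith⟩
  · right; rw [max_eq_right h1] at h; exact ⟨h1, h⟩

lemma lp_core (a1 a2 a3 a4 a5 b1 b2 b3 b4 b5 c1 c2 c3 c4 c5 L : ℝ)
    (h1L : 1 ≤ L)
    (na1 : 0 ≤ a1)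
    (na2 : 0 ≤ a2)
    (na3 : 0 ≤ a3)
    (na4 : 0 ≤ a4)
    (na5 : 0 ≤ a5)
    (nb1 : 0 ≤ b1)
    (nb2 : 0 ≤ b2)
    (nb3 : 0 ≤ b3)
    (nb4 : 0 ≤ b4)
    (nb5 : 0 ≤ b5)
    (nc1 : 0 ≤ c1)
    (nc2 : 0 ≤ c2)
    (nc3 : 0 ≤ c3)
    (nc4 : 0 ≤ c4)
    (nc5 : 0 ≤ c5)
    (hA : a1 + 2*a2 + 3*a3 + 4*a4 + 5*a5 ≤ 1)
    (hB : b1 + 2*b2 + 3*b3 + 4*b4 + 5*b5 ≤ 1)
    (hC : c1 + 2*c2 + 3*c3 + 4*c4 + 5*c5 ≤ 1)
    (hL : a1 + a2 + a3 + a4 + a5 + b1 + b2 + b3 + b4 + b5 + c1 + c2 + c3 + c4 + c5 ≤ L)
    (T0 : (93*L - 13)/133 < b1 + b2 + b3 + b4 + b5 + c1 + c2 + c3 + c4 + c5)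
    (T1 : (93*L - 13)/133 < a1 + a2 + a3 + a4 + a5 + c1 + c2 + c3 + c4 + c5)
    (T2 : (93*L - 13)/133 < a1 + a2 + a3 + a4 + a5 + b1 + b2 + b3 + b4 + b5)
    (H0 : (93*L - 13)/133 < (a2 + a3 + a4 + a5 + b2 + b3 + b4 + b5 + c2 + c3 + c4 + c5) + max 0 (a1 + b1 + c1 - 1))
    (H1 : (93*L - 13)/133 < (a1 + a3 + a5 + b2 + b3 + b4 + b5 + c1 + c3 + c5) + max 0 (a2 + 2*a4 + b1 + c2 + 2*c4 - 1))
    (H2 : (93*L - 13)/133 < (a1 + a3 + a5 + b1 + b3 + b5 + c2 + c3 + c4 + c5) + max 0 (a2 + 2*a4 + b2 + 2*b4 + c1 - 1))
    (H3 : (93*L - 13)/133 < (a2 + a3 + a4 + a5 + b1 + b3 + b5 + c1 + c3 + c5) + max 0 (a1 + b2 + 2*b4 + c2 + 2*c4 - 1))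
    (H4 : (93*L - 13)/133 < (a1 + a2 + a3 + a4 + a5 + b3 + b4 + b5 + c3 + c4 + c5) + max 0 (b1 + 2*b2 + c1 + 2*c2 - 1))
    (H5 : (93*L - 13)/133 < (a3 + a4 + a5 + b1 + b2 + b3 + b4 + b5 + c3 + c4 + c5) + max 0 (a1 + 2*a2 + c1 + 2*c2 - 1))
    (H6 : (93*L - 13)/133 < (a2 + a3 + a4 + a5 + b4 + b5 + c2 + c3 + c4 + c5) + max 0 (a1 + b1 + 2*b2 + 3*b3 + c1 - 1))
    (H7 : (93*L - 13)/133 < (a3 + a5 + b1 + b2 + b4 + b5 + c1 + c2 + c4 + c5) + max 0 (a1 + 2*a2 + 4*a4 + b3 + c3 - 1))
    (H8 : (93*L - 13)/133 < (a1 + a2 + a3 + a4 + a5 + b2 + b3 + b4 + b5 + c2 + c4 + c5) + max 0 (b1 + c1 + 3*c3 - 1))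
    (H9 : (93*L - 13)/133 < (a3 + a4 + a5 + b2 + b3 + b4 + b5 + c4 + c5) + max 0 (a1 + 2*a2 + b1 + c1 + 2*c2 + 3*c3 - 1))
    (H10 : (93*L - 13)/133 < (a2 + a4 + a5 + b2 + b3 + b4 + b5 + c2 + c4 + c5) + max 0 (a1 + 3*a3 + b1 + c1 + 3*c3 - 1))
    (H11 : (93*L - 13)/133 < (a1 + a2 + a4 + a5 + b1 + b2 + b4 + b5 + c2 + c3 + c5) + max 0 (a3 + b3 + c1 + 4*c4 - 1))
    (H12 : (93*L - 13)/133 < (a2 + a3 + a4 + a5 + b2 + b4 + b5 + c3 + c4 + c5) + max 0 (a1 + b1 + 3*b3 + c1 + 2*c2 - 1))
    (H13 : (93*L - 13)/133 < (a1 + a3 + a5 + b4 + b5 + c1 + c3 + c5) + max 0 (a2 + 2*a4 + b1 + 2*b2 + 3*b3 + c2 + 2*c4 - 1))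
    (H14 : (93*L - 13)/133 < (a4 + a5 + b1 + b3 + b5 + c1 + c3 + c5) + max 0 (a1 + 2*a2 + 3*a3 + b2 + 2*b4 + c2 + 2*c4 - 1))
    (H15 : (93*L - 13)/133 < (a1 + a4 + a5 + b3 + b4 + b5 + c2 + c3 + c4 + c5) + max 0 (2*a2 + 3*a3 + b1 + 2*b2 + c1 - 1))
    (H16 : (93*L - 13)/133 < (a4 + a5 + b1 + b3 + b4 + b5 + c4 + c5) + max 0 (a1 + 2*a2 + 3*a3 + 2*b2 + c1 + 2*c2 + 3*c3 - 1))
    (H17 : (93*L - 13)/133 < (a2 + a3 + a5 + b3 + b4 + b5 + c4 + c5) + max 0 (a1 + 4*a4 + b1 + 2*b2 + c1 + 2*c2 + 3*c3 - 1))
    (H18 : (93*L - 13)/133 < (a4 + a5 + b2 + b4 + b5 + c2 + c3 + c4 + c5) + max 0 (a1 + 2*a2 + 3*a3 + b1 + 3*b3 + c1 - 1))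
    (H19 : (93*L - 13)/133 < (a3 + a5 + b2 + b4 + b5 + c2 + c3 + c4 + c5) + max 0 (a1 + 2*a2 + 4*a4 + b1 + 3*b3 + c1 - 1))
    (H20 : (93*L - 13)/133 < (a3 + a4 + a5 + b2 + b4 + b5 + c2 + c4 + c5) + max 0 (a1 + 2*a2 + b1 + 3*b3 + c1 + 3*c3 - 1))
    (H21 : (93*L - 13)/133 < (a2 + a4 + a5 + b3 + b5 + c3 + c4 + c5) + max 0 (a1 + 3*a3 + b1 + 2*b2 + 4*b4 + c1 + 2*c2 - 1))
    (H22 : (93*L - 13)/133 < (a2 + a4 + a5 + b4 + b5 + c4 + c5) + max 0 (a1 + 3*a3 + b1 + 2*b2 + 3*b3 + c1 + 2*c2 + 3*c3 - 1))
    (H23 : (93*L - 13)/133 < (a2 + a3 + a4 + a5 + b4 + b5 + c4 + c5) + max 0 (a1 + b1 + 2*b2 + 3*b3 + c1 + 2*c2 + 3*c3 - 1))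
    (H24 : (93*L - 13)/133 < (a1 + a3 + a5 + b1 + b3 + b5 + c4 + c5) + max 0 (a2 + 2*a4 + b2 + 2*b4 + c1 + 2*c2 + 3*c3 - 1))
    (H25 : (93*L - 13)/133 < (a1 + a2 + a4 + a5 + b1 + b2 + b4 + b5 + c4 + c5) + max 0 (a3 + b3 + c1 + 2*c2 + 3*c3 - 1))
    (H26 : (93*L - 13)/133 < (a2 + a4 + a5 + b3 + b4 + b5 + c3 + c4 + c5) + max 0 (a1 + 3*a3 + b1 + 2*b2 + c1 + 2*c2 - 1))
    (H27 : (93*L - 13)/133 < (a1 + a2 + a4 + a5 + b5 + c1 + c2 + c4 + c5) + max 0 (a3 + b1 + 2*b2 + 3*b3 + 4*b4 + c3 - 1))
    (H28 : (93*L - 13)/133 < (a1 + a2 + a4 + a5 + b4 + b5 + c1 + c2 + c4 + c5) + max 0 (a3 + b1 + 2*b2 + 3*b3 + c3 - 1))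
    (H29 : (93*L - 13)/133 < (a4 + a5 + b1 + b3 + b4 + b5 + c1 + c3 + c5) + max 0 (a1 + 2*a2 + 3*a3 + b2 + c2 + 2*c4 - 1))
    (H30 : (93*L - 13)/133 < (a4 + a5 + b2 + b3 + b4 + b5 + c2 + c3 + c4 + c5) + max 0 (a1 + 2*a2 + 3*a3 + b1 + c1 - 1))
    (H31 : (93*L - 13)/133 < (a1 + a2 + a4 + a5 + b2 + b3 + b5 + c1 + c2 + c4 + c5) + max 0 (a3 + b1 + 4*b4 + c3 - 1))
    (H32 : (93*L - 13)/133 < (a1 + a3 + a4 + a5 + b2 + b4 + b5 + c2 + c3 + c4 + c5) + max 0 (2*a2 + b1 + 3*b3 + c1 - 1))
    (H33 : (93*L - 13)/133 < (a1 + a3 + a5 + b1 + b3 + b5 + c3 + c4 + c5) + max 0 (a2 + 2*a4 + b2 + 2*b4 + c1 + 2*c2 - 1))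
    (H34 : (93*L - 13)/133 < (a1 + a2 + a4 + a5 + b1 + b4 + b5 + c1 + c2 + c4 + c5) + max 0 (a3 + 2*b2 + 3*b3 + c3 - 1))
    (H35 : (93*L - 13)/133 < (a1 + a2 + a4 + a5 + b1 + b2 + b4 + b5 + c3 + c5) + max 0 (a3 + b3 + c1 + 2*c2 + 4*c4 - 1))
    (H36 : (93*L - 13)/133 < (a3 + a4 + a5 + b3 + b4 + b5 + c2 + c3 + c5) + max 0 (a1 + 2*a2 + b1 + 2*b2 + c1 + 4*c4 - 1))
    (H37 : (93*L - 13)/133 < (a2 + a4 + a5 + b1 + b3 + b5 + c1 + c3 + c5) + max 0 (a1 + 3*a3 + b2 + 2*b4 + c2 + 2*c4 - 1))
    (H38 : (93*L - 13)/133 < (a1 + a3 + a4 + a5 + b4 + b5 + c4 + c5) + max 0 (2*a2 + b1 + 2*b2 + 3*b3 + c1 + 2*c2 + 3*c3 - 1))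
    (H39 : (93*L - 13)/133 < (a1 + a3 + a5 + b1 + b3 + b5 + c5) + max 0 (a2 + 2*a4 + b2 + 2*b4 + c1 + 2*c2 + 3*c3 + 4*c4 - 1))
    (H40 : (93*L - 13)/133 < (a1 + a2 + a4 + a5 + b3 + b5 + c1 + c2 + c4 + c5) + max 0 (a3 + b1 + 2*b2 + 4*b4 + c3 - 1))
    (H41 : (93*L - 13)/133 < (a3 + a4 + a5 + b1 + b3 + b5 + c1 + c3 + c5) + max 0 (a1 + 2*a2 + b2 + 2*b4 + c2 + 2*c4 - 1))
    (H42 : (93*L - 13)/133 < (a1 + a3 + a5 + b1 + b3 + b5 + c2 + c3 + c5) + max 0 (a2 + 2*a4 + b2 + 2*b4 + c1 + 4*c4 - 1))
    (H43 : (93*L - 13)/133 < (a4 + a5 + b1 + b3 + b5 + c1 + c3 + c4 + c5) + max 0 (a1 + 2*a2 + 3*a3 + b2 + 2*b4 + c2 - 1))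
    (H44 : (93*L - 13)/133 < (a4 + a5 + b2 + b3 + b4 + b5 + c2 + c4 + c5) + max 0 (a1 + 2*a2 + 3*a3 + b1 + c1 + 3*c3 - 1))
    (H45 : (93*L - 13)/133 < (a1 + a3 + a4 + a5 + b2 + b4 + b5 + c1 + c3 + c4 + c5) + max 0 (a2 + b1 + 3*b3 + c2 - 1))
    (H46 : (93*L - 13)/133 < (a1 + a2 + a4 + a5 + b1 + b2 + b4 + b5 + c1 + c4 + c5) + max 0 (a3 + b3 + 2*c2 + 3*c3 - 1))
    (H47 : (93*L - 13)/133 < (a1 + a3 + a5 + b3 + b4 + b5 + c1 + c3 + c5) + max 0 (a2 + 2*a4 + b1 + 2*b2 + c2 + 2*c4 - 1))
    (H48 : (93*L - 13)/133 < (a1 + a2 + a4 + a5 + b1 + b3 + b5 + c1 + c3 + c5) + max 0 (3*a3 + b2 + 2*b4 + c2 + 2*c4 - 1))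
    (H49 : (93*L - 13)/133 < (a5 + b1 + b3 + b5 + c1 + c3 + c5) + max 0 (a1 + 2*a2 + 3*a3 + 4*a4 + b2 + 2*b4 + c2 + 2*c4 - 1))
    (H50 : (93*L - 13)/133 < (a1 + a2 + a4 + a5 + b2 + b4 + b5 + c1 + c2 + c4 + c5) + max 0 (a3 + b1 + 3*b3 + c3 - 1))
    (H51 : (93*L - 13)/133 < (a1 + a2 + a4 + a5 + b1 + b2 + b4 + b5 + c3 + c4 + c5) + max 0 (a3 + b3 + c1 + 2*c2 - 1))
    (H52 : (93*L - 13)/133 < (a1 + a3 + a5 + b2 + b4 + b5 + c1 + c3 + c4 + c5) + max 0 (a2 + 2*a4 + b1 + 3*b3 + c2 - 1))
    (H53 : (93*L - 13)/133 < (a1 + a2 + a4 + a5 + b1 + b2 + b4 + b5 + c1 + c3 + c4 + c5) + max 0 (a3 + b3 + 2*c2 - 1))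
    (H54 : (93*L - 13)/133 < (a1 + a3 + a5 + b1 + b4 + b5 + c1 + c3 + c5) + max 0 (a2 + 2*a4 + 2*b2 + 3*b3 + c2 + 2*c4 - 1))
    (H55 : (93*L - 13)/133 < (a4 + a5 + b3 + b5 + c2 + c3 + c4 + c5) + max 0 (a1 + 2*a2 + 3*a3 + b1 + 2*b2 + 4*b4 + c1 - 1))
    (H56 : (93*L - 13)/133 < (a4 + a5 + b2 + b4 + b5 + c1 + c3 + c4 + c5) + max 0 (a1 + 2*a2 + 3*a3 + b1 + 3*b3 + 2*c2 - 1))
    (H57 : (93*L - 13)/133 < (a3 + a5 + b2 + b4 + b5 + c2 + c4 + c5) + max 0 (a1 + 2*a2 + 4*a4 + b1 + 3*b3 + c1 + 3*c3 - 1))
    (H58 : (93*L - 13)/133 < (a1 + a4 + a5 + b3 + b4 + b5 + c2 + c4 + c5) + max 0 (2*a2 + 3*a3 + b1 + 2*b2 + c1 + 3*c3 - 1))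
    (H59 : (93*L - 13)/133 < (a1 + a3 + a5 + b3 + b5 + c1 + c3 + c5) + max 0 (a2 + 2*a4 + b1 + 2*b2 + 4*b4 + c2 + 2*c4 - 1))
    (H60 : (93*L - 13)/133 < (a1 + a3 + a5 + b2 + b4 + b5 + c1 + c3 + c5) + max 0 (a2 + 2*a4 + b1 + 3*b3 + c2 + 2*c4 - 1))
    (H61 : (93*L - 13)/133 < (a3 + a4 + a5 + b4 + b5 + c2 + c3 + c4 + c5) + max 0 (a1 + 2*a2 + b1 + 2*b2 + 3*b3 + c1 - 1))
    (H62 : (93*L - 13)/133 < (a2 + a3 + a4 + a5 + b2 + b5 + c2 + c3 + c4 + c5) + max 0 (a1 + b1 + 3*b3 + 4*b4 + c1 - 1))
    (H63 : (93*L - 13)/133 < (a2 + a3 + a4 + a5 + b5 + c2 + c3 + c4 + c5) + max 0 (a1 + b1 + 2*b2 + 3*b3 + 4*b4 + c1 - 1))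
    (H64 : (93*L - 13)/133 < (a1 + a3 + a4 + a5 + b4 + b5 + c1 + c3 + c5) + max 0 (a2 + b1 + 2*b2 + 3*b3 + c2 + 2*c4 - 1))
    (H65 : (93*L - 13)/133 < (a2 + a4 + a5 + b2 + b4 + b5 + c2 + c3 + c4 + c5) + max 0 (a1 + 3*a3 + b1 + 3*b3 + c1 - 1))
    (H66 : (93*L - 13)/133 < (a1 + a2 + a4 + a5 + b3 + b4 + b5 + c1 + c2 + c4 + c5) + max 0 (a3 + b1 + 2*b2 + c3 - 1))
    (H67 : (93*L - 13)/133 < (a1 + a3 + a5 + b1 + b3 + b5 + c2 + c4 + c5) + max 0 (a2 + 2*a4 + b2 + 2*b4 + c1 + 3*c3 - 1))
    (H68 : (93*L - 13)/133 < (a2 + a3 + a5 + b3 + b4 + b5 + c2 + c4 + c5) + max 0 (a1 + 4*a4 + b1 + 2*b2 + c1 + 3*c3 - 1))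
    (H69 : (93*L - 13)/133 < (a4 + a5 + b3 + b4 + b5 + c2 + c3 + c4 + c5) + max 0 (a1 + 2*a2 + 3*a3 + b1 + 2*b2 + c1 - 1))
    (H70 : (93*L - 13)/133 < (a3 + a4 + a5 + b3 + b5 + c2 + c4 + c5) + max 0 (a1 + 2*a2 + b1 + 2*b2 + 4*b4 + c1 + 3*c3 - 1))
    (H71 : (93*L - 13)/133 < (a2 + a4 + a5 + b2 + b3 + b4 + b5 + c2 + c3 + c4 + c5) + max 0 (a1 + 3*a3 + b1 + c1 - 1))
    (H72 : (93*L - 13)/133 < (a3 + a5 + b1 + b3 + b5 + c1 + c3 + c5) + max 0 (a1 + 2*a2 + 4*a4 + b2 + 2*b4 + c2 + 2*c4 - 1))
    (H73 : (93*L - 13)/133 < (a4 + a5 + b2 + b3 + b4 + b5 + c3 + c4 + c5) + max 0 (a1 + 2*a2 + 3*a3 + b1 + c1 + 2*c2 - 1))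
    (H74 : (93*L - 13)/133 < (a2 + a4 + a5 + b4 + b5 + c2 + c3 + c5) + max 0 (a1 + 3*a3 + b1 + 2*b2 + 3*b3 + c1 + 4*c4 - 1))
    (H75 : (93*L - 13)/133 < (a1 + a3 + a4 + a5 + b1 + b3 + b5 + c2 + c4 + c5) + max 0 (a2 + b2 + 2*b4 + c1 + 3*c3 - 1))
    (H76 : (93*L - 13)/133 < (a1 + a2 + a4 + a5 + b1 + b2 + b4 + b5 + c2 + c5) + max 0 (a3 + b3 + c1 + 3*c3 + 4*c4 - 1))
    (H77 : (93*L - 13)/133 < (a1 + a2 + a4 + a5 + b1 + b3 + b4 + b5 + c1 + c2 + c4 + c5) + max 0 (a3 + 2*b2 + c3 - 1))
    (H78 : (93*L - 13)/133 < (a4 + a5 + b2 + b3 + b4 + b5 + c1 + c3 + c4 + c5) + max 0 (a1 + 2*a2 + 3*a3 + b1 + 2*c2 - 1))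
    (H79 : (93*L - 13)/133 < (a3 + a4 + a5 + b3 + b4 + b5 + c1 + c3 + c4 + c5) + max 0 (a1 + 2*a2 + b1 + 2*b2 + 2*c2 - 1))
    (H80 : (93*L - 13)/133 < (a2 + a3 + a4 + a5 + b2 + b3 + b4 + b5 + c1 + c2 + c4 + c5) + max 0 (a1 + b1 + 3*c3 - 1))
    (H81 : (93*L - 13)/133 < (a4 + a5 + b3 + b5 + c3 + c4 + c5) + max 0 (a1 + 2*a2 + 3*a3 + b1 + 2*b2 + 4*b4 + c1 + 2*c2 - 1))
    (H82 : (93*L - 13)/133 < (a1 + a2 + a4 + a5 + b2 + b5 + c1 + c2 + c4 + c5) + max 0 (a3 + b1 + 3*b3 + 4*b4 + c3 - 1))
    (H83 : (93*L - 13)/133 < (a2 + a3 + a4 + a5 + b2 + b3 + b4 + b5 + c2 + c4 + c5) + max 0 (a1 + b1 + c1 + 3*c3 - 1))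
    (H84 : (93*L - 13)/133 < (a2 + a3 + a4 + a5 + b4 + b5 + c3 + c4 + c5) + max 0 (a1 + b1 + 2*b2 + 3*b3 + c1 + 2*c2 - 1))
    (H85 : (93*L - 13)/133 < (a2 + a3 + a4 + a5 + b2 + b3 + b4 + b5 + c4 + c5) + max 0 (a1 + b1 + c1 + 2*c2 + 3*c3 - 1))
    (H86 : (93*L - 13)/133 < (a4 + a5 + b1 + b2 + b4 + b5 + c1 + c2 + c4 + c5) + max 0 (a1 + 2*a2 + 3*a3 + b3 + c3 - 1))
    (H87 : (93*L - 13)/133 < (a1 + a3 + a4 + a5 + b2 + b3 + b4 + b5 + c2 + c3 + c4 + c5) + max 0 (2*a2 + b1 + c1 - 1))
    (H88 : (93*L - 13)/133 < (a3 + a4 + a5 + b2 + b4 + b5 + c3 + c4 + c5) + max 0 (a1 + 2*a2 + b1 + 3*b3 + c1 + 2*c2 - 1))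
    (H89 : (93*L - 13)/133 < (a3 + a4 + a5 + b2 + b4 + b5 + c1 + c2 + c4 + c5) + max 0 (a1 + 2*a2 + b1 + 3*b3 + 3*c3 - 1))
    (H90 : (93*L - 13)/133 < (a1 + a3 + a5 + b1 + b3 + b5 + c3 + c5) + max 0 (a2 + 2*a4 + b2 + 2*b4 + c1 + 2*c2 + 4*c4 - 1))
    (H91 : (93*L - 13)/133 < (a1 + a2 + a4 + a5 + b1 + b2 + b3 + b4 + b5 + c1 + c2 + c4 + c5) + max 0 (a3 + c3 - 1))
    (H92 : (93*L - 13)/133 < (a1 + a2 + a4 + a5 + b2 + b3 + b4 + b5 + c1 + c2 + c4 + c5) + max 0 (a3 + b1 + c3 - 1))
    (H93 : (93*L - 13)/133 < (a1 + a3 + a4 + a5 + b1 + b2 + b4 + b5 + c1 + c2 + c4 + c5) + max 0 (2*a2 + b3 + c3 - 1))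
    (H94 : (93*L - 13)/133 < (a3 + a4 + a5 + b2 + b3 + b4 + b5 + c2 + c3 + c4 + c5) + max 0 (a1 + 2*a2 + b1 + c1 - 1))
    (H95 : (93*L - 13)/133 < (a2 + a3 + a4 + a5 + b2 + b4 + b5 + c1 + c2 + c4 + c5) + max 0 (a1 + b1 + 3*b3 + 3*c3 - 1))
    (H96 : (93*L - 13)/133 < (a2 + a4 + a5 + b1 + b2 + b4 + b5 + c1 + c2 + c4 + c5) + max 0 (a1 + 3*a3 + b3 + c3 - 1))
    (H97 : (93*L - 13)/133 < (a2 + a3 + a5 + b1 + b2 + b4 + b5 + c1 + c2 + c4 + c5) + max 0 (a1 + 4*a4 + b3 + c3 - 1))
    (H98 : (93*L - 13)/133 < (a2 + a3 + a4 + a5 + b1 + b2 + b3 + b4 + b5 + c2 + c4 + c5) + max 0 (a1 + c1 + 3*c3 - 1))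
    (H99 : (93*L - 13)/133 < (a2 + a3 + a4 + a5 + b1 + b2 + b4 + b5 + c1 + c2 + c4 + c5) + max 0 (a1 + b3 + c3 - 1))
    (H100 : (93*L - 13)/133 < (a1 + a3 + a5 + b1 + b3 + b5 + c1 + c4 + c5) + max 0 (a2 + 2*a4 + b2 + 2*b4 + 2*c2 + 3*c3 - 1))
    (H101 : (93*L - 13)/133 < (a2 + a4 + a5 + b1 + b4 + b5 + c2 + c4 + c5) + max 0 (a1 + 3*a3 + 2*b2 + 3*b3 + c1 + 3*c3 - 1))
    (H102 : (93*L - 13)/133 < (a3 + a4 + a5 + b1 + b2 + b4 + b5 + c3 + c4 + c5) + max 0 (a1 + 2*a2 + 3*b3 + c1 + 2*c2 - 1))
    (H103 : (93*L - 13)/133 < (a1 + a3 + a5 + b4 + b5 + c1 + c3 + c4 + c5) + max 0 (a2 + 2*a4 + b1 + 2*b2 + 3*b3 + c2 - 1))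
    (H104 : (93*L - 13)/133 < (a2 + a3 + a4 + a5 + b2 + b4 + b5 + c1 + c3 + c4 + c5) + max 0 (a1 + b1 + 3*b3 + 2*c2 - 1))
    (H105 : (93*L - 13)/133 < (a2 + a3 + a4 + a5 + b3 + b4 + b5 + c4 + c5) + max 0 (a1 + b1 + 2*b2 + c1 + 2*c2 + 3*c3 - 1))
    (H106 : (93*L - 13)/133 < (a1 + a3 + a5 + b1 + b3 + b5 + c1 + c3 + c5) + max 0 (a2 + 2*a4 + b2 + 2*b4 + 2*c2 + 4*c4 - 1))
    (H107 : (93*L - 13)/133 < (a2 + a4 + a5 + b2 + b3 + b4 + b5 + c5) + max 0 (a1 + 3*a3 + b1 + c1 + 2*c2 + 3*c3 + 4*c4 - 1))
    (H108 : (93*L - 13)/133 < (a3 + a4 + a5 + b4 + b5 + c3 + c5) + max 0 (a1 + 2*a2 + b1 + 2*b2 + 3*b3 + c1 + 2*c2 + 4*c4 - 1))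
    (H109 : (93*L - 13)/133 < (a2 + a4 + a5 + b2 + b4 + b5 + c3 + c4 + c5) + max 0 (a1 + 3*a3 + b1 + 3*b3 + c1 + 2*c2 - 1))
    (H110 : (93*L - 13)/133 < (a1 + a3 + a5 + b1 + b3 + b4 + b5 + c4 + c5) + max 0 (a2 + 2*a4 + b2 + c1 + 2*c2 + 3*c3 - 1))
    (H111 : (93*L - 13)/133 < (a2 + a3 + a4 + a5 + b2 + b4 + b5 + c2 + c4 + c5) + max 0 (a1 + b1 + 3*b3 + c1 + 3*c3 - 1))
    (H112 : (93*L - 13)/133 < (a3 + a4 + a5 + b1 + b2 + b4 + b5 + c1 + c2 + c4 + c5) + max 0 (a1 + 2*a2 + b3 + c3 - 1))
    (H113 : (93*L - 13)/133 < (a1 + a3 + a5 + b1 + b3 + b4 + b5 + c1 + c3 + c5) + max 0 (a2 + 2*a4 + 2*b2 + c2 + 2*c4 - 1))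
    (H114 : (93*L - 13)/133 < (a1 + a4 + a5 + b1 + b2 + b4 + b5 + c1 + c2 + c4 + c5) + max 0 (2*a2 + 3*a3 + b3 + c3 - 1))
    (H115 : (93*L - 13)/133 < (a3 + a4 + a5 + b1 + b3 + b4 + b5 + c4 + c5) + max 0 (a1 + 2*a2 + 2*b2 + c1 + 2*c2 + 3*c3 - 1))
    (H116 : (93*L - 13)/133 < (a5 + b1 + b2 + b4 + b5 + c1 + c2 + c4 + c5) + max 0 (a1 + 2*a2 + 3*a3 + 4*a4 + b3 + c3 - 1))
    (H117 : (93*L - 13)/133 < (a2 + a3 + a4 + a5 + b3 + b4 + b5 + c3 + c5) + max 0 (a1 + b1 + 2*b2 + c1 + 2*c2 + 4*c4 - 1))
    (H118 : (93*L - 13)/133 < (a2 + a3 + a4 + a5 + b1 + b2 + b4 + b5 + c2 + c3 + c4 + c5) + max 0 (a1 + 3*b3 + c1 - 1))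
    (H119 : (93*L - 13)/133 < (a3 + a4 + a5 + b3 + b4 + b5 + c3 + c5) + max 0 (a1 + 2*a2 + b1 + 2*b2 + c1 + 2*c2 + 4*c4 - 1))
    (H120 : (93*L - 13)/133 < (a4 + a5 + b1 + b3 + b4 + b5 + c3 + c4 + c5) + max 0 (a1 + 2*a2 + 3*a3 + 2*b2 + c1 + 2*c2 - 1))
    (H121 : (93*L - 13)/133 < (a3 + a4 + a5 + b1 + b3 + b4 + b5 + c3 + c4 + c5) + max 0 (a1 + 2*a2 + 2*b2 + c1 + 2*c2 - 1))
    (H122 : (93*L - 13)/133 < (a1 + a3 + a4 + a5 + b1 + b3 + b5 + c1 + c3 + c5) + max 0 (2*a2 + b2 + 2*b4 + c2 + 2*c4 - 1))
    (H123 : (93*L - 13)/133 < (a1 + a2 + a3 + a4 + a5 + b1 + b2 + b4 + b5 + c2 + c3 + c4 + c5) + max 0 (3*b3 + c1 - 1))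
    (H124 : (93*L - 13)/133 < (a1 + a2 + a3 + a4 + a5 + b2 + b4 + b5 + c2 + c3 + c4 + c5) + max 0 (b1 + 3*b3 + c1 - 1))
    (H125 : (93*L - 13)/133 < (a2 + a3 + a4 + a5 + b2 + b4 + b5 + c2 + c3 + c4 + c5) + max 0 (a1 + b1 + 3*b3 + c1 - 1))
    (H126 : (93*L - 13)/133 < (a1 + a4 + a5 + b1 + b3 + b5 + c1 + c3 + c5) + max 0 (2*a2 + 3*a3 + b2 + 2*b4 + c2 + 2*c4 - 1))
    (H127 : (93*L - 13)/133 < (a1 + a2 + a4 + a5 + b1 + b2 + b4 + b5 + c2 + c3 + c4 + c5) + max 0 (a3 + b3 + c1 - 1))
    (H128 : (93*L - 13)/133 < (a3 + a4 + a5 + b3 + b4 + b5 + c2 + c3 + c4 + c5) + max 0 (a1 + 2*a2 + b1 + 2*b2 + c1 - 1))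
    (H129 : (93*L - 13)/133 < (a2 + a3 + a4 + a5 + b3 + b4 + b5 + c2 + c4 + c5) + max 0 (a1 + b1 + 2*b2 + c1 + 3*c3 - 1))
    (H130 : (93*L - 13)/133 < (a2 + a3 + a4 + a5 + b2 + b4 + b5 + c1 + c2 + c3 + c4 + c5) + max 0 (a1 + b1 + 3*b3 - 1))
    (H131 : (93*L - 13)/133 < (a1 + a2 + a4 + a5 + b1 + b2 + b4 + b5 + c1 + c2 + c3 + c4 + c5) + max 0 (a3 + b3 - 1))
    (H132 : (93*L - 13)/133 < (a1 + a2 + a4 + a5 + b1 + b2 + b4 + b5 + c2 + c4 + c5) + max 0 (a3 + b3 + c1 + 3*c3 - 1))
    : False := by
  rcases lpsplit _ _ _ H0 with ⟨p0, q0⟩ | ⟨p0, q0⟩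
  · rcases lpsplit _ _ _ H1 with ⟨p1, q1⟩ | ⟨p1, q1⟩
    · rcases lpsplit _ _ _ H2 with ⟨p2, q2⟩ | ⟨p2, q2⟩
      · rcases lpsplit _ _ _ H3 with ⟨p3, q3⟩ | ⟨p3, q3⟩
        · rcases lpsplit _ _ _ H4 with ⟨p4, q4⟩ | ⟨p4, q4⟩
          · rcases lpsplit _ _ _ H5 with ⟨p5, q5⟩ | ⟨p5, q5⟩
            · rcases lpsplit _ _ _ H6 with ⟨p6, q6⟩ | ⟨p6, q6⟩
              · rcases lpsplit _ _ _ H7 with ⟨p7, q7⟩ | ⟨p7, q7⟩
                · rcases lpsplit _ _ _ H8 with ⟨p8, q8⟩ | ⟨p8, q8⟩
                  · rcases lpsplit _ _ _ H9 with ⟨p9, q9⟩ | ⟨p9, q9⟩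
                    · rcases lpsplit _ _ _ H10 with ⟨p10, q10⟩ | ⟨p10, q10⟩
                      · rcases lpsplit _ _ _ H11 with ⟨p11, q11⟩ | ⟨p11, q11⟩
                        · rcases lpsplit _ _ _ H12 with ⟨p12, q12⟩ | ⟨p12, q12⟩
                          · rcases lpsplit _ _ _ H13 with ⟨p13, q13⟩ | ⟨p13, q13⟩
                            · rcases lpsplit _ _ _ H14 with ⟨p14, q14⟩ | ⟨p14, q14⟩
                              · rcases lpsplit _ _ _ H15 with ⟨p15, q15⟩ | ⟨p15, q15⟩
                                · rcases lpsplit _ _ _ H16 with ⟨p16, q16⟩ | ⟨p16, q16⟩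
                                  · rcases lpsplit _ _ _ H17 with ⟨p17, q17⟩ | ⟨p17, q17⟩
                                    · rcases lpsplit _ _ _ H18 with ⟨p18, q18⟩ | ⟨p18, q18⟩
                                      · linarith only [q14, q17, q18, q6, q9, na1, hA, hC, hB, h1L]
                                      · rcases lpsplit _ _ _ H19 with ⟨p19, q19⟩ | ⟨p19, q19⟩
                                        · linarith only [q18, q15, hA, na4, q10, q12, q19, T1, nb5, q16, nc4, hB, q13, hC, q14, h1L, hL]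
                                        · rcases lpsplit _ _ _ H20 with ⟨p20, q20⟩ | ⟨p20, q20⟩
                                          · linarith only [hA, q17, hB, q15, q14, q20, q12, hC, h1L]
                                          · linarith only [hL, q12, q16, q10, hA, q13, q11, q18, nb5, na1, hB, q7, nc4, hC, q19, nc2, q20]
                                    · rcases lpsplit _ _ _ H21 with ⟨p18, q18⟩ | ⟨p18, q18⟩
                                      · linarith only [q17, hA, hL, q7, q10, q16, q13, q2, hB, na5, q6, na3, na2, hC, q9, h1L, q18]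
                                      · rcases lpsplit _ _ _ H22 with ⟨p19, q19⟩ | ⟨p19, q19⟩
                                        · linarith only [q14, q17, nc1, hB, nb3, nb2, q13, q18, hL, na2, q19, hA, hC, q2, h1L, na3]
                                        · rcases lpsplit _ _ _ H23 with ⟨p20, q20⟩ | ⟨p20, q20⟩
                                          · linarith only [q16, hL, hA, q13, na5, q14, q17, q19, nb2, hB, q2, q9, nc4, hC, q10, h1L, q20]
                                          · linarith only [q17, hL, nb5, q10, hA, q20, q16, hB, q18, q9, na2, nc4, hC, q13, h1L, q12]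
                                  · rcases lpsplit _ _ _ H24 with ⟨p17, q17⟩ | ⟨p17, q17⟩
                                    · rcases lpsplit _ _ _ H25 with ⟨p18, q18⟩ | ⟨p18, q18⟩
                                      · rcases lpsplit _ _ _ H26 with ⟨p19, q19⟩ | ⟨p19, q19⟩
                                        · rcases lpsplit _ _ _ H27 with ⟨p20, q20⟩ | ⟨p20, q20⟩
                                          · linarith only [q14, na4, hA, q9, q18, q7, nb4, q10, hB, hL, q17, q15, q20, q16, q19, h1L, hC]
                                          · rcases lpsplit _ _ _ H28 with ⟨p21, q21⟩ | ⟨p21, q21⟩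
                                            · linarith only [q14, q15, q18, hA, q16, q17, hL, hC, q10, hB, q21, q9, nc4, na4, q20, h1L, nc2]
                                            · linarith only [q7, na4, q21, hA, q14, h1L, nc4, nb1, hB, nb5, nc2, q6, p13, hL, q17, hC, q18]
                                        · linarith only [q15, na2, hA, q4, q18, q14, nc4, hL, hB, q10, hC, q13, nc3, q19, h1L, nb4]
                                      · linarith only [p10, nb1, hB, h1L, hA, hC, hL, q7, q13, nb4, p12, na2, p9, nc1, q18, na4, p17]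
                                    · rcases lpsplit _ _ _ H28 with ⟨p18, q18⟩ | ⟨p18, q18⟩
                                      · rcases lpsplit _ _ _ H25 with ⟨p19, q19⟩ | ⟨p19, q19⟩
                                        · linarith only [hA, na2, q2, q7, q19, q16, hL, q18, q10, hB, q13, q14, hC, nc4, q17, h1L, q9]
                                        · linarith only [na2, q14, hA, q13, q19, q18, hB, hL, hC, nb1, q9, h1L, q2]
                                      · linarith only [hB, nc4, nb1, p13, hA, na1, q17, q18, nb5, hL, p12, na2, hC, p10, q7, p6, na4]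
                                · linarith only [h1L, q15, hA, q14, q11, nc2, nb4, q10, hB, na1, hL, nc4, q13, nc3, hC]
                              · rcases lpsplit _ _ _ H29 with ⟨p15, q15⟩ | ⟨p15, q15⟩
                                · rcases lpsplit _ _ _ H30 with ⟨p16, q16⟩ | ⟨p16, q16⟩
                                  · rcases lpsplit _ _ _ H25 with ⟨p17, q17⟩ | ⟨p17, q17⟩
                                    · rcases lpsplit _ _ _ H24 with ⟨p18, q18⟩ | ⟨p18, q18⟩
                                      · linarith only [hB, hL, hA, q10, q16, q11, q17, q3, hC, nb5, q18, q13, na4, na2, q14, h1L, q15]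
                                      · linarith only [na5, q17, q9, q15, hA, q18, q2, hB, nb5, hL, q13, nb3, hC, q3, q14, h1L, q10]
                                    · linarith only [q14, p9, na1, hA, nb5, nb2, q3, q13, q15, hB, hL, p10, nc4, hC, q17, h1L, nb1]
                                  · rcases lpsplit _ _ _ H31 with ⟨p17, q17⟩ | ⟨p17, q17⟩
                                    · rcases lpsplit _ _ _ H32 with ⟨p18, q18⟩ | ⟨p18, q18⟩
                                      · linarith only [na1, q16, hA, nc4, nb2, q2, nc3, q18, hB, q17, h1L, q10, hL, na5, q11, hC, p15]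
                                      · linarith only [q13, q7, q9, na4, hA, nb2, q2, hB, nc4, q18, nc2, na5, q16, hL, q11, hC, nb5]
                                    · linarith only [q10, q16, na1, hA, na4, nb2, hB, na5, q2, nb5, nc4, nc3, hL, p15, q17, h1L, hC]
                                · rcases lpsplit _ _ _ H33 with ⟨p16, q16⟩ | ⟨p16, q16⟩
                                  · rcases lpsplit _ _ _ H34 with ⟨p17, q17⟩ | ⟨p17, q17⟩
                                    · rcases lpsplit _ _ _ H35 with ⟨p18, q18⟩ | ⟨p18, q18⟩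
                                      · rcases lpsplit _ _ _ H36 with ⟨p19, q19⟩ | ⟨p19, q19⟩
                                        · rcases lpsplit _ _ _ H37 with ⟨p20, q20⟩ | ⟨p20, q20⟩
                                          · rcases lpsplit _ _ _ H38 with ⟨p21, q21⟩ | ⟨p21, q21⟩
                                            · linarith only [T0, q21, hA, na5, nc3, nb2, q20, q19, hB, hL, hC, q10, h1L, q15]
                                            · rcases lpsplit _ _ _ H39 with ⟨p22, q22⟩ | ⟨p22, q22⟩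
                                              · linarith only [q13, q22, hA, T0, hL, q17, q21, q9, hB, na5, nb2, na4, hC, q11, h1L, q15]
                                              · linarith only [q17, q22, q16, hA, q13, q20, q9, q15, hB, hL, q18, nc2, q21, hC, h1L, q10]
                                          · rcases lpsplit _ _ _ H40 with ⟨p21, q21⟩ | ⟨p21, q21⟩
                                            · linarith only [h1L, T0, hA, nb3, nb2, q16, q20, hB, hL, q18, q10, hC, q21, nc3, q15, q19]
                                            · rcases lpsplit _ _ _ H41 with ⟨p22, q22⟩ | ⟨p22, q22⟩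
                                              · linarith only [nc3, hL, nb5, hA, na4, hC, nb3, hB, p15, q22, q10, q16, nb2, na5, nc1, q21, h1L]
                                              · linarith only [h1L, nb5, nc1, hA, hL, q9, nb2, p10, nc2, hB, p19, q16, na4, hC, q22, T0, nb3]
                                        · rcases lpsplit _ _ _ H42 with ⟨p20, q20⟩ | ⟨p20, q20⟩
                                          · rcases lpsplit _ _ _ H43 with ⟨p21, q21⟩ | ⟨p21, q21⟩
                                            · linarith only [q18, q21, na4, hB, q9, q13, nb4, q10, q20, hA, q19, nc3, T0, hL, h1L, hC, q15]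
                                            · linarith only [hB, q10, hA, nc3, hC, hL, nb3, T0, q3, q21, na4, q18, q20, q17, q19, h1L, q13]
                                          · rcases lpsplit _ _ _ H44 with ⟨p21, q21⟩ | ⟨p21, q21⟩
                                            · linarith only [q20, nc2, q21, nb3, q3, q13, q18, q2, hB, hA, hL, nc3, q15, hC, q19, h1L]
                                            · rcases lpsplit _ _ _ H41 with ⟨p22, q22⟩ | ⟨p22, q22⟩
                                              · linarith only [q9, q22, q20, hL, q2, q13, nb3, hB, q11, nc2, hC, q10, hA, q21, h1L, q15]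
                                              · linarith only [p10, hC, q3, hA, na4, hB, q13, nb3, T0, q2, q22, nb2, nc2, hL, h1L, q9]
                                      · linarith only [q14, hL, q3, hA, q9, na4, nb3, q13, T0, hB, q10, q18, nc3, hC, q11, h1L, q15]
                                    · linarith only [q7, na4, nc4, hA, nb5, p10, p13, nb1, hB, nc1, nc2, q6, q17, hL, q11, hC, q15]
                                  · linarith only [na1, T2, q10, hA, nb5, nc3, nb2, q12, na5, hL, q3, q9, nc4, hC, q16, hB, q15]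
                            · rcases lpsplit _ _ _ H24 with ⟨p14, q14⟩ | ⟨p14, q14⟩
                              · rcases lpsplit _ _ _ H14 with ⟨p15, q15⟩ | ⟨p15, q15⟩
                                · rcases lpsplit _ _ _ H28 with ⟨p16, q16⟩ | ⟨p16, q16⟩
                                  · linarith only [q14, q11, q16, q13, q6, q12, hB, h1L, hA, q15, nb4, hL, q7, hC, q1]
                                  · linarith only [q15, na2, q12, na4, hA, hL, hB, nb4, q16, h1L, nc4, hC, q7, p6, na1]
                                · rcases lpsplit _ _ _ H41 with ⟨p16, q16⟩ | ⟨p16, q16⟩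
                                  · rcases lpsplit _ _ _ H45 with ⟨p17, q17⟩ | ⟨p17, q17⟩
                                    · linarith only [q17, q13, hA, q15, q16, nb4, hB, hL, nc1, T1, q6, q14, q7, na5, q11, hC, na1]
                                    · linarith only [q12, q7, hA, p12, p6, na4, p15, nb5, hB, nc1, nc4, nc3, na1, hL, q11, hC, q17]
                                  · linarith only [q7, nb5, p11, T0, hA, q3, na4, q16, q14, hB, hL, nc2, hC, nc3, q13, q9, q1]
                              · rcases lpsplit _ _ _ H46 with ⟨p15, q15⟩ | ⟨p15, q15⟩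
                                · rcases lpsplit _ _ _ H47 with ⟨p16, q16⟩ | ⟨p16, q16⟩
                                  · linarith only [na3, na2, hL, hA, na1, T2, q13, q2, hB, nc5, q15, q14, nb5, hC, q7, q6, q16]
                                  · linarith only [hL, na2, na5, hA, q13, p7, q3, q16, hB, q6, nb4, q2, hC, nc5, q14, T1, q7]
                                · rcases lpsplit _ _ _ H48 with ⟨p16, q16⟩ | ⟨p16, q16⟩
                                  · linarith only [na1, na2, na3, q15, hA, p9, na4, q16, hB, q13, hL, hC, q7, q6, nb4]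
                                  · linarith only [nb1, p9, p10, hA, hC, hL, q16, q3, hB, nb5, nc1, na5, p12, nc5, q15, q13, na1]
                          · rcases lpsplit _ _ _ H49 with ⟨p13, q13⟩ | ⟨p13, q13⟩
                            · rcases lpsplit _ _ _ H50 with ⟨p14, q14⟩ | ⟨p14, q14⟩
                              · rcases lpsplit _ _ _ H51 with ⟨p15, q15⟩ | ⟨p15, q15⟩
                                · rcases lpsplit _ _ _ H52 with ⟨p16, q16⟩ | ⟨p16, q16⟩
                                  · linarith only [q6, q7, na1, hC, q13, q16, na3, hA, q15, hB, hL, na4, nb1, q12, h1L, na2]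
                                  · linarith only [q15, q7, T1, hC, q6, q16, nc4, na2, na1, nb5, hB, hL, q13, h1L, q12, hA, q1]
                                · linarith only [hC, na2, nc1, na1, hA, nc3, nb1, nb2, nb4, hL, q15, q13, nc4, nb5, p9, hB, na4]
                              · rcases lpsplit _ _ _ H53 with ⟨p15, q15⟩ | ⟨p15, q15⟩
                                · linarith only [q6, q7, q11, na4, q1, hA, q14, nb2, hB, p14, na1, hL, h1L, na3, nb5, hC, q15]
                                · linarith only [p6, na2, na4, hA, nc3, nb5, nb2, q13, nb4, hB, na1, p14, hL, nc4, hC, q15, p9]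
                            · rcases lpsplit _ _ _ H46 with ⟨p14, q14⟩ | ⟨p14, q14⟩
                              · linarith only [na1, nc3, hC, hA, q1, q2, nb5, q13, hB, q11, q12, q14, q7, q6, hL, q9, T2]
                              · rcases lpsplit _ _ _ H48 with ⟨p15, q15⟩ | ⟨p15, q15⟩
                                · linarith only [na1, na2, q7, hA, p10, q15, h1L, hL, nb4, p9, hB, nc4, q13, q14, hC, p12]
                                · linarith only [q15, na1, p10, nc1, hA, nb1, q11, p9, hB, nb5, hL, q3, nc5, na5, q14, hC, na2]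
                        · rcases lpsplit _ _ _ H54 with ⟨p12, q12⟩ | ⟨p12, q12⟩
                          · rcases lpsplit _ _ _ H55 with ⟨p13, q13⟩ | ⟨p13, q13⟩
                            · rcases lpsplit _ _ _ H56 with ⟨p14, q14⟩ | ⟨p14, q14⟩
                              · rcases lpsplit _ _ _ H57 with ⟨p15, q15⟩ | ⟨p15, q15⟩
                                · linarith only [q3, q1, hA, hL, hB, nb4, nc5, q6, q14, q15, nc3, hC, q11, q13, h1L]
                                · linarith only [nc2, nb3, hA, q15, hL, q12, q13, hB, nc5, na2, q10, nb2, hC, q11, na3, p11]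
                              · linarith only [q13, hA, na4, q10, nb2, hL, hB, na2, q14, nc3, hC, q11, h1L, q12]
                            · rcases lpsplit _ _ _ H18 with ⟨p14, q14⟩ | ⟨p14, q14⟩
                              · rcases lpsplit _ _ _ H58 with ⟨p15, q15⟩ | ⟨p15, q15⟩
                                · linarith only [q14, q1, q15, hL, hA, hB, q2, na4, nb2, q13, nc2, hC, q11, nc5, q3, h1L, na2]
                                · rcases lpsplit _ _ _ H59 with ⟨p16, q16⟩ | ⟨p16, q16⟩
                                  · linarith only [q13, hA, na1, q10, q16, q14, hB, hL, nc2, hC, q3, na4, q11, h1L, nb1]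
                                  · linarith only [hL, na1, q12, hA, nc5, q10, q15, q1, hB, q11, nc2, hC, q3, h1L, q16, q14, nb3]
                              · rcases lpsplit _ _ _ H30 with ⟨p15, q15⟩ | ⟨p15, q15⟩
                                · rcases lpsplit _ _ _ H60 with ⟨p16, q16⟩ | ⟨p16, q16⟩
                                  · rcases lpsplit _ _ _ H51 with ⟨p17, q17⟩ | ⟨p17, q17⟩
                                    · linarith only [q3, na4, q14, q17, nc2, hA, hL, hB, hC, q16, q15, q10, q11, h1L, q12]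
                                    · linarith only [p12, p15, q11, na4, hA, nb1, nb2, nb5, hB, hL, hC, nc3, p10, nc5, q17, p6, p11]
                                  · linarith only [q6, na4, p12, q16, nb2, hB, hL, hA, h1L, hC, nb1, q11, q10, nb5]
                                · rcases lpsplit _ _ _ H41 with ⟨p16, q16⟩ | ⟨p16, q16⟩
                                  · linarith only [q12, q2, q16, hC, hA, q10, hB, hL, q1, nc3, q15, na4, q11, h1L, na5]
                                  · linarith only [q16, na4, hA, na5, hL, nb2, q3, q15, hB, q2, nc2, hC, q12, nc5, q1, q9, nb5]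
                          · rcases lpsplit _ _ _ H51 with ⟨p13, q13⟩ | ⟨p13, q13⟩
                            · rcases lpsplit _ _ _ H41 with ⟨p14, q14⟩ | ⟨p14, q14⟩
                              · rcases lpsplit _ _ _ H28 with ⟨p15, q15⟩ | ⟨p15, q15⟩
                                · rcases lpsplit _ _ _ H37 with ⟨p16, q16⟩ | ⟨p16, q16⟩
                                  · rcases lpsplit _ _ _ H61 with ⟨p17, q17⟩ | ⟨p17, q17⟩
                                    · linarith only [hL, q17, q6, q12, hA, q1, nb2, nc2, hB, hC, q16, q13, na5, nc5, q11, h1L, q10]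
                                    · rcases lpsplit _ _ _ H14 with ⟨p18, q18⟩ | ⟨p18, q18⟩
                                      · linarith only [q6, q17, q7, hA, hB, q18, nb4, na3, nb2, hL, na1, hC, q11, h1L, na4]
                                      · linarith only [q18, nc5, hB, hA, q15, q14, q13, hC, na4, q7, nc2, nb4, q1, hL, q11, q17, q6]
                                  · rcases lpsplit _ _ _ H62 with ⟨p17, q17⟩ | ⟨p17, q17⟩
                                    · rcases lpsplit _ _ _ H63 with ⟨p18, q18⟩ | ⟨p18, q18⟩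
                                      · rcases lpsplit _ _ _ H55 with ⟨p19, q19⟩ | ⟨p19, q19⟩
                                        · linarith only [q16, q19, hC, hA, q10, nb2, q1, na2, hB, q3, nc5, hL, na5, q13, nb4, h1L, q15]
                                        · linarith only [q13, q2, q19, hA, q1, q18, hC, hB, hL, na5, q12, q15, q16, nc5, nc2, h1L, q14]
                                      · linarith only [q16, q14, q13, hA, q15, hL, q18, q12, hB, q17, hC, nc5, nc2, q1, q11, h1L, q2]
                                    · rcases lpsplit _ _ _ H64 with ⟨p18, q18⟩ | ⟨p18, q18⟩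
                                      · rcases lpsplit _ _ _ H65 with ⟨p19, q19⟩ | ⟨p19, q19⟩
                                        · linarith only [na5, hA, q2, q16, q18, hB, q14, hC, q19, q3, hL, q12, q17, nc5, q11, h1L, nc2]
                                        · linarith only [q16, q14, q3, hA, q13, q18, hB, na5, q19, hL, nb2, nc2, q10, q17, q11, h1L, hC]
                                      · linarith only [q16, hL, q7, nb2, hA, nc5, hB, q17, q14, q18, nc2, q6, q13, hC, q1, h1L, q15]
                                · linarith only [hA, nc2, q6, hB, q15, q14, nb4, hL, nb5, q13, hC, na4, q7, nc5, q11, h1L, na1]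
                              · linarith only [q14, hA, na4, T0, q1, q2, q13, q12, nb5, nc5, nc2, nb2, hB, hC, hL, nc3, q9]
                            · linarith only [hA, na5, na4, hL, nc1, nb2, q11, p6, nb5, p10, hC, nc3, nb4, nc5, q13, hB, p11]
                      · rcases lpsplit _ _ _ H25 with ⟨p11, q11⟩ | ⟨p11, q11⟩
                        · rcases lpsplit _ _ _ H66 with ⟨p12, q12⟩ | ⟨p12, q12⟩
                          · rcases lpsplit _ _ _ H67 with ⟨p13, q13⟩ | ⟨p13, q13⟩
                            · rcases lpsplit _ _ _ H31 with ⟨p14, q14⟩ | ⟨p14, q14⟩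
                              · rcases lpsplit _ _ _ H68 with ⟨p15, q15⟩ | ⟨p15, q15⟩
                                · rcases lpsplit _ _ _ H69 with ⟨p16, q16⟩ | ⟨p16, q16⟩
                                  · linarith only [q10, hA, q15, q16, q7, nc1, q11, T0, hC, hB, q9, na5, hL, nc5, q14, h1L, q3]
                                  · rcases lpsplit _ _ _ H70 with ⟨p17, q17⟩ | ⟨p17, q17⟩
                                    · rcases lpsplit _ _ _ H71 with ⟨p18, q18⟩ | ⟨p18, q18⟩
                                      · rcases lpsplit _ _ _ H26 with ⟨p19, q19⟩ | ⟨p19, q19⟩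
                                        · linarith only [q17, hA, na4, q16, hC, q12, q10, nb4, q1, q11, nc2, T0, hL, nc5, hB, h1L, q19]
                                        · rcases lpsplit _ _ _ H72 with ⟨p20, q20⟩ | ⟨p20, q20⟩
                                          · linarith only [q19, hA, na4, T0, q12, nb3, hB, q10, q11, h1L, hL, na5, q20, hC, q18]
                                          · linarith only [na5, na2, q16, hA, hC, q13, q14, hL, p17, hB, q20, nc2, q10, nc5, q12, q11, p10]
                                      · linarith only [q18, hA, na4, hL, q10, hB, nb3, q14, q11, na2, nc2, na5, nc5, hC, q12]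
                                    · rcases lpsplit _ _ _ H41 with ⟨p18, q18⟩ | ⟨p18, q18⟩
                                      · linarith only [q18, q12, hA, q17, hL, T0, hB, nc2, q9, q16, q11, q10, q15, hC, q14, q13, na4]
                                      · linarith only [hC, nb5, hA, q10, hL, q3, hB, na5, q13, q9, nc2, na4, q7, nc5, q18, q14, p10]
                                · rcases lpsplit _ _ _ H37 with ⟨p16, q16⟩ | ⟨p16, q16⟩
                                  · linarith only [hC, q9, hA, na5, hB, q16, q11, nc2, hL, T0, q10, h1L, q12]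
                                  · linarith only [q3, na2, q10, hA, hC, q14, hB, q13, q15, hL, na5, q11, q16, nc5, q12, q6, nc2]
                              · rcases lpsplit _ _ _ H71 with ⟨p15, q15⟩ | ⟨p15, q15⟩
                                · rcases lpsplit _ _ _ H73 with ⟨p16, q16⟩ | ⟨p16, q16⟩
                                  · linarith only [hB, hA, hC, na2, q16, q3, nb2, q12, nb5, q13, nc2, hL, q10, q14, h1L, q9]
                                  · rcases lpsplit _ _ _ H41 with ⟨p17, q17⟩ | ⟨p17, q17⟩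
                                    · linarith only [nb5, hA, q12, na4, q16, q17, nb2, hB, hC, q10, q11, q13, nc4, hL, q14, h1L, q15]
                                    · linarith only [hL, hA, na5, q17, q3, q10, nb2, hB, hC, nb5, q9, q1, na4, nc5, q13, nc2, q15]
                                · rcases lpsplit _ _ _ H11 with ⟨p16, q16⟩ | ⟨p16, q16⟩
                                  · linarith only [hB, hA, hC, na4, na5, q16, nb3, q11, q10, q12, na2, hL, nb2, nb5, q15]
                                  · linarith only [q3, hA, hB, na4, na5, q10, hL, nb3, hC, q11, q16, q12, nb2, nc2, q14, q9, q15]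
                            · rcases lpsplit _ _ _ H74 with ⟨p14, q14⟩ | ⟨p14, q14⟩
                              · rcases lpsplit _ _ _ H37 with ⟨p15, q15⟩ | ⟨p15, q15⟩
                                · linarith only [q15, q14, q12, hL, nc4, q9, q2, q10, hA, nb5, hB, q11, hC, na5, q13, h1L, q7]
                                · linarith only [q12, nb3, na5, hL, hA, q2, q14, hB, nb5, q3, q11, q9, q15, q13, hC, h1L, T0]
                              · rcases lpsplit _ _ _ H43 with ⟨p15, q15⟩ | ⟨p15, q15⟩
                                · rcases lpsplit _ _ _ H31 with ⟨p16, q16⟩ | ⟨p16, q16⟩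
                                  · linarith only [q7, na2, q12, hA, nc2, q16, q11, q15, hB, q14, hL, q10, hC, nc5, q13, q9, q2]
                                  · rcases lpsplit _ _ _ H75 with ⟨p17, q17⟩ | ⟨p17, q17⟩
                                    · linarith only [q15, na2, q17, na5, q10, nb2, nb5, hC, hB, q13, nc2, q12, nc5, hA, q16, q9, hL]
                                    · linarith only [hL, q7, h1L, q11, q12, nb5, nc5, hC, q17, q15, nc2, q9, na2, hB, nb2, hA, q14]
                                · rcases lpsplit _ _ _ H76 with ⟨p16, q16⟩ | ⟨p16, q16⟩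
                                  · linarith only [nb5, q16, nc2, q3, hA, hB, q9, q7, q14, hL, q15, na5, q2, hC, q13, h1L, q12]
                                  · rcases lpsplit _ _ _ H75 with ⟨p17, q17⟩ | ⟨p17, q17⟩
                                    · linarith only [q16, q17, q9, q15, hA, q3, nb2, hB, nb5, hL, hC, nc2, q11, q12, q13, na5, q7]
                                    · linarith only [na5, q11, q17, q15, hA, q12, q3, hB, nb5, q2, hC, q7, q14, h1L, hL, nc2, q9]
                          · linarith only [q3, hA, q2, na4, p6, nb3, hB, nb4, nb5, nc1, nc2, hL, nc4, hC, q12, q11]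
                        · rcases lpsplit _ _ _ H77 with ⟨p12, q12⟩ | ⟨p12, q12⟩
                          · linarith only [na1, hA, nb1, na4, hB, nb5, na2, q7, hC, hL, nc1, p9, nc5, q12, q11, h1L, p10]
                          · linarith only [q3, p9, na1, q2, p6, nb3, na2, hL, nb4, na5, nc1, hB, hC, nc4, q12, hA, na4]
                    · rcases lpsplit _ _ _ H66 with ⟨p10, q10⟩ | ⟨p10, q10⟩
                      · rcases lpsplit _ _ _ H59 with ⟨p11, q11⟩ | ⟨p11, q11⟩
                        · rcases lpsplit _ _ _ H78 with ⟨p12, q12⟩ | ⟨p12, q12⟩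
                          · rcases lpsplit _ _ _ H79 with ⟨p13, q13⟩ | ⟨p13, q13⟩
                            · rcases lpsplit _ _ _ H24 with ⟨p14, q14⟩ | ⟨p14, q14⟩
                              · rcases lpsplit _ _ _ H80 with ⟨p15, q15⟩ | ⟨p15, q15⟩
                                · rcases lpsplit _ _ _ H50 with ⟨p16, q16⟩ | ⟨p16, q16⟩
                                  · linarith only [q7, T2, na3, nb4, na4, q15, hL, q16, q14, hB, q9, q12, hC, nc5, hA, h1L]
                                  · linarith only [hA, na2, q16, na4, p6, q9, hL, p14, hB, nb2, nb4, na1, q12, nc5, q7, hC, q13]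
                                · linarith only [q7, na4, q10, p14, hB, T2, nb3, hA, hL, nb4, q8, hC, nc5, na2, h1L, q15]
                              · rcases lpsplit _ _ _ H81 with ⟨p15, q15⟩ | ⟨p15, q15⟩
                                · rcases lpsplit _ _ _ H82 with ⟨p16, q16⟩ | ⟨p16, q16⟩
                                  · rcases lpsplit _ _ _ H83 with ⟨p17, q17⟩ | ⟨p17, q17⟩
                                    · rcases lpsplit _ _ _ H84 with ⟨p18, q18⟩ | ⟨p18, q18⟩
                                      · linarith only [q7, q17, q10, hA, h1L, q15, hL, q16, nb4, T2, na3, q11, hC, nc5, q14, hB, q18]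
                                      · rcases lpsplit _ _ _ H28 with ⟨p19, q19⟩ | ⟨p19, q19⟩
                                        · linarith only [q18, q14, na3, T2, hA, q9, q19, nc1, q16, hB, hL, q15, h1L, q7, nb4]
                                        · linarith only [na3, q15, q14, nb1, hA, hL, q19, na1, hB, nb5, nc1, na2, hC, nc5, q7, na4, nb4]
                                    · linarith only [q7, q17, q10, hA, h1L, p8, hL, nb3, na3, hB, na4, nc4, hC, nc5, na2, q15, T2]
                                  · linarith only [q7, na2, na4, hA, hL, na3, nb2, hB, na1, q9, nb5, hC, nc5, q16, h1L, q15]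
                                · rcases lpsplit _ _ _ H40 with ⟨p16, q16⟩ | ⟨p16, q16⟩
                                  · rcases lpsplit _ _ _ H85 with ⟨p17, q17⟩ | ⟨p17, q17⟩
                                    · rcases lpsplit _ _ _ H14 with ⟨p18, q18⟩ | ⟨p18, q18⟩
                                      · linarith only [hL, q15, q7, hA, q9, nc4, na4, T2, hB, hC, q18, q11, q14, na1, q16, h1L, q17]
                                      · linarith only [hA, q11, nb1, q17, q12, nb2, nb3, hB, hL, q14, q18, q9, hC, q7, nc5, T2, q16]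
                                    · rcases lpsplit _ _ _ H14 with ⟨p18, q18⟩ | ⟨p18, q18⟩
                                      · linarith only [q18, nc1, hL, na2, hA, na4, nb2, hB, q7, q11, T2, q17, nc4, nc5, q16, q12, q15]
                                      · linarith only [p12, nc4, q16, na4, nb1, nb2, nb3, q2, hB, nc5, q18, hL, hC, hA, q7, q5, q17]
                                  · rcases lpsplit _ _ _ H37 with ⟨p17, q17⟩ | ⟨p17, q17⟩
                                    · rcases lpsplit _ _ _ H85 with ⟨p18, q18⟩ | ⟨p18, q18⟩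
                                      · rcases lpsplit _ _ _ H86 with ⟨p19, q19⟩ | ⟨p19, q19⟩
                                        · linarith only [q16, q2, q17, na1, hA, na4, q10, nb5, hB, q19, q9, hL, hC, nc4, q18, h1L, p11]
                                        · linarith only [q19, p12, na1, hA, q10, hL, nb2, q7, h1L, hB, na4, p17, nc4, hC, q16, q9, q2]
                                      · rcases lpsplit _ _ _ H83 with ⟨p19, q19⟩ | ⟨p19, q19⟩
                                        · linarith only [q19, q18, q10, nb5, hA, q16, q17, na4, hB, hL, q7, nb2, hC, nc4, T2, h1L, p11]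
                                        · linarith only [na4, nc4, q7, hA, q8, q10, nb3, hB, q3, q2, hL, hC, nc5, q19, h1L, na2]
                                    · rcases lpsplit _ _ _ H76 with ⟨p18, q18⟩ | ⟨p18, q18⟩
                                      · linarith only [p11, q3, q10, hA, q12, nb1, nc4, hB, q9, q17, q18, hL, hC, nb3, h1L, q7, na4]
                                      · linarith only [nc5, p11, hB, na4, q17, hL, nb2, q7, nb3, q10, q9, q18, hC, hA, q16, q2, q12]
                            · linarith only [q7, q13, na4, nc5, nb1, q2, hA, nb4, hB, hL, p12, q11, nc4, hC, q10, q5, q6]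
                          · rcases lpsplit _ _ _ H14 with ⟨p13, q13⟩ | ⟨p13, q13⟩
                            · rcases lpsplit _ _ _ H25 with ⟨p14, q14⟩ | ⟨p14, q14⟩
                              · rcases lpsplit _ _ _ H87 with ⟨p15, q15⟩ | ⟨p15, q15⟩
                                · linarith only [na1, nb3, hL, q1, hB, nb4, q14, q13, hA, q9, nb2, na5, nc4, hC, q10, q15, q12]
                                · linarith only [p5, nb2, na4, hA, hL, q11, p7, nb4, hB, q2, q6, na5, q15, hC, nc2, q8, nc4]
                              · rcases lpsplit _ _ _ H53 with ⟨p15, q15⟩ | ⟨p15, q15⟩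
                                · linarith only [hL, q14, na4, hA, q12, nb2, q7, q1, q13, hB, q15, nb4, nc4, hC, q10, nc5, q4]
                                · linarith only [nb2, na2, nb4, q1, p5, nc5, nb1, q15, na1, hB, hA, na4, hC, nc4, q13, nb5, hL]
                            · rcases lpsplit _ _ _ H53 with ⟨p14, q14⟩ | ⟨p14, q14⟩
                              · rcases lpsplit _ _ _ H25 with ⟨p15, q15⟩ | ⟨p15, q15⟩
                                · rcases lpsplit _ _ _ H87 with ⟨p16, q16⟩ | ⟨p16, q16⟩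
                                  · linarith only [na1, q11, na5, na4, q16, hB, q15, hC, q9, T0, q13, hL, q12, q10, nb2, nb3]
                                  · linarith only [p5, p13, na4, hA, hL, q11, p7, nb4, hB, q2, nc2, na5, q16, hC, q6, q8, na1]
                                · rcases lpsplit _ _ _ H82 with ⟨p16, q16⟩ | ⟨p16, q16⟩
                                  · linarith only [q16, q15, na4, hA, nb1, hL, q5, hB, q11, q13, nc4, hC, nc5, q10, na5, T0]
                                  · rcases lpsplit _ _ _ H88 with ⟨p17, q17⟩ | ⟨p17, q17⟩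
                                    · rcases lpsplit _ _ _ H86 with ⟨p18, q18⟩ | ⟨p18, q18⟩
                                      · linarith only [q18, p11, q13, hA, na4, q3, q10, hL, q17, hB, nb2, q11, hC, nc5, q16, q15, nc4]
                                      · linarith only [hC, q17, q10, hA, na4, nb1, hL, hB, nc4, q18, q11, q15, nc5, nb2, na5, q16]
                                    · linarith only [q5, q14, hA, na4, q17, q10, hL, nc5, hB, q15, q11, nb2, q6, hC, q13, nc4, q7]
                              · linarith only [q3, na4, p6, q14, p5, p4, nb2, hB, na1, hA, hL, q11, nc4, hC, na5, nb4, nc5]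
                        · rcases lpsplit _ _ _ H14 with ⟨p12, q12⟩ | ⟨p12, q12⟩
                          · rcases lpsplit _ _ _ H89 with ⟨p13, q13⟩ | ⟨p13, q13⟩
                            · rcases lpsplit _ _ _ H33 with ⟨p14, q14⟩ | ⟨p14, q14⟩
                              · linarith only [na1, T2, q10, nb3, hA, q11, hB, q13, q9, q14, na2, hC, q12, hL, h1L, nc4]
                              · linarith only [q9, na2, q12, q2, hA, q1, nb2, q7, hB, nc5, hL, q14, hC, nc4, q3, q13, nb5]
                            · rcases lpsplit _ _ _ H31 with ⟨p14, q14⟩ | ⟨p14, q14⟩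
                              · linarith only [hB, T2, q12, q2, na3, q4, q14, q10, hA, hL, q11, nb5, q9, hC, q7, q13, nc5]
                              · rcases lpsplit _ _ _ H85 with ⟨p15, q15⟩ | ⟨p15, q15⟩
                                · linarith only [na1, q15, nb3, q2, hA, q12, nb2, hB, nb5, q9, nc2, na3, hC, nc4, hL, h1L, q14]
                                · rcases lpsplit _ _ _ H83 with ⟨p16, q16⟩ | ⟨p16, q16⟩
                                  · rcases lpsplit _ _ _ H33 with ⟨p17, q17⟩ | ⟨p17, q17⟩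
                                    · linarith only [na3, q15, nc1, q12, hA, nc4, nb2, hB, nb5, na1, q16, q13, hC, q14, hL, h1L, q17]
                                    · linarith only [q16, hL, p7, nb5, q14, nb2, p14, q7, q12, nc5, p13, hB, nc4, hA, q17, q1, hC]
                                  · linarith only [q7, q14, na3, q12, hA, q16, na4, hB, nb5, nc5, q8, hC, na2, hL, h1L, nc4]
                          · rcases lpsplit _ _ _ H90 with ⟨p13, q13⟩ | ⟨p13, q13⟩
                            · rcases lpsplit _ _ _ H86 with ⟨p14, q14⟩ | ⟨p14, q14⟩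
                              · linarith only [q14, q3, na4, hA, hL, nb2, nb3, q13, hB, nc4, q9, q0, hC, q11, q10, q1, q12]
                              · linarith only [na4, hL, q3, hA, na5, q10, nb2, q9, hB, q7, q13, p11, nc4, hC, q14, q11, q5]
                            · linarith only [q9, q3, hA, na5, q13, nb2, q10, na4, hB, hL, T0, q5, hC, nc5, q2, nb5, q1]
                      · linarith only [q3, na2, p4, hL, na5, nb3, hB, nb4, nb5, na4, nc2, q2, nc4, hC, q10, hA, nc5]
                  · rcases lpsplit _ _ _ H91 with ⟨p9, q9⟩ | ⟨p9, q9⟩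
                    · rcases lpsplit _ _ _ H92 with ⟨p10, q10⟩ | ⟨p10, q10⟩
                      · rcases lpsplit _ _ _ H77 with ⟨p11, q11⟩ | ⟨p11, q11⟩
                        · rcases lpsplit _ _ _ H66 with ⟨p12, q12⟩ | ⟨p12, q12⟩
                          · linarith only [q7, na2, q12, na4, hB, hL, nb3, na3, q8, nb5, hA, T2, q10]
                          · linarith only [hL, q12, na3, na4, hA, q6, nb3, nb4, hB, q2, hC, p4, nc1, nc5, q11, q7, p8]
                        · linarith only [hL, q2, p6, na4, hA, nb3, hB, nb4, nb5, nc1, nc5, q3, nc4, hC, q11, q9, p8]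
                      · linarith only [hL, p1, hA, na4, na5, p6, nb3, hB, nb5, p10, hC, nc5, q10, p0, nc4]
                    · linarith only [hA, hB, hC, hL, h1L, na1, na2, na3, na4, na5, nb1, nb2, nb3, nb4, nb5, nc1, nc2, nc3, nc4, nc5, p0, p1, p2, p3, p4, p5, p6, p7, p8, p9, q0, q1, q2, q3, q4, q5, q6, q7, q8, q9]
                · rcases lpsplit _ _ _ H80 with ⟨p8, q8⟩ | ⟨p8, q8⟩
                  · rcases lpsplit _ _ _ H93 with ⟨p9, q9⟩ | ⟨p9, q9⟩
                    · rcases lpsplit _ _ _ H54 with ⟨p10, q10⟩ | ⟨p10, q10⟩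
                      · rcases lpsplit _ _ _ H23 with ⟨p11, q11⟩ | ⟨p11, q11⟩
                        · rcases lpsplit _ _ _ H94 with ⟨p12, q12⟩ | ⟨p12, q12⟩
                          · linarith only [q11, hL, hA, na5, q1, nb2, hB, q12, na3, nc2, q7, hC, q2, h1L, p7]
                          · linarith only [q12, hA, q2, na5, q1, nc4, p5, hB, nb4, hL, hC, p11, nc2, na3, na4, p9]
                        · rcases lpsplit _ _ _ H44 with ⟨p12, q12⟩ | ⟨p12, q12⟩
                          · rcases lpsplit _ _ _ H85 with ⟨p13, q13⟩ | ⟨p13, q13⟩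
                            · rcases lpsplit _ _ _ H95 with ⟨p14, q14⟩ | ⟨p14, q14⟩
                              · linarith only [na2, hA, hL, q10, nc4, q13, hB, h1L, q11, q14, hC, q7, q2, q12]
                              · rcases lpsplit _ _ _ H96 with ⟨p15, q15⟩ | ⟨p15, q15⟩
                                · linarith only [q15, na2, hA, hL, q10, nc4, nb2, h1L, hB, nb5, q6, q14, hC, q13, q7, q2, q12]
                                · linarith only [na2, hA, p10, na5, nb1, nb2, p6, hB, nb5, nc1, p13, p12, hL, nc4, q15, hC, p7]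
                            · rcases lpsplit _ _ _ H33 with ⟨p14, q14⟩ | ⟨p14, q14⟩
                              · linarith only [nc1, na2, na3, q13, hB, q1, q12, q14, na5, hL, hA, hC, nc4, q7, h1L, q10]
                              · linarith only [hL, na5, T2, na2, hA, hB, nb5, nb2, q14, nc4, q2, q10, hC, nc5, q1, q12, q3]
                          · rcases lpsplit _ _ _ H28 with ⟨p13, q13⟩ | ⟨p13, q13⟩
                            · rcases lpsplit _ _ _ H97 with ⟨p14, q14⟩ | ⟨p14, q14⟩
                              · linarith only [hL, q14, hA, q1, nb4, q11, nb3, nc4, hB, q12, q2, T2, hC, q6, q7, q13, na5]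
                              · rcases lpsplit _ _ _ H59 with ⟨p15, q15⟩ | ⟨p15, q15⟩
                                · rcases lpsplit _ _ _ H98 with ⟨p16, q16⟩ | ⟨p16, q16⟩
                                  · rcases lpsplit _ _ _ H83 with ⟨p17, q17⟩ | ⟨p17, q17⟩
                                    · linarith only [q13, q14, hA, na5, T2, q12, hL, hB, nc5, q15, q10, nc4, hC, nb1, h1L, q17]
                                    · linarith only [na5, hL, q14, hA, p16, nb2, q17, na3, hB, nc5, q13, nc4, hC, nb4, h1L, q15]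
                                  · linarith only [nb4, na5, hL, q13, hA, nc5, nb1, q16, nc2, hB, q2, q14, q8, hC, q9, h1L, nc4]
                                · rcases lpsplit _ _ _ H82 with ⟨p16, q16⟩ | ⟨p16, q16⟩
                                  · linarith only [q3, h1L, nb3, q12, na5, hL, hA, q2, q8, hB, nc4, q15, nc5, hC, q16, na2, q14]
                                  · rcases lpsplit _ _ _ H96 with ⟨p17, q17⟩ | ⟨p17, q17⟩
                                    · linarith only [nc5, q14, q12, na5, q17, nb2, hL, hA, hB, q2, q16, nc4, hC, q8, h1L, q13]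
                                    · linarith only [hL, p14, p15, hB, na5, nc1, hC, hA, p6, q3, nc4, p8, p17, nc5, q17, nb5, p7]
                            · linarith only [p6, p10, hA, hC, q13, nb2, na1, na5, nb5, nc5, nc2, nc4, q9, hL, q7, hB, p8]
                      · rcases lpsplit _ _ _ H27 with ⟨p11, q11⟩ | ⟨p11, q11⟩
                        · rcases lpsplit _ _ _ H99 with ⟨p12, q12⟩ | ⟨p12, q12⟩
                          · rcases lpsplit _ _ _ H25 with ⟨p13, q13⟩ | ⟨p13, q13⟩
                            · rcases lpsplit _ _ _ H67 with ⟨p14, q14⟩ | ⟨p14, q14⟩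
                              · rcases lpsplit _ _ _ H100 with ⟨p15, q15⟩ | ⟨p15, q15⟩
                                · rcases lpsplit _ _ _ H101 with ⟨p16, q16⟩ | ⟨p16, q16⟩
                                  · rcases lpsplit _ _ _ H90 with ⟨p17, q17⟩ | ⟨p17, q17⟩
                                    · linarith only [q1, na3, hA, q16, na5, q9, nb2, hL, hB, nc4, q15, q6, q17, hC, q7, h1L, q10]
                                    · rcases lpsplit _ _ _ H102 with ⟨p18, q18⟩ | ⟨p18, q18⟩
                                      · linarith only [q7, na2, hA, q3, na5, q1, q15, q16, q10, q6, q14, p11, hL, hC, hB, h1L, q18]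
                                      · linarith only [q7, hA, na3, h1L, q1, nb2, p11, q17, hB, q18, q16, nc3, hC, hL, nb1, q15]
                                  · rcases lpsplit _ _ _ H103 with ⟨p17, q17⟩ | ⟨p17, q17⟩
                                    · linarith only [hL, na2, hA, q16, q12, q7, nb2, q14, q6, hB, nc2, hC, q17, na5, nc5, h1L, nb4]
                                    · rcases lpsplit _ _ _ H86 with ⟨p18, q18⟩ | ⟨p18, q18⟩
                                      · linarith only [na5, q18, hA, q14, q13, q16, q1, q15, nb4, hB, q6, q7, q17, hC, hL, h1L, nc4]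
                                      · linarith only [na1, q18, q14, q7, nb4, nb2, q5, q9, hB, q1, nc3, q6, hL, na5, hA, hC, nc4]
                                · rcases lpsplit _ _ _ H104 with ⟨p16, q16⟩ | ⟨p16, q16⟩
                                  · linarith only [hA, na2, q12, q1, na5, hC, hL, hB, q13, nc1, q15, q14, q3, q10, q7, nb4, q16]
                                  · linarith only [p11, q12, hA, q16, q15, q1, na5, na3, hB, q13, q6, q3, hL, hC, na2, nc4, nc1]
                              · rcases lpsplit _ _ _ H105 with ⟨p15, q15⟩ | ⟨p15, q15⟩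
                                · linarith only [hA, na3, nc2, q14, q12, hC, hL, na5, q11, hB, q13, h1L, q10, nc5, nb2, q15, q2]
                                · rcases lpsplit _ _ _ H90 with ⟨p16, q16⟩ | ⟨p16, q16⟩
                                  · linarith only [na5, na2, hA, q13, q12, q11, nb4, hC, hL, q16, q14, na3, hB, q10, q1, q15, q6]
                                  · linarith only [q6, na2, hA, hB, q13, hL, q11, q15, q16, q2, na5, q3, hC, q14, q1, na3, nc5]
                            · rcases lpsplit _ _ _ H33 with ⟨p14, q14⟩ | ⟨p14, q14⟩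
                              · linarith only [hB, na2, q1, q12, nb4, hL, q14, hA, na3, nb2, hC, q13, q10, nc5, q7, q6, q11]
                              · linarith only [q5, na2, na3, q1, hA, hL, q14, nb2, p11, hB, q13, na5, nc4, hC, q10, q3, nc5]
                          · linarith only [hA, hB, hC, hL, h1L, na1, na2, na3, na4, na5, nb1, nb2, nb3, nb4, nb5, nc1, nc2, nc3, nc4, nc5, p0, p1, p2, p3, p4, p5, p6, p7, p8, p9, p10, p11, p12, q0, q1, q2, q3, q4, q5, q6, q7, q8, q9, q10, q11, q12]
                        · rcases lpsplit _ _ _ H25 with ⟨p12, q12⟩ | ⟨p12, q12⟩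
                          · rcases lpsplit _ _ _ H86 with ⟨p13, q13⟩ | ⟨p13, q13⟩
                            · rcases lpsplit _ _ _ H106 with ⟨p14, q14⟩ | ⟨p14, q14⟩
                              · rcases lpsplit _ _ _ H28 with ⟨p15, q15⟩ | ⟨p15, q15⟩
                                · rcases lpsplit _ _ _ H24 with ⟨p16, q16⟩ | ⟨p16, q16⟩
                                  · linarith only [nc1, q10, q11, q13, hA, hC, nb2, q1, hB, hL, na2, q16, q6, na5, q7, h1L, q14]
                                  · rcases lpsplit _ _ _ H107 with ⟨p17, q17⟩ | ⟨p17, q17⟩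
                                    · rcases lpsplit _ _ _ H108 with ⟨p18, q18⟩ | ⟨p18, q18⟩
                                      · linarith only [q10, q12, na2, q18, hA, q15, q2, na5, q13, hB, hL, na3, nb5, hC, nc4, h1L, p10]
                                      · linarith only [q13, na3, nb5, hA, q18, q15, q1, q14, hB, q16, hL, na5, q6, hC, q12, h1L, q17]
                                    · rcases lpsplit _ _ _ H52 with ⟨p18, q18⟩ | ⟨p18, q18⟩
                                      · linarith only [hL, q18, hA, q13, nc2, q14, q7, q6, na2, hB, q10, nb2, hC, q12, h1L, q11]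
                                      · linarith only [na2, p14, hA, na3, q15, q11, nb2, q6, q17, hB, q18, hL, na5, q13, q12, h1L, hC]
                                · linarith only [nc4, q1, hA, q13, p6, q12, q14, q15, hB, hL, na1, q11, hC, q7, h1L]
                              · rcases lpsplit _ _ _ H67 with ⟨p15, q15⟩ | ⟨p15, q15⟩
                                · rcases lpsplit _ _ _ H109 with ⟨p16, q16⟩ | ⟨p16, q16⟩
                                  · linarith only [hL, q10, q16, q14, hA, q1, q11, nc1, na5, hB, q15, q3, q7, hC, q13, h1L, q6]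
                                  · linarith only [q7, q13, hA, q6, na5, q14, hL, nb5, h1L, hB, nb2, q12, q1, hC, nb1, q16, q3]
                                · rcases lpsplit _ _ _ H110 with ⟨p16, q16⟩ | ⟨p16, q16⟩
                                  · rcases lpsplit _ _ _ H111 with ⟨p17, q17⟩ | ⟨p17, q17⟩
                                    · linarith only [nb5, q1, na2, nc2, hA, q17, hL, na5, nc1, hB, q15, q10, q16, hC, q7, h1L, q3]
                                    · linarith only [nb5, na2, q10, q17, q14, hA, q6, q16, hB, q13, nc2, hL, q1, hC, q7, h1L, nb2]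
                                  · rcases lpsplit _ _ _ H103 with ⟨p17, q17⟩ | ⟨p17, q17⟩
                                    · linarith only [q2, na2, na3, q13, hA, q17, nc2, nc5, p14, hB, q11, q12, q16, hC, hL, nb2, q10]
                                    · rcases lpsplit _ _ _ H47 with ⟨p18, q18⟩ | ⟨p18, q18⟩
                                      · linarith only [q13, na2, na3, nc2, nb5, hL, q16, q2, hB, q17, na5, q14, q12, hC, q18, q6, hA]
                                      · linarith only [nc5, na2, na5, q16, hL, q14, q2, na1, q11, q15, hC, nb5, hA, hB, q18, q6, nc1]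
                            · linarith only [q7, hA, na1, q1, q11, q2, na5, hB, hL, q6, q10, hC, p12, nc4, q13, q12, q9]
                          · rcases lpsplit _ _ _ H28 with ⟨p13, q13⟩ | ⟨p13, q13⟩
                            · rcases lpsplit _ _ _ H112 with ⟨p14, q14⟩ | ⟨p14, q14⟩
                              · linarith only [hL, na2, na3, q12, hA, q11, q3, q13, q1, hB, q14, q10, nc4, hC, na5, nc5, q6]
                              · linarith only [hC, q12, q14, hL, q11, q2, q13, p12, hB, q1, p5, nc5, q6, p10, na5, hA, q9]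
                            · rcases lpsplit _ _ _ H113 with ⟨p14, q14⟩ | ⟨p14, q14⟩
                              · linarith only [hL, na2, q12, q1, hA, nb5, na5, q13, q14, nb1, hC, q9, nc4, nc5, q7, p6, hB]
                              · linarith only [q2, na2, hL, q12, q4, p6, q13, na5, q3, nc1, q7, hC, q14, nc5, q11, hA, hB]
                    · linarith only [p5, hA, p8, na5, q1, na3, q7, nb4, hL, p6, nc2, na1, nc4, hC, hB, q2, q9]
                  · rcases lpsplit _ _ _ H93 with ⟨p9, q9⟩ | ⟨p9, q9⟩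
                    · rcases lpsplit _ _ _ H66 with ⟨p10, q10⟩ | ⟨p10, q10⟩
                      · rcases lpsplit _ _ _ H99 with ⟨p11, q11⟩ | ⟨p11, q11⟩
                        · rcases lpsplit _ _ _ H94 with ⟨p12, q12⟩ | ⟨p12, q12⟩
                          · rcases lpsplit _ _ _ H112 with ⟨p13, q13⟩ | ⟨p13, q13⟩
                            · rcases lpsplit _ _ _ H31 with ⟨p14, q14⟩ | ⟨p14, q14⟩
                              · linarith only [q13, hA, q11, na3, q14, q10, nb3, hB, q8, hL, na5, T2]
                              · linarith only [q8, q13, na3, q11, hA, q2, hB, nb3, q14, hC, nc5, q10, nc4, hL, q7, q0, nb2]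
                            · linarith only [q13, hA, p8, na5, p12, hL, nb3, nb4, hB, nc1, p5, q2, hC, nc5, q7, q10, q9]
                          · linarith only [p5, q12, hL, p8, na5, nc2, q6, nc4, hB, q7, hC, q2, nb3, na3, q1, hA, p9]
                        · linarith only [nb3, na4, na3, q6, na5, nc1, nb2, hB, p3, hL, hC, nb5, p11, nc4, nc5, q11, hA]
                      · linarith only [hL, na2, na5, nc5, hA, nb3, p6, hB, nb4, hC, q7, q3, nc4, nc1, q10, q2, p7]
                    · linarith only [p5, hA, nc2, na5, q1, hL, na3, nb4, nb5, nb2, hC, q2, nc4, nc5, q7, hB, q9]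
              · rcases lpsplit _ _ _ H114 with ⟨p7, q7⟩ | ⟨p7, q7⟩
                · rcases lpsplit _ _ _ H97 with ⟨p8, q8⟩ | ⟨p8, q8⟩
                  · rcases lpsplit _ _ _ H11 with ⟨p9, q9⟩ | ⟨p9, q9⟩
                    · rcases lpsplit _ _ _ H51 with ⟨p10, q10⟩ | ⟨p10, q10⟩
                      · rcases lpsplit _ _ _ H115 with ⟨p11, q11⟩ | ⟨p11, q11⟩
                        · rcases lpsplit _ _ _ H41 with ⟨p12, q12⟩ | ⟨p12, q12⟩
                          · rcases lpsplit _ _ _ H112 with ⟨p13, q13⟩ | ⟨p13, q13⟩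
                            · rcases lpsplit _ _ _ H116 with ⟨p14, q14⟩ | ⟨p14, q14⟩
                              · rcases lpsplit _ _ _ H117 with ⟨p15, q15⟩ | ⟨p15, q15⟩
                                · rcases lpsplit _ _ _ H118 with ⟨p16, q16⟩ | ⟨p16, q16⟩
                                  · rcases lpsplit _ _ _ H119 with ⟨p17, q17⟩ | ⟨p17, q17⟩
                                    · linarith only [q6, q14, q16, hA, q17, nb4, hB, nb5, hC, q10, q11, hL, h1L]
                                    · linarith only [q15, na3, q12, q14, hA, nb4, hL, hB, nb5, q6, na1, q17, hC, q9, h1L, na4]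
                                  · linarith only [q15, q16, q14, na3, hA, na2, nb2, hB, nb5, nb4, q10, hC, q9, hL, q13, nc2, nc3]
                                · linarith only [na2, q12, na3, q14, hA, q11, nb4, hB, hL, q15, q10, q6, hC, q9, h1L, nb5]
                              · rcases lpsplit _ _ _ H120 with ⟨p15, q15⟩ | ⟨p15, q15⟩
                                · rcases lpsplit _ _ _ H90 with ⟨p16, q16⟩ | ⟨p16, q16⟩
                                  · linarith only [nc2, q14, nc3, hA, q7, nb5, q6, hB, nb4, q16, q10, hL, nc4, hC, q8, q13, q15]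
                                  · linarith only [q1, q12, q6, hA, hL, hB, q9, hC, nb4, nb5, na2, q15, q14, q2, q8, q10, q16]
                                · rcases lpsplit _ _ _ H14 with ⟨p16, q16⟩ | ⟨p16, q16⟩
                                  · linarith only [q6, nc3, q2, nb5, hA, q10, q15, nb4, hB, nc4, na5, q16, q9, hL, q7, hC, q11]
                                  · linarith only [q11, na5, q16, q7, hA, nb4, q13, q12, hB, nb5, q6, q10, nc3, hC, q9, q14, hL]
                            · linarith only [q13, p7, hA, na4, q1, p11, na3, hB, nb5, nc4, p5, nc3, nc2, hC, hL, p6]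
                          · linarith only [q12, T0, p9, hA, na3, q1, q11, na4, hB, nb5, q6, nc2, nc3, hL, q7, hC, q5]
                        · rcases lpsplit _ _ _ H121 with ⟨p12, q12⟩ | ⟨p12, q12⟩
                          · rcases lpsplit _ _ _ H25 with ⟨p13, q13⟩ | ⟨p13, q13⟩
                            · rcases lpsplit _ _ _ H24 with ⟨p14, q14⟩ | ⟨p14, q14⟩
                              · linarith only [hA, na4, q6, q8, hC, nb5, q3, hB, nb4, q13, q1, q14, hL, nc5, q7, q12, q11]
                              · linarith only [hA, nc5, q6, q1, q7, hC, na1, hB, nb5, q13, q12, q14, hL, nc1, q8, T1, na3]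
                            · linarith only [q8, q3, na3, na4, hA, q6, hC, q4, hB, nb5, q13, nc4, hL, nc5, q7, nb4]
                          · rcases lpsplit _ _ _ H122 with ⟨p13, q13⟩ | ⟨p13, q13⟩
                            · linarith only [q6, q3, q2, hA, q7, q4, q12, hB, nb4, nb5, q8, q13, nc4, hL, na5, hC, q5]
                            · linarith only [nc2, p7, q13, hA, q1, q2, q6, q12, hB, nb5, na4, q5, q3, hL, q7, hC, nc5]
                      · linarith only [q3, p5, hL, na2, hC, p4, q1, hB, na4, na1, hA, nb4, nc4, q10, q7]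
                    · rcases lpsplit _ _ _ H69 with ⟨p10, q10⟩ | ⟨p10, q10⟩
                      · rcases lpsplit _ _ _ H123 with ⟨p11, q11⟩ | ⟨p11, q11⟩
                        · rcases lpsplit _ _ _ H72 with ⟨p12, q12⟩ | ⟨p12, q12⟩
                          · rcases lpsplit _ _ _ H51 with ⟨p13, q13⟩ | ⟨p13, q13⟩
                            · rcases lpsplit _ _ _ H112 with ⟨p14, q14⟩ | ⟨p14, q14⟩
                              · rcases lpsplit _ _ _ H118 with ⟨p15, q15⟩ | ⟨p15, q15⟩
                                · rcases lpsplit _ _ _ H124 with ⟨p16, q16⟩ | ⟨p16, q16⟩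
                                  · rcases lpsplit _ _ _ H125 with ⟨p17, q17⟩ | ⟨p17, q17⟩
                                    · rcases lpsplit _ _ _ H126 with ⟨p18, q18⟩ | ⟨p18, q18⟩
                                      · linarith only [q6, q18, hL, na4, hA, nc5, q12, na1, nb4, hB, q17, nc2, nb5, hC, q9, h1L, na2]
                                      · linarith only [nc2, na2, T1, hA, na4, hL, q7, hB, nb4, hC, q13, nc3, q12, q6, q17, q18, q10]
                                    · linarith only [q12, q14, nb4, hA, nc3, na2, nb2, hB, nb5, p16, q13, hL, hC, h1L, q17]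
                                  · linarith only [p15, T1, hA, q1, q16, q13, hB, nb5, nb4, hL, hC, h1L, q14]
                                · linarith only [nb2, q14, na3, q8, hA, p11, hC, nb4, hB, nb5, q13, hL, nc3, nc5, q15]
                              · linarith only [nb2, na3, na4, hA, p10, p12, p9, nb4, hB, hL, p5, q14, p14, hC, q7, q2, nc3]
                            · linarith only [hL, na2, p11, na5, nb1, nb2, p9, hB, nb5, p10, hC, nc3, q3, nc5, q13, hA, nb4]
                          · rcases lpsplit _ _ _ H48 with ⟨p13, q13⟩ | ⟨p13, q13⟩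
                            · rcases lpsplit _ _ _ H47 with ⟨p14, q14⟩ | ⟨p14, q14⟩
                              · linarith only [hA, nb1, hC, hB, q14, q9, q11, nb5, hL, q7, nc2, q12, q13, q6, q8, q10, nc3]
                              · linarith only [hL, na2, q13, q3, hA, nb5, q8, hB, nb4, q6, nc2, hC, q14, nc5, q1, q10, q2]
                            · linarith only [q6, na2, hA, nb5, q13, hL, q12, hB, na1, q10, nc2, hC, na5, nc5, q7, nc3]
                        · rcases lpsplit _ _ _ H127 with ⟨p12, q12⟩ | ⟨p12, q12⟩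
                          · rcases lpsplit _ _ _ H112 with ⟨p13, q13⟩ | ⟨p13, q13⟩
                            · rcases lpsplit _ _ _ H51 with ⟨p14, q14⟩ | ⟨p14, q14⟩
                              · linarith only [p11, na3, q14, hA, q13, nb4, nb2, q8, hB, nb5, nc2, nc3, hC, nc5, hL]
                              · linarith only [nb1, p5, hL, na5, nb4, nb2, p9, hB, nb5, p10, hC, nc3, na2, nc5, q14, hA]
                            · linarith only [nb2, na1, hA, p10, q1, p11, nc5, hB, nb5, hL, p5, nc3, na3, hC, q7, q2, q13]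
                          · linarith only [na3, na2, q12, hA, nb4, p4, hC, p8, nb2, nb5, p10, p5, hL, p12, nc5, q9, hB]
                      · rcases lpsplit _ _ _ H127 with ⟨p11, q11⟩ | ⟨p11, q11⟩
                        · rcases lpsplit _ _ _ H128 with ⟨p12, q12⟩ | ⟨p12, q12⟩
                          · linarith only [na5, q7, q2, hA, q3, q10, q11, hB, nb4, q6, hL, hC, T1, nc3, q9, q1, q12]
                          · linarith only [q3, q1, na4, hA, q2, q0, p9, hB, nb4, nb5, hL, nc2, q12, nc5, na5, hC]
                        · linarith only [p5, na5, p11, hL, hA, p0, nc2, nc5, nb5, hC, p4, na4, hB, q11, nb4, q9]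
                  · rcases lpsplit _ _ _ H51 with ⟨p9, q9⟩ | ⟨p9, q9⟩
                    · rcases lpsplit _ _ _ H129 with ⟨p10, q10⟩ | ⟨p10, q10⟩
                      · rcases lpsplit _ _ _ H99 with ⟨p11, q11⟩ | ⟨p11, q11⟩
                        · rcases lpsplit _ _ _ H90 with ⟨p12, q12⟩ | ⟨p12, q12⟩
                          · rcases lpsplit _ _ _ H124 with ⟨p13, q13⟩ | ⟨p13, q13⟩
                            · rcases lpsplit _ _ _ H118 with ⟨p14, q14⟩ | ⟨p14, q14⟩
                              · rcases lpsplit _ _ _ H130 with ⟨p15, q15⟩ | ⟨p15, q15⟩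
                                · rcases lpsplit _ _ _ H125 with ⟨p16, q16⟩ | ⟨p16, q16⟩
                                  · rcases lpsplit _ _ _ H47 with ⟨p17, q17⟩ | ⟨p17, q17⟩
                                    · rcases lpsplit _ _ _ H24 with ⟨p18, q18⟩ | ⟨p18, q18⟩
                                      · linarith only [q17, hA, nb4, na5, q6, hL, na2, hB, na3, nc1, nb5, q18, hC, q8, h1L, q16]
                                      · linarith only [q16, q7, na2, na3, hA, q17, q18, q10, q11, hB, hL, nb5, q6, hC, q8, q12, nc4]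
                                    · linarith only [nc1, na2, hA, nb4, na5, hL, p8, hB, nb5, p12, nc2, q3, q12, hC, nc3, q17, q10]
                                  · linarith only [hL, hA, na3, nb4, q12, p15, hB, q9, p14, q7, nb5, hC, h1L, q16]
                                · linarith only [q15, hA, q9, na3, q11, nb4, na5, hB, hL, p13, q1, p14, nc4, hC, q8, h1L, nb5]
                              · linarith only [hL, hA, na3, na5, q11, q13, nb4, hB, nb5, q9, q12, nc3, q1, hC, q8, h1L, q14]
                            · rcases lpsplit _ _ _ H112 with ⟨p14, q14⟩ | ⟨p14, q14⟩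
                              · rcases lpsplit _ _ _ H11 with ⟨p15, q15⟩ | ⟨p15, q15⟩
                                · linarith only [q15, hA, na3, nb4, q6, q13, q9, hB, nb5, q14, na2, nc3, hC, na5, hL]
                                · linarith only [nb2, na2, q10, p15, q11, hL, p12, nb5, hB, nb4, nc2, q15, hC, q1, q8, na5, hA]
                              · linarith only [nb4, hA, na3, p5, na5, hL, nb2, p8, hB, nb5, nb1, hC, nc5, q7, p10, q14]
                          · rcases lpsplit _ _ _ H35 with ⟨p13, q13⟩ | ⟨p13, q13⟩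
                            · rcases lpsplit _ _ _ H47 with ⟨p14, q14⟩ | ⟨p14, q14⟩
                              · linarith only [hL, na2, nc3, na3, q6, q14, q13, q10, nb5, hB, hC, nc2, hA, q12, na5, q3, q11]
                              · linarith only [nc2, na2, hA, q14, na5, q6, q10, hB, nb4, hL, q13, q1, q2, hC, nc5, q3, nb5]
                            · rcases lpsplit _ _ _ H118 with ⟨p14, q14⟩ | ⟨p14, q14⟩
                              · rcases lpsplit _ _ _ H113 with ⟨p15, q15⟩ | ⟨p15, q15⟩
                                · linarith only [q14, na2, hA, q6, nc5, q13, q15, na5, nb5, hB, hL, nc2, q1, hC, q8, q10, q9]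
                                · linarith only [q1, na2, q8, hA, nb4, na5, q3, hB, nb5, hL, nc2, hC, q6, nc5, q15, q10, q2]
                              · linarith only [nb5, q10, hA, q9, nc3, q13, q14, q1, nb4, hB, hL, nc2, q11, hC, q8, q2, na3]
                        · linarith only [p10, hA, na2, p11, na5, nb2, nc3, hB, nb4, nb5, nc1, p5, hC, p3, hL, q11, q8]
                      · rcases lpsplit _ _ _ H99 with ⟨p11, q11⟩ | ⟨p11, q11⟩
                        · rcases lpsplit _ _ _ H113 with ⟨p12, q12⟩ | ⟨p12, q12⟩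
                          · rcases lpsplit _ _ _ H26 with ⟨p13, q13⟩ | ⟨p13, q13⟩
                            · linarith only [q11, q7, q13, na2, hA, nb5, q2, q6, nb4, hB, hL, q12, nc4, hC, q8, T2, q10]
                            · linarith only [nc5, na2, q13, q4, q8, na5, hA, q12, hB, nb5, nb4, hL, nc4, hC, q11]
                          · linarith only [p12, na2, hL, nb4, na5, q6, hA, hB, nb5, hC, nc2, q11, q12, nc5, q2, q3, q10]
                        · linarith only [hA, na3, p0, na5, hB, nc4, nb4, hL, nb5, p11, p3, hC, q11, nc5, q8]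
                    · linarith only [q3, hL, na2, q1, na5, nb1, q8, p8, hB, nb4, p5, hC, nc4, nc5, q9, hA, nb5]
                · rcases lpsplit _ _ _ H131 with ⟨p8, q8⟩ | ⟨p8, q8⟩
                  · rcases lpsplit _ _ _ H122 with ⟨p9, q9⟩ | ⟨p9, q9⟩
                    · rcases lpsplit _ _ _ H93 with ⟨p10, q10⟩ | ⟨p10, q10⟩
                      · rcases lpsplit _ _ _ H77 with ⟨p11, q11⟩ | ⟨p11, q11⟩
                        · rcases lpsplit _ _ _ H132 with ⟨p12, q12⟩ | ⟨p12, q12⟩
                          · rcases lpsplit _ _ _ H53 with ⟨p13, q13⟩ | ⟨p13, q13⟩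
                            · rcases lpsplit _ _ _ H128 with ⟨p14, q14⟩ | ⟨p14, q14⟩
                              · linarith only [hA, q14, na4, nc2, nb4, q6, na5, hB, nb5, q9, q13, hL, q2, q7, hC, q12]
                              · linarith only [q14, q2, q4, na5, hA, q6, q10, nb4, hB, hL, q9, q11, nc5, na4, q7, hC, nb5]
                            · linarith only [hA, p5, q3, na4, q7, q1, nb2, q8, nb4, hB, p4, hL, nc4, q12, q13, hC, p6]
                          · rcases lpsplit _ _ _ H99 with ⟨p13, q13⟩ | ⟨p13, q13⟩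
                            · linarith only [q13, hL, nc2, hA, na5, nb5, q11, q10, hB, hC, q12, q4, na4, nc5, q7, q6]
                            · linarith only [hA, na3, hL, na4, na5, hC, nb2, p7, hB, nb5, nc2, p13, nc4, nc5, q13, nb4]
                        · linarith only [nc4, q2, q3, hA, na5, nb1, nc5, hB, nb4, nc2, p4, nb3, hL, na4, q11, hC, nb5]
                      · linarith only [hA, p9, na4, q10, q1, nc4, q5, hB, nb4, nc2, na5, na1, hL, nc5, q7, hC, nb5]
                    · linarith only [hL, hC, q1, na4, q9, nb1, q5, na5, hB, nb5, q6, nc2, nc3, nc5, q7, hA, q2]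
                  · linarith only [hA, hB, hC, hL, h1L, na1, na2, na3, na4, na5, nb1, nb2, nb3, nb4, nb5, nc1, nc2, nc3, nc4, nc5, p0, p1, p2, p3, p4, p5, p6, p7, p8, q0, q1, q2, q3, q4, q5, q6, q7, q8]
            · rcases lpsplit _ _ _ H41 with ⟨p6, q6⟩ | ⟨p6, q6⟩
              · linarith only [hL, hA, na4, na5, q1, q5, hC, nb4, nb5, q4, q6, T2, nc4, nc5, q2, hB, nb2]
              · linarith only [hL, hA, na4, na5, q1, q5, nb5, hB, T0, q2, q0, nb2, na3, nc5, q6, hC]
          · rcases lpsplit _ _ _ H47 with ⟨p5, q5⟩ | ⟨p5, q5⟩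
            · linarith only [q3, q2, q0, na2, na5, na4, hB, nb4, nb5, q4, q5, hC, nc4, nc5, hL, hA, T2]
            · linarith only [q3, q2, na5, hA, T1, hL, hB, nb4, nb5, q0, q4, nc4, na4, nc5, q5, hC, na2]
        · linarith only [q2, q1, hA, na4, na5, nb5, nb2, nb3, hB, hL, hC, nc2, nc3, nc5, q3, T0, q0]
      · linarith only [hB, na2, na3, hA, na5, q0, nb2, nb3, nb5, hL, nc3, nc4, nc5, q2, hC, T2]
    · linarith only [hC, na2, na3, hA, na5, hL, q0, nb3, nb4, nb5, nc2, nc3, nc5, q1, hB, T1]
  · linarith only [q0, hL, nb3, nb4, nb5, nc2, hC, nc3, nc4, nc5, T0, hB, nb2]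

end Pool.Agent.Work.MP_a793bb_nt.BPlus
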