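import Pool.Agent.Work.MP_a793bb_nt.Types
import Pool.Agent.Work.MP_a793bb_nt.LPCore

set_option autoImplicit false
set_option linter.unusedSectionVars false
set_option linter.unusedSimpArgs false
set_option linter.unreachableTactic false
set_option linter.unusedTactic false
set_option linter.unnecessarySeqFocus false
set_option maxRecDepth 100000

namespace Pool.Agent.Work.MP_a793bb_nt

namespace BPlus

/-! The combinatorial optimisation for the exponent `80/133`: translation from the generic form to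
the explicit one. -/

lemma cost_conv {β : BT} {w : Fin 3 → Fin 5 → ℝ} {A B κ : ℝ} (hA : costA β w = A)
    (hB : costB β w = B) (h : κ < cost β w) : κ < A + max 0 (B - 1) := by
  rw [← hA, ← hB]; exact h

lemma cost_convT {β : BT} {w : Fin 3 → Fin 5 → ℝ} {A B κ : ℝ} (hA : costA β w = A)
    (hB : costB β w = B) (hB1 : B ≤ 1) (h : κ < cost β w) : κ < A := by
  have h1 := cost_conv hA hB h
  rwa [max_eq_left (by linarith), add_zero] at h1

lemma lpwT0 (w : Fin 3 → Fin 5 → ℝ) (κ : ℝ)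
    (hcon : ∀ β : BT, Valid β → κ < cost β w) (hT : w 0 0 + 2*w 0 1 + 3*w 0 2 + 4*w 0 3 + 5*w 0 4 ≤ 1) :
    κ < w 1 0 + w 1 1 + w 1 2 + w 1 3 + w 1 4 + w 2 0 + w 2 1 + w 2 2 + w 2 3 + w 2 4 := by
  refine cost_convT (β := (0, 0, ![![true, true, true, true, true], ![false, false, false, false, false], ![false, false, false, false, false]])) ?_ ?_ hT (hcon _ ?_)
  · simp [costA, Fin.sum_univ_three, Fin.sum_univ_five] <;> ring
  · simp [costB, coef, Fin.sum_univ_three, Fin.sum_univ_five] <;> first | (left; ring) | ring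
  · unfold Valid
    decide

lemma lpwT1 (w : Fin 3 → Fin 5 → ℝ) (κ : ℝ)
    (hcon : ∀ β : BT, Valid β → κ < cost β w) (hT : w 1 0 + 2*w 1 1 + 3*w 1 2 + 4*w 1 3 + 5*w 1 4 ≤ 1) :
    κ < w 0 0 + w 0 1 + w 0 2 + w 0 3 + w 0 4 + w 2 0 + w 2 1 + w 2 2 + w 2 3 + w 2 4 := by
  refine cost_convT (β := (0, 1, ![![false, false, false, false, false], ![true, true, true, true, true], ![false, false, false, false, false]])) ?_ ?_ hT (hcon _ ?_)
  · simp [costA, Fin.sum_univ_three, Fin.sum_univ_five] <;> ring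
  · simp [costB, coef, Fin.sum_univ_three, Fin.sum_univ_five] <;> first | (left; ring) | ring
  · unfold Valid
    decide

lemma lpwT2 (w : Fin 3 → Fin 5 → ℝ) (κ : ℝ)
    (hcon : ∀ β : BT, Valid β → κ < cost β w) (hT : w 2 0 + 2*w 2 1 + 3*w 2 2 + 4*w 2 3 + 5*w 2 4 ≤ 1) :
    κ < w 0 0 + w 0 1 + w 0 2 + w 0 3 + w 0 4 + w 1 0 + w 1 1 + w 1 2 + w 1 3 + w 1 4 := by
  refine cost_convT (β := (0, 2, ![![false, false, false, false, false], ![false, false, false, false, false], ![true, true, true, true, true]])) ?_ ?_ hT (hcon _ ?_)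
  · simp [costA, Fin.sum_univ_three, Fin.sum_univ_five] <;> ring
  · simp [costB, coef, Fin.sum_univ_three, Fin.sum_univ_five] <;> first | (left; ring) | ring
  · unfold Valid
    decide

lemma lpwH0 (w : Fin 3 → Fin 5 → ℝ) (κ : ℝ)
    (hcon : ∀ β : BT, Valid β → κ < cost β w) :
    κ < (w 0 1 + w 0 2 + w 0 3 + w 0 4 + w 1 1 + w 1 2 + w 1 3 + w 1 4 + w 2 1 + w 2 2 + w 2 3 + w 2 4) + max 0 (w 0 0 + w 1 0 + w 2 0 - 1) := by
  refine cost_conv (β := (0, 2, ![![true, false, false, false, false], ![true, false, false, false, false], ![true, false, false, false, false]])) ?_ ?_ (hcon _ ?_)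
  · simp [costA, Fin.sum_univ_three, Fin.sum_univ_five] <;> ring
  · simp [costB, coef, Fin.sum_univ_three, Fin.sum_univ_five] <;> first | (left; ring) | ring
  · unfold Valid
    decide

lemma lpwH1 (w : Fin 3 → Fin 5 → ℝ) (κ : ℝ)
    (hcon : ∀ β : BT, Valid β → κ < cost β w) :
    κ < (w 0 0 + w 0 2 + w 0 4 + w 1 1 + w 1 2 + w 1 3 + w 1 4 + w 2 0 + w 2 2 + w 2 4) + max 0 (w 0 1 + 2*w 0 3 + w 1 0 + w 2 1 + 2*w 2 3 - 1) := by
  refine cost_conv (β := (1, 1, ![![false, true, false, true, false], ![true, false, false, false, false], ![false, true, false, true, false]])) ?_ ?_ (hcon _ ?_)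
  · simp [costA, Fin.sum_univ_three, Fin.sum_univ_five] <;> ring
  · simp [costB, coef, Fin.sum_univ_three, Fin.sum_univ_five] <;> first | (left; ring) | ring
  · unfold Valid
    decide

lemma lpwH2 (w : Fin 3 → Fin 5 → ℝ) (κ : ℝ)
    (hcon : ∀ β : BT, Valid β → κ < cost β w) :
    κ < (w 0 0 + w 0 2 + w 0 4 + w 1 0 + w 1 2 + w 1 4 + w 2 1 + w 2 2 + w 2 3 + w 2 4) + max 0 (w 0 1 + 2*w 0 3 + w 1 1 + 2*w 1 3 + w 2 0 - 1) := by
  refine cost_conv (β := (1, 2, ![![false, true, false, true, false], ![false, true, false, true, false], ![true, false, false, false, false]])) ?_ ?_ (hcon _ ?_)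
  · simp [costA, Fin.sum_univ_three, Fin.sum_univ_five] <;> ring
  · simp [costB, coef, Fin.sum_univ_three, Fin.sum_univ_five] <;> first | (left; ring) | ring
  · unfold Valid
    decide

lemma lpwH3 (w : Fin 3 → Fin 5 → ℝ) (κ : ℝ)
    (hcon : ∀ β : BT, Valid β → κ < cost β w) :
    κ < (w 0 1 + w 0 2 + w 0 3 + w 0 4 + w 1 0 + w 1 2 + w 1 4 + w 2 0 + w 2 2 + w 2 4) + max 0 (w 0 0 + w 1 1 + 2*w 1 3 + w 2 1 + 2*w 2 3 - 1) := by
  refine cost_conv (β := (1, 0, ![![true, false, false, false, false], ![false, true, false, true, false], ![false, true, false, true, false]])) ?_ ?_ (hcon _ ?_)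
  · simp [costA, Fin.sum_univ_three, Fin.sum_univ_five] <;> ring
  · simp [costB, coef, Fin.sum_univ_three, Fin.sum_univ_five] <;> first | (left; ring) | ring
  · unfold Valid
    decide

lemma lpwH4 (w : Fin 3 → Fin 5 → ℝ) (κ : ℝ)
    (hcon : ∀ β : BT, Valid β → κ < cost β w) :
    κ < (w 0 0 + w 0 1 + w 0 2 + w 0 3 + w 0 4 + w 1 2 + w 1 3 + w 1 4 + w 2 2 + w 2 3 + w 2 4) + max 0 (w 1 0 + 2*w 1 1 + w 2 0 + 2*w 2 1 - 1) := by
  refine cost_conv (β := (0, 2, ![![false, false, false, false, false], ![true, true, false, false, false], ![true, true, false, false, false]])) ?_ ?_ (hcon _ ?_)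
  · simp [costA, Fin.sum_univ_three, Fin.sum_univ_five] <;> ring
  · simp [costB, coef, Fin.sum_univ_three, Fin.sum_univ_five] <;> first | (left; ring) | ring
  · unfold Valid
    decide

lemma lpwH5 (w : Fin 3 → Fin 5 → ℝ) (κ : ℝ)
    (hcon : ∀ β : BT, Valid β → κ < cost β w) :
    κ < (w 0 2 + w 0 3 + w 0 4 + w 1 0 + w 1 1 + w 1 2 + w 1 3 + w 1 4 + w 2 2 + w 2 3 + w 2 4) + max 0 (w 0 0 + 2*w 0 1 + w 2 0 + 2*w 2 1 - 1) := by
  refine cost_conv (β := (0, 2, ![![true, true, false, false, false], ![false, false, false, false, false], ![true, true, false, false, false]])) ?_ ?_ (hcon _ ?_)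
  · simp [costA, Fin.sum_univ_three, Fin.sum_univ_five] <;> ring
  · simp [costB, coef, Fin.sum_univ_three, Fin.sum_univ_five] <;> first | (left; ring) | ring
  · unfold Valid
    decide

lemma lpwH6 (w : Fin 3 → Fin 5 → ℝ) (κ : ℝ)
    (hcon : ∀ β : BT, Valid β → κ < cost β w) :
    κ < (w 0 1 + w 0 2 + w 0 3 + w 0 4 + w 1 3 + w 1 4 + w 2 1 + w 2 2 + w 2 3 + w 2 4) + max 0 (w 0 0 + w 1 0 + 2*w 1 1 + 3*w 1 2 + w 2 0 - 1) := by
  refine cost_conv (β := (0, 2, ![![true, false, false, false, false], ![true, true, true, false, false], ![true, false, false, false, false]])) ?_ ?_ (hcon _ ?_)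
  · simp [costA, Fin.sum_univ_three, Fin.sum_univ_five] <;> ring
  · simp [costB, coef, Fin.sum_univ_three, Fin.sum_univ_five] <;> first | (left; ring) | ring
  · unfold Valid
    decide

lemma lpwH7 (w : Fin 3 → Fin 5 → ℝ) (κ : ℝ)
    (hcon : ∀ β : BT, Valid β → κ < cost β w) :
    κ < (w 0 2 + w 0 4 + w 1 0 + w 1 1 + w 1 3 + w 1 4 + w 2 0 + w 2 1 + w 2 3 + w 2 4) + max 0 (w 0 0 + 2*w 0 1 + 4*w 0 3 + w 1 2 + w 2 2 - 1) := by
  refine cost_conv (β := (2, 0, ![![true, true, false, true, false], ![false, false, true, false, false], ![false, false, true, false, false]])) ?_ ?_ (hcon _ ?_)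
  · simp [costA, Fin.sum_univ_three, Fin.sum_univ_five] <;> ring
  · simp [costB, coef, Fin.sum_univ_three, Fin.sum_univ_five] <;> first | (left; ring) | ring
  · unfold Valid
    decide

lemma lpwH8 (w : Fin 3 → Fin 5 → ℝ) (κ : ℝ)
    (hcon : ∀ β : BT, Valid β → κ < cost β w) :
    κ < (w 0 0 + w 0 1 + w 0 2 + w 0 3 + w 0 4 + w 1 1 + w 1 2 + w 1 3 + w 1 4 + w 2 1 + w 2 3 + w 2 4) + max 0 (w 1 0 + w 2 0 + 3*w 2 2 - 1) := by
  refine cost_conv (β := (0, 2, ![![false, false, false, false, false], ![true, false, false, false, false], ![true, false, true, false, false]])) ?_ ?_ (hcon _ ?_)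
  · simp [costA, Fin.sum_univ_three, Fin.sum_univ_five] <;> ring
  · simp [costB, coef, Fin.sum_univ_three, Fin.sum_univ_five] <;> first | (left; ring) | ring
  · unfold Valid
    decide

lemma lpwH9 (w : Fin 3 → Fin 5 → ℝ) (κ : ℝ)
    (hcon : ∀ β : BT, Valid β → κ < cost β w) :
    κ < (w 0 2 + w 0 3 + w 0 4 + w 1 1 + w 1 2 + w 1 3 + w 1 4 + w 2 3 + w 2 4) + max 0 (w 0 0 + 2*w 0 1 + w 1 0 + w 2 0 + 2*w 2 1 + 3*w 2 2 - 1) := by
  refine cost_conv (β := (0, 2, ![![true, true, false, false, false], ![true, false, false, false, false], ![true, true, true, false, false]])) ?_ ?_ (hcon _ ?_)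
  · simp [costA, Fin.sum_univ_three, Fin.sum_univ_five] <;> ring
  · simp [costB, coef, Fin.sum_univ_three, Fin.sum_univ_five] <;> first | (left; ring) | ring
  · unfold Valid
    decide

lemma lpwH10 (w : Fin 3 → Fin 5 → ℝ) (κ : ℝ)
    (hcon : ∀ β : BT, Valid β → κ < cost β w) :
    κ < (w 0 1 + w 0 3 + w 0 4 + w 1 1 + w 1 2 + w 1 3 + w 1 4 + w 2 1 + w 2 3 + w 2 4) + max 0 (w 0 0 + 3*w 0 2 + w 1 0 + w 2 0 + 3*w 2 2 - 1) := by
  refine cost_conv (β := (0, 2, ![![true, false, true, false, false], ![true, false, false, false, false], ![true, false, true, false, false]])) ?_ ?_ (hcon _ ?_)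
  · simp [costA, Fin.sum_univ_three, Fin.sum_univ_five] <;> ring
  · simp [costB, coef, Fin.sum_univ_three, Fin.sum_univ_five] <;> first | (left; ring) | ring
  · unfold Valid
    decide

lemma lpwH11 (w : Fin 3 → Fin 5 → ℝ) (κ : ℝ)
    (hcon : ∀ β : BT, Valid β → κ < cost β w) :
    κ < (w 0 0 + w 0 1 + w 0 3 + w 0 4 + w 1 0 + w 1 1 + w 1 3 + w 1 4 + w 2 1 + w 2 2 + w 2 4) + max 0 (w 0 2 + w 1 2 + w 2 0 + 4*w 2 3 - 1) := by
  refine cost_conv (β := (2, 2, ![![false, false, true, false, false], ![false, false, true, false, false], ![true, false, false, true, false]])) ?_ ?_ (hcon _ ?_)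
  · simp [costA, Fin.sum_univ_three, Fin.sum_univ_five] <;> ring
  · simp [costB, coef, Fin.sum_univ_three, Fin.sum_univ_five] <;> first | (left; ring) | ring
  · unfold Valid
    decide

lemma lpwH12 (w : Fin 3 → Fin 5 → ℝ) (κ : ℝ)
    (hcon : ∀ β : BT, Valid β → κ < cost β w) :
    κ < (w 0 1 + w 0 2 + w 0 3 + w 0 4 + w 1 1 + w 1 3 + w 1 4 + w 2 2 + w 2 3 + w 2 4) + max 0 (w 0 0 + w 1 0 + 3*w 1 2 + w 2 0 + 2*w 2 1 - 1) := by
  refine cost_conv (β := (0, 2, ![![true, false, false, false, false], ![true, false, true, false, false], ![true, true, false, false, false]])) ?_ ?_ (hcon _ ?_)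
  · simp [costA, Fin.sum_univ_three, Fin.sum_univ_five] <;> ring
  · simp [costB, coef, Fin.sum_univ_three, Fin.sum_univ_five] <;> first | (left; ring) | ring
  · unfold Valid
    decide

lemma lpwH13 (w : Fin 3 → Fin 5 → ℝ) (κ : ℝ)
    (hcon : ∀ β : BT, Valid β → κ < cost β w) :
    κ < (w 0 0 + w 0 2 + w 0 4 + w 1 3 + w 1 4 + w 2 0 + w 2 2 + w 2 4) + max 0 (w 0 1 + 2*w 0 3 + w 1 0 + 2*w 1 1 + 3*w 1 2 + w 2 1 + 2*w 2 3 - 1) := by
  refine cost_conv (β := (1, 1, ![![false, true, false, true, false], ![true, true, true, false, false], ![false, true, false, true, false]])) ?_ ?_ (hcon _ ?_)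
  · simp [costA, Fin.sum_univ_three, Fin.sum_univ_five] <;> ring
  · simp [costB, coef, Fin.sum_univ_three, Fin.sum_univ_five] <;> first | (left; ring) | ring
  · unfold Valid
    decide

lemma lpwH14 (w : Fin 3 → Fin 5 → ℝ) (κ : ℝ)
    (hcon : ∀ β : BT, Valid β → κ < cost β w) :
    κ < (w 0 3 + w 0 4 + w 1 0 + w 1 2 + w 1 4 + w 2 0 + w 2 2 + w 2 4) + max 0 (w 0 0 + 2*w 0 1 + 3*w 0 2 + w 1 1 + 2*w 1 3 + w 2 1 + 2*w 2 3 - 1) := by
  refine cost_conv (β := (1, 0, ![![true, true, true, false, false], ![false, true, false, true, false], ![false, true, false, true, false]])) ?_ ?_ (hcon _ ?_)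
  · simp [costA, Fin.sum_univ_three, Fin.sum_univ_five] <;> ring
  · simp [costB, coef, Fin.sum_univ_three, Fin.sum_univ_five] <;> first | (left; ring) | ring
  · unfold Valid
    decide

lemma lpwH15 (w : Fin 3 → Fin 5 → ℝ) (κ : ℝ)
    (hcon : ∀ β : BT, Valid β → κ < cost β w) :
    κ < (w 0 0 + w 0 3 + w 0 4 + w 1 2 + w 1 3 + w 1 4 + w 2 1 + w 2 2 + w 2 3 + w 2 4) + max 0 (2*w 0 1 + 3*w 0 2 + w 1 0 + 2*w 1 1 + w 2 0 - 1) := by
  refine cost_conv (β := (0, 2, ![![false, true, true, false, false], ![true, true, false, false, false], ![true, false, false, false, false]])) ?_ ?_ (hcon _ ?_)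
  · simp [costA, Fin.sum_univ_three, Fin.sum_univ_five] <;> ring
  · simp [costB, coef, Fin.sum_univ_three, Fin.sum_univ_five] <;> first | (left; ring) | ring
  · unfold Valid
    decide

lemma lpwH16 (w : Fin 3 → Fin 5 → ℝ) (κ : ℝ)
    (hcon : ∀ β : BT, Valid β → κ < cost β w) :
    κ < (w 0 3 + w 0 4 + w 1 0 + w 1 2 + w 1 3 + w 1 4 + w 2 3 + w 2 4) + max 0 (w 0 0 + 2*w 0 1 + 3*w 0 2 + 2*w 1 1 + w 2 0 + 2*w 2 1 + 3*w 2 2 - 1) := by
  refine cost_conv (β := (0, 2, ![![true, true, true, false, false], ![false, true, false, false, false], ![true, true, true, false, false]])) ?_ ?_ (hcon _ ?_)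
  · simp [costA, Fin.sum_univ_three, Fin.sum_univ_five] <;> ring
  · simp [costB, coef, Fin.sum_univ_three, Fin.sum_univ_five] <;> first | (left; ring) | ring
  · unfold Valid
    decide

lemma lpwH17 (w : Fin 3 → Fin 5 → ℝ) (κ : ℝ)
    (hcon : ∀ β : BT, Valid β → κ < cost β w) :
    κ < (w 0 1 + w 0 2 + w 0 4 + w 1 2 + w 1 3 + w 1 4 + w 2 3 + w 2 4) + max 0 (w 0 0 + 4*w 0 3 + w 1 0 + 2*w 1 1 + w 2 0 + 2*w 2 1 + 3*w 2 2 - 1) := by
  refine cost_conv (β := (0, 2, ![![true, false, false, true, false], ![true, true, false, false, false], ![true, true, true, false, false]])) ?_ ?_ (hcon _ ?_)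
  · simp [costA, Fin.sum_univ_three, Fin.sum_univ_five] <;> ring
  · simp [costB, coef, Fin.sum_univ_three, Fin.sum_univ_five] <;> first | (left; ring) | ring
  · unfold Valid
    decide

lemma lpwH18 (w : Fin 3 → Fin 5 → ℝ) (κ : ℝ)
    (hcon : ∀ β : BT, Valid β → κ < cost β w) :
    κ < (w 0 3 + w 0 4 + w 1 1 + w 1 3 + w 1 4 + w 2 1 + w 2 2 + w 2 3 + w 2 4) + max 0 (w 0 0 + 2*w 0 1 + 3*w 0 2 + w 1 0 + 3*w 1 2 + w 2 0 - 1) := by
  refine cost_conv (β := (0, 2, ![![true, true, true, false, false], ![true, false, true, false, false], ![true, false, false, false, false]])) ?_ ?_ (hcon _ ?_)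
  · simp [costA, Fin.sum_univ_three, Fin.sum_univ_five] <;> ring
  · simp [costB, coef, Fin.sum_univ_three, Fin.sum_univ_five] <;> first | (left; ring) | ring
  · unfold Valid
    decide

lemma lpwH19 (w : Fin 3 → Fin 5 → ℝ) (κ : ℝ)
    (hcon : ∀ β : BT, Valid β → κ < cost β w) :
    κ < (w 0 2 + w 0 4 + w 1 1 + w 1 3 + w 1 4 + w 2 1 + w 2 2 + w 2 3 + w 2 4) + max 0 (w 0 0 + 2*w 0 1 + 4*w 0 3 + w 1 0 + 3*w 1 2 + w 2 0 - 1) := by
  refine cost_conv (β := (0, 2, ![![true, true, false, true, false], ![true, false, true, false, false], ![true, false, false, false, false]])) ?_ ?_ (hcon _ ?_)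
  · simp [costA, Fin.sum_univ_three, Fin.sum_univ_five] <;> ring
  · simp [costB, coef, Fin.sum_univ_three, Fin.sum_univ_five] <;> first | (left; ring) | ring
  · unfold Valid
    decide

lemma lpwH20 (w : Fin 3 → Fin 5 → ℝ) (κ : ℝ)
    (hcon : ∀ β : BT, Valid β → κ < cost β w) :
    κ < (w 0 2 + w 0 3 + w 0 4 + w 1 1 + w 1 3 + w 1 4 + w 2 1 + w 2 3 + w 2 4) + max 0 (w 0 0 + 2*w 0 1 + w 1 0 + 3*w 1 2 + w 2 0 + 3*w 2 2 - 1) := by
  refine cost_conv (β := (0, 2, ![![true, true, false, false, false], ![true, false, true, false, false], ![true, false, true, false, false]])) ?_ ?_ (hcon _ ?_)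
  · simp [costA, Fin.sum_univ_three, Fin.sum_univ_five] <;> ring
  · simp [costB, coef, Fin.sum_univ_three, Fin.sum_univ_five] <;> first | (left; ring) | ring
  · unfold Valid
    decide

lemma lpwH21 (w : Fin 3 → Fin 5 → ℝ) (κ : ℝ)
    (hcon : ∀ β : BT, Valid β → κ < cost β w) :
    κ < (w 0 1 + w 0 3 + w 0 4 + w 1 2 + w 1 4 + w 2 2 + w 2 3 + w 2 4) + max 0 (w 0 0 + 3*w 0 2 + w 1 0 + 2*w 1 1 + 4*w 1 3 + w 2 0 + 2*w 2 1 - 1) := by
  refine cost_conv (β := (0, 2, ![![true, false, true, false, false], ![true, true, false, true, false], ![true, true, false, false, false]])) ?_ ?_ (hcon _ ?_)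
  · simp [costA, Fin.sum_univ_three, Fin.sum_univ_five] <;> ring
  · simp [costB, coef, Fin.sum_univ_three, Fin.sum_univ_five] <;> first | (left; ring) | ring
  · unfold Valid
    decide

lemma lpwH22 (w : Fin 3 → Fin 5 → ℝ) (κ : ℝ)
    (hcon : ∀ β : BT, Valid β → κ < cost β w) :
    κ < (w 0 1 + w 0 3 + w 0 4 + w 1 3 + w 1 4 + w 2 3 + w 2 4) + max 0 (w 0 0 + 3*w 0 2 + w 1 0 + 2*w 1 1 + 3*w 1 2 + w 2 0 + 2*w 2 1 + 3*w 2 2 - 1) := by
  refine cost_conv (β := (0, 2, ![![true, false, true, false, false], ![true, true, true, false, false], ![true, true, true, false, false]])) ?_ ?_ (hcon _ ?_)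
  · simp [costA, Fin.sum_univ_three, Fin.sum_univ_five] <;> ring
  · simp [costB, coef, Fin.sum_univ_three, Fin.sum_univ_five] <;> first | (left; ring) | ring
  · unfold Valid
    decide

lemma lpwH23 (w : Fin 3 → Fin 5 → ℝ) (κ : ℝ)
    (hcon : ∀ β : BT, Valid β → κ < cost β w) :
    κ < (w 0 1 + w 0 2 + w 0 3 + w 0 4 + w 1 3 + w 1 4 + w 2 3 + w 2 4) + max 0 (w 0 0 + w 1 0 + 2*w 1 1 + 3*w 1 2 + w 2 0 + 2*w 2 1 + 3*w 2 2 - 1) := by
  refine cost_conv (β := (0, 2, ![![true, false, false, false, false], ![true, true, true, false, false], ![true, true, true, false, false]])) ?_ ?_ (hcon _ ?_)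
  · simp [costA, Fin.sum_univ_three, Fin.sum_univ_five] <;> ring
  · simp [costB, coef, Fin.sum_univ_three, Fin.sum_univ_five] <;> first | (left; ring) | ring
  · unfold Valid
    decide

lemma lpwH24 (w : Fin 3 → Fin 5 → ℝ) (κ : ℝ)
    (hcon : ∀ β : BT, Valid β → κ < cost β w) :
    κ < (w 0 0 + w 0 2 + w 0 4 + w 1 0 + w 1 2 + w 1 4 + w 2 3 + w 2 4) + max 0 (w 0 1 + 2*w 0 3 + w 1 1 + 2*w 1 3 + w 2 0 + 2*w 2 1 + 3*w 2 2 - 1) := by
  refine cost_conv (β := (1, 2, ![![false, true, false, true, false], ![false, true, false, true, false], ![true, true, true, false, false]])) ?_ ?_ (hcon _ ?_)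
  · simp [costA, Fin.sum_univ_three, Fin.sum_univ_five] <;> ring
  · simp [costB, coef, Fin.sum_univ_three, Fin.sum_univ_five] <;> first | (left; ring) | ring
  · unfold Valid
    decide

lemma lpwH25 (w : Fin 3 → Fin 5 → ℝ) (κ : ℝ)
    (hcon : ∀ β : BT, Valid β → κ < cost β w) :
    κ < (w 0 0 + w 0 1 + w 0 3 + w 0 4 + w 1 0 + w 1 1 + w 1 3 + w 1 4 + w 2 3 + w 2 4) + max 0 (w 0 2 + w 1 2 + w 2 0 + 2*w 2 1 + 3*w 2 2 - 1) := by
  refine cost_conv (β := (2, 2, ![![false, false, true, false, false], ![false, false, true, false, false], ![true, true, true, false, false]])) ?_ ?_ (hcon _ ?_)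
  · simp [costA, Fin.sum_univ_three, Fin.sum_univ_five] <;> ring
  · simp [costB, coef, Fin.sum_univ_three, Fin.sum_univ_five] <;> first | (left; ring) | ring
  · unfold Valid
    decide

lemma lpwH26 (w : Fin 3 → Fin 5 → ℝ) (κ : ℝ)
    (hcon : ∀ β : BT, Valid β → κ < cost β w) :
    κ < (w 0 1 + w 0 3 + w 0 4 + w 1 2 + w 1 3 + w 1 4 + w 2 2 + w 2 3 + w 2 4) + max 0 (w 0 0 + 3*w 0 2 + w 1 0 + 2*w 1 1 + w 2 0 + 2*w 2 1 - 1) := by
  refine cost_conv (β := (0, 2, ![![true, false, true, false, false], ![true, true, false, false, false], ![true, true, false, false, false]])) ?_ ?_ (hcon _ ?_)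
  · simp [costA, Fin.sum_univ_three, Fin.sum_univ_five] <;> ring
  · simp [costB, coef, Fin.sum_univ_three, Fin.sum_univ_five] <;> first | (left; ring) | ring
  · unfold Valid
    decide

lemma lpwH27 (w : Fin 3 → Fin 5 → ℝ) (κ : ℝ)
    (hcon : ∀ β : BT, Valid β → κ < cost β w) :
    κ < (w 0 0 + w 0 1 + w 0 3 + w 0 4 + w 1 4 + w 2 0 + w 2 1 + w 2 3 + w 2 4) + max 0 (w 0 2 + w 1 0 + 2*w 1 1 + 3*w 1 2 + 4*w 1 3 + w 2 2 - 1) := by
  refine cost_conv (β := (2, 1, ![![false, false, true, false, false], ![true, true, true, true, false], ![false, false, true, false, false]])) ?_ ?_ (hcon _ ?_)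
  · simp [costA, Fin.sum_univ_three, Fin.sum_univ_five] <;> ring
  · simp [costB, coef, Fin.sum_univ_three, Fin.sum_univ_five] <;> first | (left; ring) | ring
  · unfold Valid
    decide

lemma lpwH28 (w : Fin 3 → Fin 5 → ℝ) (κ : ℝ)
    (hcon : ∀ β : BT, Valid β → κ < cost β w) :
    κ < (w 0 0 + w 0 1 + w 0 3 + w 0 4 + w 1 3 + w 1 4 + w 2 0 + w 2 1 + w 2 3 + w 2 4) + max 0 (w 0 2 + w 1 0 + 2*w 1 1 + 3*w 1 2 + w 2 2 - 1) := by
  refine cost_conv (β := (2, 1, ![![false, false, true, false, false], ![true, true, true, false, false], ![false, false, true, false, false]])) ?_ ?_ (hcon _ ?_)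
  · simp [costA, Fin.sum_univ_three, Fin.sum_univ_five] <;> ring
  · simp [costB, coef, Fin.sum_univ_three, Fin.sum_univ_five] <;> first | (left; ring) | ring
  · unfold Valid
    decide

lemma lpwH29 (w : Fin 3 → Fin 5 → ℝ) (κ : ℝ)
    (hcon : ∀ β : BT, Valid β → κ < cost β w) :
    κ < (w 0 3 + w 0 4 + w 1 0 + w 1 2 + w 1 3 + w 1 4 + w 2 0 + w 2 2 + w 2 4) + max 0 (w 0 0 + 2*w 0 1 + 3*w 0 2 + w 1 1 + w 2 1 + 2*w 2 3 - 1) := by
  refine cost_conv (β := (1, 0, ![![true, true, true, false, false], ![false, true, false, false, false], ![false, true, false, true, false]])) ?_ ?_ (hcon _ ?_)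
  · simp [costA, Fin.sum_univ_three, Fin.sum_univ_five] <;> ring
  · simp [costB, coef, Fin.sum_univ_three, Fin.sum_univ_five] <;> first | (left; ring) | ring
  · unfold Valid
    decide

lemma lpwH30 (w : Fin 3 → Fin 5 → ℝ) (κ : ℝ)
    (hcon : ∀ β : BT, Valid β → κ < cost β w) :
    κ < (w 0 3 + w 0 4 + w 1 1 + w 1 2 + w 1 3 + w 1 4 + w 2 1 + w 2 2 + w 2 3 + w 2 4) + max 0 (w 0 0 + 2*w 0 1 + 3*w 0 2 + w 1 0 + w 2 0 - 1) := by
  refine cost_conv (β := (0, 2, ![![true, true, true, false, false], ![true, false, false, false, false], ![true, false, false, false, false]])) ?_ ?_ (hcon _ ?_)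
  · simp [costA, Fin.sum_univ_three, Fin.sum_univ_five] <;> ring
  · simp [costB, coef, Fin.sum_univ_three, Fin.sum_univ_five] <;> first | (left; ring) | ring
  · unfold Valid
    decide

lemma lpwH31 (w : Fin 3 → Fin 5 → ℝ) (κ : ℝ)
    (hcon : ∀ β : BT, Valid β → κ < cost β w) :
    κ < (w 0 0 + w 0 1 + w 0 3 + w 0 4 + w 1 1 + w 1 2 + w 1 4 + w 2 0 + w 2 1 + w 2 3 + w 2 4) + max 0 (w 0 2 + w 1 0 + 4*w 1 3 + w 2 2 - 1) := by
  refine cost_conv (β := (2, 1, ![![false, false, true, false, false], ![true, false, false, true, false], ![false, false, true, false, false]])) ?_ ?_ (hcon _ ?_)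
  · simp [costA, Fin.sum_univ_three, Fin.sum_univ_five] <;> ring
  · simp [costB, coef, Fin.sum_univ_three, Fin.sum_univ_five] <;> first | (left; ring) | ring
  · unfold Valid
    decide

lemma lpwH32 (w : Fin 3 → Fin 5 → ℝ) (κ : ℝ)
    (hcon : ∀ β : BT, Valid β → κ < cost β w) :
    κ < (w 0 0 + w 0 2 + w 0 3 + w 0 4 + w 1 1 + w 1 3 + w 1 4 + w 2 1 + w 2 2 + w 2 3 + w 2 4) + max 0 (2*w 0 1 + w 1 0 + 3*w 1 2 + w 2 0 - 1) := by
  refine cost_conv (β := (0, 2, ![![false, true, false, false, false], ![true, false, true, false, false], ![true, false, false, false, false]])) ?_ ?_ (hcon _ ?_)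
  · simp [costA, Fin.sum_univ_three, Fin.sum_univ_five] <;> ring
  · simp [costB, coef, Fin.sum_univ_three, Fin.sum_univ_five] <;> first | (left; ring) | ring
  · unfold Valid
    decide

lemma lpwH33 (w : Fin 3 → Fin 5 → ℝ) (κ : ℝ)
    (hcon : ∀ β : BT, Valid β → κ < cost β w) :
    κ < (w 0 0 + w 0 2 + w 0 4 + w 1 0 + w 1 2 + w 1 4 + w 2 2 + w 2 3 + w 2 4) + max 0 (w 0 1 + 2*w 0 3 + w 1 1 + 2*w 1 3 + w 2 0 + 2*w 2 1 - 1) := by
  refine cost_conv (β := (1, 2, ![![false, true, false, true, false], ![false, true, false, true, false], ![true, true, false, false, false]])) ?_ ?_ (hcon _ ?_)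
  · simp [costA, Fin.sum_univ_three, Fin.sum_univ_five] <;> ring
  · simp [costB, coef, Fin.sum_univ_three, Fin.sum_univ_five] <;> first | (left; ring) | ring
  · unfold Valid
    decide

lemma lpwH34 (w : Fin 3 → Fin 5 → ℝ) (κ : ℝ)
    (hcon : ∀ β : BT, Valid β → κ < cost β w) :
    κ < (w 0 0 + w 0 1 + w 0 3 + w 0 4 + w 1 0 + w 1 3 + w 1 4 + w 2 0 + w 2 1 + w 2 3 + w 2 4) + max 0 (w 0 2 + 2*w 1 1 + 3*w 1 2 + w 2 2 - 1) := by
  refine cost_conv (β := (2, 1, ![![false, false, true, false, false], ![false, true, true, false, false], ![false, false, true, false, false]])) ?_ ?_ (hcon _ ?_)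
  · simp [costA, Fin.sum_univ_three, Fin.sum_univ_five] <;> ring
  · simp [costB, coef, Fin.sum_univ_three, Fin.sum_univ_five] <;> first | (left; ring) | ring
  · unfold Valid
    decide

lemma lpwH35 (w : Fin 3 → Fin 5 → ℝ) (κ : ℝ)
    (hcon : ∀ β : BT, Valid β → κ < cost β w) :
    κ < (w 0 0 + w 0 1 + w 0 3 + w 0 4 + w 1 0 + w 1 1 + w 1 3 + w 1 4 + w 2 2 + w 2 4) + max 0 (w 0 2 + w 1 2 + w 2 0 + 2*w 2 1 + 4*w 2 3 - 1) := by
  refine cost_conv (β := (2, 2, ![![false, false, true, false, false], ![false, false, true, false, false], ![true, true, false, true, false]])) ?_ ?_ (hcon _ ?_)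
  · simp [costA, Fin.sum_univ_three, Fin.sum_univ_five] <;> ring
  · simp [costB, coef, Fin.sum_univ_three, Fin.sum_univ_five] <;> first | (left; ring) | ring
  · unfold Valid
    decide

lemma lpwH36 (w : Fin 3 → Fin 5 → ℝ) (κ : ℝ)
    (hcon : ∀ β : BT, Valid β → κ < cost β w) :
    κ < (w 0 2 + w 0 3 + w 0 4 + w 1 2 + w 1 3 + w 1 4 + w 2 1 + w 2 2 + w 2 4) + max 0 (w 0 0 + 2*w 0 1 + w 1 0 + 2*w 1 1 + w 2 0 + 4*w 2 3 - 1) := by
  refine cost_conv (β := (0, 2, ![![true, true, false, false, false], ![true, true, false, false, false], ![true, false, false, true, false]])) ?_ ?_ (hcon _ ?_)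
  · simp [costA, Fin.sum_univ_three, Fin.sum_univ_five] <;> ring
  · simp [costB, coef, Fin.sum_univ_three, Fin.sum_univ_five] <;> first | (left; ring) | ring
  · unfold Valid
    decide

lemma lpwH37 (w : Fin 3 → Fin 5 → ℝ) (κ : ℝ)
    (hcon : ∀ β : BT, Valid β → κ < cost β w) :
    κ < (w 0 1 + w 0 3 + w 0 4 + w 1 0 + w 1 2 + w 1 4 + w 2 0 + w 2 2 + w 2 4) + max 0 (w 0 0 + 3*w 0 2 + w 1 1 + 2*w 1 3 + w 2 1 + 2*w 2 3 - 1) := by
  refine cost_conv (β := (1, 0, ![![true, false, true, false, false], ![false, true, false, true, false], ![false, true, false, true, false]])) ?_ ?_ (hcon _ ?_)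
  · simp [costA, Fin.sum_univ_three, Fin.sum_univ_five] <;> ring
  · simp [costB, coef, Fin.sum_univ_three, Fin.sum_univ_five] <;> first | (left; ring) | ring
  · unfold Valid
    decide

lemma lpwH38 (w : Fin 3 → Fin 5 → ℝ) (κ : ℝ)
    (hcon : ∀ β : BT, Valid β → κ < cost β w) :
    κ < (w 0 0 + w 0 2 + w 0 3 + w 0 4 + w 1 3 + w 1 4 + w 2 3 + w 2 4) + max 0 (2*w 0 1 + w 1 0 + 2*w 1 1 + 3*w 1 2 + w 2 0 + 2*w 2 1 + 3*w 2 2 - 1) := by
  refine cost_conv (β := (0, 2, ![![false, true, false, false, false], ![true, true, true, false, false], ![true, true, true, false, false]])) ?_ ?_ (hcon _ ?_)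
  · simp [costA, Fin.sum_univ_three, Fin.sum_univ_five] <;> ring
  · simp [costB, coef, Fin.sum_univ_three, Fin.sum_univ_five] <;> first | (left; ring) | ring
  · unfold Valid
    decide

lemma lpwH39 (w : Fin 3 → Fin 5 → ℝ) (κ : ℝ)
    (hcon : ∀ β : BT, Valid β → κ < cost β w) :
    κ < (w 0 0 + w 0 2 + w 0 4 + w 1 0 + w 1 2 + w 1 4 + w 2 4) + max 0 (w 0 1 + 2*w 0 3 + w 1 1 + 2*w 1 3 + w 2 0 + 2*w 2 1 + 3*w 2 2 + 4*w 2 3 - 1) := by
  refine cost_conv (β := (1, 2, ![![false, true, false, true, false], ![false, true, false, true, false], ![true, true, true, true, false]])) ?_ ?_ (hcon _ ?_)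
  · simp [costA, Fin.sum_univ_three, Fin.sum_univ_five] <;> ring
  · simp [costB, coef, Fin.sum_univ_three, Fin.sum_univ_five] <;> first | (left; ring) | ring
  · unfold Valid
    decide

lemma lpwH40 (w : Fin 3 → Fin 5 → ℝ) (κ : ℝ)
    (hcon : ∀ β : BT, Valid β → κ < cost β w) :
    κ < (w 0 0 + w 0 1 + w 0 3 + w 0 4 + w 1 2 + w 1 4 + w 2 0 + w 2 1 + w 2 3 + w 2 4) + max 0 (w 0 2 + w 1 0 + 2*w 1 1 + 4*w 1 3 + w 2 2 - 1) := by
  refine cost_conv (β := (2, 1, ![![false, false, true, false, false], ![true, true, false, true, false], ![false, false, true, false, false]])) ?_ ?_ (hcon _ ?_)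
  · simp [costA, Fin.sum_univ_three, Fin.sum_univ_five] <;> ring
  · simp [costB, coef, Fin.sum_univ_three, Fin.sum_univ_five] <;> first | (left; ring) | ring
  · unfold Valid
    decide

lemma lpwH41 (w : Fin 3 → Fin 5 → ℝ) (κ : ℝ)
    (hcon : ∀ β : BT, Valid β → κ < cost β w) :
    κ < (w 0 2 + w 0 3 + w 0 4 + w 1 0 + w 1 2 + w 1 4 + w 2 0 + w 2 2 + w 2 4) + max 0 (w 0 0 + 2*w 0 1 + w 1 1 + 2*w 1 3 + w 2 1 + 2*w 2 3 - 1) := by
  refine cost_conv (β := (1, 0, ![![true, true, false, false, false], ![false, true, false, true, false], ![false, true, false, true, false]])) ?_ ?_ (hcon _ ?_)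
  · simp [costA, Fin.sum_univ_three, Fin.sum_univ_five] <;> ring
  · simp [costB, coef, Fin.sum_univ_three, Fin.sum_univ_five] <;> first | (left; ring) | ring
  · unfold Valid
    decide

lemma lpwH42 (w : Fin 3 → Fin 5 → ℝ) (κ : ℝ)
    (hcon : ∀ β : BT, Valid β → κ < cost β w) :
    κ < (w 0 0 + w 0 2 + w 0 4 + w 1 0 + w 1 2 + w 1 4 + w 2 1 + w 2 2 + w 2 4) + max 0 (w 0 1 + 2*w 0 3 + w 1 1 + 2*w 1 3 + w 2 0 + 4*w 2 3 - 1) := by
  refine cost_conv (β := (1, 2, ![![false, true, false, true, false], ![false, true, false, true, false], ![true, false, false, true, false]])) ?_ ?_ (hcon _ ?_)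
  · simp [costA, Fin.sum_univ_three, Fin.sum_univ_five] <;> ring
  · simp [costB, coef, Fin.sum_univ_three, Fin.sum_univ_five] <;> first | (left; ring) | ring
  · unfold Valid
    decide

lemma lpwH43 (w : Fin 3 → Fin 5 → ℝ) (κ : ℝ)
    (hcon : ∀ β : BT, Valid β → κ < cost β w) :
    κ < (w 0 3 + w 0 4 + w 1 0 + w 1 2 + w 1 4 + w 2 0 + w 2 2 + w 2 3 + w 2 4) + max 0 (w 0 0 + 2*w 0 1 + 3*w 0 2 + w 1 1 + 2*w 1 3 + w 2 1 - 1) := by
  refine cost_conv (β := (1, 0, ![![true, true, true, false, false], ![false, true, false, true, false], ![false, true, false, false, false]])) ?_ ?_ (hcon _ ?_)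
  · simp [costA, Fin.sum_univ_three, Fin.sum_univ_five] <;> ring
  · simp [costB, coef, Fin.sum_univ_three, Fin.sum_univ_five] <;> first | (left; ring) | ring
  · unfold Valid
    decide

lemma lpwH44 (w : Fin 3 → Fin 5 → ℝ) (κ : ℝ)
    (hcon : ∀ β : BT, Valid β → κ < cost β w) :
    κ < (w 0 3 + w 0 4 + w 1 1 + w 1 2 + w 1 3 + w 1 4 + w 2 1 + w 2 3 + w 2 4) + max 0 (w 0 0 + 2*w 0 1 + 3*w 0 2 + w 1 0 + w 2 0 + 3*w 2 2 - 1) := by
  refine cost_conv (β := (0, 2, ![![true, true, true, false, false], ![true, false, false, false, false], ![true, false, true, false, false]])) ?_ ?_ (hcon _ ?_)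
  · simp [costA, Fin.sum_univ_three, Fin.sum_univ_five] <;> ring
  · simp [costB, coef, Fin.sum_univ_three, Fin.sum_univ_five] <;> first | (left; ring) | ring
  · unfold Valid
    decide

lemma lpwH45 (w : Fin 3 → Fin 5 → ℝ) (κ : ℝ)
    (hcon : ∀ β : BT, Valid β → κ < cost β w) :
    κ < (w 0 0 + w 0 2 + w 0 3 + w 0 4 + w 1 1 + w 1 3 + w 1 4 + w 2 0 + w 2 2 + w 2 3 + w 2 4) + max 0 (w 0 1 + w 1 0 + 3*w 1 2 + w 2 1 - 1) := by
  refine cost_conv (β := (1, 1, ![![false, true, false, false, false], ![true, false, true, false, false], ![false, true, false, false, false]])) ?_ ?_ (hcon _ ?_)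
  · simp [costA, Fin.sum_univ_three, Fin.sum_univ_five] <;> ring
  · simp [costB, coef, Fin.sum_univ_three, Fin.sum_univ_five] <;> first | (left; ring) | ring
  · unfold Valid
    decide

lemma lpwH46 (w : Fin 3 → Fin 5 → ℝ) (κ : ℝ)
    (hcon : ∀ β : BT, Valid β → κ < cost β w) :
    κ < (w 0 0 + w 0 1 + w 0 3 + w 0 4 + w 1 0 + w 1 1 + w 1 3 + w 1 4 + w 2 0 + w 2 3 + w 2 4) + max 0 (w 0 2 + w 1 2 + 2*w 2 1 + 3*w 2 2 - 1) := by
  refine cost_conv (β := (2, 2, ![![false, false, true, false, false], ![false, false, true, false, false], ![false, true, true, false, false]])) ?_ ?_ (hcon _ ?_)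
  · simp [costA, Fin.sum_univ_three, Fin.sum_univ_five] <;> ring
  · simp [costB, coef, Fin.sum_univ_three, Fin.sum_univ_five] <;> first | (left; ring) | ring
  · unfold Valid
    decide

lemma lpwH47 (w : Fin 3 → Fin 5 → ℝ) (κ : ℝ)
    (hcon : ∀ β : BT, Valid β → κ < cost β w) :
    κ < (w 0 0 + w 0 2 + w 0 4 + w 1 2 + w 1 3 + w 1 4 + w 2 0 + w 2 2 + w 2 4) + max 0 (w 0 1 + 2*w 0 3 + w 1 0 + 2*w 1 1 + w 2 1 + 2*w 2 3 - 1) := by
  refine cost_conv (β := (1, 1, ![![false, true, false, true, false], ![true, true, false, false, false], ![false, true, false, true, false]])) ?_ ?_ (hcon _ ?_)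
  · simp [costA, Fin.sum_univ_three, Fin.sum_univ_five] <;> ring
  · simp [costB, coef, Fin.sum_univ_three, Fin.sum_univ_five] <;> first | (left; ring) | ring
  · unfold Valid
    decide

lemma lpwH48 (w : Fin 3 → Fin 5 → ℝ) (κ : ℝ)
    (hcon : ∀ β : BT, Valid β → κ < cost β w) :
    κ < (w 0 0 + w 0 1 + w 0 3 + w 0 4 + w 1 0 + w 1 2 + w 1 4 + w 2 0 + w 2 2 + w 2 4) + max 0 (3*w 0 2 + w 1 1 + 2*w 1 3 + w 2 1 + 2*w 2 3 - 1) := by
  refine cost_conv (β := (1, 0, ![![false, false, true, false, false], ![false, true, false, true, false], ![false, true, false, true, false]])) ?_ ?_ (hcon _ ?_)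
  · simp [costA, Fin.sum_univ_three, Fin.sum_univ_five] <;> ring
  · simp [costB, coef, Fin.sum_univ_three, Fin.sum_univ_five] <;> first | (left; ring) | ring
  · unfold Valid
    decide

lemma lpwH49 (w : Fin 3 → Fin 5 → ℝ) (κ : ℝ)
    (hcon : ∀ β : BT, Valid β → κ < cost β w) :
    κ < (w 0 4 + w 1 0 + w 1 2 + w 1 4 + w 2 0 + w 2 2 + w 2 4) + max 0 (w 0 0 + 2*w 0 1 + 3*w 0 2 + 4*w 0 3 + w 1 1 + 2*w 1 3 + w 2 1 + 2*w 2 3 - 1) := by
  refine cost_conv (β := (1, 0, ![![true, true, true, true, false], ![false, true, false, true, false], ![false, true, false, true, false]])) ?_ ?_ (hcon _ ?_)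
  · simp [costA, Fin.sum_univ_three, Fin.sum_univ_five] <;> ring
  · simp [costB, coef, Fin.sum_univ_three, Fin.sum_univ_five] <;> first | (left; ring) | ring
  · unfold Valid
    decide

lemma lpwH50 (w : Fin 3 → Fin 5 → ℝ) (κ : ℝ)
    (hcon : ∀ β : BT, Valid β → κ < cost β w) :
    κ < (w 0 0 + w 0 1 + w 0 3 + w 0 4 + w 1 1 + w 1 3 + w 1 4 + w 2 0 + w 2 1 + w 2 3 + w 2 4) + max 0 (w 0 2 + w 1 0 + 3*w 1 2 + w 2 2 - 1) := by
  refine cost_conv (β := (2, 1, ![![false, false, true, false, false], ![true, false, true, false, false], ![false, false, true, false, false]])) ?_ ?_ (hcon _ ?_)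
  · simp [costA, Fin.sum_univ_three, Fin.sum_univ_five] <;> ring
  · simp [costB, coef, Fin.sum_univ_three, Fin.sum_univ_five] <;> first | (left; ring) | ring
  · unfold Valid
    decide

lemma lpwH51 (w : Fin 3 → Fin 5 → ℝ) (κ : ℝ)
    (hcon : ∀ β : BT, Valid β → κ < cost β w) :
    κ < (w 0 0 + w 0 1 + w 0 3 + w 0 4 + w 1 0 + w 1 1 + w 1 3 + w 1 4 + w 2 2 + w 2 3 + w 2 4) + max 0 (w 0 2 + w 1 2 + w 2 0 + 2*w 2 1 - 1) := by
  refine cost_conv (β := (2, 2, ![![false, false, true, false, false], ![false, false, true, false, false], ![true, true, false, false, false]])) ?_ ?_ (hcon _ ?_)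
  · simp [costA, Fin.sum_univ_three, Fin.sum_univ_five] <;> ring
  · simp [costB, coef, Fin.sum_univ_three, Fin.sum_univ_five] <;> first | (left; ring) | ring
  · unfold Valid
    decide

lemma lpwH52 (w : Fin 3 → Fin 5 → ℝ) (κ : ℝ)
    (hcon : ∀ β : BT, Valid β → κ < cost β w) :
    κ < (w 0 0 + w 0 2 + w 0 4 + w 1 1 + w 1 3 + w 1 4 + w 2 0 + w 2 2 + w 2 3 + w 2 4) + max 0 (w 0 1 + 2*w 0 3 + w 1 0 + 3*w 1 2 + w 2 1 - 1) := by
  refine cost_conv (β := (1, 1, ![![false, true, false, true, false], ![true, false, true, false, false], ![false, true, false, false, false]])) ?_ ?_ (hcon _ ?_)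
  · simp [costA, Fin.sum_univ_three, Fin.sum_univ_five] <;> ring
  · simp [costB, coef, Fin.sum_univ_three, Fin.sum_univ_five] <;> first | (left; ring) | ring
  · unfold Valid
    decide

lemma lpwH53 (w : Fin 3 → Fin 5 → ℝ) (κ : ℝ)
    (hcon : ∀ β : BT, Valid β → κ < cost β w) :
    κ < (w 0 0 + w 0 1 + w 0 3 + w 0 4 + w 1 0 + w 1 1 + w 1 3 + w 1 4 + w 2 0 + w 2 2 + w 2 3 + w 2 4) + max 0 (w 0 2 + w 1 2 + 2*w 2 1 - 1) := by
  refine cost_conv (β := (2, 2, ![![false, false, true, false, false], ![false, false, true, false, false], ![false, true, false, false, false]])) ?_ ?_ (hcon _ ?_)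
  · simp [costA, Fin.sum_univ_three, Fin.sum_univ_five] <;> ring
  · simp [costB, coef, Fin.sum_univ_three, Fin.sum_univ_five] <;> first | (left; ring) | ring
  · unfold Valid
    decide

lemma lpwH54 (w : Fin 3 → Fin 5 → ℝ) (κ : ℝ)
    (hcon : ∀ β : BT, Valid β → κ < cost β w) :
    κ < (w 0 0 + w 0 2 + w 0 4 + w 1 0 + w 1 3 + w 1 4 + w 2 0 + w 2 2 + w 2 4) + max 0 (w 0 1 + 2*w 0 3 + 2*w 1 1 + 3*w 1 2 + w 2 1 + 2*w 2 3 - 1) := by
  refine cost_conv (β := (1, 1, ![![false, true, false, true, false], ![false, true, true, false, false], ![false, true, false, true, false]])) ?_ ?_ (hcon _ ?_)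
  · simp [costA, Fin.sum_univ_three, Fin.sum_univ_five] <;> ring
  · simp [costB, coef, Fin.sum_univ_three, Fin.sum_univ_five] <;> first | (left; ring) | ring
  · unfold Valid
    decide

lemma lpwH55 (w : Fin 3 → Fin 5 → ℝ) (κ : ℝ)
    (hcon : ∀ β : BT, Valid β → κ < cost β w) :
    κ < (w 0 3 + w 0 4 + w 1 2 + w 1 4 + w 2 1 + w 2 2 + w 2 3 + w 2 4) + max 0 (w 0 0 + 2*w 0 1 + 3*w 0 2 + w 1 0 + 2*w 1 1 + 4*w 1 3 + w 2 0 - 1) := by
  refine cost_conv (β := (0, 2, ![![true, true, true, false, false], ![true, true, false, true, false], ![true, false, false, false, false]])) ?_ ?_ (hcon _ ?_)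
  · simp [costA, Fin.sum_univ_three, Fin.sum_univ_five] <;> ring
  · simp [costB, coef, Fin.sum_univ_three, Fin.sum_univ_five] <;> first | (left; ring) | ring
  · unfold Valid
    decide

lemma lpwH56 (w : Fin 3 → Fin 5 → ℝ) (κ : ℝ)
    (hcon : ∀ β : BT, Valid β → κ < cost β w) :
    κ < (w 0 3 + w 0 4 + w 1 1 + w 1 3 + w 1 4 + w 2 0 + w 2 2 + w 2 3 + w 2 4) + max 0 (w 0 0 + 2*w 0 1 + 3*w 0 2 + w 1 0 + 3*w 1 2 + 2*w 2 1 - 1) := by
  refine cost_conv (β := (0, 2, ![![true, true, true, false, false], ![true, false, true, false, false], ![false, true, false, false, false]])) ?_ ?_ (hcon _ ?_)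
  · simp [costA, Fin.sum_univ_three, Fin.sum_univ_five] <;> ring
  · simp [costB, coef, Fin.sum_univ_three, Fin.sum_univ_five] <;> first | (left; ring) | ring
  · unfold Valid
    decide

lemma lpwH57 (w : Fin 3 → Fin 5 → ℝ) (κ : ℝ)
    (hcon : ∀ β : BT, Valid β → κ < cost β w) :
    κ < (w 0 2 + w 0 4 + w 1 1 + w 1 3 + w 1 4 + w 2 1 + w 2 3 + w 2 4) + max 0 (w 0 0 + 2*w 0 1 + 4*w 0 3 + w 1 0 + 3*w 1 2 + w 2 0 + 3*w 2 2 - 1) := by
  refine cost_conv (β := (0, 2, ![![true, true, false, true, false], ![true, false, true, false, false], ![true, false, true, false, false]])) ?_ ?_ (hcon _ ?_)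
  · simp [costA, Fin.sum_univ_three, Fin.sum_univ_five] <;> ring
  · simp [costB, coef, Fin.sum_univ_three, Fin.sum_univ_five] <;> first | (left; ring) | ring
  · unfold Valid
    decide

lemma lpwH58 (w : Fin 3 → Fin 5 → ℝ) (κ : ℝ)
    (hcon : ∀ β : BT, Valid β → κ < cost β w) :
    κ < (w 0 0 + w 0 3 + w 0 4 + w 1 2 + w 1 3 + w 1 4 + w 2 1 + w 2 3 + w 2 4) + max 0 (2*w 0 1 + 3*w 0 2 + w 1 0 + 2*w 1 1 + w 2 0 + 3*w 2 2 - 1) := by
  refine cost_conv (β := (0, 2, ![![false, true, true, false, false], ![true, true, false, false, false], ![true, false, true, false, false]])) ?_ ?_ (hcon _ ?_)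
  · simp [costA, Fin.sum_univ_three, Fin.sum_univ_five] <;> ring
  · simp [costB, coef, Fin.sum_univ_three, Fin.sum_univ_five] <;> first | (left; ring) | ring
  · unfold Valid
    decide

lemma lpwH59 (w : Fin 3 → Fin 5 → ℝ) (κ : ℝ)
    (hcon : ∀ β : BT, Valid β → κ < cost β w) :
    κ < (w 0 0 + w 0 2 + w 0 4 + w 1 2 + w 1 4 + w 2 0 + w 2 2 + w 2 4) + max 0 (w 0 1 + 2*w 0 3 + w 1 0 + 2*w 1 1 + 4*w 1 3 + w 2 1 + 2*w 2 3 - 1) := by
  refine cost_conv (β := (1, 1, ![![false, true, false, true, false], ![true, true, false, true, false], ![false, true, false, true, false]])) ?_ ?_ (hcon _ ?_)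
  · simp [costA, Fin.sum_univ_three, Fin.sum_univ_five] <;> ring
  · simp [costB, coef, Fin.sum_univ_three, Fin.sum_univ_five] <;> first | (left; ring) | ring
  · unfold Valid
    decide

lemma lpwH60 (w : Fin 3 → Fin 5 → ℝ) (κ : ℝ)
    (hcon : ∀ β : BT, Valid β → κ < cost β w) :
    κ < (w 0 0 + w 0 2 + w 0 4 + w 1 1 + w 1 3 + w 1 4 + w 2 0 + w 2 2 + w 2 4) + max 0 (w 0 1 + 2*w 0 3 + w 1 0 + 3*w 1 2 + w 2 1 + 2*w 2 3 - 1) := by
  refine cost_conv (β := (1, 1, ![![false, true, false, true, false], ![true, false, true, false, false], ![false, true, false, true, false]])) ?_ ?_ (hcon _ ?_)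
  · simp [costA, Fin.sum_univ_three, Fin.sum_univ_five] <;> ring
  · simp [costB, coef, Fin.sum_univ_three, Fin.sum_univ_five] <;> first | (left; ring) | ring
  · unfold Valid
    decide

lemma lpwH61 (w : Fin 3 → Fin 5 → ℝ) (κ : ℝ)
    (hcon : ∀ β : BT, Valid β → κ < cost β w) :
    κ < (w 0 2 + w 0 3 + w 0 4 + w 1 3 + w 1 4 + w 2 1 + w 2 2 + w 2 3 + w 2 4) + max 0 (w 0 0 + 2*w 0 1 + w 1 0 + 2*w 1 1 + 3*w 1 2 + w 2 0 - 1) := by
  refine cost_conv (β := (0, 2, ![![true, true, false, false, false], ![true, true, true, false, false], ![true, false, false, false, false]])) ?_ ?_ (hcon _ ?_)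
  · simp [costA, Fin.sum_univ_three, Fin.sum_univ_five] <;> ring
  · simp [costB, coef, Fin.sum_univ_three, Fin.sum_univ_five] <;> first | (left; ring) | ring
  · unfold Valid
    decide

lemma lpwH62 (w : Fin 3 → Fin 5 → ℝ) (κ : ℝ)
    (hcon : ∀ β : BT, Valid β → κ < cost β w) :
    κ < (w 0 1 + w 0 2 + w 0 3 + w 0 4 + w 1 1 + w 1 4 + w 2 1 + w 2 2 + w 2 3 + w 2 4) + max 0 (w 0 0 + w 1 0 + 3*w 1 2 + 4*w 1 3 + w 2 0 - 1) := by
  refine cost_conv (β := (0, 2, ![![true, false, false, false, false], ![true, false, true, true, false], ![true, false, false, false, false]])) ?_ ?_ (hcon _ ?_)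
  · simp [costA, Fin.sum_univ_three, Fin.sum_univ_five] <;> ring
  · simp [costB, coef, Fin.sum_univ_three, Fin.sum_univ_five] <;> first | (left; ring) | ring
  · unfold Valid
    decide

lemma lpwH63 (w : Fin 3 → Fin 5 → ℝ) (κ : ℝ)
    (hcon : ∀ β : BT, Valid β → κ < cost β w) :
    κ < (w 0 1 + w 0 2 + w 0 3 + w 0 4 + w 1 4 + w 2 1 + w 2 2 + w 2 3 + w 2 4) + max 0 (w 0 0 + w 1 0 + 2*w 1 1 + 3*w 1 2 + 4*w 1 3 + w 2 0 - 1) := by
  refine cost_conv (β := (0, 2, ![![true, false, false, false, false], ![true, true, true, true, false], ![true, false, false, false, false]])) ?_ ?_ (hcon _ ?_)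
  · simp [costA, Fin.sum_univ_three, Fin.sum_univ_five] <;> ring
  · simp [costB, coef, Fin.sum_univ_three, Fin.sum_univ_five] <;> first | (left; ring) | ring
  · unfold Valid
    decide

lemma lpwH64 (w : Fin 3 → Fin 5 → ℝ) (κ : ℝ)
    (hcon : ∀ β : BT, Valid β → κ < cost β w) :
    κ < (w 0 0 + w 0 2 + w 0 3 + w 0 4 + w 1 3 + w 1 4 + w 2 0 + w 2 2 + w 2 4) + max 0 (w 0 1 + w 1 0 + 2*w 1 1 + 3*w 1 2 + w 2 1 + 2*w 2 3 - 1) := by
  refine cost_conv (β := (1, 1, ![![false, true, false, false, false], ![true, true, true, false, false], ![false, true, false, true, false]])) ?_ ?_ (hcon _ ?_)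
  · simp [costA, Fin.sum_univ_three, Fin.sum_univ_five] <;> ring
  · simp [costB, coef, Fin.sum_univ_three, Fin.sum_univ_five] <;> first | (left; ring) | ring
  · unfold Valid
    decide

lemma lpwH65 (w : Fin 3 → Fin 5 → ℝ) (κ : ℝ)
    (hcon : ∀ β : BT, Valid β → κ < cost β w) :
    κ < (w 0 1 + w 0 3 + w 0 4 + w 1 1 + w 1 3 + w 1 4 + w 2 1 + w 2 2 + w 2 3 + w 2 4) + max 0 (w 0 0 + 3*w 0 2 + w 1 0 + 3*w 1 2 + w 2 0 - 1) := by
  refine cost_conv (β := (0, 2, ![![true, false, true, false, false], ![true, false, true, false, false], ![true, false, false, false, false]])) ?_ ?_ (hcon _ ?_)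
  · simp [costA, Fin.sum_univ_three, Fin.sum_univ_five] <;> ring
  · simp [costB, coef, Fin.sum_univ_three, Fin.sum_univ_five] <;> first | (left; ring) | ring
  · unfold Valid
    decide

lemma lpwH66 (w : Fin 3 → Fin 5 → ℝ) (κ : ℝ)
    (hcon : ∀ β : BT, Valid β → κ < cost β w) :
    κ < (w 0 0 + w 0 1 + w 0 3 + w 0 4 + w 1 2 + w 1 3 + w 1 4 + w 2 0 + w 2 1 + w 2 3 + w 2 4) + max 0 (w 0 2 + w 1 0 + 2*w 1 1 + w 2 2 - 1) := by
  refine cost_conv (β := (2, 1, ![![false, false, true, false, false], ![true, true, false, false, false], ![false, false, true, false, false]])) ?_ ?_ (hcon _ ?_)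
  · simp [costA, Fin.sum_univ_three, Fin.sum_univ_five] <;> ring
  · simp [costB, coef, Fin.sum_univ_three, Fin.sum_univ_five] <;> first | (left; ring) | ring
  · unfold Valid
    decide

lemma lpwH67 (w : Fin 3 → Fin 5 → ℝ) (κ : ℝ)
    (hcon : ∀ β : BT, Valid β → κ < cost β w) :
    κ < (w 0 0 + w 0 2 + w 0 4 + w 1 0 + w 1 2 + w 1 4 + w 2 1 + w 2 3 + w 2 4) + max 0 (w 0 1 + 2*w 0 3 + w 1 1 + 2*w 1 3 + w 2 0 + 3*w 2 2 - 1) := by
  refine cost_conv (β := (1, 2, ![![false, true, false, true, false], ![false, true, false, true, false], ![true, false, true, false, false]])) ?_ ?_ (hcon _ ?_)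
  · simp [costA, Fin.sum_univ_three, Fin.sum_univ_five] <;> ring
  · simp [costB, coef, Fin.sum_univ_three, Fin.sum_univ_five] <;> first | (left; ring) | ring
  · unfold Valid
    decide

lemma lpwH68 (w : Fin 3 → Fin 5 → ℝ) (κ : ℝ)
    (hcon : ∀ β : BT, Valid β → κ < cost β w) :
    κ < (w 0 1 + w 0 2 + w 0 4 + w 1 2 + w 1 3 + w 1 4 + w 2 1 + w 2 3 + w 2 4) + max 0 (w 0 0 + 4*w 0 3 + w 1 0 + 2*w 1 1 + w 2 0 + 3*w 2 2 - 1) := by
  refine cost_conv (β := (0, 2, ![![true, false, false, true, false], ![true, true, false, false, false], ![true, false, true, false, false]])) ?_ ?_ (hcon _ ?_)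
  · simp [costA, Fin.sum_univ_three, Fin.sum_univ_five] <;> ring
  · simp [costB, coef, Fin.sum_univ_three, Fin.sum_univ_five] <;> first | (left; ring) | ring
  · unfold Valid
    decide

lemma lpwH69 (w : Fin 3 → Fin 5 → ℝ) (κ : ℝ)
    (hcon : ∀ β : BT, Valid β → κ < cost β w) :
    κ < (w 0 3 + w 0 4 + w 1 2 + w 1 3 + w 1 4 + w 2 1 + w 2 2 + w 2 3 + w 2 4) + max 0 (w 0 0 + 2*w 0 1 + 3*w 0 2 + w 1 0 + 2*w 1 1 + w 2 0 - 1) := by
  refine cost_conv (β := (0, 2, ![![true, true, true, false, false], ![true, true, false, false, false], ![true, false, false, false, false]])) ?_ ?_ (hcon _ ?_)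
  · simp [costA, Fin.sum_univ_three, Fin.sum_univ_five] <;> ring
  · simp [costB, coef, Fin.sum_univ_three, Fin.sum_univ_five] <;> first | (left; ring) | ring
  · unfold Valid
    decide

lemma lpwH70 (w : Fin 3 → Fin 5 → ℝ) (κ : ℝ)
    (hcon : ∀ β : BT, Valid β → κ < cost β w) :
    κ < (w 0 2 + w 0 3 + w 0 4 + w 1 2 + w 1 4 + w 2 1 + w 2 3 + w 2 4) + max 0 (w 0 0 + 2*w 0 1 + w 1 0 + 2*w 1 1 + 4*w 1 3 + w 2 0 + 3*w 2 2 - 1) := by
  refine cost_conv (β := (0, 2, ![![true, true, false, false, false], ![true, true, false, true, false], ![true, false, true, false, false]])) ?_ ?_ (hcon _ ?_)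
  · simp [costA, Fin.sum_univ_three, Fin.sum_univ_five] <;> ring
  · simp [costB, coef, Fin.sum_univ_three, Fin.sum_univ_five] <;> first | (left; ring) | ring
  · unfold Valid
    decide

lemma lpwH71 (w : Fin 3 → Fin 5 → ℝ) (κ : ℝ)
    (hcon : ∀ β : BT, Valid β → κ < cost β w) :
    κ < (w 0 1 + w 0 3 + w 0 4 + w 1 1 + w 1 2 + w 1 3 + w 1 4 + w 2 1 + w 2 2 + w 2 3 + w 2 4) + max 0 (w 0 0 + 3*w 0 2 + w 1 0 + w 2 0 - 1) := by
  refine cost_conv (β := (0, 2, ![![true, false, true, false, false], ![true, false, false, false, false], ![true, false, false, false, false]])) ?_ ?_ (hcon _ ?_)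
  · simp [costA, Fin.sum_univ_three, Fin.sum_univ_five] <;> ring
  · simp [costB, coef, Fin.sum_univ_three, Fin.sum_univ_five] <;> first | (left; ring) | ring
  · unfold Valid
    decide

lemma lpwH72 (w : Fin 3 → Fin 5 → ℝ) (κ : ℝ)
    (hcon : ∀ β : BT, Valid β → κ < cost β w) :
    κ < (w 0 2 + w 0 4 + w 1 0 + w 1 2 + w 1 4 + w 2 0 + w 2 2 + w 2 4) + max 0 (w 0 0 + 2*w 0 1 + 4*w 0 3 + w 1 1 + 2*w 1 3 + w 2 1 + 2*w 2 3 - 1) := by
  refine cost_conv (β := (1, 0, ![![true, true, false, true, false], ![false, true, false, true, false], ![false, true, false, true, false]])) ?_ ?_ (hcon _ ?_)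
  · simp [costA, Fin.sum_univ_three, Fin.sum_univ_five] <;> ring
  · simp [costB, coef, Fin.sum_univ_three, Fin.sum_univ_five] <;> first | (left; ring) | ring
  · unfold Valid
    decide

lemma lpwH73 (w : Fin 3 → Fin 5 → ℝ) (κ : ℝ)
    (hcon : ∀ β : BT, Valid β → κ < cost β w) :
    κ < (w 0 3 + w 0 4 + w 1 1 + w 1 2 + w 1 3 + w 1 4 + w 2 2 + w 2 3 + w 2 4) + max 0 (w 0 0 + 2*w 0 1 + 3*w 0 2 + w 1 0 + w 2 0 + 2*w 2 1 - 1) := by
  refine cost_conv (β := (0, 2, ![![true, true, true, false, false], ![true, false, false, false, false], ![true, true, false, false, false]])) ?_ ?_ (hcon _ ?_)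
  · simp [costA, Fin.sum_univ_three, Fin.sum_univ_five] <;> ring
  · simp [costB, coef, Fin.sum_univ_three, Fin.sum_univ_five] <;> first | (left; ring) | ring
  · unfold Valid
    decide

lemma lpwH74 (w : Fin 3 → Fin 5 → ℝ) (κ : ℝ)
    (hcon : ∀ β : BT, Valid β → κ < cost β w) :
    κ < (w 0 1 + w 0 3 + w 0 4 + w 1 3 + w 1 4 + w 2 1 + w 2 2 + w 2 4) + max 0 (w 0 0 + 3*w 0 2 + w 1 0 + 2*w 1 1 + 3*w 1 2 + w 2 0 + 4*w 2 3 - 1) := by
  refine cost_conv (β := (0, 2, ![![true, false, true, false, false], ![true, true, true, false, false], ![true, false, false, true, false]])) ?_ ?_ (hcon _ ?_)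
  · simp [costA, Fin.sum_univ_three, Fin.sum_univ_five] <;> ring
  · simp [costB, coef, Fin.sum_univ_three, Fin.sum_univ_five] <;> first | (left; ring) | ring
  · unfold Valid
    decide

lemma lpwH75 (w : Fin 3 → Fin 5 → ℝ) (κ : ℝ)
    (hcon : ∀ β : BT, Valid β → κ < cost β w) :
    κ < (w 0 0 + w 0 2 + w 0 3 + w 0 4 + w 1 0 + w 1 2 + w 1 4 + w 2 1 + w 2 3 + w 2 4) + max 0 (w 0 1 + w 1 1 + 2*w 1 3 + w 2 0 + 3*w 2 2 - 1) := by
  refine cost_conv (β := (1, 2, ![![false, true, false, false, false], ![false, true, false, true, false], ![true, false, true, false, false]])) ?_ ?_ (hcon _ ?_)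
  · simp [costA, Fin.sum_univ_three, Fin.sum_univ_five] <;> ring
  · simp [costB, coef, Fin.sum_univ_three, Fin.sum_univ_five] <;> first | (left; ring) | ring
  · unfold Valid
    decide

lemma lpwH76 (w : Fin 3 → Fin 5 → ℝ) (κ : ℝ)
    (hcon : ∀ β : BT, Valid β → κ < cost β w) :
    κ < (w 0 0 + w 0 1 + w 0 3 + w 0 4 + w 1 0 + w 1 1 + w 1 3 + w 1 4 + w 2 1 + w 2 4) + max 0 (w 0 2 + w 1 2 + w 2 0 + 3*w 2 2 + 4*w 2 3 - 1) := by
  refine cost_conv (β := (2, 2, ![![false, false, true, false, false], ![false, false, true, false, false], ![true, false, true, true, false]])) ?_ ?_ (hcon _ ?_)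
  · simp [costA, Fin.sum_univ_three, Fin.sum_univ_five] <;> ring
  · simp [costB, coef, Fin.sum_univ_three, Fin.sum_univ_five] <;> first | (left; ring) | ring
  · unfold Valid
    decide

lemma lpwH77 (w : Fin 3 → Fin 5 → ℝ) (κ : ℝ)
    (hcon : ∀ β : BT, Valid β → κ < cost β w) :
    κ < (w 0 0 + w 0 1 + w 0 3 + w 0 4 + w 1 0 + w 1 2 + w 1 3 + w 1 4 + w 2 0 + w 2 1 + w 2 3 + w 2 4) + max 0 (w 0 2 + 2*w 1 1 + w 2 2 - 1) := by
  refine cost_conv (β := (2, 1, ![![false, false, true, false, false], ![false, true, false, false, false], ![false, false, true, false, false]])) ?_ ?_ (hcon _ ?_)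
  · simp [costA, Fin.sum_univ_three, Fin.sum_univ_five] <;> ring
  · simp [costB, coef, Fin.sum_univ_three, Fin.sum_univ_five] <;> first | (left; ring) | ring
  · unfold Valid
    decide

lemma lpwH78 (w : Fin 3 → Fin 5 → ℝ) (κ : ℝ)
    (hcon : ∀ β : BT, Valid β → κ < cost β w) :
    κ < (w 0 3 + w 0 4 + w 1 1 + w 1 2 + w 1 3 + w 1 4 + w 2 0 + w 2 2 + w 2 3 + w 2 4) + max 0 (w 0 0 + 2*w 0 1 + 3*w 0 2 + w 1 0 + 2*w 2 1 - 1) := by
  refine cost_conv (β := (0, 2, ![![true, true, true, false, false], ![true, false, false, false, false], ![false, true, false, false, false]])) ?_ ?_ (hcon _ ?_)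
  · simp [costA, Fin.sum_univ_three, Fin.sum_univ_five] <;> ring
  · simp [costB, coef, Fin.sum_univ_three, Fin.sum_univ_five] <;> first | (left; ring) | ring
  · unfold Valid
    decide

lemma lpwH79 (w : Fin 3 → Fin 5 → ℝ) (κ : ℝ)
    (hcon : ∀ β : BT, Valid β → κ < cost β w) :
    κ < (w 0 2 + w 0 3 + w 0 4 + w 1 2 + w 1 3 + w 1 4 + w 2 0 + w 2 2 + w 2 3 + w 2 4) + max 0 (w 0 0 + 2*w 0 1 + w 1 0 + 2*w 1 1 + 2*w 2 1 - 1) := by
  refine cost_conv (β := (0, 2, ![![true, true, false, false, false], ![true, true, false, false, false], ![false, true, false, false, false]])) ?_ ?_ (hcon _ ?_)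
  · simp [costA, Fin.sum_univ_three, Fin.sum_univ_five] <;> ring
  · simp [costB, coef, Fin.sum_univ_three, Fin.sum_univ_five] <;> first | (left; ring) | ring
  · unfold Valid
    decide

lemma lpwH80 (w : Fin 3 → Fin 5 → ℝ) (κ : ℝ)
    (hcon : ∀ β : BT, Valid β → κ < cost β w) :
    κ < (w 0 1 + w 0 2 + w 0 3 + w 0 4 + w 1 1 + w 1 2 + w 1 3 + w 1 4 + w 2 0 + w 2 1 + w 2 3 + w 2 4) + max 0 (w 0 0 + w 1 0 + 3*w 2 2 - 1) := by
  refine cost_conv (β := (0, 2, ![![true, false, false, false, false], ![true, false, false, false, false], ![false, false, true, false, false]])) ?_ ?_ (hcon _ ?_)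
  · simp [costA, Fin.sum_univ_three, Fin.sum_univ_five] <;> ring
  · simp [costB, coef, Fin.sum_univ_three, Fin.sum_univ_five] <;> first | (left; ring) | ring
  · unfold Valid
    decide

lemma lpwH81 (w : Fin 3 → Fin 5 → ℝ) (κ : ℝ)
    (hcon : ∀ β : BT, Valid β → κ < cost β w) :
    κ < (w 0 3 + w 0 4 + w 1 2 + w 1 4 + w 2 2 + w 2 3 + w 2 4) + max 0 (w 0 0 + 2*w 0 1 + 3*w 0 2 + w 1 0 + 2*w 1 1 + 4*w 1 3 + w 2 0 + 2*w 2 1 - 1) := by
  refine cost_conv (β := (0, 2, ![![true, true, true, false, false], ![true, true, false, true, false], ![true, true, false, false, false]])) ?_ ?_ (hcon _ ?_)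
  · simp [costA, Fin.sum_univ_three, Fin.sum_univ_five] <;> ring
  · simp [costB, coef, Fin.sum_univ_three, Fin.sum_univ_five] <;> first | (left; ring) | ring
  · unfold Valid
    decide

lemma lpwH82 (w : Fin 3 → Fin 5 → ℝ) (κ : ℝ)
    (hcon : ∀ β : BT, Valid β → κ < cost β w) :
    κ < (w 0 0 + w 0 1 + w 0 3 + w 0 4 + w 1 1 + w 1 4 + w 2 0 + w 2 1 + w 2 3 + w 2 4) + max 0 (w 0 2 + w 1 0 + 3*w 1 2 + 4*w 1 3 + w 2 2 - 1) := by
  refine cost_conv (β := (2, 1, ![![false, false, true, false, false], ![true, false, true, true, false], ![false, false, true, false, false]])) ?_ ?_ (hcon _ ?_)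
  · simp [costA, Fin.sum_univ_three, Fin.sum_univ_five] <;> ring
  · simp [costB, coef, Fin.sum_univ_three, Fin.sum_univ_five] <;> first | (left; ring) | ring
  · unfold Valid
    decide

lemma lpwH83 (w : Fin 3 → Fin 5 → ℝ) (κ : ℝ)
    (hcon : ∀ β : BT, Valid β → κ < cost β w) :
    κ < (w 0 1 + w 0 2 + w 0 3 + w 0 4 + w 1 1 + w 1 2 + w 1 3 + w 1 4 + w 2 1 + w 2 3 + w 2 4) + max 0 (w 0 0 + w 1 0 + w 2 0 + 3*w 2 2 - 1) := by
  refine cost_conv (β := (0, 2, ![![true, false, false, false, false], ![true, false, false, false, false], ![true, false, true, false, false]])) ?_ ?_ (hcon _ ?_)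
  · simp [costA, Fin.sum_univ_three, Fin.sum_univ_five] <;> ring
  · simp [costB, coef, Fin.sum_univ_three, Fin.sum_univ_five] <;> first | (left; ring) | ring
  · unfold Valid
    decide

lemma lpwH84 (w : Fin 3 → Fin 5 → ℝ) (κ : ℝ)
    (hcon : ∀ β : BT, Valid β → κ < cost β w) :
    κ < (w 0 1 + w 0 2 + w 0 3 + w 0 4 + w 1 3 + w 1 4 + w 2 2 + w 2 3 + w 2 4) + max 0 (w 0 0 + w 1 0 + 2*w 1 1 + 3*w 1 2 + w 2 0 + 2*w 2 1 - 1) := by
  refine cost_conv (β := (0, 2, ![![true, false, false, false, false], ![true, true, true, false, false], ![true, true, false, false, false]])) ?_ ?_ (hcon _ ?_)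
  · simp [costA, Fin.sum_univ_three, Fin.sum_univ_five] <;> ring
  · simp [costB, coef, Fin.sum_univ_three, Fin.sum_univ_five] <;> first | (left; ring) | ring
  · unfold Valid
    decide

lemma lpwH85 (w : Fin 3 → Fin 5 → ℝ) (κ : ℝ)
    (hcon : ∀ β : BT, Valid β → κ < cost β w) :
    κ < (w 0 1 + w 0 2 + w 0 3 + w 0 4 + w 1 1 + w 1 2 + w 1 3 + w 1 4 + w 2 3 + w 2 4) + max 0 (w 0 0 + w 1 0 + w 2 0 + 2*w 2 1 + 3*w 2 2 - 1) := by
  refine cost_conv (β := (0, 2, ![![true, false, false, false, false], ![true, false, false, false, false], ![true, true, true, false, false]])) ?_ ?_ (hcon _ ?_)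
  · simp [costA, Fin.sum_univ_three, Fin.sum_univ_five] <;> ring
  · simp [costB, coef, Fin.sum_univ_three, Fin.sum_univ_five] <;> first | (left; ring) | ring
  · unfold Valid
    decide

lemma lpwH86 (w : Fin 3 → Fin 5 → ℝ) (κ : ℝ)
    (hcon : ∀ β : BT, Valid β → κ < cost β w) :
    κ < (w 0 3 + w 0 4 + w 1 0 + w 1 1 + w 1 3 + w 1 4 + w 2 0 + w 2 1 + w 2 3 + w 2 4) + max 0 (w 0 0 + 2*w 0 1 + 3*w 0 2 + w 1 2 + w 2 2 - 1) := by
  refine cost_conv (β := (2, 0, ![![true, true, true, false, false], ![false, false, true, false, false], ![false, false, true, false, false]])) ?_ ?_ (hcon _ ?_)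
  · simp [costA, Fin.sum_univ_three, Fin.sum_univ_five] <;> ring
  · simp [costB, coef, Fin.sum_univ_three, Fin.sum_univ_five] <;> first | (left; ring) | ring
  · unfold Valid
    decide

lemma lpwH87 (w : Fin 3 → Fin 5 → ℝ) (κ : ℝ)
    (hcon : ∀ β : BT, Valid β → κ < cost β w) :
    κ < (w 0 0 + w 0 2 + w 0 3 + w 0 4 + w 1 1 + w 1 2 + w 1 3 + w 1 4 + w 2 1 + w 2 2 + w 2 3 + w 2 4) + max 0 (2*w 0 1 + w 1 0 + w 2 0 - 1) := by
  refine cost_conv (β := (0, 2, ![![false, true, false, false, false], ![true, false, false, false, false], ![true, false, false, false, false]])) ?_ ?_ (hcon _ ?_)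
  · simp [costA, Fin.sum_univ_three, Fin.sum_univ_five] <;> ring
  · simp [costB, coef, Fin.sum_univ_three, Fin.sum_univ_five] <;> first | (left; ring) | ring
  · unfold Valid
    decide

lemma lpwH88 (w : Fin 3 → Fin 5 → ℝ) (κ : ℝ)
    (hcon : ∀ β : BT, Valid β → κ < cost β w) :
    κ < (w 0 2 + w 0 3 + w 0 4 + w 1 1 + w 1 3 + w 1 4 + w 2 2 + w 2 3 + w 2 4) + max 0 (w 0 0 + 2*w 0 1 + w 1 0 + 3*w 1 2 + w 2 0 + 2*w 2 1 - 1) := by
  refine cost_conv (β := (0, 2, ![![true, true, false, false, false], ![true, false, true, false, false], ![true, true, false, false, false]])) ?_ ?_ (hcon _ ?_)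
  · simp [costA, Fin.sum_univ_three, Fin.sum_univ_five] <;> ring
  · simp [costB, coef, Fin.sum_univ_three, Fin.sum_univ_five] <;> first | (left; ring) | ring
  · unfold Valid
    decide

lemma lpwH89 (w : Fin 3 → Fin 5 → ℝ) (κ : ℝ)
    (hcon : ∀ β : BT, Valid β → κ < cost β w) :
    κ < (w 0 2 + w 0 3 + w 0 4 + w 1 1 + w 1 3 + w 1 4 + w 2 0 + w 2 1 + w 2 3 + w 2 4) + max 0 (w 0 0 + 2*w 0 1 + w 1 0 + 3*w 1 2 + 3*w 2 2 - 1) := by
  refine cost_conv (β := (0, 2, ![![true, true, false, false, false], ![true, false, true, false, false], ![false, false, true, false, false]])) ?_ ?_ (hcon _ ?_)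
  · simp [costA, Fin.sum_univ_three, Fin.sum_univ_five] <;> ring
  · simp [costB, coef, Fin.sum_univ_three, Fin.sum_univ_five] <;> first | (left; ring) | ring
  · unfold Valid
    decide

lemma lpwH90 (w : Fin 3 → Fin 5 → ℝ) (κ : ℝ)
    (hcon : ∀ β : BT, Valid β → κ < cost β w) :
    κ < (w 0 0 + w 0 2 + w 0 4 + w 1 0 + w 1 2 + w 1 4 + w 2 2 + w 2 4) + max 0 (w 0 1 + 2*w 0 3 + w 1 1 + 2*w 1 3 + w 2 0 + 2*w 2 1 + 4*w 2 3 - 1) := by
  refine cost_conv (β := (1, 2, ![![false, true, false, true, false], ![false, true, false, true, false], ![true, true, false, true, false]])) ?_ ?_ (hcon _ ?_)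
  · simp [costA, Fin.sum_univ_three, Fin.sum_univ_five] <;> ring
  · simp [costB, coef, Fin.sum_univ_three, Fin.sum_univ_five] <;> first | (left; ring) | ring
  · unfold Valid
    decide

lemma lpwH91 (w : Fin 3 → Fin 5 → ℝ) (κ : ℝ)
    (hcon : ∀ β : BT, Valid β → κ < cost β w) :
    κ < (w 0 0 + w 0 1 + w 0 3 + w 0 4 + w 1 0 + w 1 1 + w 1 2 + w 1 3 + w 1 4 + w 2 0 + w 2 1 + w 2 3 + w 2 4) + max 0 (w 0 2 + w 2 2 - 1) := by
  refine cost_conv (β := (2, 1, ![![false, false, true, false, false], ![false, false, false, false, false], ![false, false, true, false, false]])) ?_ ?_ (hcon _ ?_)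
  · simp [costA, Fin.sum_univ_three, Fin.sum_univ_five] <;> ring
  · simp [costB, coef, Fin.sum_univ_three, Fin.sum_univ_five] <;> first | (left; ring) | ring
  · unfold Valid
    decide

lemma lpwH92 (w : Fin 3 → Fin 5 → ℝ) (κ : ℝ)
    (hcon : ∀ β : BT, Valid β → κ < cost β w) :
    κ < (w 0 0 + w 0 1 + w 0 3 + w 0 4 + w 1 1 + w 1 2 + w 1 3 + w 1 4 + w 2 0 + w 2 1 + w 2 3 + w 2 4) + max 0 (w 0 2 + w 1 0 + w 2 2 - 1) := by
  refine cost_conv (β := (2, 1, ![![false, false, true, false, false], ![true, false, false, false, false], ![false, false, true, false, false]])) ?_ ?_ (hcon _ ?_)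
  · simp [costA, Fin.sum_univ_three, Fin.sum_univ_five] <;> ring
  · simp [costB, coef, Fin.sum_univ_three, Fin.sum_univ_five] <;> first | (left; ring) | ring
  · unfold Valid
    decide

lemma lpwH93 (w : Fin 3 → Fin 5 → ℝ) (κ : ℝ)
    (hcon : ∀ β : BT, Valid β → κ < cost β w) :
    κ < (w 0 0 + w 0 2 + w 0 3 + w 0 4 + w 1 0 + w 1 1 + w 1 3 + w 1 4 + w 2 0 + w 2 1 + w 2 3 + w 2 4) + max 0 (2*w 0 1 + w 1 2 + w 2 2 - 1) := by
  refine cost_conv (β := (2, 0, ![![false, true, false, false, false], ![false, false, true, false, false], ![false, false, true, false, false]])) ?_ ?_ (hcon _ ?_)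
  · simp [costA, Fin.sum_univ_three, Fin.sum_univ_five] <;> ring
  · simp [costB, coef, Fin.sum_univ_three, Fin.sum_univ_five] <;> first | (left; ring) | ring
  · unfold Valid
    decide

lemma lpwH94 (w : Fin 3 → Fin 5 → ℝ) (κ : ℝ)
    (hcon : ∀ β : BT, Valid β → κ < cost β w) :
    κ < (w 0 2 + w 0 3 + w 0 4 + w 1 1 + w 1 2 + w 1 3 + w 1 4 + w 2 1 + w 2 2 + w 2 3 + w 2 4) + max 0 (w 0 0 + 2*w 0 1 + w 1 0 + w 2 0 - 1) := by
  refine cost_conv (β := (0, 2, ![![true, true, false, false, false], ![true, false, false, false, false], ![true, false, false, false, false]])) ?_ ?_ (hcon _ ?_)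
  · simp [costA, Fin.sum_univ_three, Fin.sum_univ_five] <;> ring
  · simp [costB, coef, Fin.sum_univ_three, Fin.sum_univ_five] <;> first | (left; ring) | ring
  · unfold Valid
    decide

lemma lpwH95 (w : Fin 3 → Fin 5 → ℝ) (κ : ℝ)
    (hcon : ∀ β : BT, Valid β → κ < cost β w) :
    κ < (w 0 1 + w 0 2 + w 0 3 + w 0 4 + w 1 1 + w 1 3 + w 1 4 + w 2 0 + w 2 1 + w 2 3 + w 2 4) + max 0 (w 0 0 + w 1 0 + 3*w 1 2 + 3*w 2 2 - 1) := by
  refine cost_conv (β := (0, 2, ![![true, false, false, false, false], ![true, false, true, false, false], ![false, false, true, false, false]])) ?_ ?_ (hcon _ ?_)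
  · simp [costA, Fin.sum_univ_three, Fin.sum_univ_five] <;> ring
  · simp [costB, coef, Fin.sum_univ_three, Fin.sum_univ_five] <;> first | (left; ring) | ring
  · unfold Valid
    decide

lemma lpwH96 (w : Fin 3 → Fin 5 → ℝ) (κ : ℝ)
    (hcon : ∀ β : BT, Valid β → κ < cost β w) :
    κ < (w 0 1 + w 0 3 + w 0 4 + w 1 0 + w 1 1 + w 1 3 + w 1 4 + w 2 0 + w 2 1 + w 2 3 + w 2 4) + max 0 (w 0 0 + 3*w 0 2 + w 1 2 + w 2 2 - 1) := by
  refine cost_conv (β := (2, 0, ![![true, false, true, false, false], ![false, false, true, false, false], ![false, false, true, false, false]])) ?_ ?_ (hcon _ ?_)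
  · simp [costA, Fin.sum_univ_three, Fin.sum_univ_five] <;> ring
  · simp [costB, coef, Fin.sum_univ_three, Fin.sum_univ_five] <;> first | (left; ring) | ring
  · unfold Valid
    decide

lemma lpwH97 (w : Fin 3 → Fin 5 → ℝ) (κ : ℝ)
    (hcon : ∀ β : BT, Valid β → κ < cost β w) :
    κ < (w 0 1 + w 0 2 + w 0 4 + w 1 0 + w 1 1 + w 1 3 + w 1 4 + w 2 0 + w 2 1 + w 2 3 + w 2 4) + max 0 (w 0 0 + 4*w 0 3 + w 1 2 + w 2 2 - 1) := by
  refine cost_conv (β := (2, 0, ![![true, false, false, true, false], ![false, false, true, false, false], ![false, false, true, false, false]])) ?_ ?_ (hcon _ ?_)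
  · simp [costA, Fin.sum_univ_three, Fin.sum_univ_five] <;> ring
  · simp [costB, coef, Fin.sum_univ_three, Fin.sum_univ_five] <;> first | (left; ring) | ring
  · unfold Valid
    decide

lemma lpwH98 (w : Fin 3 → Fin 5 → ℝ) (κ : ℝ)
    (hcon : ∀ β : BT, Valid β → κ < cost β w) :
    κ < (w 0 1 + w 0 2 + w 0 3 + w 0 4 + w 1 0 + w 1 1 + w 1 2 + w 1 3 + w 1 4 + w 2 1 + w 2 3 + w 2 4) + max 0 (w 0 0 + w 2 0 + 3*w 2 2 - 1) := by
  refine cost_conv (β := (0, 2, ![![true, false, false, false, false], ![false, false, false, false, false], ![true, false, true, false, false]])) ?_ ?_ (hcon _ ?_)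
  · simp [costA, Fin.sum_univ_three, Fin.sum_univ_five] <;> ring
  · simp [costB, coef, Fin.sum_univ_three, Fin.sum_univ_five] <;> first | (left; ring) | ring
  · unfold Valid
    decide

lemma lpwH99 (w : Fin 3 → Fin 5 → ℝ) (κ : ℝ)
    (hcon : ∀ β : BT, Valid β → κ < cost β w) :
    κ < (w 0 1 + w 0 2 + w 0 3 + w 0 4 + w 1 0 + w 1 1 + w 1 3 + w 1 4 + w 2 0 + w 2 1 + w 2 3 + w 2 4) + max 0 (w 0 0 + w 1 2 + w 2 2 - 1) := by
  refine cost_conv (β := (2, 0, ![![true, false, false, false, false], ![false, false, true, false, false], ![false, false, true, false, false]])) ?_ ?_ (hcon _ ?_)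
  · simp [costA, Fin.sum_univ_three, Fin.sum_univ_five] <;> ring
  · simp [costB, coef, Fin.sum_univ_three, Fin.sum_univ_five] <;> first | (left; ring) | ring
  · unfold Valid
    decide

lemma lpwH100 (w : Fin 3 → Fin 5 → ℝ) (κ : ℝ)
    (hcon : ∀ β : BT, Valid β → κ < cost β w) :
    κ < (w 0 0 + w 0 2 + w 0 4 + w 1 0 + w 1 2 + w 1 4 + w 2 0 + w 2 3 + w 2 4) + max 0 (w 0 1 + 2*w 0 3 + w 1 1 + 2*w 1 3 + 2*w 2 1 + 3*w 2 2 - 1) := by
  refine cost_conv (β := (1, 2, ![![false, true, false, true, false], ![false, true, false, true, false], ![false, true, true, false, false]])) ?_ ?_ (hcon _ ?_)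
  · simp [costA, Fin.sum_univ_three, Fin.sum_univ_five] <;> ring
  · simp [costB, coef, Fin.sum_univ_three, Fin.sum_univ_five] <;> first | (left; ring) | ring
  · unfold Valid
    decide

lemma lpwH101 (w : Fin 3 → Fin 5 → ℝ) (κ : ℝ)
    (hcon : ∀ β : BT, Valid β → κ < cost β w) :
    κ < (w 0 1 + w 0 3 + w 0 4 + w 1 0 + w 1 3 + w 1 4 + w 2 1 + w 2 3 + w 2 4) + max 0 (w 0 0 + 3*w 0 2 + 2*w 1 1 + 3*w 1 2 + w 2 0 + 3*w 2 2 - 1) := by
  refine cost_conv (β := (0, 2, ![![true, false, true, false, false], ![false, true, true, false, false], ![true, false, true, false, false]])) ?_ ?_ (hcon _ ?_)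
  · simp [costA, Fin.sum_univ_three, Fin.sum_univ_five] <;> ring
  · simp [costB, coef, Fin.sum_univ_three, Fin.sum_univ_five] <;> first | (left; ring) | ring
  · unfold Valid
    decide

lemma lpwH102 (w : Fin 3 → Fin 5 → ℝ) (κ : ℝ)
    (hcon : ∀ β : BT, Valid β → κ < cost β w) :
    κ < (w 0 2 + w 0 3 + w 0 4 + w 1 0 + w 1 1 + w 1 3 + w 1 4 + w 2 2 + w 2 3 + w 2 4) + max 0 (w 0 0 + 2*w 0 1 + 3*w 1 2 + w 2 0 + 2*w 2 1 - 1) := by
  refine cost_conv (β := (0, 2, ![![true, true, false, false, false], ![false, false, true, false, false], ![true, true, false, false, false]])) ?_ ?_ (hcon _ ?_)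
  · simp [costA, Fin.sum_univ_three, Fin.sum_univ_five] <;> ring
  · simp [costB, coef, Fin.sum_univ_three, Fin.sum_univ_five] <;> first | (left; ring) | ring
  · unfold Valid
    decide

lemma lpwH103 (w : Fin 3 → Fin 5 → ℝ) (κ : ℝ)
    (hcon : ∀ β : BT, Valid β → κ < cost β w) :
    κ < (w 0 0 + w 0 2 + w 0 4 + w 1 3 + w 1 4 + w 2 0 + w 2 2 + w 2 3 + w 2 4) + max 0 (w 0 1 + 2*w 0 3 + w 1 0 + 2*w 1 1 + 3*w 1 2 + w 2 1 - 1) := by
  refine cost_conv (β := (1, 1, ![![false, true, false, true, false], ![true, true, true, false, false], ![false, true, false, false, false]])) ?_ ?_ (hcon _ ?_)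
  · simp [costA, Fin.sum_univ_three, Fin.sum_univ_five] <;> ring
  · simp [costB, coef, Fin.sum_univ_three, Fin.sum_univ_five] <;> first | (left; ring) | ring
  · unfold Valid
    decide

lemma lpwH104 (w : Fin 3 → Fin 5 → ℝ) (κ : ℝ)
    (hcon : ∀ β : BT, Valid β → κ < cost β w) :
    κ < (w 0 1 + w 0 2 + w 0 3 + w 0 4 + w 1 1 + w 1 3 + w 1 4 + w 2 0 + w 2 2 + w 2 3 + w 2 4) + max 0 (w 0 0 + w 1 0 + 3*w 1 2 + 2*w 2 1 - 1) := by
  refine cost_conv (β := (0, 2, ![![true, false, false, false, false], ![true, false, true, false, false], ![false, true, false, false, false]])) ?_ ?_ (hcon _ ?_)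
  · simp [costA, Fin.sum_univ_three, Fin.sum_univ_five] <;> ring
  · simp [costB, coef, Fin.sum_univ_three, Fin.sum_univ_five] <;> first | (left; ring) | ring
  · unfold Valid
    decide

lemma lpwH105 (w : Fin 3 → Fin 5 → ℝ) (κ : ℝ)
    (hcon : ∀ β : BT, Valid β → κ < cost β w) :
    κ < (w 0 1 + w 0 2 + w 0 3 + w 0 4 + w 1 2 + w 1 3 + w 1 4 + w 2 3 + w 2 4) + max 0 (w 0 0 + w 1 0 + 2*w 1 1 + w 2 0 + 2*w 2 1 + 3*w 2 2 - 1) := by
  refine cost_conv (β := (0, 2, ![![true, false, false, false, false], ![true, true, false, false, false], ![true, true, true, false, false]])) ?_ ?_ (hcon _ ?_)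
  · simp [costA, Fin.sum_univ_three, Fin.sum_univ_five] <;> ring
  · simp [costB, coef, Fin.sum_univ_three, Fin.sum_univ_five] <;> first | (left; ring) | ring
  · unfold Valid
    decide

lemma lpwH106 (w : Fin 3 → Fin 5 → ℝ) (κ : ℝ)
    (hcon : ∀ β : BT, Valid β → κ < cost β w) :
    κ < (w 0 0 + w 0 2 + w 0 4 + w 1 0 + w 1 2 + w 1 4 + w 2 0 + w 2 2 + w 2 4) + max 0 (w 0 1 + 2*w 0 3 + w 1 1 + 2*w 1 3 + 2*w 2 1 + 4*w 2 3 - 1) := by
  refine cost_conv (β := (1, 2, ![![false, true, false, true, false], ![false, true, false, true, false], ![false, true, false, true, false]])) ?_ ?_ (hcon _ ?_)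
  · simp [costA, Fin.sum_univ_three, Fin.sum_univ_five] <;> ring
  · simp [costB, coef, Fin.sum_univ_three, Fin.sum_univ_five] <;> first | (left; ring) | ring
  · unfold Valid
    decide

lemma lpwH107 (w : Fin 3 → Fin 5 → ℝ) (κ : ℝ)
    (hcon : ∀ β : BT, Valid β → κ < cost β w) :
    κ < (w 0 1 + w 0 3 + w 0 4 + w 1 1 + w 1 2 + w 1 3 + w 1 4 + w 2 4) + max 0 (w 0 0 + 3*w 0 2 + w 1 0 + w 2 0 + 2*w 2 1 + 3*w 2 2 + 4*w 2 3 - 1) := by
  refine cost_conv (β := (0, 2, ![![true, false, true, false, false], ![true, false, false, false, false], ![true, true, true, true, false]])) ?_ ?_ (hcon _ ?_)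
  · simp [costA, Fin.sum_univ_three, Fin.sum_univ_five] <;> ring
  · simp [costB, coef, Fin.sum_univ_three, Fin.sum_univ_five] <;> first | (left; ring) | ring
  · unfold Valid
    decide

lemma lpwH108 (w : Fin 3 → Fin 5 → ℝ) (κ : ℝ)
    (hcon : ∀ β : BT, Valid β → κ < cost β w) :
    κ < (w 0 2 + w 0 3 + w 0 4 + w 1 3 + w 1 4 + w 2 2 + w 2 4) + max 0 (w 0 0 + 2*w 0 1 + w 1 0 + 2*w 1 1 + 3*w 1 2 + w 2 0 + 2*w 2 1 + 4*w 2 3 - 1) := by
  refine cost_conv (β := (0, 2, ![![true, true, false, false, false], ![true, true, true, false, false], ![true, true, false, true, false]])) ?_ ?_ (hcon _ ?_)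
  · simp [costA, Fin.sum_univ_three, Fin.sum_univ_five] <;> ring
  · simp [costB, coef, Fin.sum_univ_three, Fin.sum_univ_five] <;> first | (left; ring) | ring
  · unfold Valid
    decide

lemma lpwH109 (w : Fin 3 → Fin 5 → ℝ) (κ : ℝ)
    (hcon : ∀ β : BT, Valid β → κ < cost β w) :
    κ < (w 0 1 + w 0 3 + w 0 4 + w 1 1 + w 1 3 + w 1 4 + w 2 2 + w 2 3 + w 2 4) + max 0 (w 0 0 + 3*w 0 2 + w 1 0 + 3*w 1 2 + w 2 0 + 2*w 2 1 - 1) := by
  refine cost_conv (β := (0, 2, ![![true, false, true, false, false], ![true, false, true, false, false], ![true, true, false, false, false]])) ?_ ?_ (hcon _ ?_)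
  · simp [costA, Fin.sum_univ_three, Fin.sum_univ_five] <;> ring
  · simp [costB, coef, Fin.sum_univ_three, Fin.sum_univ_five] <;> first | (left; ring) | ring
  · unfold Valid
    decide

lemma lpwH110 (w : Fin 3 → Fin 5 → ℝ) (κ : ℝ)
    (hcon : ∀ β : BT, Valid β → κ < cost β w) :
    κ < (w 0 0 + w 0 2 + w 0 4 + w 1 0 + w 1 2 + w 1 3 + w 1 4 + w 2 3 + w 2 4) + max 0 (w 0 1 + 2*w 0 3 + w 1 1 + w 2 0 + 2*w 2 1 + 3*w 2 2 - 1) := by
  refine cost_conv (β := (1, 2, ![![false, true, false, true, false], ![false, true, false, false, false], ![true, true, true, false, false]])) ?_ ?_ (hcon _ ?_)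
  · simp [costA, Fin.sum_univ_three, Fin.sum_univ_five] <;> ring
  · simp [costB, coef, Fin.sum_univ_three, Fin.sum_univ_five] <;> first | (left; ring) | ring
  · unfold Valid
    decide

lemma lpwH111 (w : Fin 3 → Fin 5 → ℝ) (κ : ℝ)
    (hcon : ∀ β : BT, Valid β → κ < cost β w) :
    κ < (w 0 1 + w 0 2 + w 0 3 + w 0 4 + w 1 1 + w 1 3 + w 1 4 + w 2 1 + w 2 3 + w 2 4) + max 0 (w 0 0 + w 1 0 + 3*w 1 2 + w 2 0 + 3*w 2 2 - 1) := by
  refine cost_conv (β := (0, 2, ![![true, false, false, false, false], ![true, false, true, false, false], ![true, false, true, false, false]])) ?_ ?_ (hcon _ ?_)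
  · simp [costA, Fin.sum_univ_three, Fin.sum_univ_five] <;> ring
  · simp [costB, coef, Fin.sum_univ_three, Fin.sum_univ_five] <;> first | (left; ring) | ring
  · unfold Valid
    decide

lemma lpwH112 (w : Fin 3 → Fin 5 → ℝ) (κ : ℝ)
    (hcon : ∀ β : BT, Valid β → κ < cost β w) :
    κ < (w 0 2 + w 0 3 + w 0 4 + w 1 0 + w 1 1 + w 1 3 + w 1 4 + w 2 0 + w 2 1 + w 2 3 + w 2 4) + max 0 (w 0 0 + 2*w 0 1 + w 1 2 + w 2 2 - 1) := by
  refine cost_conv (β := (2, 0, ![![true, true, false, false, false], ![false, false, true, false, false], ![false, false, true, false, false]])) ?_ ?_ (hcon _ ?_)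
  · simp [costA, Fin.sum_univ_three, Fin.sum_univ_five] <;> ring
  · simp [costB, coef, Fin.sum_univ_three, Fin.sum_univ_five] <;> first | (left; ring) | ring
  · unfold Valid
    decide

lemma lpwH113 (w : Fin 3 → Fin 5 → ℝ) (κ : ℝ)
    (hcon : ∀ β : BT, Valid β → κ < cost β w) :
    κ < (w 0 0 + w 0 2 + w 0 4 + w 1 0 + w 1 2 + w 1 3 + w 1 4 + w 2 0 + w 2 2 + w 2 4) + max 0 (w 0 1 + 2*w 0 3 + 2*w 1 1 + w 2 1 + 2*w 2 3 - 1) := by
  refine cost_conv (β := (1, 1, ![![false, true, false, true, false], ![false, true, false, false, false], ![false, true, false, true, false]])) ?_ ?_ (hcon _ ?_)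
  · simp [costA, Fin.sum_univ_three, Fin.sum_univ_five] <;> ring
  · simp [costB, coef, Fin.sum_univ_three, Fin.sum_univ_five] <;> first | (left; ring) | ring
  · unfold Valid
    decide

lemma lpwH114 (w : Fin 3 → Fin 5 → ℝ) (κ : ℝ)
    (hcon : ∀ β : BT, Valid β → κ < cost β w) :
    κ < (w 0 0 + w 0 3 + w 0 4 + w 1 0 + w 1 1 + w 1 3 + w 1 4 + w 2 0 + w 2 1 + w 2 3 + w 2 4) + max 0 (2*w 0 1 + 3*w 0 2 + w 1 2 + w 2 2 - 1) := by
  refine cost_conv (β := (2, 0, ![![false, true, true, false, false], ![false, false, true, false, false], ![false, false, true, false, false]])) ?_ ?_ (hcon _ ?_)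
  · simp [costA, Fin.sum_univ_three, Fin.sum_univ_five] <;> ring
  · simp [costB, coef, Fin.sum_univ_three, Fin.sum_univ_five] <;> first | (left; ring) | ring
  · unfold Valid
    decide

lemma lpwH115 (w : Fin 3 → Fin 5 → ℝ) (κ : ℝ)
    (hcon : ∀ β : BT, Valid β → κ < cost β w) :
    κ < (w 0 2 + w 0 3 + w 0 4 + w 1 0 + w 1 2 + w 1 3 + w 1 4 + w 2 3 + w 2 4) + max 0 (w 0 0 + 2*w 0 1 + 2*w 1 1 + w 2 0 + 2*w 2 1 + 3*w 2 2 - 1) := by
  refine cost_conv (β := (0, 2, ![![true, true, false, false, false], ![false, true, false, false, false], ![true, true, true, false, false]])) ?_ ?_ (hcon _ ?_)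
  · simp [costA, Fin.sum_univ_three, Fin.sum_univ_five] <;> ring
  · simp [costB, coef, Fin.sum_univ_three, Fin.sum_univ_five] <;> first | (left; ring) | ring
  · unfold Valid
    decide

lemma lpwH116 (w : Fin 3 → Fin 5 → ℝ) (κ : ℝ)
    (hcon : ∀ β : BT, Valid β → κ < cost β w) :
    κ < (w 0 4 + w 1 0 + w 1 1 + w 1 3 + w 1 4 + w 2 0 + w 2 1 + w 2 3 + w 2 4) + max 0 (w 0 0 + 2*w 0 1 + 3*w 0 2 + 4*w 0 3 + w 1 2 + w 2 2 - 1) := by
  refine cost_conv (β := (2, 0, ![![true, true, true, true, false], ![false, false, true, false, false], ![false, false, true, false, false]])) ?_ ?_ (hcon _ ?_)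
  · simp [costA, Fin.sum_univ_three, Fin.sum_univ_five] <;> ring
  · simp [costB, coef, Fin.sum_univ_three, Fin.sum_univ_five] <;> first | (left; ring) | ring
  · unfold Valid
    decide

lemma lpwH117 (w : Fin 3 → Fin 5 → ℝ) (κ : ℝ)
    (hcon : ∀ β : BT, Valid β → κ < cost β w) :
    κ < (w 0 1 + w 0 2 + w 0 3 + w 0 4 + w 1 2 + w 1 3 + w 1 4 + w 2 2 + w 2 4) + max 0 (w 0 0 + w 1 0 + 2*w 1 1 + w 2 0 + 2*w 2 1 + 4*w 2 3 - 1) := by
  refine cost_conv (β := (0, 2, ![![true, false, false, false, false], ![true, true, false, false, false], ![true, true, false, true, false]])) ?_ ?_ (hcon _ ?_)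
  · simp [costA, Fin.sum_univ_three, Fin.sum_univ_five] <;> ring
  · simp [costB, coef, Fin.sum_univ_three, Fin.sum_univ_five] <;> first | (left; ring) | ring
  · unfold Valid
    decide

lemma lpwH118 (w : Fin 3 → Fin 5 → ℝ) (κ : ℝ)
    (hcon : ∀ β : BT, Valid β → κ < cost β w) :
    κ < (w 0 1 + w 0 2 + w 0 3 + w 0 4 + w 1 0 + w 1 1 + w 1 3 + w 1 4 + w 2 1 + w 2 2 + w 2 3 + w 2 4) + max 0 (w 0 0 + 3*w 1 2 + w 2 0 - 1) := by
  refine cost_conv (β := (0, 2, ![![true, false, false, false, false], ![false, false, true, false, false], ![true, false, false, false, false]])) ?_ ?_ (hcon _ ?_)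
  · simp [costA, Fin.sum_univ_three, Fin.sum_univ_five] <;> ring
  · simp [costB, coef, Fin.sum_univ_three, Fin.sum_univ_five] <;> first | (left; ring) | ring
  · unfold Valid
    decide

lemma lpwH119 (w : Fin 3 → Fin 5 → ℝ) (κ : ℝ)
    (hcon : ∀ β : BT, Valid β → κ < cost β w) :
    κ < (w 0 2 + w 0 3 + w 0 4 + w 1 2 + w 1 3 + w 1 4 + w 2 2 + w 2 4) + max 0 (w 0 0 + 2*w 0 1 + w 1 0 + 2*w 1 1 + w 2 0 + 2*w 2 1 + 4*w 2 3 - 1) := by
  refine cost_conv (β := (0, 2, ![![true, true, false, false, false], ![true, true, false, false, false], ![true, true, false, true, false]])) ?_ ?_ (hcon _ ?_)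
  · simp [costA, Fin.sum_univ_three, Fin.sum_univ_five] <;> ring
  · simp [costB, coef, Fin.sum_univ_three, Fin.sum_univ_five] <;> first | (left; ring) | ring
  · unfold Valid
    decide

lemma lpwH120 (w : Fin 3 → Fin 5 → ℝ) (κ : ℝ)
    (hcon : ∀ β : BT, Valid β → κ < cost β w) :
    κ < (w 0 3 + w 0 4 + w 1 0 + w 1 2 + w 1 3 + w 1 4 + w 2 2 + w 2 3 + w 2 4) + max 0 (w 0 0 + 2*w 0 1 + 3*w 0 2 + 2*w 1 1 + w 2 0 + 2*w 2 1 - 1) := by
  refine cost_conv (β := (0, 2, ![![true, true, true, false, false], ![false, true, false, false, false], ![true, true, false, false, false]])) ?_ ?_ (hcon _ ?_)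
  · simp [costA, Fin.sum_univ_three, Fin.sum_univ_five] <;> ring
  · simp [costB, coef, Fin.sum_univ_three, Fin.sum_univ_five] <;> first | (left; ring) | ring
  · unfold Valid
    decide

lemma lpwH121 (w : Fin 3 → Fin 5 → ℝ) (κ : ℝ)
    (hcon : ∀ β : BT, Valid β → κ < cost β w) :
    κ < (w 0 2 + w 0 3 + w 0 4 + w 1 0 + w 1 2 + w 1 3 + w 1 4 + w 2 2 + w 2 3 + w 2 4) + max 0 (w 0 0 + 2*w 0 1 + 2*w 1 1 + w 2 0 + 2*w 2 1 - 1) := by
  refine cost_conv (β := (0, 2, ![![true, true, false, false, false], ![false, true, false, false, false], ![true, true, false, false, false]])) ?_ ?_ (hcon _ ?_)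
  · simp [costA, Fin.sum_univ_three, Fin.sum_univ_five] <;> ring
  · simp [costB, coef, Fin.sum_univ_three, Fin.sum_univ_five] <;> first | (left; ring) | ring
  · unfold Valid
    decide

lemma lpwH122 (w : Fin 3 → Fin 5 → ℝ) (κ : ℝ)
    (hcon : ∀ β : BT, Valid β → κ < cost β w) :
    κ < (w 0 0 + w 0 2 + w 0 3 + w 0 4 + w 1 0 + w 1 2 + w 1 4 + w 2 0 + w 2 2 + w 2 4) + max 0 (2*w 0 1 + w 1 1 + 2*w 1 3 + w 2 1 + 2*w 2 3 - 1) := by
  refine cost_conv (β := (1, 0, ![![false, true, false, false, false], ![false, true, false, true, false], ![false, true, false, true, false]])) ?_ ?_ (hcon _ ?_)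
  · simp [costA, Fin.sum_univ_three, Fin.sum_univ_five] <;> ring
  · simp [costB, coef, Fin.sum_univ_three, Fin.sum_univ_five] <;> first | (left; ring) | ring
  · unfold Valid
    decide

lemma lpwH123 (w : Fin 3 → Fin 5 → ℝ) (κ : ℝ)
    (hcon : ∀ β : BT, Valid β → κ < cost β w) :
    κ < (w 0 0 + w 0 1 + w 0 2 + w 0 3 + w 0 4 + w 1 0 + w 1 1 + w 1 3 + w 1 4 + w 2 1 + w 2 2 + w 2 3 + w 2 4) + max 0 (3*w 1 2 + w 2 0 - 1) := by
  refine cost_conv (β := (0, 2, ![![false, false, false, false, false], ![false, false, true, false, false], ![true, false, false, false, false]])) ?_ ?_ (hcon _ ?_)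
  · simp [costA, Fin.sum_univ_three, Fin.sum_univ_five] <;> ring
  · simp [costB, coef, Fin.sum_univ_three, Fin.sum_univ_five] <;> first | (left; ring) | ring
  · unfold Valid
    decide

lemma lpwH124 (w : Fin 3 → Fin 5 → ℝ) (κ : ℝ)
    (hcon : ∀ β : BT, Valid β → κ < cost β w) :
    κ < (w 0 0 + w 0 1 + w 0 2 + w 0 3 + w 0 4 + w 1 1 + w 1 3 + w 1 4 + w 2 1 + w 2 2 + w 2 3 + w 2 4) + max 0 (w 1 0 + 3*w 1 2 + w 2 0 - 1) := by
  refine cost_conv (β := (0, 2, ![![false, false, false, false, false], ![true, false, true, false, false], ![true, false, false, false, false]])) ?_ ?_ (hcon _ ?_)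
  · simp [costA, Fin.sum_univ_three, Fin.sum_univ_five] <;> ring
  · simp [costB, coef, Fin.sum_univ_three, Fin.sum_univ_five] <;> first | (left; ring) | ring
  · unfold Valid
    decide

lemma lpwH125 (w : Fin 3 → Fin 5 → ℝ) (κ : ℝ)
    (hcon : ∀ β : BT, Valid β → κ < cost β w) :
    κ < (w 0 1 + w 0 2 + w 0 3 + w 0 4 + w 1 1 + w 1 3 + w 1 4 + w 2 1 + w 2 2 + w 2 3 + w 2 4) + max 0 (w 0 0 + w 1 0 + 3*w 1 2 + w 2 0 - 1) := by
  refine cost_conv (β := (0, 2, ![![true, false, false, false, false], ![true, false, true, false, false], ![true, false, false, false, false]])) ?_ ?_ (hcon _ ?_)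
  · simp [costA, Fin.sum_univ_three, Fin.sum_univ_five] <;> ring
  · simp [costB, coef, Fin.sum_univ_three, Fin.sum_univ_five] <;> first | (left; ring) | ring
  · unfold Valid
    decide

lemma lpwH126 (w : Fin 3 → Fin 5 → ℝ) (κ : ℝ)
    (hcon : ∀ β : BT, Valid β → κ < cost β w) :
    κ < (w 0 0 + w 0 3 + w 0 4 + w 1 0 + w 1 2 + w 1 4 + w 2 0 + w 2 2 + w 2 4) + max 0 (2*w 0 1 + 3*w 0 2 + w 1 1 + 2*w 1 3 + w 2 1 + 2*w 2 3 - 1) := by
  refine cost_conv (β := (1, 0, ![![false, true, true, false, false], ![false, true, false, true, false], ![false, true, false, true, false]])) ?_ ?_ (hcon _ ?_)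
  · simp [costA, Fin.sum_univ_three, Fin.sum_univ_five] <;> ring
  · simp [costB, coef, Fin.sum_univ_three, Fin.sum_univ_five] <;> first | (left; ring) | ring
  · unfold Valid
    decide

lemma lpwH127 (w : Fin 3 → Fin 5 → ℝ) (κ : ℝ)
    (hcon : ∀ β : BT, Valid β → κ < cost β w) :
    κ < (w 0 0 + w 0 1 + w 0 3 + w 0 4 + w 1 0 + w 1 1 + w 1 3 + w 1 4 + w 2 1 + w 2 2 + w 2 3 + w 2 4) + max 0 (w 0 2 + w 1 2 + w 2 0 - 1) := by
  refine cost_conv (β := (2, 2, ![![false, false, true, false, false], ![false, false, true, false, false], ![true, false, false, false, false]])) ?_ ?_ (hcon _ ?_)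
  · simp [costA, Fin.sum_univ_three, Fin.sum_univ_five] <;> ring
  · simp [costB, coef, Fin.sum_univ_three, Fin.sum_univ_five] <;> first | (left; ring) | ring
  · unfold Valid
    decide

lemma lpwH128 (w : Fin 3 → Fin 5 → ℝ) (κ : ℝ)
    (hcon : ∀ β : BT, Valid β → κ < cost β w) :
    κ < (w 0 2 + w 0 3 + w 0 4 + w 1 2 + w 1 3 + w 1 4 + w 2 1 + w 2 2 + w 2 3 + w 2 4) + max 0 (w 0 0 + 2*w 0 1 + w 1 0 + 2*w 1 1 + w 2 0 - 1) := by
  refine cost_conv (β := (0, 2, ![![true, true, false, false, false], ![true, true, false, false, false], ![true, false, false, false, false]])) ?_ ?_ (hcon _ ?_)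
  · simp [costA, Fin.sum_univ_three, Fin.sum_univ_five] <;> ring
  · simp [costB, coef, Fin.sum_univ_three, Fin.sum_univ_five] <;> first | (left; ring) | ring
  · unfold Valid
    decide

lemma lpwH129 (w : Fin 3 → Fin 5 → ℝ) (κ : ℝ)
    (hcon : ∀ β : BT, Valid β → κ < cost β w) :
    κ < (w 0 1 + w 0 2 + w 0 3 + w 0 4 + w 1 2 + w 1 3 + w 1 4 + w 2 1 + w 2 3 + w 2 4) + max 0 (w 0 0 + w 1 0 + 2*w 1 1 + w 2 0 + 3*w 2 2 - 1) := by
  refine cost_conv (β := (0, 2, ![![true, false, false, false, false], ![true, true, false, false, false], ![true, false, true, false, false]])) ?_ ?_ (hcon _ ?_)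
  · simp [costA, Fin.sum_univ_three, Fin.sum_univ_five] <;> ring
  · simp [costB, coef, Fin.sum_univ_three, Fin.sum_univ_five] <;> first | (left; ring) | ring
  · unfold Valid
    decide

lemma lpwH130 (w : Fin 3 → Fin 5 → ℝ) (κ : ℝ)
    (hcon : ∀ β : BT, Valid β → κ < cost β w) :
    κ < (w 0 1 + w 0 2 + w 0 3 + w 0 4 + w 1 1 + w 1 3 + w 1 4 + w 2 0 + w 2 1 + w 2 2 + w 2 3 + w 2 4) + max 0 (w 0 0 + w 1 0 + 3*w 1 2 - 1) := by
  refine cost_conv (β := (0, 2, ![![true, false, false, false, false], ![true, false, true, false, false], ![false, false, false, false, false]])) ?_ ?_ (hcon _ ?_)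
  · simp [costA, Fin.sum_univ_three, Fin.sum_univ_five] <;> ring
  · simp [costB, coef, Fin.sum_univ_three, Fin.sum_univ_five] <;> first | (left; ring) | ring
  · unfold Valid
    decide

lemma lpwH131 (w : Fin 3 → Fin 5 → ℝ) (κ : ℝ)
    (hcon : ∀ β : BT, Valid β → κ < cost β w) :
    κ < (w 0 0 + w 0 1 + w 0 3 + w 0 4 + w 1 0 + w 1 1 + w 1 3 + w 1 4 + w 2 0 + w 2 1 + w 2 2 + w 2 3 + w 2 4) + max 0 (w 0 2 + w 1 2 - 1) := by
  refine cost_conv (β := (2, 2, ![![false, false, true, false, false], ![false, false, true, false, false], ![false, false, false, false, false]])) ?_ ?_ (hcon _ ?_)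
  · simp [costA, Fin.sum_univ_three, Fin.sum_univ_five] <;> ring
  · simp [costB, coef, Fin.sum_univ_three, Fin.sum_univ_five] <;> first | (left; ring) | ring
  · unfold Valid
    decide

lemma lpwH132 (w : Fin 3 → Fin 5 → ℝ) (κ : ℝ)
    (hcon : ∀ β : BT, Valid β → κ < cost β w) :
    κ < (w 0 0 + w 0 1 + w 0 3 + w 0 4 + w 1 0 + w 1 1 + w 1 3 + w 1 4 + w 2 1 + w 2 3 + w 2 4) + max 0 (w 0 2 + w 1 2 + w 2 0 + 3*w 2 2 - 1) := by
  refine cost_conv (β := (2, 2, ![![false, false, true, false, false], ![false, false, true, false, false], ![true, false, true, false, false]])) ?_ ?_ (hcon _ ?_)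
  · simp [costA, Fin.sum_univ_three, Fin.sum_univ_five] <;> ring
  · simp [costB, coef, Fin.sum_univ_three, Fin.sum_univ_five] <;> first | (left; ring) | ring
  · unfold Valid
    decide

/-- The combinatorial optimisation for a total weight at least `1`. -/
theorem lph_ge_one {Λ : ℝ} (hΛ : 1 ≤ Λ) : LPH Λ ((93 * Λ - 13) / 133) := by
  intro w h0 hS hL
  by_contra hcon
  have hk : ∀ β : BT, Valid β → (93 * Λ - 13) / 133 < cost β w := by
    intro β hβ
    by_contra h
    exact hcon ⟨β, hβ, not_lt.mp h⟩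
  have s0 : w 0 0 + 2*w 0 1 + 3*w 0 2 + 4*w 0 3 + 5*w 0 4 ≤ 1 := by
    have := hS 0
    simp [Fin.sum_univ_five] at this
    linarith
  have s1 : w 1 0 + 2*w 1 1 + 3*w 1 2 + 4*w 1 3 + 5*w 1 4 ≤ 1 := by
    have := hS 1
    simp [Fin.sum_univ_five] at this
    linarith
  have s2 : w 2 0 + 2*w 2 1 + 3*w 2 2 + 4*w 2 3 + 5*w 2 4 ≤ 1 := by
    have := hS 2
    simp [Fin.sum_univ_five] at this
    linarith
  have sL : w 0 0 + w 0 1 + w 0 2 + w 0 3 + w 0 4 + w 1 0 + w 1 1 + w 1 2 + w 1 3 + w 1 4 + w 2 0 + w 2 1 + w 2 2 + w 2 3 + w 2 4 ≤ Λ := by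
    simp [Fin.sum_univ_three, Fin.sum_univ_five] at hL
    linarith
  exact lp_core (w 0 0) (w 0 1) (w 0 2) (w 0 3) (w 0 4) (w 1 0) (w 1 1) (w 1 2) (w 1 3) (w 1 4) (w 2 0) (w 2 1) (w 2 2) (w 2 3) (w 2 4) Λ hΛ
    (h0 0 0) (h0 0 1) (h0 0 2) (h0 0 3) (h0 0 4) (h0 1 0) (h0 1 1) (h0 1 2) (h0 1 3) (h0 1 4) (h0 2 0) (h0 2 1) (h0 2 2) (h0 2 3) (h0 2 4)
    s0 s1 s2 sL
    (lpwT0 w _ hk s0)
    (lpwT1 w _ hk s1)
    (lpwT2 w _ hk s2)
    (lpwH0 w _ hk)
    (lpwH1 w _ hk)
    (lpwH2 w _ hk)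
    (lpwH3 w _ hk)
    (lpwH4 w _ hk)
    (lpwH5 w _ hk)
    (lpwH6 w _ hk)
    (lpwH7 w _ hk)
    (lpwH8 w _ hk)
    (lpwH9 w _ hk)
    (lpwH10 w _ hk)
    (lpwH11 w _ hk)
    (lpwH12 w _ hk)
    (lpwH13 w _ hk)
    (lpwH14 w _ hk)
    (lpwH15 w _ hk)
    (lpwH16 w _ hk)
    (lpwH17 w _ hk)
    (lpwH18 w _ hk)
    (lpwH19 w _ hk)
    (lpwH20 w _ hk)
    (lpwH21 w _ hk)
    (lpwH22 w _ hk)
    (lpwH23 w _ hk)
    (lpwH24 w _ hk)
    (lpwH25 w _ hk)
    (lpwH26 w _ hk)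
    (lpwH27 w _ hk)
    (lpwH28 w _ hk)
    (lpwH29 w _ hk)
    (lpwH30 w _ hk)
    (lpwH31 w _ hk)
    (lpwH32 w _ hk)
    (lpwH33 w _ hk)
    (lpwH34 w _ hk)
    (lpwH35 w _ hk)
    (lpwH36 w _ hk)
    (lpwH37 w _ hk)
    (lpwH38 w _ hk)
    (lpwH39 w _ hk)
    (lpwH40 w _ hk)
    (lpwH41 w _ hk)
    (lpwH42 w _ hk)
    (lpwH43 w _ hk)
    (lpwH44 w _ hk)
    (lpwH45 w _ hk)
    (lpwH46 w _ hk)
    (lpwH47 w _ hk)
    (lpwH48 w _ hk)
    (lpwH49 w _ hk)
    (lpwH50 w _ hk)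
    (lpwH51 w _ hk)
    (lpwH52 w _ hk)
    (lpwH53 w _ hk)
    (lpwH54 w _ hk)
    (lpwH55 w _ hk)
    (lpwH56 w _ hk)
    (lpwH57 w _ hk)
    (lpwH58 w _ hk)
    (lpwH59 w _ hk)
    (lpwH60 w _ hk)
    (lpwH61 w _ hk)
    (lpwH62 w _ hk)
    (lpwH63 w _ hk)
    (lpwH64 w _ hk)
    (lpwH65 w _ hk)
    (lpwH66 w _ hk)
    (lpwH67 w _ hk)
    (lpwH68 w _ hk)
    (lpwH69 w _ hk)
    (lpwH70 w _ hk)
    (lpwH71 w _ hk)
    (lpwH72 w _ hk)
    (lpwH73 w _ hk)
    (lpwH74 w _ hk)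
    (lpwH75 w _ hk)
    (lpwH76 w _ hk)
    (lpwH77 w _ hk)
    (lpwH78 w _ hk)
    (lpwH79 w _ hk)
    (lpwH80 w _ hk)
    (lpwH81 w _ hk)
    (lpwH82 w _ hk)
    (lpwH83 w _ hk)
    (lpwH84 w _ hk)
    (lpwH85 w _ hk)
    (lpwH86 w _ hk)
    (lpwH87 w _ hk)
    (lpwH88 w _ hk)
    (lpwH89 w _ hk)
    (lpwH90 w _ hk)
    (lpwH91 w _ hk)
    (lpwH92 w _ hk)
    (lpwH93 w _ hk)
    (lpwH94 w _ hk)
    (lpwH95 w _ hk)
    (lpwH96 w _ hk)
    (lpwH97 w _ hk)
    (lpwH98 w _ hk)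
    (lpwH99 w _ hk)
    (lpwH100 w _ hk)
    (lpwH101 w _ hk)
    (lpwH102 w _ hk)
    (lpwH103 w _ hk)
    (lpwH104 w _ hk)
    (lpwH105 w _ hk)
    (lpwH106 w _ hk)
    (lpwH107 w _ hk)
    (lpwH108 w _ hk)
    (lpwH109 w _ hk)
    (lpwH110 w _ hk)
    (lpwH111 w _ hk)
    (lpwH112 w _ hk)
    (lpwH113 w _ hk)
    (lpwH114 w _ hk)
    (lpwH115 w _ hk)
    (lpwH116 w _ hk)
    (lpwH117 w _ hk)
    (lpwH118 w _ hk)
    (lpwH119 w _ hk)
    (lpwH120 w _ hk)
    (lpwH121 w _ hk)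
    (lpwH122 w _ hk)
    (lpwH123 w _ hk)
    (lpwH124 w _ hk)
    (lpwH125 w _ hk)
    (lpwH126 w _ hk)
    (lpwH127 w _ hk)
    (lpwH128 w _ hk)
    (lpwH129 w _ hk)
    (lpwH130 w _ hk)
    (lpwH131 w _ hk)
    (lpwH132 w _ hk)

end BPlus

end Pool.Agent.Work.MP_a793bb_nt
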