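import Pool.Agent.Work.MP_a793bb_nt.ExcMain
import Pool.Agent.Work.MP_a793bb_nt.LPWrap

set_option autoImplicit false

namespace Pool.Agent.Work.MP_a793bb_nt

open NumberField

namespace BPlus

variable (K : Type*) [Field K] [NumberField K]

theorem upper_excPts (lam : ℝ) {δ : ℝ} (hδ : 0 < δ) : ∃ C : ℝ, ∀ B : ℝ, 0 ≤ B →
    ((excPts K lam B).ncard : ℝ) ≤
      C * Real.exp ((upperExp lam + δ) * (Module.finrank ℚ K : ℝ) * B) := by
  unfold upperExp
  split_ifs with h1 h2 h3
  · have h := lph_ge_one (Λ := 1) le_rfl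
    norm_num at h
    exact upper_of_LPH K h1 zero_le_one (by norm_num) h hδ
  · push Not at h1
    exact upper_of_LPH K le_rfl (by linarith) (by linarith) (lph_ge_one h1.le) hδ
  · have h := lph_ge_two (Λ := 2) le_rfl
    norm_num at h
    exact upper_of_LPH K h3 (by norm_num) (by norm_num) h hδ
  · push Not at h3
    exact upper_of_LPH K le_rfl (by linarith) (by linarith) (lph_ge_two h3.le) hδ

end BPlus

end Pool.Agent.Work.MP_a793bb_nt
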