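import Pool.Agent.Work.MP_a793bb_nt.Defs

set_option autoImplicit false

/-!
Definitions for the theorem on the exceptional set.
-/

namespace Pool.Agent.Work.MP_a793bb_nt

open NumberField LinearAlgebra.Projectivization

/-- The points `P = (a : b : c)` of the projective plane over `K` with `a + b + c = 0`,
`abc ≠ 0`, of height `h(P) ≤ B` and with `rad(P) ≤ lam * h(P)`. -/
def excPts (K : Type*) [Field K] [NumberField K] (lam B : ℝ) : Set (ℙ K (Fin 3 → K)) :=
  {P | ∃ (a b c : K) (h : ![a, b, c] ≠ 0), P = Projectivization.mk K ![a, b, c] h ∧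
    a + b + c = 0 ∧ a * b * c ≠ 0 ∧ ht a b c ≤ B ∧ rad a b c ≤ lam * ht a b c}

/-- The exponent of the upper bound. -/
noncomputable def upperExp (lam : ℝ) : ℝ :=
  if lam ≤ 1 then 80 / 133
  else if lam ≤ 146 / 93 then (93 * lam - 13) / 133
  else if lam ≤ 2 then 1
  else lam - 1

end Pool.Agent.Work.MP_a793bb_nt
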