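import Pool.Agent.Work.MP_a793bb_nt.Parts
import Pool.Agent.Work.MP_a793bb_nt.SmallRad

set_option autoImplicit false
set_option linter.unusedSectionVars false

namespace Pool.Agent.Work.MP_a793bb_nt

open NumberField IsDedekindDomain Height

variable {K : Type*} [Field K] [NumberField K]

namespace BPlus

/-! ### Sizes of the sides -/

lemma partI_univ {y : K} (hy : y ≠ 0) : partI y Set.univ = numI y := by
  apply ideal_ext_of_ex (partI_ne_bot hy _) (numI_ne_bot hy)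
  intro p
  rw [ex_partI hy, ex_numI' hy]
  unfold pe
  split_ifs with h
  · rfl
  · simp only [Set.mem_univ, and_true, not_lt] at h
    omega

lemma LP_univ_le {y : K} (hy : y ≠ 0) : LP y Set.univ ≤ logHeight₁ y := by
  rw [← log_absNorm_partI hy, partI_univ hy]
  exact log_absNorm_numI_le hy

lemma LP_le_univ {y : K} (hy : y ≠ 0) (R : Set ℕ) : LP y R ≤ LP y Set.univ := by
  have h1 := LP_add_compl hy R
  have h2 := LP_nonneg y Rᶜ
  linarith

lemma logHeight₁_le_hs (s : K) : logHeight₁ s ≤ hs s := by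
  rw [logHeight₁_eq_logHeight, hs]
  have : (![s, 1] : Fin 2 → K) = ![s, 1, 1 + s] ∘ ![0, 1] := by
    ext i; fin_cases i <;> simp
  rw [this]
  exact logHeight_comp_le _ _

lemma logHeight₁_one_add_le_hs (s : K) : logHeight₁ (1 + s) ≤ hs s := by
  rw [logHeight₁_eq_logHeight, hs]
  have : (![1 + s, 1] : Fin 2 → K) = ![s, 1, 1 + s] ∘ ![2, 1] := by
    ext i; fin_cases i <;> simp
  rw [this]
  exact logHeight_comp_le _ _

lemma LP_side_a {s : K} (h0 : s ≠ 0) (R : Set ℕ) : LP s R ≤ hs s :=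
  (LP_le_univ h0 R).trans ((LP_univ_le h0).trans (logHeight₁_le_hs s))

lemma LP_side_b {s : K} (h0 : s ≠ 0) (R : Set ℕ) : LP s⁻¹ R ≤ hs s := by
  refine (LP_le_univ (inv_ne_zero h0) R).trans ((LP_univ_le (inv_ne_zero h0)).trans ?_)
  rw [logHeight₁_inv]
  exact logHeight₁_le_hs s

lemma LP_side_c {s : K} (h1 : 1 + s ≠ 0) (R : Set ℕ) : LP (1 + s) R ≤ hs s :=
  (LP_le_univ h1 R).trans ((LP_univ_le h1).trans (logHeight₁_one_add_le_hs s))

lemma absNorm_partI_le {y : K} (hy : y ≠ 0) (E : Set ℕ) {X : ℝ} (hX : 0 < X)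
    (h : LP y E ≤ Real.log X) : (Ideal.absNorm (partI y E) : ℝ) ≤ X := by
  have h1 := one_le_absNorm K (partI_ne_bot hy E)
  rw [← Real.log_le_log_iff (by linarith) hX, log_absNorm_partI hy]
  exact h

/-- same data on the three sides, with respect to the complements of `Ra`, `Rb`, `Rc` -/
structure Same (Ra Rb Rc : Set ℕ) (s s' : K) : Prop where
  a : partI s Raᶜ = partI s' Raᶜ
  b : partI s⁻¹ Rbᶜ = partI s'⁻¹ Rbᶜ
  c : partI (1 + s) Rcᶜ = partI (1 + s') Rcᶜ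

lemma Same.symm {Ra Rb Rc : Set ℕ} {s s' : K} (h : Same Ra Rb Rc s s') : Same Ra Rb Rc s' s :=
  ⟨h.a.symm, h.b.symm, h.c.symm⟩

/-- good points in a dyadic block -/
structure Good (Y : ℝ) (Ra Rb Rc : Set ℕ) (za zb zc : ℝ) (s : K) : Prop where
  n0 : s ≠ 0
  n1 : 1 + s ≠ 0
  lo : Real.log Y ≤ hs s
  up : hs s ≤ Real.log (2 * Y)
  za : LP s Ra ≤ za
  zb : LP s⁻¹ Rb ≤ zb
  zc : LP (1 + s) Rc ≤ zc

lemma Same.kp_a {Ra Rb Rc : Set ℕ} {s s' : K} (h : Same Ra Rb Rc s s') (h0 : s ≠ 0)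
    (h0' : s' ≠ 0) (p : HeightOneSpectrum (𝓞 K)) (h1 : 0 < kp p s) (h2 : (kp p s).toNat ∉ Ra) :
    kp p s = kp p s' := kp_eq_of_partI_eq h0 h0' h.a p h1 h2

lemma Same.kp_b {Ra Rb Rc : Set ℕ} {s s' : K} (h : Same Ra Rb Rc s s') (h0 : s ≠ 0)
    (h0' : s' ≠ 0) (p : HeightOneSpectrum (𝓞 K)) (h1 : 0 < kp p s⁻¹)
    (h2 : (kp p s⁻¹).toNat ∉ Rb) : kp p s = kp p s' := by
  have h3 := kp_eq_of_partI_eq (inv_ne_zero h0) (inv_ne_zero h0') h.b p h1 h2
  rw [kp_inv, kp_inv] at h3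
  omega

lemma Same.kp_c {Ra Rb Rc : Set ℕ} {s s' : K} (h : Same Ra Rb Rc s s') (h0 : 1 + s ≠ 0)
    (h0' : 1 + s' ≠ 0) (p : HeightOneSpectrum (𝓞 K)) (h1 : 0 < kp p (1 + s))
    (h2 : (kp p (1 + s)).toNat ∉ Rc) : kp p (1 + s) = kp p (1 + s') :=
  kp_eq_of_partI_eq h0 h0' h.c p h1 h2

lemma Same.dvd {Ra Rb Rc : Set ℕ} {s s' : K} (h : Same Ra Rb Rc s s') (h0 : s ≠ 0)
    (h0' : s' ≠ 0) {i : ℕ} (hRa : ∀ e ∈ Ra, i ∣ e) (hRb : ∀ e ∈ Rb, i ∣ e)
    (p : HeightOneSpectrum (𝓞 K)) : (i : ℤ) ∣ kp p (s / s') := by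
  rw [kp_div p h0 h0']
  by_cases heq : kp p s = kp p s'
  · rw [heq]; simp
  have hd : ∀ {x x' : K}, Same Ra Rb Rc x x' → x ≠ 0 → x' ≠ 0 → kp p x ≠ kp p x' →
      (i : ℤ) ∣ kp p x := by
    intro x x' hxx hx hx' hne
    rcases lt_trichotomy (kp p x) 0 with h1 | h1 | h1
    · by_cases h2 : (kp p x⁻¹).toNat ∈ Rb
      · have h3 := hRb _ h2
        have h4 : ((kp p x⁻¹).toNat : ℤ) = -kp p x := by
          rw [kp_inv, Int.toNat_of_nonneg (by omega)]
        have h5 : (i : ℤ) ∣ ((kp p x⁻¹).toNat : ℤ) := by exact_mod_cast h3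
        rw [h4] at h5
        exact (dvd_neg).mp h5
      · exact absurd (hxx.kp_b hx hx' p (by rw [kp_inv]; omega) h2) hne
    · rw [h1]; simp
    · by_cases h2 : (kp p x).toNat ∈ Ra
      · have h3 := hRa _ h2
        have h4 : ((kp p x).toNat : ℤ) = kp p x := Int.toNat_of_nonneg (by omega)
        have h5 : (i : ℤ) ∣ ((kp p x).toNat : ℤ) := by exact_mod_cast h3
        rwa [h4] at h5
      · exact absurd (hxx.kp_a hx hx' p h1 h2) hne
  exact dvd_sub (hd h h0 h0' heq) (hd h.symm h0' h0 (Ne.symm heq))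

/-- Two points with the same data, the same Selmer class, the same cell and the same colours
coincide. -/
lemma eq_of_same {i : ℕ} (hi : 1 ≤ i) {Ra Rb Rc : Set ℕ} {Y za zb zc δ : ℝ} {s s' x x' : K}
    (hg : Good Y Ra Rb Rc za zb zc s) (hg' : Good Y Ra Rb Rc za zb zc s')
    (hS : Same Ra Rb Rc s s') (hx : x ≠ 0) (hx' : x' ≠ 0) (hpow : (x / x') ^ i = s / s')
    (hcol : ∀ p : HeightOneSpectrum (𝓞 K), p.asIdeal ∣ partI (1 + s) Rcᶜ →
      col hi p x = col hi p x')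
    (hδ : 0 < δ)
    (harch : ∀ v : InfinitePlace K, v (x / x' - 1) ≤
      8 * δ * (v (1 + s) / max (v s) (max 1 (v (1 + s)))))
    (hY : (Module.finrank ℚ K : ℝ) * (Real.log i + Real.log (8 * δ)) + (za + zb) / i + zc
      < Real.log Y) : s = s' := by
  have hi0 : (0 : ℝ) < i := by exact_mod_cast hi
  by_contra hne
  have hη : x / x' ≠ 1 := by
    intro h
    rw [h, one_pow] at hpow
    rw [eq_comm, div_eq_one_iff_eq hg'.n0] at hpow
    exact hne hpow
  have hkey := key hi hg.n0 hg.n1 hg'.n0 hg'.n1 (div_ne_zero hx hx') hpow hη Ra Rb Rc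
    (fun p h1 h2 => (hS.symm.kp_a hg'.n0 hg.n0 p h1 h2).symm)
    (fun p h1 h2 => hS.kp_b hg.n0 hg'.n0 p h1 h2)
    (fun p h1 h2 => hS.kp_c hg.n1 hg'.n1 p h1 h2)
    (fun p h1 h2 => by
      apply col_spec hi p hx hx'
      · rw [hpow]
        have h3 := hS.kp_c hg.n1 hg'.n1 p h1 h2
        have h4 : av p (1 + s) < 1 := (av_lt_one_iff_kp p hg.n1).mpr h1
        have h5 : av p (1 + s') < 1 := (av_lt_one_iff_kp p hg'.n1).mpr (h3 ▸ h1)
        have h6 : av p (-s') = 1 := av_eq_one_of_near (by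
          rw [show -s' - 1 = -(1 + s') by ring, av_neg]; exact h5)
        rw [av_neg] at h6
        have h7 : s / s' - 1 = ((1 + s) - (1 + s')) * s'⁻¹ := by
          have := hg'.n0
          field_simp
          ring
        rw [h7, av_mul, av_inv, h6, inv_one, mul_one]
        exact (av_sub_le p _ _).trans_lt (max_lt h4 h5)
      · exact hcol p ((dvd_partI_iff hg.n1 _ p).mpr ⟨h1, h2⟩))
    (D := 8 * δ) (by positivity) (fun v => harch v)
  have h1 := hg.lo
  have h2 : (LP s' Ra + LP s⁻¹ Rb) / (i : ℝ) ≤ (za + zb) / i :=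
    div_le_div_of_nonneg_right (add_le_add hg'.za hg.zb) hi0.le
  have h3 := hg.zc
  linarith

variable (K) in
/-- The number of good points with prescribed data. -/
theorem card_fiber_le {i : ℕ} (hi : 1 ≤ i) {Ra Rb Rc : Set ℕ} (hRa : ∀ e ∈ Ra, i ∣ e)
    (hRb : ∀ e ∈ Rb, i ∣ e) {ε : ℝ} (hε : 0 < ε) : ∃ C : ℝ, 1 ≤ C ∧ ∀ Y za zb zc : ℝ, 1 ≤ Y →
    ∀ F : Finset K, (∀ s ∈ F, Good Y Ra Rb Rc za zb zc s) →
      (∀ s ∈ F, ∀ s' ∈ F, Same Ra Rb Rc s s') →
      (F.card : ℝ) ≤ C * Y ^ ε * Real.exp (max 0 ((za + zb) / i + zc - Real.log Y)) := by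
  classical
  obtain ⟨T, hTf, hT0, hT⟩ := selmer_finite K hi
  obtain ⟨C₁, hC₁, hcell⟩ := arch_cells K hi
  obtain ⟨C₂, hC₂, hcol⟩ := exists_prod_ncol_le K hi
  obtain ⟨C₃, hC₃, hdvd⟩ := pow_card_dvd_le (K := K) (half_pos hε) i
  obtain ⟨C₄, hC₄, hlog⟩ := one_add_log_pow_le (half_pos hε) (Fintype.card (InfinitePlace K))
  set d : ℕ := Module.finrank ℚ K with hd
  have hd0 : (0 : ℝ) < d := by exact_mod_cast Module.finrank_pos
  have hiR : (1 : ℝ) ≤ i := by exact_mod_cast hi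
  set C₅ : ℝ := ((hTf.toFinset.card : ℝ) + 1) * (C₁ * C₄ * (16 * i) ^ d) * (C₂ * C₃) * 2 ^ ε
    with hC₅
  have hC₂' : (1 : ℝ) ≤ C₂ := by exact_mod_cast hC₂
  have hp1 : (1 : ℝ) ≤ (16 * (i : ℝ)) ^ d := one_le_pow₀ (by linarith)
  have hp2 : (1 : ℝ) ≤ 2 ^ ε := Real.one_le_rpow (by norm_num) hε.le
  have hp3 : (1 : ℝ) ≤ (hTf.toFinset.card : ℝ) + 1 := by
    have : (0 : ℝ) ≤ (hTf.toFinset.card : ℝ) := Nat.cast_nonneg _
    linarith
  have hC₅1 : 1 ≤ C₅ := by
    rw [hC₅]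
    refine one_le_mul_of_one_le_of_one_le (one_le_mul_of_one_le_of_one_le
      (one_le_mul_of_one_le_of_one_le hp3 ?_) ?_) hp2
    · exact one_le_mul_of_one_le_of_one_le (one_le_mul_of_one_le_of_one_le hC₁ hC₄) hp1
    · exact one_le_mul_of_one_le_of_one_le hC₂' hC₃
  refine ⟨C₅, hC₅1, fun Y za zb zc hY F hF hS => ?_⟩
  have hY0 : 0 < Y := by linarith
  set W : ℝ := max 0 ((za + zb) / i + zc - Real.log Y) with hW
  have hW0 : 0 ≤ W := le_max_left _ _
  rcases F.eq_empty_or_nonempty with hFe | ⟨s0, hs0⟩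
  · rw [hFe]
    simp only [Finset.card_empty, Nat.cast_zero]
    positivity
  set δ : ℝ := Real.exp (-(W / d)) / (16 * i) with hδ
  have hδ0 : 0 < δ := by positivity
  have hδ1 : δ ≤ 1 / 2 := by
    rw [hδ, div_le_iff₀ (by positivity)]
    have : Real.exp (-(W / d)) ≤ 1 := by
      rw [Real.exp_le_one_iff]
      have : 0 ≤ W / d := by positivity
      linarith
    linarith
  have hδinv : δ⁻¹ ^ d = (16 * (i : ℝ)) ^ d * Real.exp W := by
    rw [hδ, inv_div, div_pow, ← Real.exp_nat_mul, mul_neg, mul_div_cancel₀ _ hd0.ne',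
      Real.exp_neg, div_inv_eq_mul]
  obtain ⟨N, cell, hN, hc⟩ := hcell (2 * Y) δ (by linarith) hδ0 hδ1
  have hg0 := hF s0 hs0
  have hex : ∀ s ∈ F, ∃ t ∈ T, ∃ x : K, x ≠ 0 ∧ s / s0 = t * x ^ i := by
    intro s hs
    exact hT _ (div_ne_zero (hF s hs).n0 hg0.n0)
      (fun p => (hS s hs s0 hs0).dvd (hF s hs).n0 hg0.n0 hRa hRb p)
  choose! τ hτ ξ hξ0 hξ using hex
  set P := (finite_dvd (partI_ne_bot hg0.n1 Rcᶜ)).toFinset with hP
  set tgt : Finset (K × Fin N × (∀ p ∈ P, ℕ)) :=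
    hTf.toFinset ×ˢ (Finset.univ ×ˢ P.pi (fun p => Finset.range (ncol hi p))) with htgt
  have hcard : F.card ≤ tgt.card := by
    apply Finset.card_le_card_of_injOn (fun s => (τ s, cell s (ξ s), fun p _ => col hi p (ξ s)))
    · intro s hs
      simp only [htgt, Finset.coe_product, Set.mem_prod, Finset.mem_coe, Set.Finite.mem_toFinset,
        Finset.mem_univ, true_and, Finset.mem_pi, Finset.mem_range]
      exact ⟨hτ s hs, fun p _ => col_lt hi p _⟩
    · intro s hs s' hs' heq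
      simp only [Prod.mk.injEq] at heq
      obtain ⟨h1, h2, h3⟩ := heq
      have hs2 : s ∈ F := hs
      have hs2' : s' ∈ F := hs'
      have hgs := hF s hs2
      have hgs' := hF s' hs2'
      have hpow : (ξ s / ξ s') ^ i = s / s' := by
        have e1 := hξ s hs2
        have e2 := hξ s' hs2'
        have e3 : τ s ≠ 0 := hT0 _ (hτ s hs2)
        have e4 : s / s' = (s / s0) / (s' / s0) := by
          have := hg0.n0
          have := hgs'.n0
          field_simp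
        rw [e4, e1, e2, ← h1, div_pow]
        have := pow_ne_zero i (hξ0 s' hs2')
        field_simp
      have hht : ∀ z ∈ F, mulHeight₁ z ≤ 2 * Y := by
        intro z hz
        have e1 : logHeight₁ z ≤ Real.log (2 * Y) := (logHeight₁_le_hs z).trans (hF z hz).up
        rw [logHeight₁_eq_log_mulHeight₁] at e1
        exact (Real.log_le_log_iff (mulHeight₁_pos z) (by linarith)).mp e1
      refine eq_of_same hi hgs hgs' (hS s hs2 s' hs2') (hξ0 s hs2) (hξ0 s' hs2') hpow ?_ hδ0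
        (hc s s' (ξ s) (ξ s') hgs.n0 hgs.n1 hgs'.n0 hgs'.n1 (hξ0 s hs2) (hξ0 s' hs2')
          (hht s hs2) (hht s' hs2') hpow h2) ?_
      · intro p hp
        have hpP : p ∈ P := by
          rw [hP, Set.Finite.mem_toFinset]
          change p.asIdeal ∣ partI (1 + s0) Rcᶜ
          rw [← (hS s hs2 s0 hs0).c]
          exact hp
        exact congrFun (congrFun h3 p) hpP
      · have e1 : Real.log (8 * δ) = -(W / d) - Real.log 2 - Real.log i := by
          have : 8 * δ = Real.exp (-(W / d)) / (2 * i) := by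
            rw [hδ]
            field_simp
            norm_num
          rw [this, Real.log_div (Real.exp_pos _).ne' (by positivity), Real.log_exp,
            Real.log_mul (by norm_num) (by positivity)]
          ring
        rw [e1]
        have e2 : (d : ℝ) * (Real.log i + (-(W / d) - Real.log 2 - Real.log i)) =
            -W - d * Real.log 2 := by
          field_simp
          ring
        rw [← hd, e2]
        have e3 : (za + zb) / i + zc - Real.log Y ≤ W := le_max_right _ _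
        have e4 : 0 < (d : ℝ) * Real.log 2 := mul_pos hd0 (Real.log_pos (by norm_num))
        linarith
  have hcard2 : tgt.card = hTf.toFinset.card * (N * ∏ p ∈ P, ncol hi p) := by
    rw [htgt, Finset.card_product, Finset.card_product, Finset.card_pi]
    simp
  have h3 : ((∏ p ∈ P, ncol hi p : ℕ) : ℝ) ≤ C₂ * (C₃ * (2 * Y) ^ (ε / 2)) := by
    have e1 : ((∏ p ∈ P, ncol hi p : ℕ) : ℝ) ≤ C₂ * (i : ℝ) ^ P.card := by
      exact_mod_cast hcol P
    have e2 : P.card = {p : HeightOneSpectrum (𝓞 K) | p.asIdeal ∣ partI (1 + s0) Rcᶜ}.ncard := by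
      rw [Set.ncard_eq_toFinset_card _ (finite_dvd (partI_ne_bot hg0.n1 Rcᶜ))]
    have e3 := hdvd (partI (1 + s0) Rcᶜ) (partI_ne_bot hg0.n1 _)
    have e4 : (Ideal.absNorm (partI (1 + s0) Rcᶜ) : ℝ) ≤ 2 * Y :=
      absNorm_partI_le hg0.n1 _ (by linarith) ((LP_side_c hg0.n1 _).trans hg0.up)
    have e5 : (Ideal.absNorm (partI (1 + s0) Rcᶜ) : ℝ) ^ (ε / 2) ≤ (2 * Y) ^ (ε / 2) :=
      Real.rpow_le_rpow (Nat.cast_nonneg _) e4 (by linarith)
    rw [e2] at e1
    refine e1.trans ?_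
    refine mul_le_mul_of_nonneg_left (e3.trans ?_) (by linarith)
    exact mul_le_mul_of_nonneg_left e5 (by linarith)
  have h4 : (N : ℝ) ≤ C₁ * (C₄ * (2 * Y) ^ (ε / 2)) * ((16 * (i : ℝ)) ^ d * Real.exp W) := by
    refine hN.trans ?_
    rw [hδinv]
    refine mul_le_mul_of_nonneg_right ?_ (by positivity)
    refine mul_le_mul_of_nonneg_left ?_ (by linarith)
    refine le_trans ?_ (hlog (2 * Y) (by linarith))
    have : 0 ≤ Real.log (2 * Y) := Real.log_nonneg (by linarith)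
    gcongr
    linarith
  have h5 : (2 * Y) ^ (ε / 2) * (2 * Y) ^ (ε / 2) = 2 ^ ε * Y ^ ε := by
    rw [← Real.rpow_add (by linarith), add_halves, Real.mul_rpow (by norm_num) hY0.le]
  calc (F.card : ℝ) ≤ (tgt.card : ℝ) := by exact_mod_cast hcard
    _ = (hTf.toFinset.card : ℝ) * (N * ((∏ p ∈ P, ncol hi p : ℕ) : ℝ)) := by
        rw [hcard2]; push_cast; ring
    _ ≤ ((hTf.toFinset.card : ℝ) + 1) *
        ((C₁ * (C₄ * (2 * Y) ^ (ε / 2)) * ((16 * (i : ℝ)) ^ d * Real.exp W)) *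
          (C₂ * (C₃ * (2 * Y) ^ (ε / 2)))) := by
        gcongr
        linarith
    _ = C₅ * Y ^ ε * Real.exp W := by
        rw [hC₅]
        linear_combination ((hTf.toFinset.card : ℝ) + 1) * (C₁ * C₄ * (16 * i) ^ d) * (C₂ * C₃) *
          Real.exp W * h5

end BPlus

end Pool.Agent.Work.MP_a793bb_nt
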