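import Pool.Agent.Work.MP_a793bb_nt.NumIdeal

set_option autoImplicit false
set_option linter.unusedSectionVars false

namespace Pool.Agent.Work.MP_a793bb_nt

open NumberField IsDedekindDomain

variable {K : Type*} [Field K] [NumberField K]

namespace BPlus

lemma av_zero (p : HeightOneSpectrum (𝓞 K)) : av p (0 : K) = 0 := map_zero _

lemma av_sub_comm (p : HeightOneSpectrum (𝓞 K)) (x y : K) : av p (x - y) = av p (y - x) := by
  rw [← av_neg, neg_sub]

lemma av_sub_lt {p : HeightOneSpectrum (𝓞 K)} {x y z : K} {r : ℝ} (h1 : av p (x - y) < r)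
    (h2 : av p (y - z) < r) : av p (x - z) < r := by
  have h : x - z = (x - y) + (y - z) := by ring
  rw [h]
  exact lt_of_le_of_lt (av_add_le p _ _) (max_lt h1 h2)

lemma av_le_one_of_int (p : HeightOneSpectrum (𝓞 K)) (a : 𝓞 K) : av p (a : K) ≤ 1 := by
  rw [← av_one p, av_eq, av_eq, NNReal.coe_le_coe]
  apply (WithZeroMulInt.toNNReal_strictMono (HeightOneSpectrum.one_lt_absNorm_nnreal p)).monotone
  rw [map_one]
  exact p.valuation_le_one a

lemma av_lt_one_iff_mem (p : HeightOneSpectrum (𝓞 K)) (a : 𝓞 K) :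
    av p (a : K) < 1 ↔ a ∈ p.asIdeal := by
  rw [av_lt_one_iff]
  exact p.valuation_lt_one_iff_mem a

/-- elements of `K` integral at `p` are approximated by elements of `𝓞 K` -/
lemma exists_int_approx (p : HeightOneSpectrum (𝓞 K)) {x : K} (hx : av p x ≤ 1) {r : ℝ}
    (hr : 0 < r) : ∃ a : 𝓞 K, av p ((a : K) - x) < r := by
  have hv : p.valuation K x ≤ 1 := by
    by_contra hcon
    rw [not_le] at hcon
    have := WithZeroMulInt.toNNReal_strictMono (HeightOneSpectrum.one_lt_absNorm_nnreal p) hcon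
    rw [map_one] at this
    have h2 : (1:ℝ) < av p x := by
      rw [av_eq]; exact_mod_cast this
    linarith
  obtain ⟨n, hn⟩ : ∃ n : ℕ, (Np p)⁻¹ ^ n < r := by
    have h1 := two_le_Np p
    apply exists_pow_lt_of_lt_one hr
    rw [inv_lt_one₀ (by linarith)]
    linarith
  obtain ⟨a, ha⟩ := p.exists_valuation_sub_lt_of_integer hv
    (Units.mk0 (WithZero.exp (-(n:ℤ))) WithZero.exp_ne_zero)
  refine ⟨a, lt_of_le_of_lt ?_ hn⟩
  rw [av_eq]
  have h3 := (WithZeroMulInt.toNNReal_strictMono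
      (HeightOneSpectrum.one_lt_absNorm_nnreal p)).monotone (le_of_lt ha)
  refine le_trans (NNReal.coe_le_coe.mpr h3) ?_
  have h7 : WithZeroMulInt.toNNReal (HeightOneSpectrum.absNorm_ne_zero p)
      (WithZero.exp (-(n:ℤ))) = (Ideal.absNorm p.asIdeal : NNReal) ^ (-(n:ℤ)) := by
    rw [WithZeroMulInt.toNNReal_neg_apply _ (by simp)]
    rfl
  have h8 : ((Units.mk0 (WithZero.exp (-(n:ℤ))) WithZero.exp_ne_zero : (WithZero (Multiplicative ℤ))ˣ) : WithZero (Multiplicative ℤ)) = WithZero.exp (-(n:ℤ)) := rfl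
  rw [h8, h7]
  simp [Np]

/-- `a ^ i - b ^ i` is at most `a - b` for integral `a`, `b`. -/
lemma av_pow_sub_pow_le (p : HeightOneSpectrum (𝓞 K)) {x y : K} (hx : av p x ≤ 1)
    (hy : av p y ≤ 1) (i : ℕ) : av p (x ^ i - y ^ i) ≤ av p (x - y) := by
  induction i with
  | zero => simp [av_zero, av_nonneg]
  | succ n ih =>
    have h : x ^ (n + 1) - y ^ (n + 1) = x ^ n * (x - y) + (x ^ n - y ^ n) * y := by ring
    rw [h]
    refine (av_add_le p _ _).trans (max_le ?_ ?_)
    · rw [av_mul, av_pow]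
      exact mul_le_of_le_one_left (av_nonneg _ _) (pow_le_one₀ (av_nonneg _ _) hx)
    · rw [av_mul]
      exact (mul_le_of_le_one_right (av_nonneg _ _) hy).trans ih

/-- the relation `av p ((x / y) ^ i - 1) < 1` on units -/
def mrel (i : ℕ) (p : HeightOneSpectrum (𝓞 K)) (x y : Kˣ) : Prop :=
  av p (((x : K) / (y : K)) ^ i - 1) < 1

lemma av_eq_one_of_near {p : HeightOneSpectrum (𝓞 K)} {z : K} (h : av p (z - 1) < 1) :
    av p z = 1 := by
  apply le_antisymm
  · have h1 : z = (z - 1) + 1 := by ring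
    rw [h1]
    refine (av_add_le p _ _).trans (max_le h.le ?_)
    rw [av_one]
  · by_contra hcon
    rw [not_le] at hcon
    have h1 : (1 : K) = z + (-(z - 1)) := by ring
    have h2 : av p (1 : K) < 1 := by
      conv_lhs => rw [h1]
      refine lt_of_le_of_lt (av_add_le p _ _) (max_lt hcon ?_)
      rwa [av_neg]
    rw [av_one] at h2
    exact lt_irrefl _ h2

lemma av_eq_one_of_pow_near {i : ℕ} (hi : 1 ≤ i) {p : HeightOneSpectrum (𝓞 K)} {z : K}
    (h : av p (z ^ i - 1) < 1) : av p z = 1 := by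
  have h1 := av_eq_one_of_near h
  rw [av_pow] at h1
  exact (pow_eq_one_iff_of_nonneg (av_nonneg _ _) (by omega)).mp h1

lemma mrel_equiv {i : ℕ} (hi : 1 ≤ i) (p : HeightOneSpectrum (𝓞 K)) :
    Equivalence (mrel (K := K) i p) := by
  refine ⟨fun x => ?_, fun {x y} h => ?_, fun {x y z} h1 h2 => ?_⟩
  · rw [mrel, div_self x.ne_zero, one_pow, sub_self, av_zero]
    exact one_pos
  · rw [mrel] at h ⊢
    have h1 := av_eq_one_of_near h
    have hx : (x : K) ≠ 0 := x.ne_zero
    have hy : (y : K) ≠ 0 := y.ne_zero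
    have h2 : ((y : K) / x) ^ i - 1 = -(((x : K) / y) ^ i - 1) * (((x : K) / y) ^ i)⁻¹ := by
      have h3 : ((x : K) / y) ^ i ≠ 0 := pow_ne_zero _ (div_ne_zero hx hy)
      have h4 : ((y : K) / x) ^ i = (((x : K) / y) ^ i)⁻¹ := by
        rw [← inv_pow, inv_div]
      rw [h4]
      field_simp
      ring
    rw [h2, av_mul, av_neg, av_inv, h1, inv_one, mul_one]
    exact h
  · rw [mrel] at h1 h2 ⊢
    have hy : (y : K) ≠ 0 := y.ne_zero
    have h3 : ((x : K) / z) ^ i - 1 =
        ((x : K) / y) ^ i * (((y : K) / z) ^ i - 1) + (((x : K) / y) ^ i - 1) := by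
      have h4 : ((x : K) / z) ^ i = ((x : K) / y) ^ i * ((y : K) / z) ^ i := by
        rw [← mul_pow]
        congr 1
        field_simp
      rw [h4]; ring
    rw [h3]
    refine lt_of_le_of_lt (av_add_le p _ _) (max_lt ?_ h1)
    rw [av_mul, av_eq_one_of_near h1, one_mul]
    exact h2

lemma color_aux {i : ℕ} (hi : 1 ≤ i) (p : HeightOneSpectrum (𝓞 K)) (J : Ideal (𝓞 K)) {ρ : ℝ}
    (hρ : 0 < ρ) (hρ1 : ρ ≤ 1) (hJ : ∀ a : 𝓞 K, a ∈ J → av p (a : K) < ρ)
    (M : Finset (𝓞 K ⧸ J))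
    (hM : ∀ (a : 𝓞 K) (m : K), av p (m ^ i - 1) < 1 → av p ((a : K) - m) < ρ →
      Ideal.Quotient.mk J a ∈ M) :
    ∃ cl : K → ℕ, (∀ x, cl x < M.card) ∧ ∀ x y : K, x ≠ 0 → y ≠ 0 →
      av p ((x / y) ^ i - 1) < 1 → cl x = cl y → av p (x / y - 1) < ρ := by
  classical
  let S : Setoid Kˣ := ⟨mrel i p, mrel_equiv hi p⟩
  let rep : Kˣ → Kˣ := fun x => (Quotient.mk S x).out
  have hrep : ∀ x : Kˣ, av p (((x : K) / (rep x : K)) ^ i - 1) < 1 := by
    intro x
    have h : S (rep x) x := Quotient.exact (Quotient.out_eq (Quotient.mk S x))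
    exact (mrel_equiv hi p).symm h
  have hrep2 : ∀ x y : Kˣ, av p (((x : K) / (y : K)) ^ i - 1) < 1 → rep x = rep y := by
    intro x y h
    have h2 : Quotient.mk S x = Quotient.mk S y := Quotient.sound h
    simp only [rep, h2]
  have hone : ∀ x : Kˣ, av p ((x : K) / (rep x : K)) = 1 := fun x =>
    av_eq_one_of_pow_near hi (hrep x)
  have hap : ∀ x : Kˣ, ∃ a : 𝓞 K, av p ((a : K) - (x : K) / (rep x : K)) < ρ := fun x =>
    exists_int_approx p (hone x).le hρ
  choose a ha using hap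
  have hmem : ∀ x : Kˣ, Ideal.Quotient.mk J (a x) ∈ M := fun x => hM _ _ (hrep x) (ha x)
  have hpos : 0 < M.card := Finset.card_pos.mpr ⟨_, hmem 1⟩
  refine ⟨fun x => if h : x = 0 then 0 else
    (M.equivFin ⟨Ideal.Quotient.mk J (a (Units.mk0 x h)), hmem _⟩ : ℕ), fun x => ?_, ?_⟩
  · by_cases h : x = 0
    · simp [h, hpos]
    · simp only [h, dif_neg, not_false_eq_true]
      exact Fin.is_lt _
  · intro x y hx hy hxy hcl
    simp only [hx, hy, dif_neg, not_false_eq_true] at hcl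
    have h1 := M.equivFin.injective (Fin.ext hcl)
    have h2 : Ideal.Quotient.mk J (a (Units.mk0 x hx)) = Ideal.Quotient.mk J (a (Units.mk0 y hy)) :=
      congrArg Subtype.val h1
    rw [Ideal.Quotient.mk_eq_mk_iff_sub_mem] at h2
    have h3 := hJ _ h2
    set u := Units.mk0 x hx
    set w := Units.mk0 y hy
    have hr : rep u = rep w := hrep2 u w hxy
    have h4 : av p ((u : K) / (rep u : K) - (w : K) / (rep w : K)) < ρ := by
      have e1 : av p ((u : K) / (rep u : K) - (a u : K)) < ρ := by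
        rw [av_sub_comm]; exact ha u
      have e2 : av p (((a u : 𝓞 K) : K) - (a w : K)) < ρ := by
        have : ((a u : 𝓞 K) : K) - (a w : K) = ((a u - a w : 𝓞 K) : K) := by push_cast; ring
        rw [this]; exact h3
      exact av_sub_lt (av_sub_lt e1 e2) (ha w)
    have hw := hone w
    have hrw : (rep w : K) ≠ 0 := (rep w).ne_zero
    have hyw : (w : K) ≠ 0 := w.ne_zero
    have h5 : x / y - 1 = ((u : K) / (rep u : K) - (w : K) / (rep w : K)) *
        ((w : K) / (rep w : K))⁻¹ := by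
      rw [hr]
      have e3 : (u : K) = x := rfl
      have e4 : (w : K) = y := rfl
      rw [e3, e4] at *
      field_simp
    rw [h5, av_mul, av_inv, hw, inv_one, mul_one]
    exact h4

lemma av_le_of_mem_pow (p : HeightOneSpectrum (𝓞 K)) (k : ℕ) {a : 𝓞 K}
    (ha : a ∈ p.asIdeal ^ k) : av p (a : K) ≤ (Np p)⁻¹ ^ k := by
  have h1 : p.valuation K (a : K) ≤ WithZero.exp (-(k:ℤ)) := by
    have h2 := (p.intValuation_le_pow_iff_mem a k).mpr ha
    have h3 := p.valuation_of_algebraMap (K := K) a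
    change p.valuation K (algebraMap (𝓞 K) K a) ≤ _
    rw [← h3] at h2
    exact h2
  rw [av_eq]
  have h3 := (WithZeroMulInt.toNNReal_strictMono
      (HeightOneSpectrum.one_lt_absNorm_nnreal p)).monotone h1
  refine le_trans (NNReal.coe_le_coe.mpr h3) ?_
  have h7 : WithZeroMulInt.toNNReal (HeightOneSpectrum.absNorm_ne_zero p)
      (WithZero.exp (-(k:ℤ))) = (Ideal.absNorm p.asIdeal : NNReal) ^ (-(k:ℤ)) := by
    rw [WithZeroMulInt.toNNReal_neg_apply _ (by simp)]
    rfl
  rw [h7]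
  simp [Np]

lemma av_natCast_pos {i : ℕ} (hi : 1 ≤ i) (p : HeightOneSpectrum (𝓞 K)) : 0 < av p (i : K) :=
  av_pos p (by exact_mod_cast (by omega : i ≠ 0))

lemma av_natCast_le_one (i : ℕ) (p : HeightOneSpectrum (𝓞 K)) : av p (i : K) ≤ 1 := by
  have := av_le_one_of_int p (i : 𝓞 K)
  simpa using this

lemma exists_color_at {i : ℕ} (hi : 1 ≤ i) (p : HeightOneSpectrum (𝓞 K)) :
    ∃ (n : ℕ) (cl : K → ℕ), (av p (i : K) = 1 → n ≤ i) ∧ (∀ x, cl x < n) ∧
      ∀ x y : K, x ≠ 0 → y ≠ 0 → av p ((x / y) ^ i - 1) < 1 → cl x = cl y →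
        av p (x / y - 1) < av p (i : K) := by
  classical
  by_cases h1 : av p (i : K) = 1
  · haveI := p.isMaximal
    letI : Field (𝓞 K ⧸ p.asIdeal) := Ideal.Quotient.field p.asIdeal
    obtain ⟨cl, hcl1, hcl2⟩ := color_aux hi p p.asIdeal (ρ := 1) one_pos le_rfl
      (fun a ha => (av_lt_one_iff_mem p a).mpr ha)
      (Polynomial.nthRoots i (1 : 𝓞 K ⧸ p.asIdeal)).toFinset (by
        intro a m hm ham
        rw [Multiset.mem_toFinset, Polynomial.mem_nthRoots (by omega)]
        rw [← map_pow, ← map_one (Ideal.Quotient.mk p.asIdeal),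
          Ideal.Quotient.mk_eq_mk_iff_sub_mem, ← av_lt_one_iff_mem]
        have h2 := av_eq_one_of_pow_near hi hm
        have h3 : ((a ^ i - 1 : 𝓞 K) : K) = ((a : K) ^ i - m ^ i) + (m ^ i - 1) := by
          push_cast; ring
        rw [h3]
        refine lt_of_le_of_lt (av_add_le p _ _) (max_lt ?_ hm)
        exact lt_of_le_of_lt (av_pow_sub_pow_le p (av_le_one_of_int p a) h2.le i) ham)
    refine ⟨_, cl, fun _ => ?_, hcl1, ?_⟩
    · exact (Multiset.toFinset_card_le _).trans (Polynomial.card_nthRoots i _)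
    · rw [h1]; exact hcl2
  · obtain ⟨k, hk⟩ : ∃ k : ℕ, (Np p)⁻¹ ^ k < av p (i : K) := by
      have h1 := two_le_Np p
      apply exists_pow_lt_of_lt_one (av_natCast_pos hi p)
      rw [inv_lt_one₀ (by linarith)]
      linarith
    have hne : p.asIdeal ^ k ≠ ⊥ := pow_ne_zero _ p.ne_bot
    haveI : Finite (𝓞 K ⧸ p.asIdeal ^ k) := Ideal.finiteQuotientOfFreeOfNeBot _ hne
    letI := Fintype.ofFinite (𝓞 K ⧸ p.asIdeal ^ k)
    obtain ⟨cl, hcl1, hcl2⟩ := color_aux hi p (p.asIdeal ^ k) (ρ := av p (i : K))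
      (av_natCast_pos hi p) (av_natCast_le_one i p)
      (fun a ha => lt_of_le_of_lt (av_le_of_mem_pow p k ha) hk) Finset.univ
      (fun a m _ _ => Finset.mem_univ _)
    exact ⟨_, cl, fun h => absurd h h1, hcl1, hcl2⟩

/-- number of colors at `p` -/
noncomputable def ncol {i : ℕ} (hi : 1 ≤ i) (p : HeightOneSpectrum (𝓞 K)) : ℕ :=
  (exists_color_at hi p).choose

/-- the coloring at `p` -/
noncomputable def col {i : ℕ} (hi : 1 ≤ i) (p : HeightOneSpectrum (𝓞 K)) : K → ℕ :=
  (exists_color_at hi p).choose_spec.choose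

lemma ncol_le {i : ℕ} (hi : 1 ≤ i) (p : HeightOneSpectrum (𝓞 K)) (h : av p (i : K) = 1) :
    ncol hi p ≤ i := (exists_color_at hi p).choose_spec.choose_spec.1 h

lemma col_lt {i : ℕ} (hi : 1 ≤ i) (p : HeightOneSpectrum (𝓞 K)) (x : K) :
    col hi p x < ncol hi p := (exists_color_at hi p).choose_spec.choose_spec.2.1 x

lemma col_spec {i : ℕ} (hi : 1 ≤ i) (p : HeightOneSpectrum (𝓞 K)) {x y : K} (hx : x ≠ 0)
    (hy : y ≠ 0) (h : av p ((x / y) ^ i - 1) < 1) (hc : col hi p x = col hi p y) :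
    av p (x / y - 1) < av p (i : K) :=
  (exists_color_at hi p).choose_spec.choose_spec.2.2 x y hx hy h hc

lemma one_le_ncol {i : ℕ} (hi : 1 ≤ i) (p : HeightOneSpectrum (𝓞 K)) : 1 ≤ ncol hi p := by
  have := col_lt hi p (0 : K)
  omega

variable (K) in
/-- the product of the numbers of colors over a finite set of primes -/
lemma exists_prod_ncol_le {i : ℕ} (hi : 1 ≤ i) : ∃ C : ℕ, 1 ≤ C ∧
    ∀ S : Finset (HeightOneSpectrum (𝓞 K)), ∏ p ∈ S, ncol hi p ≤ C * i ^ S.card := by
  classical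
  have hi0 : (i : K) ≠ 0 := by exact_mod_cast (by omega : i ≠ 0)
  set P := (finite_av_ne_one (K := K) hi0).toFinset with hP
  refine ⟨∏ p ∈ P, ncol hi p, Finset.one_le_prod' fun p _ => one_le_ncol hi p, fun S => ?_⟩
  rw [← Finset.prod_inter_mul_prod_diff S P (fun p => ncol hi p)]
  refine Nat.mul_le_mul ?_ ?_
  · exact Finset.prod_le_prod_of_subset_of_one_le' Finset.inter_subset_right
      fun p _ _ => one_le_ncol hi p
  · refine (Finset.prod_le_pow_card _ _ i fun p hp => ?_).trans ?_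
    · apply ncol_le
      by_contra hcon
      rw [Finset.mem_sdiff] at hp
      apply hp.2
      rw [hP, Set.Finite.mem_toFinset]
      exact hcon
    · exact Nat.pow_le_pow_right hi (Finset.card_le_card Finset.sdiff_subset)

/-- if `η` is `i`-adically close to `1`, then `η - 1` is controlled by `η ^ i - 1` -/
lemma av_sub_one_eq {i : ℕ} (hi : 1 ≤ i) (p : HeightOneSpectrum (𝓞 K)) {η : K}
    (h : av p (η - 1) < av p (i : K)) : av p (η ^ i - 1) = av p (η - 1) * av p (i : K) := by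
  obtain ⟨m, rfl⟩ : ∃ m, i = m + 1 := ⟨i - 1, by omega⟩
  have hle : av p (η - 1) ≤ 1 := h.le.trans (av_natCast_le_one _ _)
  have hη : av p η ≤ 1 := by
    have h1 : η = (η - 1) + 1 := by ring
    rw [h1]
    refine (av_add_le p _ _).trans (max_le hle ?_)
    rw [av_one]
  -- geometric sum
  have hgeom : η ^ (m + 1) - 1 = (∑ j ∈ Finset.range (m + 1), η ^ j) * (η - 1) :=
    (geom_sum_mul η (m + 1)).symm
  have hdiff : av p ((∑ j ∈ Finset.range (m + 1), η ^ j) - ((m + 1 : ℕ) : K)) ≤ av p (η - 1) := by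
    have h2 : (∑ j ∈ Finset.range (m + 1), η ^ j) - ((m + 1 : ℕ) : K) =
        ∑ j ∈ Finset.range (m + 1), (η ^ j - 1) := by
      rw [Finset.sum_sub_distrib]
      simp
    rw [h2]
    induction (m + 1) with
    | zero => simp [av_zero, av_nonneg]
    | succ n ih =>
      rw [Finset.sum_range_succ]
      refine (av_add_le p _ _).trans (max_le ih ?_)
      have h3 := av_pow_sub_pow_le p hη (le_of_eq (av_one p)) n
      rwa [one_pow] at h3
  have hsum : av p (∑ j ∈ Finset.range (m + 1), η ^ j) = av p ((m + 1 : ℕ) : K) := by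
    set s := ∑ j ∈ Finset.range (m + 1), η ^ j with hs
    set n : K := ((m + 1 : ℕ) : K) with hn
    apply le_antisymm
    · have h4 : s = (s - n) + n := by ring
      rw [h4]
      exact (av_add_le p _ _).trans (max_le (hdiff.trans h.le) le_rfl)
    · by_contra hcon
      rw [not_le] at hcon
      have h5 : n = s + (-(s - n)) := by ring
      have h6 : av p n < av p n := by
        conv_lhs => rw [h5]
        refine lt_of_le_of_lt (av_add_le p _ _) (max_lt hcon ?_)
        rw [av_neg]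
        exact lt_of_le_of_lt hdiff h
      exact lt_irrefl _ h6
  rw [hgeom, av_mul, hsum, mul_comm]

end BPlus

end Pool.Agent.Work.MP_a793bb_nt
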