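import Mathlib

set_option autoImplicit false

/-!
Polynomials over `ℚ` whose only critical values are `0` and `1` and that map a given finite set of
algebraic numbers into `{0, 1}`.
-/

namespace Pool.Agent.Work.MP_a793bb_nt.H6

open Polynomial

/-- the minimal polynomial of the image under `U` of a root of `q` -/
noncomputable def push (q U : ℚ[X]) : ℚ[X] := minpoly ℚ (AdjoinRoot.mk q U)

lemma push_dvd_iff (q U p : ℚ[X]) : q ∣ p.comp U ↔ push q U ∣ p := by
  rw [push, minpoly.dvd_iff, ← AdjoinRoot.mk_eq_zero]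
  have : AdjoinRoot.mk q (p.comp U) = aeval (AdjoinRoot.mk q U) p := by
    have h := aeval_algHom_apply (AdjoinRoot.mkₐ q) U p
    rw [AdjoinRoot.coe_mkₐ] at h
    rw [h]
    rfl
  rw [this]

lemma dvd_push_comp (q U : ℚ[X]) : q ∣ (push q U).comp U := (push_dvd_iff q U _).mpr dvd_rfl

lemma push_irreducible {q : ℚ[X]} (hq : Irreducible q) (U : ℚ[X]) : Irreducible (push q U) := by
  have : Fact (Irreducible q) := ⟨hq⟩
  have hfin : Module.Finite ℚ (AdjoinRoot q) := (AdjoinRoot.powerBasis hq.ne_zero).finite
  exact minpoly.irreducible (Algebra.IsIntegral.isIntegral _)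

lemma natDegree_push_le {q : ℚ[X]} (hq : Irreducible q) (U : ℚ[X]) :
    (push q U).natDegree ≤ q.natDegree := by
  have : Fact (Irreducible q) := ⟨hq⟩
  have hfin : Module.Finite ℚ (AdjoinRoot q) := (AdjoinRoot.powerBasis hq.ne_zero).finite
  have h1 : Module.finrank ℚ (AdjoinRoot q) = q.natDegree := by
    rw [(AdjoinRoot.powerBasis hq.ne_zero).finrank, AdjoinRoot.powerBasis_dim]
  rw [← h1]
  exact minpoly.natDegree_le _

/-- existence of the polynomial for the roots of the elements of `s` -/
def Bel (s : Finset ℚ[X]) : Prop :=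
  ∃ f : ℚ[X], 1 ≤ f.natDegree ∧ (∀ q ∈ s, q ∣ f * (f - 1)) ∧
    ∀ q : ℚ[X], Irreducible q → q ∣ derivative f → q ∣ f * (f - 1)

lemma Bel_comp {s s' : Finset ℚ[X]} (U : ℚ[X]) (hU : 1 ≤ U.natDegree)
    (h1 : ∀ q ∈ s, ∃ q' ∈ s', q ∣ q'.comp U)
    (h2 : ∀ q, Irreducible q → q ∣ derivative U → ∃ q' ∈ s', q ∣ q'.comp U)
    (H : Bel s') : Bel s := by
  obtain ⟨f, hf, hf1, hf2⟩ := H
  have hcomp : ∀ p, p ∣ f * (f - 1) → p.comp U ∣ (f.comp U) * (f.comp U - 1) := by
    rintro p ⟨w, hw⟩
    refine ⟨w.comp U, ?_⟩
    rw [← mul_comp, ← hw, mul_comp, sub_comp, one_comp]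
  refine ⟨f.comp U, ?_, ?_, ?_⟩
  · rw [natDegree_comp]
    exact Nat.mul_pos hf hU
  · intro q hq
    obtain ⟨q', hq', hqq⟩ := h1 q hq
    exact hqq.trans (hcomp q' (hf1 q' hq'))
  · intro q hq hqd
    rw [derivative_comp] at hqd
    rcases hq.prime.dvd_or_dvd hqd with h | h
    · obtain ⟨q', hq', hqq⟩ := h2 q hq h
      exact hqq.trans (hcomp q' (hf1 q' hq'))
    · rw [push_dvd_iff] at h
      exact (dvd_push_comp q U).trans (hcomp _ (hf2 _ (push_irreducible hq U) h))

lemma Bel_mono {s s' : Finset ℚ[X]} (h : ∀ q ∈ s, ∃ q' ∈ s', q ∣ q') (H : Bel s') : Bel s := by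
  obtain ⟨f, hf, hf1, hf2⟩ := H
  refine ⟨f, hf, fun q hq => ?_, hf2⟩
  obtain ⟨q', hq', hqq⟩ := h q hq
  exact hqq.trans (hf1 q' hq')

/-- Reduction of the degrees. -/
theorem Bel_degree (H1 : ∀ s : Finset ℚ[X], (∀ q ∈ s, Irreducible q ∧ q.natDegree ≤ 1) → Bel s)
    (d : ℕ) : ∀ s : Finset ℚ[X], (∀ q ∈ s, Irreducible q ∧ q.natDegree ≤ d + 1) → Bel s := by
  classical
  induction d with
  | zero => exact H1
  | succ d ih =>
    suffices h : ∀ n : ℕ, ∀ s : Finset ℚ[X], (∀ q ∈ s, Irreducible q ∧ q.natDegree ≤ d + 1 + 1) →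
        (s.filter (fun q => q.natDegree = d + 2)).card ≤ n → Bel s from
      fun s hs => h _ s hs le_rfl
    intro n
    induction n with
    | zero =>
      intro s hs hcard
      apply ih
      intro q hq
      refine ⟨(hs q hq).1, ?_⟩
      have h1 := (hs q hq).2
      by_contra hcon
      have h2 : q ∈ s.filter (fun q => q.natDegree = d + 2) :=
        Finset.mem_filter.mpr ⟨hq, by omega⟩
      rw [Nat.le_zero, Finset.card_eq_zero] at hcard
      rw [hcard] at h2
      simp at h2
    | succ n ihn =>
      intro s hs hcard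
      by_cases hempty : s.filter (fun q => q.natDegree = d + 2) = ∅
      · exact ihn s hs (by rw [hempty]; simp)
      obtain ⟨m, hm⟩ := Finset.nonempty_iff_ne_empty.mpr hempty
      obtain ⟨hms, hmd⟩ := Finset.mem_filter.mp hm
      have hm' : (derivative m).natDegree = d + 1 := by
        rw [natDegree_derivative]; omega
      have hm'0 : derivative m ≠ 0 := by
        intro h0; rw [h0] at hm'; simp at hm'
      set s' : Finset ℚ[X] := s.image (fun q => push q m) ∪
        (UniqueFactorizationMonoid.normalizedFactors (derivative m)).toFinset.image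
          (fun q => push q m) with hs'
      have hmem : ∀ p ∈ s', ∃ q, Irreducible q ∧ p = push q m ∧
          (q ∈ s ∨ q.natDegree ≤ d + 1) := by
        intro p hp
        rw [hs', Finset.mem_union, Finset.mem_image, Finset.mem_image] at hp
        rcases hp with ⟨q, hq, rfl⟩ | ⟨q, hq, rfl⟩
        · exact ⟨q, (hs q hq).1, rfl, Or.inl hq⟩
        · rw [Multiset.mem_toFinset] at hq
          refine ⟨q, UniqueFactorizationMonoid.irreducible_of_normalized_factor q hq, rfl,
            Or.inr ?_⟩
          rw [← hm']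
          exact natDegree_le_of_dvd (UniqueFactorizationMonoid.dvd_of_mem_normalizedFactors hq) hm'0
      refine Bel_comp (s' := s') m (by omega) ?_ ?_ (ihn s' ?_ ?_)
      · intro q hq
        exact ⟨push q m, by
          rw [hs']
          exact Finset.mem_union_left _ (Finset.mem_image_of_mem _ hq), dvd_push_comp q m⟩
      · intro q hq hqd
        obtain ⟨q₁, hq₁, hass⟩ :=
          UniqueFactorizationMonoid.exists_mem_normalizedFactors_of_dvd hm'0 hq hqd
        refine ⟨push q₁ m, ?_, hass.dvd.trans (dvd_push_comp q₁ m)⟩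
        rw [hs']
        exact Finset.mem_union_right _ (Finset.mem_image_of_mem _ (Multiset.mem_toFinset.mpr hq₁))
      · intro p hp
        obtain ⟨q, hq, rfl, hor⟩ := hmem p hp
        refine ⟨push_irreducible hq m, ?_⟩
        have h1 := natDegree_push_le hq m
        rcases hor with h | h
        · have := (hs q h).2; omega
        · omega
      · have hsub : s'.filter (fun q => q.natDegree = d + 2) ⊆
            ((s.filter (fun q => q.natDegree = d + 2)).erase m).image (fun q => push q m) := by
          intro p hp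
          obtain ⟨hp1, hp2⟩ := Finset.mem_filter.mp hp
          obtain ⟨q, hq, rfl, hor⟩ := hmem p hp1
          have h1 := natDegree_push_le hq m
          rcases hor with h | h
          · refine Finset.mem_image_of_mem _ (Finset.mem_erase.mpr ⟨?_, Finset.mem_filter.mpr
              ⟨h, ?_⟩⟩)
            · rintro rfl
              have h3 : push q q ∣ X := by
                rw [← push_dvd_iff]; simp
              have h4 := natDegree_le_of_dvd h3 X_ne_zero
              rw [natDegree_X] at h4
              omega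
            · have := (hs q h).2; omega
          · omega
        refine (Finset.card_le_card hsub).trans (Finset.card_image_le.trans ?_)
        rw [Finset.card_erase_of_mem hm]
        omega

/-- two rational points -/
lemma Bel_pair (a b : ℚ) (hab : a ≠ b) : Bel {X - C a, X - C b} := by
  classical
  have hba : b - a ≠ 0 := sub_ne_zero.mpr hab.symm
  have hinv : (b - a)⁻¹ ≠ 0 := inv_ne_zero hba
  set f : ℚ[X] := C (b - a)⁻¹ * (X - C a) with hf
  have hf1 : f - 1 = C (b - a)⁻¹ * (X - C b) := by
    have e : (C (b - a)⁻¹ : ℚ[X]) * C (b - a) = 1 := by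
      rw [← C_mul, inv_mul_cancel₀ hba, C_1]
    rw [hf]
    rw [C_sub] at e
    linear_combination e
  have hdeg : f.natDegree = 1 := by
    rw [hf, natDegree_C_mul hinv, natDegree_X_sub_C]
  refine ⟨f, by rw [hdeg], ?_, ?_⟩
  · intro q hq
    rw [Finset.mem_insert, Finset.mem_singleton] at hq
    rcases hq with rfl | rfl
    · exact (Dvd.intro_left _ rfl : X - C a ∣ f).trans (Dvd.intro _ rfl)
    · exact (by rw [hf1]; exact Dvd.intro_left _ rfl : X - C b ∣ f - 1).trans
        (Dvd.intro_left _ rfl)
  · intro q hq hqd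
    exfalso
    apply hq.not_isUnit
    refine isUnit_of_dvd_unit hqd ?_
    rw [hf, derivative_C_mul, derivative_sub, derivative_X, derivative_C, sub_zero, mul_one]
    exact isUnit_C.mpr (IsUnit.mk0 _ hinv)

/-- the basic reduction map for rational points -/
lemma Bel_rational (n : ℕ) : ∀ A : Finset ℚ, A.card ≤ n + 2 →
    Bel (A.image (fun a => (X - C a : ℚ[X]))) := by
  classical
  induction n with
  | zero =>
    intro A hA
    obtain ⟨a, b, hab, hsub⟩ : ∃ a b : ℚ, a ≠ b ∧ A ⊆ {a, b} := by
      rcases Nat.lt_or_ge A.card 2 with h | h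
      · rcases Nat.lt_or_ge A.card 1 with h1 | h1
        · have : A = ∅ := Finset.card_eq_zero.mp (by omega)
          exact ⟨0, 1, by norm_num, by rw [this]; simp⟩
        · obtain ⟨a, rfl⟩ := Finset.card_eq_one.mp (by omega : A.card = 1)
          exact ⟨a, a + 1, by simp, by simp⟩
      · obtain ⟨a, b, hab, rfl⟩ := Finset.card_eq_two.mp (by omega : A.card = 2)
        exact ⟨a, b, hab, subset_rfl⟩
    refine Bel_mono ?_ (Bel_pair a b hab)
    intro q hq
    obtain ⟨c, hc, rfl⟩ := Finset.mem_image.mp hq
    have := hsub hc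
    rw [Finset.mem_insert, Finset.mem_singleton] at this
    rcases this with rfl | rfl
    · exact ⟨_, by simp, dvd_rfl⟩
    · exact ⟨_, by simp, dvd_rfl⟩
  | succ n ih =>
    intro A hA
    by_cases hcard : A.card ≤ n + 2
    · exact ih A hcard
    have hne : A.Nonempty := Finset.card_pos.mp (by omega)
    set a := A.min' hne with ha
    set b := A.max' hne with hb
    have haA : a ∈ A := Finset.min'_mem _ _
    have hbA : b ∈ A := Finset.max'_mem _ _
    obtain ⟨l, hlA, hla, hlb⟩ : ∃ l ∈ A, l ≠ a ∧ l ≠ b := by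
      by_contra hcon
      push Not at hcon
      have : A ⊆ {a, b} := by
        intro c hc
        rw [Finset.mem_insert, Finset.mem_singleton]
        by_cases h : c = a
        · exact Or.inl h
        · exact Or.inr (hcon c hc h)
      have h2 := Finset.card_le_card this
      have h3 : ({a, b} : Finset ℚ).card ≤ 2 := Finset.card_le_two
      omega
    have hal : a < l := lt_of_le_of_ne (Finset.min'_le _ _ hlA) hla.symm
    have hlb' : l < b := lt_of_le_of_ne (Finset.le_max' _ _ hlA) hlb
    -- the exponents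
    obtain ⟨r, s, hr, hs, hrs⟩ : ∃ r s : ℕ, 1 ≤ r ∧ 1 ≤ s ∧
        (r : ℚ) * (b - l) = s * (l - a) := by
      have hx : 0 < (l - a) / (b - l) := div_pos (sub_pos.mpr hal) (sub_pos.mpr hlb')
      set x := (l - a) / (b - l) with hxdef
      refine ⟨x.num.toNat, x.den, ?_, x.den_pos, ?_⟩
      · have := Rat.num_pos.mpr hx
        omega
      · have h1 : ((x.num.toNat : ℕ) : ℚ) = x.num := by
          have := Rat.num_pos.mpr hx
          have h2 : ((x.num.toNat : ℕ) : ℤ) = x.num := Int.toNat_of_nonneg this.le
          exact_mod_cast h2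
        rw [h1]
        have h3 : x * x.den = x.num := Rat.mul_den_eq_num x
        have h4 : x * (b - l) = l - a := by
          rw [hxdef]; field_simp [(sub_pos.mpr hlb').ne']
        rw [← h3, ← h4]; ring
    have hvl : (l - a) ^ r * (b - l) ^ s ≠ 0 :=
      mul_ne_zero (pow_ne_zero _ (sub_pos.mpr hal).ne') (pow_ne_zero _ (sub_pos.mpr hlb').ne')
    set c : ℚ := ((l - a) ^ r * (b - l) ^ s)⁻¹ with hc
    have hc0 : c ≠ 0 := inv_ne_zero hvl
    set U : ℚ[X] := C c * ((X - C a) ^ r * (C b - X) ^ s) with hU
    have hUa : U.eval a = 0 := by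
      rw [hU]; simp; right; left; omega
    have hUb : U.eval b = 0 := by
      rw [hU]; simp; right; right; omega
    have hUl : U.eval l = 1 := by
      rw [hU]; simp only [eval_mul, eval_C, eval_pow, eval_sub, eval_X]
      rw [hc, inv_mul_cancel₀ hvl]
    have hUdeg : U.natDegree = r + s := by
      have e1 : (C b - X : ℚ[X]) = -(X - C b) := by ring
      rw [hU, natDegree_C_mul hc0, natDegree_mul (pow_ne_zero _ (X_sub_C_ne_zero a)), natDegree_pow,
        natDegree_X_sub_C, natDegree_pow, e1, natDegree_neg, natDegree_X_sub_C]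
      · ring
      · rw [e1]; exact pow_ne_zero _ (neg_ne_zero.mpr (X_sub_C_ne_zero b))
    -- the derivative
    obtain ⟨r', rfl⟩ : ∃ r', r = r' + 1 := ⟨r - 1, by omega⟩
    obtain ⟨s', rfl⟩ : ∃ s', s = s' + 1 := ⟨s - 1, by omega⟩
    have hder : derivative U = C (c * (r' + 1 + (s' + 1))) *
        ((X - C a) ^ r' * ((C b - X) ^ s' * (C l - X))) := by
      have e0 : (C ((r' : ℚ) + 1) : ℚ[X]) * (C b - C l) = C ((s' : ℚ) + 1) * (C l - C a) := by
        rw [← C_sub, ← C_sub, ← C_mul, ← C_mul]
        congr 1
        push_cast at hrs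
        exact hrs
      rw [hU, derivative_C_mul, derivative_mul, derivative_pow_succ, derivative_pow_succ]
      simp only [derivative_sub, derivative_X, derivative_C, sub_zero, mul_one, zero_sub]
      simp only [C_mul, C_add, C_1, map_natCast] at e0 ⊢
      linear_combination (C c * (X - C a) ^ r' * (C b - X) ^ s') * e0
    -- the new points
    set A' : Finset ℚ := A.image (fun x => U.eval x) with hA'
    have hcard' : A'.card ≤ n + 2 := by
      have h1 : A' = (A.erase a).image (fun x => U.eval x) := by
        rw [hA']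
        apply Finset.Subset.antisymm
        · intro y hy
          obtain ⟨x, hx, rfl⟩ := Finset.mem_image.mp hy
          by_cases hxa : x = a
          · refine Finset.mem_image.mpr ⟨b, Finset.mem_erase.mpr ⟨?_, hbA⟩, ?_⟩
            · exact (hal.trans hlb').ne'
            · simp only [hxa, hUa, hUb]
          · exact Finset.mem_image_of_mem _ (Finset.mem_erase.mpr ⟨hxa, hx⟩)
        · exact Finset.image_subset_image (Finset.erase_subset _ _)
      rw [h1]
      refine Finset.card_image_le.trans ?_
      rw [Finset.card_erase_of_mem haA]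
      omega
    have hpt : ∀ x ∈ A, ∃ q' ∈ A'.image (fun a => (X - C a : ℚ[X])), X - C x ∣ q'.comp U := by
      intro x hx
      refine ⟨X - C (U.eval x), Finset.mem_image_of_mem _ (Finset.mem_image_of_mem _ hx), ?_⟩
      rw [sub_comp, X_comp, C_comp]
      exact X_sub_C_dvd_sub_C_eval
    refine Bel_comp U (by omega) ?_ ?_ (ih A' hcard')
    · intro q hq
      obtain ⟨x, hx, rfl⟩ := Finset.mem_image.mp hq
      exact hpt x hx
    · intro q hq hqd
      rw [hder] at hqd
      have hlin : ∀ x ∈ A, q ∣ X - C x →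
          ∃ q' ∈ A'.image (fun a => (X - C a : ℚ[X])), q ∣ q'.comp U := by
        intro x hx hqx
        obtain ⟨q', hq', h⟩ := hpt x hx
        exact ⟨q', hq', hqx.trans h⟩
      have hneg : ∀ x : ℚ, q ∣ C x - X → q ∣ X - C x := by
        intro x h
        rw [← dvd_neg, neg_sub]; exact h
      rcases hq.prime.dvd_or_dvd hqd with h | h
      · exfalso
        apply hq.not_isUnit
        refine isUnit_of_dvd_unit h (isUnit_C.mpr (IsUnit.mk0 _ (mul_ne_zero hc0 ?_)))
        positivity
      · rcases hq.prime.dvd_or_dvd h with h | h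
        · exact hlin a haA (hq.prime.dvd_of_dvd_pow h)
        · rcases hq.prime.dvd_or_dvd h with h | h
          · exact hlin b hbA (hneg b (hq.prime.dvd_of_dvd_pow h))
          · exact hlin l hlA (hneg l h)

/-- **Belyi's theorem** for polynomials over `ℚ`. -/
theorem exists_belyi (s : Finset ℚ[X]) (hs : ∀ q ∈ s, Irreducible q) : Bel s := by
  classical
  have H1 : ∀ s : Finset ℚ[X], (∀ q ∈ s, Irreducible q ∧ q.natDegree ≤ 1) → Bel s := by
    intro s hs
    have hroot : ∀ q ∈ s, ∃ x : ℚ, q ∣ X - C x := by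
      intro q hq
      obtain ⟨h1, h2⟩ := hs q hq
      have h3 : q.natDegree = 1 := le_antisymm h2 h1.natDegree_pos
      have h4 : q.degree = 1 := by
        rw [degree_eq_natDegree h1.ne_zero, h3]; rfl
      obtain ⟨x, hx⟩ := exists_root_of_degree_eq_one h4
      refine ⟨x, ?_⟩
      obtain ⟨w, hw⟩ := dvd_iff_isRoot.mpr hx
      have h5 : IsUnit w := by
        have := h1.isUnit_or_isUnit hw
        rcases this with h | h
        · exact absurd h (not_isUnit_X_sub_C x)
        · exact h
      obtain ⟨u, rfl⟩ := h5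
      rw [hw]
      exact (Units.mul_right_dvd).mpr dvd_rfl
    choose! g hg using hroot
    refine Bel_mono ?_ (Bel_rational (s.image g).card (s.image g) (by omega))
    intro q hq
    exact ⟨X - C (g q), Finset.mem_image_of_mem _ (Finset.mem_image_of_mem _ hq), hg q hq⟩
  obtain ⟨d, hd⟩ : ∃ d, ∀ q ∈ s, q.natDegree ≤ d + 1 :=
    ⟨s.sup natDegree, fun q hq => (Finset.le_sup (f := natDegree) hq).trans (Nat.le_succ _)⟩
  exact Bel_degree H1 d s fun q hq => ⟨hs q hq, hd q hq⟩

end Pool.Agent.Work.MP_a793bb_nt.H6
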