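import Pool.Agent.Work.MP_a793bb_nt.H6FormIneq

set_option autoImplicit false
set_option linter.unusedSectionVars false
set_option linter.unusedSimpArgs false
set_option linter.unusedVariables false

/-!
Explicit covers of the projective line minus `∞, ± sqrt (1/m)`, `m` an odd integer.
-/

namespace Pool.Agent.Work.MP_a793bb_nt.H6

open NumberField IsDedekindDomain Height Polynomial

variable {K : Type*} [Field K] [NumberField K]

lemma sq_dvd_of_double_root {P : K[X]} {a : K} (hP : P ≠ 0) (h0 : P.eval a = 0)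
    (h1 : P.derivative.eval a = 0) : (X - C a) ^ 2 ∣ P := by
  rw [← le_rootMultiplicity_iff hP]
  exact (one_lt_rootMultiplicity_iff_isRoot hP).mpr ⟨h0, h1⟩

/-- The common shape of the two families of covers. -/
lemma FI_cover_aux (E : K) (hE : E ≠ 0) (c N : ℕ) (hc : 1 ≤ c) (P U V Rh : K[X]) (v : K)
    (hP0 : P.eval 0 ≠ 0) (hPE : P.eval E = 0) (hPE' : P.derivative.eval E = 0)
    (hPdeg : 2 * P.natDegree ≤ N) (hU : U.natDegree = N) (hN : 2 ≤ N)
    (hVdeg : V.natDegree ≤ N) (hv : v ≠ 0)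
    (hV : V = C v * (X * (1 - X ^ 2) ^ c)) (hUV : IsCoprime U V)
    (hRhP : Rh = (P.comp (X ^ 2)) ^ 2)
    (hRh : ∀ x, V.eval x ≠ 0 → Rh.eval x =
      (V.eval x) ^ 2 * (X ^ 2 - C E : K[X]).eval (U.eval x / V.eval x))
    (H : FI (X ^ 2 - C E : K[X]) 1) : FI (X * (X - 1) : K[X]) 1 := by
  have hPne : P ≠ 0 := by rintro rfl; simp at hP0
  obtain ⟨Q, hQ⟩ := sq_dvd_of_double_root hPne hPE hPE'
  have hQ0 : Q ≠ 0 := by rintro rfl; simp at hQ; exact hPne hQ
  have hPdeg2 : P.natDegree = 2 + Q.natDegree := by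
    rw [hQ, natDegree_mul (pow_ne_zero _ (X_sub_C_ne_zero E)) hQ0, natDegree_pow,
      natDegree_X_sub_C]
  set G : K[X] := (X + 1) * (X ^ 2 - C E) * Q.comp (X ^ 2) with hG
  have hX1 : (X + 1 : K[X]) ≠ 0 := by
    have := X_add_C_ne_zero (1 : K); simpa using this
  have hXE : (X ^ 2 - C E : K[X]) ≠ 0 := X_pow_sub_C_ne_zero (by norm_num) E
  have hQc : Q.comp (X ^ 2) ≠ 0 := by
    intro h0
    have h1 := congrArg natDegree h0
    rw [comp_eq_zero_iff] at h0
    rcases h0 with h0 | ⟨_, h0⟩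
    · exact hQ0 h0
    · have := congrArg natDegree h0
      simp at this
  have hG0 : G ≠ 0 := mul_ne_zero (mul_ne_zero hX1 hXE) hQc
  have hGdeg : 1 + G.natDegree ≤ 1 * N := by
    have h1 : G.natDegree ≤ 1 + 2 + Q.natDegree * 2 := by
      rw [hG]
      refine natDegree_mul_le.trans (add_le_add (natDegree_mul_le.trans (add_le_add ?_ ?_)) ?_)
      · compute_degree
      · compute_degree
      · rw [natDegree_comp]; simp
    omega
  have hPc : P.comp (X ^ 2) = (X ^ 2 - C E) ^ 2 * Q.comp (X ^ 2) := by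
    rw [hQ]; simp
  refine FI_pullback (X ^ 2 - C E) (X * (X - 1)) G U V Rh 2 (c + 4) N 1 1 hUV hU (by omega)
    hVdeg ?_ hRh ?_ ?_ hG0 hGdeg H
  · rw [hV]
    refine mul_ne_zero (C_ne_zero.mpr hv) (mul_ne_zero X_ne_zero (pow_ne_zero _ ?_))
    intro h0
    have := congrArg (Polynomial.eval 0) h0
    simp at this
  · have hVd : V ∣ (X * (X - 1) * G) ^ c := by
      have h1 : X * (1 - X ^ 2 : K[X]) ^ c ∣ (X * (1 - X ^ 2)) ^ c := by
        rw [mul_pow]
        exact mul_dvd_mul (dvd_pow_self X (by omega)) dvd_rfl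
      have h2 : X * (1 - X ^ 2 : K[X]) ∣ X * (X - 1) * G := by
        refine ⟨-((X ^ 2 - C E) * Q.comp (X ^ 2)), ?_⟩
        rw [hG]; ring
      have h3 : V ∣ X * (1 - X ^ 2 : K[X]) ^ c := by
        rw [hV]
        refine ⟨C v⁻¹, ?_⟩
        have : (C v : K[X]) * C v⁻¹ = 1 := by rw [← C_mul, mul_inv_cancel₀ hv, C_1]
        linear_combination (-(X * (1 - X ^ 2 : K[X]) ^ c)) * this
      exact h3.trans (h1.trans (pow_dvd_pow_of_dvd h2 c))
    have hRd : Rh ∣ (X * (X - 1) * G) ^ 4 := by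
      rw [hRhP, hPc]
      refine ⟨((X * (X - 1)) * (X + 1)) ^ 4 * Q.comp (X ^ 2) ^ 2, ?_⟩
      rw [hG]; ring
    rw [pow_add]
    exact mul_dvd_mul hVd hRd
  · refine mul_ne_zero X_ne_zero ?_
    have := X_sub_C_ne_zero (1 : K); simpa using this

lemma one_sub_sq_natDegree : (1 - X ^ 2 : K[X]).natDegree = 2 := by
  have : (1 - X ^ 2 : K[X]) = -(X ^ 2 - C 1) := by simp
  rw [this, natDegree_neg, natDegree_X_pow_sub_C]

lemma one_sub_sq_ne_zero : (1 - X ^ 2 : K[X]) ≠ 0 := by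
  intro h0
  have := congrArg (Polynomial.eval 0) h0
  simp at this

/-- the case `m = 2 c + 1`, `c ≥ 1` -/
lemma FI_cover_pos (c : ℕ) (hc : 1 ≤ c)
    (H : FI (X ^ 2 - C ((2 * c + 1 : ℕ) : K)⁻¹ : K[X]) 1) : FI (X * (X - 1) : K[X]) 1 := by
  set M : K := ((2 * c + 1 : ℕ) : K) with hM
  have hM0 : M ≠ 0 := by rw [hM]; exact_mod_cast (by omega : 2 * c + 1 ≠ 0)
  have hM1 : M - 1 ≠ 0 := by
    rw [hM]; push_cast
    have : (c : K) ≠ 0 := by exact_mod_cast (by omega : c ≠ 0)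
    simpa using this
  have hMc : M = 2 * c + 1 := by rw [hM]; push_cast; ring
  set w : K := M / (M - 1) with hw
  have hw0 : w ≠ 0 := div_ne_zero hM0 hM1
  set G0 : K[X] := C (w ^ c) * (X * (1 - X ^ 2) ^ c) with hG0
  have hwE : w * (1 - M⁻¹) = 1 := by rw [hw]; field_simp
  have hcw : (C (w ^ c) : K[X]) ≠ 0 := C_ne_zero.mpr (pow_ne_zero _ hw0)
  have hG0deg : G0.natDegree = 2 * c + 1 := by
    rw [hG0, natDegree_C_mul (pow_ne_zero _ hw0), natDegree_mul X_ne_zero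
      (pow_ne_zero _ one_sub_sq_ne_zero), natDegree_pow, one_sub_sq_natDegree, natDegree_X]
    ring
  refine FI_cover_aux M⁻¹ (inv_ne_zero hM0) c (4 * c + 2) hc
    (C (w ^ (2 * c)) * X * (1 - X) ^ (2 * c) - C M⁻¹) (G0 ^ 2 + C M⁻¹) (C 2 * G0)
    ((G0 ^ 2 - C M⁻¹) ^ 2) (2 * w ^ c) ?_ ?_ ?_ ?_ ?_ (by omega) ?_ ?_ ?_ ?_ ?_ ?_ H
  · simpa using hM0
  · simp only [eval_sub, eval_mul, eval_C, eval_X, eval_pow, eval_one]
    have : (w ^ (2 * c)) * M⁻¹ * (1 - M⁻¹) ^ (2 * c) = (w * (1 - M⁻¹)) ^ (2 * c) * M⁻¹ := by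
      rw [mul_pow]; ring
    rw [this, hwE]; simp
  · obtain ⟨j, rfl⟩ : ∃ j, c = j + 1 := ⟨c - 1, by omega⟩
    have h2 : 2 * (j + 1) = (2 * j + 1) + 1 := by ring
    simp only [derivative_sub, derivative_mul, derivative_C, derivative_X, derivative_pow,
      derivative_one, eval_add, eval_sub, eval_mul, eval_C, eval_X, eval_pow, eval_one,
      eval_zero, eval_neg, zero_mul, zero_add, mul_one, zero_sub, sub_zero]
    rw [h2]
    simp only [Nat.add_sub_cancel]
    have h3 : ((2 * j + 1 + 1 : ℕ) : K) = M - 1 := by rw [hMc]; push_cast; ring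
    rw [h3]
    have h4 : (1 - M⁻¹) - M⁻¹ * (M - 1) = 0 := by field_simp; ring
    rw [pow_succ (1 - M⁻¹)]
    linear_combination (w ^ (2 * j + 1 + 1) * (1 - M⁻¹) ^ (2 * j + 1)) * h4
  · have : (C (w ^ (2 * c)) * X * (1 - X) ^ (2 * c) - C M⁻¹ : K[X]).natDegree ≤ 2 * c + 1 := by
      refine (natDegree_sub_le _ _).trans (max_le ?_ (by simp))
      refine natDegree_mul_le.trans ?_
      have h1 : (C (w ^ (2 * c)) * X : K[X]).natDegree ≤ 1 := natDegree_C_mul_le _ _ |>.trans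
        natDegree_X_le
      have h2 : ((1 - X : K[X]) ^ (2 * c)).natDegree ≤ 2 * c := by
        refine natDegree_pow_le.trans ?_
        have : (1 - X : K[X]).natDegree ≤ 1 := by compute_degree
        nlinarith
      omega
    omega
  · rw [natDegree_add_C, natDegree_pow, hG0deg]; ring
  · rw [natDegree_C_mul (by norm_num), hG0deg]; omega
  · exact mul_ne_zero (by norm_num) (pow_ne_zero _ hw0)
  · rw [hG0, C_mul]; ring
  · refine ⟨C M, C (-M / 2) * G0, ?_⟩
    have e1 : (C M : K[X]) * C M⁻¹ = 1 := by rw [← C_mul, mul_inv_cancel₀ hM0, C_1]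
    have e2 : (C (-M / 2) : K[X]) * C 2 = - C M := by
      rw [← C_mul, ← C_neg]; congr 1; ring
    linear_combination e1 + G0 ^ 2 * e2
  · congr 1
    rw [hG0]
    simp only [sub_comp, mul_comp, C_comp, X_comp, pow_comp, one_comp]
    rw [pow_mul' w, pow_mul' (1 - X ^ 2 : K[X])]
    simp only [C_pow]
    ring
  · intro x hx
    simp only [eval_mul, eval_C, eval_pow, eval_sub, eval_add, eval_X] at hx ⊢
    set g := eval x G0
    have hg : g ≠ 0 := by rintro h; rw [h] at hx; simp at hx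
    field_simp
    ring

/-- the case `m = 1 - 2 c`, `c ≥ 1` -/
lemma FI_cover_neg (c : ℕ) (hc : 1 ≤ c)
    (H : FI (X ^ 2 - C (1 - 2 * (c : K))⁻¹ : K[X]) 1) : FI (X * (X - 1) : K[X]) 1 := by
  set M : K := 1 - 2 * (c : K) with hM
  have hM0 : M ≠ 0 := by
    intro h
    have h1 : ((2 * c : ℕ) : K) = ((1 : ℕ) : K) := by push_cast; rw [hM] at h; linear_combination -h
    have := Nat.cast_injective h1
    omega
  have hM1 : M - 1 ≠ 0 := by
    rw [hM]
    have : (c : K) ≠ 0 := by exact_mod_cast (by omega : c ≠ 0)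
    simpa using this
  set w : K := 1 - M⁻¹ with hw
  have hw0 : w ≠ 0 := by
    rw [hw]
    intro h
    apply hM1
    have h2 : M * (1 - M⁻¹) = 0 := by rw [h, mul_zero]
    rw [mul_sub, mul_inv_cancel₀ hM0, mul_one] at h2
    exact h2
  set X1 : K[X] := C (w ^ c) * X with hX1
  set Y1 : K[X] := (1 - X ^ 2) ^ c with hY1
  have hY0 : Y1 ≠ 0 := pow_ne_zero _ one_sub_sq_ne_zero
  have hY1deg : Y1.natDegree = 2 * c := by
    rw [hY1, natDegree_pow, one_sub_sq_natDegree]; ring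
  have hX1deg : X1.natDegree = 1 := by
    rw [hX1, natDegree_C_mul (pow_ne_zero _ hw0), natDegree_X]
  have hEne : (C M⁻¹ : K[X]) ≠ 0 := C_ne_zero.mpr (inv_ne_zero hM0)
  have hUdeg : (X1 ^ 2 + C M⁻¹ * Y1 ^ 2).natDegree = 4 * c := by
    rw [natDegree_add_eq_right_of_natDegree_lt]
    · rw [natDegree_C_mul (inv_ne_zero hM0), natDegree_pow, hY1deg]; ring
    · rw [natDegree_C_mul (inv_ne_zero hM0), natDegree_pow, natDegree_pow, hY1deg, hX1deg]; omega
  have hcopXY : IsCoprime X1 Y1 := by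
    rw [hX1, hY1]
    have h1 : IsCoprime (C (w ^ c) * X : K[X]) (1 - X ^ 2) := by
      refine ⟨C (w ^ c)⁻¹ * X, 1, ?_⟩
      have : (C (w ^ c)⁻¹ : K[X]) * C (w ^ c) = 1 := by
        rw [← C_mul, inv_mul_cancel₀ (pow_ne_zero _ hw0), C_1]
      linear_combination X ^ 2 * this
    exact h1.pow_right
  refine FI_cover_aux M⁻¹ (inv_ne_zero hM0) c (4 * c) hc
    (C (w ^ (2 * c)) * X - C M⁻¹ * (1 - X) ^ (2 * c)) (X1 ^ 2 + C M⁻¹ * Y1 ^ 2) (C 2 * (X1 * Y1))
    ((X1 ^ 2 - C M⁻¹ * Y1 ^ 2) ^ 2) (2 * w ^ c) ?_ ?_ ?_ ?_ hUdeg (by omega) ?_ ?_ ?_ ?_ ?_ ?_ H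
  · simpa using hM0
  · simp only [eval_sub, eval_mul, eval_C, eval_X, eval_pow, eval_one]
    rw [← hw]; ring
  · obtain ⟨j, rfl⟩ : ∃ j, c = j + 1 := ⟨c - 1, by omega⟩
    have h2 : 2 * (j + 1) = (2 * j + 1) + 1 := by ring
    simp only [derivative_sub, derivative_mul, derivative_C, derivative_X, derivative_pow,
      derivative_one, eval_add, eval_sub, eval_mul, eval_C, eval_X, eval_pow, eval_one,
      eval_zero, eval_neg, zero_mul, zero_add, mul_one, zero_sub, sub_zero]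
    rw [h2]
    simp only [Nat.add_sub_cancel]
    have h3 : ((2 * j + 1 + 1 : ℕ) : K) = 1 - M := by rw [hM]; push_cast; ring
    rw [h3, ← hw]
    have h4 : w + M⁻¹ * (1 - M) = 0 := by rw [hw]; field_simp; ring
    rw [pow_succ w]
    linear_combination (w ^ (2 * j + 1)) * h4
  · have : (C (w ^ (2 * c)) * X - C M⁻¹ * (1 - X) ^ (2 * c) : K[X]).natDegree ≤ 2 * c := by
      refine (natDegree_sub_le _ _).trans (max_le ?_ ?_)
      · have h1 : (C (w ^ (2 * c)) * X : K[X]).natDegree ≤ 1 := natDegree_C_mul_le _ _ |>.trans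
          natDegree_X_le
        omega
      · refine (natDegree_C_mul_le _ _).trans ?_
        refine natDegree_pow_le.trans ?_
        have : (1 - X : K[X]).natDegree ≤ 1 := by compute_degree
        nlinarith
    omega
  · rw [natDegree_C_mul (by norm_num), natDegree_mul (mul_ne_zero
      (C_ne_zero.mpr (pow_ne_zero _ hw0)) X_ne_zero) hY0, hX1deg, hY1deg]
    omega
  · exact mul_ne_zero (by norm_num) (pow_ne_zero _ hw0)
  · rw [hX1, hY1, C_mul]; ring
  · have h1 : IsCoprime (X1 ^ 2 + C M⁻¹ * Y1 ^ 2) X1 := by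
      have : IsCoprime (C M⁻¹ * Y1 ^ 2) X1 := by
        refine IsCoprime.mul_left ⟨C M, 0, ?_⟩ hcopXY.symm.pow_left
        rw [zero_mul, add_zero, ← C_mul, mul_inv_cancel₀ hM0, C_1]
      have h2 := this.add_mul_left_left X1
      have e : C M⁻¹ * Y1 ^ 2 + X1 * X1 = X1 ^ 2 + C M⁻¹ * Y1 ^ 2 := by ring
      rwa [e] at h2
    have h2 : IsCoprime (X1 ^ 2 + C M⁻¹ * Y1 ^ 2) Y1 := by
      have : IsCoprime (X1 ^ 2) Y1 := hcopXY.pow_left
      have h2 := this.add_mul_left_left (C M⁻¹ * Y1)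
      have e : X1 ^ 2 + Y1 * (C M⁻¹ * Y1) = X1 ^ 2 + C M⁻¹ * Y1 ^ 2 := by ring
      rwa [e] at h2
    have h3 : IsCoprime (X1 ^ 2 + C M⁻¹ * Y1 ^ 2) (C 2 : K[X]) := by
      refine ⟨0, C (1/2), ?_⟩
      rw [zero_mul, zero_add, ← C_mul]
      norm_num
    exact h3.mul_right (h1.mul_right h2)
  · congr 1
    rw [hX1, hY1]
    simp only [sub_comp, mul_comp, C_comp, X_comp, pow_comp, one_comp]
    rw [pow_mul' w, pow_mul' (1 - X ^ 2 : K[X])]
    simp only [C_pow]
    ring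
  · intro x hx
    simp only [eval_mul, eval_C, eval_pow, eval_sub, eval_add, eval_X] at hx ⊢
    set g := eval x X1
    set y := eval x Y1
    have hg : g ≠ 0 := by rintro h; rw [h] at hx; simp at hx
    have hy : y ≠ 0 := by rintro h; rw [h] at hx; simp at hx
    field_simp
    ring

/-- the case `m = 1` -/
lemma FI_cover_one (H : FI (X ^ 2 - C (1 : K) : K[X]) 1) : FI (X * (X - 1) : K[X]) 1 := by
  refine FI_pullback (X ^ 2 - C 1) (X * (X - 1)) (C 4) (C 2 * X - 1) 1 (X * (X - 1) * C 4) 0 1 1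
    1 1 isCoprime_one_right ?_ le_rfl (by simp) one_ne_zero ?_ (by simp) ?_ ?_ (by simp) H
  · have : (C 2 * X - 1 : K[X]) = C 2 * X - C 1 := by simp
    rw [this, natDegree_sub_C, natDegree_C_mul_X _ (by norm_num)]
  · intro x _
    simp
    ring
  · refine mul_ne_zero X_ne_zero ?_
    have := X_sub_C_ne_zero (1 : K); simpa using this
  · simp

/-- All odd integers. -/
theorem FI_cover (m : ℤ) (hm : Odd m) (H : FI (X ^ 2 - C ((m : K)⁻¹) : K[X]) 1) :
    FI (X * (X - 1) : K[X]) 1 := by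
  obtain ⟨j, hj⟩ := hm
  rcases lt_trichotomy j 0 with h | h | h
  · obtain ⟨c, hc⟩ : ∃ c : ℕ, j = -c := ⟨j.natAbs, by omega⟩
    have hc1 : 1 ≤ c := by omega
    refine FI_cover_neg c hc1 ?_
    have e : (m : K) = 1 - 2 * (c : K) := by rw [hj, hc]; push_cast; ring
    rwa [e] at H
  · have e : (m : K) = 1 := by rw [hj, h]; simp
    rw [e, inv_one] at H
    exact FI_cover_one H
  · obtain ⟨c, hc⟩ : ∃ c : ℕ, j = c := ⟨j.natAbs, by omega⟩
    have hc1 : 1 ≤ c := by omega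
    refine FI_cover_pos c hc1 ?_
    have e : (m : K) = ((2 * c + 1 : ℕ) : K) := by rw [hj, hc]; push_cast; ring
    rwa [e] at H

end Pool.Agent.Work.MP_a793bb_nt.H6
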