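import Pool.Agent.Work.MP_a793bb_nt.H6Covers

set_option autoImplicit false
set_option linter.unusedSectionVars false

/-!
abc for the values of an extremal polynomial identity implies abc.
-/

namespace Pool.Agent.Work.MP_a793bb_nt.H6

open NumberField IsDedekindDomain Height Polynomial UniqueFactorizationMonoid

variable {K : Type*} [Field K] [NumberField K]

lemma natDegree_max_two {A B D : K[X]} (hsum : A + B + D = 0) {n : ℕ}
    (hmax : max (max A.natDegree B.natDegree) D.natDegree = n) :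
    max A.natDegree D.natDegree = n := by
  have hB : B = -(A + D) := by linear_combination hsum
  have h1 : B.natDegree ≤ max A.natDegree D.natDegree := by
    rw [hB, natDegree_neg]; exact natDegree_add_le _ _
  rw [← hmax]
  apply le_antisymm
  · exact max_le (le_max_of_le_left (le_max_left _ _)) (le_max_right _ _)
  · exact max_le (max_le (le_max_left _ _) h1) (le_max_right _ _)

/-- A nonconstant coprime identity has nonzero terms. -/
lemma ne_zero_of_coprime {A B D : K[X]} (hsum : A + B + D = 0) (hcop : IsCoprime A B) {n : ℕ}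
    (hn : 1 ≤ n) (hmax : max (max A.natDegree B.natDegree) D.natDegree = n) :
    A * B * D ≠ 0 := by
  intro h0
  rcases mul_eq_zero.mp h0 with h0 | h0
  · rcases mul_eq_zero.mp h0 with h0 | h0
    · rw [h0] at hcop hsum hmax
      have hu : IsUnit B := isCoprime_zero_left.mp hcop
      have hB := natDegree_eq_zero_of_isUnit hu
      have hD : D = -B := by linear_combination hsum
      rw [hD, natDegree_neg, hB] at hmax
      simp at hmax; omega
    · rw [h0] at hcop hsum hmax
      have hu : IsUnit A := isCoprime_zero_right.mp hcop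
      have hA := natDegree_eq_zero_of_isUnit hu
      have hD : D = -A := by linear_combination hsum
      rw [hD, natDegree_neg, hA] at hmax
      simp at hmax; omega
  · have hB : B = -A := by linear_combination hsum - h0
    rw [hB] at hcop
    have hu : IsUnit A := isCoprime_self.mp (by simpa using hcop.neg_right)
    have hA := natDegree_eq_zero_of_isUnit hu
    rw [hB, h0, natDegree_neg, hA] at hmax
    simp at hmax; omega

open scoped Classical in
lemma natDegree_radical_le (f : K[X]) (hf : f ≠ 0) :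
    (radical f).natDegree ≤ (f.rootSet (AlgebraicClosure K)).ncard := by
  have hsep : (radical f).Separable :=
    PerfectField.separable_iff_squarefree.mpr squarefree_radical
  have h1 := card_rootSet_eq_natDegree (K := AlgebraicClosure K) hsep
    (IsAlgClosed.splits _)
  have h2 : (radical f).rootSet (AlgebraicClosure K) ⊆ f.rootSet (AlgebraicClosure K) := by
    intro z hz
    rw [mem_rootSet] at hz ⊢
    refine ⟨hf, ?_⟩
    obtain ⟨g, hg⟩ := radical_dvd_self (a := f)
    rw [hg, map_mul, hz.2, zero_mul]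
  rw [← h1, ← Nat.card_eq_fintype_card, Nat.card_coe_set_eq]
  exact Set.ncard_le_ncard h2 (rootSet_finite _ _)

/-- Step 1: from the values of the identity to the truncated inequality for `A B D`. -/
theorem FI_of_values (A B D : K[X]) (hsum : A + B + D = 0) (hcop : IsCoprime A B) (n : ℕ)
    (hn : 1 ≤ n) (hmax : max (max A.natDegree B.natDegree) D.natDegree = n)
    (T : Set K) (H : AffABC K {x | ∃ t ∈ T, D.eval t ≠ 0 ∧ x = -A.eval t / D.eval t}) :
    FIOn T (A * B * D) n := by
  have hABD : A * B * D ≠ 0 := ne_zero_of_coprime hsum hcop hn hmax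
  have hA0 : A ≠ 0 := by rintro rfl; simp at hABD
  have hD0 : D ≠ 0 := by rintro rfl; simp at hABD
  have hcopAD : IsCoprime A D := by
    have hD : D = A * (-1) + -B := by linear_combination hsum
    rw [hD]
    have : IsCoprime A (-B) := hcop.neg_right
    simpa [add_comm] using this.add_mul_left_right (-1)
  have hmax2 := natDegree_max_two hsum hmax
  obtain ⟨C1, hC1⟩ := ratHeight_ge A D hcopAD n hmax2 ⟨hA0, hD0⟩
  let Bad : Set (HeightOneSpectrum (𝓞 K)) :=
    {p | ¬ IntAt p A} ∪ {p | ¬ IntAt p B} ∪ {p | ¬ IntAt p D}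
  have hBad : Bad.Finite :=
    ((finite_not_IntAt A).union (finite_not_IntAt B)).union (finite_not_IntAt D)
  intro ε hε
  obtain ⟨C5, hC5⟩ := H ε hε
  refine ⟨(1 + ε) * Rs Bad + C5 + C1, fun t htT ht => ?_⟩
  have ht' := ht
  simp only [eval_mul, ne_eq, mul_eq_zero, not_or] at ht'
  obtain ⟨⟨hA, hB⟩, hD⟩ := ht'
  have hevsum : A.eval t + B.eval t + D.eval t = 0 := by
    have := congrArg (Polynomial.eval t) hsum
    simpa using this
  have hx0 : -A.eval t / D.eval t ≠ 0 := affine_ne_zero hA hD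
  have hx1 : -A.eval t / D.eval t ≠ 1 := affine_ne_one hB hD hevsum
  have e5 := hC5 (-A.eval t / D.eval t) ⟨t, htT, hD, rfl⟩ hx0 hx1
  rw [← badPrimes_affine hD hevsum] at e5
  have e1 := hC1 t
  have e1' : logHeight₁ (A.eval t / D.eval t) = logHeight₁ (-A.eval t / D.eval t) := by
    rw [neg_div, logHeight₁_neg]
  rw [e1'] at e1
  have hsub : badPrimes (A.eval t) (B.eval t) (D.eval t) ⊆ IR (A * B * D) t ∪ Bad := by
    intro p hp
    by_contra hcon
    simp only [Set.mem_union, not_or] at hcon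
    obtain ⟨hp1, hp3⟩ := hcon
    simp only [Bad, Set.mem_union, Set.mem_ofPred_eq, not_or, not_not] at hp3
    obtain ⟨⟨iA, iB⟩, iD⟩ := hp3
    simp only [IR, Set.mem_ofPred_eq, not_or, not_lt, eval_mul, av_mul] at hp1
    obtain ⟨ht1, hprod⟩ := hp1
    have hA1 := iA.eval ht1
    have hB1 := iB.eval ht1
    have hD1 := iD.eval ht1
    have nA := av_nonneg p (A.eval t)
    have nB := av_nonneg p (B.eval t)
    have nD := av_nonneg p (D.eval t)
    have k1 : av p (A.eval t) * av p (B.eval t) * av p (D.eval t) ≤ av p (A.eval t) := by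
      have := mul_le_one₀ hB1 nD hD1
      calc _ = av p (A.eval t) * (av p (B.eval t) * av p (D.eval t)) := by ring
        _ ≤ av p (A.eval t) * 1 := by gcongr
        _ = _ := mul_one _
    have k2 : av p (A.eval t) * av p (B.eval t) * av p (D.eval t) ≤ av p (B.eval t) := by
      have := mul_le_one₀ hA1 nD hD1
      calc _ = av p (B.eval t) * (av p (A.eval t) * av p (D.eval t)) := by ring
        _ ≤ av p (B.eval t) * 1 := by gcongr
        _ = _ := mul_one _
    have k3 : av p (A.eval t) * av p (B.eval t) * av p (D.eval t) ≤ av p (D.eval t) := by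
      have := mul_le_one₀ hA1 nB hB1
      calc _ = av p (D.eval t) * (av p (A.eval t) * av p (B.eval t)) := by ring
        _ ≤ av p (D.eval t) * 1 := by gcongr
        _ = _ := mul_one _
    rw [mem_badPrimes_iff] at hp
    apply hp
    constructor <;> linarith
  have f1 := finite_IR ht
  have e6 : Rs (badPrimes (A.eval t) (B.eval t) (D.eval t)) ≤ Rs (IR (A * B * D) t) + Rs Bad :=
    (Rs_mono (f1.union hBad) hsub).trans (Rs_union_le f1 hBad)
  have e7 : (1 + ε) * Rs (badPrimes (A.eval t) (B.eval t) (D.eval t)) ≤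
      (1 + ε) * (Rs (IR (A * B * D) t) + Rs Bad) := by gcongr
  linarith

/-- Step 2: isolate a quadratic factor. -/
theorem FI_quadratic (F : K[X]) (n : ℕ) (hn : 1 ≤ n) (hF : F ≠ 0)
    (hroots : (F.rootSet (AlgebraicClosure K)).ncard ≤ n + 1) (M α β : K) (hM : M ≠ 0)
    (hβ : β ≠ 0) (hq : (X - C α) ^ 2 - C (M * β ^ 2) ∣ F) (H : FI F n) :
    FI (X ^ 2 - C M⁻¹ : K[X]) 1 := by
  classical
  set q : K[X] := (X - C α) ^ 2 - C (M * β ^ 2) with hqdef
  have hMβ : M * β ^ 2 ≠ 0 := mul_ne_zero hM (pow_ne_zero _ hβ)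
  -- q is squarefree
  have hqsep : q.Separable := by
    refine ⟨C (-(M * β ^ 2)⁻¹), C ((2 * (M * β ^ 2))⁻¹) * (X - C α), ?_⟩
    have hd : derivative q = C 2 * (X - C α) := by
      rw [hqdef]
      simp only [derivative_sub, derivative_C, derivative_pow, derivative_X]
      simp
    rw [hd, hqdef]
    have e1 : (C (-(M * β ^ 2)⁻¹) : K[X]) * C (M * β ^ 2) = -1 := by
      rw [← C_mul, neg_mul, inv_mul_cancel₀ hMβ, C_neg, C_1]
    have e2 : (C ((2 * (M * β ^ 2))⁻¹) : K[X]) * C 2 = C ((M * β ^ 2)⁻¹) := by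
      rw [← C_mul]; congr 1; field_simp
    have e3 : (C (-(M * β ^ 2)⁻¹) : K[X]) = -C ((M * β ^ 2)⁻¹) := by rw [C_neg]
    have e4 : C (-(M * β ^ 2)⁻¹) * ((X - C α) ^ 2 - C (M * β ^ 2)) +
        C ((2 * (M * β ^ 2))⁻¹) * (X - C α) * (C 2 * (X - C α)) =
        (C (-(M * β ^ 2)⁻¹) + C ((2 * (M * β ^ 2))⁻¹) * C 2) * (X - C α) ^ 2 -
        C (-(M * β ^ 2)⁻¹) * C (M * β ^ 2) := by ring
    rw [e4, e1, e2, e3]
    ring
  have hq0 : q ≠ 0 := hqsep.ne_zero
  have hqdeg : q.natDegree = 2 := by
    have e : q = X ^ 2 + (-(C (2 * α)) * X + C (α ^ 2 - M * β ^ 2)) := by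
      rw [hqdef]
      simp only [C_sub, C_mul, C_pow]
      have : (C 2 : K[X]) = 2 := rfl
      rw [this]; ring
    rw [e]
    compute_degree!
  have hqR : q ∣ radical F :=
    (dvd_radical_iff hqsep.squarefree.isRadical hF).mpr hq
  obtain ⟨G, hG⟩ := hqR
  have hR0 : radical F ≠ 0 := radical_ne_zero
  have hG0 : G ≠ 0 := by rintro rfl; simp at hG
  have hGdeg : G.natDegree ≤ n - 1 := by
    have h1 := (natDegree_radical_le F hF).trans hroots
    rw [hG, natDegree_mul hq0 hG0, hqdeg] at h1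
    omega
  obtain ⟨k, W, hW⟩ := exists_dvd_radical_self_pow hF
  rw [hG] at hW
  set U : K[X] := C (M * β) * X + C α with hU
  have hMβ1 : M * β ≠ 0 := mul_ne_zero hM hβ
  have hUdeg : U.natDegree = 1 := by
    rw [hU, natDegree_add_C, natDegree_C_mul_X _ hMβ1]
  have hqU : q.comp U = (X ^ 2 - C M⁻¹) * C (M ^ 2 * β ^ 2) := by
    rw [hqdef, hU]
    simp only [sub_comp, pow_comp, X_comp, C_comp, add_sub_cancel_right]
    have e1 : (C M⁻¹ : K[X]) * C (M ^ 2 * β ^ 2) = C (M * β ^ 2) := by
      rw [← C_mul]; congr 1; field_simp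
    have e2 : (C (M * β) * X : K[X]) ^ 2 = X ^ 2 * C (M ^ 2 * β ^ 2) := by
      rw [mul_pow, ← C_pow, mul_pow]; ring
    rw [e2, sub_mul, e1]
  have hcompne : ∀ f : K[X], f ≠ 0 → f.comp U ≠ 0 := by
    intro f hf h0
    rw [comp_eq_zero_iff] at h0
    rcases h0 with h0 | ⟨_, h0⟩
    · exact hf h0
    · rw [h0] at hUdeg; simp at hUdeg
  have hconst : (C (M ^ 2 * β ^ 2) : K[X]) ≠ 0 :=
    C_ne_zero.mpr (mul_ne_zero (pow_ne_zero _ hM) (pow_ne_zero _ hβ))
  refine FI_pullback F (X ^ 2 - C M⁻¹) (C (M ^ 2 * β ^ 2) * G.comp U) U 1 (F.comp U) 0 k 1 n 1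
    isCoprime_one_right hUdeg le_rfl (by simp) one_ne_zero ?_ ?_ ?_ ?_ ?_ H
  · intro x _
    simp [eval_comp]
  · refine ⟨W.comp U, ?_⟩
    rw [one_mul, ← mul_comp, ← hW, pow_comp, mul_comp, hqU]
    ring
  · exact X_pow_sub_C_ne_zero (by norm_num) _
  · exact mul_ne_zero hconst (hcompne G hG0)
  · have : (C (M ^ 2 * β ^ 2) * G.comp U).natDegree ≤ n - 1 := by
      refine (natDegree_C_mul_le _ _).trans ?_
      rw [natDegree_comp, hUdeg, mul_one]
      exact hGdeg
    omega

/-- Affine form of the main theorem. -/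
theorem aff_main (A B D : K[X]) (hsum : A + B + D = 0) (hcop : IsCoprime A B) (n : ℕ)
    (hn : 1 ≤ n) (hmax : max (max A.natDegree B.natDegree) D.natDegree = n)
    (hroots : ((A * B * D).rootSet (AlgebraicClosure K)).ncard ≤ n + 1)
    (m : ℤ) (hm : Odd m) (α β : K) (hβ : β ≠ 0)
    (hq : (X - C α) ^ 2 - C ((m : K) * β ^ 2) ∣ A * B * D)
    (H : AffABC K {x | ∃ t ∈ (Set.univ : Set K), D.eval t ≠ 0 ∧ x = -A.eval t / D.eval t}) :
    AffABC K Set.univ := by
  have hm0 : (m : K) ≠ 0 := by
    have : m ≠ 0 := by rintro rfl; simp at hm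
    exact_mod_cast this
  exact FIOn_to_AffABC (FI_cover m hm (FI_quadratic (A * B * D) n hn
    (ne_zero_of_coprime hsum hcop hn hmax) hroots m α β hm0 hβ hq
    (FI_of_values A B D hsum hcop n hn hmax Set.univ H)))

end Pool.Agent.Work.MP_a793bb_nt.H6
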