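import Pool.Agent.Work.MP_a793bb_nt.H6Pullback

set_option autoImplicit false
set_option linter.unusedSectionVars false

/-!
Truncated inequalities for the values of a polynomial and their behaviour under rational maps.
-/

namespace Pool.Agent.Work.MP_a793bb_nt.H6

open NumberField IsDedekindDomain Height Polynomial

variable {K : Type*} [Field K] [NumberField K]

/-- the primes at which `t` is not integral or `R t` is not a unit (in the direction of being
divisible) -/
def IR (R : K[X]) (t : K) : Set (HeightOneSpectrum (𝓞 K)) :=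
  {p | 1 < av p t ∨ av p (R.eval t) < 1}

lemma finite_IR {R : K[X]} {t : K} (h : R.eval t ≠ 0) : (IR R t).Finite := by
  by_cases ht : t = 0
  · refine (finite_av_ne_one h).subset ?_
    rintro p (hp | hp)
    · rw [ht, av_zero] at hp; linarith
    · exact ne_of_lt hp
  · refine ((finite_av_ne_one ht).union (finite_av_ne_one h)).subset ?_
    rintro p (hp | hp)
    · left; exact ne_of_gt hp
    · right; exact ne_of_lt hp

/-- The truncated inequality `σ h(t) ≤ (1 + ε) rad + C` for the polynomial `R` and `∞`, for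
parameters in the set `T`. -/
def FIOn (T : Set K) (R : K[X]) (σ : ℕ) : Prop :=
  ∀ ε : ℝ, 0 < ε → ∃ C : ℝ, ∀ t ∈ T, R.eval t ≠ 0 →
    σ * logHeight₁ t ≤ (1 + ε) * Rs (IR R t) + C

/-- The truncated inequality for all parameters. -/
abbrev FI (R : K[X]) (σ : ℕ) : Prop := FIOn Set.univ R σ

lemma IR_eq_Ip (t : K) : IR (X * (X - 1) : K[X]) t = Ip t := by
  ext p
  rw [mem_Ip]
  simp only [IR, Set.mem_ofPred_eq, eval_mul, eval_X, eval_sub, eval_one, av_mul]
  have h1 : av p (t - 1) = av p (1 - t) := by rw [← av_neg, neg_sub]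
  rw [h1]
  have n1 := av_nonneg p t
  have n2 := av_nonneg p (1 - t)
  constructor
  · rintro (h | h) ⟨h2, h3⟩
    · linarith
    · rw [h2, h3] at h; norm_num at h
  · intro h
    by_contra hcon
    push Not at hcon
    obtain ⟨h2, h3⟩ := hcon
    apply h
    have h4 : av p (1 - t) ≤ 1 := by
      have := av_add_le p 1 (-t)
      rw [av_neg, av_one] at this
      rw [sub_eq_add_neg]
      exact this.trans (max_le le_rfl h2)
    constructor
    · nlinarith
    · nlinarith

lemma FIOn_to_AffABC {T : Set K} (h : FIOn T (X * (X - 1) : K[X]) 1) : AffABC K T := by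
  intro ε hε
  obtain ⟨C, hC⟩ := h ε hε
  refine ⟨C, fun x hxT h0 h1 => ?_⟩
  have := hC x hxT (by simp [h0, sub_ne_zero, h1])
  rw [IR_eq_Ip] at this
  simpa using this

/-- Pull back along a rational map `U / V` sending `∞` to `∞`. -/
theorem FIOn_pullback (T : Set K) (R S G U V Rh : K[X]) (e k N σ τ : ℕ) (hUV : IsCoprime U V)
    (hU : U.natDegree = N) (hN : 1 ≤ N) (hV : V.natDegree ≤ N) (hV0 : V ≠ 0)
    (hRh : ∀ x, V.eval x ≠ 0 → Rh.eval x = (V.eval x) ^ e * R.eval (U.eval x / V.eval x))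
    (hdvd : V * Rh ∣ (S * G) ^ k) (hS : S ≠ 0) (hG : G ≠ 0)
    (hdeg : τ + G.natDegree ≤ σ * N)
    (H : FIOn T R σ) : FIOn {x | U.eval x / V.eval x ∈ T} S τ := by
  obtain ⟨W, hW⟩ := hdvd
  have hSG : (S * G) ^ k ≠ 0 := pow_ne_zero _ (mul_ne_zero hS hG)
  have hRh0 : Rh ≠ 0 := by rintro rfl; simp at hW; exact hSG (by simpa using hW)
  have hU0 : U ≠ 0 := by rintro rfl; simp at hU; omega
  have hmax : max U.natDegree V.natDegree = N := by rw [hU]; exact max_eq_left hV
  obtain ⟨C1, hC1⟩ := ratHeight_ge U V hUV N hmax ⟨hU0, hV0⟩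
  obtain ⟨C2, hC2⟩ := polyHeight_le G G.natDegree le_rfl
  -- exceptional parameters
  have hT0 : V * Rh * (S * G) ≠ 0 := mul_ne_zero (mul_ne_zero hV0 hRh0) (mul_ne_zero hS hG)
  have hbadfin : {t : K | (V * Rh * (S * G)).eval t = 0}.Finite := by
    classical
    refine (V * Rh * (S * G)).roots.toFinset.finite_toSet.subset ?_
    intro t ht
    simpa [hT0] using ht
  obtain ⟨C4, hC4⟩ : ∃ C4 : ℝ, ∀ t : K, (V * Rh * (S * G)).eval t = 0 → logHeight₁ t ≤ C4 := by
    obtain ⟨C4, h⟩ := (hbadfin.image (fun t => logHeight₁ t)).bddAbove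
    exact ⟨C4, fun t ht => h ⟨t, ht, rfl⟩⟩
  let Bad : Set (HeightOneSpectrum (𝓞 K)) :=
    {p | ¬ IntAt p U} ∪ {p | ¬ IntAt p V} ∪ {p | ¬ IntAt p Rh} ∪ {p | ¬ IntAt p W} ∪
      {p | ¬ IntAt p S} ∪ {p | ¬ IntAt p G}
  have hBad : Bad.Finite := by
    refine (((((finite_not_IntAt U).union (finite_not_IntAt V)).union
      (finite_not_IntAt Rh)).union (finite_not_IntAt W)).union (finite_not_IntAt S)).union
      (finite_not_IntAt G)
  intro ε hε
  by_cases hτ : τ = 0
  · refine ⟨0, fun t _ _ => ?_⟩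
    rw [hτ]
    have := Rs_nonneg (IR S t)
    simp
    positivity
  have hτ1 : (1 : ℝ) ≤ τ := by exact_mod_cast Nat.one_le_iff_ne_zero.mpr hτ
  set g : ℝ := (G.natDegree : ℝ) with hg
  have hg0 : 0 ≤ g := by positivity
  set δ : ℝ := ε * τ / (τ + (1 + ε) * g) with hδ
  have hden : 0 < (τ : ℝ) + (1 + ε) * g := by positivity
  have hδ0 : 0 < δ := by positivity
  have hδ1 : δ * ((τ : ℝ) + (1 + ε) * g) = ε * τ := by rw [hδ]; field_simp
  obtain ⟨C5, hC5⟩ := H δ hδ0
  have hfac : 0 < (τ : ℝ) - δ * g := by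
    have h2 : δ * ((τ : ℝ) + (1 + ε) * g) = δ * τ + (1 + ε) * (δ * g) := by ring
    rw [h2] at hδ1
    by_contra hcon
    push Not at hcon
    have h3 : (1 + ε) * (τ : ℝ) ≤ (1 + ε) * (δ * g) := by gcongr; linarith
    have h4 : 0 < δ * τ := by positivity
    nlinarith
  set M : ℝ := σ * |C1| + |C5| + (1 + δ) * (|C2| + Rs Bad) with hM
  have hB0 : 0 ≤ Rs Bad := Rs_nonneg _
  have hM0 : 0 ≤ M := by positivity
  refine ⟨τ * (M / (τ - δ * g)) + τ * |C4|, fun x hxT hSx => ?_⟩
  have hRs0 : 0 ≤ Rs (IR S x) := Rs_nonneg _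
  have hh0 : 0 ≤ logHeight₁ x := zero_le_logHeight₁ x
  by_cases hbad : (V * Rh * (S * G)).eval x = 0
  · have h4 := hC4 x hbad
    have a4 : C4 ≤ |C4| := le_abs_self _
    have h5 : 0 ≤ τ * (M / (τ - δ * g)) := by positivity
    have h6 : 0 ≤ (1 + ε) * Rs (IR S x) := by positivity
    have h7 : (τ : ℝ) * logHeight₁ x ≤ τ * |C4| := by gcongr; linarith
    linarith
  · simp only [eval_mul, mul_eq_zero, not_or] at hbad
    obtain ⟨⟨hVx, hRhx⟩, -, hGx⟩ := hbad
    set t := U.eval x / V.eval x with ht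
    have hRt := hRh x hVx
    rw [← ht] at hRt
    have hRt0 : R.eval t ≠ 0 := by
      intro h0; rw [h0, mul_zero] at hRt; exact hRhx hRt
    have e5 := hC5 t hxT hRt0
    have e1 := hC1 x
    rw [← ht] at e1
    have e2 := hC2 x
    have hsub : IR R t ⊆ (IR S x ∪ Zp (G.eval x)) ∪ Bad := by
      intro p hp
      by_contra hcon
      simp only [Set.mem_union, not_or] at hcon
      obtain ⟨⟨hp1, hp2⟩, hp3⟩ := hcon
      simp only [Bad, Set.mem_union, Set.mem_ofPred_eq, not_or, not_not] at hp3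
      obtain ⟨⟨⟨⟨⟨iU, iV⟩, iRh⟩, iW⟩, iS⟩, iG⟩ := hp3
      simp only [IR, Set.mem_ofPred_eq, not_or, not_lt] at hp1
      obtain ⟨hx1, hS1⟩ := hp1
      have hG1 : 1 ≤ av p (G.eval x) := not_lt.mp hp2
      have vU := iU.eval hx1
      have vV := iV.eval hx1
      have vRh := iRh.eval hx1
      have vW := iW.eval hx1
      have nV := av_nonneg p (V.eval x)
      have nRh := av_nonneg p (Rh.eval x)
      have nW := av_nonneg p (W.eval x)
      have hev := congrArg (fun f => av p (Polynomial.eval x f)) hW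
      simp only [eval_pow, eval_mul, av_mul, av_pow] at hev
      have hprod : 1 ≤ av p (V.eval x) * av p (Rh.eval x) * av p (W.eval x) := by
        rw [← hev]; exact one_le_pow₀ (one_le_mul_of_one_le_of_one_le hS1 hG1)
      have k1 : av p (V.eval x) * av p (Rh.eval x) * av p (W.eval x) ≤ av p (V.eval x) := by
        have := mul_le_one₀ vRh nW vW
        calc _ = av p (V.eval x) * (av p (Rh.eval x) * av p (W.eval x)) := by ring
          _ ≤ av p (V.eval x) * 1 := by gcongr
          _ = _ := mul_one _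
      have k2 : av p (V.eval x) * av p (Rh.eval x) * av p (W.eval x) ≤ av p (Rh.eval x) := by
        have := mul_le_one₀ vV nW vW
        calc _ = av p (Rh.eval x) * (av p (V.eval x) * av p (W.eval x)) := by ring
          _ ≤ av p (Rh.eval x) * 1 := by gcongr
          _ = _ := mul_one _
      have hV1 : av p (V.eval x) = 1 := le_antisymm vV (hprod.trans k1)
      have hRh1 : av p (Rh.eval x) = 1 := le_antisymm vRh (hprod.trans k2)
      have hR1 : av p (R.eval t) = 1 := by
        have := congrArg (av p) hRt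
        rw [av_mul, av_pow, hV1, hRh1] at this
        simpa using this.symm
      have ht1 : av p t ≤ 1 := by
        rw [ht, div_eq_mul_inv, av_mul, av_inv, hV1]; simpa using vU
      rcases hp with hp | hp
      · linarith
      · rw [hR1] at hp; linarith
    have hR2 : Rs (IR R t) ≤ Rs (IR S x) + logHeight₁ (G.eval x) + Rs Bad := by
      have f1 : (IR S x).Finite := finite_IR hSx
      have f2 : (Zp (G.eval x)).Finite := finite_Zp hGx
      calc Rs (IR R t) ≤ Rs ((IR S x ∪ Zp (G.eval x)) ∪ Bad) :=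
            Rs_mono ((f1.union f2).union hBad) hsub
        _ ≤ Rs (IR S x ∪ Zp (G.eval x)) + Rs Bad := Rs_union_le (f1.union f2) hBad
        _ ≤ Rs (IR S x) + Rs (Zp (G.eval x)) + Rs Bad := by
            gcongr; exact Rs_union_le f1 f2
        _ ≤ Rs (IR S x) + logHeight₁ (G.eval x) + Rs Bad := by
            gcongr; exact Rs_Zp_le hGx
    have a1 : C1 ≤ |C1| := le_abs_self _
    have a2 : C2 ≤ |C2| := le_abs_self _
    have a5 : C5 ≤ |C5| := le_abs_self _
    set h := logHeight₁ x with hh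
    have q1 : Rs (IR R t) ≤ Rs (IR S x) + g * h + (|C2| + Rs Bad) := by linarith
    have q2 : (σ : ℝ) * (N * h) ≤ σ * (logHeight₁ t + |C1|) := by gcongr; linarith
    have q3 : (1 + δ) * Rs (IR R t) ≤ (1 + δ) * (Rs (IR S x) + g * h + (|C2| + Rs Bad)) := by
      gcongr
    have q4 : ((τ : ℝ) + g) * h ≤ (σ : ℝ) * N * h := by
      gcongr
      rw [hg]
      exact_mod_cast hdeg
    have q5 : ((τ : ℝ) - δ * g) * h ≤ (1 + δ) * Rs (IR S x) + M := by
      rw [hM]; nlinarith
    have hk : (τ : ℝ) * (1 + δ) ≤ (1 + ε) * (τ - δ * g) := by nlinarith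
    have q6 : (τ : ℝ) * h ≤ (1 + ε) * Rs (IR S x) + τ * (M / (τ - δ * g)) := by
      rw [← mul_le_mul_iff_right₀ hfac]
      have r1 : ((τ : ℝ) - δ * g) * ((1 + ε) * Rs (IR S x) + τ * (M / (τ - δ * g))) =
          ((1 + ε) * (τ - δ * g)) * Rs (IR S x) + τ * M := by
        field_simp
      have r2 : ((τ : ℝ) * (1 + δ)) * Rs (IR S x) ≤ ((1 + ε) * (τ - δ * g)) * Rs (IR S x) := by
        gcongr
      have r3 : (τ : ℝ) * (((τ : ℝ) - δ * g) * h) ≤ τ * ((1 + δ) * Rs (IR S x) + M) := by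
        gcongr
      rw [r1]
      linarith
    have : 0 ≤ τ * |C4| := by positivity
    linarith

/-- The unrestricted version. -/
theorem FI_pullback (R S G U V Rh : K[X]) (e k N σ τ : ℕ) (hUV : IsCoprime U V)
    (hU : U.natDegree = N) (hN : 1 ≤ N) (hV : V.natDegree ≤ N) (hV0 : V ≠ 0)
    (hRh : ∀ x, V.eval x ≠ 0 → Rh.eval x = (V.eval x) ^ e * R.eval (U.eval x / V.eval x))
    (hdvd : V * Rh ∣ (S * G) ^ k) (hS : S ≠ 0) (hG : G ≠ 0)
    (hdeg : τ + G.natDegree ≤ σ * N)
    (H : FI R σ) : FI S τ := by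
  have := FIOn_pullback Set.univ R S G U V Rh e k N σ τ hUV hU hN hV hV0 hRh hdvd hS hG hdeg H
  simpa using this

/-- finite unions -/
lemma FIOn_iUnion (T : ℕ → Set K) (M : ℕ) (R : K[X]) (σ : ℕ) (h : ∀ n < M, FIOn (T n) R σ) :
    FIOn {x | ∃ n < M, x ∈ T n} R σ := by
  intro ε hε
  have h' : ∀ n : ℕ, ∃ C : ℝ, n < M → ∀ t ∈ T n, R.eval t ≠ 0 →
      σ * logHeight₁ t ≤ (1 + ε) * Rs (IR R t) + C := by
    intro n
    by_cases hn : n < M
    · obtain ⟨C, hC⟩ := h n hn ε hε
      exact ⟨C, fun _ => hC⟩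
    · exact ⟨0, fun hcon => absurd hcon hn⟩
  choose C hC using h'
  refine ⟨∑ n ∈ Finset.range M, |C n|, ?_⟩
  rintro t ⟨n, hn, htn⟩ hRt
  have h1 := hC n hn t htn hRt
  have h2 : |C n| ≤ ∑ n ∈ Finset.range M, |C n| :=
    Finset.single_le_sum (f := fun n => |C n|) (fun i _ => abs_nonneg (C i))
      (Finset.mem_range.mpr hn)
  have h3 := le_abs_self (C n)
  linarith

lemma FIOn_mono {T T' : Set K} (hT : T ⊆ T') {R : K[X]} {σ : ℕ} (h : FIOn T' R σ) :
    FIOn T R σ := by
  intro ε hε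
  obtain ⟨C, hC⟩ := h ε hε
  exact ⟨C, fun t ht => hC t (hT ht)⟩

end Pool.Agent.Work.MP_a793bb_nt.H6
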