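import Pool.Agent.Work.MP_a793bb_nt.H6NearCusp

set_option autoImplicit false
set_option linter.unusedSectionVars false

/-!
Reduction of the abc inequality to points that are close to one cusp at all places of a finite set.
-/

namespace Pool.Agent.Work.MP_a793bb_nt.H6

open NumberField IsDedekindDomain Height Polynomial

variable {K : Type*} [Field K] [NumberField K]

/-- The elements that are at least `M` at all infinite places and at the primes in `T`. -/
def Large (T : Set (HeightOneSpectrum (𝓞 K))) (M : ℝ) : Set K :=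
  {x | (∀ v : InfinitePlace K, M ≤ v x) ∧ ∀ p ∈ T, M ≤ av p x}

lemma Large_mono {T : Set (HeightOneSpectrum (𝓞 K))} {M M' : ℝ} (h : M ≤ M') :
    (Large T M' : Set K) ⊆ Large T M :=
  fun _ hx => ⟨fun v => h.trans (hx.1 v), fun p hp => h.trans (hx.2 p hp)⟩

lemma v_natCast_le (v : AbsoluteValue K ℝ) (n : ℕ) : v (n : K) ≤ n := by
  induction n with
  | zero => simp
  | succ n ih =>
    push_cast
    refine (v.add_le _ _).trans ?_
    rw [v.map_one]; linarith

lemma local_zero (v : AbsoluteValue K ℝ) {M η : ℝ} (hM : 1 ≤ M) (hη0 : 0 < η)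
    (hη : η * (256 * M) ≤ 1) {y : K} (hy : v y ≤ η) :
    M * v (16 * y * (1 - y) ^ 2) ≤ v ((1 - 6 * y + y ^ 2) ^ 2) := by
  have h16 : v (16 : K) ≤ 16 := by have := v_natCast_le v 16; exact_mod_cast this
  have h6 : v (6 : K) ≤ 6 := by have := v_natCast_le v 6; exact_mod_cast this
  have hη1 : η ≤ 1 / 256 := by nlinarith
  have hy0 : 0 ≤ v y := v.nonneg y
  have h1 : v (1 - y) ≤ 2 := by
    refine (v.sub_le_add 1 y).trans ?_
    rw [v.map_one]; linarith
  have h2 : v (16 * y * (1 - y) ^ 2) ≤ 64 * η := by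
    rw [v.map_mul, v.map_mul, v.map_pow]
    calc v 16 * v y * v (1 - y) ^ 2 ≤ 16 * η * 2 ^ 2 := by gcongr
      _ = 64 * η := by ring
  have h3 : 1 / 2 ≤ v (1 - 6 * y + y ^ 2) := by
    have e1 : (1 : K) = (1 - 6 * y + y ^ 2) + (6 * y - y ^ 2) := by ring
    have e2 : v (6 * y - y ^ 2) ≤ 7 * η := by
      refine (v.sub_le_add _ _).trans ?_
      rw [v.map_mul, v.map_pow]
      have h4 : v y ^ 2 ≤ η := by nlinarith
      have h5 : v 6 * v y ≤ 6 * η := by gcongr
      linarith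
    have e3 : v (1 : K) ≤ v (1 - 6 * y + y ^ 2) + v (6 * y - y ^ 2) := by
      conv_lhs => rw [e1]
      exact v.add_le _ _
    rw [v.map_one] at e3
    linarith
  have h4 : 1 / 4 ≤ v ((1 - 6 * y + y ^ 2) ^ 2) := by
    rw [v.map_pow]
    calc (1 / 4 : ℝ) = (1 / 2) ^ 2 := by norm_num
      _ ≤ _ := by gcongr
  have h5 : M * v (16 * y * (1 - y) ^ 2) ≤ M * (64 * η) := by gcongr
  nlinarith

lemma local_est (v : AbsoluteValue K ℝ) {M η : ℝ} (hM : 1 ≤ M) (hη0 : 0 < η)
    (hη : η * (256 * M) ≤ 1) (hη4 : 8 * η ≤ v 4) {y : K} (hy : Near v η y) :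
    M * v (16 * y * (1 - y) ^ 2) ≤ v ((1 - 6 * y + y ^ 2) ^ 2) := by
  have hη1 : η ≤ 1 / 256 := by nlinarith
  rcases hy with hy | hy | hy
  · exact local_zero v hM hη0 hη hy
  · have hpos : 0 < v y := lt_of_lt_of_le (inv_pos.mpr hη0) hy
    have hy0 : y ≠ 0 := (v.pos_iff).mp hpos
    have hw : v y⁻¹ ≤ η := by
      rw [map_inv₀]
      exact inv_le_of_inv_le₀ hη0 hy
    have h := local_zero v hM hη0 hη hw
    have e1 : 16 * y * (1 - y) ^ 2 = y ^ 4 * (16 * y⁻¹ * (1 - y⁻¹) ^ 2) := by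
      field_simp; ring
    have e2 : (1 - 6 * y + y ^ 2) ^ 2 = y ^ 4 * (1 - 6 * y⁻¹ + y⁻¹ ^ 2) ^ 2 := by
      field_simp; ring
    rw [e1, e2, v.map_mul, v.map_mul (y ^ 4)]
    calc M * (v (y ^ 4) * v (16 * y⁻¹ * (1 - y⁻¹) ^ 2)) =
        v (y ^ 4) * (M * v (16 * y⁻¹ * (1 - y⁻¹) ^ 2)) := by ring
      _ ≤ _ := by gcongr
  · set z := y - 1 with hz
    have hyz : y = 1 + z := by rw [hz]; ring
    have h4pos : 0 < v (4 : K) := lt_of_lt_of_le (by linarith) hη4
    have h44 : v (4 : K) ≤ 4 := by have := v_natCast_le v 4; exact_mod_cast this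
    have e1 : 16 * y * (1 - y) ^ 2 = 4 ^ 2 * ((1 + z) * z ^ 2) := by rw [hyz]; ring
    have e2 : 1 - 6 * y + y ^ 2 = -4 - 4 * z + z ^ 2 := by rw [hyz]; ring
    rw [e1, e2]
    have hz0 : 0 ≤ v z := v.nonneg z
    have h1 : v (4 ^ 2 * ((1 + z) * z ^ 2)) ≤ v 4 ^ 2 * (2 * η ^ 2) := by
      rw [v.map_mul, v.map_mul, v.map_pow, v.map_pow]
      have : v (1 + z) ≤ 2 := by
        refine (v.add_le _ _).trans ?_
        rw [v.map_one]; linarith
      gcongr
    have h2 : v 4 / 2 ≤ v (-4 - 4 * z + z ^ 2) := by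
      have e3 : (4 : K) = -(-4 - 4 * z + z ^ 2) + (z ^ 2 - 4 * z) := by ring
      have e4 : v (4 : K) ≤ v (-4 - 4 * z + z ^ 2) + v (z ^ 2 - 4 * z) := by
        conv_lhs => rw [e3]
        refine (v.add_le _ _).trans ?_
        rw [v.map_neg]
      have e5 : v (z ^ 2 - 4 * z) ≤ v 4 / 2 := by
        refine (v.sub_le_add _ _).trans ?_
        rw [v.map_mul, v.map_pow]
        have e6 : v z ^ 2 ≤ η * (v 4 / 8) := by
          calc v z ^ 2 = v z * v z := by ring
            _ ≤ η * (v 4 / 8) := by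
              gcongr
              linarith
        have e7 : v 4 * v z ≤ v 4 * (1 / 256) := by
          gcongr; linarith
        nlinarith
      linarith
    have h3 : v 4 ^ 2 / 4 ≤ v ((-4 - 4 * z + z ^ 2) ^ 2) := by
      rw [v.map_pow]
      calc v 4 ^ 2 / 4 = (v 4 / 2) ^ 2 := by ring
        _ ≤ _ := by gcongr
    have h5 : M * v (4 ^ 2 * ((1 + z) * z ^ 2)) ≤ M * (v 4 ^ 2 * (2 * η ^ 2)) := by gcongr
    have h6 : M * (2 * η ^ 2) ≤ 1 / 4 := by
      have : M * η ≤ 1 / 256 := by linarith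
      nlinarith
    have h7 : M * (v 4 ^ 2 * (2 * η ^ 2)) ≤ v 4 ^ 2 * (1 / 4) := by
      calc M * (v 4 ^ 2 * (2 * η ^ 2)) = v 4 ^ 2 * (M * (2 * η ^ 2)) := by ring
        _ ≤ _ := by gcongr
    linarith

/-- pull back by powers -/
theorem FIOn_pow (T : Set K) (n : ℕ) (hn : 1 ≤ n) (H : FIOn T (X * (X - 1) : K[X]) 1) :
    FIOn {x | x ^ n ∈ T} (X * (X - 1) : K[X]) 1 := by
  classical
  set G : K[X] := ∑ i ∈ Finset.range n, X ^ i with hG
  have hGm : G * (X - 1) = X ^ n - 1 := by rw [hG]; exact geom_sum_mul X n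
  have hn0 : n ≠ 0 := by omega
  have hXn : (X ^ n - 1 : K[X]) ≠ 0 := by
    have := X_pow_sub_C_ne_zero (R := K) (Nat.pos_of_ne_zero hn0) 1
    simpa using this
  have hG0 : G ≠ 0 := by rintro h0; rw [h0, zero_mul] at hGm; exact hXn hGm.symm
  have hX1 : (X - 1 : K[X]) ≠ 0 := by
    have := X_sub_C_ne_zero (1 : K); simpa using this
  have hGdeg : G.natDegree = n - 1 := by
    have h1 : (G * (X - 1)).natDegree = n := by
      rw [hGm]
      have := natDegree_X_pow_sub_C (n := n) (r := (1 : K))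
      simpa using this
    rw [natDegree_mul hG0 hX1] at h1
    have h2 : (X - 1 : K[X]).natDegree = 1 := by
      have := natDegree_X_sub_C (1 : K); simpa using this
    omega
  have := FIOn_pullback T (X * (X - 1)) (X * (X - 1)) G (X ^ n) 1 (X ^ n * (X ^ n - 1)) 0 n n 1 1
    isCoprime_one_right (natDegree_X_pow n) hn (by simp) one_ne_zero ?_ ?_
    (mul_ne_zero X_ne_zero hX1) hG0 (by rw [hGdeg]; omega) H
  · simpa using this
  · intro x _
    simp
  · rw [one_mul, ← hGm]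
    obtain ⟨m, rfl⟩ := Nat.exists_eq_succ_of_ne_zero hn0
    refine ⟨(X - 1) ^ m * G ^ m, ?_⟩
    rw [Nat.succ_eq_add_one, mul_pow, mul_pow]; ring

/-- pull back by the quartic map sending all three cusps to `∞` -/
theorem FIOn_quartic (T : Set K) (H : FIOn T (X * (X - 1) : K[X]) 1) :
    FIOn {x | -(1 - 6 * x + x ^ 2) ^ 2 / (16 * x * (1 - x) ^ 2) ∈ T} (X * (X - 1) : K[X]) 1 := by
  set q : K[X] := 1 - 6 * X + X ^ 2 with hq
  have h16 : (16 : K) ≠ 0 := by norm_num
  have hX1 : (X - 1 : K[X]) ≠ 0 := by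
    have := X_sub_C_ne_zero (1 : K); simpa using this
  have hqdeg : q.natDegree = 2 := by
    rw [hq]; compute_degree!
  have hq0 : q ≠ 0 := by rintro h0; rw [h0] at hqdeg; simp at hqdeg
  have h1X : (1 + X : K[X]).natDegree = 1 := by compute_degree!
  have h1X0 : (1 + X : K[X]) ≠ 0 := by rintro h0; rw [h0] at h1X; simp at h1X
  set V : K[X] := 16 * X * (1 - X) ^ 2 with hV
  have hC16 : (16 : K[X]) = C 16 := rfl
  have hVdeg : V.natDegree = 3 := by
    rw [hV]
    have : (16 * X * (1 - X) ^ 2 : K[X]) = 16 * X ^ 3 - 32 * X ^ 2 + 16 * X := by ring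
    rw [this]; compute_degree!
  have hUdeg : (-q ^ 2).natDegree = 4 := by
    rw [natDegree_neg, natDegree_pow, hqdeg]
  have hid : q ^ 2 + V = (1 + X) ^ 4 := by rw [hq, hV]; ring
  have hcop : IsCoprime (-q ^ 2) V := by
    have h1 : IsCoprime q V := by
      rw [hV, hC16]
      have c1 : IsCoprime q (C (16 : K)) := ⟨0, C (1 / 16), by
        rw [zero_mul, zero_add, ← C_mul]; norm_num⟩
      have c2 : IsCoprime q X := ⟨1, 6 - X, by rw [hq]; ring⟩
      have c3 : IsCoprime q (1 - X) := by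
        refine ⟨-C (1 / 4), C (1 / 4) * (5 - X), ?_⟩
        have e4 : (C (1 / 4) : K[X]) * 4 = 1 := by
          have : (4 : K[X]) = C 4 := rfl
          rw [this, ← C_mul]; norm_num
        rw [hq]
        linear_combination e4
      exact (c1.mul_right c2).mul_right (c3.pow_right)
    exact (h1.pow_left).neg_left
  have := FIOn_pullback T (X * (X - 1)) (X * (X - 1)) (q * (1 + X)) (-q ^ 2) V
    (q ^ 2 * (1 + X) ^ 4) 2 4 4 1 1 hcop hUdeg (by norm_num) (by omega)
    (by rintro h0; rw [h0] at hVdeg; simp at hVdeg) ?_ ?_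
    (mul_ne_zero X_ne_zero hX1) (mul_ne_zero hq0 h1X0)
    (by rw [natDegree_mul hq0 h1X0, hqdeg, h1X]) H
  · refine FIOn_mono (fun x hx => ?_) this
    simpa [hq, hV] using hx
  · intro x hx
    have e1 : (q ^ 2 + V).eval x = ((1 + X) ^ 4 : K[X]).eval x := by rw [hid]
    simp only [eval_add, eval_pow, eval_mul, eval_neg, eval_X, eval_sub, eval_one] at e1 ⊢
    rw [← e1]
    field_simp
    ring
  · refine ⟨C (1 / 16) * (X ^ 3 * (X - 1) ^ 2 * q ^ 2), ?_⟩
    have e16 : (C (1 / 16) : K[X]) * 16 = 1 := by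
      rw [hC16, ← C_mul]; norm_num
    rw [hV]
    linear_combination (-(X ^ 4 * (X - 1) ^ 4 * q ^ 4 * (1 + X) ^ 4)) * e16

/-- **Localisation**: it suffices to treat the points that are close to `∞` at all places of a
finite set of places containing the infinite ones. -/
theorem FI_of_large (T : Set (HeightOneSpectrum (𝓞 K))) (hT : T.Finite) (M : ℝ)
    (H : FIOn (Large T M) (X * (X - 1) : K[X]) 1) : FI (X * (X - 1) : K[X]) 1 := by
  classical
  wlog hM : 1 ≤ M generalizing M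
  · refine this (max M 1) (FIOn_mono (Large_mono (le_max_left _ _)) H) (le_max_right _ _)
  have hM0 : 0 < M := by linarith
  -- choice of `η`
  obtain ⟨η, hη0, hη, hη4, hη4'⟩ : ∃ η : ℝ, 0 < η ∧ η * (256 * M) ≤ 1 ∧ 8 * η ≤ 4 ∧
      ∀ p ∈ T, 8 * η ≤ av p 4 := by
    have h1 : ∃ c : ℝ, 0 < c ∧ ∀ p ∈ T, 8 * c ≤ av p 4 := by
      clear H
      induction T, hT using Set.Finite.induction_on with
      | empty => exact ⟨1, one_pos, by simp⟩
      | @insert p T _ _ ih =>
        obtain ⟨c, hc, hcT⟩ := ih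
        have h4 : 0 < av p 4 := av_pos p (by norm_num)
        refine ⟨min c (av p 4 / 8), lt_min hc (by positivity), ?_⟩
        intro q hq
        rcases Set.mem_insert_iff.mp hq with rfl | hq
        · have := min_le_right c (av q 4 / 8); linarith
        · have := min_le_left c (av p 4 / 8)
          have := hcT q hq; linarith
    obtain ⟨c, hc, hcT⟩ := h1
    refine ⟨min (min c (1 / (256 * M))) (1 / 2), by positivity, ?_, ?_, ?_⟩
    · have h2 : min (min c (1 / (256 * M))) (1 / 2) ≤ 1 / (256 * M) :=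
        (min_le_left _ _).trans (min_le_right _ _)
      calc _ ≤ 1 / (256 * M) * (256 * M) := by gcongr
        _ = 1 := by field_simp
    · have := min_le_right (min c (1 / (256 * M))) (1 / 2); linarith
    · intro p hp
      have h2 : min (min c (1 / (256 * M))) (1 / 2) ≤ c :=
        (min_le_left _ _).trans (min_le_left _ _)
      have := hcT p hp
      linarith
  obtain ⟨nmax, hnear⟩ := exists_near hT.toFinset η hη0
  have H1 := FIOn_quartic _ H
  have H2 : ∀ n < nmax + 1, FIOn {x : K | 1 ≤ n ∧ x ^ n ∈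
      {x | -(1 - 6 * x + x ^ 2) ^ 2 / (16 * x * (1 - x) ^ 2) ∈ Large T M}}
      (X * (X - 1) : K[X]) 1 := by
    intro n _
    by_cases hn : 1 ≤ n
    · refine FIOn_mono (fun x hx => hx.2) (FIOn_pow _ n hn H1)
    · refine FIOn_mono (T' := ∅) (fun x hx => absurd hx.1 hn) ?_
      intro ε hε
      exact ⟨0, fun t ht => absurd ht (Set.notMem_empty t)⟩
  have H3 := FIOn_iUnion _ _ _ _ H2
  intro ε hε
  obtain ⟨C, hC⟩ := H3 ε hε
  refine ⟨max C 0, fun x _ hx => ?_⟩
  have hx0 : x ≠ 0 := by rintro rfl; simp at hx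
  obtain ⟨n, hn1, hnmax, hinf, hfin⟩ := hnear x hx0
  by_cases hxn : x ^ n = 1
  · have h1 : logHeight₁ (x ^ n) = n * logHeight₁ x := logHeight₁_pow x n
    rw [hxn, logHeight₁_one] at h1
    have h2 : logHeight₁ x = 0 := by
      rcases mul_eq_zero.mp h1.symm with h | h
      · have : n = 0 := by exact_mod_cast h
        omega
      · exact h
    rw [h2, mul_zero]
    have := Rs_nonneg (IR (X * (X - 1) : K[X]) x)
    positivity
  · have h1 : x ^ n ≠ 0 := pow_ne_zero _ hx0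
    have h2 : 16 * x ^ n * (1 - x ^ n) ^ 2 ≠ 0 :=
      mul_ne_zero (mul_ne_zero (by norm_num) h1) (pow_ne_zero _ (sub_ne_zero.mpr (Ne.symm hxn)))
    have key : ∀ v : AbsoluteValue K ℝ, 8 * η ≤ v 4 → Near v η (x ^ n) →
        M ≤ v (-(1 - 6 * x ^ n + (x ^ n) ^ 2) ^ 2 / (16 * x ^ n * (1 - x ^ n) ^ 2)) := by
      intro v hv4 hv
      have h3 := local_est v hM hη0 hη hv4 hv
      have h4 : 0 < v (16 * x ^ n * (1 - x ^ n) ^ 2) := v.pos h2
      rw [map_div₀, v.map_neg, le_div_iff₀ h4]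
      exact h3
    have h5 := hC x ⟨n, by omega, hn1, ?_, ?_⟩ hx
    · exact h5.trans (by have := le_max_left C 0; linarith)
    · intro v
      refine key v.1 ?_ (hinf v)
      have : v.1 (4 : K) = 4 := by
        have h6 : v (4 : K) = 4 := by
          have := v.map_natCast 4
          exact_mod_cast this
        exact h6
      rw [this]; exact hη4
    · intro p hp
      exact key (pv p) (hη4' p hp) (hfin p (hT.mem_toFinset.mpr hp))

lemma AffABC_to_FIOn {T : Set K} (h : AffABC K T) : FIOn T (X * (X - 1) : K[X]) 1 := by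
  intro ε hε
  obtain ⟨C, hC⟩ := h ε hε
  refine ⟨C, fun x hxT hx => ?_⟩
  have h0 : x ≠ 0 := by rintro rfl; simp at hx
  have h1 : x ≠ 1 := by rintro rfl; simp at hx
  have := hC x hxT h0 h1
  rw [IR_eq_Ip]
  simpa using this

lemma Ip_inv {x : K} (hx : x ≠ 0) : Ip x⁻¹ = Ip x := by
  ext p
  rw [mem_Ip, mem_Ip, not_iff_not]
  have h1 : av p (1 - x⁻¹) = av p (1 - x) * (av p x)⁻¹ := by
    have : 1 - x⁻¹ = -(1 - x) * x⁻¹ := by field_simp; ring
    rw [this, av_mul, av_neg, av_inv]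
  rw [h1, av_inv]
  constructor
  · rintro ⟨h2, h3⟩
    rw [h2, mul_one] at h3
    exact ⟨inv_eq_one.mp h2, h3⟩
  · rintro ⟨h2, h3⟩
    rw [h2, h3]; simp

lemma AffABC_inv {S : Set K} (h : AffABC K S) : AffABC K {x | x⁻¹ ∈ S} := by
  intro ε hε
  obtain ⟨C, hC⟩ := h ε hε
  refine ⟨C, fun x hxS h0 h1 => ?_⟩
  have := hC x⁻¹ hxS (inv_ne_zero h0) (by simpa using h1)
  rwa [Ip_inv h0, logHeight₁_inv] at this

lemma AffABC_mono {S S' : Set K} (hS : S ⊆ S') (h : AffABC K S') : AffABC K S := by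
  intro ε hε
  obtain ⟨C, hC⟩ := h ε hε
  exact ⟨C, fun x hx => hC x (hS hx)⟩

/-- Localisation in affine form. -/
theorem AffABC_of_large (T : Set (HeightOneSpectrum (𝓞 K))) (hT : T.Finite) (M : ℝ)
    (H : AffABC K (Large T M)) : AffABC K Set.univ :=
  FIOn_to_AffABC (FI_of_large T hT M (AffABC_to_FIOn H))

end Pool.Agent.Work.MP_a793bb_nt.H6
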