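import Pool.Agent.Work.MP_a793bb_nt.H6Belyi
import Pool.Agent.Work.MP_a793bb_nt.H6ExtremalMain
import Pool.Agent.Work.MP_a793bb_nt.H6Local

set_option autoImplicit false
set_option linter.unusedSectionVars false

/-!
Pullbacks along the polynomials of Belyi's theorem.
-/

namespace Pool.Agent.Work.MP_a793bb_nt.H6

open NumberField IsDedekindDomain Height Polynomial UniqueFactorizationMonoid

/-- Counting the points above `0, 1`. -/
lemma card_preimages_le {L : Type*} [Field L] [IsAlgClosed L] [CharZero L] (g : L[X])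
    (hg : 1 ≤ g.natDegree) (hcrit : ∀ z, (derivative g).eval z = 0 → g.eval z * (g.eval z - 1) = 0) :
    {z : L | g.eval z * (g.eval z - 1) = 0}.ncard ≤ g.natDegree + 1 := by
  classical
  set n := g.natDegree with hn
  have hg0 : g ≠ 0 := by rintro rfl; simp at hn; omega
  have hg1deg : (g - 1).natDegree = n := by
    rw [show (1 : L[X]) = C 1 from rfl, natDegree_sub_C]
  have hg10 : g - 1 ≠ 0 := by intro h0; rw [h0] at hg1deg; simp at hg1deg; omega
  have hd0 : derivative g ≠ 0 := by
    intro h0
    have := natDegree_derivative g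
    by_cases h1 : n = 1
    · have h2 : g.coeff 1 = 0 := by
        have h3 := coeff_derivative g 0
        rw [h0] at h3; simp at h3; exact h3.symm
      have h4 : g.leadingCoeff ≠ 0 := leadingCoeff_ne_zero.mpr hg0
      rw [leadingCoeff, ← hn, h1] at h4
      exact h4 h2
    · rw [h0, natDegree_zero] at this; omega
  have hsp : ∀ f : L[X], Splits f := fun f => IsAlgClosed.splits f
  have c0 : g.roots.card = n := (hsp g).natDegree_eq_card_roots.symm
  have c1 : (g - 1).roots.card = n := by
    rw [← (hsp (g - 1)).natDegree_eq_card_roots, hg1deg]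
  have c2 : (derivative g).roots.card = n - 1 := by
    rw [← (hsp (derivative g)).natDegree_eq_card_roots, natDegree_derivative]
  set Z0 := g.roots.toFinset with hZ0
  set Z1 := (g - 1).roots.toFinset with hZ1
  have hm0 : ∀ z, z ∈ Z0 ↔ g.eval z = 0 := by
    intro z; rw [hZ0, Multiset.mem_toFinset, mem_roots hg0]; rfl
  have hm1 : ∀ z, z ∈ Z1 ↔ g.eval z = 1 := by
    intro z; rw [hZ1, Multiset.mem_toFinset, mem_roots hg10, IsRoot, eval_sub, eval_one,
      sub_eq_zero]
  have hdisj : Disjoint Z0 Z1 := by
    rw [Finset.disjoint_left]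
    intro z h0 h1
    rw [hm0] at h0; rw [hm1, h0] at h1
    exact zero_ne_one h1
  have hset : {z : L | g.eval z * (g.eval z - 1) = 0} = ((Z0 ∪ Z1 : Finset L) : Set L) := by
    ext z
    rw [Set.mem_ofPred_eq, Finset.mem_coe, Finset.mem_union, hm0, hm1, mul_eq_zero, sub_eq_zero]
  rw [hset, Set.ncard_coe_finset, Finset.card_union_of_disjoint hdisj]
  -- the sum of the multiplicities of the derivative
  have s2 : (derivative g).roots.card = ∑ z ∈ Z0 ∪ Z1, (derivative g).roots.count z := by
    rw [Multiset.sum_count_eq_card]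
    intro z hz
    rw [mem_roots hd0] at hz
    rw [Finset.mem_union, hm0, hm1]
    have := hcrit z hz
    rw [mul_eq_zero, sub_eq_zero] at this
    exact this
  have s0 : ∑ z ∈ Z0, (derivative g).roots.count z + Z0.card = n := by
    rw [← c0, ← Multiset.toFinset_sum_count_eq, ← hZ0, Finset.card_eq_sum_ones,
      ← Finset.sum_add_distrib]
    refine Finset.sum_congr rfl fun z hz => ?_
    rw [count_roots, count_roots, derivative_rootMultiplicity_of_root ((hm0 z).mp hz)]
    have : 0 < g.rootMultiplicity z := (rootMultiplicity_pos hg0).mpr ((hm0 z).mp hz)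
    omega
  have s1 : ∑ z ∈ Z1, (derivative g).roots.count z + Z1.card = n := by
    rw [← c1, ← Multiset.toFinset_sum_count_eq, ← hZ1, Finset.card_eq_sum_ones,
      ← Finset.sum_add_distrib]
    refine Finset.sum_congr rfl fun z hz => ?_
    have hroot : (g - 1).IsRoot z := by
      rw [IsRoot, eval_sub, eval_one, (hm1 z).mp hz, sub_self]
    have hder : derivative g = derivative (g - 1) := by
      rw [derivative_sub, derivative_one, sub_zero]
    rw [hder, count_roots, count_roots, derivative_rootMultiplicity_of_root hroot]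
    have : 0 < (g - 1).rootMultiplicity z := (rootMultiplicity_pos hg10).mpr hroot
    omega
  rw [Finset.sum_union hdisj, c2] at s2
  omega

variable {K : Type*} [Field K] [NumberField K]

/-- Pull back to two points along a polynomial with critical values `0, 1`. -/
theorem FIOn_belyi (T : Set K) (f : ℚ[X]) (hf : 1 ≤ f.natDegree)
    (hcrit : ∀ q : ℚ[X], Irreducible q → q ∣ derivative f → q ∣ f * (f - 1))
    (α : K) (hα : α ≠ 0) (h0 : X ∣ f * (f - 1)) (hαf : minpoly ℚ α ∣ f * (f - 1))
    (H : FIOn T (X * (X - 1) : K[X]) 1) :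
    FIOn {x | aeval (α * x) f ∈ T} (X * (X - 1) : K[X]) 1 := by
  classical
  set n := f.natDegree with hn
  set fK : K[X] := f.map (algebraMap ℚ K) with hfK
  have hfKdeg : fK.natDegree = n := natDegree_map _
  set F : K[X] := fK * (fK - 1) with hF
  have hFmap : F = (f * (f - 1)).map (algebraMap ℚ K) := by
    rw [Polynomial.map_mul, Polynomial.map_sub, Polynomial.map_one]
  have hf0 : f ≠ 0 := by rintro rfl; simp at hn; omega
  have hf10 : f - 1 ≠ 0 := by
    intro h
    have : f = C 1 := by rw [C_1]; linear_combination h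
    rw [this, natDegree_C] at hn; omega
  have hF0 : F ≠ 0 := by
    rw [hFmap]
    exact (Polynomial.map_ne_zero_iff (algebraMap ℚ K).injective).mpr (mul_ne_zero hf0 hf10)
  -- number of roots
  have hroots : (F.rootSet (AlgebraicClosure K)).ncard ≤ n + 1 := by
    set L := AlgebraicClosure K
    set g : L[X] := f.map (algebraMap ℚ L) with hg
    have hgdeg : g.natDegree = n := natDegree_map _
    have e1 : F.rootSet L = {z : L | g.eval z * (g.eval z - 1) = 0} := by
      ext z
      rw [mem_rootSet, Set.mem_ofPred_eq]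
      have e2 : aeval z F = g.eval z * (g.eval z - 1) := by
        rw [hF, map_mul, map_sub, map_one, hfK, aeval_map_algebraMap, hg, eval_map_algebraMap]
      rw [e2]
      exact ⟨fun h => h.2, fun h => ⟨hF0, h⟩⟩
    rw [e1, ← hgdeg]
    refine card_preimages_le g (by rw [hgdeg]; exact hf) ?_
    intro z hz
    rw [hg, derivative_map, eval_map_algebraMap] at hz
    have hd0 : derivative f ≠ 0 := by
      intro h
      have h1 := derivative_eq_zero.mp h
      omega
    have hint : IsIntegral ℚ z := by
      rw [← isAlgebraic_iff_isIntegral]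
      exact ⟨derivative f, hd0, hz⟩
    have h1 := hcrit (minpoly ℚ z) (minpoly.irreducible hint) (minpoly.dvd ℚ z hz)
    have h2 : aeval z (f * (f - 1)) = 0 := by
      obtain ⟨w, hw⟩ := h1
      rw [hw, map_mul, minpoly.aeval, zero_mul]
    rw [map_mul, map_sub, map_one] at h2
    rw [hg, eval_map_algebraMap]
    exact h2
  -- the quadratic factor
  set S : K[X] := X * (X - C α) with hS
  have hcop : IsCoprime (X : K[X]) (X - C α) := by
    have := isCoprime_X_sub_C_of_isUnit_sub (R := K) (a := 0) (b := α)
      (IsUnit.mk0 _ (by simpa using hα))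
    simpa using this
  have hS0 : S ≠ 0 := mul_ne_zero X_ne_zero (X_sub_C_ne_zero α)
  have hSdvd : S ∣ F := by
    refine hcop.mul_dvd ?_ ?_
    · rw [hFmap]
      have := Polynomial.map_dvd (algebraMap ℚ K) h0
      rwa [Polynomial.map_X] at this
    · rw [dvd_iff_isRoot, IsRoot, hFmap, eval_map_algebraMap]
      obtain ⟨w, hw⟩ := hαf
      rw [hw, map_mul, minpoly.aeval, zero_mul]
  have hSsq : Squarefree S := by
    rw [hS, squarefree_mul_iff]
    exact ⟨hcop.isRelPrime, irreducible_X.squarefree, (irreducible_X_sub_C α).squarefree⟩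
  have hSR : S ∣ radical F := (dvd_radical_iff hSsq.isRadical hF0).mpr hSdvd
  obtain ⟨G, hG⟩ := hSR
  have hR0 : radical F ≠ 0 := radical_ne_zero
  have hG0 : G ≠ 0 := by rintro rfl; simp at hG
  have hSdeg : S.natDegree = 2 := by
    rw [hS, natDegree_mul X_ne_zero (X_sub_C_ne_zero α), natDegree_X, natDegree_X_sub_C]
  have hGdeg : G.natDegree ≤ n - 1 := by
    have h1 := (natDegree_radical_le F hF0).trans hroots
    rw [hG, natDegree_mul hS0 hG0, hSdeg] at h1
    omega
  obtain ⟨k, W, hW⟩ := exists_dvd_radical_self_pow hF0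
  rw [hG] at hW
  have H1 : FIOn {x | fK.eval x / (1 : K[X]).eval x ∈ T} S 1 := by
    refine FIOn_pullback T (X * (X - 1)) S G fK 1 F 0 k n 1 1 isCoprime_one_right hfKdeg hf
      (by simp) one_ne_zero ?_ ⟨W, by rw [one_mul]; exact hW⟩ hS0 hG0 (by omega) H
    intro x _
    simp [hF]
  -- scaling
  have H2 := FIOn_pullback _ S (X * (X - 1)) (C (α ^ 2)) (C α * X) 1 (C (α ^ 2) * (X * (X - 1))) 0 1 1
    1 1 isCoprime_one_right (natDegree_C_mul_X α hα) le_rfl (by simp) one_ne_zero ?_ ?_ ?_ ?_
    (by simp) H1
  · refine FIOn_mono ?_ H2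
    intro x hx
    simp only [Set.mem_ofPred_eq, eval_mul, eval_C, eval_X, eval_one, div_one] at hx ⊢
    rw [hfK, eval_map_algebraMap]
    exact hx
  · intro x _
    simp [hS]
    ring
  · rw [one_mul, pow_one, mul_comm]
  · have hX1 : (X - 1 : K[X]) ≠ 0 := by
      have := X_sub_C_ne_zero (1 : K); simpa using this
    exact mul_ne_zero X_ne_zero hX1
  · exact C_ne_zero.mpr (pow_ne_zero _ hα)

end Pool.Agent.Work.MP_a793bb_nt.H6
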