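import Pool.Agent.Work.MP_a793bb_nt.H6Gen

set_option autoImplicit false
set_option linter.unusedSectionVars false

/-!
Points that generate the number field.
-/

namespace Pool.Agent.Work.MP_a793bb_nt.H6

open NumberField IsDedekindDomain Height Polynomial

/-- For distinct algebraic numbers `a, b` only finitely many quotients `(a + n) / (b + n)` are
roots of unity. -/
lemma finite_root_of_unity {a b : ℂ} (hab : a ≠ b) (ha : IsIntegral ℚ a) (hb : IsIntegral ℚ b) :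
    {n : ℕ | a + n ≠ 0 ∧ b + n ≠ 0 ∧ ∃ N : ℕ, 1 ≤ N ∧ (a + n) ^ N = (b + n) ^ N}.Finite := by
  set L := IntermediateField.adjoin ℚ ({a, b} : Set ℂ) with hL
  have hfin : FiniteDimensional ℚ L := by
    refine IntermediateField.finiteDimensional_adjoin ?_
    intro x hx
    rcases hx with rfl | rfl
    · exact ha
    · exact hb
  have hnf : NumberField L := { to_charZero := inferInstance, to_finiteDimensional := hfin }
  have haL : a ∈ L := IntermediateField.subset_adjoin ℚ _ (by simp)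
  have hbL : b ∈ L := IntermediateField.subset_adjoin ℚ _ (by simp)
  set a' : L := ⟨a, haL⟩
  set b' : L := ⟨b, hbL⟩
  have hfinL := NumberField.Embeddings.finite_of_norm_le L ℂ 1
  refine Set.Finite.of_injOn (f := fun n : ℕ => (a' + n) / (b' + n)) ?_ ?_ hfinL
  · intro n hn
    obtain ⟨h1, h2, N, hN, h3⟩ := hn
    have h2' : b' + n ≠ 0 := by
      intro h; apply h2
      have := congrArg (fun x : L => (x : ℂ)) h
      simpa using this
    have h3' : (a' + n) ^ N = (b' + n) ^ N := by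
      apply Subtype.ext
      simpa using h3
    have h4 : ((a' + n) / (b' + n)) ^ N = 1 := by
      rw [div_pow, h3', div_self (pow_ne_zero _ h2')]
    have hN0 : N ≠ 0 := by omega
    refine ⟨?_, fun φ => ?_⟩
    · refine IsIntegral.of_pow (Nat.pos_of_ne_zero hN0) ?_
      simp only [h4]
      exact isIntegral_one
    · have h5 : (φ ((a' + n) / (b' + n))) ^ N = 1 := by rw [← map_pow, h4, map_one]
      have h6 : ‖φ ((a' + n) / (b' + n))‖ = 1 := by
        have := congrArg norm h5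
        rw [norm_pow, norm_one] at this
        exact (pow_eq_one_iff_of_nonneg (norm_nonneg _) hN0).mp this
      exact h6.le
  · intro n hn m hm hnm
    obtain ⟨_, h2, -⟩ := hn
    obtain ⟨_, h2m, -⟩ := hm
    have h2' : b' + n ≠ 0 := by
      intro h; apply h2
      have := congrArg (fun x : L => (x : ℂ)) h
      simpa using this
    have h2m' : b' + m ≠ 0 := by
      intro h; apply h2m
      have := congrArg (fun x : L => (x : ℂ)) h
      simpa using this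
    simp only at hnm
    rw [div_eq_div_iff h2' h2m'] at hnm
    have h7 : (a' - b') * ((m : L) - n) = 0 := by linear_combination hnm
    rcases mul_eq_zero.mp h7 with h | h
    · exfalso; apply hab
      have := congrArg (fun x : L => (x : ℂ)) h
      simp only [ZeroMemClass.coe_zero] at this
      have h8 : a - b = 0 := by simpa using this
      linear_combination h8
    · have : (m : L) = n := by linear_combination h
      exact_mod_cast this.symm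

variable {K : Type*} [Field K] [NumberField K]

/-- An element with no quotient of conjugates being a root of unity. -/
lemma exists_alpha (φ₀ : K →ₐ[ℚ] ℂ) : ∃ α : K, α ≠ 0 ∧ ∀ ψ : K →ₐ[ℚ] ℂ, ψ ≠ φ₀ →
    ∀ N : ℕ, 1 ≤ N → φ₀ α ^ N ≠ ψ α ^ N := by
  classical
  obtain ⟨θ, hθ⟩ := Field.exists_primitive_element ℚ K
  have hsp : ∀ x : K, ((minpoly ℚ x).map (algebraMap ℚ ℂ)).Splits := fun x =>
    IsAlgClosed.splits _
  have hprim := (Field.primitive_element_iff_algHom_eq_of_eval ℚ ℂ hsp θ φ₀).mp hθ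
  have hfin : ∀ ψ : K →ₐ[ℚ] ℂ, ψ ≠ φ₀ → {n : ℕ | φ₀ θ + n ≠ 0 ∧ ψ θ + n ≠ 0 ∧
      ∃ N : ℕ, 1 ≤ N ∧ (φ₀ θ + n) ^ N = (ψ θ + n) ^ N}.Finite := by
    intro ψ hψ
    refine finite_root_of_unity (fun h => hψ (hprim ψ h).symm) ?_ ?_
    · exact (Algebra.IsIntegral.isIntegral θ).map φ₀
    · exact (Algebra.IsIntegral.isIntegral θ).map ψ
  have hbad : ({n : ℕ | θ + (n : K) = 0} ∪ ⋃ ψ : K →ₐ[ℚ] ℂ, ⋃ _ : ψ ≠ φ₀,
      {n : ℕ | φ₀ θ + n ≠ 0 ∧ ψ θ + n ≠ 0 ∧
      ∃ N : ℕ, 1 ≤ N ∧ (φ₀ θ + n) ^ N = (ψ θ + n) ^ N}).Finite := by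
    refine Set.Finite.union ?_ (Set.finite_iUnion fun ψ => Set.finite_iUnion fun h => hfin ψ h)
    refine Set.Subsingleton.finite ?_
    intro n hn m hm
    have hn' : θ + (n : K) = 0 := hn
    have hm' : θ + (m : K) = 0 := hm
    have : (n : K) = m := by linear_combination hn' - hm'
    exact_mod_cast this
  obtain ⟨n, hn⟩ := hbad.exists_notMem
  simp only [Set.mem_union, Set.mem_iUnion, not_or, not_exists] at hn
  obtain ⟨hn1, hn2⟩ := hn
  have hn0 : θ + (n : K) ≠ 0 := hn1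
  refine ⟨θ + n, hn0, fun ψ hψ N hN hcon => ?_⟩
  apply hn2 ψ hψ
  have e1 : ∀ χ : K →ₐ[ℚ] ℂ, χ (θ + n) = χ θ + n := by
    intro χ; rw [map_add, map_natCast]
  have e2 : ∀ χ : K →ₐ[ℚ] ℂ, χ θ + n ≠ 0 := by
    intro χ; rw [← e1]; exact (map_ne_zero χ).mpr hn0
  refine ⟨e2 _, e2 _, N, hN, ?_⟩
  rw [← e1, ← e1]; exact hcon

/-- The key pair estimate. -/
lemma pair_lemma {a b : ℂ} (ha : a ≠ 0) (hb : b ≠ 0) (hab : ∀ N : ℕ, 1 ≤ N → a ^ N ≠ b ^ N)
    {h h' : ℂ[X]} (h0 : h.eval 0 ≠ 0) (h0' : h'.eval 0 ≠ 0) {m m' k k' N : ℕ} (hm : 1 ≤ m)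
    (hm' : 1 ≤ m') (hN : 1 ≤ N) (hk : k ≠ k') :
    ∃ ρ : ℝ, 0 < ρ ∧ ∀ u w : ℂ, u ≠ 0 → w ≠ 0 → ‖u‖ ≤ ρ → ‖w‖ ≤ ρ →
      ¬ (((a ^ k * u) ^ m * h.eval (a ^ k * u)) ^ N = ((b ^ k * w) ^ m * h.eval (b ^ k * w)) ^ N ∧
        ((a ^ k' * u) ^ m' * h'.eval (a ^ k' * u)) ^ N =
          ((b ^ k' * w) ^ m' * h'.eval (b ^ k' * w)) ^ N) := by
  set E := m * m' * N with hE
  have hE1 : 1 ≤ E := Nat.mul_pos (Nat.mul_pos hm hm') hN
  set Φ : ℂ × ℂ → ℂ := fun p =>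
    a ^ (k * E) * b ^ (k' * E) * (h.eval (a ^ k * p.1) ^ (N * m') * h'.eval (b ^ k' * p.2) ^ (N * m))
    - b ^ (k * E) * a ^ (k' * E) *
      (h.eval (b ^ k * p.2) ^ (N * m') * h'.eval (a ^ k' * p.1) ^ (N * m)) with hΦ
  have hcont : Continuous Φ := by
    have c1 : Continuous fun z : ℂ => h.eval z := h.continuous
    have c2 : Continuous fun z : ℂ => h'.eval z := h'.continuous
    rw [hΦ]
    fun_prop
  have hΦ0 : Φ 0 ≠ 0 := by
    rw [hΦ]
    simp only [Prod.fst_zero, Prod.snd_zero, mul_zero]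
    rw [← sub_mul]
    refine mul_ne_zero ?_ (mul_ne_zero (pow_ne_zero _ h0) (pow_ne_zero _ h0'))
    intro hcon
    have h1 : a ^ (k * E) * b ^ (k' * E) = b ^ (k * E) * a ^ (k' * E) := by
      linear_combination hcon
    rcases lt_or_gt_of_ne hk with hlt | hlt
    · obtain ⟨d, rfl⟩ : ∃ d, k' = k + d := ⟨k' - k, by omega⟩
      have hd : 1 ≤ d * E := Nat.mul_pos (by omega) hE1
      apply hab (d * E) hd
      have h2 : (a ^ (k * E) * b ^ (k * E)) * b ^ (d * E) =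
          (a ^ (k * E) * b ^ (k * E)) * a ^ (d * E) := by
        rw [add_mul, pow_add, pow_add] at h1
        linear_combination h1
      exact (mul_left_cancel₀ (mul_ne_zero (pow_ne_zero _ ha) (pow_ne_zero _ hb)) h2).symm
    · obtain ⟨d, rfl⟩ : ∃ d, k = k' + d := ⟨k - k', by omega⟩
      have hd : 1 ≤ d * E := Nat.mul_pos (by omega) hE1
      apply hab (d * E) hd
      have h2 : (a ^ (k' * E) * b ^ (k' * E)) * a ^ (d * E) =
          (a ^ (k' * E) * b ^ (k' * E)) * b ^ (d * E) := by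
        rw [add_mul, pow_add, pow_add] at h1
        linear_combination h1
      exact mul_left_cancel₀ (mul_ne_zero (pow_ne_zero _ ha) (pow_ne_zero _ hb)) h2
  have hopen : {p : ℂ × ℂ | Φ p ≠ 0} ∈ nhds (0 : ℂ × ℂ) :=
    (isOpen_ne_fun hcont continuous_const).mem_nhds hΦ0
  obtain ⟨ρ', hρ', hball⟩ := Metric.mem_nhds_iff.mp hopen
  refine ⟨ρ' / 2, by positivity, fun u w hu hw hu' hw' hcon => ?_⟩
  have hmem : (u, w) ∈ Metric.ball (0 : ℂ × ℂ) ρ' := by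
    rw [mem_ball_zero_iff, Prod.norm_def]
    exact max_lt (by simp only; linarith) (by simp only; linarith)
  have hne : Φ (u, w) ≠ 0 := hball hmem
  apply hne
  obtain ⟨e1, e2⟩ := hcon
  have e1' : a ^ (k * E) * u ^ E * h.eval (a ^ k * u) ^ (N * m') =
      b ^ (k * E) * w ^ E * h.eval (b ^ k * w) ^ (N * m') := by
    have := congrArg (fun x => x ^ m') e1
    have r : ∀ c d x : ℂ, (((c ^ k * d) ^ m * x) ^ N) ^ m' =
        c ^ (k * E) * d ^ E * x ^ (N * m') := by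
      intro c d x; rw [hE]; ring
    rw [r, r] at this
    exact this
  have e2' : a ^ (k' * E) * u ^ E * h'.eval (a ^ k' * u) ^ (N * m) =
      b ^ (k' * E) * w ^ E * h'.eval (b ^ k' * w) ^ (N * m) := by
    have := congrArg (fun x => x ^ m) e2
    have r : ∀ c d x : ℂ, (((c ^ k' * d) ^ m' * x) ^ N) ^ m =
        c ^ (k' * E) * d ^ E * x ^ (N * m) := by
      intro c d x; rw [hE]; ring
    rw [r, r] at this
    exact this
  have e3 : u ^ E * w ^ E * Φ (u, w) = 0 := by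
    rw [hΦ]
    simp only
    linear_combination (b ^ (k' * E) * w ^ E * h'.eval (b ^ k' * w) ^ (N * m)) * e1' -
      (b ^ (k * E) * w ^ E * h.eval (b ^ k * w) ^ (N * m')) * e2'
  rcases mul_eq_zero.mp e3 with h4 | h4
  · exact absurd h4 (mul_ne_zero (pow_ne_zero _ hu) (pow_ne_zero _ hw))
  · exact h4

/-- The polynomials used. -/
lemma exists_belyi_zero (α : K) : ∃ (f : ℚ[X]) (m : ℕ) (h : ℚ[X]), 1 ≤ f.natDegree ∧
    (∀ q : ℚ[X], Irreducible q → q ∣ derivative f → q ∣ f * (f - 1)) ∧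
    minpoly ℚ α ∣ f * (f - 1) ∧ f = X ^ m * h ∧ 1 ≤ m ∧ h.eval 0 ≠ 0 := by
  classical
  have hα : Irreducible (minpoly ℚ α) := minpoly.irreducible (Algebra.IsIntegral.isIntegral α)
  obtain ⟨f₀, hf₀, h1, h2⟩ := exists_belyi {X, minpoly ℚ α} (by
    intro q hq
    rw [Finset.mem_insert, Finset.mem_singleton] at hq
    rcases hq with rfl | rfl
    · exact irreducible_X
    · exact hα)
  have hX := h1 X (by simp)
  have hαf := h1 (minpoly ℚ α) (by simp)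
  obtain ⟨f, hf, hc, hm, hXf⟩ : ∃ f : ℚ[X], 1 ≤ f.natDegree ∧
      (∀ q : ℚ[X], Irreducible q → q ∣ derivative f → q ∣ f * (f - 1)) ∧
      minpoly ℚ α ∣ f * (f - 1) ∧ X ∣ f := by
    rcases prime_X.dvd_or_dvd hX with h | h
    · exact ⟨f₀, hf₀, h2, hαf, h⟩
    · refine ⟨1 - f₀, ?_, ?_, ?_, ?_⟩
      · have e : (1 - f₀ : ℚ[X]) = -(f₀ - C 1) := by rw [C_1]; ring
        rw [e, natDegree_neg, natDegree_sub_C]; exact hf₀
      · intro q hq hqd
        have e : (1 - f₀) * (1 - f₀ - 1) = f₀ * (f₀ - 1) := by ring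
        rw [e]
        apply h2 q hq
        rw [derivative_sub, derivative_one, zero_sub, dvd_neg] at hqd
        exact hqd
      · have e : (1 - f₀) * (1 - f₀ - 1) = f₀ * (f₀ - 1) := by ring
        rw [e]; exact hαf
      · rw [← dvd_neg, neg_sub]; exact h
  have hf0 : f ≠ 0 := by rintro rfl; simp at hf
  obtain ⟨h, hfh, hnd⟩ := exists_eq_pow_rootMultiplicity_mul_and_not_dvd f hf0 0
  rw [C_0, sub_zero] at hfh hnd
  refine ⟨f, f.rootMultiplicity 0, h, hf, hc, hm, hfh, ?_, ?_⟩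
  · have : 0 < f.rootMultiplicity 0 := by
      rw [rootMultiplicity_pos hf0]
      obtain ⟨w, hw⟩ := hXf
      rw [IsRoot, hw]; simp
    exact this
  · intro h0
    apply hnd
    have := dvd_iff_isRoot.mpr h0
    rwa [C_0, sub_zero] at this

lemma small_value (v : AbsoluteValue K ℝ) (g : ℚ[X]) (β : K) {δ : ℝ} (hδ : 0 < δ) (m : ℕ)
    (hm : 1 ≤ m) : ∃ ρ : ℝ, 0 < ρ ∧ ∀ x : K, v x ≤ ρ → v (aeval (β * x) (X ^ m * g)) ≤ δ := by
  set B : ℝ := ∑ i ∈ Finset.range (g.natDegree + 1), v (algebraMap ℚ K (g.coeff i)) with hB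
  have hB0 : 0 ≤ B := Finset.sum_nonneg fun i _ => v.nonneg _
  have hβ0 : 0 ≤ v β := v.nonneg β
  set ρ₁ : ℝ := min 1 (δ / (B + 1)) with hρ₁
  have hρ₁0 : 0 < ρ₁ := by positivity
  refine ⟨ρ₁ / (v β + 1), by positivity, fun x hx => ?_⟩
  have h1 : v (β * x) ≤ ρ₁ := by
    rw [v.map_mul]
    calc v β * v x ≤ (v β + 1) * (ρ₁ / (v β + 1)) := by
          gcongr
          linarith
      _ = ρ₁ := by field_simp
  set y := β * x with hy
  have h2 : v y ≤ 1 := h1.trans (min_le_left _ _)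
  have hy0 : 0 ≤ v y := v.nonneg y
  have h3 : v (aeval y g) ≤ B := by
    rw [aeval_eq_sum_range]
    refine (v.sum_le _ _).trans ?_
    rw [hB]
    refine Finset.sum_le_sum fun i _ => ?_
    rw [Algebra.smul_def, v.map_mul, v.map_pow]
    calc v (algebraMap ℚ K (g.coeff i)) * v y ^ i ≤ v (algebraMap ℚ K (g.coeff i)) * 1 := by
          gcongr
          exact pow_le_one₀ hy0 h2
      _ = _ := mul_one _
  rw [map_mul, map_pow, aeval_X, v.map_mul, v.map_pow]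
  have h4 : v y ^ m ≤ ρ₁ := by
    calc v y ^ m ≤ v y ^ 1 := pow_le_pow_of_le_one hy0 h2 hm
      _ = v y := pow_one _
      _ ≤ ρ₁ := h1
  calc v y ^ m * v (aeval y g) ≤ (δ / (B + 1)) * B := by
        gcongr
        exact h4.trans (min_le_right _ _)
    _ ≤ δ := by
        rw [div_mul_eq_mul_div, div_le_iff₀ (by positivity)]
        nlinarith

/-- localisation near `0` -/
theorem FI_of_small (T : Set (HeightOneSpectrum (𝓞 K))) (hT : T.Finite) (η : ℝ) (hη : 0 < η)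
    (H : FIOn {x : K | x ≠ 0 ∧ (∀ v : InfinitePlace K, v x ≤ η) ∧ ∀ p ∈ T, av p x ≤ η}
      (X * (X - 1) : K[X]) 1) : FI (X * (X - 1) : K[X]) 1 := by
  refine FI_of_large T hT η⁻¹ (AffABC_to_FIOn (AffABC_mono ?_ (AffABC_inv (FIOn_to_AffABC H))))
  intro x hx
  obtain ⟨h1, h2⟩ := hx
  have hpos : 0 < η⁻¹ := inv_pos.mpr hη
  obtain ⟨v₀⟩ : Nonempty (InfinitePlace K) := inferInstance
  have hx0 : x ≠ 0 := by
    rintro rfl
    have := h1 v₀
    rw [map_zero] at this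
    linarith
  have key : ∀ v : AbsoluteValue K ℝ, η⁻¹ ≤ v x → v x⁻¹ ≤ η := by
    intro v hv
    rw [map_inv₀]
    exact inv_le_of_inv_le₀ hη hv
  exact ⟨inv_ne_zero hx0, fun v => key v.1 (h1 v), fun p hp => key (pv p) (h2 p hp)⟩

/-- The set of good points. -/
def GenSmall (T : Set (HeightOneSpectrum (𝓞 K))) (δ : ℝ) (N : ℕ) : Set K :=
  {z | (∃ y, z = y ^ N) ∧ IntermediateField.adjoin ℚ {z} = ⊤ ∧
    (∀ v : InfinitePlace K, v z ≤ δ) ∧ ∀ p ∈ T, av p z ≤ δ}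

theorem FI_of_gen (T : Set (HeightOneSpectrum (𝓞 K))) (hT : T.Finite) (δ : ℝ) (hδ : 0 < δ)
    (N : ℕ) (hN : 1 ≤ N) (H : FIOn (GenSmall T δ N) (X * (X - 1) : K[X]) 1) :
    FI (X * (X - 1) : K[X]) 1 := by
  classical
  obtain ⟨φ₀⟩ : Nonempty (K →ₐ[ℚ] ℂ) := ⟨IsAlgClosed.lift⟩
  obtain ⟨α, hα0, hα⟩ := exists_alpha φ₀
  choose f m h hf hcrit hmin hfh hm hh using fun k : ℕ => exists_belyi_zero (α ^ k)
  set d := Fintype.card (K →ₐ[ℚ] ℂ) with hd
  set δ' : ℝ := min δ 1 with hδ'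
  have hδ'0 : 0 < δ' := lt_min hδ one_pos
  have hev : ∀ {P : ℝ → Prop}, (∃ ρ : ℝ, 0 < ρ ∧ P ρ) → (∀ a b, a ≤ b → P b → P a) →
      ∀ᶠ η in nhdsWithin (0 : ℝ) (Set.Ioi 0), P η := by
    rintro P ⟨ρ, hρ, hP⟩ hmono
    filter_upwards [Ioo_mem_nhdsGT hρ] with η hη
    exact hmono _ _ hη.2.le hP
  have E1 : ∀ᶠ η in nhdsWithin (0 : ℝ) (Set.Ioi 0), ∀ k : Fin (d + 1), ∀ v : InfinitePlace K,
      ∀ x : K, v x ≤ η → v (aeval (α ^ (k : ℕ) * x) (f k)) ≤ δ' := by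
    refine Filter.eventually_all.mpr fun k => Filter.eventually_all.mpr fun v => ?_
    refine hev ?_ (fun a b hab hb x hx => hb x (hx.trans hab))
    rw [hfh k]
    exact small_value v.1 (h k) (α ^ (k : ℕ)) hδ'0 (m k) (hm k)
  have E2 : ∀ᶠ η in nhdsWithin (0 : ℝ) (Set.Ioi 0), ∀ k : Fin (d + 1), ∀ p ∈ T,
      ∀ x : K, av p x ≤ η → av p (aeval (α ^ (k : ℕ) * x) (f k)) ≤ δ' := by
    refine Filter.eventually_all.mpr fun k => (Filter.eventually_all_finite hT).mpr fun p _ => ?_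
    refine hev ?_ (fun a b hab hb x hx => hb x (hx.trans hab))
    rw [hfh k]
    exact small_value (pv p) (h k) (α ^ (k : ℕ)) hδ'0 (m k) (hm k)
  have E3 : ∀ᶠ η in nhdsWithin (0 : ℝ) (Set.Ioi 0), ∀ k k' : Fin (d + 1), ∀ ψ : K →ₐ[ℚ] ℂ,
      k ≠ k' → ψ ≠ φ₀ → ∀ u w : ℂ, u ≠ 0 → w ≠ 0 → ‖u‖ ≤ η → ‖w‖ ≤ η →
      ¬ (((φ₀ α ^ (k : ℕ) * u) ^ m k *
            ((h k).map (algebraMap ℚ ℂ)).eval (φ₀ α ^ (k : ℕ) * u)) ^ N =
          ((ψ α ^ (k : ℕ) * w) ^ m k *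
            ((h k).map (algebraMap ℚ ℂ)).eval (ψ α ^ (k : ℕ) * w)) ^ N ∧
        ((φ₀ α ^ (k' : ℕ) * u) ^ m k' *
            ((h k').map (algebraMap ℚ ℂ)).eval (φ₀ α ^ (k' : ℕ) * u)) ^ N =
          ((ψ α ^ (k' : ℕ) * w) ^ m k' *
            ((h k').map (algebraMap ℚ ℂ)).eval (ψ α ^ (k' : ℕ) * w)) ^ N) := by
    refine Filter.eventually_all.mpr fun k => Filter.eventually_all.mpr fun k' =>
      Filter.eventually_all.mpr fun ψ => ?_
    by_cases hkk : k = k'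
    · exact Filter.Eventually.of_forall fun η hcon => absurd hkk hcon
    by_cases hψ : ψ = φ₀
    · exact Filter.Eventually.of_forall fun η _ hcon => absurd hψ hcon
    have hmap0 : ∀ k : ℕ, ((h k).map (algebraMap ℚ ℂ)).eval 0 ≠ 0 := by
      intro k h0
      apply hh k
      have h1 := eval_map_algebraMap (B := ℂ) (h k) 0
      rw [h0, ← map_zero (algebraMap ℚ ℂ), aeval_algebraMap_apply] at h1
      have h2 : algebraMap ℚ ℂ ((h k).eval 0) = 0 := by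
        rw [← coe_aeval_eq_eval, ← h1, map_zero]
      exact (map_eq_zero _).mp h2
    obtain ⟨ρ, hρ, hP⟩ := pair_lemma ((map_ne_zero φ₀).mpr hα0) ((map_ne_zero ψ).mpr hα0)
      (hα ψ hψ) (hmap0 k) (hmap0 k') (hm k) (hm k') hN (k := k) (k' := k')
      (fun hcon => hkk (Fin.ext hcon))
    refine hev ⟨ρ, hρ, fun _ _ => hP⟩ ?_
    intro a b hab hb h1 h2 u w hu hw hu' hw'
    exact hb h1 h2 u w hu hw (hu'.trans hab) (hw'.trans hab)
  obtain ⟨η, ⟨⟨e1, e2⟩, e3⟩, hη⟩ := (((E1.and E2).and E3).and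
    self_mem_nhdsWithin).exists
  have hη0 : 0 < η := hη
  -- the pullbacks
  have H1 := FIOn_pow _ N hN H
  have H2 : ∀ k < d + 1, FIOn {x : K | aeval (α ^ k * x) (f k) ∈ {y : K | y ^ N ∈ GenSmall T δ N}}
      (X * (X - 1) : K[X]) 1 := by
    intro k _
    refine FIOn_belyi _ (f k) (hf k) (hcrit k) (α ^ k) (pow_ne_zero _ hα0) ?_ (hmin k) H1
    rw [hfh k]
    exact ((dvd_pow_self X (by have := hm k; omega)).mul_right _).mul_right _
  have H3 := FIOn_iUnion _ _ _ _ H2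
  refine FI_of_small T hT η hη0 (FIOn_mono ?_ H3)
  rintro x ⟨hx0, hxinf, hxfin⟩
  have hφ : ∀ φ : K →ₐ[ℚ] ℂ, φ x ≠ 0 ∧ ‖φ x‖ ≤ η := by
    intro φ
    refine ⟨(map_ne_zero φ).mpr hx0, ?_⟩
    have := hxinf (InfinitePlace.mk φ.toRingHom)
    rwa [InfinitePlace.apply] at this
  have hval : ∀ (φ : K →ₐ[ℚ] ℂ) (k : ℕ), φ (aeval (α ^ k * x) (f k)) =
      (φ α ^ k * φ x) ^ m k * ((h k).map (algebraMap ℚ ℂ)).eval (φ α ^ k * φ x) := by
    intro φ k
    rw [← aeval_algHom_apply, map_mul, map_pow, eval_map_algebraMap]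
    conv_lhs => rw [hfh k]
    rw [map_mul, map_pow, aeval_X]
  have hex : ∃ k : Fin (d + 1), ∀ ψ : K →ₐ[ℚ] ℂ, ψ ≠ φ₀ →
      φ₀ (aeval (α ^ (k : ℕ) * x) (f k)) ^ N ≠ ψ (aeval (α ^ (k : ℕ) * x) (f k)) ^ N := by
    by_contra hcon
    push Not at hcon
    choose ψ hψ hψN using hcon
    obtain ⟨k, k', hkk, heq⟩ := Fintype.exists_ne_map_eq_of_card_lt ψ (by simp [hd])
    have h1 := hψN k
    have h2 := hψN k'
    rw [← heq] at h2
    rw [hval, hval] at h1 h2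
    exact e3 k k' (ψ k) hkk (hψ k) (φ₀ x) (ψ k x) (hφ _).1 (hφ _).1 (hφ _).2 (hφ _).2 ⟨h1, h2⟩
  obtain ⟨k, hk⟩ := hex
  refine ⟨k, k.2, ?_⟩
  set y := aeval (α ^ (k : ℕ) * x) (f k) with hy
  have hpow : ∀ v : AbsoluteValue K ℝ, v y ≤ δ' → v (y ^ N) ≤ δ := by
    intro v hv
    have h1 : v y ≤ 1 := hv.trans (min_le_right _ _)
    rw [v.map_pow]
    calc v y ^ N ≤ v y ^ 1 := pow_le_pow_of_le_one (v.nonneg _) h1 hN
      _ = v y := pow_one _
      _ ≤ δ := hv.trans (min_le_left _ _)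
  refine ⟨⟨y, rfl⟩, ?_, fun v => hpow v.1 (e1 k v x (hxinf v)),
    fun p hp => hpow (pv p) (e2 k p hp x (hxfin p hp))⟩
  have hsp : ∀ x : K, ((minpoly ℚ x).map (algebraMap ℚ ℂ)).Splits := fun x =>
    IsAlgClosed.splits _
  refine (Field.primitive_element_iff_algHom_eq_of_eval ℚ ℂ hsp (y ^ N) φ₀).mpr ?_
  intro ψ hψ
  by_contra hne
  refine hk ψ (Ne.symm hne) ?_
  rw [map_pow, map_pow] at hψ
  exact hψ

end Pool.Agent.Work.MP_a793bb_nt.H6
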