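import Pool.Agent.Work.MP_a793bb_nt.H6FormIneq

set_option autoImplicit false
set_option linter.unusedSectionVars false

/-!
For a finite set of places of a number field containing all the infinite ones, a bounded power of
any nonzero element is close to one of `0, 1, ∞` at all these places simultaneously.
-/

namespace Pool.Agent.Work.MP_a793bb_nt.H6

open NumberField IsDedekindDomain Height Polynomial

variable {K : Type*} [Field K] [NumberField K]

/-! ### finite places -/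

lemma av_le_half {p : HeightOneSpectrum (𝓞 K)} {x : K} (h : av p x < 1) : av p x ≤ 1 / 2 := by
  by_cases hx : x = 0
  · rw [hx, av_zero]; norm_num
  · have h1 := lN_le_of_av_lt_one p hx h
    have h2 : (2 : ℝ) ≤ Ideal.absNorm p.asIdeal := by
      have := HeightOneSpectrum.one_lt_absNorm p
      exact_mod_cast this
    have h3 : Real.log 2 ≤ lN p := Real.log_le_log (by norm_num) h2
    have h4 := av_pos p hx
    rw [av_inv] at h1
    have h5 : Real.log 2 ≤ Real.log (av p x)⁻¹ := h3.trans h1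
    have h6 : (2 : ℝ) ≤ (av p x)⁻¹ := (Real.log_le_log_iff (by norm_num) (inv_pos.mpr h4)).mp h5
    rw [le_inv_comm₀ (by norm_num) h4] at h6
    linarith

lemma av_le_of_mem_pow {p : HeightOneSpectrum (𝓞 K)} {a : 𝓞 K} {k : ℕ}
    (h : a ∈ p.asIdeal ^ k) : av p (a : K) ≤ (1 / 2) ^ k := by
  have h1 : p.valuation K (a : K) ≤ WithZero.exp (-(k : ℤ)) := by
    rw [show (a : K) = algebraMap (𝓞 K) K a from rfl, HeightOneSpectrum.valuation_of_algebraMap]
    exact (p.intValuation_le_pow_iff_mem a k).mpr h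
  have h3 : av p (a : K) ≤ ((Ideal.absNorm p.asIdeal : ℝ)⁻¹) ^ k := by
    rw [av_eq]
    have := (WithZeroMulInt.toNNReal_strictMono
      (HeightOneSpectrum.one_lt_absNorm_nnreal p)).monotone h1
    refine le_trans (NNReal.coe_le_coe.mpr this) ?_
    have h7 : WithZeroMulInt.toNNReal (HeightOneSpectrum.absNorm_ne_zero p)
        (WithZero.exp (-(k : ℤ))) = (Ideal.absNorm p.asIdeal : NNReal) ^ (-(k : ℤ)) := by
      rw [WithZeroMulInt.toNNReal_neg_apply _ (by simp)]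
      rfl
    rw [h7]
    simp
  refine h3.trans ?_
  have h2 : (2 : ℝ) ≤ Ideal.absNorm p.asIdeal := by
    have := HeightOneSpectrum.one_lt_absNorm p
    exact_mod_cast this
  have h4 : ((Ideal.absNorm p.asIdeal : ℝ))⁻¹ ≤ 1 / 2 := by
    rw [inv_le_comm₀ (by linarith) (by norm_num)]
    simpa using h2
  gcongr

/-- closeness to one of the three points `0, 1, ∞` -/
def Near (v : AbsoluteValue K ℝ) (η : ℝ) (y : K) : Prop :=
  v y ≤ η ∨ η⁻¹ ≤ v y ∨ v (y - 1) ≤ η

/-- the absolute value attached to a prime -/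
noncomputable def pv (p : HeightOneSpectrum (𝓞 K)) : AbsoluteValue K ℝ := (FinitePlace.mk p).1

lemma pv_apply (p : HeightOneSpectrum (𝓞 K)) (x : K) : pv p x = av p x := rfl

lemma fin_near (p : HeightOneSpectrum (𝓞 K)) (η : ℝ) (hη : 0 < η) :
    ∃ N : ℕ, 1 ≤ N ∧ ∀ x : K, x ≠ 0 → ∀ n : ℕ, N ∣ n → 1 ≤ n → Near (pv p) η (x ^ n) := by
  obtain ⟨k, hk⟩ := exists_pow_lt_of_lt_one hη (by norm_num : (1 / 2 : ℝ) < 1)
  have hne : p.asIdeal ^ k ≠ ⊥ := pow_ne_zero _ p.ne_bot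
  have : Finite (𝓞 K ⧸ p.asIdeal ^ k) := Ideal.finiteQuotientOfFreeOfNeBot _ hne
  set u := Nat.card (𝓞 K ⧸ p.asIdeal ^ k)ˣ with hu
  have hu1 : 1 ≤ u := Nat.card_pos
  refine ⟨u * (k + 1), Nat.mul_pos hu1 (Nat.succ_pos k), fun x hx n hn hn1 => ?_⟩
  have hkn : k ≤ n := by
    have h1 : u * (k + 1) ≤ n := Nat.le_of_dvd hn1 hn
    nlinarith
  have hpow : ((1 : ℝ) / 2) ^ n ≤ (1 / 2) ^ k :=
    pow_le_pow_of_le_one (by norm_num) (by norm_num) hkn
  rcases lt_trichotomy (av p x) 1 with h | h | h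
  · left
    rw [pv_apply, av_pow]
    have h1 := av_le_half h
    have : (av p x) ^ n ≤ (1 / 2) ^ n := pow_le_pow_left₀ (av_nonneg _ _) h1 n
    linarith
  · right; right
    rw [pv_apply]
    -- write x = a / b with a, b prime to p
    have hv : p.valuation K x ≤ 1 := by
      have h1 : av p x = av p 1 := by rw [h, av_one]
      rw [av_eq_av_iff] at h1
      rw [h1]; simp
    obtain ⟨a, b, hab⟩ := p.exists_primeCompl_mul_eq_of_integer x hv
    have key : ∀ c : 𝓞 K, c ∉ p.asIdeal → (c ^ n - 1) ∈ p.asIdeal ^ k := by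
      intro c hc
      have hcu : IsUnit (Ideal.Quotient.mk (p.asIdeal ^ k) c) := by
        rw [← Ideal.Quotient.mk_eq_mk, Ideal.Quotient.mk_eq_mk]
        have hmax : p.asIdeal.IsMaximal := p.isMaximal
        have hcop : IsCoprime (Ideal.span {c}) (p.asIdeal ^ k) := by
          apply IsCoprime.pow_right
          rw [Ideal.isCoprime_iff_sup_eq]
          rw [sup_comm]
          refine (Ideal.isMaximal_def.mp hmax).2 _ (by
            rw [lt_iff_le_and_ne]
            refine ⟨le_sup_left, fun he => hc ?_⟩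
            have : Ideal.span {c} ≤ p.asIdeal := by
              rw [he]; exact le_sup_right
            exact this (Ideal.mem_span_singleton_self c))
        obtain ⟨i, hi, j, hj, hij⟩ := Ideal.isCoprime_iff_exists.mp hcop
        obtain ⟨d, rfl⟩ := Ideal.mem_span_singleton'.mp hi
        rw [isUnit_iff_exists_inv']
        refine ⟨Ideal.Quotient.mk _ d, ?_⟩
        rw [← map_mul, ← map_one (Ideal.Quotient.mk (p.asIdeal ^ k)), Ideal.Quotient.eq]
        have : d * c - 1 = -j := by rw [← hij]; ring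
        rw [this]
        exact neg_mem hj
      obtain ⟨w, hw⟩ := hcu
      have h1 : w ^ n = 1 := by
        have hun : u ∣ n := (Dvd.intro _ rfl).trans hn
        obtain ⟨m, rfl⟩ := hun
        rw [pow_mul, hu, pow_card_eq_one', one_pow]
      rw [← Ideal.Quotient.eq, map_pow, map_one, ← hw, ← Units.val_pow_eq_pow_val, h1]
      rfl
    have hb : (b : 𝓞 K) ∉ p.asIdeal := b.2
    have hbv : av p ((b : 𝓞 K) : K) = 1 := by
      have h1 : p.valuation K (algebraMap (𝓞 K) K (b : 𝓞 K)) = 1 :=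
        (p.valuation_eq_one_iff_notMem).mpr hb
      have h2 : av p ((b : 𝓞 K) : K) = av p 1 := by
        rw [av_eq_av_iff, map_one]; exact h1
      rw [h2, av_one]
    have hab' : x * ((b : 𝓞 K) : K) = ((a : 𝓞 K) : K) := hab
    have hav : av p ((a : 𝓞 K) : K) = 1 := by
      rw [← hab', av_mul, h, hbv]; norm_num
    have ha : (a : 𝓞 K) ∉ p.asIdeal := by
      rw [← (p.valuation_eq_one_iff_notMem (K := K))]
      have h2 : av p ((a : 𝓞 K) : K) = av p 1 := by rw [hav, av_one]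
      rw [av_eq_av_iff, map_one] at h2
      exact h2
    have e1 := av_le_of_mem_pow (key a ha)
    have e2 := av_le_of_mem_pow (key b hb)
    have hb0 : ((b : 𝓞 K) : K) ≠ 0 := by
      intro h0; rw [h0, av_zero] at hbv; norm_num at hbv
    have e3 : x ^ n - 1 = ((((a : 𝓞 K) ^ n - 1 : 𝓞 K) : K) - (((b : 𝓞 K) ^ n - 1 : 𝓞 K) : K)) *
        ((((b : 𝓞 K) : K)) ^ n)⁻¹ := by
      have : x = ((a : 𝓞 K) : K) * (((b : 𝓞 K) : K))⁻¹ := by
        rw [← hab']; field_simp
      rw [this, mul_pow, inv_pow]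
      push_cast
      field_simp
      ring
    rw [e3, av_mul, av_inv, av_pow, hbv, one_pow, inv_one, mul_one, sub_eq_add_neg]
    refine (av_add_le _ _ _).trans ?_
    rw [av_neg]
    exact max_le (e1.trans hk.le) (e2.trans hk.le)
  · right; left
    rw [pv_apply, av_pow]
    have h0 := av_pos p hx
    have h1 : av p x⁻¹ < 1 := by rw [av_inv]; exact inv_lt_one_of_one_lt₀ h
    have h2 := av_le_half h1
    rw [av_inv] at h2
    have h3 : ((av p x)⁻¹) ^ n ≤ (1 / 2) ^ n := pow_le_pow_left₀ (by positivity) h2 n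
    rw [inv_pow] at h3
    rw [inv_le_comm₀ hη (by positivity)]
    linarith

/-! ### compact groups -/

lemma exists_pow_mem_nhds_one {G : Type*} [Group G] [TopologicalSpace G] [IsTopologicalGroup G]
    [CompactSpace G] (U : Set G) (hU : U ∈ nhds (1 : G)) :
    ∃ M : ℕ, ∀ g : G, ∃ n : ℕ, 1 ≤ n ∧ n ≤ M ∧ g ^ n ∈ U := by
  obtain ⟨V, hVU, hVo, hV1⟩ := mem_nhds_iff.mp hU
  have hcov : (Set.univ : Set G) ⊆ ⋃ n : ℕ, {g : G | g ^ (n + 1) ∈ V} := by
    intro g _
    have h1 : MapClusterPt (1 : G) Filter.atTop (g ^ · : ℕ → G) := mapClusterPt_one_atTop_pow g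
    have h2 := h1.frequently (hVo.mem_nhds hV1)
    obtain ⟨n, hn1, hn2⟩ := (h2.and_eventually (Filter.eventually_ge_atTop 1)).exists
    rw [Set.mem_iUnion]
    refine ⟨n - 1, ?_⟩
    rw [Set.mem_ofPred_eq, Nat.sub_add_cancel hn2]
    exact hn1
  obtain ⟨t, ht⟩ := isCompact_univ.elim_finite_subcover _
    (fun n => hVo.preimage (continuous_pow (n + 1))) hcov
  refine ⟨t.sup id + 1, fun g => ?_⟩
  have := ht (Set.mem_univ g)
  simp only [Set.mem_iUnion] at this
  obtain ⟨n, hn, hg⟩ := this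
  refine ⟨n + 1, by omega, ?_, hVU hg⟩
  have : n ≤ t.sup id := Finset.le_sup (f := id) hn
  omega

/-! ### infinite places -/

lemma norm_pow_sub_one_le {u : ℂ} (hu : ‖u‖ = 1) (k : ℕ) : ‖u ^ k - 1‖ ≤ k * ‖u - 1‖ := by
  induction k with
  | zero => simp
  | succ k ih =>
    have e : u ^ (k + 1) - 1 = u * (u ^ k - 1) + (u - 1) := by ring
    rw [e]
    refine (norm_add_le _ _).trans ?_
    rw [norm_mul, hu, one_mul]
    push_cast
    linarith

lemma pow_far {a ρ : ℝ} {L : ℕ} (ha : 0 < a) (hρ : 0 ≤ ρ) (h : a < |ρ - 1|) :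
    1 + L * a ≤ ρ ^ L ∨ ρ ^ L * (1 + L * a) ≤ 1 := by
  rcases lt_abs.mp h with h1 | h1
  · left
    have h2 : 1 + a ≤ ρ := by linarith
    calc 1 + L * a ≤ (1 + a) ^ L := one_add_mul_le_pow (by linarith) L
      _ ≤ ρ ^ L := pow_le_pow_left₀ (by linarith) h2 L
  · right
    have h2 : ρ ≤ 1 - a := by linarith
    have h3 : ρ ^ L ≤ (1 - a) ^ L := pow_le_pow_left₀ hρ h2 L
    have h4 : 1 + L * a ≤ (1 + a) ^ L := one_add_mul_le_pow (by linarith) L
    have h5 : 0 ≤ 1 - a := hρ.trans h2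
    calc ρ ^ L * (1 + L * a) ≤ (1 - a) ^ L * (1 + a) ^ L := by gcongr
      _ = ((1 - a) * (1 + a)) ^ L := (mul_pow _ _ _).symm
      _ ≤ 1 ^ L := by
          apply pow_le_pow_left₀ (mul_nonneg h5 (by linarith))
          nlinarith
      _ = 1 := one_pow L

lemma near_of_not_near {η : ℝ} (hη : 0 < η) (L : ℕ) (hL : 2 / η ^ 2 ≤ L) {c u : ℂ}
    (hu1 : ‖u‖ = 1) (hcu : c = ‖c‖ * u) {s j j' : ℕ} (hjj : j < j') (hj : j ≤ s)
    (hu : (L : ℝ) ^ s * ‖u - 1‖ ≤ η / 4) (h1 : ¬ ‖c ^ (L ^ j) - 1‖ ≤ η) :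
    ‖c ^ (L ^ j')‖ ≤ η ∨ η⁻¹ ≤ ‖c ^ (L ^ j')‖ := by
  have hLpos : (0 : ℝ) < L := lt_of_lt_of_le (by positivity) hL
  have hL1 : 1 ≤ L := by exact_mod_cast hLpos
  set w := c ^ (L ^ j) with hw
  set u' := u ^ (L ^ j) with hu'
  have hwu : w = (‖w‖ : ℂ) * u' := by
    rw [hw, hu', norm_pow]
    conv_lhs => rw [hcu]
    rw [mul_pow]; push_cast; rfl
  have hu'1 : ‖u' - 1‖ ≤ η / 4 := by
    refine (norm_pow_sub_one_le hu1 _).trans ?_
    have : (L : ℝ) ^ j ≤ (L : ℝ) ^ s := pow_le_pow_right₀ (by exact_mod_cast hL1) hj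
    push_cast
    calc (L : ℝ) ^ j * ‖u - 1‖ ≤ (L : ℝ) ^ s * ‖u - 1‖ := by gcongr
      _ ≤ _ := hu
  have hu'n : ‖u'‖ = 1 := by rw [hu', norm_pow, hu1, one_pow]
  have hfar : η * (3 / 4) < |‖w‖ - 1| := by
    by_contra hcon
    push Not at hcon
    apply h1
    have e : w - 1 = ((‖w‖ : ℂ) - 1) * u' + (u' - 1) := by
      conv_lhs => rw [hwu]
      ring
    rw [e]
    refine (norm_add_le _ _).trans ?_
    rw [norm_mul, hu'n, mul_one]
    have e2 : ‖((‖w‖ : ℂ) - 1)‖ = |‖w‖ - 1| := by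
      rw [← Complex.ofReal_one, ← Complex.ofReal_sub, Complex.norm_real, Real.norm_eq_abs]
    rw [e2]
    linarith
  obtain ⟨d, rfl⟩ : ∃ d, j' = j + 1 + d := ⟨j' - j - 1, by omega⟩
  set e := L ^ (1 + d) with he
  have hLe : (L : ℝ) ≤ e := by
    rw [he]; push_cast
    calc (L : ℝ) = L ^ 1 := (pow_one _).symm
      _ ≤ L ^ (1 + d) := pow_le_pow_right₀ (by exact_mod_cast hL1) (by omega)
  have hce : c ^ (L ^ (j + 1 + d)) = w ^ e := by
    rw [hw, he, ← pow_mul, ← pow_add, add_assoc]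
  rw [hce, norm_pow]
  have hbig : η⁻¹ ≤ 1 + e * (η * (3 / 4)) := by
    have h2 : 2 / η ^ 2 * (η * (3 / 4)) ≤ e * (η * (3 / 4)) := by
      have : 2 / η ^ 2 ≤ e := hL.trans hLe
      gcongr
    have h3 : 2 / η ^ 2 * (η * (3 / 4)) = (3 / 2) * η⁻¹ := by
      field_simp; norm_num
    have h4 : 0 < η⁻¹ := inv_pos.mpr hη
    linarith
  rcases pow_far (L := e) (mul_pos hη (by norm_num : (0 : ℝ) < 3 / 4)) (norm_nonneg w) hfar with h | h
  · right; linarith
  · left
    have h5 : 0 ≤ ‖w‖ ^ e := by positivity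
    have h6 : ‖w‖ ^ e * η⁻¹ ≤ 1 := by
      refine le_trans ?_ h
      gcongr
    rw [mul_inv_le_iff₀ hη] at h6
    linarith

lemma Near.mono {v : AbsoluteValue K ℝ} {η η' : ℝ} (hη : 0 < η) (h : η ≤ η') {y : K}
    (hn : Near v η y) : Near v η' y := by
  rcases hn with h1 | h1 | h1
  · left; linarith
  · right; left
    have : η'⁻¹ ≤ η⁻¹ := inv_anti₀ hη h
    linarith
  · right; right; linarith

/-- **Near-cusp lemma.** -/
theorem exists_near (T : Finset (HeightOneSpectrum (𝓞 K))) (η : ℝ) (hη : 0 < η) :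
    ∃ nmax : ℕ, ∀ x : K, x ≠ 0 → ∃ n : ℕ, 1 ≤ n ∧ n ≤ nmax ∧
      (∀ v : InfinitePlace K, Near v.1 η (x ^ n)) ∧ ∀ p ∈ T, Near (pv p) η (x ^ n) := by
  classical
  choose N hN1 hN using fun p : HeightOneSpectrum (𝓞 K) => fin_near p η hη
  set N₀ := ∏ p ∈ T, N p with hN₀
  have hN₀1 : 1 ≤ N₀ := Nat.one_le_iff_ne_zero.mpr
    (Finset.prod_ne_zero_iff.mpr fun p _ => Nat.one_le_iff_ne_zero.mp (hN1 p))
  set s := Fintype.card (InfinitePlace K) with hs
  obtain ⟨L, hL⟩ := exists_nat_ge (2 / η ^ 2)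
  have hLpos : (0 : ℝ) < L := lt_of_lt_of_le (by positivity) hL
  have hL1 : 1 ≤ L := by exact_mod_cast hLpos
  set ζ : ℝ := η / 4 / (L : ℝ) ^ s with hζ
  have hζ0 : 0 < ζ := by positivity
  set U : Set (InfinitePlace K → Circle) := {g | ∀ v, ‖(g v : ℂ) - 1‖ < ζ} with hU
  have hUnhds : U ∈ nhds (1 : InfinitePlace K → Circle) := by
    have : U = ⋂ v : InfinitePlace K, {g | ‖(g v : ℂ) - 1‖ < ζ} := by
      ext g; simp [hU]
    rw [this]
    refine (Filter.iInter_mem).mpr fun v => ?_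
    have hcont : Continuous fun g : InfinitePlace K → Circle => ‖(g v : ℂ) - 1‖ := by
      fun_prop
    refine (isOpen_lt hcont continuous_const).mem_nhds ?_
    simp [hζ0]
  obtain ⟨M, hM⟩ := exists_pow_mem_nhds_one U hUnhds
  refine ⟨N₀ * (M * L ^ s), fun x hx => ?_⟩
  set y := x ^ N₀ with hy
  have hy0 : y ≠ 0 := pow_ne_zero _ hx
  have hemb : ∀ v : InfinitePlace K, v.embedding y ≠ 0 := fun v =>
    (map_ne_zero v.embedding).mpr hy0
  -- phases
  have hph : ∀ v : InfinitePlace K, ∃ u : Circle, v.embedding y = (‖v.embedding y‖ : ℂ) * u := by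
    intro v
    have h0 : (‖v.embedding y‖ : ℂ) ≠ 0 := by
      exact_mod_cast (norm_ne_zero_iff.mpr (hemb v))
    refine ⟨⟨v.embedding y / ‖v.embedding y‖, ?_⟩, ?_⟩
    · rw [Submonoid.unitSphere, Submonoid.mem_mk]
      simp [hemb v]
    · change _ = (‖v.embedding y‖ : ℂ) * (v.embedding y / ‖v.embedding y‖)
      field_simp
  choose g hg using hph
  obtain ⟨n₁, hn₁, hn₁M, hgU⟩ := hM g
  set z := y ^ n₁ with hz
  have hz0 : z ≠ 0 := pow_ne_zero _ hy0
  have hzph : ∀ v : InfinitePlace K,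
      v.embedding z = (‖v.embedding z‖ : ℂ) * ((g v : ℂ) ^ n₁) := by
    intro v
    rw [hz, map_pow, norm_pow]
    conv_lhs => rw [hg v]
    rw [mul_pow]; push_cast; rfl
  have hg1 : ∀ v, ‖((g v : ℂ) ^ n₁)‖ = 1 := by
    intro v; rw [norm_pow, Circle.norm_coe, one_pow]
  have hg2 : ∀ v, (L : ℝ) ^ s * ‖((g v : ℂ) ^ n₁) - 1‖ ≤ η / 4 := by
    intro v
    have h1 : ‖((g v : ℂ) ^ n₁) - 1‖ < ζ := by
      have := hgU v
      simpa using this
    have h2 : (L : ℝ) ^ s * ζ = η / 4 := by rw [hζ]; field_simp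
    rw [← h2]
    gcongr
  have hbad : ∃ j ≤ s, ∀ v : InfinitePlace K, Near v.1 η (z ^ (L ^ j)) := by
    by_contra hcon
    push Not at hcon
    have hch : ∀ j : Fin (s + 1), ∃ v : InfinitePlace K, ¬ Near v.1 η (z ^ (L ^ (j : ℕ))) :=
      fun j => hcon j (by omega)
    choose f hf using hch
    obtain ⟨a, b, hab, hfab⟩ := Fintype.exists_ne_map_eq_of_card_lt f (by simp [hs])
    wlog hlt : a < b generalizing a b
    · exact this b a hab.symm hfab.symm (lt_of_le_of_ne (not_lt.mp hlt) hab.symm)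
    have h1 := hf a
    have h2 := hf b
    rw [← hfab] at h2
    set v := f a with hv
    have hval : ∀ w : K, v.1 w = ‖v.embedding w‖ := fun w => (v.norm_embedding_eq w).symm
    simp only [Near, hval, map_pow, map_sub, map_one, not_or, not_le] at h1 h2
    have h3 := near_of_not_near hη L hL (hg1 v) (hzph v) (s := s) (j := a) (j' := b) hlt
      (by omega) (hg2 v) (not_le.mpr h1.2.2)
    rcases h3 with h3 | h3
    · exact absurd h3 (not_le.mpr h2.1)
    · exact absurd h3 (not_le.mpr h2.2.1)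
  obtain ⟨j, hj, hnear⟩ := hbad
  have hxz : ∀ k : ℕ, z ^ k = x ^ (N₀ * (n₁ * k)) := by
    intro k; rw [hz, hy, ← pow_mul, ← pow_mul]
  have hLj : 1 ≤ L ^ j := Nat.one_le_pow _ _ hL1
  refine ⟨N₀ * (n₁ * L ^ j), Nat.mul_pos hN₀1 (Nat.mul_pos hn₁ hLj), ?_, ?_, ?_⟩
  · exact Nat.mul_le_mul_left _ (Nat.mul_le_mul hn₁M (Nat.pow_le_pow_right hL1 hj))
  · intro v
    rw [← hxz]; exact hnear v
  · intro p hp
    refine hN p x hx _ ?_ (Nat.mul_pos hN₀1 (Nat.mul_pos hn₁ hLj))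
    exact (Finset.dvd_prod_of_mem N hp).trans (Dvd.intro _ rfl)

end Pool.Agent.Work.MP_a793bb_nt.H6
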