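import Pool.Agent.Work.MP_a793bb_nt.Basic

set_option autoImplicit false
set_option linter.unusedSectionVars false

/-!
Pulling back the height and the radical along a polynomial identity `A + B + C = 0`.
-/

namespace Pool.Agent.Work.MP_a793bb_nt.H6

open NumberField IsDedekindDomain Height Polynomial

variable {K : Type*} [Field K] [NumberField K]

/-! ### heights of polynomial values -/

lemma eval_homogenize' (f : K[X]) {n : ℕ} (hf : f.natDegree ≤ n) (t : K) :
    MvPolynomial.eval ![t, 1] (f.homogenize n) = f.eval t := by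
  have := eval₂_homogenize_of_eq_one hf (RingHom.id K) ![t, 1] (by simp)
  exact this

/-- Upper bound for the height of a polynomial value. -/
lemma polyHeight_le (f : K[X]) (n : ℕ) (hf : f.natDegree ≤ n) :
    ∃ C : ℝ, ∀ t : K, logHeight₁ (f.eval t) ≤ n * logHeight₁ t + C := by
  obtain ⟨C, hC⟩ := logHeight_eval_le' (K := K) (ι := Fin 2) (ι' := Fin 2) (N := n)
    (p := ![f.homogenize n, (1 : K[X]).homogenize n]) (by
      intro i; fin_cases i <;> simp [-homogenize_one])
  refine ⟨C, fun t => ?_⟩
  have h := hC ![t, 1]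
  have h2 : (fun j => MvPolynomial.eval ![t, 1]
      ((![f.homogenize n, (1 : K[X]).homogenize n] : Fin 2 → MvPolynomial (Fin 2) K) j)) =
      ![f.eval t, 1] := by
    ext j; fin_cases j
    · simpa using eval_homogenize' f hf t
    · simp
  rw [h2, ← logHeight₁_eq_logHeight, ← logHeight₁_eq_logHeight] at h
  linarith

/-- Bezout with degree control. -/
lemma exists_cert_aux (a c g : K[X]) (hcop : IsCoprime a c) (N : ℕ) (ha : a.natDegree ≤ N)
    (hc : c.natDegree = N) (hc0 : c ≠ 0) (hg : g.natDegree ≤ N + N) :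
    ∃ u v : K[X], u.natDegree ≤ N ∧ v.natDegree ≤ N ∧ u * a + v * c = g := by
  obtain ⟨u0, v0, h0⟩ := hcop
  set u := (g * u0) % c with hu
  have hdvd : c ∣ g - u * a := by
    have h1 : g * u0 = c * ((g * u0) / c) + u := (EuclideanDomain.div_add_mod (g * u0) c).symm
    refine ⟨g * v0 + ((g * u0) / c) * a, ?_⟩
    have h2 : u = g * u0 - c * ((g * u0) / c) := by rw [eq_sub_iff_add_eq, add_comm]; exact h1.symm
    rw [h2]
    linear_combination (-g) * h0
  obtain ⟨v, hv⟩ := hdvd
  have hud : u.natDegree ≤ N := by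
    rw [← hc]
    exact natDegree_le_natDegree (degree_mod_lt _ hc0).le
  refine ⟨u, v, hud, ?_, ?_⟩
  · by_cases hv0 : v = 0
    · simp [hv0]
    · have h3 : (c * v).natDegree = N + v.natDegree := by rw [natDegree_mul hc0 hv0, hc]
      have h4 : (g - u * a).natDegree ≤ N + N := by
        refine (natDegree_sub_le _ _).trans (max_le hg ?_)
        exact natDegree_mul_le.trans (add_le_add hud ha)
      rw [hv, h3] at h4
      omega
  · rw [mul_comm v c, ← hv]; ring

lemma exists_cert (a c g : K[X]) (hcop : IsCoprime a c) (N : ℕ)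
    (hN : max a.natDegree c.natDegree = N) (hac : a ≠ 0 ∧ c ≠ 0) (hg : g.natDegree ≤ N + N) :
    ∃ u v : K[X], u.natDegree ≤ N ∧ v.natDegree ≤ N ∧ u * a + v * c = g := by
  rcases le_total a.natDegree c.natDegree with h | h
  · rw [max_eq_right h] at hN
    exact exists_cert_aux a c g hcop N (hN ▸ h) hN hac.2 hg
  · rw [max_eq_left h] at hN
    obtain ⟨u, v, hu, hv, huv⟩ := exists_cert_aux c a g hcop.symm N (hN ▸ h) hN hac.1 hg
    exact ⟨v, u, hv, hu, by rw [add_comm]; exact huv⟩

/-- Lower bound for the height of a value of a rational function. -/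
lemma ratHeight_ge (a c : K[X]) (hcop : IsCoprime a c) (N : ℕ)
    (hN : max a.natDegree c.natDegree = N) (hac : a ≠ 0 ∧ c ≠ 0) :
    ∃ C : ℝ, ∀ t : K, N * logHeight₁ t ≤ logHeight₁ (a.eval t / c.eval t) + C := by
  obtain ⟨u1, v1, hu1, hv1, h1⟩ := exists_cert a c (X ^ (N + N)) hcop N hN hac (by simp)
  obtain ⟨u2, v2, hu2, hv2, h2⟩ := exists_cert a c 1 hcop N hN hac (by simp)
  have haN : a.natDegree ≤ N := hN ▸ le_max_left _ _
  have hcN : c.natDegree ≤ N := hN ▸ le_max_right _ _
  let q : Fin 2 × Fin 2 → MvPolynomial (Fin 2) K := fun ij =>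
    ![![u1.homogenize N, v1.homogenize N], ![u2.homogenize N, v2.homogenize N]] ij.1 ij.2
  have hq : ∀ ij, (q ij).IsHomogeneous N := by
    rintro ⟨i, j⟩
    fin_cases i <;> fin_cases j <;> simp [q]
  obtain ⟨C, hC⟩ := logHeight_eval_ge' (K := K) (ι := Fin 2) (ι' := Fin 2) (M := N) (N := N)
    (q := q) hq
  refine ⟨-C, fun t => ?_⟩
  have h := hC ![a.homogenize N, c.homogenize N] (x := ![t, 1]) (by
    intro k
    fin_cases k
    · simp only [Fin.sum_univ_two, q]
      simp [eval_homogenize' _ hu1, eval_homogenize' _ hv1, eval_homogenize' _ haN,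
        eval_homogenize' _ hcN]
      have := congrArg (Polynomial.eval t) h1
      simpa using this
    · simp only [Fin.sum_univ_two, q]
      simp [eval_homogenize' _ hu2, eval_homogenize' _ hv2, eval_homogenize' _ haN,
        eval_homogenize' _ hcN]
      have := congrArg (Polynomial.eval t) h2
      simpa using this)
  have h3 : (fun j => MvPolynomial.eval ![t, 1]
      ((![a.homogenize N, c.homogenize N] : Fin 2 → MvPolynomial (Fin 2) K) j)) =
      ![a.eval t, c.eval t] := by
    ext j; fin_cases j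
    · simpa using eval_homogenize' a haN t
    · simpa using eval_homogenize' c hcN t
  rw [h3, ← logHeight₁_eq_logHeight, ← logHeight₁_div_eq_logHeight] at h
  linarith

/-! ### integrality away from finitely many primes -/

/-- all coefficients of `f` are integral at `p` -/
def IntAt (p : HeightOneSpectrum (𝓞 K)) (f : K[X]) : Prop := ∀ i, av p (f.coeff i) ≤ 1

lemma av_zero (p : HeightOneSpectrum (𝓞 K)) : av p (0 : K) = 0 := map_zero _

lemma finite_not_IntAt (f : K[X]) : {p : HeightOneSpectrum (𝓞 K) | ¬ IntAt p f}.Finite := by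
  refine Set.Finite.subset (Set.Finite.biUnion f.support.finite_toSet
    (t := fun i => {p : HeightOneSpectrum (𝓞 K) | av p (f.coeff i) ≠ 1}) ?_) ?_
  · intro i hi
    exact finite_av_ne_one (by simpa using hi)
  · intro p hp
    simp only [Set.mem_ofPred_eq, IntAt, not_forall, not_le] at hp
    obtain ⟨i, hi⟩ := hp
    simp only [Set.mem_iUnion, Set.mem_ofPred_eq, exists_prop]
    refine ⟨i, ?_, ne_of_gt hi⟩
    simp only [Finset.mem_coe, mem_support_iff, ne_eq]
    intro h0
    rw [h0, av_zero] at hi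
    linarith

lemma av_sum_le (p : HeightOneSpectrum (𝓞 K)) {ι : Type*} (s : Finset ι) (f : ι → K)
    (h : ∀ i ∈ s, av p (f i) ≤ 1) : av p (∑ i ∈ s, f i) ≤ 1 := by
  classical
  induction s using Finset.induction_on with
  | empty => simp [av_zero]
  | insert a s has ih =>
    rw [Finset.sum_insert has]
    refine (av_add_le p _ _).trans (max_le (h a (Finset.mem_insert_self a s)) (ih ?_))
    exact fun i hi => h i (Finset.mem_insert_of_mem hi)

lemma IntAt.eval {p : HeightOneSpectrum (𝓞 K)} {f : K[X]} (hf : IntAt p f) {t : K}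
    (ht : av p t ≤ 1) : av p (f.eval t) ≤ 1 := by
  rw [eval_eq_sum_range]
  refine av_sum_le p _ _ fun i _ => ?_
  rw [av_mul, av_pow]
  exact mul_le_one₀ (hf i) (pow_nonneg (av_nonneg _ _) _) (pow_le_one₀ (av_nonneg _ _) ht)

end Pool.Agent.Work.MP_a793bb_nt.H6
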