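import Pool.Agent.Work.MP_a793bb_nt.Basic

set_option autoImplicit false
set_option linter.unusedSectionVars false

namespace Pool.Agent.Work.MP_a793bb_nt

open NumberField IsDedekindDomain

variable {K : Type*} [Field K] [NumberField K]

/-- real norm of a prime -/
noncomputable def Np (p : HeightOneSpectrum (𝓞 K)) : ℝ := (Ideal.absNorm p.asIdeal : ℝ)

lemma two_le_Np (p : HeightOneSpectrum (𝓞 K)) : 2 ≤ Np p := by
  have := HeightOneSpectrum.one_lt_absNorm p
  unfold Np
  exact_mod_cast this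

lemma finite_Np_le (B : ℝ) : {p : HeightOneSpectrum (𝓞 K) | Np p ≤ B}.Finite := by
  have h := Ideal.finite_setOfPred_absNorm_le (S := 𝓞 K) ⌊B⌋₊
  refine Set.Finite.of_finite_image (f := fun p : HeightOneSpectrum (𝓞 K) => p.asIdeal)
    (h.subset ?_) ?_
  · rintro _ ⟨p, hp, rfl⟩
    exact Nat.le_floor hp
  · intro p _ q _ hpq
    exact HeightOneSpectrum.ext hpq

/-- exponent of p in I -/
noncomputable def ex (I : Ideal (𝓞 K)) (p : HeightOneSpectrum (𝓞 K)) : ℕ :=
  multiplicity p.asIdeal I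

/-- an ideal is the product of its prime powers over any finite set containing its support -/
lemma prod_ex {I : Ideal (𝓞 K)} (hI : I ≠ ⊥) (S : Finset (HeightOneSpectrum (𝓞 K)))
    (hS : ∀ p : HeightOneSpectrum (𝓞 K), p.asIdeal ∣ I → p ∈ S) :
    ∏ p ∈ S, p.asIdeal ^ ex I p = I := by
  conv_rhs => rw [← Ideal.finprod_heightOneSpectrum_pow_multiplicity hI]
  symm
  apply finprod_eq_prod_of_mulSupport_subset
  intro p hp
  by_contra hcon
  apply hp
  have : ¬ p.asIdeal ∣ I := fun h => hcon (hS p h)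
  change p.asIdeal ^ multiplicity p.asIdeal I = 1
  rw [multiplicity_eq_zero.mpr this, pow_zero]

lemma one_le_ex {I : Ideal (𝓞 K)} (hI : I ≠ ⊥) {p : HeightOneSpectrum (𝓞 K)} (h : p.asIdeal ∣ I) :
    1 ≤ ex I p := by
  have hfin : FiniteMultiplicity p.asIdeal I :=
    FiniteMultiplicity.of_prime_left p.prime hI
  have := hfin.le_multiplicity_of_pow_dvd (k := 1) (by simpa using h)
  exact this

lemma absNorm_prod_ex {I : Ideal (𝓞 K)} (hI : I ≠ ⊥) (S : Finset (HeightOneSpectrum (𝓞 K)))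
    (hS : ∀ p : HeightOneSpectrum (𝓞 K), p.asIdeal ∣ I → p ∈ S) :
    (Ideal.absNorm I : ℝ) = ∏ p ∈ S, Np p ^ ex I p := by
  conv_lhs => rw [← prod_ex hI S hS]
  rw [map_prod]
  push_cast
  refine Finset.prod_congr rfl fun p _ => ?_
  rw [map_pow]
  push_cast
  rfl


/-- local Rankin factor -/
noncomputable def rk (δ : ℝ) (p : HeightOneSpectrum (𝓞 K)) : ℝ := max 1 (1 / (Np p ^ δ - 1))

lemma rk_bound {δ : ℝ} (hδ : 0 < δ) (p : HeightOneSpectrum (𝓞 K)) (M : ℕ) :
    ∑ k ∈ Finset.Icc 1 M, (Np p ^ (k : ℕ)) ^ (-δ) ≤ rk δ p := by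
  have hN := two_le_Np p
  have hN0 : 0 < Np p := by linarith
  set q : ℝ := Np p ^ (-δ) with hq
  have hq0 : 0 < q := Real.rpow_pos_of_pos hN0 _
  have hq1 : q < 1 := Real.rpow_lt_one_of_one_lt_of_neg (by linarith) (by linarith)
  have h1 : ∀ k : ℕ, (Np p ^ k) ^ (-δ) = q ^ k := by
    intro k
    rw [hq, ← Real.rpow_natCast, ← Real.rpow_mul hN0.le, mul_comm, Real.rpow_mul hN0.le,
      Real.rpow_natCast]
  simp_rw [h1]
  have h2 : ∑ k ∈ Finset.Icc 1 M, q ^ k ≤ q / (1 - q) := by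
    have h3 : ∑ k ∈ Finset.Icc 1 M, q ^ k = q * ∑ k ∈ Finset.range M, q ^ k := by
      rw [Finset.range_eq_Ico, Finset.mul_sum, Finset.sum_Ico_eq_sum_range]
      rw [← Finset.Ico_add_one_right_eq_Icc, Finset.sum_Ico_eq_sum_range]
      simp only [Nat.add_sub_cancel, Nat.sub_zero, zero_add]
      refine Finset.sum_congr rfl fun k _ => ?_
      ring
    rw [h3, div_eq_mul_inv]
    refine mul_le_mul_of_nonneg_left ?_ hq0.le
    have h4 : ∑ k ∈ Finset.range M, q ^ k ≤ (1 - q)⁻¹ := by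
      rw [geom_sum_eq (ne_of_lt hq1), ← neg_div_neg_eq, neg_sub, neg_sub, inv_eq_one_div]
      apply div_le_div_of_nonneg_right _ (by linarith)
      have := pow_pos hq0 M
      linarith
    exact h4
  refine h2.trans ?_
  have h5 : q / (1 - q) = 1 / (Np p ^ δ - 1) := by
    have h6 : q * Np p ^ δ = 1 := by
      rw [hq, ← Real.rpow_add hN0]; simp
    have h7 : 1 < Np p ^ δ := Real.one_lt_rpow (by linarith) hδ
    rw [div_eq_div_iff (by linarith) (by linarith)]
    linarith
  rw [h5]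
  exact le_max_right _ _

lemma rk_eq_one {δ : ℝ} {p : HeightOneSpectrum (𝓞 K)} (h : 2 ≤ Np p ^ δ) : rk δ p = 1 := by
  rw [rk, max_eq_left]
  rw [div_le_one (by linarith)]
  linarith

lemma one_le_rk (δ : ℝ) (p : HeightOneSpectrum (𝓞 K)) : 1 ≤ rk δ p := le_max_left _ _

variable (K) in
lemma exists_prod_rk {δ : ℝ} (hδ : 0 < δ) : ∃ C : ℝ, 1 ≤ C ∧
    ∀ S : Finset (HeightOneSpectrum (𝓞 K)), ∏ p ∈ S, rk δ p ≤ C := by
  classical
  set P := (finite_Np_le (K := K) (2 ^ (1 / δ))).toFinset with hP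
  refine ⟨∏ p ∈ P, rk δ p, ?_, fun S => ?_⟩
  · exact Finset.one_le_prod fun p _ => one_le_rk δ p
  · have h1 : ∏ p ∈ S, rk δ p = ∏ p ∈ S ∩ P, rk δ p := by
      symm
      apply Finset.prod_subset Finset.inter_subset_left
      intro p hp hp2
      apply rk_eq_one
      have h2 : p ∉ P := fun h => hp2 (Finset.mem_inter.mpr ⟨hp, h⟩)
      rw [hP, Set.Finite.mem_toFinset, Set.mem_ofPred_eq, not_le] at h2
      have h3 := Real.rpow_le_rpow (by positivity) h2.le hδ.le
      rw [← Real.rpow_mul (by norm_num)] at h3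
      rw [one_div, inv_mul_cancel₀ hδ.ne', Real.rpow_one] at h3
      exact h3
    rw [h1]
    refine Finset.prod_le_prod_of_subset_of_one_le Finset.inter_subset_right ?_ ?_
    · intro p _
      linarith [one_le_rk δ p]
    · intro p _ _
      exact one_le_rk δ p

/-- ideals with prescribed support and bounded norm -/
def idealsWith (S : Finset (HeightOneSpectrum (𝓞 K))) (X : ℝ) : Set (Ideal (𝓞 K)) :=
  {I | I ≠ ⊥ ∧ (∀ p : HeightOneSpectrum (𝓞 K), p.asIdeal ∣ I ↔ p ∈ S) ∧
    (Ideal.absNorm I : ℝ) ≤ X}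

variable (K) in
/-- The number of ideals with given set of prime divisors and norm at most `X`. -/
lemma card_idealsWith_le {δ : ℝ} (hδ : 0 < δ) : ∃ C : ℝ, 1 ≤ C ∧
    ∀ (S : Finset (HeightOneSpectrum (𝓞 K))) (X : ℝ), 1 ≤ X →
      (idealsWith S X).Finite ∧ ((idealsWith S X).ncard : ℝ) ≤ C * X ^ δ := by
  classical
  obtain ⟨C, hC1, hC⟩ := exists_prod_rk K hδ
  refine ⟨C, hC1, fun S X hX => ?_⟩
  set M := Nat.log 2 ⌊X⌋₊ with hM
  -- exponent box
  set E : Finset (↥S → ℕ) := (Fintype.piFinset fun _ : ↥S => Finset.Icc 1 M).filter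
    (fun e => ∏ p : ↥S, Np p.1 ^ e p ≤ X) with hE
  have hmaps : ∀ I ∈ idealsWith S X, (fun p : ↥S => ex I p.1) ∈ E := by
    rintro I ⟨hI, hS, hX'⟩
    have hnorm := absNorm_prod_ex hI S fun p hp => (hS p).mp hp
    rw [hE, Finset.mem_filter, Fintype.mem_piFinset]
    constructor
    · intro p
      rw [Finset.mem_Icc]
      refine ⟨one_le_ex hI ((hS p.1).mpr p.2), ?_⟩
      have h1 : (2 : ℝ) ^ ex I p.1 ≤ X := by
        refine le_trans ?_ hX'
        rw [hnorm]
        have h2 : (2 : ℝ) ^ ex I p.1 ≤ Np p.1 ^ ex I p.1 :=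
          pow_le_pow_left₀ (by norm_num) (two_le_Np _) _
        refine h2.trans ?_
        have h3 : ∏ q ∈ {p.1}, Np q ^ ex I q ≤ ∏ q ∈ S, Np q ^ ex I q := by
          refine Finset.prod_le_prod_of_subset_of_one_le (Finset.singleton_subset_iff.mpr p.2) ?_ ?_
          · intro q _
            exact (pow_pos (by linarith [two_le_Np q]) _).le
          · intro q _ _
            exact one_le_pow₀ (by linarith [two_le_Np q])
        rwa [Finset.prod_singleton] at h3
      rw [hM]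
      apply Nat.le_log_of_pow_le (by norm_num)
      apply Nat.le_floor
      push_cast
      exact h1
    · rw [Finset.prod_coe_sort S (fun p => Np p ^ ex I p), ← hnorm]
      exact hX'
  have hinj : Set.InjOn (fun I : Ideal (𝓞 K) => fun p : ↥S => ex I p.1) (idealsWith S X) := by
    rintro I ⟨hI, hS, -⟩ J ⟨hJ, hS', -⟩ hIJ
    rw [← prod_ex hI S fun p hp => (hS p).mp hp, ← prod_ex hJ S fun p hp => (hS' p).mp hp]
    refine Finset.prod_congr rfl fun p hp => ?_
    have := congrFun hIJ ⟨p, hp⟩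
    simp only at this
    rw [this]
  have hfin : (idealsWith S X).Finite := by
    refine Set.Finite.of_finite_image ?_ hinj
    refine (Finset.finite_toSet E).subset ?_
    rintro _ ⟨I, hI, rfl⟩
    exact hmaps I hI
  refine ⟨hfin, ?_⟩
  have hcard : (idealsWith S X).ncard ≤ E.card := by
    rw [← Set.ncard_coe_finset]
    exact Set.ncard_le_ncard_of_injOn _ hmaps hinj (Finset.finite_toSet E)
  have hE2 : (E.card : ℝ) ≤ C * X ^ δ := by
    calc (E.card : ℝ) = ∑ e ∈ E, 1 := by simp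
      _ ≤ ∑ e ∈ E, X ^ δ * ∏ p : ↥S, (Np p.1 ^ e p) ^ (-δ) := by
          refine Finset.sum_le_sum fun e he => ?_
          rw [hE, Finset.mem_filter] at he
          have hpos : 0 < ∏ p : ↥S, Np p.1 ^ e p :=
            Finset.prod_pos fun p _ => pow_pos (by linarith [two_le_Np p.1]) _
          rw [Real.finsetProd_rpow _ _ (fun p _ => (pow_pos (by linarith [two_le_Np p.1]) _).le),
            Real.rpow_neg hpos.le, ← div_eq_mul_inv, one_le_div (Real.rpow_pos_of_pos hpos _)]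
          exact Real.rpow_le_rpow hpos.le he.2 hδ.le
      _ ≤ ∑ e ∈ Fintype.piFinset fun _ : ↥S => Finset.Icc 1 M,
            X ^ δ * ∏ p : ↥S, (Np p.1 ^ e p) ^ (-δ) := by
          apply Finset.sum_le_sum_of_subset_of_nonneg (Finset.filter_subset _ _)
          intro e _ _
          refine mul_nonneg (by positivity) (Finset.prod_nonneg fun p _ => ?_)
          exact Real.rpow_nonneg (pow_nonneg (by linarith [two_le_Np p.1]) _) _
      _ = X ^ δ * ∏ p : ↥S, ∑ k ∈ Finset.Icc 1 M, (Np p.1 ^ k) ^ (-δ) := by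
          rw [← Finset.mul_sum, Finset.prod_univ_sum]
      _ ≤ X ^ δ * ∏ p : ↥S, rk δ p.1 := by
          refine mul_le_mul_of_nonneg_left ?_ (by positivity)
          refine Finset.prod_le_prod (fun p _ => ?_) fun p _ => rk_bound hδ p.1 M
          refine Finset.sum_nonneg fun k _ => ?_
          exact Real.rpow_nonneg (pow_nonneg (by linarith [two_le_Np p.1]) _) _
      _ = X ^ δ * ∏ p ∈ S, rk δ p := by rw [Finset.prod_coe_sort S (fun p => rk δ p)]
      _ ≤ X ^ δ * C := mul_le_mul_of_nonneg_left (hC S) (by positivity)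
      _ = C * X ^ δ := mul_comm _ _
  calc ((idealsWith S X).ncard : ℝ) ≤ E.card := by exact_mod_cast hcard
    _ ≤ _ := hE2

end Pool.Agent.Work.MP_a793bb_nt
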