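import Pool.Agent.Work.MP_a793bb_nt.FiniteClass

set_option autoImplicit false
set_option linter.unusedSectionVars false

namespace Pool.Agent.Work.MP_a793bb_nt

open NumberField IsDedekindDomain Height

variable {K : Type*} [Field K] [NumberField K]

namespace BPlus

open Real in
/-- product formula in logarithmic form over a finite set of primes -/
lemma prodFormula_log {x : K} (hx : x ≠ 0) (T : Finset (HeightOneSpectrum (𝓞 K)))
    (hT : ∀ p, av p x ≠ 1 → p ∈ T) :
    ∑ v : InfinitePlace K, (v.mult : ℝ) * Real.log (v x) + ∑ p ∈ T, Real.log (av p x) = 0 := by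
  have h := NumberField.prod_abs_eq_one hx
  have h1 : ∏ᶠ w : FinitePlace K, w x = ∏ p ∈ T, av p x := by
    rw [← finprod_comp_equiv (FinitePlace.equivHeightOneSpectrum (K := K)).symm]
    apply finprod_eq_prod_of_mulSupport_subset
    intro p hp
    exact hT p hp
  rw [h1] at h
  have h2 : ∀ v : InfinitePlace K, v x ^ v.mult ≠ 0 := fun v =>
    pow_ne_zero _ ((InfinitePlace.pos_iff.mpr hx).ne')
  have h3 : ∀ p ∈ T, av p x ≠ 0 := fun p _ => (av_pos p hx).ne'
  have h4 := congrArg Real.log h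
  rw [Real.log_mul (Finset.prod_ne_zero_iff.mpr fun v _ => h2 v) (Finset.prod_ne_zero_iff.mpr h3),
    Real.log_prod (fun v _ => h2 v), Real.log_prod h3, Real.log_one] at h4
  simpa [Real.log_pow] using h4

/-- the archimedean maximum -/
noncomputable def Mv (v : InfinitePlace K) (s : K) : ℝ := max (v s) (max 1 (v (1 + s)))

lemma Mv_ge_one (v : InfinitePlace K) (s : K) : 1 ≤ Mv v s :=
  le_max_of_le_right (le_max_left _ _)

/-- the logarithmic (unnormalised) height of `(s : 1 : 1 + s)` -/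
noncomputable def hs (s : K) : ℝ := logHeight ![s, 1, 1 + s]

lemma max_av_one_add (p : HeightOneSpectrum (𝓞 K)) (s : K) :
    max (av p s) (max 1 (av p (1 + s))) = max (av p s) 1 := by
  apply le_antisymm
  · refine max_le (le_max_left _ _) (max_le (le_max_right _ _) ?_)
    refine (av_add_le p _ _).trans ?_
    rw [av_one, max_comm]
  · exact max_le (le_max_left _ _) (le_max_of_le_right (le_max_left _ _))

lemma iSup_three (f : Fin 3 → ℝ) : ⨆ i, f i = max (f 0) (max (f 1) (f 2)) := by
  apply le_antisymm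
  · apply ciSup_le
    intro i
    fin_cases i
    · exact le_max_left _ _
    · exact le_max_of_le_right (le_max_left _ _)
    · exact le_max_of_le_right (le_max_right _ _)
  · have hb : BddAbove (Set.range f) := Set.finite_range f |>.bddAbove
    exact max_le (le_ciSup hb 0) (max_le (le_ciSup hb 1) (le_ciSup hb 2))

open Real in
lemma hs_eq (s : K) (T : Finset (HeightOneSpectrum (𝓞 K)))
    (hT : ∀ p, 1 < av p s → p ∈ T) :
    hs s = ∑ v : InfinitePlace K, (v.mult : ℝ) * Real.log (Mv v s) +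
      ∑ p ∈ T, Real.log (max (av p s) 1) := by
  have hne : (![s, 1, 1 + s] : Fin 3 → K) ≠ 0 := by
    intro h
    have := congrFun h 1
    simp at this
  rw [hs, logHeight_eq_log_mulHeight, NumberField.mulHeight_eq hne]
  have h1 : ∏ᶠ w : FinitePlace K, ⨆ i, w ((![s, 1, 1 + s] : Fin 3 → K) i) =
      ∏ p ∈ T, max (av p s) 1 := by
    rw [← finprod_comp_equiv (FinitePlace.equivHeightOneSpectrum (K := K)).symm]
    have h2 : ∀ p : HeightOneSpectrum (𝓞 K),
        ⨆ i, (FinitePlace.equivHeightOneSpectrum.symm p) ((![s, 1, 1 + s] : Fin 3 → K) i) =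
          max (av p s) 1 := by
      intro p
      rw [iSup_three]
      have := max_av_one_add p s
      change max (av p s) (max (av p 1) (av p (1 + s))) = _
      rw [av_one]
      exact this
    simp_rw [h2]
    apply finprod_eq_prod_of_mulSupport_subset
    intro p hp
    apply hT
    by_contra hcon
    rw [not_lt] at hcon
    exact hp (max_eq_right hcon)
  have h2 : ∀ v : InfinitePlace K, ⨆ i, v ((![s, 1, 1 + s] : Fin 3 → K) i) = Mv v s := by
    intro v
    rw [iSup_three]
    simp [Mv]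
  simp_rw [h2]
  rw [h1, Real.log_mul, Real.log_prod, Real.log_prod]
  · simp [Real.log_pow]
  · intro p _
    exact (lt_of_lt_of_le one_pos (le_max_right _ _)).ne'
  · intro v _
    exact pow_ne_zero _ (lt_of_lt_of_le one_pos (Mv_ge_one v s)).ne'
  · exact Finset.prod_ne_zero_iff.mpr fun v _ =>
      pow_ne_zero _ (lt_of_lt_of_le one_pos (Mv_ge_one v s)).ne'
  · exact Finset.prod_ne_zero_iff.mpr fun p _ =>
      (lt_of_lt_of_le one_pos (le_max_right _ _)).ne'

open Classical in
/-- local contribution of the part of the numerator of `y` with exponents in `R` -/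
noncomputable def lpt (y : K) (R : Set ℕ) (p : HeightOneSpectrum (𝓞 K)) : ℝ :=
  if 0 < kp p y ∧ (kp p y).toNat ∈ R then (kp p y : ℝ) * lN p else 0

/-- logarithm of the norm of the part of the numerator of `y` with exponents in `R` -/
noncomputable def LP (y : K) (R : Set ℕ) : ℝ := ∑ᶠ p, lpt y R p

lemma lpt_nonneg (y : K) (R : Set ℕ) (p : HeightOneSpectrum (𝓞 K)) : 0 ≤ lpt y R p := by
  unfold lpt
  split_ifs with h
  · exact mul_nonneg (by exact_mod_cast h.1.le) (lN_pos p).le
  · exact le_rfl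

lemma lpt_eq_zero {y : K} (hy : y ≠ 0) (R : Set ℕ) {p : HeightOneSpectrum (𝓞 K)}
    (hp : p ∉ Zp y) : lpt y R p = 0 := by
  unfold lpt
  rw [if_neg]
  rintro ⟨h, -⟩
  exact hp ((av_lt_one_iff_kp p hy).mpr h)

lemma LP_eq {y : K} (hy : y ≠ 0) (R : Set ℕ) (T : Finset (HeightOneSpectrum (𝓞 K)))
    (hT : ∀ p ∈ Zp y, p ∈ T) : LP y R = ∑ p ∈ T, lpt y R p := by
  apply finsum_eq_sum_of_support_subset
  intro p hp
  by_contra hcon
  exact hp (lpt_eq_zero hy R fun h => hcon (hT p h))

lemma LP_nonneg (y : K) (R : Set ℕ) : 0 ≤ LP y R := finsum_nonneg fun p => lpt_nonneg y R p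

lemma log_av {y : K} (hy : y ≠ 0) (p : HeightOneSpectrum (𝓞 K)) :
    Real.log (av p y) = -(kp p y : ℝ) * lN p := by
  rw [av_eq_zpow p hy, Real.log_zpow]
  push_cast
  rfl

lemma kp_eq_of_av_eq {x y : K} (p : HeightOneSpectrum (𝓞 K))
    (h : av p x = av p y) : kp p x = kp p y := by
  rw [av_eq_av_iff] at h
  rw [kp, kp, h]

/-- the trichotomy at a finite prime -/
lemma kp_cases (p : HeightOneSpectrum (𝓞 K)) (s : K) :
    (av p s < 1 ∧ av p (1 + s) = 1) ∨ (1 < av p s ∧ av p (1 + s) = av p s) ∨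
      (av p s = 1 ∧ av p (1 + s) ≤ 1) := by
  have hle : av p (1 + s) ≤ max 1 (av p s) := by
    refine (av_add_le p _ _).trans ?_
    rw [av_one]
  rcases lt_trichotomy (av p s) 1 with h | h | h
  · left
    refine ⟨h, ?_⟩
    apply av_eq_one_of_near
    rw [add_sub_cancel_left]
    exact h
  · right; right
    refine ⟨h, ?_⟩
    rwa [h, max_self] at hle
  · right; left
    refine ⟨h, le_antisymm (by rwa [max_eq_right h.le] at hle) ?_⟩
    by_contra hcon
    rw [not_le] at hcon
    have h1 : av p s < av p s := by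
      have h2 : s = (1 + s) + (-1) := by ring
      conv_lhs => rw [h2]
      refine lt_of_le_of_lt (av_add_le p _ _) (max_lt hcon ?_)
      rw [av_neg, av_one]
      exact h
    exact lt_irrefl _ h1

/-- relation between the side `c` and the height: the sum over the infinite places -/
lemma side_eq {s : K} (h1 : 1 + s ≠ 0) :
    ∑ v : InfinitePlace K, (v.mult : ℝ) * (Real.log (v (1 + s)) - Real.log (Mv v s)) =
      LP (1 + s) Set.univ - hs s := by
  classical
  rcases eq_or_ne s 0 with rfl | h0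
  · have e1 : hs (0 : K) = 0 := by
      rw [hs_eq (0 : K) ∅ (fun p hp => absurd hp (by rw [av_zero]; norm_num))]
      simp [Mv]
    have e2 : LP (1 + 0 : K) Set.univ = 0 := by
      rw [LP_eq h1 Set.univ ∅]
      · simp
      · intro p hp
        rw [add_zero] at hp
        have : av p (1 : K) < 1 := hp
        rw [av_one] at this
        exact absurd this (lt_irrefl _)
    rw [e1, e2]
    simp [Mv]
  set T : Finset (HeightOneSpectrum (𝓞 K)) :=
    (finite_av_ne_one h0).toFinset ∪ (finite_av_ne_one h1).toFinset with hT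
  have hT1 : ∀ p, av p s ≠ 1 → p ∈ T := fun p hp => by
    rw [hT, Finset.mem_union, Set.Finite.mem_toFinset]; exact Or.inl hp
  have hT2 : ∀ p, av p (1 + s) ≠ 1 → p ∈ T := fun p hp => by
    rw [hT, Finset.mem_union, Set.Finite.mem_toFinset, Set.Finite.mem_toFinset]; exact Or.inr hp
  have e1 := prodFormula_log h1 T hT2
  have e2 := hs_eq s T (fun p hp => hT1 p hp.ne')
  have e3 := LP_eq h1 Set.univ T (fun p hp => hT2 p (ne_of_lt hp))
  have e4 : ∑ p ∈ T, Real.log (av p (1 + s)) =
      ∑ p ∈ T, Real.log (max (av p s) 1) - ∑ p ∈ T, lpt (1 + s) Set.univ p := by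
    rw [← Finset.sum_sub_distrib]
    refine Finset.sum_congr rfl fun p _ => ?_
    have hlp : lpt (1 + s) Set.univ p = if 0 < kp p (1 + s) then (kp p (1 + s) : ℝ) * lN p else 0 := by
      simp [lpt]
    rw [hlp]
    rcases kp_cases p s with ⟨h2, h3⟩ | ⟨h2, h3⟩ | ⟨h2, h3⟩
    · have h4 : ¬ 0 < kp p (1 + s) := by
        rw [← av_lt_one_iff_kp p h1, h3]; exact lt_irrefl _
      rw [if_neg h4, h3, max_eq_right h2.le]
      simp
    · have h4 : ¬ 0 < kp p (1 + s) := by
        rw [← av_lt_one_iff_kp p h1, h3, not_lt]; exact h2.le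
      rw [if_neg h4, h3, max_eq_left h2.le]
      simp
    · rw [h2, max_self, Real.log_one, zero_sub]
      by_cases h4 : 0 < kp p (1 + s)
      · rw [if_pos h4, log_av h1]; ring
      · rw [if_neg h4]
        have h5 : av p (1 + s) = 1 := by
          rw [← av_lt_one_iff_kp p h1, not_lt] at h4
          exact le_antisymm h3 h4
        rw [h5]; simp
  have e5 : ∑ v : InfinitePlace K, (v.mult : ℝ) * (Real.log (v (1 + s)) - Real.log (Mv v s)) =
      ∑ v : InfinitePlace K, (v.mult : ℝ) * Real.log (v (1 + s)) -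
        ∑ v : InfinitePlace K, (v.mult : ℝ) * Real.log (Mv v s) := by
    rw [← Finset.sum_sub_distrib]
    refine Finset.sum_congr rfl fun v _ => by ring
  rw [e5]
  linarith

lemma kp_inv (p : HeightOneSpectrum (𝓞 K)) (y : K) : kp p y⁻¹ = -kp p y := by
  rw [kp, kp, map_inv₀, WithZero.log_inv]

lemma av_one_iff_kp (p : HeightOneSpectrum (𝓞 K)) {y : K} (hy : y ≠ 0) :
    av p y = 1 ↔ kp p y = 0 := by
  have h1 := two_le_Np p
  rw [av_eq_zpow p hy]
  constructor
  · intro h
    have := (zpow_eq_one_iff_right₀ (by linarith) (by linarith : Np p ≠ 1)).mp h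
    omega
  · intro h
    rw [h]; simp

/-- splitting the numerator -/
lemma LP_add_compl {y : K} (hy : y ≠ 0) (R : Set ℕ) :
    LP y R + LP y Rᶜ = LP y Set.univ := by
  classical
  have hT : ∀ p ∈ Zp y, p ∈ (finite_Zp hy).toFinset := fun p hp => by simpa using hp
  rw [LP_eq hy R _ hT, LP_eq hy Rᶜ _ hT, LP_eq hy Set.univ _ hT, ← Finset.sum_add_distrib]
  refine Finset.sum_congr rfl fun p _ => ?_
  simp only [lpt, Set.mem_compl_iff, Set.mem_univ, and_true]
  by_cases h1 : 0 < kp p y
  · by_cases h2 : (kp p y).toNat ∈ R <;> simp [h1, h2]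
  · simp [h1]

lemma sum_log_nat {i : ℕ} (hi : 1 ≤ i) :
    ∑ v : InfinitePlace K, (v.mult : ℝ) * Real.log (v (i : K)) =
      (Module.finrank ℚ K : ℝ) * Real.log i := by
  have h : ∀ v : InfinitePlace K, v (i : K) = (i : ℝ) := by
    intro v
    have h1 := v.norm_embedding_eq (i : K)
    rw [← h1, map_natCast]
    simp
  simp_rw [h]
  rw [← Finset.sum_mul]
  congr 1
  exact_mod_cast InfinitePlace.sum_mult_eq (K := K)

/-- the local estimate in the key lemma -/
lemma key_local {i : ℕ} (hi : 1 ≤ i) {s s' η : K} (h0 : s ≠ 0) (h1 : 1 + s ≠ 0) (h0' : s' ≠ 0)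
    (h1' : 1 + s' ≠ 0) (hη : η ≠ 0) (hpow : η ^ i = s / s') (hne : η ≠ 1) (Ra Rb Rc : Set ℕ)
    (p : HeightOneSpectrum (𝓞 K))
    (ha : 0 < kp p s' → (kp p s').toNat ∉ Ra → kp p s = kp p s')
    (hb : 0 < kp p s⁻¹ → (kp p s⁻¹).toNat ∉ Rb → kp p s = kp p s')
    (hc : 0 < kp p (1 + s) → (kp p (1 + s)).toNat ∉ Rc → kp p (1 + s) = kp p (1 + s'))
    (hcol : 0 < kp p (1 + s) → (kp p (1 + s)).toNat ∉ Rc → av p (η - 1) < av p (i : K)) :
    Real.log (av p (η - 1)) ≤
      (lpt s' Ra p + lpt s⁻¹ Rb p) / i - lpt (1 + s) Rcᶜ p - Real.log (av p (i : K)) := by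
  have hi' : (0 : ℝ) < i := by exact_mod_cast hi
  have hη1 : η - 1 ≠ 0 := sub_ne_zero.mpr hne
  have hip := av_natCast_pos hi p
  have hil : Real.log (av p (i : K)) ≤ 0 := Real.log_nonpos hip.le (av_natCast_le_one i p)
  have n1 := lpt_nonneg s' Ra p
  have n2 := lpt_nonneg s⁻¹ Rb p
  by_cases hA : 0 < kp p (1 + s) ∧ (kp p (1 + s)).toNat ∉ Rc
  · obtain ⟨hA1, hA2⟩ := hA
    have e1 : lpt (1 + s) Rcᶜ p = (kp p (1 + s) : ℝ) * lN p := by
      simp [lpt, hA1, hA2]
    have e2 := hc hA1 hA2
    have e3 := av_sub_one_eq hi p (hcol hA1 hA2)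
    have hA1' : 0 < kp p (1 + s') := e2 ▸ hA1
    have lt1 : av p (1 + s) < 1 := (av_lt_one_iff_kp p h1).mpr hA1
    have lt2 : av p (1 + s') < 1 := (av_lt_one_iff_kp p h1').mpr hA1'
    have hs' : av p s' = 1 := by
      rcases kp_cases p s' with ⟨_, h⟩ | ⟨h', h⟩ | ⟨h, _⟩
      · linarith
      · rw [h] at lt2; linarith
      · exact h
    have heq : av p (1 + s) = av p (1 + s') := by
      rw [av_eq_zpow p h1, av_eq_zpow p h1', e2]
    have e4 : av p (η ^ i - 1) ≤ av p (1 + s) := by
      have h5 : η ^ i - 1 = ((1 + s) - (1 + s')) * s'⁻¹ := by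
        rw [hpow]; field_simp; ring
      rw [h5, av_mul, av_inv, hs', inv_one, mul_one]
      have h6 : (1 + s) - (1 + s') = (1 + s) + (-(1 + s')) := by ring
      rw [h6]
      refine (av_add_le p _ _).trans (max_le le_rfl ?_)
      rw [av_neg, heq]
    have hpos : 0 < av p (η - 1) := av_pos p hη1
    have e5 : Real.log (av p (η ^ i - 1)) = Real.log (av p (η - 1)) + Real.log (av p (i : K)) := by
      rw [e3, Real.log_mul hpos.ne' hip.ne']
    have e6 : Real.log (av p (η ^ i - 1)) ≤ Real.log (av p (1 + s)) := by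
      apply Real.log_le_log _ e4
      rw [e3]; exact mul_pos hpos hip
    rw [log_av h1] at e6
    have n3 : 0 ≤ (lpt s' Ra p + lpt s⁻¹ Rb p) / i := by positivity
    rw [e1]
    linarith
  · have e1 : lpt (1 + s) Rcᶜ p = 0 := by
      unfold lpt
      rw [if_neg]
      exact hA
    rw [e1]
    suffices h : Real.log (av p (η - 1)) ≤ (lpt s' Ra p + lpt s⁻¹ Rb p) / i by linarith
    have hle : av p (η - 1) ≤ max (av p η) 1 := by
      have h2 : η - 1 = η + (-1) := by ring
      rw [h2]
      refine (av_add_le p _ _).trans ?_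
      rw [av_neg, av_one]
    rcases le_or_gt (av p η) 1 with h3 | h3
    · rw [max_eq_right h3] at hle
      have h4 := Real.log_nonpos (av_nonneg p _) hle
      have n3 : 0 ≤ (lpt s' Ra p + lpt s⁻¹ Rb p) / i := by positivity
      linarith
    · rw [max_eq_left h3.le] at hle
      have h4 : Real.log (av p (η - 1)) ≤ Real.log (av p η) :=
        Real.log_le_log (av_pos p hη1) hle
      refine h4.trans ?_
      rw [le_div_iff₀ hi']
      have h5 : Real.log (av p η) * i = ((kp p s' : ℝ) - kp p s) * lN p := by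
        have h6 := congrArg (fun z => Real.log (av p z)) hpow
        simp only [av_pow, Real.log_pow, div_eq_mul_inv, av_mul, av_inv] at h6
        rw [Real.log_mul (av_pos p h0).ne' (inv_ne_zero (av_pos p h0').ne'), Real.log_inv,
          log_av h0, log_av h0'] at h6
        rw [mul_comm, h6]; ring
      rw [h5]
      have hlN := lN_pos p
      have h7 : 0 < ((kp p s' : ℝ) - kp p s) * lN p := by
        rw [← h5]
        exact mul_pos (Real.log_pos h3) hi'
      have h8 : kp p s ≠ kp p s' := by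
        intro h
        rw [h] at h7
        simp at h7
      have h9 : (kp p s' : ℝ) * lN p ≤ lpt s' Ra p := by
        by_cases h : 0 < kp p s'
        · have hR : (kp p s').toNat ∈ Ra := by
            by_contra hcon
            exact h8 (ha h hcon)
          simp [lpt, h, hR]
        · refine le_trans ?_ n1
          have : (kp p s' : ℝ) ≤ 0 := by exact_mod_cast not_lt.mp h
          nlinarith
      have h10 : -(kp p s : ℝ) * lN p ≤ lpt s⁻¹ Rb p := by
        by_cases h : 0 < kp p s⁻¹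
        · have hR : (kp p s⁻¹).toNat ∈ Rb := by
            by_contra hcon
            exact h8 (hb h hcon)
          have : lpt s⁻¹ Rb p = (kp p s⁻¹ : ℝ) * lN p := by simp [lpt, h, hR]
          rw [this, kp_inv]; push_cast; exact le_rfl
        · refine le_trans ?_ n2
          rw [kp_inv] at h
          have : -(kp p s : ℝ) ≤ 0 := by exact_mod_cast not_lt.mp h
          nlinarith
      linarith

/-- KEY LEMMA: two points with the same data, close at all infinite places, of large height,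
coincide. -/
theorem key {i : ℕ} (hi : 1 ≤ i) {s s' η : K} (h0 : s ≠ 0) (h1 : 1 + s ≠ 0) (h0' : s' ≠ 0)
    (h1' : 1 + s' ≠ 0) (hη : η ≠ 0) (hpow : η ^ i = s / s') (hne : η ≠ 1) (Ra Rb Rc : Set ℕ)
    (ha : ∀ p, 0 < kp p s' → (kp p s').toNat ∉ Ra → kp p s = kp p s')
    (hb : ∀ p, 0 < kp p s⁻¹ → (kp p s⁻¹).toNat ∉ Rb → kp p s = kp p s')
    (hc : ∀ p, 0 < kp p (1 + s) → (kp p (1 + s)).toNat ∉ Rc → kp p (1 + s) = kp p (1 + s'))
    (hcol : ∀ p, 0 < kp p (1 + s) → (kp p (1 + s)).toNat ∉ Rc → av p (η - 1) < av p (i : K))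
    {D : ℝ} (hD : 0 < D)
    (harch : ∀ v : InfinitePlace K, v (η - 1) ≤ D * (v (1 + s) / Mv v s)) :
    hs s ≤ (Module.finrank ℚ K : ℝ) * (Real.log i + Real.log D) +
      (LP s' Ra + LP s⁻¹ Rb) / i + LP (1 + s) Rc := by
  classical
  have hi' : (0 : ℝ) < i := by exact_mod_cast hi
  have hη1 : η - 1 ≠ 0 := sub_ne_zero.mpr hne
  have hi0 : (i : K) ≠ 0 := by exact_mod_cast (by omega : i ≠ 0)
  set T : Finset (HeightOneSpectrum (𝓞 K)) :=
    (finite_av_ne_one h0).toFinset ∪ (finite_av_ne_one h0').toFinset ∪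
      (finite_av_ne_one h1).toFinset ∪ (finite_av_ne_one hη1).toFinset ∪
        (finite_av_ne_one hi0).toFinset with hT
  have t0 : ∀ p, av p s ≠ 1 → p ∈ T := fun p hp => by simp [hT, hp]
  have t0' : ∀ p, av p s' ≠ 1 → p ∈ T := fun p hp => by simp [hT, hp]
  have t1 : ∀ p, av p (1 + s) ≠ 1 → p ∈ T := fun p hp => by simp [hT, hp]
  have t2 : ∀ p, av p (η - 1) ≠ 1 → p ∈ T := fun p hp => by simp [hT, hp]
  have t3 : ∀ p, av p (i : K) ≠ 1 → p ∈ T := fun p hp => by simp [hT, hp]
  have e1 := prodFormula_log hη1 T t2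
  have e2 := prodFormula_log hi0 T t3
  rw [sum_log_nat hi] at e2
  have e3 := side_eq h1
  have e4 : ∑ v : InfinitePlace K, (v.mult : ℝ) * Real.log (v (η - 1)) ≤
      (Module.finrank ℚ K : ℝ) * Real.log D +
        ∑ v : InfinitePlace K, (v.mult : ℝ) * (Real.log (v (1 + s)) - Real.log (Mv v s)) := by
    have hd : (Module.finrank ℚ K : ℝ) * Real.log D =
        ∑ v : InfinitePlace K, (v.mult : ℝ) * Real.log D := by
      rw [← Finset.sum_mul]
      congr 1
      exact_mod_cast (InfinitePlace.sum_mult_eq (K := K)).symm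
    rw [hd, ← Finset.sum_add_distrib]
    refine Finset.sum_le_sum fun v _ => ?_
    have hv : 0 < v (η - 1) := InfinitePlace.pos_iff.mpr hη1
    have hv1 : 0 < v (1 + s) := InfinitePlace.pos_iff.mpr h1
    have hM : 0 < Mv v s := lt_of_lt_of_le one_pos (Mv_ge_one v s)
    have h5 := Real.log_le_log hv (harch v)
    rw [Real.log_mul hD.ne' (div_pos hv1 hM).ne', Real.log_div hv1.ne' hM.ne'] at h5
    have h6 : (0 : ℝ) ≤ v.mult := by positivity
    nlinarith
  have e5 : ∑ p ∈ T, Real.log (av p (η - 1)) ≤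
      (LP s' Ra + LP s⁻¹ Rb) / i - LP (1 + s) Rcᶜ - ∑ p ∈ T, Real.log (av p (i : K)) := by
    rw [LP_eq h0' Ra T (fun p hp => t0' p (ne_of_lt hp)),
      LP_eq (inv_ne_zero h0) Rb T (fun p hp => t0 p (by
        intro h
        have h7 : av p s⁻¹ < 1 := hp
        rw [av_inv, h] at h7
        simp at h7)),
      LP_eq h1 Rcᶜ T (fun p hp => t1 p (ne_of_lt hp)), ← Finset.sum_add_distrib, Finset.sum_div,
      ← Finset.sum_sub_distrib, ← Finset.sum_sub_distrib]
    refine Finset.sum_le_sum fun p _ => ?_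
    exact key_local hi h0 h1 h0' h1' hη hpow hne Ra Rb Rc p (ha p) (hb p) (hc p) (hcol p)
  have e6 := LP_add_compl h1 Rc
  linarith

end BPlus

end Pool.Agent.Work.MP_a793bb_nt
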