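import Pool.Agent.Work.MP_a793bb_nt.RatioCount

set_option autoImplicit false
set_option linter.unusedSectionVars false

namespace Pool.Agent.Work.MP_a793bb_nt

open NumberField IsDedekindDomain Height nonZeroDivisors Module

variable {K : Type*} [Field K] [NumberField K]

lemma one_add_six_ne_zero (s : 𝓞 K) : (1 + 6 * s : 𝓞 K) ≠ 0 := by
  intro h
  have h1 : Ideal.span {(6 : 𝓞 K)} = ⊤ := by
    rw [Ideal.span_singleton_eq_top]
    exact IsUnit.of_mul_eq_one (-s) (by linear_combination -h)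
  have h2 := congrArg Ideal.absNorm h1
  rw [Ideal.absNorm_top, Ideal.absNorm_span_singleton] at h2
  have h3 : Algebra.norm ℤ (6 : 𝓞 K) = 6 ^ finrank ℤ (𝓞 K) := by
    have := Algebra.norm_algebraMap (R := ℤ) (S := 𝓞 K) (6 : ℤ)
    simpa using this
  rw [h3, Int.natAbs_pow] at h2
  have h4 : 0 < finrank ℤ (𝓞 K) := by
    rw [RingOfIntegers.rank K]; exact finrank_pos
  have h5 : 1 < (6 : ℤ).natAbs ^ finrank ℤ (𝓞 K) := Nat.one_lt_pow h4.ne' (by norm_num)
  omega

lemma boxSix_ne_zero {T : ℝ} {u : 𝓞 K} (hu : u ∈ boxSix K T) : u ≠ 0 := by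
  obtain ⟨⟨s, rfl⟩, -⟩ := hu
  exact one_add_six_ne_zero s

lemma logHeight₁_int_le {T : ℝ} (hT : 1 ≤ T) {u : 𝓞 K} (hu : ∀ v : InfinitePlace K, v (u : K) ≤ T) :
    logHeight₁ (u : K) ≤ finrank ℚ K * Real.log T := by
  rw [logHeight₁_eq_log_mulHeight₁]
  have h := mulHeight₁_int_le hT hu
  have h1 := Real.log_le_log (mulHeight₁_pos _) h
  rwa [Real.log_pow] at h1

variable (K) in
lemma card_same_span {δ : ℝ} (hδ : 0 < δ) : ∃ C : ℝ, 1 ≤ C ∧ ∀ T : ℝ, 1 ≤ T → ∀ u₀ ∈ boxSix K T,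
    ({u | u ∈ boxSix K T ∧ Ideal.span {u} = Ideal.span {u₀}}.ncard : ℝ) ≤ C * T ^ δ := by
  classical
  obtain ⟨C₂, hC₂, h2⟩ := card_units_le K
  set d : ℝ := (finrank ℚ K : ℝ) with hd
  have hd0 : 0 < d := finrank_pos'
  obtain ⟨C₃, hC₃, h3⟩ := one_add_log_pow_le (δ := δ / (d + 1)) (by positivity) (Units.rank K)
  refine ⟨max 1 (C₂ * C₃), le_max_left _ _, fun T hT u₀ hu₀ => ?_⟩
  have hlogT : 0 ≤ Real.log T := Real.log_nonneg hT
  obtain ⟨hufin, hucard⟩ := h2 ((d + 1) * Real.log T) (by positivity)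
  set U := {u : (𝓞 K)ˣ | ∀ v : InfinitePlace K, Real.log (v (u : K)) ≤ (d + 1) * Real.log T} with hU
  have hu₀0 := boxSix_ne_zero hu₀
  have hsub : {u | u ∈ boxSix K T ∧ Ideal.span {u} = Ideal.span {u₀}} ⊆
      (fun η : (𝓞 K)ˣ => u₀ * (η : 𝓞 K)) '' U := by
    rintro u ⟨hu, hspan⟩
    rw [Ideal.span_singleton_eq_span_singleton] at hspan
    obtain ⟨η, hη⟩ := hspan.symm
    refine ⟨η, fun v => ?_, hη⟩
    have e1 : ((η : 𝓞 K) : K) = (u : K) * (u₀ : K)⁻¹ := by
      have hu₀' : (u₀ : K) ≠ 0 := by exact_mod_cast hu₀0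
      rw [← hη]
      push_cast
      field_simp
    have hu0 := boxSix_ne_zero hu
    have hu' : v (u : K) ≠ 0 := by
      rw [Ne, map_eq_zero]; exact_mod_cast hu0
    have hu₀' : v ((u₀ : K)⁻¹) ≠ 0 := by
      rw [Ne, map_eq_zero, inv_eq_zero]; exact_mod_cast hu₀0
    have e2 : Real.log (v ((η : 𝓞 K) : K)) = Real.log (v (u : K)) + Real.log (v ((u₀ : K)⁻¹)) := by
      rw [e1, map_mul, Real.log_mul hu' hu₀']
    have e3 := log_place_le_logHeight₁ v (u₀ : K)⁻¹
    rw [logHeight₁_inv] at e3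
    have e4 := logHeight₁_int_le hT hu₀.2
    have e5 : Real.log (v (u : K)) ≤ Real.log T :=
      Real.log_le_log (lt_of_le_of_ne (apply_nonneg _ _) hu'.symm) (hu.2 v)
    change Real.log (v ((η : 𝓞 K) : K)) ≤ _
    rw [e2]
    nlinarith
  have h4 : ({u | u ∈ boxSix K T ∧ Ideal.span {u} = Ideal.span {u₀}}.ncard : ℝ) ≤ U.ncard := by
    have h5 := (Set.ncard_le_ncard hsub (hufin.image _)).trans (Set.ncard_image_le hufin)
    exact_mod_cast h5
  refine h4.trans (hucard.trans ?_)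
  have h6 := h3 (T ^ (d + 1)) (Real.one_le_rpow hT (by positivity))
  rw [Real.log_rpow (by linarith), ← Real.rpow_mul (by linarith)] at h6
  have h7 : (d + 1) * (δ / (d + 1)) = δ := by field_simp
  rw [h7] at h6
  calc C₂ * (1 + (d + 1) * Real.log T) ^ Units.rank K
      ≤ C₂ * (1 + 2 * ((d + 1) * Real.log T)) ^ Units.rank K := by
        have h8 : 0 ≤ (d + 1) * Real.log T := by positivity
        exact mul_le_mul_of_nonneg_left (pow_le_pow_left₀ (by linarith) (by linarith) _) hC₂.le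
    _ ≤ C₂ * (C₃ * T ^ δ) := by gcongr
    _ = (C₂ * C₃) * T ^ δ := by ring
    _ ≤ max 1 (C₂ * C₃) * T ^ δ := by
        gcongr
        exact le_max_right _ _

open Classical in
/-- the box as a finite subset of the field -/
noncomputable def boxF (K : Type*) [Field K] [NumberField K] (T : ℝ) : Finset K :=
  if h : (boxSix K T).Finite then h.toFinset.image (fun u : 𝓞 K => (u : K)) else ∅

lemma mem_boxF {T : ℝ} (hT : 1 ≤ T) (x : K) : x ∈ boxF K T ↔ ∃ u ∈ boxSix K T, (u : K) = x := by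
  rw [boxF, dif_pos (finite_boxSix hT)]
  simp

lemma card_boxF {T : ℝ} (hT : 1 ≤ T) : (boxF K T).card = (boxSix K T).ncard := by
  classical
  rw [boxF, dif_pos (finite_boxSix hT), Finset.card_image_of_injective _ RingOfIntegers.coe_injective,
    Set.ncard_eq_toFinset_card _ (finite_boxSix hT)]

open Classical in
variable (K) in
lemma rep_count {δ : ℝ} (hδ : 0 < δ) : ∃ C : ℝ, 1 ≤ C ∧ ∀ T : ℝ, 1 ≤ T → ∀ w : K, w ≠ 0 →
    ((((boxF K T) ×ˢ (boxF K T)).filter fun p => p.1 * p.2 = w).card : ℝ) ≤ C * T ^ δ := by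
  set d : ℝ := (finrank ℚ K : ℝ) with hd
  have hd0 : 0 < d := finrank_pos'
  obtain ⟨C₁, hC₁, h1⟩ := card_same_span K (δ := δ / 2) (by positivity)
  obtain ⟨C₂, hC₂, h2⟩ := card_dvd_le K (δ := δ / (4 * d)) (by positivity)
  refine ⟨C₁ * C₂, by nlinarith, fun T hT w hw => ?_⟩
  set P := ((boxF K T) ×ˢ (boxF K T)).filter fun p => p.1 * p.2 = w with hP
  rcases P.eq_empty_or_nonempty with h0 | ⟨q, hq⟩
  · rw [h0, Finset.card_empty, Nat.cast_zero]
    have : 0 < T ^ δ := Real.rpow_pos_of_pos (by linarith) _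
    positivity
  -- w is an integer
  rw [hP, Finset.mem_filter, Finset.mem_product, mem_boxF hT, mem_boxF hT] at hq
  obtain ⟨⟨⟨a, ha, ha'⟩, b, hb, hb'⟩, hq⟩ := hq
  set W : 𝓞 K := a * b with hW
  have hWw : (W : K) = w := by rw [hW, ← hq, ← ha', ← hb']; push_cast; rfl
  have hW0 : W ≠ 0 := mul_ne_zero (boxSix_ne_zero ha) (boxSix_ne_zero hb)
  have hWspan : Ideal.span {W} ≠ (⊥ : Ideal (𝓞 K)) := by simpa using hW0
  have hNW : (Ideal.absNorm (Ideal.span {W}) : ℝ) ≤ T ^ (2 * d) := by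
    have e1 : ∏ v : InfinitePlace K, v (W : K) ^ v.mult = (Ideal.absNorm (Ideal.span {W}) : ℝ) := by
      rw [InfinitePlace.prod_eq_abs_norm, Ideal.absNorm_span_singleton]
      have h := Algebra.coe_norm_int W
      rw [← Int.cast_natCast, Int.natCast_natAbs, Int.cast_abs]
      have h2 : ((Algebra.norm ℤ W : ℤ) : ℚ) = Algebra.norm ℚ (W : K) := h
      rw [← h2]
      push_cast
      rfl
    rw [← e1]
    calc ∏ v : InfinitePlace K, v (W : K) ^ v.mult ≤ ∏ v : InfinitePlace K, (T ^ 2) ^ v.mult := by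
          apply Finset.prod_le_prod (fun v _ => by positivity)
          intro v _
          apply pow_le_pow_left₀ (apply_nonneg _ _)
          rw [hW]
          push_cast
          rw [map_mul, sq]
          exact mul_le_mul (ha.2 v) (hb.2 v) (apply_nonneg _ _) (by linarith)
      _ = T ^ (2 * d) := by
          rw [Finset.prod_pow_eq_pow_sum, InfinitePlace.sum_mult_eq, ← pow_mul, hd,
            ← Real.rpow_natCast]
          push_cast
          rfl
  obtain ⟨hDfin, hDcard⟩ := h2 _ hWspan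
  -- the map to ideals
  set A := {u : 𝓞 K | u ∈ boxSix K T ∧ u ∣ W} with hA
  have hAfin : A.Finite := (finite_boxSix hT).subset fun u hu => hu.1
  have hPA : P.card ≤ hAfin.toFinset.card := by
    have hinj : P.card = (P.image Prod.fst).card := by
      rw [Finset.card_image_of_injOn]
      rintro ⟨x, y⟩ hxy ⟨x', y'⟩ hxy' h
      rw [Finset.mem_coe, hP, Finset.mem_filter, Finset.mem_product] at hxy hxy'
      simp only at hxy hxy' h
      subst h
      obtain ⟨⟨hx, -⟩, h3⟩ := hxy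
      obtain ⟨-, h4⟩ := hxy'
      rw [mem_boxF hT] at hx
      obtain ⟨u, hu, rfl⟩ := hx
      have hu0 : (u : K) ≠ 0 := by exact_mod_cast boxSix_ne_zero hu
      rw [Prod.mk.injEq]
      refine ⟨rfl, mul_left_cancel₀ hu0 (h3.trans h4.symm)⟩
    rw [hinj]
    have : P.image Prod.fst ⊆ hAfin.toFinset.image (fun u : 𝓞 K => (u : K)) := by
      intro x hx
      rw [Finset.mem_image] at hx
      obtain ⟨⟨x', y⟩, hxy, rfl⟩ := hx
      rw [hP, Finset.mem_filter, Finset.mem_product, mem_boxF hT, mem_boxF hT] at hxy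
      obtain ⟨⟨⟨u, hu, hux⟩, u', hu', hu'y⟩, h⟩ := hxy
      simp only at h hux hu'y
      rw [Finset.mem_image]
      refine ⟨u, ?_, hux⟩
      rw [Set.Finite.mem_toFinset]
      refine ⟨hu, u', ?_⟩
      apply RingOfIntegers.coe_injective
      change (W : K) = _
      rw [hWw, ← h, ← hux, ← hu'y]
      exact (map_mul (algebraMap (𝓞 K) K) u u').symm
    exact (Finset.card_le_card this).trans Finset.card_image_le
  have himg : ((hAfin.toFinset.image fun u : 𝓞 K => Ideal.span {u}).card : ℝ) ≤ C₂ * T ^ (δ / 2) := by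
    have h3 : hAfin.toFinset.image (fun u : 𝓞 K => Ideal.span {u}) ⊆ hDfin.toFinset := by
      intro I hI
      rw [Finset.mem_image] at hI
      obtain ⟨u, hu, rfl⟩ := hI
      rw [Set.Finite.mem_toFinset] at hu
      rw [Set.Finite.mem_toFinset, Set.mem_ofPred_eq, Ideal.dvd_iff_le,
        Ideal.span_singleton_le_span_singleton]
      exact hu.2
    have h4 := Finset.card_le_card h3
    rw [← Set.ncard_eq_toFinset_card _ hDfin] at h4
    calc ((hAfin.toFinset.image fun u : 𝓞 K => Ideal.span {u}).card : ℝ)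
        ≤ (({I : Ideal (𝓞 K) | I ∣ Ideal.span {W}}.ncard : ℕ) : ℝ) := by exact_mod_cast h4
      _ ≤ C₂ * (Ideal.absNorm (Ideal.span {W}) : ℝ) ^ (δ / (4 * d)) := hDcard
      _ ≤ C₂ * (T ^ (2 * d)) ^ (δ / (4 * d)) := by gcongr
      _ = C₂ * T ^ (δ / 2) := by
          rw [← Real.rpow_mul (by linarith)]
          congr 2
          field_simp
          ring
  set n : ℕ := ⌊C₁ * T ^ (δ / 2)⌋₊ with hn
  have hfib : ∀ I ∈ hAfin.toFinset.image (fun u : 𝓞 K => Ideal.span {u}),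
      (hAfin.toFinset.filter fun u => Ideal.span {u} = I).card ≤ n := by
    intro I hI
    rw [Finset.mem_image] at hI
    obtain ⟨u₀, hu₀, rfl⟩ := hI
    rw [Set.Finite.mem_toFinset] at hu₀
    apply Nat.le_floor
    refine le_trans ?_ (h1 T hT u₀ hu₀.1)
    have hfin : {u | u ∈ boxSix K T ∧ Ideal.span {u} = Ideal.span {u₀}}.Finite :=
      (finite_boxSix hT).subset fun u hu => hu.1
    rw [Set.ncard_eq_toFinset_card _ hfin]
    have : (hAfin.toFinset.filter fun u => Ideal.span {u} = Ideal.span {u₀}) ⊆ hfin.toFinset := by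
      intro u hu
      rw [Finset.mem_filter, Set.Finite.mem_toFinset] at hu
      rw [Set.Finite.mem_toFinset]
      exact ⟨hu.1.1, hu.2⟩
    exact_mod_cast Finset.card_le_card this
  have hmain := Finset.card_le_mul_card_image hAfin.toFinset n hfib
  calc (P.card : ℝ) ≤ (hAfin.toFinset.card : ℝ) := by exact_mod_cast hPA
    _ ≤ ((n * (hAfin.toFinset.image fun u : 𝓞 K => Ideal.span {u}).card : ℕ) : ℝ) := by
        exact_mod_cast hmain
    _ ≤ (C₁ * T ^ (δ / 2)) * (C₂ * T ^ (δ / 2)) := by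
        push_cast
        gcongr
        exact Nat.floor_le (by positivity)
    _ = C₁ * C₂ * T ^ δ := by
        have : T ^ δ = T ^ (δ / 2) * T ^ (δ / 2) := by
          rw [← Real.rpow_add (by linarith)]; congr 1; ring
        rw [this]; ring

open Classical in
variable (K) in
/-- many ratios of integers congruent to one modulo six -/
theorem ratios_lower {δ : ℝ} (hδ : 0 < δ) : ∃ c : ℝ, 0 < c ∧ ∀ T : ℝ, 2 ≤ T →
    c * T ^ (2 * (finrank ℚ K : ℝ) - δ) ≤
      ((((boxF K T) ×ˢ (boxF K T)).image fun p => p.1 / p.2).card : ℝ) := by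
  obtain ⟨C, hC, h1⟩ := rep_count K hδ
  obtain ⟨c, hc, h2⟩ := card_boxSix_ge K
  refine ⟨c ^ 2 / C, by positivity, fun T hT => ?_⟩
  have hT1 : 1 ≤ T := by linarith
  have h3 := ratio_count (B := boxF K T) (r := ⌊C * T ^ δ⌋₊) (by
    intro u hu
    rw [mem_boxF hT1] at hu
    obtain ⟨u', hu', rfl⟩ := hu
    exact_mod_cast boxSix_ne_zero hu') (by
    intro w hw
    apply Nat.le_floor
    exact h1 T hT1 w hw)
  have h4 : ((boxF K T).card : ℝ) ^ 2 ≤
      ((((boxF K T) ×ˢ (boxF K T)).image fun p => p.1 / p.2).card : ℝ) * (C * T ^ δ) := by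
    calc ((boxF K T).card : ℝ) ^ 2 ≤
          ((((boxF K T) ×ˢ (boxF K T)).image fun p => p.1 / p.2).card : ℝ) * (⌊C * T ^ δ⌋₊ : ℝ) := by
          exact_mod_cast h3
      _ ≤ _ := by
          gcongr
          exact Nat.floor_le (by positivity)
  have h5 := h2 T hT
  rw [← card_boxF hT1] at h5
  have h6 : (c * T ^ finrank ℚ K) ^ 2 ≤ ((boxF K T).card : ℝ) ^ 2 :=
    pow_le_pow_left₀ (by positivity) h5 2
  have hTpos : 0 < T := by linarith
  have h7 : T ^ (2 * (finrank ℚ K : ℝ) - δ) * T ^ δ = (T ^ finrank ℚ K) ^ 2 := by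
    rw [← Real.rpow_add hTpos, sub_add_cancel, ← pow_mul, ← Real.rpow_natCast]
    congr 1
    push_cast
    ring
  have hCT : 0 < C * T ^ δ := by positivity
  rw [← mul_le_mul_iff_of_pos_right hCT]
  calc c ^ 2 / C * T ^ (2 * (finrank ℚ K : ℝ) - δ) * (C * T ^ δ)
      = c ^ 2 * (T ^ (2 * (finrank ℚ K : ℝ) - δ) * T ^ δ) := by field_simp
    _ = (c * T ^ finrank ℚ K) ^ 2 := by rw [h7]; ring
    _ ≤ _ := h6.trans h4

end Pool.Agent.Work.MP_a793bb_nt
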