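import Pool.Agent.Work.MP_a793bb_nt.LowerCount

set_option autoImplicit false
set_option linter.unusedSectionVars false

namespace Pool.Agent.Work.MP_a793bb_nt

open NumberField IsDedekindDomain Height nonZeroDivisors Module Filter Topology

variable {K : Type*} [Field K] [NumberField K]

lemma span_pair_eq {u v : 𝓞 K} (hu : ∃ s : 𝓞 K, u = 1 + 6 * s) (hv : ∃ s : 𝓞 K, v = 1 + 6 * s)
    (m n : ℕ) : Ideal.span (Set.range ![2 ^ m * u, 3 ^ n * v]) = Ideal.span (Set.range ![u, v]) := by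
  obtain ⟨s, hs⟩ := hu
  obtain ⟨s', hs'⟩ := hv
  have h23 : IsCoprime (2 : 𝓞 K) 3 := ⟨-1, 1, by norm_num⟩
  have h2v : IsCoprime (2 : 𝓞 K) v := ⟨-(3 * s'), 1, by rw [hs']; ring⟩
  have h3u : IsCoprime (3 : 𝓞 K) u := ⟨-(2 * s), 1, by rw [hs]; ring⟩
  have c1 : IsCoprime ((2 : 𝓞 K) ^ m) (3 ^ n * v) := IsCoprime.mul_right h23.pow h2v.pow_left
  have c2 : IsCoprime ((3 : 𝓞 K) ^ n) (2 ^ m * u) := IsCoprime.mul_right h23.symm.pow h3u.pow_left
  have m1 : ∀ x y : 𝓞 K, x ∈ Ideal.span (Set.range ![x, y]) := fun x y =>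
    Ideal.subset_span ⟨0, rfl⟩
  have m2 : ∀ x y : 𝓞 K, y ∈ Ideal.span (Set.range ![x, y]) := fun x y =>
    Ideal.subset_span ⟨1, rfl⟩
  apply le_antisymm
  · rw [Ideal.span_le]
    rintro _ ⟨i, rfl⟩
    fin_cases i
    · exact Ideal.mul_mem_left _ _ (m1 u v)
    · exact Ideal.mul_mem_left _ _ (m2 u v)
  · rw [Ideal.span_le]
    rintro _ ⟨i, rfl⟩
    fin_cases i
    · obtain ⟨α, β, h⟩ := c1
      change u ∈ Ideal.span (Set.range ![2 ^ m * u, 3 ^ n * v])
      have e : u = α * (2 ^ m * u) + (β * u) * (3 ^ n * v) := by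
        calc u = (α * 2 ^ m + β * (3 ^ n * v)) * u := by rw [h, one_mul]
          _ = _ := by ring
      have := Ideal.add_mem _ (Ideal.mul_mem_left _ α (m1 (2 ^ m * u) (3 ^ n * v)))
        (Ideal.mul_mem_left _ (β * u) (m2 (2 ^ m * u) (3 ^ n * v)))
      rwa [← e] at this
    · obtain ⟨α, β, h⟩ := c2
      change v ∈ Ideal.span (Set.range ![2 ^ m * u, 3 ^ n * v])
      have e : v = (β * v) * (2 ^ m * u) + α * (3 ^ n * v) := by
        calc v = (α * 3 ^ n + β * (2 ^ m * u)) * v := by rw [h, one_mul]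
          _ = _ := by ring
      have := Ideal.add_mem _ (Ideal.mul_mem_left _ (β * v) (m1 (2 ^ m * u) (3 ^ n * v)))
        (Ideal.mul_mem_left _ α (m2 (2 ^ m * u) (3 ^ n * v)))
      rwa [← e] at this

lemma mulHeight₁_quot (a : 𝓞 K) {b : 𝓞 K} (hb : b ≠ 0) :
    mulHeight₁ ((a : K) / (b : K)) * (Ideal.absNorm (Ideal.span (Set.range ![a, b])) : ℝ) =
      ∏ v : InfinitePlace K, (max (v (a : K)) (v (b : K))) ^ v.mult := by
  rw [mulHeight₁_div_eq_mulHeight]
  have hy : (![a, b] : Fin 2 → 𝓞 K) ≠ 0 := by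
    intro h0
    exact hb (congrFun h0 1)
  have h1 := mulHeight_int ![a, b] hy
  have h2 : (fun i => ((![a, b] : Fin 2 → 𝓞 K) i : K)) = ![(a : K), (b : K)] := by
    ext i; fin_cases i <;> rfl
  rw [h2] at h1
  rw [h1]
  refine Finset.prod_congr rfl fun v _ => ?_
  congr 1
  apply le_antisymm
  · apply ciSup_le
    intro i
    fin_cases i
    · exact le_max_left _ _
    · exact le_max_right _ _
  · apply max_le
    · exact Finite.le_ciSup (fun i => v ((![a, b] : Fin 2 → 𝓞 K) i : K)) 0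
    · exact Finite.le_ciSup (fun i => v ((![a, b] : Fin 2 → 𝓞 K) i : K)) 1

lemma prod_const_mult (c : ℝ) : ∏ v : InfinitePlace K, c ^ v.mult = c ^ finrank ℚ K := by
  rw [Finset.prod_pow_eq_pow_sum, InfinitePlace.sum_mult_eq]

/-- the heights of `(2 ^ m u) / (3 ^ n v)` and of `u / v` -/
lemma height_twist {u v : 𝓞 K} (hu : ∃ s : 𝓞 K, u = 1 + 6 * s) (hv : ∃ s : 𝓞 K, v = 1 + 6 * s)
    {m n : ℕ} (hmn : 2 ^ m ≤ 3 ^ n) :
    ((2 : ℝ) ^ m) ^ finrank ℚ K * mulHeight₁ ((u : K) / (v : K)) ≤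
      mulHeight₁ (-(((2 ^ m * u : 𝓞 K) : K) / ((3 ^ n * v : 𝓞 K) : K))) ∧
    mulHeight₁ (-(((2 ^ m * u : 𝓞 K) : K) / ((3 ^ n * v : 𝓞 K) : K))) ≤
      ((3 : ℝ) ^ n) ^ finrank ℚ K * mulHeight₁ ((u : K) / (v : K)) := by
  have hv0 : v ≠ 0 := by obtain ⟨s, rfl⟩ := hv; exact one_add_six_ne_zero s
  have hb0 : (3 ^ n * v : 𝓞 K) ≠ 0 := mul_ne_zero (pow_ne_zero _ (by norm_num)) hv0
  rw [mulHeight₁_neg]
  have h1 := mulHeight₁_quot u hv0
  have h2 := mulHeight₁_quot (2 ^ m * u : 𝓞 K) hb0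
  rw [span_pair_eq hu hv] at h2
  set N : ℝ := (Ideal.absNorm (Ideal.span (Set.range ![u, v])) : ℝ) with hN
  have hNpos : 0 < N := by
    have : (1 : ℝ) ≤ N := by
      apply one_le_absNorm K
      intro h0
      rw [Ideal.span_eq_bot] at h0
      exact hv0 (h0 v ⟨1, rfl⟩)
    linarith
  have hmn' : (2 : ℝ) ^ m ≤ 3 ^ n := by exact_mod_cast hmn
  have hva : ∀ w : InfinitePlace K, w ((2 ^ m * u : 𝓞 K) : K) = 2 ^ m * w (u : K) := by
    intro w
    have h3 : w (2 : K) = 2 := by rw [← w.norm_embedding_eq, map_ofNat]; simp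
    have h4 : ((2 ^ m * u : 𝓞 K) : K) = 2 ^ m * (u : K) := by
      have e : algebraMap (𝓞 K) K (2 ^ m * u) = 2 ^ m * algebraMap (𝓞 K) K u := by
        rw [map_mul, map_pow, map_ofNat]
      exact e
    rw [h4, map_mul, map_pow, h3]
  have hvb : ∀ w : InfinitePlace K, w ((3 ^ n * v : 𝓞 K) : K) = 3 ^ n * w (v : K) := by
    intro w
    have h3 : w (3 : K) = 3 := by rw [← w.norm_embedding_eq, map_ofNat]; simp
    have h4 : ((3 ^ n * v : 𝓞 K) : K) = 3 ^ n * (v : K) := by
      have e : algebraMap (𝓞 K) K (3 ^ n * v) = 3 ^ n * algebraMap (𝓞 K) K v := by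
        rw [map_mul, map_pow, map_ofNat]
      exact e
    rw [h4, map_mul, map_pow, h3]
  have hnonneg : ∀ (w : InfinitePlace K) (x : K), 0 ≤ w x := fun w x => apply_nonneg _ _
  constructor
  · rw [← mul_le_mul_iff_of_pos_right hNpos, mul_assoc, h1, h2, ← prod_const_mult (K := K),
      ← Finset.prod_mul_distrib]
    apply Finset.prod_le_prod
    · intro w _
      have := hnonneg w (u : K)
      positivity
    · intro w _
      rw [← mul_pow, hva, hvb]
      have h3 := hnonneg w (u : K)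
      have h4 := hnonneg w (v : K)
      apply pow_le_pow_left₀ (by positivity)
      rw [mul_max_of_nonneg _ _ (by positivity)]
      exact max_le_max le_rfl (mul_le_mul_of_nonneg_right hmn' h4)
  · rw [← mul_le_mul_iff_of_pos_right hNpos, mul_assoc, h1, h2, ← prod_const_mult (K := K),
      ← Finset.prod_mul_distrib]
    apply Finset.prod_le_prod
    · intro w _
      have := hnonneg w ((2 ^ m * u : 𝓞 K) : K)
      positivity
    · intro w _
      rw [← mul_pow, hva, hvb]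
      have h3 := hnonneg w (u : K)
      have h4 := hnonneg w (v : K)
      apply pow_le_pow_left₀ (by positivity)
      rw [mul_max_of_nonneg _ _ (by positivity)]
      exact max_le_max (mul_le_mul_of_nonneg_right hmn' h3) le_rfl

lemma mulHeight₁_quot_box {T : ℝ} {u v : 𝓞 K} (hu : u ∈ boxSix K T)
    (hv : v ∈ boxSix K T) : mulHeight₁ ((u : K) / (v : K)) ≤ T ^ finrank ℚ K := by
  have hv0 := boxSix_ne_zero hv
  have h1 := mulHeight₁_quot u hv0
  have hN1 : (1 : ℝ) ≤ (Ideal.absNorm (Ideal.span (Set.range ![u, v])) : ℝ) := by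
    apply one_le_absNorm K
    intro h0
    rw [Ideal.span_eq_bot] at h0
    exact hv0 (h0 v ⟨1, rfl⟩)
  have hpos := mulHeight₁_pos ((u : K) / (v : K))
  calc mulHeight₁ ((u : K) / (v : K)) ≤ mulHeight₁ ((u : K) / (v : K)) *
        (Ideal.absNorm (Ideal.span (Set.range ![u, v])) : ℝ) := le_mul_of_one_le_right hpos.le hN1
    _ ≤ _ := by
        rw [h1, ← prod_const_mult (K := K)]
        apply Finset.prod_le_prod
        · intro w _
          have : 0 ≤ w (u : K) := apply_nonneg _ _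
          positivity
        · intro w _
          have h3 : 0 ≤ w (u : K) := apply_nonneg _ _
          apply pow_le_pow_left₀ (by positivity)
          exact max_le (hu.2 w) (hv.2 w)

variable (K) in
/-- the radical of the twisted point -/
lemma rad_twist : ∃ C : ℝ, 1 ≤ C ∧ ∀ (x : K) (m n : ℕ), x ≠ 0 → -((2 ^ m / 3 ^ n) * x) ≠ 1 →
    Real.exp (Rs (Ip (-((2 ^ m / 3 ^ n) * x)))) ≤
      C * mulHeight₁ x ^ 2 * mulHeight₁ (1 - (-((2 ^ m / 3 ^ n) * x))) := by
  have h6 : (6 : K) ≠ 0 := by norm_num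
  refine ⟨Real.exp (Rs (Zp (6 : K))), Real.one_le_exp (Rs_nonneg _), fun x m n hx ht1 => ?_⟩
  set t : K := -((2 ^ m / 3 ^ n) * x) with ht
  have h2 : (2 : K) ≠ 0 := by norm_num
  have h3 : (3 : K) ≠ 0 := by norm_num
  have ht0 : t ≠ 0 := by
    rw [ht]
    exact neg_ne_zero.mpr (mul_ne_zero (div_ne_zero (pow_ne_zero _ h2) (pow_ne_zero _ h3)) hx)
  have ht1' : 1 - t ≠ 0 := sub_ne_zero.mpr (Ne.symm ht1)
  have hsub : Ip t ⊆ Zp (6 : K) ∪ Zp x ∪ Zp x⁻¹ ∪ Zp (1 - t) := by
    intro p hp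
    by_contra hcon
    simp only [Set.mem_union, not_or] at hcon
    obtain ⟨⟨⟨h6p, hxp⟩, hxp'⟩, h1t⟩ := hcon
    rw [mem_Ip] at hp
    apply hp
    have e6 : av p (6 : K) = 1 := by
      apply le_antisymm
      · have : p.valuation K (algebraMap (𝓞 K) K 6) ≤ 1 := p.valuation_le_one (6 : 𝓞 K)
        by_contra h
        have h7 : algebraMap (𝓞 K) K 6 = 6 := map_ofNat _ 6
        rw [h7] at this
        rcases this.lt_or_eq with h8 | h8
        · rw [← av_lt_one_iff] at h8; linarith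
        · have h9 : av p (6 : K) = av p (1 : K) := by rw [av_eq_av_iff, h8, map_one]
          rw [av_one] at h9
          linarith
      · exact not_lt.mp h6p
    have hle : ∀ k : ℕ, av p ((k : ℕ) : K) ≤ 1 := by
      intro k
      have : p.valuation K (algebraMap (𝓞 K) K ((k : ℕ) : 𝓞 K)) ≤ 1 :=
        p.valuation_le_one ((k : ℕ) : 𝓞 K)
      have h7 : algebraMap (𝓞 K) K ((k : ℕ) : 𝓞 K) = k := map_natCast _ k
      rw [h7] at this
      rcases this.lt_or_eq with h8 | h8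
      · rw [← av_lt_one_iff] at h8; exact h8.le
      · have h9 : av p ((k : ℕ) : K) = av p (1 : K) := by rw [av_eq_av_iff, h8, map_one]
        rw [av_one] at h9
        exact h9.le
    have e23 : av p (2 : K) * av p (3 : K) = 1 := by
      rw [← av_mul, ← e6]; norm_num
    have l2 : av p (2 : K) ≤ 1 := by exact_mod_cast hle 2
    have l3 : av p (3 : K) ≤ 1 := by exact_mod_cast hle 3
    have n2 := av_nonneg p (2 : K)
    have n3 := av_nonneg p (3 : K)
    have e2 : av p (2 : K) = 1 := by nlinarith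
    have e3 : av p (3 : K) = 1 := by nlinarith
    have ex : av p x = 1 := by
      apply le_antisymm
      · rw [mem_Zp_inv p hx] at hxp'
        exact not_lt.mp hxp'
      · exact not_lt.mp hxp
    have et : av p t = 1 := by
      rw [ht, av_neg, av_mul, div_eq_mul_inv, av_mul, av_inv, av_pow, av_pow, e2, e3, ex]
      simp
    refine ⟨et, le_antisymm ?_ (not_lt.mp h1t)⟩
    refine (av_sub_le p 1 t).trans ?_
    rw [av_one, et]
    simp
  have hf6 := finite_Zp h6
  have hfx := finite_Zp hx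
  have hfx' := finite_Zp (inv_ne_zero hx)
  have hft := finite_Zp ht1'
  have r1 := Rs_mono (((hf6.union hfx).union hfx').union hft) hsub
  have r2 := Rs_union_le ((hf6.union hfx).union hfx') hft
  have r3 := Rs_union_le (hf6.union hfx) hfx'
  have r4 := Rs_union_le hf6 hfx
  have s1 := Rs_Zp_le hx
  have s2 := Rs_Zp_le (inv_ne_zero hx)
  rw [logHeight₁_inv] at s2
  have s3 := Rs_Zp_le ht1'
  have hfinal : Rs (Ip t) ≤ Rs (Zp (6 : K)) + 2 * logHeight₁ x + logHeight₁ (1 - t) := by linarith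
  have e1 : Real.exp (logHeight₁ x) = mulHeight₁ x := by
    rw [logHeight₁_eq_log_mulHeight₁, Real.exp_log (mulHeight₁_pos x)]
  have e2 : Real.exp (logHeight₁ (1 - t)) = mulHeight₁ (1 - t) := by
    rw [logHeight₁_eq_log_mulHeight₁, Real.exp_log (mulHeight₁_pos _)]
  calc Real.exp (Rs (Ip t)) ≤ Real.exp (Rs (Zp (6 : K)) + 2 * logHeight₁ x + logHeight₁ (1 - t)) :=
        Real.exp_le_exp.mpr hfinal
    _ = _ := by
        rw [Real.exp_add, Real.exp_add, e2, two_mul, Real.exp_add, e1]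
        ring

end Pool.Agent.Work.MP_a793bb_nt
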