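import Pool.Agent.Work.MP_a793bb_nt.Transfer

set_option autoImplicit false
set_option linter.unusedSectionVars false

namespace Pool.Agent.Work.MP_a793bb_nt

open NumberField IsDedekindDomain Height

lemma norm_pow_sub_one_le_mul {v : ℂ} (hv : ‖v‖ = 1) (m : ℕ) : ‖v ^ m - 1‖ ≤ m * ‖v - 1‖ := by
  induction m with
  | zero => simp
  | succ m ih =>
    have h : v ^ (m + 1) - 1 = v ^ m * (v - 1) + (v ^ m - 1) := by ring
    rw [h]
    refine (norm_add_le _ _).trans ?_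
    rw [norm_mul, norm_pow, hv, one_pow, one_mul]
    push_cast
    linarith

/-- pigeonhole on the torus -/
lemma exists_pow_near_one (ι : Type*) [Fintype ι] {δ : ℝ} (hδ : 0 < δ) :
    ∃ N : ℕ, ∀ u : ι → ℂ, (∀ i, ‖u i‖ = 1) → ∃ n, 1 ≤ n ∧ n ≤ N ∧ ∀ i, ‖u i ^ n - 1‖ ≤ δ := by
  have hc : TotallyBounded (Metric.closedBall (0 : ι → ℂ) 1) :=
    (isCompact_closedBall 0 1).totallyBounded
  obtain ⟨t, ht, hcov⟩ := Metric.totallyBounded_iff.mp hc (δ / 2) (by positivity)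
  refine ⟨ht.toFinset.card, fun u hu => ?_⟩
  have hmem : ∀ k : ℕ, u ^ k ∈ Metric.closedBall (0 : ι → ℂ) 1 := by
    intro k
    rw [mem_closedBall_zero_iff, pi_norm_le_iff_of_nonneg zero_le_one]
    intro i
    rw [Pi.pow_apply, norm_pow, hu i, one_pow]
  have hy : ∀ k : ℕ, ∃ y ∈ t, dist (u ^ k) y < δ / 2 := by
    intro k
    obtain ⟨y, hy, hk⟩ := Set.mem_iUnion₂.mp (hcov (hmem k))
    exact ⟨y, hy, hk⟩
  choose y hyt hyd using hy
  obtain ⟨i, hi, j, hj, hij, hyij⟩ := Finset.exists_ne_map_eq_of_card_lt_of_maps_to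
    (s := Finset.range (ht.toFinset.card + 1)) (t := ht.toFinset) (by simp)
    (f := y) (fun k _ => by simpa using hyt k)
  rw [Finset.mem_range] at hi hj
  have key : ∀ i j : ℕ, i < j → j < ht.toFinset.card + 1 → y i = y j →
      ∃ n, 1 ≤ n ∧ n ≤ ht.toFinset.card ∧ ∀ k, ‖u k ^ n - 1‖ ≤ δ := by
    intro i j hij hj hyij
    refine ⟨j - i, by omega, by omega, fun k => ?_⟩
    have h1 : dist (u ^ j) (u ^ i) < δ := by
      calc dist (u ^ j) (u ^ i) ≤ dist (u ^ j) (y j) + dist (y j) (u ^ i) := dist_triangle _ _ _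
        _ = dist (u ^ j) (y j) + dist (u ^ i) (y i) := by rw [← hyij, dist_comm (y i) (u ^ i)]
        _ < δ / 2 + δ / 2 := add_lt_add (hyd j) (hyd i)
        _ = δ := by ring
    have h2 : dist (u k ^ j) (u k ^ i) ≤ dist (u ^ j) (u ^ i) := dist_le_pi_dist (u ^ j) (u ^ i) k
    have h3 : u k ^ j - u k ^ i = u k ^ i * (u k ^ (j - i) - 1) := by
      rw [mul_sub, ← pow_add, mul_one]
      congr 2
      omega
    rw [dist_eq_norm, h3, norm_mul, norm_pow, hu k, one_pow, one_mul] at h2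
    linarith
  rcases lt_or_gt_of_ne hij with h | h
  · exact key i j h hj hyij
  · exact key j i h hi hyij.symm

/-- some bounded power is near a cusp at all places simultaneously -/
lemma exists_pow_near_cusp (ι : Type*) [Fintype ι] {η : ℝ} (hη : 0 < η) (hη1 : η ≤ 1) :
    ∃ N : ℕ, ∀ z : ι → ℂ, (∀ i, z i ≠ 0) → ∃ n, 1 ≤ n ∧ n ≤ N ∧
      ∀ i, ‖z i ^ n‖ ≤ η ∨ η⁻¹ ≤ ‖z i ^ n‖ ∨ ‖z i ^ n - 1‖ ≤ η := by
  classical
  set s := Fintype.card ι with hs
  obtain ⟨L, hL⟩ := exists_nat_ge (16 / η ^ 2)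
  have hL1 : (1 : ℝ) ≤ L := by
    refine le_trans ?_ hL
    rw [one_le_div (by positivity)]
    nlinarith
  have hLpos : (0 : ℝ) < L := by linarith
  obtain ⟨N₁, hN₁⟩ := exists_pow_near_one ι (δ := η / (2 * (L : ℝ) ^ s)) (by positivity)
  refine ⟨N₁ * L ^ s, fun z hz => ?_⟩
  have hznorm : ∀ i, (‖z i‖ : ℂ) ≠ 0 := fun i => by
    exact_mod_cast (norm_ne_zero_iff.mpr (hz i))
  set u : ι → ℂ := fun i => z i / (‖z i‖ : ℂ) with hu
  have hu1 : ∀ i, ‖u i‖ = 1 := by
    intro i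
    rw [hu]
    simp only [norm_div, Complex.norm_real, norm_norm]
    exact div_self (norm_ne_zero_iff.mpr (hz i))
  obtain ⟨n₁, h1n, hnN, hn₁⟩ := hN₁ u hu1
  set τ : ι → ℝ := fun i => |Real.log ‖z i‖| * n₁ with hτ
  -- choice of the exponent
  obtain ⟨j, hj, hgood⟩ : ∃ j ∈ Finset.range (s + 1), ∀ i, ¬ (η / 4 < (L : ℝ) ^ j * τ i ∧
      (L : ℝ) ^ j * τ i < 4 / η) := by
    by_contra hcon
    push Not at hcon
    have : Nonempty ι := ⟨(hcon 0 (by simp)).choose⟩
    choose! f hf using hcon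
    obtain ⟨a, ha, b, hb, hab, hfab⟩ := Finset.exists_ne_map_eq_of_card_lt_of_maps_to
      (s := Finset.range (s + 1)) (t := (Finset.univ : Finset ι)) (by simp [hs])
      (f := f) (fun k _ => Finset.mem_univ _)
    have key : ∀ a b, a < b → a ∈ Finset.range (s + 1) → b ∈ Finset.range (s + 1) →
        f a = f b → False := by
      intro a b hab ha hb hfab
      have h1 := (hf a ha).1
      have h2 := (hf b hb).2
      rw [← hfab] at h2
      have hτ0 : 0 ≤ τ (f a) := by positivity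
      have h3 : (L : ℝ) ^ (a + 1) ≤ (L : ℝ) ^ b := pow_le_pow_right₀ hL1 (by omega)
      have h4 : (L : ℝ) ^ (a + 1) * τ (f a) ≤ (L : ℝ) ^ b * τ (f a) :=
        mul_le_mul_of_nonneg_right h3 hτ0
      have h5 : (16 / η ^ 2) * (η / 4) ≤ L * ((L : ℝ) ^ a * τ (f a)) := by
        apply mul_le_mul hL h1.le (by positivity) (by positivity)
      have h6 : (16 / η ^ 2) * (η / 4) = 4 / η := by field_simp; ring
      rw [h6] at h5
      rw [pow_succ] at h4
      nlinarith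
    rcases lt_or_gt_of_ne hab with h | h
    · exact key a b h ha hb hfab
    · exact key b a h hb ha hfab.symm
  rw [Finset.mem_range] at hj
  have hLj : (L : ℝ) ^ j ≤ (L : ℝ) ^ s := pow_le_pow_right₀ hL1 (by omega)
  have hLjpos : (0 : ℝ) < (L : ℝ) ^ j := by positivity
  have hLnat : 1 ≤ L := by exact_mod_cast hL1
  refine ⟨n₁ * L ^ j, ?_, ?_, fun i => ?_⟩
  · exact Nat.mul_pos h1n (pow_pos hLnat j)
  · exact Nat.mul_le_mul hnN (Nat.pow_le_pow_right hLnat (by omega))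
  have hnpos : 0 < ‖z i‖ := norm_pos_iff.mpr (hz i)
  have hwpos : 0 < ‖z i ^ (n₁ * L ^ j)‖ := by
    rw [norm_pow]; positivity
  have hlog : Real.log ‖z i ^ (n₁ * L ^ j)‖ = (n₁ * (L : ℝ) ^ j) * Real.log ‖z i‖ := by
    rw [norm_pow, Real.log_pow]; push_cast; ring
  have habs : |Real.log ‖z i ^ (n₁ * L ^ j)‖| = (L : ℝ) ^ j * τ i := by
    rw [hlog, abs_mul, abs_of_nonneg (by positivity), hτ]
    ring
  have hg := hgood i
  rw [← habs] at hg
  set w := z i ^ (n₁ * L ^ j) with hw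
  set ℓ := Real.log ‖w‖ with hℓ
  have hexp : Real.exp ℓ = ‖w‖ := Real.exp_log hwpos
  by_cases hcase : η / 4 < |ℓ|
  · have h4 : 4 / η ≤ |ℓ| := by
      by_contra h
      exact hg ⟨hcase, not_le.mp h⟩
    have h7 : 4 / η + 1 ≤ Real.exp (4 / η) := Real.add_one_le_exp _
    have h8 : η⁻¹ ≤ 4 / η := by
      rw [div_eq_mul_inv]
      have : 0 < η⁻¹ := by positivity
      linarith
    have h9 : η⁻¹ ≤ Real.exp (4 / η) := by linarith
    rcases le_abs.mp h4 with h5 | h5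
    · right; left
      rw [← hexp]
      exact h9.trans (Real.exp_le_exp.mpr h5)
    · left
      rw [← hexp]
      have h10 : Real.exp ℓ ≤ Real.exp (-(4 / η)) := Real.exp_le_exp.mpr (by linarith)
      refine h10.trans ?_
      rw [Real.exp_neg]
      rw [inv_le_comm₀ (Real.exp_pos _) hη]
      exact h9
  · right; right
    push Not at hcase
    have h5 : |Real.exp ℓ - 1| ≤ 2 * |ℓ| := Real.abs_exp_sub_one_le (by linarith)
    rw [hexp] at h5
    have h6 : |‖w‖ - 1| ≤ η / 2 := by linarith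
    have hwu : w = (‖w‖ : ℂ) * u i ^ (n₁ * L ^ j) := by
      rw [hw, hu]
      simp only
      rw [div_pow, norm_pow]
      push_cast
      have := hznorm i
      field_simp
    have hup : ‖u i ^ (n₁ * L ^ j) - 1‖ ≤ η / 2 := by
      rw [pow_mul]
      have hun : ‖u i ^ n₁‖ = 1 := by rw [norm_pow, hu1, one_pow]
      refine (norm_pow_sub_one_le_mul hun _).trans ?_
      have h7 := hn₁ i
      push_cast
      calc (L : ℝ) ^ j * ‖u i ^ n₁ - 1‖ ≤ (L : ℝ) ^ s * (η / (2 * (L : ℝ) ^ s)) :=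
            mul_le_mul hLj h7 (norm_nonneg _) (by positivity)
        _ = η / 2 := by field_simp
    have h8 : w - 1 = ((‖w‖ : ℂ) - 1) * u i ^ (n₁ * L ^ j) + (u i ^ (n₁ * L ^ j) - 1) := by
      rw [sub_mul, ← hwu]; ring
    have h10 : ‖u i ^ (n₁ * L ^ j)‖ = 1 := by rw [norm_pow, hu1, one_pow]
    rw [h8]
    refine (norm_add_le _ _).trans ?_
    rw [norm_mul, h10, mul_one]
    have h9 : ‖(‖w‖ : ℂ) - 1‖ = |‖w‖ - 1| := by
      rw [← Complex.ofReal_one, ← Complex.ofReal_sub, Complex.norm_real, Real.norm_eq_abs]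
    rw [h9]
    linarith

end Pool.Agent.Work.MP_a793bb_nt
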