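import Pool.Agent.Work.MP_a793bb_nt.Extremal

set_option autoImplicit false
set_option linter.unusedSectionVars false

namespace Pool.Agent.Work.MP_a793bb_nt

open NumberField IsDedekindDomain Height Polynomial UniqueFactorizationMonoid

variable {K : Type*} [Field K] [NumberField K]

lemma AffABC.mono {S T : Set K} (h : S ⊆ T) (hT : AffABC K T) : AffABC K S := by
  intro ε hε
  obtain ⟨C, hC⟩ := hT ε hε
  exact ⟨C, fun x hx h0 h1 => hC x (h hx) h0 h1⟩

lemma AffABC.union_finset {ι : Type*} (s : Finset ι) (S : ι → Set K)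
    (h : ∀ i ∈ s, AffABC K (S i)) : AffABC K (⋃ i ∈ s, S i) := by
  classical
  intro ε hε
  choose! C hC using fun i (hi : i ∈ s) => h i hi ε hε
  refine ⟨∑ i ∈ s, |C i|, fun x hx h0 h1 => ?_⟩
  simp only [Set.mem_iUnion] at hx
  obtain ⟨i, hi, hx⟩ := hx
  refine (hC i hi x hx h0 h1).trans ?_
  have h2 : |C i| ≤ ∑ i ∈ s, |C i| := Finset.single_le_sum (fun j _ => abs_nonneg (C j)) hi
  have h3 := le_abs_self (C i)
  linarith

open Classical in
/-- transfer of the abc inequality along a map given by polynomials -/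
theorem transfer (A B C' : K[X]) (hcop : IsCoprime A B) (hP : A * B * C' ≠ 0)
    (hsum : A + B + C' = 0) {n : ℕ} (hn : 1 ≤ n) (hdeg : max A.natDegree B.natDegree = n)
    (Q : K[X]) (hQdeg : Q.natDegree ≤ n + 1) (hQ0 : Q ≠ 0) (m : ℕ) (hQ : A * B * C' ∣ Q ^ m)
    (h0 : (A * B * C').eval 0 = 0) (h1 : (A * B * C').eval 1 = 0) (S T : Set K)
    (hST : ∀ x ∈ S, (A * B * C').eval x ≠ 0 → -A.eval x / C'.eval x ∈ T) (hT : AffABC K T) :
    AffABC K S := by
  have hrad : (radical (A * B * C')).natDegree ≤ n + 1 := by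
    have h2 : radical (A * B * C') ∣ Q := (exists_dvd_pow_iff_radical_dvd hP).mp ⟨m, hQ⟩
    exact (natDegree_le_of_dvd h2 hQ0).trans hQdeg
  refine extremal_core_le A B C' hcop hP hn hdeg hrad (zero_ne_one' K) h0 h1 S ?_
  have hT' := (ABCOn_iff_AffABC T (fun a _ c => -a / c ∈ T) (fun _ _ _ _ _ => Iff.rfl)).mpr hT
  intro ε hε
  obtain ⟨C, hC⟩ := hT' ε hε
  refine ⟨C, fun x hx hne => ?_⟩
  have hx' : (0 : K) + (1 - 0) * x = x := by ring
  rw [hx'] at hne ⊢
  apply hC
  · rw [← eval_add, ← eval_add, hsum, eval_zero]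
  · rwa [eval_mul, eval_mul] at hne
  · exact hST x hx hne

/-- the power map -/
theorem transfer_pow {n : ℕ} (hn : 1 ≤ n) (T : Set K) (hT : AffABC K T) :
    AffABC K {x : K | x ^ n ∈ T} := by
  have hX : (X ^ n - 1 : K[X]).natDegree = n := by
    have := natDegree_X_pow_sub_C (n := n) (r := (1 : K))
    simpa using this
  have hX' : (1 - X ^ n : K[X]).natDegree = n := by
    rw [← neg_sub, natDegree_neg, hX]
  have hne : (1 - X ^ n : K[X]) ≠ 0 := by
    intro h
    rw [h, natDegree_zero] at hX'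
    omega
  refine transfer (X ^ n) (1 - X ^ n) (-1) ?_ ?_ (by ring) hn ?_ (X * (1 - X ^ n)) ?_ ?_ n ?_ ?_ ?_
    _ T ?_ hT
  · exact ⟨1, 1, by ring⟩
  · exact mul_ne_zero (mul_ne_zero (pow_ne_zero _ X_ne_zero) hne) (by simp)
  · rw [natDegree_X_pow, hX', max_self]
  · rw [natDegree_mul X_ne_zero hne, natDegree_X, hX']; omega
  · exact mul_ne_zero X_ne_zero hne
  · rw [mul_neg, mul_one, neg_dvd, mul_pow]
    refine mul_dvd_mul dvd_rfl (dvd_pow_self _ (by omega))
  · simp
    left; omega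
  · simp
  · intro x hx _
    simp only [Set.mem_ofPred_eq] at hx
    simpa using hx

/-- the collapsing map -/
theorem transfer_alpha (T : Set K) (hT : AffABC K T) :
    AffABC K {x : K | -(1 - x) ^ 2 / (4 * x) ∈ T} := by
  have d1 : (1 - X : K[X]).natDegree = 1 := by
    have h : (1 - X : K[X]) = -(X - C 1) := by rw [C_1]; ring
    rw [h, natDegree_neg, natDegree_X_sub_C]
  have d2 : (1 + X : K[X]).natDegree = 1 := by
    have h : (1 + X : K[X]) = X + C 1 := by rw [C_1]; ring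
    rw [h, natDegree_X_add_C]
  have n1 : (1 - X : K[X]) ≠ 0 := by
    intro h; rw [h] at d1; simp at d1
  have n2 : (1 + X : K[X]) ≠ 0 := by
    intro h; rw [h] at d2; simp at d2
  have n4 : (4 : K[X]) ≠ 0 := by
    have : (4 : K[X]) = C 4 := (C_ofNat 4).symm
    rw [this, Ne, C_eq_zero]; norm_num
  have u4 : IsUnit (4 : K[X]) := by
    have : (4 : K[X]) = C 4 := (C_ofNat 4).symm
    rw [this, isUnit_C]
    exact (by norm_num : (4 : K) ≠ 0).isUnit
  refine transfer ((1 - X) ^ 2) (-(1 + X) ^ 2) (4 * X) ?_ ?_ (by ring) (n := 2) (by norm_num) ?_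
    ((1 - X) * (1 + X) * X) ?_ ?_ 2 ?_ ?_ ?_ _ T ?_ hT
  · apply IsCoprime.neg_right
    apply IsCoprime.pow
    refine ⟨C (1/2), C (1/2), ?_⟩
    have : (C (1/2) : K[X]) * 2 = 1 := by
      have h2 : (2 : K[X]) = C 2 := (C_ofNat 2).symm
      rw [h2, ← C_mul]; norm_num
    linear_combination this
  · refine mul_ne_zero (mul_ne_zero (pow_ne_zero _ n1) (neg_ne_zero.mpr (pow_ne_zero _ n2)))
      (mul_ne_zero n4 X_ne_zero)
  · rw [natDegree_neg, natDegree_pow, natDegree_pow, d1, d2]; norm_num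
  · rw [natDegree_mul (mul_ne_zero n1 n2) X_ne_zero, natDegree_mul n1 n2, d1, d2, natDegree_X]
  · exact mul_ne_zero (mul_ne_zero n1 n2) X_ne_zero
  · have : (1 - X : K[X]) ^ 2 * -(1 + X) ^ 2 * (4 * X) = -(4 * ((1 - X) ^ 2 * (1 + X) ^ 2 * X)) := by
      ring
    rw [this, neg_dvd, u4.mul_left_dvd, mul_pow, mul_pow]
    exact mul_dvd_mul dvd_rfl (dvd_pow_self _ (by norm_num))
  · simp
  · simp
  · intro x hx _
    simp only [Set.mem_ofPred_eq] at hx
    simpa using hx

end Pool.Agent.Work.MP_a793bb_nt
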