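import Pool.Agent.Work.MP_a793bb_nt.Selmer
import Pool.Agent.Work.MP_a793bb_nt.Balanced
import Pool.Agent.Work.MP_a793bb_nt.Transfer
import Pool.Agent.Work.MP_a793bb_nt.H6Local

set_option autoImplicit false
set_option linter.unusedSectionVars false

namespace Pool.Agent.Work.MP_a793bb_nt

open NumberField IsDedekindDomain Height nonZeroDivisors

/-- The norm form of the abc inequality for coprime algebraic integers `x`, `y` and
`z = x ^ m - y ^ m`, away from the primes in `T`: every divisor `J` of `(x ^ m)` that is prime to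
`T` has norm at most `C * N(rad(xyz)) ^ (1 + ε)`. -/
def NormABC (K : Type*) [Field K] [NumberField K] (T : Set (HeightOneSpectrum (𝓞 K))) (m : ℕ) :
    Prop :=
  ∀ ε : ℝ, 0 < ε → ∃ C : ℝ, ∀ x y z : 𝓞 K, x ^ m = y ^ m + z → x * y * z ≠ 0 → IsCoprime x y →
    ∀ J : Ideal (𝓞 K), J ∣ Ideal.span {x ^ m} →
      (∀ p : HeightOneSpectrum (𝓞 K), p ∈ T → ¬ p.asIdeal ∣ J) →
      (Ideal.absNorm J : ℝ) ≤
        C * (Ideal.absNorm (Ideal.span {x * y * z}).radical : ℝ) ^ (1 + ε)

variable {K : Type*} [Field K] [NumberField K]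

/-- the class number power of an element is a quotient of coprime integers -/
lemma exists_coprime_rep {y : K} (hy : y ≠ 0) : ∃ a c : 𝓞 K, c ≠ 0 ∧ IsCoprime a c ∧
    y ^ (Fintype.card (ClassGroup (𝓞 K))) = (a : K) / (c : K) := by
  classical
  set h := Fintype.card (ClassGroup (𝓞 K)) with hh
  obtain ⟨a₀, c₀, hc₀, hac⟩ := IsFractionRing.div_surjective (A := 𝓞 K) y
  have hc₀' : c₀ ≠ 0 := nonZeroDivisors.ne_zero hc₀
  have ha₀' : a₀ ≠ 0 := by
    rintro rfl
    rw [map_zero, zero_div] at hac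
    exact hy hac.symm
  set I : Ideal (𝓞 K) := Ideal.span {a₀} with hI
  set J : Ideal (𝓞 K) := Ideal.span {c₀} with hJ
  have hJ0 : J ≠ ⊥ := by simpa [hJ] using hc₀'
  set G : Ideal (𝓞 K) := I ⊔ J with hG
  have hG0 : G ≠ ⊥ := fun hbot => hJ0 (le_bot_iff.mp (hbot ▸ le_sup_right))
  obtain ⟨I', hI'⟩ : G ∣ I := Ideal.dvd_iff_le.mpr le_sup_left
  obtain ⟨J', hJ'⟩ : G ∣ J := Ideal.dvd_iff_le.mpr le_sup_right
  have hcop : IsCoprime I' J' := by
    rw [Ideal.isCoprime_iff_sup_eq]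
    have h1 : G * (I' ⊔ J') = G * ⊤ := by
      rw [Ideal.mul_sup, ← hI', ← hJ', Ideal.mul_top]
    exact mul_left_cancel₀ hG0 h1
  -- the power of G is principal
  obtain ⟨γ, hγ⟩ : ∃ γ : 𝓞 K, G ^ h = Ideal.span {γ} := by
    have hGn : G ^ h ∈ (Ideal (𝓞 K))⁰ := mem_nonZeroDivisors_of_ne_zero (pow_ne_zero _ hG0)
    have h1 : ClassGroup.mk0 ⟨G ^ h, hGn⟩ = 1 := by
      have h2 : (⟨G ^ h, hGn⟩ : (Ideal (𝓞 K))⁰) =
          (⟨G, mem_nonZeroDivisors_of_ne_zero hG0⟩ : (Ideal (𝓞 K))⁰) ^ h := by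
        ext; simp
      rw [h2, map_pow, hh]
      exact pow_card_eq_one
    rw [ClassGroup.mk0_eq_one_iff] at h1
    obtain ⟨γ, hγ⟩ := h1.principal
    exact ⟨γ, hγ⟩
  have hγ0 : γ ≠ 0 := by
    rintro rfl
    have : G ^ h ≠ ⊥ := pow_ne_zero _ hG0
    rw [hγ] at this
    simp at this
  have hdiv : ∀ (t : 𝓞 K) (L : Ideal (𝓞 K)), Ideal.span {t} = G * L →
      ∃ s : 𝓞 K, t ^ h = γ * s ∧ Ideal.span {s} = L ^ h := by
    intro t L htL
    have h1 : Ideal.span {t ^ h} = Ideal.span {γ} * L ^ h := by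
      rw [← Ideal.span_singleton_pow, htL, mul_pow, hγ]
    have h2 : t ^ h ∈ Ideal.span {γ} * L ^ h := by
      rw [← h1]; exact Ideal.mem_span_singleton_self _
    rw [Ideal.mem_span_singleton_mul] at h2
    obtain ⟨s, -, hs⟩ := h2
    refine ⟨s, hs.symm, ?_⟩
    have h3 : Ideal.span {γ} * Ideal.span {s} = Ideal.span {γ} * L ^ h := by
      rw [Ideal.span_singleton_mul_span_singleton, hs, h1]
    have h4 : Ideal.span {γ} ≠ (⊥ : Ideal (𝓞 K)) := by simpa using hγ0
    exact mul_left_cancel₀ h4 h3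
  obtain ⟨a, ha, haI⟩ := hdiv a₀ I' hI'
  obtain ⟨c, hc, hcJ⟩ := hdiv c₀ J' hJ'
  have hc0 : c ≠ 0 := by
    rintro rfl
    rw [mul_zero] at hc
    exact pow_ne_zero _ hc₀' hc
  refine ⟨a, c, hc0, ?_, ?_⟩
  · rw [← Ideal.isCoprime_span_singleton_iff, haI, hcJ]
    exact hcop.pow
  · have h1 : ((a₀ ^ h : 𝓞 K) : K) = ((γ * a : 𝓞 K) : K) := by rw [ha]
    have h2 : ((c₀ ^ h : 𝓞 K) : K) = ((γ * c : 𝓞 K) : K) := by rw [hc]
    have hγ' : (γ : K) ≠ 0 := by exact_mod_cast hγ0
    have hc' : (c : K) ≠ 0 := by exact_mod_cast hc0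
    push_cast at h1 h2
    rw [← hac, div_pow, h1, h2]
    field_simp

/-- the archimedean product of an integer is the norm of the principal ideal -/
lemma prod_place_eq (a : 𝓞 K) :
    ∏ v : InfinitePlace K, v (a : K) ^ v.mult = (Ideal.absNorm (Ideal.span {a}) : ℝ) := by
  rw [InfinitePlace.prod_eq_abs_norm, Ideal.absNorm_span_singleton]
  have h := Algebra.coe_norm_int a
  rw [← Int.cast_natCast, Int.natCast_natAbs, Int.cast_abs]
  have h2 : ((Algebra.norm ℤ a : ℤ) : ℚ) = Algebra.norm ℚ (a : K) := h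
  rw [← h2]
  push_cast
  rfl

lemma av_int_le (p : HeightOneSpectrum (𝓞 K)) (a : 𝓞 K) : av p (a : K) ≤ 1 := by
  by_contra h
  have h1 : p.valuation K (a : K) ≤ 1 := p.valuation_le_one a
  rcases h1.lt_or_eq with h2 | h2
  · rw [← av_lt_one_iff] at h2; linarith
  · have h3 : av p (a : K) = av p (1 : K) := by rw [av_eq_av_iff, h2, map_one]
    rw [av_one] at h3
    linarith

lemma av_int_lt_iff (p : HeightOneSpectrum (𝓞 K)) (a : 𝓞 K) :
    av p (a : K) < 1 ↔ p.asIdeal ∣ Ideal.span {a} := by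
  rw [av_lt_one_iff]
  exact HeightOneSpectrum.valuation_lt_one_iff_dvd p a

lemma av_eq_one_of_coprime {a c : 𝓞 K} (h : IsCoprime a c) (p : HeightOneSpectrum (𝓞 K))
    (ha : av p (a : K) < 1) : av p (c : K) = 1 := by
  by_contra hc
  have hc' : av p (c : K) < 1 := lt_of_le_of_ne (av_int_le p c) hc
  obtain ⟨u, v, huv⟩ := h
  have h1 : av p ((u * a + v * c : 𝓞 K) : K) = 1 := by
    rw [huv]
    simpa using av_one p
  push_cast at h1
  have h2 := av_add_le p ((u : K) * a) ((v : K) * c)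
  rw [av_mul, av_mul, h1] at h2
  have h3 := av_int_le p u
  have h4 := av_int_le p v
  have h5 := av_nonneg p (a : K)
  have h6 := av_nonneg p (c : K)
  have h7 := av_nonneg p (u : K)
  have h8 := av_nonneg p (v : K)
  rcases le_max_iff.mp h2 with h9 | h9
  · nlinarith
  · nlinarith

/-- Height of a quotient of integers whose numerator dominates at the infinite places. -/
lemma logHeight₁_div_le {a c : 𝓞 K} (ha : a ≠ 0)
    (h : ∀ v : InfinitePlace K, v (c : K) ≤ v (a : K)) :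
    logHeight₁ ((a : K) / (c : K)) ≤ Real.log (Ideal.absNorm (Ideal.span {a}) : ℝ) := by
  rw [logHeight₁_div_eq_logHeight, logHeight_eq_log_mulHeight]
  have hy : (![a, c] : Fin 2 → 𝓞 K) ≠ 0 := by
    intro h0
    exact ha (congrFun h0 0)
  have h1 := mulHeight_int ![a, c] hy
  have h2 : (fun i => ((![a, c] : Fin 2 → 𝓞 K) i : K)) = ![(a : K), (c : K)] := by
    ext i; fin_cases i <;> rfl
  rw [h2] at h1
  have h3 : ∏ v : InfinitePlace K, (⨆ i, v ((![a, c] : Fin 2 → 𝓞 K) i : K)) ^ v.mult =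
      ∏ v : InfinitePlace K, v (a : K) ^ v.mult := by
    refine Finset.prod_congr rfl fun v _ => ?_
    congr 1
    apply le_antisymm
    · apply ciSup_le
      intro i
      fin_cases i
      · exact le_refl _
      · exact h v
    · exact Finite.le_ciSup (fun i => v ((![a, c] : Fin 2 → 𝓞 K) i : K)) 0
  rw [h3, prod_place_eq] at h1
  have h4 : (1 : ℝ) ≤ Ideal.absNorm (Ideal.span (Set.range ![a, c])) := by
    apply one_le_absNorm K
    intro h0
    rw [Ideal.span_eq_bot] at h0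
    exact ha (h0 a ⟨0, rfl⟩)
  have h5 : 0 < mulHeight ![(a : K), (c : K)] := mulHeight_pos _
  apply Real.log_le_log h5
  rw [← h1]
  exact le_mul_of_one_le_right h5.le h4

lemma span_ne_bot' {a : 𝓞 K} (ha : a ≠ 0) : Ideal.span {a} ≠ (⊥ : Ideal (𝓞 K)) := by simpa using ha

lemma coe_ne_zero' {a : 𝓞 K} (ha : a ≠ 0) : (a : K) ≠ 0 := by exact_mod_cast ha

/-- the set of primes dividing a product of three coprime terms -/
lemma dvd_span_mul_iff (p : HeightOneSpectrum (𝓞 K)) {a b c : 𝓞 K} :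
    p.asIdeal ∣ Ideal.span {a * b * c} ↔
      av p (a : K) < 1 ∨ av p (b : K) < 1 ∨ av p (c : K) < 1 := by
  rw [av_int_lt_iff, av_int_lt_iff, av_int_lt_iff, Ideal.dvd_span_singleton,
    Ideal.dvd_span_singleton, Ideal.dvd_span_singleton, Ideal.dvd_span_singleton]
  rw [p.isPrime.mul_mem_iff_mem_or_mem, p.isPrime.mul_mem_iff_mem_or_mem, or_assoc]

/-- From the norm form to the affine form on a set of large parameters. -/
theorem affABC_of_norm {T : Set (HeightOneSpectrum (𝓞 K))} {m : ℕ} (hm : 1 ≤ m)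
    (H : NormABC K T m) :
    AffABC K {w | (∀ v : InfinitePlace K, 1 ≤ v w) ∧ (∀ p ∈ T, 1 ≤ av p w) ∧
      ∃ x y : 𝓞 K, y ≠ 0 ∧ IsCoprime x y ∧ w = ((x : K) / (y : K)) ^ m} := by
  intro ε hε
  obtain ⟨C, hC⟩ := H ε hε
  refine ⟨Real.log (max C 1), fun w hw hw0 hw1 => ?_⟩
  obtain ⟨hv, hT, x, y, hy0, hcop, hwxy⟩ := hw
  have hx0 : x ≠ 0 := by
    rintro rfl
    apply hw0
    rw [hwxy]
    simp
    omega
  have hx' := coe_ne_zero' hx0
  have hy' := coe_ne_zero' hy0
  set z : 𝓞 K := x ^ m - y ^ m with hz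
  have hz0 : z ≠ 0 := by
    intro h0
    apply hw1
    rw [hwxy, div_pow, div_eq_one_iff_eq (pow_ne_zero _ hy')]
    have : x ^ m = y ^ m := sub_eq_zero.mp h0
    exact_mod_cast this
  have hxyz : x * y * z ≠ 0 := mul_ne_zero (mul_ne_zero hx0 hy0) hz0
  have hw2 : w = ((x ^ m : 𝓞 K) : K) / ((y ^ m : 𝓞 K) : K) := by
    rw [hwxy, div_pow]; push_cast; rfl
  have hyx : ∀ v : InfinitePlace K, v ((y ^ m : 𝓞 K) : K) ≤ v ((x ^ m : 𝓞 K) : K) := by
    intro v
    have h1 := hv v
    have h2 : 0 < v ((y ^ m : 𝓞 K) : K) := by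
      rw [InfinitePlace.pos_iff]; exact coe_ne_zero' (pow_ne_zero _ hy0)
    rw [hw2, map_div₀, le_div_iff₀ h2, one_mul] at h1
    exact h1
  have hheight : logHeight₁ w ≤ Real.log (Ideal.absNorm (Ideal.span {x ^ m}) : ℝ) := by
    rw [hw2]
    exact logHeight₁_div_le (pow_ne_zero _ hx0) hyx
  have hmain := hC x y z (by rw [hz]; ring) hxyz hcop (Ideal.span {x ^ m}) dvd_rfl (by
    intro p hp hdvd
    have h1 := hT p hp
    rw [hwxy, av_pow] at h1
    have h2 : av p ((x : K) / (y : K)) < 1 := by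
      rw [← av_int_lt_iff] at hdvd
      push_cast at hdvd
      rw [av_pow] at hdvd
      have h3 : av p (x : K) < 1 := by
        by_contra h4
        exact absurd hdvd (not_lt.mpr (one_le_pow₀ (not_lt.mp h4)))
      rw [div_eq_mul_inv, av_mul, av_inv, av_eq_one_of_coprime hcop p h3]
      simpa using h3
    have h3 : av p ((x : K) / (y : K)) ^ m < 1 := pow_lt_one₀ (av_nonneg p _) h2 (by omega)
    linarith)
  have hN : (1 : ℝ) ≤ Ideal.absNorm (Ideal.span {x ^ m}) :=
    one_le_absNorm K (span_ne_bot' (pow_ne_zero _ hx0))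
  have hrad := absNorm_radical (span_ne_bot' hxyz)
  have hsub : {p : HeightOneSpectrum (𝓞 K) | p.asIdeal ∣ Ideal.span {x * y * z}} ⊆ Ip w := by
    intro p hp
    rw [Set.mem_ofPred_eq, dvd_span_mul_iff] at hp
    rw [mem_Ip]
    rintro ⟨h1, h2⟩
    have hcop' : IsCoprime (x ^ m) (y ^ m) := hcop.pow
    have hxy : av p (x : K) = av p (y : K) := by
      have hxp := av_nonneg p (x : K)
      have hyp := av_nonneg p (y : K)
      rw [hwxy, av_pow, div_eq_mul_inv, av_mul, av_inv] at h1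
      have h3 : av p (x : K) * (av p (y : K))⁻¹ = 1 := by
        refine (pow_eq_one_iff_of_nonneg (by positivity) (by omega)).mp h1
      have h4 : av p (y : K) ≠ 0 := (av_pos p hy').ne'
      field_simp at h3
      exact h3
    have hx1 : av p (x : K) = 1 := by
      by_contra h3
      have h4 : av p (x : K) < 1 := lt_of_le_of_ne (av_int_le p x) h3
      have h5 := av_eq_one_of_coprime hcop p h4
      exact h3 (by rw [hxy, h5])
    have hy1 : av p (y : K) = 1 := by rw [← hxy, hx1]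
    have hz1 : av p (z : K) = 1 := by
      have h3 : (z : K) = -(1 - w) * ((y ^ m : 𝓞 K) : K) := by
        rw [hw2, hz]
        have := coe_ne_zero' (pow_ne_zero m hy0)
        field_simp
        push_cast
        ring
      rw [h3, av_mul, av_neg, h2]
      push_cast
      rw [av_pow, hy1]
      simp
    rcases hp with hp | hp | hp <;> linarith
  have hRs := Rs_mono (finite_Ip hw0 hw1) hsub
  have hCpos : 0 < max C 1 := lt_of_lt_of_le one_pos (le_max_right _ _)
  have hradpos : (0 : ℝ) < Ideal.absNorm (Ideal.span {x * y * z}).radical := by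
    rw [hrad]; exact Real.exp_pos _
  have h6 : (Ideal.absNorm (Ideal.span {x ^ m}) : ℝ) ≤
      max C 1 * (Ideal.absNorm (Ideal.span {x * y * z}).radical : ℝ) ^ (1 + ε) := by
    refine hmain.trans (mul_le_mul_of_nonneg_right (le_max_left _ _) (by positivity))
  have h7 := Real.log_le_log (by linarith) h6
  rw [Real.log_mul hCpos.ne' (by positivity), Real.log_rpow hradpos, hrad, Real.log_exp] at h7
  have h8 : (1 + ε) * Rs {p : HeightOneSpectrum (𝓞 K) | p.asIdeal ∣ Ideal.span {x * y * z}} ≤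
      (1 + ε) * Rs (Ip w) := mul_le_mul_of_nonneg_left hRs (by linarith)
  linarith

/-- The norm form implies the abc inequality. -/
theorem ABC_of_NormABC {T : Set (HeightOneSpectrum (𝓞 K))} (hT : T.Finite) {m : ℕ} (hm : 1 ≤ m)
    (H : NormABC K T m) : ABC K := by
  rw [ABC_iff_AffABC]
  apply H6.AffABC_of_large T hT 1
  set h := Fintype.card (ClassGroup (𝓞 K)) with hh
  have hpos : 1 ≤ h * m := Nat.mul_pos Fintype.card_pos hm
  intro ε hε
  obtain ⟨C, hC⟩ := transfer_pow hpos _ (affABC_of_norm hm H) ε hε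
  refine ⟨C, fun x hx h0 h1 => hC x ?_ h0 h1⟩
  obtain ⟨hxv, hxT⟩ := hx
  obtain ⟨a, c, hc, hcop, hac⟩ := exists_coprime_rep h0
  refine ⟨fun v => ?_, fun p hp => ?_, a, c, hc, hcop, ?_⟩
  · rw [map_pow]; exact one_le_pow₀ (hxv v)
  · rw [av_pow]; exact one_le_pow₀ (hxT p hp)
  · rw [pow_mul, hh, hac]

/-- The abc inequality implies the norm form. -/
theorem NormABC_of_ABC (H : ABC K) (T : Set (HeightOneSpectrum (𝓞 K))) {m : ℕ} :
    NormABC K T m := by
  intro ε hε
  obtain ⟨C, hC⟩ := H ε hε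
  set d : ℝ := (Module.finrank ℚ K : ℝ) with hd
  have hdpos : 0 < d := finrank_pos'
  refine ⟨Real.exp (d * C), fun x y z hxyz hne hcop J hJ _ => ?_⟩
  have hx0 : x ≠ 0 := by rintro rfl; simp at hne
  have hy0 : y ≠ 0 := by rintro rfl; simp at hne
  have hz0 : z ≠ 0 := by rintro rfl; simp at hne
  set a : 𝓞 K := x ^ m with ha
  set b : 𝓞 K := -y ^ m with hb
  set c : 𝓞 K := -z with hc
  have ha0 : a ≠ 0 := pow_ne_zero _ hx0
  have hb0 : b ≠ 0 := neg_ne_zero.mpr (pow_ne_zero _ hy0)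
  have hc0 : c ≠ 0 := neg_ne_zero.mpr hz0
  have hsum : a + b + c = 0 := by rw [hb, hc, hxyz]; ring
  have hsum' : (a : K) + b + c = 0 := by exact_mod_cast congrArg (algebraMap (𝓞 K) K) hsum
  have hne' : (a : K) * b * c ≠ 0 :=
    mul_ne_zero (mul_ne_zero (coe_ne_zero' ha0) (coe_ne_zero' hb0)) (coe_ne_zero' hc0)
  have hmain := hC a b c hsum' hne'
  rw [ht, rad_eq, div_lt_iff₀ hdpos] at hmain
  have h1 : ((1 + ε) * (Rs (badPrimes (a : K) b c) / d) + C) * d =
      (1 + ε) * Rs (badPrimes (a : K) b c) + d * C := by field_simp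
  rw [h1] at hmain
  -- the height
  have hcopab : IsCoprime a b := by
    rw [ha, hb]
    exact (hcop.pow).neg_right
  have hyy : (![a, b, c] : Fin 3 → 𝓞 K) ≠ 0 := by
    intro h0
    exact ha0 (congrFun h0 0)
  have h2 := mulHeight_int ![a, b, c] hyy
  have h3 : (fun i => ((![a, b, c] : Fin 3 → 𝓞 K) i : K)) = ![(a : K), (b : K), (c : K)] := by
    ext i; fin_cases i <;> rfl
  have h4 : Ideal.span (Set.range (![a, b, c] : Fin 3 → 𝓞 K)) = ⊤ := by
    rw [Ideal.eq_top_iff_one]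
    obtain ⟨u, v, huv⟩ := hcopab
    rw [← huv]
    apply Ideal.add_mem
    · exact Ideal.mul_mem_left _ _ (Ideal.subset_span ⟨0, rfl⟩)
    · exact Ideal.mul_mem_left _ _ (Ideal.subset_span ⟨1, rfl⟩)
  rw [h3, h4, Ideal.absNorm_top, Nat.cast_one, mul_one] at h2
  have h5 : (Ideal.absNorm (Ideal.span {a}) : ℝ) ≤ mulHeight ![(a : K), (b : K), (c : K)] := by
    rw [h2, ← prod_place_eq]
    apply Finset.prod_le_prod
    · intro v _
      positivity
    · intro v _
      apply pow_le_pow_left₀ (apply_nonneg _ _)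
      exact Finite.le_ciSup (fun i => v ((![a, b, c] : Fin 3 → 𝓞 K) i : K)) 0
  have hJ0 : J ≠ ⊥ := by
    rintro rfl
    rw [← Ideal.zero_eq_bot, zero_dvd_iff] at hJ
    exact span_ne_bot' ha0 hJ
  have hJ1 := one_le_absNorm K hJ0
  have h6 : (Ideal.absNorm J : ℝ) ≤ (Ideal.absNorm (Ideal.span {a}) : ℝ) := by
    have h7 : Ideal.absNorm J ∣ Ideal.absNorm (Ideal.span {a}) := Ideal.absNorm_dvd_absNorm_of_le (Ideal.le_of_dvd hJ)
    have h8 : Ideal.absNorm (Ideal.span {a}) ≠ 0 := by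
      rw [Ne, Ideal.absNorm_eq_zero_iff]; exact span_ne_bot' ha0
    exact_mod_cast Nat.le_of_dvd (Nat.pos_of_ne_zero h8) h7
  rw [logHeight_eq_log_mulHeight] at hmain
  have h7 : Real.log (Ideal.absNorm J : ℝ) ≤
      Real.log (mulHeight ![(a : K), (b : K), (c : K)]) :=
    Real.log_le_log (by linarith) (h6.trans h5)
  -- the radical
  have hsub : badPrimes (a : K) b c ⊆
      {p : HeightOneSpectrum (𝓞 K) | p.asIdeal ∣ Ideal.span {x * y * z}} := by
    intro p hp
    rw [mem_badPrimes_iff] at hp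
    by_contra h0
    rw [Set.mem_ofPred_eq, dvd_span_mul_iff] at h0
    push Not at h0
    have e1 : av p (x : K) = 1 := le_antisymm (av_int_le p x) h0.1
    have e2 : av p (y : K) = 1 := le_antisymm (av_int_le p y) h0.2.1
    have e3 : av p (z : K) = 1 := le_antisymm (av_int_le p z) h0.2.2
    apply hp
    have f1 : av p (a : K) = 1 := by rw [ha]; push_cast; rw [av_pow, e1, one_pow]
    have f2 : av p (b : K) = 1 := by rw [hb]; push_cast; rw [av_neg, av_pow, e2, one_pow]
    have f3 : av p (c : K) = 1 := by rw [hc]; push_cast; rw [av_neg, e3]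
    rw [f1, f2, f3]
    simp
  have hrad := absNorm_radical (span_ne_bot' hne)
  have hfin := finite_dvd (span_ne_bot' hne)
  have hRs := Rs_mono hfin hsub
  have hradpos : (0 : ℝ) < Ideal.absNorm (Ideal.span {x * y * z}).radical := by
    rw [hrad]; exact Real.exp_pos _
  have h8 : (1 + ε) * Rs (badPrimes (a : K) b c) ≤
      (1 + ε) * Rs {p : HeightOneSpectrum (𝓞 K) | p.asIdeal ∣ Ideal.span {x * y * z}} :=
    mul_le_mul_of_nonneg_left hRs (by linarith)
  rw [← Real.log_le_log_iff (by linarith) (by positivity), Real.log_mul (Real.exp_pos _).ne'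
    (by positivity), Real.log_exp, Real.log_rpow hradpos, hrad, Real.log_exp]
  linarith

end Pool.Agent.Work.MP_a793bb_nt
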