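import Pool.Agent.Work.MP_a793bb_nt.PairCount

set_option autoImplicit false
set_option linter.unusedSectionVars false

namespace Pool.Agent.Work.MP_a793bb_nt

open NumberField IsDedekindDomain Filter Topology Height

variable {K : Type*} [Field K] [NumberField K]

/-- the additive valuation -/
noncomputable def kp (p : HeightOneSpectrum (𝓞 K)) (y : K) : ℤ := -WithZero.log (p.valuation K y)

lemma valuation_eq_exp (p : HeightOneSpectrum (𝓞 K)) {y : K} (hy : y ≠ 0) :
    p.valuation K y = WithZero.exp (-kp p y) := by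
  have h0 : p.valuation K y ≠ 0 := (Valuation.ne_zero_iff _).mpr hy
  rw [kp, neg_neg, WithZero.exp_log h0]

lemma av_eq_zpow (p : HeightOneSpectrum (𝓞 K)) {y : K} (hy : y ≠ 0) :
    av p y = Np p ^ (-kp p y) := by
  rw [av_eq, valuation_eq_exp p hy, WithZeroMulInt.toNNReal_neg_apply _ (by simp)]
  rfl

lemma av_lt_one_iff_kp (p : HeightOneSpectrum (𝓞 K)) {y : K} (hy : y ≠ 0) :
    av p y < 1 ↔ 0 < kp p y := by
  rw [av_lt_one_iff, valuation_eq_exp p hy, ← WithZero.exp_zero, WithZero.exp_lt_exp]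
  omega

/-- the numerator ideal of a nonzero element -/
noncomputable def numI (y : K) : Ideal (𝓞 K) :=
  ∏ᶠ (p : HeightOneSpectrum (𝓞 K)) (_ : p ∈ Zp y), p.asIdeal ^ (kp p y).toNat

lemma numI_eq {y : K} (hy : y ≠ 0) :
    numI y = ∏ p ∈ (finite_Zp hy).toFinset, p.asIdeal ^ (kp p y).toNat :=
  finprod_mem_eq_finite_toFinset_prod _ _

lemma numI_ne_bot {y : K} (hy : y ≠ 0) : numI y ≠ ⊥ := by
  rw [numI_eq hy, ← Ideal.zero_eq_bot, Finset.prod_ne_zero_iff]
  intro p _
  exact pow_ne_zero _ p.ne_bot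

lemma dvd_numI_iff {y : K} (hy : y ≠ 0) (p : HeightOneSpectrum (𝓞 K)) :
    p.asIdeal ∣ numI y ↔ p ∈ Zp y := by
  rw [numI_eq hy]
  constructor
  · intro h
    rw [p.prime.dvd_finsetProd_iff] at h
    obtain ⟨q, hq, hpq⟩ := h
    have h2 : p.asIdeal ∣ q.asIdeal := p.prime.dvd_of_dvd_pow hpq
    have h3 : p = q := by
      have : q.asIdeal = p.asIdeal := by
        have h4 := Ideal.le_of_dvd h2
        exact (Ideal.IsMaximal.eq_of_le q.isMaximal p.isPrime.ne_top h4)
      exact HeightOneSpectrum.ext this.symm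
    subst h3
    exact (Set.Finite.mem_toFinset _).mp hq
  · intro h
    have h1 : 0 < kp p y := (av_lt_one_iff_kp p hy).mp h
    have h2 : p.asIdeal ∣ p.asIdeal ^ (kp p y).toNat := dvd_pow_self _ (by omega)
    exact h2.trans (Finset.dvd_prod_of_mem _ ((Set.Finite.mem_toFinset _).mpr h))

lemma ex_numI {y : K} (hy : y ≠ 0) {p : HeightOneSpectrum (𝓞 K)} (hp : p ∈ Zp y) :
    ex (numI y) p = (kp p y).toNat := by
  classical
  rw [ex, numI_eq hy]
  rw [← Finset.mul_prod_erase _ _ ((Set.Finite.mem_toFinset (finite_Zp hy)).mpr hp)]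
  apply multiplicity_eq_of_emultiplicity_eq_some
  rw [emultiplicity_mul p.prime, emultiplicity_pow_self_of_prime p.prime]
  have h1 : emultiplicity p.asIdeal
      (∏ q ∈ (finite_Zp hy).toFinset.erase p, q.asIdeal ^ (kp q y).toNat) = 0 := by
    rw [emultiplicity_eq_zero]
    intro h
    rw [p.prime.dvd_finsetProd_iff] at h
    obtain ⟨q, hq, hpq⟩ := h
    have h2 : p.asIdeal ∣ q.asIdeal := p.prime.dvd_of_dvd_pow hpq
    have h3 : p = q := by
      have : q.asIdeal = p.asIdeal := by
        have h4 := Ideal.le_of_dvd h2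
        exact (Ideal.IsMaximal.eq_of_le q.isMaximal p.isPrime.ne_top h4)
      exact HeightOneSpectrum.ext this.symm
    subst h3
    exact (Finset.notMem_erase _ _) hq
  rw [h1, add_zero]

open Real in
/-- multiplicity version of `Rs_Zp_le` -/
lemma log_absNorm_numI_le {y : K} (hy : y ≠ 0) :
    Real.log (Ideal.absNorm (numI y) : ℝ) ≤ logHeight₁ y := by
  classical
  have hN : Real.log (Ideal.absNorm (numI y) : ℝ) =
      ∑ p ∈ (finite_Zp hy).toFinset, Real.log (av p y⁻¹) := by
    rw [numI_eq hy, map_prod]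
    push_cast
    rw [Real.log_prod]
    · refine Finset.sum_congr rfl fun p hp => ?_
      rw [Set.Finite.mem_toFinset] at hp
      have h1 : 0 < kp p y := (av_lt_one_iff_kp p hy).mp hp
      rw [map_pow, av_inv, av_eq_zpow p hy]
      push_cast
      rw [Real.log_pow, Real.log_inv, Real.log_zpow]
      have h2 : (((kp p y).toNat : ℕ) : ℝ) = (kp p y : ℝ) := by
        have : (((kp p y).toNat : ℕ) : ℤ) = kp p y := Int.toNat_of_nonneg h1.le
        exact_mod_cast this
      rw [h2, Np]
      push_cast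
      ring
    · intro p _
      rw [map_pow]
      push_cast
      have := two_le_Np p
      have h3 : (Ideal.absNorm p.asIdeal : ℝ) = Np p := rfl
      rw [h3]
      positivity
  rw [hN, ← logHeight₁_inv, NumberField.logHeight₁_eq]
  have hfin : (Function.support fun w : FinitePlace K => log⁺ (w y⁻¹)).Finite := by
    have h := FinitePlace.hasFiniteMulSupport (inv_ne_zero hy)
    refine Set.Finite.subset h ?_
    intro w hw
    simp only [Function.mem_support, ne_eq] at hw
    simp only [Function.mem_mulSupport, ne_eq]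
    intro h1
    apply hw
    rw [h1]; simp
  have h1 : ∑ᶠ w : FinitePlace K, log⁺ (w y⁻¹) =
      ∑ᶠ p : HeightOneSpectrum (𝓞 K), log⁺ (av p y⁻¹) := by
    rw [← finsum_comp_equiv (FinitePlace.equivHeightOneSpectrum (K := K)).symm]
    rfl
  have h2 : ∑ p ∈ (finite_Zp hy).toFinset, Real.log (av p y⁻¹) ≤
      ∑ᶠ p : HeightOneSpectrum (𝓞 K), log⁺ (av p y⁻¹) := by
    have hfin2 : (Function.support fun p : HeightOneSpectrum (𝓞 K) => log⁺ (av p y⁻¹)).Finite := by
      refine (finite_av_ne_one (inv_ne_zero hy)).subset ?_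
      intro p hp
      simp only [Function.mem_support, ne_eq] at hp
      simp only [Set.mem_ofPred_eq, ne_eq]
      intro h1
      apply hp
      rw [h1]; simp
    rw [finsum_eq_sum_of_support_subset (s := (finite_Zp hy).toFinset ∪ hfin2.toFinset)]
    · refine le_trans ?_ (Finset.sum_le_sum_of_subset_of_nonneg Finset.subset_union_left ?_)
      · apply Finset.sum_le_sum
        intro p hp
        exact le_max_right _ _
      · intro p _ _
        exact posLog_nonneg
    · intro p hp
      simp only [Finset.coe_union, Set.Finite.coe_toFinset, Set.mem_union]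
      right
      exact hp
  have h3 : 0 ≤ ∑ v : InfinitePlace K, (v.mult : ℝ) * log⁺ (v y⁻¹) :=
    Finset.sum_nonneg fun v _ => mul_nonneg (by positivity) posLog_nonneg
  rw [h1]
  linarith

/-- the two numerator ideals determine all valuations -/
lemma valuation_eq_of_numI_eq {y z : K} (hy : y ≠ 0) (hz : z ≠ 0) (h1 : numI y = numI z)
    (h2 : numI y⁻¹ = numI z⁻¹) (p : HeightOneSpectrum (𝓞 K)) :
    p.valuation K y = p.valuation K z := by
  have key : ∀ {y z : K}, y ≠ 0 → z ≠ 0 → numI y = numI z → p ∈ Zp y →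
      p.valuation K y = p.valuation K z := by
    intro y z hy hz h hp
    have hpz : p ∈ Zp z := by
      rw [← dvd_numI_iff hz, ← h, dvd_numI_iff hy]; exact hp
    have e1 := ex_numI hy hp
    have e2 := ex_numI hz hpz
    rw [h, e2] at e1
    have k1 : 0 < kp p y := (av_lt_one_iff_kp p hy).mp hp
    have k2 : 0 < kp p z := (av_lt_one_iff_kp p hz).mp hpz
    have : kp p y = kp p z := by omega
    rw [valuation_eq_exp p hy, valuation_eq_exp p hz, this]
  by_cases hp : p ∈ Zp y
  · exact key hy hz h1 hp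
  by_cases hp' : p ∈ Zp y⁻¹
  · have := key (inv_ne_zero hy) (inv_ne_zero hz) h2 hp'
    rw [map_inv₀, map_inv₀] at this
    exact inv_injective this
  -- both units
  have hz1 : p ∉ Zp z := by
    rw [← dvd_numI_iff hz, ← h1, dvd_numI_iff hy]; exact hp
  have hz2 : p ∉ Zp z⁻¹ := by
    rw [← dvd_numI_iff (inv_ne_zero hz), ← h2, dvd_numI_iff (inv_ne_zero hy)]; exact hp'
  have unit_case : ∀ {y : K}, y ≠ 0 → p ∉ Zp y → p ∉ Zp y⁻¹ → p.valuation K y = 1 := by
    intro y hy h1 h2
    simp only [Zp, Set.mem_ofPred_eq, not_lt] at h1 h2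
    rw [av_inv] at h2
    have h3 : av p y ≤ 1 := by
      rw [one_le_inv₀ (av_pos p hy)] at h2
      exact h2
    have h4 : av p y = av p (1 : K) := by rw [av_one]; exact le_antisymm h3 h1
    rw [av_eq_av_iff, map_one] at h4
    exact h4
  rw [unit_case hy hp hp', unit_case hz hz1 hz2]

lemma exists_unit_of_numI_eq {y z : K} (hy : y ≠ 0) (hz : z ≠ 0) (h1 : numI y = numI z)
    (h2 : numI y⁻¹ = numI z⁻¹) : ∃ u : (𝓞 K)ˣ, y = u * z := by
  have hval : ∀ p : HeightOneSpectrum (𝓞 K), p.valuation K (y / z) = 1 := by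
    intro p
    rw [map_div₀, valuation_eq_of_numI_eq hy hz h1 h2 p, div_self]
    exact (Valuation.ne_zero_iff _).mpr hz
  have hint : ∀ w : K, (∀ p : HeightOneSpectrum (𝓞 K), p.valuation K w ≤ 1) →
      ∃ a : 𝓞 K, (a : K) = w := by
    intro w hw
    exact HeightOneSpectrum.mem_integers_of_valuation_le_one K w hw
  obtain ⟨a, ha⟩ := hint (y / z) fun p => (hval p).le
  obtain ⟨b, hb⟩ := hint (y / z)⁻¹ fun p => by rw [map_inv₀, hval p, inv_one]
  have hab' : (a : K) * (b : K) = 1 := by
    rw [ha, hb, mul_inv_cancel₀ (div_ne_zero hy hz)]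
  have hab : a * b = 1 := by exact_mod_cast hab'
  refine ⟨⟨a, b, hab, by rw [mul_comm]; exact hab⟩, ?_⟩
  change y = (a : K) * z
  rw [ha, div_mul_cancel₀ _ hz]

end Pool.Agent.Work.MP_a793bb_nt
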