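import Pool.Agent.Work.MP_a793bb_nt.Selmer
import Pool.Agent.Work.MP_a793bb_nt.Balanced
import Pool.Agent.Work.MP_a793bb_nt.SmallRad

set_option autoImplicit false
set_option linter.unusedSectionVars false

namespace Pool.Agent.Work.MP_a793bb_nt

open NumberField IsDedekindDomain Height nonZeroDivisors Module

section combinatorics

/-- Cauchy-Schwarz for ratios: few representations as products imply many ratios. -/
lemma ratio_count {F : Type*} [Field F] [DecidableEq F] {B : Finset F} (hB : ∀ u ∈ B, u ≠ 0)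
    {r : ℕ} (hr : ∀ w : F, w ≠ 0 → ((B ×ˢ B).filter fun p => p.1 * p.2 = w).card ≤ r) :
    B.card ^ 2 ≤ ((B ×ˢ B).image fun p => p.1 / p.2).card * r := by
  classical
  set A := B ×ˢ B with hA
  set f : F × F → F := fun p => p.1 / p.2 with hf
  set R := A.image f with hR
  have hcardA : A.card = B.card ^ 2 := by rw [hA, Finset.card_product, sq]
  -- Cauchy-Schwarz
  have h1 : A.card = ∑ ρ ∈ R, (A.filter fun p => f p = ρ).card :=
    Finset.card_eq_sum_card_fiberwise (fun p hp => Finset.mem_image_of_mem f hp)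
  have h2 : A.card ^ 2 ≤ R.card * ∑ ρ ∈ R, (A.filter fun p => f p = ρ).card ^ 2 := by
    have h := sq_sum_le_card_mul_sum_sq (s := R) (f := fun ρ => (A.filter fun p => f p = ρ).card)
    rw [← h1] at h
    exact h
  -- the energy
  set E := (A ×ˢ A).filter fun z => f z.1 = f z.2 with hE
  have h3 : ∑ ρ ∈ R, (A.filter fun p => f p = ρ).card ^ 2 = E.card := by
    have h4 : E.card = ∑ ρ ∈ R, (E.filter fun z => f z.1 = ρ).card := by
      apply Finset.card_eq_sum_card_fiberwise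
      intro z hz
      rw [Finset.mem_coe, hE, Finset.mem_filter, Finset.mem_product] at hz
      exact Finset.mem_image_of_mem f hz.1.1
    rw [h4]
    refine Finset.sum_congr rfl fun ρ _ => ?_
    rw [sq, ← Finset.card_product]
    congr 1
    ext ⟨p, q⟩
    simp only [Finset.mem_product, Finset.mem_filter, hE]
    constructor
    · rintro ⟨⟨h5, h6⟩, h7, h8⟩
      exact ⟨⟨⟨h5, h7⟩, by rw [h6, h8]⟩, h6⟩
    · rintro ⟨⟨⟨h5, h7⟩, h8⟩, h6⟩
      exact ⟨⟨h5, h6⟩, h7, by rw [← h8, h6]⟩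
  -- rearrangement
  set E' := (A ×ˢ A).filter fun z => z.2.1 * z.2.2 = z.1.1 * z.1.2 with hE'
  have h4 : E.card ≤ E'.card := by
    apply Finset.card_le_card_of_injOn (fun z => ((z.1.1, z.2.2), (z.2.1, z.1.2)))
    · rintro ⟨⟨u, v⟩, ⟨u', v'⟩⟩ hz
      rw [Finset.mem_coe, hE, Finset.mem_filter, Finset.mem_product, hA, Finset.mem_product,
        Finset.mem_product] at hz
      obtain ⟨⟨⟨hu, hv⟩, hu', hv'⟩, h⟩ := hz
      simp only at hu hv hu' hv'
      rw [Finset.mem_coe, hE', Finset.mem_filter, Finset.mem_product, hA, Finset.mem_product,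
        Finset.mem_product]
      refine ⟨⟨⟨hu, hv'⟩, hu', hv⟩, ?_⟩
      simp only [hf] at h ⊢
      rw [div_eq_div_iff (hB v hv) (hB v' hv')] at h
      exact h.symm
    · rintro ⟨⟨u, v⟩, ⟨u', v'⟩⟩ _ ⟨⟨x, y⟩, ⟨x', y'⟩⟩ _ h
      simp only [Prod.mk.injEq] at h ⊢
      obtain ⟨⟨h1, h2⟩, h3, h4⟩ := h
      exact ⟨⟨h1, h4⟩, h3, h2⟩
  have h5 : E'.card ≤ A.card * r := by
    have h6 : E'.card = ∑ a ∈ A, (E'.filter fun z => z.1 = a).card := by
      apply Finset.card_eq_sum_card_fiberwise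
      intro z hz
      rw [Finset.mem_coe, hE', Finset.mem_filter, Finset.mem_product] at hz
      exact hz.1.1
    rw [h6, ← smul_eq_mul]
    apply Finset.sum_le_card_nsmul
    rintro ⟨a, b⟩ hab
    have hab' : a * b ≠ 0 := by
      rw [hA, Finset.mem_product] at hab
      exact mul_ne_zero (hB a hab.1) (hB b hab.2)
    refine le_trans ?_ (hr (a * b) hab')
    apply Finset.card_le_card_of_injOn (fun z => z.2)
    · rintro ⟨p, q⟩ hz
      rw [Finset.mem_coe, Finset.mem_filter, hE', Finset.mem_filter, Finset.mem_product] at hz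
      obtain ⟨⟨⟨h7, h8⟩, h9⟩, h10⟩ := hz
      simp only at h7 h8 h9 h10
      subst h10
      rw [Finset.mem_coe, Finset.mem_filter]
      exact ⟨h8, h9⟩
    · rintro ⟨p, q⟩ hz ⟨p', q'⟩ hz' h
      rw [Finset.mem_coe, Finset.mem_filter] at hz hz'
      simp only at h hz hz'
      rw [hz.2, hz'.2, h]
  have h6 : A.card ^ 2 ≤ R.card * (A.card * r) := by
    refine h2.trans (Nat.mul_le_mul_left _ ?_)
    rw [h3]
    exact h4.trans h5
  rw [← hcardA]
  rcases Nat.eq_zero_or_pos A.card with h0 | h0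
  · rw [h0]; exact Nat.zero_le _
  · have h7 : A.card * A.card ≤ A.card * (R.card * r) := by
      calc A.card * A.card = A.card ^ 2 := by ring
        _ ≤ R.card * (A.card * r) := h6
        _ = A.card * (R.card * r) := by ring
    exact Nat.le_of_mul_le_mul_left h7 h0

end combinatorics

variable {K : Type*} [Field K] [NumberField K]

variable (K) in
/-- The number of divisors of an ideal. -/
lemma card_dvd_le {δ : ℝ} (hδ : 0 < δ) : ∃ C : ℝ, 1 ≤ C ∧ ∀ W : Ideal (𝓞 K), W ≠ ⊥ →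
    {I : Ideal (𝓞 K) | I ∣ W}.Finite ∧
    ({I : Ideal (𝓞 K) | I ∣ W}.ncard : ℝ) ≤ C * (Ideal.absNorm W : ℝ) ^ δ := by
  classical
  obtain ⟨C₁, hC₁, h1⟩ := card_idealsWith_le K (δ := δ / 2) (by positivity)
  obtain ⟨C₂, hC₂, h2⟩ := pow_card_dvd_le K (δ := δ / 2) (by positivity) 2
  refine ⟨C₂ * C₁, by nlinarith, fun W hW => ?_⟩
  set N : ℝ := (Ideal.absNorm W : ℝ) with hN
  have hN1 : 1 ≤ N := one_le_absNorm K hW
  set F := (finite_dvd hW).toFinset with hF
  set D : Finset (Ideal (𝓞 K)) := F.powerset.biUnion fun S => (h1 S N hN1).1.toFinset with hD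
  have hsub : {I : Ideal (𝓞 K) | I ∣ W} ⊆ D := by
    intro I hI
    have hI0 : I ≠ ⊥ := by
      rintro rfl
      rw [Set.mem_ofPred_eq, ← Ideal.zero_eq_bot, zero_dvd_iff] at hI
      exact hW hI
    rw [Finset.mem_coe, hD, Finset.mem_biUnion]
    refine ⟨(finite_dvd hI0).toFinset, ?_, ?_⟩
    · rw [Finset.mem_powerset]
      intro p hp
      rw [Set.Finite.mem_toFinset] at hp
      rw [hF, Set.Finite.mem_toFinset]
      exact dvd_trans hp hI
    · rw [Set.Finite.mem_toFinset]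
      refine ⟨hI0, fun p => by rw [Set.Finite.mem_toFinset]; rfl, ?_⟩
      have h7 : Ideal.absNorm I ∣ Ideal.absNorm W :=
        Ideal.absNorm_dvd_absNorm_of_le (Ideal.le_of_dvd hI)
      have h8 : Ideal.absNorm W ≠ 0 := by
        rw [Ne, Ideal.absNorm_eq_zero_iff]; exact hW
      rw [hN]
      exact_mod_cast Nat.le_of_dvd (Nat.pos_of_ne_zero h8) h7
  refine ⟨(Finset.finite_toSet D).subset hsub, ?_⟩
  have h3 : ({I : Ideal (𝓞 K) | I ∣ W}.ncard : ℝ) ≤ D.card := by
    have := Set.ncard_le_ncard hsub (Finset.finite_toSet D)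
    rw [Set.ncard_coe_finset] at this
    exact_mod_cast this
  refine h3.trans ?_
  have h4 : (D.card : ℝ) ≤ ∑ S ∈ F.powerset, (C₁ * N ^ (δ / 2)) := by
    calc (D.card : ℝ) ≤ ((∑ S ∈ F.powerset, (h1 S N hN1).1.toFinset.card : ℕ) : ℝ) := by
          exact_mod_cast Finset.card_biUnion_le
      _ ≤ _ := by
          push_cast
          refine Finset.sum_le_sum fun S _ => ?_
          rw [← Set.ncard_eq_toFinset_card _ (h1 S N hN1).1]
          exact (h1 S N hN1).2
  rw [Finset.sum_const, Finset.card_powerset, nsmul_eq_mul] at h4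
  have h5 : ((2 ^ F.card : ℕ) : ℝ) ≤ C₂ * N ^ (δ / 2) := by
    have := h2 W hW
    rw [Set.ncard_eq_toFinset_card _ (finite_dvd hW)] at this
    exact_mod_cast this
  calc (D.card : ℝ) ≤ _ := h4
    _ ≤ (C₂ * N ^ (δ / 2)) * (C₁ * N ^ (δ / 2)) :=
        mul_le_mul_of_nonneg_right h5 (by positivity)
    _ = C₂ * C₁ * N ^ δ := by
        have : N ^ δ = N ^ (δ / 2) * N ^ (δ / 2) := by
          rw [← Real.rpow_add (by linarith)]; congr 1; ring
        rw [this]; ring

/-- integers congruent to one modulo six in a box -/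
def boxSix (K : Type*) [Field K] [NumberField K] (T : ℝ) : Set (𝓞 K) :=
  {u | (∃ s : 𝓞 K, u = 1 + 6 * s) ∧ ∀ v : InfinitePlace K, v (u : K) ≤ T}

lemma mulHeight₁_int_le {T : ℝ} (hT : 1 ≤ T) {u : 𝓞 K} (hu : ∀ v : InfinitePlace K, v (u : K) ≤ T) :
    mulHeight₁ (u : K) ≤ T ^ finrank ℚ K := by
  rw [mulHeight₁_eq_mulHeight]
  have hy : (![u, 1] : Fin 2 → 𝓞 K) ≠ 0 := by
    intro h0
    have := congrFun h0 1
    simp at this
  have h1 := mulHeight_int ![u, 1] hy
  have h2 : (fun i => ((![u, 1] : Fin 2 → 𝓞 K) i : K)) = ![(u : K), 1] := by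
    ext i; fin_cases i
    · rfl
    · simp
  rw [h2] at h1
  have h4 : (1 : ℝ) ≤ Ideal.absNorm (Ideal.span (Set.range (![u, 1] : Fin 2 → 𝓞 K))) := by
    apply one_le_absNorm K
    intro h0
    rw [Ideal.span_eq_bot] at h0
    exact one_ne_zero (h0 1 ⟨1, rfl⟩)
  have h5 : 0 < mulHeight ![(u : K), 1] := mulHeight_pos _
  have h6 : ∏ v : InfinitePlace K, (⨆ i, v ((![u, 1] : Fin 2 → 𝓞 K) i : K)) ^ v.mult ≤
      T ^ finrank ℚ K := by
    rw [← InfinitePlace.sum_mult_eq, ← Finset.prod_pow_eq_pow_sum]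
    apply Finset.prod_le_prod
    · intro v _
      apply pow_nonneg
      exact Real.iSup_nonneg fun i => apply_nonneg _ _
    · intro v _
      apply pow_le_pow_left₀ (Real.iSup_nonneg fun i => apply_nonneg _ _)
      apply ciSup_le
      intro i
      fin_cases i
      · exact hu v
      · simpa using hT
  calc mulHeight ![(u : K), 1] ≤ mulHeight ![(u : K), 1] *
        Ideal.absNorm (Ideal.span (Set.range (![u, 1] : Fin 2 → 𝓞 K))) :=
        le_mul_of_one_le_right h5.le h4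
    _ ≤ _ := by rw [h1]; exact h6

lemma finite_boxSix {T : ℝ} (hT : 1 ≤ T) : (boxSix K T).Finite := by
  have h := NumberField.finite_setOfPred_mulHeight₁_le K (T ^ finrank ℚ K)
  refine Set.Finite.of_finite_image (f := fun u : 𝓞 K => (u : K)) (h.subset ?_) ?_
  · rintro _ ⟨u, hu, rfl⟩
    exact mulHeight₁_int_le hT hu.2
  · intro u _ v _ h
    exact RingOfIntegers.ext h

variable (K) in
lemma card_boxSix_ge : ∃ c : ℝ, 0 < c ∧ ∀ T : ℝ, 2 ≤ T →
    c * T ^ finrank ℚ K ≤ ((boxSix K T).ncard : ℝ) := by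
  classical
  set b := RingOfIntegers.basis K with hb
  set ι := Free.ChooseBasisIndex ℤ (𝓞 K) with hι
  obtain ⟨M, hM⟩ : ∃ M : ℝ, ∀ v : InfinitePlace K, ∑ j, v (b j : K) ≤ M := by
    obtain ⟨M, hM⟩ := (Set.finite_range fun v : InfinitePlace K => ∑ j, v (b j : K)).bddAbove
    exact ⟨M, fun v => hM ⟨v, rfl⟩⟩
  set M' := max M 1 with hM'
  have hM1 : 1 ≤ M' := le_max_right _ _
  have hMM : ∀ v : InfinitePlace K, ∑ j, v (b j : K) ≤ M' := fun v => (hM v).trans (le_max_left _ _)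
  have hcard : Fintype.card ι = finrank ℚ K := by
    rw [← RingOfIntegers.rank K, finrank_eq_card_chooseBasisIndex]
  refine ⟨(1 / (12 * M')) ^ finrank ℚ K, by positivity, fun T hT => ?_⟩
  set N := ⌊(T - 1) / (6 * M')⌋₊ with hN
  let φ : (ι → Fin (N + 1)) → 𝓞 K := fun n => 1 + 6 * ∑ j, ((n j : ℕ) : ℤ) • b j
  have hφinj : Function.Injective φ := by
    intro n n' h
    simp only [φ, add_right_inj] at h
    have h6 : (6 : 𝓞 K) ≠ 0 := by norm_num
    have h1 := mul_left_cancel₀ h6 h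
    have h2 : ∀ n : ι → Fin (N + 1), ∀ j, b.repr (∑ j, ((n j : ℕ) : ℤ) • b j) j = ((n j : ℕ) : ℤ) := by
      intro n j
      exact Basis.repr_sum_self b (fun j => ((n j : ℕ) : ℤ)) ▸ rfl
    ext j
    have h3 := h2 n j
    rw [h1, h2 n' j] at h3
    exact_mod_cast h3.symm
  have hφmem : ∀ n, φ n ∈ boxSix K T := by
    intro n
    refine ⟨⟨_, rfl⟩, fun v => ?_⟩
    have h6M : 0 < 6 * M' := by positivity
    have hNle : (N : ℝ) * (6 * M') ≤ T - 1 := by
      have := Nat.floor_le (div_nonneg (by linarith : (0 : ℝ) ≤ T - 1) h6M.le)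
      rwa [le_div_iff₀ h6M] at this
    have e1 : ((φ n : 𝓞 K) : K) = 1 + 6 * ∑ j, ((n j : ℕ) : K) * (b j : K) := by
      simp only [φ]
      push_cast [Algebra.smul_def]
      have h66 : algebraMap (𝓞 K) K 6 = 6 := map_ofNat _ 6
      refine congrArg (fun z : K => 1 + z * ∑ j, ((n j : ℕ) : K) * (b j : K)) ?_
      exact h66
    rw [e1]
    have hv6 : v (6 : K) = 6 := by
      rw [← v.norm_embedding_eq, map_ofNat]; simp
    have hvn : ∀ k : ℕ, v (k : K) = k := by
      intro k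
      rw [← v.norm_embedding_eq, map_natCast]; simp
    have hsum : v (∑ j, ((n j : ℕ) : K) * (b j : K)) ≤ N * M' := by
      calc v (∑ j, ((n j : ℕ) : K) * (b j : K)) ≤ ∑ j, v (((n j : ℕ) : K) * (b j : K)) := by
            exact v.1.sum_le _ _
        _ ≤ ∑ j, N * v (b j : K) := by
            refine Finset.sum_le_sum fun j _ => ?_
            rw [map_mul, hvn]
            apply mul_le_mul_of_nonneg_right _ (apply_nonneg _ _)
            exact_mod_cast Nat.lt_succ_iff.mp (n j).2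
        _ = N * ∑ j, v (b j : K) := by rw [Finset.mul_sum]
        _ ≤ N * M' := mul_le_mul_of_nonneg_left (hMM v) (by positivity)
    calc v (1 + 6 * ∑ j, ((n j : ℕ) : K) * (b j : K)) ≤
          v 1 + v (6 * ∑ j, ((n j : ℕ) : K) * (b j : K)) := v.1.add_le _ _
      _ ≤ 1 + 6 * (N * M') := by
          rw [map_one, map_mul, hv6]
          linarith
      _ ≤ T := by linarith
  have h1 : (N + 1) ^ finrank ℚ K ≤ (boxSix K T).ncard := by
    have h2 : (Set.range φ).ncard = (N + 1) ^ finrank ℚ K := by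
      rw [← Set.image_univ, Set.ncard_image_of_injective _ hφinj, Set.ncard_univ,
        Nat.card_eq_fintype_card, Fintype.card_fun, Fintype.card_fin, hcard]
    rw [← h2]
    apply Set.ncard_le_ncard _ (finite_boxSix (by linarith))
    rintro _ ⟨n, rfl⟩
    exact hφmem n
  have h2 : T / (12 * M') ≤ N + 1 := by
    have h3 := (Nat.lt_floor_add_one ((T - 1) / (6 * M'))).le
    refine le_trans ?_ h3
    rw [div_le_div_iff₀ (by positivity) (by positivity)]
    nlinarith
  calc (1 / (12 * M')) ^ finrank ℚ K * T ^ finrank ℚ K = (T / (12 * M')) ^ finrank ℚ K := by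
        rw [← mul_pow]; congr 1; ring
    _ ≤ ((N : ℝ) + 1) ^ finrank ℚ K := pow_le_pow_left₀ (by positivity) h2 _
    _ ≤ ((boxSix K T).ncard : ℝ) := by exact_mod_cast h1

end Pool.Agent.Work.MP_a793bb_nt
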