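import Pool.Agent.Work.MP_a793bb_nt.RadCount

set_option autoImplicit false
set_option linter.unusedSectionVars false

namespace Pool.Agent.Work.MP_a793bb_nt

open NumberField IsDedekindDomain Filter Topology nonZeroDivisors

variable {K : Type*} [Field K] [NumberField K]

lemma pow_ex_dvd {I : Ideal (𝓞 K)} (p : HeightOneSpectrum (𝓞 K)) {m : ℕ} (hI : I ≠ ⊥) :
    p.asIdeal ^ m ∣ I ↔ m ≤ ex I p := by
  have hfin : FiniteMultiplicity p.asIdeal I := FiniteMultiplicity.of_prime_left p.prime hI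
  exact hfin.pow_dvd_iff_le_multiplicity

lemma ex_eq_iff {I : Ideal (𝓞 K)} (p : HeightOneSpectrum (𝓞 K)) (hI : I ≠ ⊥) {m : ℕ}
    (h : ∀ k : ℕ, p.asIdeal ^ k ∣ I ↔ k ≤ m) : ex I p = m := by
  apply le_antisymm
  · exact (h _).mp ((pow_ex_dvd p hI).mpr le_rfl)
  · exact (pow_ex_dvd p hI).mp ((h m).mpr le_rfl)

lemma ex_eq_zero {I : Ideal (𝓞 K)} {p : HeightOneSpectrum (𝓞 K)} (h : ¬ p.asIdeal ∣ I) :
    ex I p = 0 := by
  have : emultiplicity p.asIdeal I = 0 := emultiplicity_eq_zero.mpr h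
  exact multiplicity_eq_of_emultiplicity_eq_some (by simpa using this)

lemma ex_mul {I J : Ideal (𝓞 K)} (hI : I ≠ ⊥) (hJ : J ≠ ⊥) (p : HeightOneSpectrum (𝓞 K)) :
    ex (I * J) p = ex I p + ex J p := by
  have hIJ : I * J ≠ ⊥ := mul_ne_zero hI hJ
  exact multiplicity_mul p.prime (FiniteMultiplicity.of_prime_left p.prime hIJ)

lemma ex_pow {I : Ideal (𝓞 K)} (hI : I ≠ ⊥) (n : ℕ) (p : HeightOneSpectrum (𝓞 K)) :
    ex (I ^ n) p = n * ex I p := by
  induction n with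
  | zero =>
    rw [pow_zero, zero_mul]
    apply ex_eq_zero
    intro h
    exact p.prime.not_isUnit (isUnit_of_dvd_one h)
  | succ n ih =>
    rw [pow_succ, ex_mul (pow_ne_zero _ hI) hI, ih]
    ring

lemma ideal_ext_of_ex {I J : Ideal (𝓞 K)} (hI : I ≠ ⊥) (hJ : J ≠ ⊥) (h : ∀ p, ex I p = ex J p) :
    I = J := by
  classical
  set F := (finite_dvd hI).toFinset ∪ (finite_dvd hJ).toFinset with hF
  rw [← prod_ex hI F (fun p hp => Finset.mem_union_left _ ((Set.Finite.mem_toFinset _).mpr hp)),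
    ← prod_ex hJ F (fun p hp => Finset.mem_union_right _ ((Set.Finite.mem_toFinset _).mpr hp))]
  exact Finset.prod_congr rfl fun p _ => by rw [h p]

lemma ex_span {a : 𝓞 K} (ha : a ≠ 0) (p : HeightOneSpectrum (𝓞 K)) :
    ((ex (Ideal.span {a}) p : ℕ) : ℤ) = kp p (a : K) := by
  have ha' : (a : K) ≠ 0 := by exact_mod_cast ha
  have hI : Ideal.span {a} ≠ (⊥ : Ideal (𝓞 K)) := by simpa using ha
  have hval := valuation_eq_exp p ha'
  have hle : p.valuation K (a : K) ≤ 1 := p.valuation_le_one a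
  rw [hval, ← WithZero.exp_zero, WithZero.exp_le_exp] at hle
  have h0 : 0 ≤ kp p (a : K) := by omega
  have hv2 : p.intValuation a = WithZero.exp (-kp p (a : K)) := by
    rw [← hval]; exact (HeightOneSpectrum.valuation_of_algebraMap (K := K) p a).symm
  have : ex (Ideal.span {a}) p = (kp p (a : K)).toNat := by
    apply ex_eq_iff p hI
    intro k
    rw [← HeightOneSpectrum.intValuation_le_pow_iff_dvd, hv2, WithZero.exp_le_exp]
    omega
  rw [this]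
  exact Int.toNat_of_nonneg h0

lemma kp_mul (p : HeightOneSpectrum (𝓞 K)) {x y : K} (hx : x ≠ 0) (hy : y ≠ 0) :
    kp p (x * y) = kp p x + kp p y := by
  have h1 := valuation_eq_exp p (mul_ne_zero hx hy)
  rw [map_mul, valuation_eq_exp p hx, valuation_eq_exp p hy, ← WithZero.exp_add,
    WithZero.exp_inj] at h1
  omega

lemma kp_one (p : HeightOneSpectrum (𝓞 K)) : kp p (1 : K) = 0 := by
  have h := kp_mul p (one_ne_zero (α := K)) (one_ne_zero (α := K))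
  rw [mul_one] at h
  omega

lemma kp_inv (p : HeightOneSpectrum (𝓞 K)) {x : K} (hx : x ≠ 0) : kp p x⁻¹ = -kp p x := by
  have h := kp_mul p hx (inv_ne_zero hx)
  rw [mul_inv_cancel₀ hx, kp_one] at h
  omega

lemma kp_div (p : HeightOneSpectrum (𝓞 K)) {x y : K} (hx : x ≠ 0) (hy : y ≠ 0) :
    kp p (x / y) = kp p x - kp p y := by
  rw [div_eq_mul_inv, kp_mul p hx (inv_ne_zero hy), kp_inv p hy]
  ring

lemma kp_pow (p : HeightOneSpectrum (𝓞 K)) {x : K} (hx : x ≠ 0) (n : ℕ) :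
    kp p (x ^ n) = n * kp p x := by
  induction n with
  | zero => simp [kp_one]
  | succ n ih =>
    rw [pow_succ, kp_mul p (pow_ne_zero n hx) hx, ih]
    push_cast
    ring

lemma ex_numI' {y : K} (hy : y ≠ 0) (p : HeightOneSpectrum (𝓞 K)) :
    ex (numI y) p = (kp p y).toNat := by
  by_cases hp : p ∈ Zp y
  · exact ex_numI hy hp
  · have h1 : ¬ p.asIdeal ∣ numI y := by rwa [dvd_numI_iff hy]
    rw [ex_eq_zero h1]
    have h2 : ¬ (0 < kp p y) := by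
      rw [← av_lt_one_iff_kp p hy]; exact hp
    omega

/-- an ideal all of whose exponents are divisible by `n` is an `n`-th power -/
lemma exists_root_ideal {n : ℕ} (hn : 1 ≤ n) {I : Ideal (𝓞 K)} (hI : I ≠ ⊥)
    (h : ∀ p, n ∣ ex I p) : ∃ J : Ideal (𝓞 K), J ≠ ⊥ ∧ I = J ^ n := by
  classical
  refine ⟨∏ p ∈ (finite_dvd hI).toFinset, p.asIdeal ^ (ex I p / n), ?_, ?_⟩
  · rw [← Ideal.zero_eq_bot, Finset.prod_ne_zero_iff]
    intro p _
    exact pow_ne_zero _ p.ne_bot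
  · conv_lhs => rw [← prod_ex hI _ (fun p hp => (Set.Finite.mem_toFinset (finite_dvd hI)).mpr hp)]
    rw [← Finset.prod_pow]
    refine Finset.prod_congr rfl fun p _ => ?_
    rw [← pow_mul, Nat.div_mul_cancel (h p)]

/-- an element all of whose valuations vanish is a unit -/
lemma exists_unit_of_kp_eq_zero {w : K} (hw : w ≠ 0) (h : ∀ p, kp p w = 0) :
    ∃ u : (𝓞 K)ˣ, w = u := by
  have hval : ∀ p : HeightOneSpectrum (𝓞 K), p.valuation K w = 1 := by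
    intro p
    rw [valuation_eq_exp p hw, h p, neg_zero, WithZero.exp_zero]
  obtain ⟨a, ha⟩ := HeightOneSpectrum.mem_integers_of_valuation_le_one K w fun p => (hval p).le
  obtain ⟨b, hb⟩ := HeightOneSpectrum.mem_integers_of_valuation_le_one K w⁻¹ fun p => by
    rw [map_inv₀, hval p, inv_one]
  have hab' : (a : K) * (b : K) = 1 := by
    have h1 : (a : K) = w := ha
    have h2 : (b : K) = w⁻¹ := hb
    rw [h1, h2, mul_inv_cancel₀ hw]
  have hab : a * b = 1 := by exact_mod_cast hab'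
  refine ⟨⟨a, b, hab, by rw [mul_comm]; exact hab⟩, ?_⟩
  exact ha.symm

variable (K) in
/-- finitely many units represent all units modulo `n`-th powers -/
lemma exists_finite_units {n : ℕ} (hn : 1 ≤ n) : ∃ T : Set (𝓞 K)ˣ, T.Finite ∧
    ∀ u : (𝓞 K)ˣ, ∃ t ∈ T, ∃ x : (𝓞 K)ˣ, u = t * x ^ n := by
  classical
  let R : Set (Fin (Units.rank K) → ℤ) := {f | ∀ i, 0 ≤ f i ∧ f i < n}
  have hR : R.Finite := by
    refine (Set.Finite.pi' (t := fun _ : Fin (Units.rank K) => Set.Ico (0 : ℤ) n)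
      (fun _ => Set.finite_Ico _ _)).subset ?_
    intro f hf i
    exact hf i
  let Φ : Units.torsion K × (Fin (Units.rank K) → ℤ) → (𝓞 K)ˣ :=
    fun z => (z.1 : (𝓞 K)ˣ) * ∏ i, Units.fundSystem K i ^ (z.2 i)
  refine ⟨Φ '' (Set.univ ×ˢ R), (Set.finite_univ.prod hR).image Φ, fun u => ?_⟩
  obtain ⟨⟨ζ, e⟩, he, -⟩ := Units.exist_unique_eq_mul_prod K u
  simp only at he
  have hn0 : (n : ℤ) ≠ 0 := by exact_mod_cast (by omega : n ≠ 0)
  have hnpos : (0 : ℤ) < n := by exact_mod_cast (by omega : 0 < n)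
  refine ⟨Φ (ζ, fun i => e i % n), ⟨_, ⟨Set.mem_univ _, fun i => ⟨Int.emod_nonneg _ hn0,
    Int.emod_lt_of_pos _ hnpos⟩⟩, rfl⟩, ∏ i, Units.fundSystem K i ^ (e i / n), ?_⟩
  rw [he]
  simp only [Φ]
  rw [mul_assoc, ← Finset.prod_pow, ← Finset.prod_mul_distrib]
  congr 1
  refine Finset.prod_congr rfl fun i _ => ?_
  rw [← zpow_natCast, ← zpow_mul, ← zpow_add]
  congr 1
  have := Int.emod_add_mul_ediv (e i) n
  linarith

/-- Selmer finiteness: the elements whose valuations are all divisible by `n` fall into finitely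
many classes modulo `n`-th powers. -/
theorem selmer_finite (K : Type*) [Field K] [NumberField K] {n : ℕ} (hn : 1 ≤ n) :
    ∃ T : Set K, T.Finite ∧ (∀ t ∈ T, t ≠ 0) ∧ ∀ u : K, u ≠ 0 →
      (∀ p : HeightOneSpectrum (𝓞 K), (n : ℤ) ∣ kp p u) →
      ∃ t ∈ T, ∃ x : K, x ≠ 0 ∧ u = t * x ^ n := by
  classical
  obtain ⟨E, hE, hE'⟩ := exists_finite_units K hn
  -- roots of the numerator ideals
  have hroot : ∀ u : K, u ≠ 0 → (∀ p : HeightOneSpectrum (𝓞 K), (n : ℤ) ∣ kp p u) →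
      ∃ J : Ideal (𝓞 K), J ≠ ⊥ ∧ numI u = J ^ n := by
    intro u hu h
    apply exists_root_ideal hn (numI_ne_bot hu)
    intro p
    rw [ex_numI' hu]
    rcases le_total 0 (kp p u) with h0 | h0
    · rw [← Int.natCast_dvd_natCast, Int.toNat_of_nonneg h0]; exact h p
    · rw [Int.toNat_of_nonpos h0]; exact dvd_zero _
  let G : Set K := {u | u ≠ 0 ∧ ∀ p : HeightOneSpectrum (𝓞 K), (n : ℤ) ∣ kp p u}
  have hinv : ∀ u ∈ G, u⁻¹ ∈ G := by
    rintro u ⟨hu, h⟩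
    refine ⟨inv_ne_zero hu, fun p => ?_⟩
    rw [kp_inv p hu]
    exact (dvd_neg).mpr (h p)
  have hroot' : ∀ u : G, ∃ J : Ideal (𝓞 K), J ≠ ⊥ ∧ numI (u : K) = J ^ n :=
    fun u => hroot u u.2.1 u.2.2
  choose J hJ0 hJ using hroot'
  -- the class
  let ι : G → G := fun u => ⟨(u : K)⁻¹, hinv u u.2⟩
  let cl : G → ClassGroup (𝓞 K) × ClassGroup (𝓞 K) := fun u =>
    (ClassGroup.mk0 ⟨J u, mem_nonZeroDivisors_of_ne_zero (hJ0 u)⟩,
     ClassGroup.mk0 ⟨J (ι u), mem_nonZeroDivisors_of_ne_zero (hJ0 (ι u))⟩)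
  -- representatives
  let rep : (Set.range cl) → G := fun c => c.2.choose
  have hrep : ∀ c : Set.range cl, cl (rep c) = c := fun c => c.2.choose_spec
  have hfinrange : (Set.range cl).Finite := Set.toFinite _
  have : Finite (Set.range cl) := hfinrange
  refine ⟨(fun z : (Set.range cl) × (𝓞 K)ˣ => (rep z.1 : K) * (z.2 : K)) '' (Set.univ ×ˢ E),
    (Set.finite_univ.prod hE).image _, ?_, ?_⟩
  · rintro _ ⟨z, -, rfl⟩
    exact mul_ne_zero (rep z.1).2.1 (Units.coe_ne_zero z.2)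
  intro u hu h
  let g : G := ⟨u, hu, h⟩
  let c : Set.range cl := ⟨cl g, ⟨g, rfl⟩⟩
  set g₀ := rep c with hg₀
  have hc : cl g₀ = cl g := hrep c
  have hc' : cl g = cl g₀ := hc.symm
  simp only [cl, Prod.mk.injEq] at hc'
  obtain ⟨a₁, b₁, ha₁, hb₁, h1⟩ := ClassGroup.mk0_eq_mk0_iff.mp hc'.1
  obtain ⟨a₂, b₂, ha₂, hb₂, h2⟩ := ClassGroup.mk0_eq_mk0_iff.mp hc'.2
  simp only at h1 h2
  have hg₀0 : (g₀ : K) ≠ 0 := g₀.2.1
  have ha₁' : (a₁ : K) ≠ 0 := by exact_mod_cast ha₁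
  have hb₁' : (b₁ : K) ≠ 0 := by exact_mod_cast hb₁
  have ha₂' : (a₂ : K) ≠ 0 := by exact_mod_cast ha₂
  have hb₂' : (b₂ : K) ≠ 0 := by exact_mod_cast hb₂
  -- compare valuations
  have hspan : ∀ a : 𝓞 K, a ≠ 0 → Ideal.span {a} ≠ (⊥ : Ideal (𝓞 K)) := fun a ha => by simpa using ha
  have key : ∀ (x y : K) (Jx Jy : Ideal (𝓞 K)) (a b : 𝓞 K), x ≠ 0 → y ≠ 0 → a ≠ 0 → b ≠ 0 →
      Jx ≠ ⊥ → Jy ≠ ⊥ → numI x = Jx ^ n → numI y = Jy ^ n →
      Ideal.span {a} * Jx = Ideal.span {b} * Jy → ∀ p,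
      (n : ℤ) * kp p (a : K) + (kp p x).toNat = n * kp p (b : K) + (kp p y).toNat := by
    intro x y Jx Jy a b hx hy ha hb hJx hJy hxJ hyJ hab p
    have e1 : ex (Ideal.span {a} * Jx) p = ex (Ideal.span {b} * Jy) p := by rw [hab]
    rw [ex_mul (hspan a ha) hJx, ex_mul (hspan b hb) hJy] at e1
    have e2 := ex_numI' hx p
    have e3 := ex_numI' hy p
    rw [hxJ, ex_pow hJx] at e2
    rw [hyJ, ex_pow hJy] at e3
    rw [← e2, ← e3, ← ex_span ha p, ← ex_span hb p]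
    have e4 : ((ex (Ideal.span {a}) p : ℕ) : ℤ) + ex Jx p =
        (ex (Ideal.span {b}) p : ℕ) + ex Jy p := by exact_mod_cast e1
    push_cast
    linear_combination (n : ℤ) * e4
  have k1 := key u g₀ (J g) (J g₀) a₁ b₁ hu hg₀0 ha₁ hb₁ (hJ0 _) (hJ0 _) (hJ g) (hJ g₀) h1
  have k2 := key u⁻¹ (g₀ : K)⁻¹ (J (ι g)) (J (ι g₀)) a₂ b₂ (inv_ne_zero hu) (inv_ne_zero hg₀0)
    ha₂ hb₂ (hJ0 _) (hJ0 _) (hJ (ι g)) (hJ (ι g₀)) h2
  set w : K := ((b₁ : K) / a₁) / ((b₂ : K) / a₂) with hw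
  have hw0 : w ≠ 0 := div_ne_zero (div_ne_zero hb₁' ha₁') (div_ne_zero hb₂' ha₂')
  have hunit : ∀ p, kp p (u / (g₀ * w ^ n)) = 0 := by
    intro p
    rw [kp_div p hu (mul_ne_zero hg₀0 (pow_ne_zero _ hw0)), kp_mul p hg₀0 (pow_ne_zero _ hw0),
      kp_pow p hw0, hw, kp_div p (div_ne_zero hb₁' ha₁') (div_ne_zero hb₂' ha₂'),
      kp_div p hb₁' ha₁', kp_div p hb₂' ha₂']
    have e1 := k1 p
    have e2 := k2 p
    rw [kp_inv p hu, kp_inv p hg₀0] at e2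
    have e3 : ((kp p u).toNat : ℤ) - ((-kp p u).toNat : ℤ) = kp p u := by omega
    have e4 : ((kp p (g₀ : K)).toNat : ℤ) - ((-kp p (g₀ : K)).toNat : ℤ) = kp p (g₀ : K) := by omega
    linear_combination e1 - e2 - e3 + e4
  obtain ⟨ε, hε⟩ := exists_unit_of_kp_eq_zero
    (div_ne_zero hu (mul_ne_zero hg₀0 (pow_ne_zero _ hw0))) hunit
  obtain ⟨t, ht, x, hx⟩ := hE' ε
  refine ⟨(g₀ : K) * (t : K), ⟨(c, t), ⟨Set.mem_univ _, ht⟩, rfl⟩, w * (x : K),
    mul_ne_zero hw0 (Units.coe_ne_zero x), ?_⟩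
  have hu2 : u = (ε : K) * (g₀ * w ^ n) := by
    rw [← hε, div_mul_cancel₀ _ (mul_ne_zero hg₀0 (pow_ne_zero _ hw0))]
  rw [hu2, hx]
  push_cast
  ring

end Pool.Agent.Work.MP_a793bb_nt
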