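import Pool.Agent.Work.MP_a793bb_nt.KeyLemma
import Pool.Agent.Work.MP_a793bb_nt.RadCount
import Pool.Agent.Work.MP_a793bb_nt.Selmer
import Pool.Agent.Work.MP_a793bb_nt.ArchCells

set_option autoImplicit false
set_option linter.unusedSectionVars false

namespace Pool.Agent.Work.MP_a793bb_nt

open NumberField IsDedekindDomain Height

variable {K : Type*} [Field K] [NumberField K]

namespace BPlus

open Classical in
/-- exponent at `p` of the part of the numerator of `y` with exponents in `E` -/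
noncomputable def pe (y : K) (E : Set ℕ) (p : HeightOneSpectrum (𝓞 K)) : ℕ :=
  if 0 < kp p y ∧ (kp p y).toNat ∈ E then (kp p y).toNat else 0

/-- the part of the numerator ideal of `y` with exponents in `E` -/
noncomputable def partI (y : K) (E : Set ℕ) : Ideal (𝓞 K) := ∏ᶠ p, p.asIdeal ^ pe y E p

lemma pe_eq_zero {y : K} (hy : y ≠ 0) (E : Set ℕ) {p : HeightOneSpectrum (𝓞 K)}
    (hp : p ∉ Zp y) : pe y E p = 0 := by
  unfold pe
  rw [if_neg]
  rintro ⟨h, -⟩
  exact hp ((av_lt_one_iff_kp p hy).mpr h)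

lemma partI_eq {y : K} (hy : y ≠ 0) (E : Set ℕ) :
    partI y E = ∏ p ∈ (finite_Zp hy).toFinset, p.asIdeal ^ pe y E p := by
  apply finprod_eq_prod_of_mulSupport_subset
  intro p hp
  by_contra hcon
  apply hp
  have : p ∉ Zp y := fun h => hcon (by simpa using h)
  simp [pe_eq_zero hy E this]

lemma partI_ne_bot {y : K} (hy : y ≠ 0) (E : Set ℕ) : partI y E ≠ ⊥ := by
  rw [partI_eq hy, ← Ideal.zero_eq_bot, Finset.prod_ne_zero_iff]
  intro p _
  exact pow_ne_zero _ p.ne_bot

lemma ex_one (q : HeightOneSpectrum (𝓞 K)) : ex (1 : Ideal (𝓞 K)) q = 0 := by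
  apply ex_eq_zero
  intro h
  exact q.prime.not_isUnit (isUnit_of_dvd_one h)

lemma ex_self (q : HeightOneSpectrum (𝓞 K)) : ex q.asIdeal q = 1 := by
  have h := ex_pow (K := K) q.ne_bot 1 q
  rw [ex]
  apply multiplicity_eq_of_emultiplicity_eq_some
  have := emultiplicity_pow_self_of_prime q.prime 1
  rw [pow_one] at this
  exact_mod_cast this

lemma ex_ne {p q : HeightOneSpectrum (𝓞 K)} (h : p ≠ q) : ex p.asIdeal q = 0 := by
  apply ex_eq_zero
  intro h1
  apply h
  have h4 := Ideal.le_of_dvd h1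
  have h5 : p.asIdeal = q.asIdeal := Ideal.IsMaximal.eq_of_le p.isMaximal q.isPrime.ne_top h4
  exact HeightOneSpectrum.ext h5

open Classical in
lemma ex_prod (S : Finset (HeightOneSpectrum (𝓞 K))) (f : HeightOneSpectrum (𝓞 K) → ℕ)
    (q : HeightOneSpectrum (𝓞 K)) :
    ex (∏ p ∈ S, p.asIdeal ^ f p) q = if q ∈ S then f q else 0 := by
  induction S using Finset.induction_on with
  | empty =>
    rw [Finset.prod_empty, ex_one]
    simp
  | insert a S ha ih =>
    have hne : (∏ p ∈ S, p.asIdeal ^ f p) ≠ ⊥ := by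
      rw [← Ideal.zero_eq_bot, Finset.prod_ne_zero_iff]
      intro p _
      exact pow_ne_zero _ p.ne_bot
    have hne2 : a.asIdeal ^ f a ≠ ⊥ := pow_ne_zero _ a.ne_bot
    rw [Finset.prod_insert ha, ex_mul hne2 hne, ih, ex_pow a.ne_bot]
    by_cases h : q = a
    · subst h
      simp [ha, ex_self]
    · have h' : a ≠ q := fun h2 => h h2.symm
      simp [h, ex_ne h']

lemma ex_partI {y : K} (hy : y ≠ 0) (E : Set ℕ) (p : HeightOneSpectrum (𝓞 K)) :
    ex (partI y E) p = pe y E p := by
  classical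
  rw [partI_eq hy, ex_prod]
  by_cases h : p ∈ (finite_Zp hy).toFinset
  · rw [if_pos h]
  · rw [if_neg h, pe_eq_zero hy E (fun h2 => h (by simpa using h2))]

lemma dvd_iff_ex {I : Ideal (𝓞 K)} (hI : I ≠ ⊥) (p : HeightOneSpectrum (𝓞 K)) :
    p.asIdeal ∣ I ↔ ex I p ≠ 0 := by
  constructor
  · intro h
    have := one_le_ex hI h
    omega
  · intro h
    by_contra hcon
    exact h (ex_eq_zero hcon)

lemma dvd_partI_iff {y : K} (hy : y ≠ 0) (E : Set ℕ) (p : HeightOneSpectrum (𝓞 K)) :
    p.asIdeal ∣ partI y E ↔ 0 < kp p y ∧ (kp p y).toNat ∈ E := by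
  rw [dvd_iff_ex (partI_ne_bot hy E), ex_partI hy]
  unfold pe
  split_ifs with h
  · simp only [h, and_self, iff_true]
    omega
  · simp [h]

/-- logarithm of the radical of the part with exponents in `E` -/
noncomputable def LR (y : K) (E : Set ℕ) : ℝ :=
  Rs {p | 0 < kp p y ∧ (kp p y).toNat ∈ E}

lemma log_absNorm_radical_partI {y : K} (hy : y ≠ 0) (E : Set ℕ) :
    Real.log (Ideal.absNorm (partI y E).radical : ℝ) = LR y E := by
  rw [absNorm_radical (partI_ne_bot hy E), Real.log_exp, LR]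
  congr 1
  ext p
  exact dvd_partI_iff hy E p

lemma log_absNorm_partI {y : K} (hy : y ≠ 0) (E : Set ℕ) :
    Real.log (Ideal.absNorm (partI y E) : ℝ) = LP y E := by
  classical
  have hT : ∀ p ∈ Zp y, p ∈ (finite_Zp hy).toFinset := fun p hp => by simpa using hp
  rw [LP_eq hy E _ hT, partI_eq hy, map_prod]
  push_cast
  rw [Real.log_prod]
  · refine Finset.sum_congr rfl fun p _ => ?_
    rw [map_pow]
    push_cast
    rw [Real.log_pow, pe, lpt]
    split_ifs with h
    · have h2 : (((kp p y).toNat : ℕ) : ℝ) = (kp p y : ℝ) := by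
        have : (((kp p y).toNat : ℕ) : ℤ) = kp p y := Int.toNat_of_nonneg h.1.le
        exact_mod_cast this
      rw [h2]; rfl
    · simp
  · intro p _
    rw [map_pow]
    push_cast
    have := two_le_Np p
    have h3 : (Ideal.absNorm p.asIdeal : ℝ) = Np p := rfl
    rw [h3]
    positivity

lemma kp_eq_of_partI_eq {y z : K} (hy : y ≠ 0) (hz : z ≠ 0) {E : Set ℕ}
    (h : partI y E = partI z E) (p : HeightOneSpectrum (𝓞 K)) (h1 : 0 < kp p y)
    (h2 : (kp p y).toNat ∈ E) : kp p y = kp p z := by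
  have e1 : pe z E p = pe y E p := by
    rw [← ex_partI hy E p, ← ex_partI hz E p, h]
  have e2 : pe y E p = (kp p y).toNat := by
    unfold pe
    rw [if_pos ⟨h1, h2⟩]
  rw [e2] at e1
  unfold pe at e1
  split_ifs at e1 with h3 <;> omega

end BPlus

end Pool.Agent.Work.MP_a793bb_nt
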