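import Pool.Agent.Work.MP_a793bb_nt.Basic

set_option autoImplicit false
set_option linter.unusedSectionVars false

namespace Pool.Agent.Work.MP_a793bb_nt

open NumberField IsDedekindDomain Height Polynomial

variable {K : Type*} [Field K] [NumberField K]

lemma eval_homogenize_vec (G : K[X]) (N : ℕ) (hG : G.natDegree ≤ N) (t : K) :
    MvPolynomial.eval ![t, 1] (G.homogenize N) = G.eval t := by
  rw [Polynomial.eval_homogenize hG _ (by simp)]
  simp

/-- upper height bound for a polynomial map -/
lemma logHeight₁_eval_le (G : K[X]) (N : ℕ) (hG : G.natDegree ≤ N) :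
    ∃ C : ℝ, ∀ t : K, logHeight₁ (G.eval t) ≤ N * logHeight₁ t + C := by
  let p : Fin 2 → MvPolynomial (Fin 2) K := ![G.homogenize N, (MvPolynomial.X 1) ^ N]
  have hp : ∀ i, (p i).IsHomogeneous N := by
    intro i
    fin_cases i
    · simp [p]
    · simpa [p] using (MvPolynomial.isHomogeneous_X K (1 : Fin 2)).pow N
  obtain ⟨C, hC⟩ := logHeight_eval_le' hp
  refine ⟨C, fun t => ?_⟩
  have h := hC ![t, 1]
  have h2 : (fun j => MvPolynomial.eval ![t, 1] (p j)) = ![G.eval t, 1] := by
    ext j
    fin_cases j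
    · simp [p, eval_homogenize_vec G N hG t]
    · simp [p]
  rw [h2, ← logHeight₁_eq_logHeight, ← logHeight₁_eq_logHeight] at h
  linarith

/-- Bezout identity with degree control. -/
lemma exists_bezout_pow {A B : K[X]} (h : IsCoprime A B) {n : ℕ} (hA : A.natDegree = n)
    (hB : B.natDegree ≤ n) (hn : 1 ≤ n) (m : ℕ) (hm : 2 * n - 1 ≤ m) :
    ∃ U V : K[X], U * A + V * B = X ^ m ∧ U.natDegree ≤ m - n ∧ V.natDegree ≤ m - n := by
  obtain ⟨U, V, hUV⟩ := h
  have hA0 : A ≠ 0 := by
    rintro rfl
    simp at hA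
    omega
  set V' := (X ^ m * V) % A with hV'
  set Q := (X ^ m * V) / A with hQ
  have hdiv : A * Q + V' = X ^ m * V := EuclideanDomain.div_add_mod (X ^ m * V) A
  have hV'deg : V'.natDegree < n := by
    rw [← hA]
    apply Polynomial.natDegree_mod_lt
    omega
  refine ⟨X ^ m * U + Q * B, V', ?_, ?_, ?_⟩
  · linear_combination X ^ m * hUV + B * hdiv
  · by_cases hU0 : X ^ m * U + Q * B = 0
    · rw [hU0]; simp
    have hid : (X ^ m * U + Q * B) * A = X ^ m - V' * B := by
      linear_combination X ^ m * hUV + B * hdiv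
    have hdeg : ((X ^ m * U + Q * B) * A).natDegree = (X ^ m * U + Q * B).natDegree + n := by
      rw [Polynomial.natDegree_mul hU0 hA0, hA]
    have hle : (X ^ m - V' * B).natDegree ≤ m := by
      refine (Polynomial.natDegree_sub_le _ _).trans ?_
      rw [Polynomial.natDegree_X_pow]
      refine max_le le_rfl ?_
      refine Polynomial.natDegree_mul_le.trans ?_
      omega
    rw [← hid, hdeg] at hle
    omega
  · omega

/-- lower height bound for a pair of coprime polynomials -/
lemma logHeight_triple_ge {A B : K[X]} (h : IsCoprime A B) {n : ℕ} (hn : 1 ≤ n)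
    (hAB : max A.natDegree B.natDegree = n) :
    ∃ C : ℝ, ∀ t c : K, n * logHeight₁ t ≤ logHeight ![A.eval t, B.eval t, c] + C := by
  -- Bezout identities
  have key : ∀ m : ℕ, 2 * n - 1 ≤ m →
      ∃ U V : K[X], U * A + V * B = X ^ m ∧ U.natDegree ≤ m - n ∧ V.natDegree ≤ m - n := by
    intro m hm
    rcases le_total B.natDegree A.natDegree with hle | hle
    · rw [max_eq_left hle] at hAB
      exact exists_bezout_pow h hAB (hAB ▸ hle) hn m hm
    · rw [max_eq_right hle] at hAB
      obtain ⟨U, V, h1, h2, h3⟩ := exists_bezout_pow h.symm hAB (hAB ▸ hle) hn m hm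
      exact ⟨V, U, by rw [add_comm]; exact h1, h3, h2⟩
  obtain ⟨U1, V1, hUV1⟩ := h
  set M := max (n - 1) (max U1.natDegree V1.natDegree) with hM
  obtain ⟨U0, V0, hUV0, hU0, hV0⟩ := key (M + n) (by omega)
  have hU0' : U0.natDegree ≤ M := by omega
  have hV0' : V0.natDegree ≤ M := by omega
  have hU1' : U1.natDegree ≤ M := by omega
  have hV1' : V1.natDegree ≤ M := by omega
  let q : Fin 2 × Fin 3 → MvPolynomial (Fin 2) K := fun kj =>
    ![![U0.homogenize M, V0.homogenize M, 0], ![U1.homogenize M, V1.homogenize M, 0]] kj.1 kj.2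
  have hq : ∀ a, (q a).IsHomogeneous M := by
    rintro ⟨k, j⟩
    fin_cases k <;> fin_cases j <;> simp [q, MvPolynomial.isHomogeneous_zero]
  obtain ⟨C, hC⟩ := logHeight_eval_ge' (M := M) (N := n) hq
  refine ⟨-C, fun t c => ?_⟩
  have hx := @hC (fun j => MvPolynomial.C (![A.eval t, B.eval t, c] j)) ![t, 1] ?_
  · rw [← logHeight₁_eq_logHeight] at hx
    simp only [MvPolynomial.eval_C] at hx
    linarith
  · intro k
    fin_cases k
    · simp only [q, Fin.sum_univ_three, MvPolynomial.eval_C]
      simp only [Fin.zero_eta, Matrix.cons_val_zero, Matrix.cons_val_one, Matrix.cons_val, map_zero,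
        zero_mul, add_zero]
      rw [eval_homogenize_vec _ _ hU0', eval_homogenize_vec _ _ hV0']
      have := congrArg (Polynomial.eval t) hUV0
      simpa using this
    · simp only [q, Fin.sum_univ_three, MvPolynomial.eval_C]
      simp only [Fin.mk_one, Matrix.cons_val_zero, Matrix.cons_val_one, Matrix.cons_val, map_zero,
        zero_mul, add_zero]
      rw [eval_homogenize_vec _ _ hU1', eval_homogenize_vec _ _ hV1']
      have := congrArg (Polynomial.eval t) hUV1
      simpa using this

/-- primes where some coefficient is not integral -/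
def coeffBad (Q : K[X]) : Set (HeightOneSpectrum (𝓞 K)) := {p | ∃ i, 1 < av p (Q.coeff i)}

lemma finite_coeffBad (Q : K[X]) : (coeffBad Q).Finite := by
  have : coeffBad Q ⊆ ⋃ i ∈ Q.support, {p : HeightOneSpectrum (𝓞 K) | av p (Q.coeff i) ≠ 1} := by
    rintro p ⟨i, hi⟩
    have h0 : Q.coeff i ≠ 0 := by
      intro h
      rw [h] at hi
      have : av p (0 : K) = 0 := map_zero _
      linarith
    simp only [Set.mem_iUnion]
    exact ⟨i, Polynomial.mem_support_iff.mpr h0, ne_of_gt hi⟩
  refine Set.Finite.subset ?_ this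
  apply Set.Finite.biUnion (Finset.finite_toSet _)
  intro i hi
  exact finite_av_ne_one (Polynomial.mem_support_iff.mp hi)

lemma av_eval_le_one {Q : K[X]} {p : HeightOneSpectrum (𝓞 K)} (hp : p ∉ coeffBad Q) {t : K}
    (ht : av p t ≤ 1) : av p (Q.eval t) ≤ 1 := by
  rw [Polynomial.eval_eq_sum_range]
  have hle : ∀ i, av p (Q.coeff i * t ^ i) ≤ 1 := by
    intro i
    rw [av_mul, av_pow]
    have h1 : av p (Q.coeff i) ≤ 1 := by
      by_contra hcon
      exact hp ⟨i, not_le.mp hcon⟩
    have h2 := pow_le_one₀ (n := i) (av_nonneg p t) ht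
    have h3 := av_nonneg p (Q.coeff i)
    have h4 := pow_nonneg (av_nonneg p t) i
    nlinarith
  induction Q.natDegree + 1 with
  | zero => simp [show av p (0 : K) = 0 from map_zero _]
  | succ k ih =>
    rw [Finset.sum_range_succ]
    refine (av_add_le p _ _).trans (max_le ih (hle k))

end Pool.Agent.Work.MP_a793bb_nt
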