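import Pool.Agent.Work.MP_a793bb_nt.NumIdeal
import Pool.Agent.Work.MP_a793bb_nt.Units

set_option autoImplicit false
set_option linter.unusedSectionVars false

namespace Pool.Agent.Work.MP_a793bb_nt

open NumberField IsDedekindDomain Filter Topology Height

variable {K : Type*} [Field K] [NumberField K]

open Real in
lemma log_place_le_logHeight₁ (v : InfinitePlace K) (y : K) : Real.log (v y) ≤ logHeight₁ y := by
  rw [NumberField.logHeight₁_eq]
  have h1 : log⁺ (v y) ≤ ∑ w : InfinitePlace K, (w.mult : ℝ) * log⁺ (w y) := by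
    have h2 : (v.mult : ℝ) * log⁺ (v y) ≤ ∑ w : InfinitePlace K, (w.mult : ℝ) * log⁺ (w y) :=
      Finset.single_le_sum (f := fun w : InfinitePlace K => (w.mult : ℝ) * log⁺ (w y))
        (fun w _ => mul_nonneg (by positivity) posLog_nonneg) (Finset.mem_univ v)
    refine le_trans ?_ h2
    have h3 : (1 : ℝ) ≤ v.mult := by exact_mod_cast InfinitePlace.one_le_mult
    have h4 : 0 ≤ log⁺ (v y) := posLog_nonneg
    nlinarith
  have h2 : 0 ≤ ∑ᶠ w : FinitePlace K, log⁺ (w y) := finsum_nonneg fun _ => posLog_nonneg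
  have h3 : Real.log (v y) ≤ log⁺ (v y) := le_max_right _ _
  linarith

/-- elements with prescribed zero and pole primes -/
def ptsWith (S T : Finset (HeightOneSpectrum (𝓞 K))) (X : ℝ) : Set K :=
  {y | y ≠ 0 ∧ mulHeight₁ y ≤ X ∧ Zp y = S ∧ Zp y⁻¹ = T}

lemma one_add_log_pow_le {δ : ℝ} (hδ : 0 < δ) (r : ℕ) : ∃ C : ℝ, 1 ≤ C ∧ ∀ X : ℝ, 1 ≤ X →
    (1 + 2 * Real.log X) ^ r ≤ C * X ^ δ := by
  set η : ℝ := δ / (r + 1) with hη
  have hη0 : 0 < η := by positivity
  refine ⟨(1 + 2 / η) ^ r, one_le_pow₀ (by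
    have : 0 < 2 / η := by positivity
    linarith), fun X hX => ?_⟩
  have h1 : Real.log X ≤ X ^ η / η := Real.log_le_rpow_div (by linarith) hη0
  have h2 : 1 ≤ X ^ η := Real.one_le_rpow hX hη0.le
  have h3 : 1 + 2 * Real.log X ≤ (1 + 2 / η) * X ^ η := by
    have : (1 + 2 / η) * X ^ η = X ^ η + 2 * (X ^ η / η) := by ring
    linarith
  have h4 : 0 ≤ Real.log X := Real.log_nonneg hX
  calc (1 + 2 * Real.log X) ^ r ≤ ((1 + 2 / η) * X ^ η) ^ r := by gcongr
    _ = (1 + 2 / η) ^ r * X ^ (η * r) := by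
        rw [mul_pow, ← Real.rpow_natCast (X ^ η), ← Real.rpow_mul (by linarith)]
    _ ≤ (1 + 2 / η) ^ r * X ^ δ := by
        gcongr
        rw [hη, div_mul_eq_mul_div, div_le_iff₀ (by positivity)]
        nlinarith

variable (K) in
lemma card_ptsWith_le {δ : ℝ} (hδ : 0 < δ) : ∃ C : ℝ, 1 ≤ C ∧
    ∀ (S T : Finset (HeightOneSpectrum (𝓞 K))) (X : ℝ), 1 ≤ X →
      (ptsWith S T X).Finite ∧ ((ptsWith S T X).ncard : ℝ) ≤ C * X ^ δ := by
  classical
  obtain ⟨C₁, hC₁, h1⟩ := card_idealsWith_le K (δ := δ / 3) (by positivity)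
  obtain ⟨C₂, hC₂, h2⟩ := card_units_le K
  obtain ⟨C₃, hC₃, h3⟩ := one_add_log_pow_le (δ := δ / 3) (by positivity) (Units.rank K)
  refine ⟨max 1 ((C₂ * C₃ + 1) * (C₁ * C₁)), le_max_left _ _, fun S T X hX => ?_⟩
  have hfin : (ptsWith S T X).Finite := by
    refine (NumberField.finite_setOfPred_mulHeight₁_le K X).subset ?_
    rintro y ⟨-, h, -⟩
    exact h
  refine ⟨hfin, ?_⟩
  set A := hfin.toFinset with hA
  have hncard : (ptsWith S T X).ncard = A.card := Set.ncard_eq_toFinset_card _ hfin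
  rw [hncard]
  obtain ⟨hSfin, hScard⟩ := h1 S X hX
  obtain ⟨hTfin, hTcard⟩ := h1 T X hX
  let Φ : K → Ideal (𝓞 K) × Ideal (𝓞 K) := fun y => (numI y, numI y⁻¹)
  have hlogH : ∀ y : K, mulHeight₁ y ≤ X → logHeight₁ y ≤ Real.log X := by
    intro y hy
    rw [logHeight₁_eq_log_mulHeight₁]
    exact Real.log_le_log (mulHeight₁_pos y) hy
  have himg : A.image Φ ⊆ hSfin.toFinset ×ˢ hTfin.toFinset := by
    intro IJ hIJ
    rw [Finset.mem_image] at hIJ
    obtain ⟨y, hy, rfl⟩ := hIJ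
    rw [hA, Set.Finite.mem_toFinset] at hy
    obtain ⟨hy0, hyX, hyS, hyT⟩ := hy
    have key : ∀ (y : K), y ≠ 0 → logHeight₁ y ≤ Real.log X →
        (Ideal.absNorm (numI y) : ℝ) ≤ X := by
      intro y hy hyX
      have e1 := (log_absNorm_numI_le hy).trans hyX
      have e2 : (0 : ℝ) < Ideal.absNorm (numI y) := by
        linarith [one_le_absNorm K (numI_ne_bot hy)]
      exact (Real.log_le_log_iff e2 (by linarith)).mp e1
    rw [Finset.mem_product, Set.Finite.mem_toFinset, Set.Finite.mem_toFinset]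
    refine ⟨⟨numI_ne_bot hy0, fun p => ?_, key y hy0 (hlogH y hyX)⟩,
      ⟨numI_ne_bot (inv_ne_zero hy0), fun p => ?_, key y⁻¹ (inv_ne_zero hy0) ?_⟩⟩
    · rw [dvd_numI_iff hy0, hyS]; simp
    · rw [dvd_numI_iff (inv_ne_zero hy0), hyT]; simp
    · rw [logHeight₁_inv]; exact hlogH y hyX
  have himgcard : ((A.image Φ).card : ℝ) ≤ (C₁ * X ^ (δ / 3)) * (C₁ * X ^ (δ / 3)) := by
    have e1 := Finset.card_le_card himg
    rw [Finset.card_product, ← Set.ncard_eq_toFinset_card _ hSfin,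
      ← Set.ncard_eq_toFinset_card _ hTfin] at e1
    calc ((A.image Φ).card : ℝ) ≤ (((idealsWith S X).ncard * (idealsWith T X).ncard : ℕ) : ℝ) := by
          exact_mod_cast e1
      _ ≤ _ := by push_cast; gcongr
  -- fibres
  set n : ℕ := ⌊C₂ * (1 + 2 * Real.log X) ^ (Units.rank K)⌋₊ with hn
  have hlogX : 0 ≤ Real.log X := Real.log_nonneg hX
  have hfib : ∀ a ∈ A.image Φ, (A.filter fun y => Φ y = a).card ≤ n := by
    intro a ha
    rw [Finset.mem_image] at ha
    obtain ⟨z, hz, rfl⟩ := ha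
    have hz' := hz
    rw [hA, Set.Finite.mem_toFinset] at hz'
    obtain ⟨hz0, hzX, -, -⟩ := hz'
    obtain ⟨hufin, hucard⟩ := h2 (2 * Real.log X) (by positivity)
    set U := {u : (𝓞 K)ˣ | ∀ v : InfinitePlace K, Real.log (v (u : K)) ≤ 2 * Real.log X} with hU
    have hsub : A.filter (fun y => Φ y = Φ z) ⊆ hufin.toFinset.image fun u : (𝓞 K)ˣ => (u : K) * z := by
      intro y hy
      rw [Finset.mem_filter, hA, Set.Finite.mem_toFinset] at hy
      obtain ⟨⟨hy0, hyX, -, -⟩, hyz⟩ := hy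
      simp only [Φ, Prod.mk.injEq] at hyz
      obtain ⟨u, hu⟩ := exists_unit_of_numI_eq hy0 hz0 hyz.1 hyz.2
      rw [Finset.mem_image]
      refine ⟨u, ?_, hu.symm⟩
      rw [Set.Finite.mem_toFinset]
      intro v
      have e1 : (u : K) = y * z⁻¹ := by rw [hu, mul_inv_cancel_right₀ hz0]
      rw [e1, map_mul, Real.log_mul (by simpa using hy0) (by simpa using hz0)]
      have e2 := log_place_le_logHeight₁ v y
      have e3 := log_place_le_logHeight₁ v z⁻¹
      rw [logHeight₁_inv] at e3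
      have e4 := hlogH y hyX
      have e5 := hlogH z hzX
      linarith
    refine (Finset.card_le_card hsub).trans (Finset.card_image_le.trans ?_)
    rw [← Set.ncard_eq_toFinset_card _ hufin]
    apply Nat.le_floor
    exact hucard
  have hmain := Finset.card_le_mul_card_image A n hfib
  have hn2 : (n : ℝ) ≤ C₂ * C₃ * X ^ (δ / 3) := by
    refine (Nat.floor_le (by positivity)).trans ?_
    have := h3 X hX
    rw [mul_assoc]
    exact mul_le_mul_of_nonneg_left this hC₂.le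
  have hX3 : 0 < X ^ (δ / 3) := Real.rpow_pos_of_pos (by linarith) _
  calc (A.card : ℝ) ≤ ((n * (A.image Φ).card : ℕ) : ℝ) := by exact_mod_cast hmain
    _ ≤ (C₂ * C₃ * X ^ (δ / 3)) * ((C₁ * X ^ (δ / 3)) * (C₁ * X ^ (δ / 3))) := by
        push_cast; gcongr
    _ = C₂ * C₃ * (C₁ * C₁) * X ^ δ := by
        have : X ^ δ = X ^ (δ / 3) * X ^ (δ / 3) * X ^ (δ / 3) := by
          rw [← Real.rpow_add (by linarith), ← Real.rpow_add (by linarith)]
          congr 1; ring
        rw [this]; ring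
    _ ≤ max 1 ((C₂ * C₃ + 1) * (C₁ * C₁)) * X ^ δ := by
        refine mul_le_mul_of_nonneg_right ?_ (by positivity)
        refine le_trans ?_ (le_max_right _ _)
        nlinarith [mul_pos (lt_of_lt_of_le one_pos hC₁) (lt_of_lt_of_le one_pos hC₁)]


/-- the radical ideal of the numerator -/
noncomputable def radI (y : K) : Ideal (𝓞 K) :=
  ∏ᶠ (p : HeightOneSpectrum (𝓞 K)) (_ : p ∈ Zp y), p.asIdeal

lemma radI_eq {y : K} (hy : y ≠ 0) : radI y = ∏ p ∈ (finite_Zp hy).toFinset, p.asIdeal :=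
  finprod_mem_eq_finite_toFinset_prod _ _

lemma radI_ne_bot {y : K} (hy : y ≠ 0) : radI y ≠ ⊥ := by
  rw [radI_eq hy, ← Ideal.zero_eq_bot, Finset.prod_ne_zero_iff]
  intro p _
  exact p.ne_bot

lemma dvd_radI_iff {y : K} (hy : y ≠ 0) (p : HeightOneSpectrum (𝓞 K)) :
    p.asIdeal ∣ radI y ↔ p ∈ Zp y := by
  rw [radI_eq hy]
  constructor
  · intro h
    rw [p.prime.dvd_finsetProd_iff] at h
    obtain ⟨q, hq, hpq⟩ := h
    have h3 : p = q := by
      have : q.asIdeal = p.asIdeal := by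
        have h4 := Ideal.le_of_dvd hpq
        exact (Ideal.IsMaximal.eq_of_le q.isMaximal p.isPrime.ne_top h4)
      exact HeightOneSpectrum.ext this.symm
    subst h3
    exact (Set.Finite.mem_toFinset _).mp hq
  · intro h
    exact Finset.dvd_prod_of_mem _ ((Set.Finite.mem_toFinset _).mpr h)

lemma absNorm_radI {y : K} (hy : y ≠ 0) :
    (Ideal.absNorm (radI y) : ℝ) = Real.exp (Rs (Zp y)) := by
  rw [radI_eq hy, map_prod, Rs, finsum_mem_eq_finite_toFinset_sum _ (finite_Zp hy), Real.exp_sum]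
  push_cast
  refine Finset.prod_congr rfl fun p _ => ?_
  rw [lN, Real.exp_log]
  have := two_le_Np p
  unfold Np at this
  linarith

/-- elements with bounded height whose zeros and poles have bounded radical -/
def ptsRad (X Y : ℝ) : Set K :=
  {y | y ≠ 0 ∧ mulHeight₁ y ≤ X ∧ Real.exp (Rs (Zp y)) * Real.exp (Rs (Zp y⁻¹)) ≤ Y}

variable (K) in
lemma card_ptsRad_le {δ : ℝ} (hδ : 0 < δ) : ∃ C : ℝ, 1 ≤ C ∧
    ∀ (X Y : ℝ), 1 ≤ X → 1 ≤ Y →
      (ptsRad (K := K) X Y).Finite ∧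
      ((ptsRad (K := K) X Y).ncard : ℝ) ≤ C * X ^ δ * Y ^ (1 + δ) := by
  classical
  obtain ⟨C₁, hC₁, h1⟩ := card_ptsWith_le K hδ
  obtain ⟨C₂, hC₂, h2⟩ := card_pairs_le K hδ
  refine ⟨C₁ * C₂, by nlinarith, fun X Y hX hY => ?_⟩
  have hfin : (ptsRad (K := K) X Y).Finite := by
    refine (NumberField.finite_setOfPred_mulHeight₁_le K X).subset ?_
    rintro y ⟨-, h, -⟩
    exact h
  refine ⟨hfin, ?_⟩
  set A := hfin.toFinset with hA
  have hncard : (ptsRad (K := K) X Y).ncard = A.card := Set.ncard_eq_toFinset_card _ hfin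
  rw [hncard]
  let Φ : K → Ideal (𝓞 K) × Ideal (𝓞 K) := fun y => (radI y, radI y⁻¹)
  obtain ⟨hPfin, hPcard⟩ := h2 Y hY
  have himg : ((A.image Φ).card : ℝ) ≤ C₂ * Y ^ (1 + δ) := by
    refine le_trans ?_ hPcard
    rw [Set.ncard_eq_toFinset_card _ hPfin]
    have : A.image Φ ⊆ hPfin.toFinset := by
      intro IJ hIJ
      rw [Finset.mem_image] at hIJ
      obtain ⟨y, hy, rfl⟩ := hIJ
      rw [hA, Set.Finite.mem_toFinset] at hy
      obtain ⟨hy0, -, hyY⟩ := hy
      rw [Set.Finite.mem_toFinset]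
      refine ⟨radI_ne_bot hy0, radI_ne_bot (inv_ne_zero hy0), ?_⟩
      simp only [Φ]
      rw [absNorm_radI hy0, absNorm_radI (inv_ne_zero hy0)]
      exact hyY
    exact_mod_cast Finset.card_le_card this
  set n : ℕ := ⌊C₁ * X ^ δ⌋₊ with hn
  have hfib : ∀ a ∈ A.image Φ, (A.filter fun y => Φ y = a).card ≤ n := by
    intro a ha
    rw [Finset.mem_image] at ha
    obtain ⟨z, hz, rfl⟩ := ha
    have hz' := hz
    rw [hA, Set.Finite.mem_toFinset] at hz'
    obtain ⟨hz0, hzX, -⟩ := hz'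
    obtain ⟨hFfin, hFcard⟩ := h1 (finite_Zp hz0).toFinset (finite_Zp (inv_ne_zero hz0)).toFinset X hX
    apply Nat.le_floor
    refine le_trans ?_ hFcard
    rw [Set.ncard_eq_toFinset_card _ hFfin]
    have : (A.filter fun y => Φ y = Φ z) ⊆ hFfin.toFinset := by
      intro y hy
      rw [Finset.mem_filter, hA, Set.Finite.mem_toFinset] at hy
      obtain ⟨⟨hy0, hyX, -⟩, hyz⟩ := hy
      simp only [Φ, Prod.mk.injEq] at hyz
      rw [Set.Finite.mem_toFinset]
      refine ⟨hy0, hyX, ?_, ?_⟩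
      · rw [Set.Finite.coe_toFinset]
        ext p
        rw [← dvd_radI_iff hy0, ← dvd_radI_iff hz0, hyz.1]
      · rw [Set.Finite.coe_toFinset]
        ext p
        rw [← dvd_radI_iff (inv_ne_zero hy0), ← dvd_radI_iff (inv_ne_zero hz0), hyz.2]
    exact_mod_cast Finset.card_le_card this
  have hmain := Finset.card_le_mul_card_image A n hfib
  have hX0 : (0 : ℝ) < X := by linarith
  calc (A.card : ℝ) ≤ ((n * (A.image Φ).card : ℕ) : ℝ) := by exact_mod_cast hmain
    _ ≤ (C₁ * X ^ δ) * (C₂ * Y ^ (1 + δ)) := by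
        push_cast
        gcongr
        exact Nat.floor_le (by positivity)
    _ = C₁ * C₂ * X ^ δ * Y ^ (1 + δ) := by ring

end Pool.Agent.Work.MP_a793bb_nt
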