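import Pool.Agent.Work.MP_a793bb_nt.Sides

set_option autoImplicit false
set_option linter.unusedSectionVars false

namespace Pool.Agent.Work.MP_a793bb_nt

open NumberField IsDedekindDomain Height

variable {K : Type*} [Field K] [NumberField K]

namespace BPlus

/-! ### Types of bounds -/

/-- a type of bound: the exponent `n + 1`, the distinguished side, the sets of classes -/
abbrev BT := Fin 3 × Fin 3 × (Fin 3 → Fin 5 → Bool)

/-- coefficient of a class on a side -/
noncomputable def coef (β : BT) (j : Fin 3) (c : Fin 5) : ℝ :=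
  if j = β.2.1 then ((c : ℕ) + 1 : ℝ) else ((c : ℕ) + 1 : ℝ) / ((β.1 : ℕ) + 1 : ℝ)

/-- classes which are specified -/
noncomputable def costA (β : BT) (w : Fin 3 → Fin 5 → ℝ) : ℝ :=
  ∑ j, ∑ c, if β.2.2 j c = true then 0 else w j c

/-- classes which are not specified -/
noncomputable def costB (β : BT) (w : Fin 3 → Fin 5 → ℝ) : ℝ :=
  ∑ j, ∑ c, if β.2.2 j c = true then coef β j c * w j c else 0

/-- the exponent of the bound -/
noncomputable def cost (β : BT) (w : Fin 3 → Fin 5 → ℝ) : ℝ :=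
  costA β w + max 0 (costB β w - 1)

/-- validity of a type -/
def Valid (β : BT) : Prop :=
  (∀ j, j ≠ β.2.1 → ∀ c : Fin 5, β.2.2 j c = true →
    (c : ℕ) < 4 ∧ ((β.1 : ℕ) + 1) ∣ ((c : ℕ) + 1)) ∧
  (β.2.2 β.2.1 4 = false ∨
    ((∀ c, β.2.2 β.2.1 c = true) ∧ ∀ j, j ≠ β.2.1 → ∀ c, β.2.2 j c = false))

/-- The combinatorial statement: the radical weights with total at most `Λ` admit a bound with
exponent at most `κ`. -/
def LPH (Λ κ : ℝ) : Prop :=
  ∀ w : Fin 3 → Fin 5 → ℝ, (∀ j c, 0 ≤ w j c) →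
    (∀ j, ∑ c : Fin 5, ((c : ℕ) + 1 : ℝ) * w j c ≤ 1) → ∑ j, ∑ c, w j c ≤ Λ →
    ∃ β : BT, Valid β ∧ cost β w ≤ κ

lemma costA_mono {β : BT} {w W : Fin 3 → Fin 5 → ℝ} {η : ℝ} (hη : 0 ≤ η)
    (h : ∀ j c, W j c ≤ w j c + η) : costA β W ≤ costA β w + 15 * η := by
  have h1 : costA β W ≤ ∑ j : Fin 3, ∑ c : Fin 5,
      ((if β.2.2 j c = true then 0 else w j c) + η) := by
    refine Finset.sum_le_sum fun j _ => Finset.sum_le_sum fun c _ => ?_
    split_ifs
    · linarith
    · exact h j c
  refine h1.trans (le_of_eq ?_)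
  simp only [Finset.sum_add_distrib, costA, Finset.sum_const, Finset.card_univ, Fintype.card_fin,
    nsmul_eq_mul]
  push_cast
  ring

lemma coef_nonneg (β : BT) (j : Fin 3) (c : Fin 5) : 0 ≤ coef β j c := by
  unfold coef
  split_ifs <;> positivity

lemma coef_le (β : BT) (j : Fin 3) (c : Fin 5) : coef β j c ≤ 5 := by
  have h1 : ((c : ℕ) : ℝ) ≤ 4 := by
    have := c.isLt
    have h2 : (c : ℕ) ≤ 4 := by omega
    exact_mod_cast h2
  unfold coef
  split_ifs
  · linarith
  · rw [div_le_iff₀ (by positivity)]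
    have : (0 : ℝ) ≤ ((β.1 : ℕ) : ℝ) := Nat.cast_nonneg _
    nlinarith

lemma costB_mono {β : BT} {w W : Fin 3 → Fin 5 → ℝ} {η : ℝ} (hη : 0 ≤ η)
    (h : ∀ j c, W j c ≤ w j c + η) : costB β W ≤ costB β w + 75 * η := by
  have h1 : costB β W ≤ ∑ j : Fin 3, ∑ c : Fin 5,
      ((if β.2.2 j c = true then coef β j c * w j c else 0) + 5 * η) := by
    refine Finset.sum_le_sum fun j _ => Finset.sum_le_sum fun c _ => ?_
    split_ifs
    · have h2 := mul_le_mul_of_nonneg_left (h j c) (coef_nonneg β j c)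
      have h3 := mul_le_mul_of_nonneg_right (coef_le β j c) hη
      linarith
    · linarith
  refine h1.trans (le_of_eq ?_)
  simp only [Finset.sum_add_distrib, costB, Finset.sum_const, Finset.card_univ, Fintype.card_fin,
    nsmul_eq_mul]
  push_cast
  ring

lemma cost_mono {β : BT} {w W : Fin 3 → Fin 5 → ℝ} {η : ℝ} (hη : 0 ≤ η)
    (h : ∀ j c, W j c ≤ w j c + η) : cost β W ≤ cost β w + 90 * η := by
  have h1 := costA_mono (β := β) hη h
  have h2 := costB_mono (β := β) hη h
  have h3 : max 0 (costB β W - 1) ≤ max 0 (costB β w - 1) + 75 * η := by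
    apply max_le
    · have := le_max_left 0 (costB β w - 1)
      linarith
    · have := le_max_right 0 (costB β w - 1)
      linarith
  unfold cost
  linarith

lemma sum_rot (f : Fin 3 → ℝ) (u : Fin 3) : ∑ j, f j = f (u + 1) + f (u + 2) + f u := by
  fin_cases u
  · simp [Fin.sum_univ_three]; ring
  · simp [Fin.sum_univ_three]; ring
  · simp [Fin.sum_univ_three]

lemma succ_ne (u : Fin 3) : u + 1 ≠ u := by fin_cases u <;> decide

lemma succ2_ne (u : Fin 3) : u + 2 ≠ u := by fin_cases u <;> decide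

/-- points of a dyadic block, with weights bounded by `W` -/
structure Blk (Y : ℝ) (W : Fin 3 → Fin 5 → ℝ) (t : K) : Prop where
  n0 : t ≠ 0
  n1 : t ≠ 1
  lo : Real.log Y ≤ hh t
  up : hh t ≤ Real.log (2 * Y)
  wt : ∀ j c, LRc (side j t) c ≤ W j c * Real.log (2 * Y)

variable (K) in
/-- The bound attached to a valid type. -/
theorem card_type_le {β : BT} (hβ : Valid β) {ε : ℝ} (hε : 0 < ε) : ∃ C : ℝ, 1 ≤ C ∧
    ∀ Y : ℝ, 1 ≤ Y → ∀ W : Fin 3 → Fin 5 → ℝ, ∀ F : Finset K, (∀ t ∈ F, Blk Y W t) →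
      (F.card : ℝ) ≤ C * Y ^ ε * Real.exp (cost β W * Real.log (2 * Y)) := by
  classical
  set u := β.2.1 with hu
  set i : ℕ := (β.1 : ℕ) + 1 with hi
  have hi1 : 1 ≤ i := by omega
  have hR : ∀ j, j ≠ u → ∀ e ∈ Eset (β.2.2 j), i ∣ e := by
    intro j hj e he
    obtain ⟨h1, h2⟩ := hβ.1 j hj (cls e) he
    rcases Nat.eq_zero_or_pos e with h0 | h0
    · rw [h0]; exact dvd_zero _
    · have h3 : ((cls e : Fin 5) : ℕ) + 1 = e := by
        simp only [cls] at h1 ⊢
        omega
      rw [← h3]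
      exact h2
  obtain ⟨C, hC, hcount⟩ := card_block_le K hi1 (Ra := Eset (β.2.2 (u + 1)))
    (Rb := Eset (β.2.2 (u + 2))) (Rc := Eset (β.2.2 u)) (hR _ (succ_ne u)) (hR _ (succ2_ne u)) hε
  refine ⟨C * 2, by linarith, fun Y hY W F hF => ?_⟩
  have hY0 : 0 < Y := by linarith
  set L : ℝ := Real.log (2 * Y) with hL
  have hL0 : 0 < L := Real.log_pos (by linarith)
  have hLY : Real.log Y = L - Real.log 2 := by
    rw [hL, Real.log_mul (by norm_num) hY0.ne']
    ring
  rcases F.eq_empty_or_nonempty with hFe | hFne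
  · rw [hFe]
    simp only [Finset.card_empty, Nat.cast_zero]
    positivity
  set F' : Finset K := F.image (sOf u) with hF'
  have hcardF : F'.card = F.card := by
    apply Finset.card_image_of_injOn
    intro t ht t' ht' h
    exact sOf_injective u (hF t ht).n1 (hF t' ht').n1 h
  -- weights of the specified and of the unspecified classes
  set A : Fin 3 → ℝ := fun j => ∑ c : Fin 5, if β.2.2 j c = true then 0 else W j c with hA
  set B : Fin 3 → ℝ := fun j => ∑ c : Fin 5,
    if β.2.2 j c = true then ((c : ℕ) + 1 : ℝ) * W j c else 0 with hB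
  have hAj : ∀ t ∈ F, ∀ j, LR (side j t) (Eset (β.2.2 j))ᶜ ≤ L * A j := by
    intro t ht j
    have hg := hF t ht
    rw [LR_Eset_compl (side_ne_zero hg.n0 hg.n1 j), hA, Finset.mul_sum]
    refine Finset.sum_le_sum fun c _ => ?_
    split_ifs
    · simp
    · rw [mul_comm]
      exact hg.wt j c
  have hBj : ∀ t ∈ F, ∀ j, β.2.2 j 4 = false → LP (side j t) (Eset (β.2.2 j)) ≤ L * B j := by
    intro t ht j hj
    have hg := hF t ht
    refine (LP_Eset_le (side_ne_zero hg.n0 hg.n1 j) _ hj).trans ?_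
    rw [hB, Finset.mul_sum]
    refine Finset.sum_le_sum fun c _ => ?_
    split_ifs
    · have h1 := hg.wt j c
      have h2 : (0 : ℝ) ≤ ((c : ℕ) : ℝ) + 1 := by positivity
      have h3 := mul_le_mul_of_nonneg_left h1 h2
      linarith
    · simp
  have hj4 : ∀ j, j ≠ u → β.2.2 j 4 = false := by
    intro j hj
    by_contra hcon
    have h1 : β.2.2 j 4 = true := by simpa using hcon
    have h2 := (hβ.1 j hj 4 h1).1
    exact absurd h2 (by decide)
  have hcostA : costA β W = A (u + 1) + A (u + 2) + A u := sum_rot A u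
  have hcostB : costB β W = (B (u + 1) + B (u + 2)) / i + B u := by
    unfold costB
    rw [sum_rot (fun j => ∑ c, if β.2.2 j c = true then coef β j c * W j c else 0) u]
    have hne : ∀ j, j ≠ u → (∑ c, if β.2.2 j c = true then coef β j c * W j c else 0) =
        B j / i := by
      intro j hj
      rw [hB, Finset.sum_div]
      refine Finset.sum_congr rfl fun c _ => ?_
      split_ifs
      · rw [coef, if_neg hj, hi]
        push_cast
        ring
      · simp
    have heq : (∑ c, if β.2.2 u c = true then coef β u c * W u c else 0) = B u := by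
      rw [hB]
      refine Finset.sum_congr rfl fun c _ => ?_
      split_ifs
      · rw [coef, if_pos rfl]
      · rfl
    simp only [hne _ (succ_ne u), hne _ (succ2_ne u), heq]
    ring
  have hnorm : ∀ (zc : ℝ), (∀ t ∈ F, LP (side u t) (Eset (β.2.2 u)) ≤ zc) →
      (F.card : ℝ) ≤ C * Y ^ ε * Real.exp (L * A (u + 1) + L * A (u + 2) + L * A u +
        max 0 ((L * B (u + 1) + L * B (u + 2)) / i + zc - Real.log Y)) := by
    intro zc hzc
    rw [← hcardF]
    apply hcount Y _ _ _ _ _ _ hY F'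
    · intro s hs
      rw [hF', Finset.mem_image] at hs
      obtain ⟨t, ht, rfl⟩ := hs
      have hg := hF t ht
      refine ⟨sOf_ne_zero hg.n0 hg.n1 u, one_add_sOf_ne_zero hg.n0 hg.n1 u, ?_, ?_, ?_, ?_, ?_⟩
      · rw [hs_sOf hg.n0 hg.n1]; exact hg.lo
      · rw [hs_sOf hg.n0 hg.n1]; exact hg.up
      · rw [(sameNum_a hg.n0 hg.n1 u).LP_eq]
        exact hBj t ht _ (hj4 _ (succ_ne u))
      · rw [(sameNum_b hg.n0 hg.n1 u).LP_eq]
        exact hBj t ht _ (hj4 _ (succ2_ne u))
      · rw [(sameNum_c hg.n0 hg.n1 u).LP_eq]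
        exact hzc t ht
    · intro s hs
      rw [hF', Finset.mem_image] at hs
      obtain ⟨t, ht, rfl⟩ := hs
      have hg := hF t ht
      refine ⟨?_, ?_, ?_⟩
      · rw [(sameNum_a hg.n0 hg.n1 u).LR_eq]
        exact hAj t ht _
      · rw [(sameNum_b hg.n0 hg.n1 u).LR_eq]
        exact hAj t ht _
      · rw [(sameNum_c hg.n0 hg.n1 u).LR_eq]
        exact hAj t ht _
  have hlog2 : 0 < Real.log 2 := Real.log_pos (by norm_num)
  have hfinal : ∀ E : ℝ, E ≤ cost β W * L + Real.log 2 →
      C * Y ^ ε * Real.exp E ≤ C * 2 * Y ^ ε * Real.exp (cost β W * L) := by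
    intro E hE
    have h1 : Real.exp E ≤ 2 * Real.exp (cost β W * L) := by
      calc Real.exp E ≤ Real.exp (cost β W * L + Real.log 2) := Real.exp_le_exp.mpr hE
        _ = 2 * Real.exp (cost β W * L) := by
            rw [Real.exp_add, Real.exp_log (by norm_num)]
            ring
    have h2 : 0 ≤ C * Y ^ ε := by positivity
    calc C * Y ^ ε * Real.exp E ≤ C * Y ^ ε * (2 * Real.exp (cost β W * L)) :=
          mul_le_mul_of_nonneg_left h1 h2
      _ = C * 2 * Y ^ ε * Real.exp (cost β W * L) := by ring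
  rcases hβ.2 with h4 | ⟨-, h5⟩
  · refine (hnorm (L * B u) (fun t ht => hBj t ht u h4)).trans (hfinal _ ?_)
    have e1 : (L * B (u + 1) + L * B (u + 2)) / i + L * B u - Real.log Y =
        L * (costB β W - 1) + Real.log 2 := by
      rw [hcostB, hLY]
      ring
    rw [e1]
    have e2 : max 0 (L * (costB β W - 1) + Real.log 2) ≤
        L * max 0 (costB β W - 1) + Real.log 2 := by
      apply max_le
      · have : 0 ≤ L * max 0 (costB β W - 1) := mul_nonneg hL0.le (le_max_left _ _)
        linarith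
      · have := mul_le_mul_of_nonneg_left (le_max_right 0 (costB β W - 1)) hL0.le
        linarith
    unfold cost
    rw [hcostA]
    nlinarith [e2]
  · have hB0 : ∀ j, j ≠ u → B j = 0 := by
      intro j hj
      rw [hB]
      refine Finset.sum_eq_zero fun c _ => ?_
      rw [h5 j hj c]
      simp
    refine (hnorm L (fun t ht => ?_)).trans (hfinal _ ?_)
    · exact (LP_side_le (hF t ht).n0 (hF t ht).n1 u _).trans (hF t ht).up
    · rw [hB0 _ (succ_ne u), hB0 _ (succ2_ne u)]
      have e1 : (L * 0 + L * 0) / (i : ℝ) + L - Real.log Y = Real.log 2 := by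
        rw [hLY]
        ring
      rw [e1, max_eq_right hlog2.le]
      unfold cost
      rw [hcostA]
      have := mul_nonneg (le_max_left 0 (costB β W - 1)) hL0.le
      nlinarith

end BPlus

end Pool.Agent.Work.MP_a793bb_nt
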